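import Pool.Agent.Lib.JK.Cut

/-! Killing edges: the K-digon operation (S5, MP_c95763_co).

`A` is a set of killed darts, closed under `al` (killed edges, and possibly killed tokens), at most
one at every vertex. The new graph has the same vertices and darts; the killed darts are joined in
another way (`al'`): a killed dart `d` is joined to the killed dart `al' d`, whose vertex is the other
end of an edge `p d` of `G` (the pair edge), so that the pair edge becomes a double edge (a digon),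
or it becomes a token (`al' d = d`). Perfect matchings of the new graph are the perfect matchings of
`G` which avoid the killed edges. -/

set_option autoImplicit false

namespace JK.CG

open Finset Classical

variable {V D : Type*} (G : CG V D)

/-- the data of killing edges -/
structure KD (A : Finset D) (al' p : D → D) : Prop where
  sub : A ⊆ G.ds
  cl : ∀ d ∈ A, G.al d ∈ A
  cl' : ∀ d ∈ A, al' d ∈ A
  inv' : ∀ d ∈ A, al' (al' d) = d
  off : ∀ d ∈ G.ds, d ∉ A → al' d = G.al d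
  inj : ∀ d ∈ A, ∀ e ∈ A, G.pi d = G.pi e → d = e
  pair : ∀ d ∈ A, al' d ≠ d → p d ∈ G.ds ∧ p d ∉ A ∧ G.al (p d) ≠ p d ∧
    G.pi (p d) = G.pi d ∧ p (al' d) = G.al (p d)

namespace KD

variable {G} {A : Finset D} {al' p : D → D} (h : G.KD A al' p)
include h

lemma al_off {d : D} (hd : d ∈ G.ds) (hA : d ∉ A) : G.al d ∉ A := by
  intro h1
  have := h.cl _ h1
  rw [G.al_al d hd] at this
  exact hA this

/-- the graph after killing -/
def gr : CG V D where
  vs := G.vs
  ds := G.ds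
  pi := G.pi
  al := al'
  pi_mem := G.pi_mem
  al_mem := by
    intro d hd
    by_cases hA : d ∈ A
    · exact h.sub (h.cl' d hA)
    · rw [h.off d hd hA]; exact G.al_mem d hd
  al_al := by
    intro d hd
    by_cases hA : d ∈ A
    · exact h.inv' d hA
    · rw [h.off d hd hA, h.off _ (G.al_mem d hd) (h.al_off hd hA), G.al_al d hd]
  cubic := G.cubic

@[simp] lemma gr_vs : h.gr.vs = G.vs := rfl
@[simp] lemma gr_ds : h.gr.ds = G.ds := rfl
@[simp] lemma gr_pi : h.gr.pi = G.pi := rfl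
@[simp] lemma gr_al : h.gr.al = al' := rfl

/-- the other end of the pair edge -/
lemma pi_pair {d : D} (hd : d ∈ A) (hn : al' d ≠ d) : G.pi (G.al (p d)) = G.pi (al' d) := by
  have h1 := (h.pair d hd hn).2.2.2.2
  have h2 : al' (al' d) ≠ al' d := by rw [h.inv' d hd]; exact fun e => hn e.symm
  rw [← h1]
  exact (h.pair _ (h.cl' d hd) h2).2.2.2.1

/-! ### matchings -/

/-- the lift of a matching: the doubled edges are replaced by the pair edges -/
noncomputable def lift (A : Finset D) (p : D → D) (M : Finset D) : Finset D :=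
  (M \ A) ∪ (M ∩ A).image p

omit h in
lemma mem_lift {M : Finset D} {d : D} :
    d ∈ lift A p M ↔ (d ∈ M ∧ d ∉ A) ∨ ∃ e, e ∈ M ∧ e ∈ A ∧ p e = d := by
  unfold lift
  simp only [mem_union, mem_sdiff, mem_image, mem_inter, and_assoc]

lemma lift_pm {M : Finset D} (hM : h.gr.IsPM M) : G.IsPM (lift A p M) := by
  have hne : ∀ e ∈ M, al' e ≠ e := fun e he => hM.notok e he
  refine ⟨?_, ?_, ?_, ?_⟩
  · intro d hd
    rw [mem_lift] at hd
    rcases hd with ⟨h1, -⟩ | ⟨e, h1, h2, rfl⟩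
    · exact hM.sub h1
    · exact (h.pair e h2 (hne e h1)).1
  · intro d hd
    rw [mem_lift] at hd ⊢
    rcases hd with ⟨h1, h2⟩ | ⟨e, h1, h2, rfl⟩
    · left
      have h3 := hM.sub h1
      have h4 := hM.closed d h1
      rw [gr_al, h.off d h3 h2] at h4
      exact ⟨h4, h.al_off h3 h2⟩
    · right
      refine ⟨al' e, hM.closed e h1, h.cl' e h2, ?_⟩
      exact (h.pair e h2 (hne e h1)).2.2.2.2
  · intro d hd
    rw [mem_lift] at hd
    rcases hd with ⟨h1, h2⟩ | ⟨e, h1, h2, rfl⟩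
    · have := hne d h1
      rwa [h.off d (hM.sub h1) h2] at this
    · exact (h.pair e h2 (hne e h1)).2.2.1
  · intro v hv
    have h1 := hM.one v hv
    rw [card_eq_one] at h1 ⊢
    obtain ⟨e, he⟩ := h1
    have he' : e ∈ M ∧ G.pi e = v := by
      have : e ∈ M.filter fun d => h.gr.pi d = v := by rw [he]; simp
      simpa using this
    have huniq : ∀ d ∈ M, G.pi d = v → d = e := by
      intro d hd hp
      have : d ∈ M.filter fun d => h.gr.pi d = v := by simp [hd, hp]
      rw [he] at this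
      simpa using this
    by_cases hA : e ∈ A
    · have hp := h.pair e hA (hne e he'.1)
      refine ⟨p e, ?_⟩
      ext d
      simp only [mem_filter, mem_lift, mem_singleton]
      constructor
      · rintro ⟨⟨h2, h3⟩ | ⟨e', h2, h3, rfl⟩, h4⟩
        · exact absurd hA (by rw [← huniq d h2 h4]; exact h3)
        · have h5 := (h.pair e' h3 (hne e' h2)).2.2.2.1
          rw [huniq e' h2 (h5.symm.trans h4)]
      · rintro rfl
        exact ⟨Or.inr ⟨e, he'.1, hA, rfl⟩, hp.2.2.2.1.trans he'.2⟩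
    · refine ⟨e, ?_⟩
      ext d
      simp only [mem_filter, mem_lift, mem_singleton]
      constructor
      · rintro ⟨⟨h2, h3⟩ | ⟨e', h2, h3, rfl⟩, h4⟩
        · exact huniq d h2 h4
        · have h5 := (h.pair e' h3 (hne e' h2)).2.2.2.1
          exact absurd h3 (by rw [huniq e' h2 (h5.symm.trans h4)]; exact hA)
      · rintro rfl
        exact ⟨Or.inl ⟨he'.1, hA⟩, he'.2⟩

/-- the lifted matching avoids the killed edges -/
lemma lift_not {M : Finset D} (hM : h.gr.IsPM M) {d : D} (hd : d ∈ A) : d ∉ lift A p M := by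
  rw [mem_lift]
  rintro (⟨-, h1⟩ | ⟨e, h1, h2, h3⟩)
  · exact h1 hd
  · exact (h.pair e h2 (hM.notok e h1)).2.1 (h3 ▸ hd)

/-! ### cuts of untouched sets -/

/-- the touched vertices -/
noncomputable def tch (G : CG V D) (A : Finset D) : Finset V := A.image G.pi

omit h in
lemma mem_tch {v : V} : v ∈ tch G A ↔ ∃ d ∈ A, G.pi d = v := by
  simp [tch]

lemma bd_untouched {Z : Finset V} (hZ : ∀ v ∈ Z, v ∉ tch G A) : h.gr.bd Z = G.bd Z := by
  ext d
  rw [mem_bd, mem_bd]
  simp only [gr_ds, gr_pi, gr_al]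
  constructor
  · rintro ⟨h1, h2, h3⟩
    have hA : d ∉ A := fun hA => hZ _ h2 (mem_tch.2 ⟨d, hA, rfl⟩)
    rw [h.off d h1 hA] at h3
    exact ⟨h1, h2, h3⟩
  · rintro ⟨h1, h2, h3⟩
    have hA : d ∉ A := fun hA => hZ _ h2 (mem_tch.2 ⟨d, hA, rfl⟩)
    rw [← h.off d h1 hA] at h3
    exact ⟨h1, h2, h3⟩

lemma tk_gr (X : Finset V) : h.gr.tk X =
    (G.tk X \ A) ∪ (A.filter fun d => G.pi d ∈ X ∧ al' d = d) := by
  ext d
  simp only [mem_union, mem_sdiff, mem_tk, mem_filter, gr_ds, gr_pi, gr_al]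
  constructor
  · rintro ⟨h1, h2, h3⟩
    by_cases hA : d ∈ A
    · exact Or.inr ⟨hA, h2, h3⟩
    · rw [h.off d h1 hA] at h3
      exact Or.inl ⟨⟨h1, h2, h3⟩, hA⟩
  · rintro (⟨⟨h1, h2, h3⟩, hA⟩ | ⟨hA, h2, h3⟩)
    · exact ⟨h1, h2, by rw [h.off d h1 hA]; exact h3⟩
    · exact ⟨h.sub hA, h2, h3⟩

/-- the number of tokens does not grow -/
lemma four (h4 : (G.tk G.vs).card ≤ 4)
    (hc : (A.filter fun d => al' d = d).card ≤ (A.filter fun d => G.al d = d).card) :
    (h.gr.tk h.gr.vs).card ≤ 4 := by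
  rw [h.tk_gr, gr_vs]
  have e1 : (A.filter fun d => G.pi d ∈ G.vs ∧ al' d = d) = A.filter fun d => al' d = d := by
    ext d
    simp only [mem_filter]
    exact ⟨fun ⟨a, _, c⟩ => ⟨a, c⟩, fun ⟨a, c⟩ => ⟨a, G.pi_mem d (h.sub a), c⟩⟩
  have e2 : (A.filter fun d => G.al d = d) ⊆ G.tk G.vs := by
    intro d hd
    rw [mem_filter] at hd
    exact (mem_tk _).2 ⟨h.sub hd.1, G.pi_mem d (h.sub hd.1), hd.2⟩
  have e3 : G.tk G.vs \ A = G.tk G.vs \ (A.filter fun d => G.al d = d) := by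
    ext d
    simp only [mem_sdiff, mem_filter, mem_tk]
    constructor
    · rintro ⟨a, b⟩; exact ⟨a, fun c => b c.1⟩
    · rintro ⟨a, b⟩; exact ⟨a, fun c => b ⟨c, a.2.2⟩⟩
  calc _ ≤ (G.tk G.vs \ A).card + (A.filter fun d => al' d = d).card := by
        rw [e1]; exact card_union_le _ _
    _ ≤ (G.tk G.vs \ A).card + (A.filter fun d => G.al d = d).card := by omega
    _ = (G.tk G.vs).card := by
        rw [e3, card_sdiff_add_card_eq_card e2]
    _ ≤ 4 := h4

/-! ### classes -/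

variable {K : Finset V} {F : Finset D}

lemma cls (hc : G.Cls K F) : h.gr.Cls (K ∪ tch G A) (F \ A) := by
  refine ⟨?_, ?_, ?_, ?_, ?_, ?_⟩
  · intro v hv
    rcases mem_union.1 hv with h1 | h1
    · exact hc.Ksub h1
    · obtain ⟨d, h2, rfl⟩ := mem_tch.1 h1
      exact G.pi_mem d (h.sub h2)
  · exact sdiff_subset.trans hc.Fsub
  · intro d hd
    rw [mem_sdiff] at hd
    have h1 := hc.Fsub hd.1
    rw [gr_al, h.off d h1 hd.2, mem_sdiff]
    exact ⟨hc.Fal d hd.1, h.al_off h1 hd.2⟩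
  · intro d hd
    rw [mem_sdiff] at hd
    rw [gr_al, h.off d (hc.Fsub hd.1) hd.2]
    exact hc.Ftok d hd.1
  · intro v hv hvK
    rw [mem_union, not_or] at hvK
    rw [← hc.F2 v hv hvK.1]
    congr 1
    ext d
    simp only [mem_filter, mem_sdiff, gr_pi]
    constructor
    · rintro ⟨⟨a, -⟩, b⟩; exact ⟨a, b⟩
    · rintro ⟨a, b⟩
      exact ⟨⟨a, fun hA => hvK.2 (mem_tch.2 ⟨d, hA, b⟩)⟩, b⟩
  · intro d hd hal
    rw [gr_al] at hal
    rw [mem_union, gr_pi]
    by_cases hA : d ∈ A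
    · exact Or.inr (mem_tch.2 ⟨d, hA, rfl⟩)
    · rw [h.off d hd hA] at hal
      exact Or.inl (hc.tokK d hd hal)

lemma adm_iff (hc : G.Cls K F) {Z : Finset V} : h.gr.Adm (K ∪ tch G A) (F \ A) Z ↔
    G.Adm K F Z ∧ ∀ v ∈ Z, v ∉ tch G A := by
  constructor
  · intro hZ
    have h0 : ∀ v ∈ Z, v ∉ K ∧ v ∉ tch G A := fun v hv => by
      have := hZ.dis v hv
      rwa [mem_union, not_or] at this
    refine ⟨⟨hZ.sub, fun v hv => (h0 v hv).1, ?_⟩, fun v hv => (h0 v hv).2⟩
    intro d hd hp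
    have hA : d ∉ A := fun hA => (h0 _ hp).2 (mem_tch.2 ⟨d, hA, rfl⟩)
    have := hZ.clo d (mem_sdiff.2 ⟨hd, hA⟩) hp
    rwa [gr_al, gr_pi, h.off d (hc.Fsub hd) hA] at this
  · rintro ⟨hZ, ht⟩
    refine ⟨hZ.sub, fun v hv => by rw [mem_union, not_or]; exact ⟨hZ.dis v hv, ht v hv⟩, ?_⟩
    intro d hd hp
    rw [mem_sdiff] at hd
    rw [gr_al, gr_pi, h.off d (hc.Fsub hd.1) hd.2]
    exact hZ.clo d hd.1 hp

lemma cc (hc : G.Cls K F) (hC : G.CC K F) : h.gr.CC (K ∪ tch G A) (F \ A) := by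
  intro Z hZ ho
  obtain ⟨h1, h2⟩ := (h.adm_iff hc).1 hZ
  rw [h.bd_untouched h2]
  exact hC Z h1 ho

/-- the hypothesis on the links: everything touched is joined to `K` -/
def Joined (G : CG V D) (K : Finset V) (F : Finset D) (A : Finset D) : Prop :=
  ∀ Z, G.Adm K F Z → (∃ v ∈ Z, v ∈ tch G A) → (∃ d ∈ A, d ∈ G.bd Z) ∨
    ∃ d1 ∈ G.bd Z, ∃ d2 ∈ G.bd Z, d1 ≠ d2 ∧ G.pi (G.al d1) = G.pi (G.al d2)

omit h in
/-- two edges of a cut meeting outside: one of them is not in the matching -/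
lemma two_out {M : Finset D} (hM : G.IsPM M) {Z : Finset V} {d1 d2 : D} (h1 : d1 ∈ G.bd Z)
    (h2 : d2 ∈ G.bd Z) (hne : d1 ≠ d2) (hp : G.pi (G.al d1) = G.pi (G.al d2)) :
    ∃ d ∈ G.bd Z, d ∉ M := by
  by_contra hcon
  push Not at hcon
  have m1 := hM.closed _ (hcon d1 h1)
  have m2 := hM.closed _ (hcon d2 h2)
  have hv := G.pi_mem _ (hM.sub m1)
  have hone := hM.one _ hv
  rw [card_eq_one] at hone
  obtain ⟨e, he⟩ := hone
  have a1 : G.al d1 ∈ M.filter fun d => G.pi d = G.pi (G.al d1) := by simp [m1]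
  have a2 : G.al d2 ∈ M.filter fun d => G.pi d = G.pi (G.al d1) := by simp [m2, hp]
  rw [he, mem_singleton] at a1 a2
  apply hne
  have := congrArg G.al (a1.trans a2.symm)
  rwa [G.al_al d1 ((mem_bd _).1 h1).1, G.al_al d2 ((mem_bd _).1 h2).1] at this

/-- good matchings lift -/
lemma good (hc : G.Cls K F) (hj : Joined G K F A) {M : Finset D}
    (hM : h.gr.Good (K ∪ tch G A) (F \ A) M) : G.Good K F (lift A p M) := by
  have hpm := h.lift_pm hM.pm
  refine ⟨hpm, fun Z hZ ho => ?_⟩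
  by_cases ht : ∃ v ∈ Z, v ∈ tch G A
  · rcases hj Z hZ ht with ⟨d, h1, h2⟩ | ⟨d1, h1, d2, h2, h3, h4⟩
    · exact ⟨d, h2, h.lift_not hM.pm h1⟩
    · exact two_out hpm h1 h2 h3 h4
  · push Not at ht
    obtain ⟨d, h1, h2⟩ := hM.hit Z ((h.adm_iff hc).2 ⟨hZ, ht⟩) ho
    rw [h.bd_untouched ht] at h1
    refine ⟨d, h1, ?_⟩
    rw [mem_lift]
    rintro (⟨h3, -⟩ | ⟨e, h3, h4, rfl⟩)
    · exact h2 h3
    · have h5 := (h.pair e h4 (hM.pm.notok e h3)).2.2.2.1
      have h6 := ((mem_bd _).1 h1).2.1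
      rw [h5] at h6
      exact ht _ h6 (mem_tch.2 ⟨e, h4, rfl⟩)

/-! ### bridgelessness -/

/-- pair saturated sets -/
def Sat (G : CG V D) (A : Finset D) (al' : D → D) (X : Finset V) : Prop :=
  ∀ d ∈ A, al' d ≠ d → (G.pi d ∈ X ↔ G.pi (al' d) ∈ X)

/-- the degree of a pair saturated set after killing -/
lemma dg_sat {X : Finset V} (hs : Sat G A al' X) : h.gr.dg X =
    ((G.bd X ∪ G.tk X) \ A).card + (A.filter fun d => G.pi d ∈ X ∧ al' d = d).card := by
  rw [dg_eq_card_union, ← card_union_of_disjoint]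
  · congr 1
    ext d
    simp only [mem_union, mem_sdiff, mem_bd, mem_tk, mem_filter, gr_ds, gr_pi, gr_al]
    by_cases hA : d ∈ A
    · have hd := h.sub hA
      constructor
      · rintro (⟨_, h2, h3⟩ | ⟨_, h2, h3⟩)
        · by_cases hf : al' d = d
          · exact Or.inr ⟨hA, h2, hf⟩
          · exact absurd ((hs d hA hf).1 h2) h3
        · exact Or.inr ⟨hA, h2, h3⟩
      · rintro (⟨_, h2⟩ | ⟨_, h2, h3⟩)
        · exact absurd hA h2
        · exact Or.inr ⟨hd, h2, h3⟩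
    · by_cases hd : d ∈ G.ds
      · rw [h.off d hd hA]
        constructor
        · intro h1; exact Or.inl ⟨h1, hA⟩
        · rintro (⟨h1, _⟩ | ⟨h1, _⟩)
          · exact h1
          · exact absurd h1 hA
      · constructor
        · rintro (⟨h1, _⟩ | ⟨h1, _⟩) <;> exact absurd h1 hd
        · rintro (⟨⟨h1, _⟩ | ⟨h1, _⟩, _⟩ | ⟨h1, _⟩)
          · exact absurd h1 hd
          · exact absurd h1 hd
          · exact absurd h1 hA
  · rw [disjoint_left]
    intro d h1 h2
    exact (mem_sdiff.1 h1).2 (mem_filter.1 h2).1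

/-- bridgelessness only has to be checked for pair saturated odd sets -/
lemma b0 (hX : ∀ X ⊆ G.vs, Odd X.card → Sat G A al' X →
    3 ≤ ((G.bd X ∪ G.tk X) \ A).card + (A.filter fun d => G.pi d ∈ X ∧ al' d = d).card) :
    h.gr.B0 := by
  intro X hXs ho
  by_cases hs : Sat G A al' X
  · rw [h.dg_sat hs]
    exact hX X hXs ho hs
  · unfold Sat at hs
    push Not at hs
    obtain ⟨d, hA, hne, hd⟩ := hs
    -- one of the two vertices of the pair is in X, the other is not: two parallel edges cross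
    have key : ∀ e ∈ A, al' e ≠ e → G.pi e ∈ X → G.pi (al' e) ∉ X → 2 ≤ h.gr.dg X := by
      intro e he hne' h1 h2
      have hp := h.pair e he hne'
      have hp2 := h.pi_pair he hne'
      have m1 : e ∈ h.gr.bd X := (mem_bd _).2 ⟨h.sub he, h1, h2⟩
      have m2 : p e ∈ h.gr.bd X := by
        refine (mem_bd _).2 ⟨hp.1, ?_, ?_⟩
        · rw [gr_pi, hp.2.2.2.1]; exact h1
        · rw [gr_pi, gr_al, h.off _ hp.1 hp.2.1, hp2]; exact h2
      have hne2 : e ≠ p e := fun hh => hp.2.1 (hh ▸ he)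
      have : ({e, p e} : Finset D).card ≤ (h.gr.bd X).card := by
        apply card_le_card
        intro x hx
        rw [mem_insert, mem_singleton] at hx
        rcases hx with rfl | rfl
        · exact m1
        · exact m2
      rw [card_pair hne2] at this
      unfold dg
      omega
    have h2 : 2 ≤ h.gr.dg X := by
      rcases hd with ⟨a, b⟩ | ⟨a, b⟩
      · exact key d hA hne a b
      · refine key (al' d) (h.cl' d hA) ?_ b ?_
        · rw [h.inv' d hA]; exact fun e => hne e.symm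
        · rw [h.inv' d hA]; exact a
    have h3 : Odd (h.gr.dg X) := (dg_parity h.gr hXs).2 ho
    rcases h3 with ⟨k, hk⟩
    omega

/-- the new instance -/
lemma inst (hI : G.Inst K F) (hb : h.gr.B0)
    (hc : (A.filter fun d => al' d = d).card ≤ (A.filter fun d => G.al d = d).card) :
    h.gr.Inst (K ∪ tch G A) (F \ A) :=
  ⟨hI.even, h.four hI.four hc, hb, h.cls hI.cls, h.cc hI.cls hI.cc⟩

end KD

end JK.CG
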