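import Pool.Agent.Lib.JK.StepRed
import Pool.Agent.Lib.JK.Kill

/-! The alpha reduction: a step followed by killing edges. -/

set_option autoImplicit false

namespace JK.CG

open Finset Classical

variable {V D : Type*} {G : CG V D} {K : Finset V} {F : Finset D} {σ u1 u2 v1 v2 v3 : D}

/-- the absorbing class after the step -/
private noncomputable def KA (h : G.SD σ u1 u2 v1 v2 v3) (K : Finset V) : Finset V :=
  h.step.vs.filter fun w => w ∈ K ∨ w = G.pi (G.al v3) ∨ w = G.pi (G.al v2)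

/-- the surviving edges of the circuits -/
private noncomputable def FA (h : G.SD σ u1 u2 v1 v2 v3) (F : Finset D) : Finset D :=
  F.filter fun x => x ∈ h.step.ds ∧ x ≠ G.al v2 ∧ x ≠ G.al v3

private lemma mem_KA (h : G.SD σ u1 u2 v1 v2 v3) {K : Finset V} {w : V} :
    w ∈ KA h K ↔ w ∈ h.step.vs ∧ (w ∈ K ∨ w = G.pi (G.al v3) ∨ w = G.pi (G.al v2)) := by
  unfold KA; rw [mem_filter]

private lemma mem_FA (h : G.SD σ u1 u2 v1 v2 v3) {F : Finset D} {x : D} :
    x ∈ FA h F ↔ x ∈ F ∧ x ∈ h.step.ds ∧ x ≠ G.al v2 ∧ x ≠ G.al v3 := by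
  unfold FA; rw [mem_filter]

private lemma ne_u2 (hc : G.Cls K F) (h : G.SD σ u1 u2 v1 v2 v3) (hu2 : u2 ∉ F) {x : D}
    (hx : x ∈ F) : x ≠ G.al u2 := by
  rintro rfl
  have := hc.Fal _ hx
  rw [G.al_al _ h.mu2] at this
  exact hu2 this

private lemma FA_al (hc : G.Cls K F) (h : G.SD σ u1 u2 v1 v2 v3) (hu2 : u2 ∉ F) {x : D}
    (hx : x ∈ FA h F) : h.step.al x = G.al x := by
  obtain ⟨xF, -, a, b⟩ := (mem_FA h).1 hx
  exact h.step_al4 (ne_u2 hc h hu2 xF) a b

/-- darts of `F` at a vertex which is not in the new class survive -/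
private lemma survA (hc : G.Cls K F) (h : G.SD σ u1 u2 v1 v2 v3) {x : D} (hx : x ∈ F)
    (hw : G.pi x ∈ h.step.vs) (hK : G.pi x ∉ KA h K) : x ∈ FA h F := by
  have hw' := h.step_vs.1 hw
  rw [mem_FA]
  refine ⟨hx, h.step_ds.2 ⟨hc.Fsub hx, hw'.2.1, hw'.2.2⟩, ?_, ?_⟩
  · rintro rfl
    exact hK ((mem_KA h).2 ⟨hw, Or.inr (Or.inr rfl)⟩)
  · rintro rfl
    exact hK ((mem_KA h).2 ⟨hw, Or.inr (Or.inl rfl)⟩)

private lemma clsA (hc : G.Cls K F) (h : G.SD σ u1 u2 v1 v2 v3) (hu2 : u2 ∉ F) :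
    h.step.Cls (KA h K) (FA h F) := by
  refine ⟨?_, ?_, ?_, ?_, ?_, ?_⟩
  · intro w hw; exact ((mem_KA h).1 hw).1
  · intro x hx; exact ((mem_FA h).1 hx).2.1
  · intro x hx
    rw [FA_al hc h hu2 hx]
    obtain ⟨xF, xs, x2, x3⟩ := (mem_FA h).1 hx
    have xd := hc.Fsub xF
    have xs' := h.step_ds.1 xs
    have back : ∀ y ∈ G.ds, G.al x = y → x = G.al y := by
      intro y _ e
      rw [← e, G.al_al _ xd]
    rw [mem_FA]
    have hm : G.al x ∈ G.ds := G.al_mem _ xd
    have n1 : G.pi (G.al x) ≠ G.pi σ ∧ G.pi (G.al x) ≠ G.pi v1 := by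
      obtain ⟨q1, q2⟩ := h.darts hm
      constructor
      · intro e
        rcases q1.1 e with e | e | e
        · have := back _ h.mσ e
          rw [h.tσ] at this
          exact xs'.2.1 (by rw [this])
        · have := back _ h.mu1 e
          rw [h.e1] at this
          exact xs'.2.2 (by rw [this])
        · exact ne_u2 hc h hu2 xF (back _ h.mu2 e)
      · intro e
        rcases q2.1 e with e | e | e
        · have := back _ h.mv1 e
          rw [h.al_v1] at this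
          exact xs'.2.1 (by rw [this, h.pu1])
        · exact x2 (back _ h.mv2 e)
        · exact x3 (back _ h.mv3 e)
    refine ⟨hc.Fal _ xF, h.step_ds.2 ⟨hm, n1⟩, ?_, ?_⟩
    · intro e
      have := congrArg G.al e
      rw [G.al_al _ xd, G.al_al _ h.mv2] at this
      exact xs'.2.2 (by rw [this, h.pv2])
    · intro e
      have := congrArg G.al e
      rw [G.al_al _ xd, G.al_al _ h.mv3] at this
      exact xs'.2.2 (by rw [this, h.pv3])
  · intro x hx
    rw [FA_al hc h hu2 hx]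
    exact hc.Ftok _ ((mem_FA h).1 hx).1
  · intro w hw hk
    have e : ((FA h F).filter fun x => h.step.pi x = w) = F.filter fun x => G.pi x = w := by
      ext x
      rw [mem_filter, mem_filter]
      constructor
      · rintro ⟨a, b⟩; exact ⟨((mem_FA h).1 a).1, b⟩
      · rintro ⟨a, b⟩
        refine ⟨survA hc h a ?_ ?_, b⟩
        · rw [b]; exact hw
        · rw [b]; exact hk
    rw [e]
    refine hc.F2 w (h.step_vs.1 hw).1 fun hk' => hk ((mem_KA h).2 ⟨hw, Or.inl hk'⟩)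
  · intro x hx hal
    have hxv : h.step.pi x ∈ h.step.vs := h.step.pi_mem x hx
    have n12 := h.ne0.1
    by_cases e1 : x = G.al u2
    · exfalso
      rw [e1, h.step_al1] at hal
      exact n12 hal.symm
    by_cases e2 : x = G.al v2
    · exfalso
      rw [e2, h.step_al2] at hal
      exact n12 hal
    by_cases e3 : x = G.al v3
    · refine (mem_KA h).2 ⟨hxv, Or.inr (Or.inl ?_)⟩
      rw [e3]; rfl
    · rw [h.step_al4 e1 e2 e3] at hal
      exact (mem_KA h).2 ⟨hxv, Or.inl (hc.tokK x (h.step_ds.1 hx).1 hal)⟩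

private lemma admA_of (hc : G.Cls K F) (h : G.SD σ u1 u2 v1 v2 v3) (hu2 : u2 ∉ F) {Z : Finset V}
    (hZ : h.step.Adm (KA h K) (FA h F) Z) :
    G.Adm K F Z ∧ G.pi (G.al v3) ∉ Z ∧ G.pi (G.al v2) ∉ Z := by
  refine ⟨⟨h.sub_vs hZ.sub, ?_, ?_⟩, ?_, ?_⟩
  · intro w hw hk
    exact hZ.dis w hw ((mem_KA h).2 ⟨hZ.sub hw, Or.inl hk⟩)
  · intro x hx hz
    have h1 : x ∈ FA h F := survA hc h hx (hZ.sub hz) (hZ.dis _ hz)
    have h2 := hZ.clo x h1 hz
    rw [FA_al hc h hu2 h1] at h2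
    exact h2
  · intro hz
    exact hZ.dis _ hz ((mem_KA h).2 ⟨hZ.sub hz, Or.inr (Or.inl rfl)⟩)
  · intro hz
    exact hZ.dis _ hz ((mem_KA h).2 ⟨hZ.sub hz, Or.inr (Or.inr rfl)⟩)

private lemma admA_to (hc : G.Cls K F) (h : G.SD σ u1 u2 v1 v2 v3) (hu2 : u2 ∉ F)
    (hv2 : v2 ∈ F) (hv3 : v3 ∈ F) {Z : Finset V}
    (hZ : G.Adm K F Z) (h3 : G.pi (G.al v3) ∉ Z) :
    h.step.Adm (KA h K) (FA h F) Z := by
  have hs : G.pi σ ∉ Z := fun hh => hZ.dis _ hh (hc.tokK σ h.mσ h.tσ)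
  have hv : G.pi v1 ∉ Z := by
    intro hh
    rw [← h.pv3] at hh
    exact h3 (hZ.clo _ hv3 hh)
  have h2 : G.pi (G.al v2) ∉ Z := by
    intro hh
    have := hZ.clo _ (hc.Fal _ hv2) hh
    rw [G.al_al _ h.mv2, h.pv2] at this
    exact hv this
  refine ⟨?_, ?_, ?_⟩
  · intro w hw
    exact h.step_vs.2 ⟨hZ.sub hw, fun e => hs (e ▸ hw), fun e => hv (e ▸ hw)⟩
  · intro w hw hk
    rcases ((mem_KA h).1 hk).2 with k | k | k
    · exact hZ.dis w hw k
    · exact h3 (k ▸ hw)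
    · exact h2 (k ▸ hw)
  · intro x hx hz
    rw [FA_al hc h hu2 hx]
    exact hZ.clo x ((mem_FA h).1 hx).1 hz

/-- `s` has the token `σ`, `v` (darts `v1 = al u1`, `v2`, `v3`) is on a fresh circuit, `v2, v3 ∈ F`.
After the step (token at `c = pi (al v3)`, live edge `bd` with `b = pi (al u2)`, `d = pi (al v2)`) the
edges in `A` are killed. `hj` : the killed edges join everything touched to `K` or to the circuit of `b`.

Proof. New instance: graph `k.gr`, `K^ = (K \ {s}) ∪ A.image pi ∪ {d}`,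
`F^ = (F ∩ step.ds) \ (A ∪ {al v2})`. Classes: `s ∈ K`, `v` is not in `K`; the darts of `F` at other
vertices keep their partner, except `al v3 ∈ A` and `al v2`. `Z` is a fresh union of the new instance
iff it is one of `G` which avoids `A.image pi` (then it avoids `d`, which is on the circuit of `c`); it
avoids `s`, `v`; its boundary is the same set of darts (the dart `al u2` leads to `s` before and to
`d` after), so (C) holds. `B0` is `hb`, tokens by `ht` and `SD.tk_card`. `M^` good by `ih`, `M1 = lift M^`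
is a perfect matching of the step graph avoiding `A`, `M = slift M1`. Let `Z` be odd, fresh in `G` with
`bd Z ⊆ M`; `M` avoids `A`, `v3`, `al v3`, so by `hj`: `Z` is untouched, or `v, b ∈ Z`. In the first case
`Z` is fresh in the new instance, `SD.slift_bd`: contradiction. In the second case `u1, u2` both lead
from `s ∉ Z` into `Z`, one of them is not in `M` (`two_out`). -/
theorem alpha_red (hI : G.Inst K F) (ih : IH G.vs.card V D) (h : G.SD σ u1 u2 v1 v2 v3)
    (hvK : G.pi v1 ∉ K) (hu2 : u2 ∉ F) (hv2 : v2 ∈ F) (hv3 : v3 ∈ F)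
    {A : Finset D} {al' p : D → D} (k : h.step.KD A al' p) (hb : k.gr.B0)
    (h0 : G.al v3 ∈ A) (hl : G.al v2 ∉ A)
    (ht : (A.filter fun d => al' d = d).card ≤ (A.filter fun d => h.step.al d = d).card)
    (hj : ∀ Z, G.Adm K F Z → (∃ d ∈ A, G.pi d ∈ Z) → ¬ (G.pi v1 ∈ Z ∧ G.pi (G.al u2) ∈ Z) →
      ∃ d ∈ A, d ∈ G.bd Z) :
    ∃ M, G.Good K F M := by
  have hc := hI.cls
  have hcA := clsA hc h hu2
  have hvs := h.vs_card
  -- the new instance
  have hI' : k.gr.Inst (KA h K ∪ KD.tch h.step A) (FA h F \ A) := by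
    refine ⟨?_, ?_, hb, k.cls hcA, ?_⟩
    · have h1 := hI.even
      rw [← hvs, Nat.even_add] at h1
      exact h1.2 (by decide)
    · exact k.four (by rw [h.tk_card]; exact hI.four) ht
    · intro Z hZ ho
      obtain ⟨h1, h2⟩ := (k.adm_iff hcA).1 hZ
      rw [k.bd_untouched h2]
      obtain ⟨g1, g2, g3⟩ := admA_of hc h hu2 h1
      have hbd := h.bd_out h1.sub g2
      have h5 := hI.cc Z g1 ho
      rw [if_neg (fun hh => g3 hh.2)] at hbd
      omega
  have hlt : k.gr.vs.card < G.vs.card := by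
    have : k.gr.vs = h.step.vs := rfl
    rw [this]; omega
  obtain ⟨M', hM'⟩ := ih k.gr _ _ hlt hI'
  have pm1 := k.lift_pm hM'.pm
  have pm := h.slift_pm pm1
  refine ⟨G.slift u1 u2 v1 v2 (KD.lift A p M'), pm, ?_⟩
  intro Z hZ ho
  by_contra hcon
  push Not at hcon
  have hs : G.pi σ ∉ Z := fun hh => hZ.dis _ hh (hc.tokK σ h.mσ h.tσ)
  have hAM : ∀ d ∈ A, d ∉ G.slift u1 u2 v1 v2 (KD.lift A p M') := by
    intro d hd hm
    have h1 := k.lift_not hM'.pm hd
    have h2 := h.step_ds.1 (k.sub hd)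
    unfold slift at hm
    rw [mem_union] at hm
    rcases hm with hm | hm
    · exact h1 hm
    · split_ifs at hm with q
      · simp only [mem_insert, mem_singleton] at hm
        rcases hm with rfl | rfl
        · exact h2.2.1 h.pu2
        · exact h2.2.2 h.pv2
      · simp only [mem_insert, mem_singleton] at hm
        rcases hm with rfl | rfl
        · exact h2.2.1 h.pu1
        · exact h2.2.2 rfl
  by_cases htc : ∃ d ∈ A, G.pi d ∈ Z
  · by_cases hvb : G.pi v1 ∈ Z ∧ G.pi (G.al u2) ∈ Z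
    · have d1 : v1 ∈ G.bd Z := (mem_bd _).2 ⟨h.mv1, hvb.1, by rw [h.al_v1, h.pu1]; exact hs⟩
      have d2 : G.al u2 ∈ G.bd Z := (mem_bd _).2 ⟨G.al_mem _ h.mu2, hvb.2, by
        rw [G.al_al _ h.mu2, h.pu2]; exact hs⟩
      have hne : v1 ≠ G.al u2 := fun e => h.out0.1.2.2.2.1 e.symm
      obtain ⟨d, hd, hdM⟩ := KD.two_out pm d1 d2 hne (by
        rw [h.al_v1, G.al_al _ h.mu2, h.pu1, h.pu2])
      exact hdM (hcon d hd)
    · obtain ⟨d, hd, hdb⟩ := hj Z hZ htc hvb
      exact hAM d hd (hcon d hdb)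
  · push Not at htc
    have h3 : G.pi (G.al v3) ∉ Z := htc _ h0
    have hZ1 := admA_to hc h hu2 hv2 hv3 hZ h3
    have hun : ∀ v ∈ Z, v ∉ KD.tch h.step A := by
      intro v hv hvt
      obtain ⟨d, hd, rfl⟩ := KD.mem_tch.1 hvt
      exact htc d hd hv
    obtain ⟨e, he, heM⟩ := hM'.hit Z ((k.adm_iff hcA).2 ⟨hZ1, hun⟩) ho
    rw [k.bd_untouched hun] at he
    obtain ⟨-, hbd⟩ := h.slift_bd pm1 hZ1.sub hcon
    have h5 := hbd he
    rw [KD.mem_lift] at h5
    rcases h5 with ⟨h6, -⟩ | ⟨e', h6, h7, rfl⟩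
    · exact heM h6
    · have h8 := (k.pair e' h7 (hM'.pm.notok e' h6)).2.2.2.1
      have h9 := ((mem_bd _).1 he).2.1
      rw [h8] at h9
      exact hun _ h9 (KD.mem_tch.2 ⟨e', h7, rfl⟩)

end JK.CG
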