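import Mathlib

/-! Alternating trails by Tutte's theorem in the two-copies graph (S5, MP_c95763_co).

`P` = pairs, `A` = killable edges (symmetric relations on a finite type). A trail from `a` to `b`
is an injective sequence `a = u 0, u 1, …, u (2k+1) = b` with `P (u 2i) (u (2i+1))` and
`A (u (2i+1)) (u (2i+2))`. If there is none, there is a barrier: disjoint sets `O ∋ a, b` and `E`
and a labelling `κ` of the vertices (components of the two-copies graph) which is injective on
`O ∪ E` and constant along `A`-edges outside `O` and along `P`-edges outside `E`. -/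

set_option autoImplicit false

namespace JK.Alt

open Classical

variable {V : Type*}

/-- other copy -/
def flp (p : V × Bool) : V × Bool := (p.1, !p.2)

@[simp] lemma flp_fst (p : V × Bool) : (flp p).1 = p.1 := rfl
@[simp] lemma flp_snd (p : V × Bool) : (flp p).2 = !p.2 := rfl
@[simp] lemma flp_flp (p : V × Bool) : flp (flp p) = p := by
  simp [flp]

lemma flp_ne (p : V × Bool) : flp p ≠ p := by
  intro h
  have := congrArg Prod.snd h
  simp at this

lemma eq_or_flp {p q : V × Bool} (h : p.1 = q.1) : p = q ∨ p = flp q := by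
  obtain ⟨x, b⟩ := p
  obtain ⟨y, c⟩ := q
  simp only at h
  subst h
  cases b <;> cases c <;> simp [flp]

lemma flp_inj {p q : V × Bool} (h : flp p = flp q) : p = q := by
  rw [← flp_flp p, h, flp_flp]

/-- adjacency in the two-copies graph -/
def DAdj (P A : V → V → Prop) (p q : V × Bool) : Prop :=
  p = flp q ∨ (p.1 ≠ q.1 ∧ p.2 = true ∧ q.2 = true ∧ P p.1 q.1) ∨
    (p.1 ≠ q.1 ∧ p.2 = false ∧ q.2 = false ∧ A p.1 q.1)

lemma DAdj.symm {P A : V → V → Prop} (hP : ∀ x y, P x y → P y x) (hA : ∀ x y, A x y → A y x)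
    {p q : V × Bool} (h : DAdj P A p q) : DAdj P A q p := by
  rcases h with h | ⟨h1, h2, h3, h4⟩ | ⟨h1, h2, h3, h4⟩
  · left; rw [h, flp_flp]
  · right; left; exact ⟨h1.symm, h3, h2, hP _ _ h4⟩
  · right; right; exact ⟨h1.symm, h3, h2, hA _ _ h4⟩

lemma DAdj.ne {P A : V → V → Prop} {p q : V × Bool} (h : DAdj P A p q) : p ≠ q := by
  rcases h with h | ⟨h1, -⟩ | ⟨h1, -⟩
  · rw [h]; exact flp_ne q
  · exact fun e => h1 (congrArg Prod.fst e)
  · exact fun e => h1 (congrArg Prod.fst e)

/-- the two-copies graph in which `(a, false)`, `(b, false)` are joined to each other only -/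
def DG (P A : V → V → Prop) (hP : ∀ x y, P x y → P y x) (hA : ∀ x y, A x y → A y x) (a b : V)
    (hab : a ≠ b) : SimpleGraph (V × Bool) where
  Adj p q := (p = (a, false) ∧ q = (b, false)) ∨ (p = (b, false) ∧ q = (a, false)) ∨
    (p ≠ (a, false) ∧ p ≠ (b, false) ∧ q ≠ (a, false) ∧ q ≠ (b, false) ∧ DAdj P A p q)
  symm := ⟨by
    rintro p q (⟨h1, h2⟩ | ⟨h1, h2⟩ | ⟨h1, h2, h3, h4, h5⟩)
    · right; left; exact ⟨h2, h1⟩
    · left; exact ⟨h2, h1⟩
    · right; right; exact ⟨h3, h4, h1, h2, h5.symm hP hA⟩⟩
  loopless := ⟨by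
    rintro p (⟨h1, h2⟩ | ⟨h1, h2⟩ | ⟨-, -, -, -, h5⟩)
    · rw [h1] at h2; exact hab (congrArg Prod.fst h2)
    · rw [h1] at h2; exact hab (congrArg Prod.fst h2).symm
    · exact h5.ne rfl⟩

/-- a trail from `a` to `b` -/
structure Trail (P A : V → V → Prop) (a b : V) (u : ℕ → V) (k : ℕ) : Prop where
  inj : ∀ i j, i < j → j ≤ 2 * k + 1 → u i ≠ u j
  src : u 0 = a
  tgt : u (2 * k + 1) = b
  pair : ∀ i, i ≤ k → P (u (2 * i)) (u (2 * i + 1))
  kill : ∀ i, i < k → A (u (2 * i + 1)) (u (2 * i + 2))

/-- a barrier -/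
structure Barrier (P A : V → V → Prop) (a b : V) (O E : Set V) (κ : V → V × Bool) : Prop where
  dis : ∀ x, x ∈ O → x ∉ E
  src : a ∈ O
  tgt : b ∈ O
  inj : ∀ x y, x ∈ O ∨ x ∈ E → y ∈ O ∨ y ∈ E → κ x = κ y → x = y
  kill : ∀ x y, A x y → x ∉ O → y ∉ O → κ x = κ y
  pair : ∀ x y, P x y → x ∉ E → y ∉ E → κ x = κ y

section trail

variable {P A : V → V → Prop} {hP : ∀ x y, P x y → P y x} {hA : ∀ x y, A x y → A y x} {a b : V}
  {hab : a ≠ b}

/-- the trail from a fixed point free involution along the graph -/
theorem trail_of_inv [Finite V] (N : V × Bool → V × Bool) (hN : ∀ p, (DG P A hP hA a b hab).Adj p (N p))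
    (hNN : ∀ p, N (N p) = p) : ∃ u k, Trail P A a b u k := by
  have hNe : ∀ p, N p ≠ p := fun p => (hN p).ne'
  have hNa : N (a, false) = (b, false) := by
    rcases hN (a, false) with ⟨-, h⟩ | ⟨h, -⟩ | ⟨h, -⟩
    · exact h
    · exact absurd (congrArg Prod.fst h) hab
    · exact absurd rfl h
  have hNb : N (b, false) = (a, false) := by rw [← hNa, hNN]
  let σ : Equiv.Perm (V × Bool) :=
    { toFun := fun p => flp (N p)
      invFun := fun p => N (flp p)
      left_inv := fun p => by simp [hNN]
      right_inv := fun p => by simp [hNN] }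
  have hσ : ∀ p, σ p = flp (N p) := fun p => rfl
  let t : ℕ → V × Bool := fun i => (σ ^ i) (a, true)
  have t0 : t 0 = (a, true) := rfl
  have ts : ∀ i, t (i + 1) = flp (N (t i)) := by
    intro i
    show (σ ^ (i + 1)) (a, true) = _
    rw [pow_succ', Equiv.Perm.mul_apply, hσ]
  -- going back
  have hback : ∀ i, flp (t (i + 1)) = N (t i) := fun i => by rw [ts, flp_flp]
  have hback' : ∀ i, N (flp (t (i + 1))) = t i := fun i => by rw [hback, hNN]
  have fa : flp (t 0) = (a, false) := by simp [t0, flp]
  -- b' is reached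
  have hex : ∃ L, t L = (b, false) := by
    have : Finite (Equiv.Perm (V × Bool)) := inferInstance
    have ho : 0 < orderOf σ := orderOf_pos σ
    refine ⟨orderOf σ - 1, ?_⟩
    have h1 : t (orderOf σ - 1 + 1) = t 0 := by
      have e : orderOf σ - 1 + 1 = orderOf σ := by omega
      rw [e]
      show (σ ^ orderOf σ) (a, true) = (a, true)
      rw [pow_orderOf_eq_one]; rfl
    rw [← hback' (orderOf σ - 1), h1, fa, hNa]
  have hL := Nat.find_spec hex
  have hLmin : ∀ i, i < Nat.find hex → t i ≠ (b, false) := fun i hi => Nat.find_min hex hi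
  generalize Nat.find hex = L at *
  -- no flipped pairs
  have hflip : ∀ d i, t (i + d) ≠ flp (t i) := by
    intro d
    induction d using Nat.strong_induction_on with
    | _ d ih =>
      intro i h
      rcases Nat.eq_zero_or_pos d with hd | hd
      · subst hd
        exact flp_ne _ h.symm
      · have e1 : i + d = (i + (d - 1)) + 1 := by omega
        rw [e1] at h
        have h2 : t (i + (d - 1)) = N (t i) := by
          rw [← hback' (i + (d - 1)), h, flp_flp]
        have h3 : t (i + (d - 1)) = flp (t (i + 1)) := by rw [h2, hback]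
        rcases Nat.eq_or_lt_of_le hd with hd1 | hd1
        · have : d = 1 := by omega
          subst this
          exact hNe (t i) (by simpa using h2.symm)
        · have e2 : i + (d - 1) = (i + 1) + (d - 2) := by omega
          rw [e2] at h3
          exact ih (d - 2) (by omega) (i + 1) h3
  have hta : ∀ i, t i ≠ (a, false) := by
    intro i h
    exact hflip i 0 (by rw [Nat.zero_add, h, fa])
  have hS : ∀ i, N (t i) ≠ flp (t i) := by
    intro i
    induction i with
    | zero =>
      intro h
      rw [fa] at h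
      have h1 : t 0 = (b, false) := by rw [← hNN (t 0), h, hNa]
      rw [t0] at h1
      exact absurd (congrArg Prod.snd h1) (by simp)
    | succ i ih =>
      intro h
      rw [hback] at h
      have h1 : t (i + 1) = t i := by
        have := congrArg N h
        rwa [hNN, hNN] at this
      exact ih (by rw [← hback i, h1])
  -- the types
  have hrel : ∀ i, i < L → (N (t i)).2 = (t i).2 ∧
      (((t i).2 = true ∧ P (t i).1 (t (i + 1)).1) ∨ ((t i).2 = false ∧ A (t i).1 (t (i + 1)).1)) := by
    intro i hi
    have h1 : (t (i + 1)).1 = (N (t i)).1 := by rw [ts]; rfl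
    rw [h1]
    rcases hN (t i) with ⟨h, -⟩ | ⟨h, -⟩ | ⟨-, -, -, -, h⟩
    · exact absurd h (hta i)
    · exact absurd h (hLmin i hi)
    · rcases h with h | ⟨-, h2, h3, h4⟩ | ⟨-, h2, h3, h4⟩
      · have h' : N (t i) = flp (t i) := by rw [← flp_flp (N (t i)), ← h]
        exact absurd h' (hS i)
      · exact ⟨h3.trans h2.symm, Or.inl ⟨h2, h4⟩⟩
      · exact ⟨h3.trans h2.symm, Or.inr ⟨h2, h4⟩⟩
  have hpar : ∀ i, i ≤ L → ((t i).2 = true ↔ Even i) := by
    intro i
    induction i with
    | zero => intro _; simp [t0]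
    | succ i ih =>
      intro hi
      have h1 : (t (i + 1)).2 = !(t i).2 := by
        rw [ts, flp_snd, (hrel i (by omega)).1]
      rw [h1, Nat.even_add_one, ← ih (by omega)]
      simp
  have hLodd : ¬ Even L := by
    intro h
    have := (hpar L le_rfl).2 h
    rw [hL] at this
    exact absurd this (by simp)
  obtain ⟨k, hk⟩ := Nat.not_even_iff_odd.1 hLodd
  subst hk
  refine ⟨fun i => (t i).1, k, ?_, ?_, ?_, ?_, ?_⟩
  · intro i j hij hj h
    rcases eq_or_flp h.symm with h1 | h1
    · -- t j = t i
      have key : ∀ i j, i < j → j ≤ 2 * k + 1 → t j = t i → False := by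
        intro i
        induction i with
        | zero =>
          intro j hij hj h
          obtain ⟨j, rfl⟩ : ∃ j', j = j' + 1 := ⟨j - 1, by omega⟩
          have h2 : t j = (b, false) := by rw [← hback' j, h, fa, hNa]
          exact hLmin j (by omega) h2
        | succ i ih =>
          intro j hij hj h
          obtain ⟨j, rfl⟩ : ∃ j', j = j' + 1 := ⟨j - 1, by omega⟩
          exact ih j (by omega) (by omega) (by rw [← hback' j, h, hback'])
      exact key i j hij hj h1
    · have e : j = i + (j - i) := by omega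
      rw [e] at h1
      exact hflip (j - i) i h1
  · show (t 0).1 = a
    rw [t0]
  · show (t (2 * k + 1)).1 = b
    rw [hL]
  · intro i hi
    show P (t (2 * i)).1 (t (2 * i + 1)).1
    rcases (hrel (2 * i) (by omega)).2 with h | h
    · exact h.2
    · have := (hpar (2 * i) (by omega)).2 (even_two_mul i)
      rw [h.1] at this
      exact absurd this (by simp)
  · intro i hi
    show A (t (2 * i + 1)).1 (t (2 * i + 2)).1
    rcases (hrel (2 * i + 1) (by omega)).2 with h | h
    · have := (hpar (2 * i + 1) (by omega)).1 h.1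
      exact absurd this (by rw [Nat.even_add_one]; simp)
    · exact h.2

end trail

section barrier

variable {P A : V → V → Prop} {hP : ∀ x y, P x y → P y x} {hA : ∀ x y, A x y → A y x} {a b : V}
  {hab : a ≠ b}

lemma DG_clo {p q : V × Bool} (h : (DG P A hP hA a b hab).Adj p q)
    (hp : p = (a, false) ∨ p = (b, false)) : q = (a, false) ∨ q = (b, false) := by
  rcases h with ⟨-, h⟩ | ⟨-, h⟩ | ⟨h1, h2, -⟩
  · exact Or.inr h
  · exact Or.inl h
  · rcases hp with h | h
    · exact absurd h h1
    · exact absurd h h2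

lemma DG_flp {p : V × Bool} (h1 : p ≠ (a, false)) (h2 : p ≠ (b, false))
    (h3 : flp p ≠ (a, false)) (h4 : flp p ≠ (b, false)) : (DG P A hP hA a b hab).Adj p (flp p) :=
  Or.inr (Or.inr ⟨h1, h2, h3, h4, Or.inl (by rw [flp_flp])⟩)

/-- the barrier from a Tutte violator -/
theorem barrier_of_viol [Finite V] (u : Set (V × Bool))
    (hu : (DG P A hP hA a b hab).IsTutteViolator u) : ∃ O E κ, Barrier P A a b O E κ := by
  unfold SimpleGraph.IsTutteViolator at hu
  set G := DG P A hP hA a b hab with hG
  set S : G.Subgraph := (⊤ : G.Subgraph).deleteVerts u with hS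
  set H := S.coe with hH
  have hverts : ∀ w, w ∈ S.verts ↔ w ∉ u := by intro w; simp [hS]
  have : Finite S.verts := Subtype.finite
  have : Finite H.ConnectedComponent := Quot.finite _
  have hab' : ((a, false) : V × Bool) ≠ (b, false) := fun h => hab (congrArg Prod.fst h)
  -- component of an element
  let c : ∀ p, p ∉ u → H.ConnectedComponent :=
    fun p hp => H.connectedComponentMk ⟨p, (hverts p).2 hp⟩
  have hadj : ∀ p q (hp : p ∉ u) (hq : q ∉ u), G.Adj p q → c p hp = c q hq := by
    intro p q hp hq h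
    apply SimpleGraph.ConnectedComponent.sound
    apply SimpleGraph.Adj.reachable
    show S.Adj _ _
    exact (SimpleGraph.Subgraph.deleteVerts_adj (G' := (⊤ : G.Subgraph)) (s := u)).mpr
        ⟨Set.mem_univ _, hp, Set.mem_univ _, hq, h⟩
  have hHadj : ∀ x y : S.verts, H.Adj x y → G.Adj x.1 y.1 := by
    intro x y h
    exact S.adj_sub h
  -- reachable from the special pair
  have hspec : ∀ x y : S.verts, H.Reachable x y → (x.1 = (a, false) ∨ x.1 = (b, false)) →
      (y.1 = (a, false) ∨ y.1 = (b, false)) := by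
    intro x y h hx
    rw [SimpleGraph.reachable_iff_reflTransGen] at h
    induction h with
    | refl => exact hx
    | tail _ h ih => exact DG_clo (hHadj _ _ h) ih
  -- parity
  have hpar : Odd H.oddComponents.ncard ↔ Odd (Nat.card S.verts) := H.odd_ncard_oddComponents
  have hSv : Nat.card S.verts + u.ncard = 2 * Nat.card V := by
    have h1 : Nat.card S.verts = (uᶜ : Set (V × Bool)).ncard := by
      have : S.verts = uᶜ := by ext w; rw [hverts]; rfl
      rw [this]; rfl
    rw [h1, add_comm, Set.ncard_add_ncard_compl, Nat.card_prod]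
    simp [mul_comm]
  have hcount : u.ncard + 2 ≤ H.oddComponents.ncard := by
    rw [Nat.odd_iff, Nat.odd_iff] at hpar
    omega
  set U : Set (V × Bool) := insert (a, false) (insert (b, false) u) with hU
  have huU : ∀ p, p ∉ U → p ∉ u := fun p hp h => hp (by simp [hU, h])
  have hnU : ∀ p, p ∉ U ↔ p ≠ (a, false) ∧ p ≠ (b, false) ∧ p ∉ u := by
    intro p; simp [hU, not_or]
  let W : Set H.ConnectedComponent :=
    {C | Odd C.supp.ncard ∧ ∀ p hp, c p hp = C → p ≠ (a, false) ∧ p ≠ (b, false)}
  -- two special vertices outside `u` give an even component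
  have htwo : ∀ (ha : (a, false) ∉ u) (hb : (b, false) ∉ u) (C : H.ConnectedComponent),
      (C = c _ ha ∨ C = c _ hb) → ¬ Odd C.supp.ncard := by
    intro ha hb C hC
    have hab2 : c _ ha = c _ hb := hadj _ _ ha hb (Or.inl ⟨rfl, rfl⟩)
    have hC' : C = c _ ha := by
      rcases hC with h | h
      · exact h
      · rw [h, hab2]
    have : C.supp = {⟨(a, false), (hverts _).2 ha⟩, ⟨(b, false), (hverts _).2 hb⟩} := by
      ext x
      rw [SimpleGraph.ConnectedComponent.mem_supp_iff, Set.mem_insert_iff, Set.mem_singleton_iff]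
      constructor
      · intro h
        have h2 : H.Reachable ⟨(a, false), (hverts _).2 ha⟩ x := by
          apply SimpleGraph.ConnectedComponent.exact
          rw [h, hC']
        rcases hspec _ _ h2 (Or.inl rfl) with h | h
        · left; exact Subtype.ext h
        · right; exact Subtype.ext h
      · rintro (h | h)
        · rw [h, hC']
        · rw [h, hC', hab2]
    rw [this, Set.ncard_pair (fun h => hab' (congrArg Subtype.val h))]
    decide
  have hW : ∀ C ∈ H.oddComponents, C ∉ W →
      ((∃ ha : (a, false) ∉ u, C = c _ ha) ∧ (b, false) ∈ u) ∨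
      ((∃ hb : (b, false) ∉ u, C = c _ hb) ∧ (a, false) ∈ u) := by
    intro C hC hCW
    have hodd : Odd C.supp.ncard := hC
    have : ∃ p hp, c p hp = C ∧ (p = (a, false) ∨ p = (b, false)) := by
      by_contra hcon
      push Not at hcon
      exact hCW ⟨hodd, fun p hp h => hcon p hp h⟩
    obtain ⟨p, hp, h1, h2 | h2⟩ := this
    · subst h2
      left
      refine ⟨⟨hp, h1.symm⟩, ?_⟩
      by_contra hb
      exact htwo hp hb C (Or.inl h1.symm) hodd
    · subst h2
      right
      refine ⟨⟨hp, h1.symm⟩, ?_⟩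
      by_contra ha
      exact htwo ha hp C (Or.inr h1.symm) hodd
  have hcard : U.ncard ≤ W.ncard := by
    by_cases ha : (a, false) ∈ u
    · by_cases hb : (b, false) ∈ u
      · have h1 : H.oddComponents ⊆ W := by
          intro C hC
          by_contra h
          rcases hW C hC h with ⟨⟨h, -⟩, -⟩ | ⟨⟨h, -⟩, -⟩
          · exact h ha
          · exact h hb
        have h2 := Set.ncard_le_ncard h1 (Set.toFinite _)
        have h3 : U.ncard ≤ u.ncard + 2 := by
          have e1 := Set.ncard_insert_le (a, false) (insert (b, false) u)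
          have e2 := Set.ncard_insert_le (b, false) u
          rw [hU]
          omega
        omega
      · have h1 : H.oddComponents ⊆ insert (c _ hb) W := by
          intro C hC
          by_contra h
          rw [Set.mem_insert_iff, not_or] at h
          rcases hW C hC h.2 with ⟨⟨h', -⟩, -⟩ | ⟨⟨h', h''⟩, -⟩
          · exact h' ha
          · exact h.1 h''
        have h2 := Set.ncard_le_ncard h1 (Set.toFinite _)
        have h2' := Set.ncard_insert_le (c _ hb) W
        have h3 : U.ncard ≤ u.ncard + 1 := by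
          have : U = insert (b, false) u := by
            rw [hU, Set.insert_eq_of_mem (Set.mem_insert_of_mem _ ha)]
          rw [this]
          exact Set.ncard_insert_le _ _
        omega
    · by_cases hb : (b, false) ∈ u
      · have h1 : H.oddComponents ⊆ insert (c _ ha) W := by
          intro C hC
          by_contra h
          rw [Set.mem_insert_iff, not_or] at h
          rcases hW C hC h.2 with ⟨⟨h', h''⟩, -⟩ | ⟨⟨h', h''⟩, -⟩
          · exact h.1 h''
          · exact h' hb
        have h2 := Set.ncard_le_ncard h1 (Set.toFinite _)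
        have h2' := Set.ncard_insert_le (c _ ha) W
        have h3 : U.ncard ≤ u.ncard + 1 := by
          have : U = insert (a, false) u := by
            rw [hU, Set.insert_eq_of_mem hb]
          rw [this]
          exact Set.ncard_insert_le _ _
        omega
      · have h1 : H.oddComponents ⊆ W := by
          intro C hC
          by_contra h
          rcases hW C hC h with ⟨-, h⟩ | ⟨-, h⟩
          · exact hb h
          · exact ha h
        have h2 := Set.ncard_le_ncard h1 (Set.toFinite _)
        have h3 : U.ncard ≤ u.ncard + 2 := by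
          have e1 := Set.ncard_insert_le (a, false) (insert (b, false) u)
          have e2 := Set.ncard_insert_le (b, false) u
          rw [hU]
          omega
        omega
  -- every such component sees `U` through the flip
  have hsee : ∀ C ∈ W, ∃ p hp, c p hp = C ∧ flp p ∈ U := by
    intro C hC
    by_contra hcon
    push Not at hcon
    obtain ⟨hodd, hav⟩ := hC
    -- the flip acts on the support without fixed points
    have hin : ∀ p (hp : p ∉ u), c p hp = C → ∃ hq : flp p ∉ u, c (flp p) hq = C := by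
      intro p hp h
      have h1 := hcon p hp h
      obtain ⟨h2, h3, h4⟩ := (hnU _).1 h1
      obtain ⟨h5, h6⟩ := hav p hp h
      exact ⟨h4, by rw [← h]; exact (hadj _ _ hp h4 (DG_flp h5 h6 h2 h3)).symm⟩
    have hev : Even (Nat.card C.supp) := by
      have hmem : ∀ x : C.supp, c x.1.1 ((hverts _).1 x.1.2) = C := fun x =>
        (SimpleGraph.ConnectedComponent.mem_supp_iff _ _).1 x.2
      let τ : C.supp → C.supp := fun x =>
        ⟨⟨flp x.1.1, (hverts _).2 (hin x.1.1 ((hverts _).1 x.1.2) (hmem x)).fst⟩,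
          (SimpleGraph.ConnectedComponent.mem_supp_iff _ _).2
            (hin x.1.1 ((hverts _).1 x.1.2) (hmem x)).snd⟩
      have hτ : Function.Involutive τ := by
        intro x
        apply Subtype.ext
        apply Subtype.ext
        show flp (flp x.1.1) = x.1.1
        rw [flp_flp]
      have hτ' : ∀ x, τ x ≠ x := by
        intro x h
        exact flp_ne x.1.1 (congrArg (fun z : C.supp => z.1.1) h)
      have : Fintype C.supp := Fintype.ofFinite _
      rw [Nat.card_eq_fintype_card, even_iff_two_dvd]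
      by_contra ho
      have : Fact (Nat.Prime 2) := ⟨Nat.prime_two⟩
      obtain ⟨x, hx⟩ := Equiv.Perm.exists_fixed_point_of_prime (p := 2) (n := 1) ho
        (σ := hτ.toPerm τ) (by
          rw [pow_one, sq]
          ext x : 1
          exact hτ x)
      exact hτ' x hx
    rw [Nat.card_coe_set_eq] at hev
    exact (Nat.not_odd_iff_even.2 hev) hodd
  have : Nonempty (V × Bool) := ⟨(a, false)⟩
  choose! f hf using hsee
  have hsurj := Set.surj_on_of_inj_on_of_ncard_le (s := W) (t := U) (fun C _ => flp (f C))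
    (fun C hC => by obtain ⟨_, _, h⟩ := hf C hC; exact h)
    (fun C C' hC hC' h => by
      have h1 : f C = f C' := flp_inj h
      obtain ⟨hp, h2, -⟩ := hf C hC
      obtain ⟨hp', h2', -⟩ := hf C' hC'
      rw [← h2, ← h2']
      simp only [h1])
    hcard (Set.toFinite _)
  -- hence every element of `U` has its own component
  have hown : ∀ z ∈ U, ∃ hz : flp z ∉ u, c _ hz ∈ W ∧ z = flp (f (c _ hz)) := by
    intro z hz
    obtain ⟨C, hC, h⟩ := hsurj z hz
    have e : flp z = f C := by rw [h, flp_flp]
    obtain ⟨hp, h2, -⟩ := hf C hC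
    rw [← e] at hp
    have h2' : c _ hp = C := by
      rw [← h2]
      simp only [e]
    exact ⟨hp, by rw [h2']; exact hC, by rw [h2']; exact h⟩
  have hownU : ∀ z ∈ U, flp z ∉ U := by
    intro z hz
    obtain ⟨h1, h2, -⟩ := hown z hz
    rw [hnU]
    obtain ⟨h3, h4⟩ := h2.2 _ h1 rfl
    exact ⟨h3, h4, h1⟩
  -- representatives
  let rep : V × Bool → V × Bool := fun p => if hp : p ∉ u then (Quot.out (c p hp)).1 else p
  have hrep : ∀ p q (hp : p ∉ u) (hq : q ∉ u), rep p = rep q → c p hp = c q hq := by
    intro p q hp hq h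
    simp only [rep, dif_pos hp, dif_pos hq] at h
    have h1 : Quot.out (c p hp) = Quot.out (c q hq) := Subtype.ext h
    rw [← Quot.out_eq (c p hp), ← Quot.out_eq (c q hq), h1]
  have hrep' : ∀ p q (hp : p ∉ u) (hq : q ∉ u), c p hp = c q hq → rep p = rep q := by
    intro p q hp hq h
    simp only [rep, dif_pos hp, dif_pos hq, h]
  let κ : V → V × Bool := fun x => if (x, false) ∈ U then rep (x, true) else rep (x, false)
  have hκf : ∀ x, (x, false) ∉ U → κ x = rep (x, false) := fun x h => by simp only [κ, if_neg h]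
  have hκt : ∀ x, (x, true) ∉ U → κ x = rep (x, true) := by
    intro x h
    by_cases h' : (x, false) ∈ U
    · simp only [κ, if_pos h']
    · rw [hκf x h']
      apply hrep' _ _ (huU _ h') (huU _ h)
      obtain ⟨h1, h2, -⟩ := (hnU _).1 h'
      obtain ⟨h3, h4, -⟩ := (hnU _).1 h
      exact hadj _ _ (huU _ h') (huU _ h) (DG_flp (p := (x, false)) h1 h2 h3 h4)
  refine ⟨{x | (x, false) ∈ U}, {x | (x, true) ∈ U}, κ, ?_, ?_, ?_, ?_, ?_, ?_⟩
  · intro x hx hx'
    exact hownU _ hx hx'
  · simp [hU]
  · simp [hU]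
  · intro x y hx hy h
    have key : ∀ x, x ∈ {x | (x, false) ∈ U} ∨ x ∈ {x | (x, true) ∈ U} →
        ∃ z ∈ U, z.1 = x ∧ κ x = rep (flp z) := by
      rintro x (hx | hx)
      · exact ⟨_, hx, rfl, hκt x (hownU _ hx)⟩
      · exact ⟨_, hx, rfl, hκf x (hownU _ hx)⟩
    obtain ⟨z, hz, hz1, hz2⟩ := key x hx
    obtain ⟨w, hw, hw1, hw2⟩ := key y hy
    obtain ⟨e1, -, e2⟩ := hown z hz
    obtain ⟨e3, -, e4⟩ := hown w hw
    have h5 : c _ e1 = c _ e3 := hrep _ _ e1 e3 (by rw [← hz2, ← hw2, h])
    rw [h5, ← e4] at e2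
    rw [← hz1, ← hw1, e2]
  · intro x y h hx hy
    rcases eq_or_ne x y with rfl | hne
    · rfl
    · rw [hκf x hx, hκf y hy]
      apply hrep' _ _ (huU _ hx) (huU _ hy)
      obtain ⟨h1, h2, -⟩ := (hnU _).1 hx
      obtain ⟨h3, h4, -⟩ := (hnU _).1 hy
      exact hadj _ _ (huU _ hx) (huU _ hy)
        (Or.inr (Or.inr ⟨h1, h2, h3, h4, Or.inr (Or.inr ⟨hne, rfl, rfl, h⟩)⟩))
  · intro x y h hx hy
    rcases eq_or_ne x y with rfl | hne
    · rfl
    · rw [hκt x hx, hκt y hy]
      apply hrep' _ _ (huU _ hx) (huU _ hy)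
      obtain ⟨h1, h2, -⟩ := (hnU _).1 hx
      obtain ⟨h3, h4, -⟩ := (hnU _).1 hy
      exact hadj _ _ (huU _ hx) (huU _ hy)
        (Or.inr (Or.inr ⟨h1, h2, h3, h4, Or.inr (Or.inl ⟨hne, rfl, rfl, h⟩)⟩))

/-- **alternating trails**: a trail from `a` to `b` or a barrier -/
theorem alt [Finite V] (hP : ∀ x y, P x y → P y x) (hA : ∀ x y, A x y → A y x) (hab : a ≠ b) :
    (∃ u k, Trail P A a b u k) ∨ ∃ O E κ, Barrier P A a b O E κ := by
  by_cases hM : ∃ M : (DG P A hP hA a b hab).Subgraph, M.IsPerfectMatching
  · left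
    obtain ⟨M, hM⟩ := hM
    have h1 : ∀ p, ∃ q, M.Adj p q := fun p => (hM.1 (hM.2 p)).exists
    choose N hN using h1
    refine trail_of_inv (hP := hP) (hA := hA) (hab := hab) N (fun p => M.adj_sub (hN p)) ?_
    intro p
    exact (hM.1 (hM.2 (N p))).unique (hN (N p)) (hN p).symm
  · right
    have hnot := hM
    rw [SimpleGraph.tutte] at hnot
    push Not at hnot
    obtain ⟨u, hu⟩ := hnot
    exact barrier_of_viol u hu

end barrier

end JK.Alt
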