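import Pool.Agent.Lib.JK.Cut

/-! Deleting a set `U` of vertices; the edges leaving `U` become tokens. -/

set_option autoImplicit false

namespace JK.CG

open Finset Classical

variable {V D : Type*}

/-- delete the vertices in `U`, every edge between `U` and the rest becomes a token -/
noncomputable def delV (G : CG V D) (U : Finset V) : CG V D where
  vs := G.vs \ U
  ds := G.ds.filter fun d => G.pi d ∉ U
  pi := G.pi
  al := fun d => if G.pi (G.al d) ∈ U then d else G.al d
  pi_mem := by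
    intro d hd
    rw [mem_filter] at hd
    exact mem_sdiff.2 ⟨G.pi_mem d hd.1, hd.2⟩
  al_mem := by
    intro d hd
    rw [mem_filter] at hd
    by_cases h : G.pi (G.al d) ∈ U
    · simp only [h, if_true]
      exact mem_filter.2 hd
    · simp only [h, if_false]
      exact mem_filter.2 ⟨G.al_mem d hd.1, h⟩
  al_al := by
    intro d hd
    rw [mem_filter] at hd
    by_cases h : G.pi (G.al d) ∈ U
    · simp only [h, if_true]
    · simp only [h, if_false, G.al_al d hd.1, hd.2]
  cubic := by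
    intro v hv
    rw [mem_sdiff] at hv
    rw [← G.cubic v hv.1, filter_filter]
    congr 1
    ext d
    simp only [mem_filter]
    constructor
    · rintro ⟨h1, _, h3⟩
      exact ⟨h1, h3⟩
    · rintro ⟨h1, h3⟩
      exact ⟨h1, by rw [h3]; exact hv.2, h3⟩

variable (G : CG V D)

lemma delV_al_of {U : Finset V} {d : D} (h : G.pi (G.al d) ∉ U) : (G.delV U).al d = G.al d := by
  show (if G.pi (G.al d) ∈ U then d else G.al d) = G.al d
  rw [if_neg h]

lemma delV_al_in {U : Finset V} {d : D} (h : G.pi (G.al d) ∈ U) : (G.delV U).al d = d := by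
  show (if G.pi (G.al d) ∈ U then d else G.al d) = d
  rw [if_pos h]

lemma mem_delV_ds {U : Finset V} {d : D} :
    d ∈ (G.delV U).ds ↔ d ∈ G.ds ∧ G.pi d ∉ U := by
  show d ∈ G.ds.filter (fun d => G.pi d ∉ U) ↔ _
  rw [mem_filter]

/-- edges leaving `X` in `G - U`: those of `G` which do not go to `U` -/
lemma delV_bd {U X : Finset V} (hX : X ⊆ G.vs \ U) :
    (G.delV U).bd X = (G.bd X).filter fun d => G.pi (G.al d) ∉ U := by
  ext d
  rw [mem_filter, mem_bd, mem_bd, mem_delV_ds]
  show (d ∈ G.ds ∧ G.pi d ∉ U) ∧ G.pi d ∈ X ∧ G.pi ((G.delV U).al d) ∉ X ↔ _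
  constructor
  · rintro ⟨⟨h1, _⟩, h3, h4⟩
    by_cases h : G.pi (G.al d) ∈ U
    · rw [G.delV_al_in h] at h4
      exact absurd h3 h4
    · rw [G.delV_al_of h] at h4
      exact ⟨⟨h1, h3, h4⟩, h⟩
  · rintro ⟨⟨h1, h3, h4⟩, h⟩
    refine ⟨⟨h1, (mem_sdiff.1 (hX h3)).2⟩, h3, ?_⟩
    rw [G.delV_al_of h]
    exact h4

/-- tokens of `G - U` -/
lemma delV_tk {U X : Finset V} (hX : X ⊆ G.vs \ U) :
    (G.delV U).tk X = G.tk X ∪ (G.bd X).filter fun d => G.pi (G.al d) ∈ U := by
  ext d
  rw [mem_union, mem_filter, mem_bd, mem_tk, mem_tk, mem_delV_ds]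
  show (d ∈ G.ds ∧ G.pi d ∉ U) ∧ G.pi d ∈ X ∧ (G.delV U).al d = d ↔ _
  constructor
  · rintro ⟨⟨h1, _⟩, h3, h4⟩
    by_cases h : G.pi (G.al d) ∈ U
    · right
      exact ⟨⟨h1, h3, fun h5 => (mem_sdiff.1 (hX h5)).2 h⟩, h⟩
    · left
      rw [G.delV_al_of h] at h4
      exact ⟨h1, h3, h4⟩
  · rintro (⟨h1, h3, h4⟩ | ⟨⟨h1, h3, _⟩, h⟩)
    · have h5 : G.pi (G.al d) ∉ U := by
        rw [h4]
        exact (mem_sdiff.1 (hX h3)).2
      refine ⟨⟨h1, (mem_sdiff.1 (hX h3)).2⟩, h3, ?_⟩
      rw [G.delV_al_of h5]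
      exact h4
    · exact ⟨⟨h1, (mem_sdiff.1 (hX h3)).2⟩, h3, G.delV_al_in h⟩

lemma delV_tk_card' {U X : Finset V} (hX : X ⊆ G.vs \ U) :
    ((G.delV U).tk X).card =
      (G.tk X).card + ((G.bd X).filter fun d => G.pi (G.al d) ∈ U).card := by
  rw [G.delV_tk hX]
  apply card_union_of_disjoint
  rw [disjoint_left]
  intro d h1 h2
  rw [mem_tk] at h1
  rw [mem_filter, mem_bd, h1.2.2] at h2
  exact h2.1.2.2 h1.2.1

lemma delV_dg {U X : Finset V} (hX : X ⊆ G.vs \ U) : (G.delV U).dg X = G.dg X := by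
  have h1 := G.delV_tk_card' hX
  have h2 := card_filter_add_card_filter_not (s := G.bd X) (fun d => G.pi (G.al d) ∈ U)
  unfold dg
  rw [h1, G.delV_bd hX]
  omega

lemma delV_b0 (hb : G.B0) (U : Finset V) : (G.delV U).B0 := by
  intro X hX ho
  have hX' : X ⊆ G.vs \ U := hX
  rw [G.delV_dg hX']
  exact hb X (hX'.trans sdiff_subset) ho

/-- number of tokens of `G - U` -/
lemma delV_tk_card {U : Finset V} (hU : U ⊆ G.vs) :
    ((G.delV U).tk (G.delV U).vs).card + (G.tk U).card = (G.tk G.vs).card + (G.bd U).card := by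
  have h1 := G.delV_tk_card' (U := U) (X := G.vs \ U) (subset_refl _)
  have h2 : (G.bd (G.vs \ U)).filter (fun d => G.pi (G.al d) ∈ U) = G.bd (G.vs \ U) := by
    apply filter_true_of_mem
    intro d hd
    rw [mem_bd] at hd
    by_contra h
    exact hd.2.2 (mem_sdiff.2 ⟨G.pi_mem _ (G.al_mem d hd.1), h⟩)
  have h3 := G.bd_compl hU
  have h4 := G.tk_compl hU
  have h5 : (G.delV U).vs = G.vs \ U := rfl
  rw [h5, h1, h2, h3]
  omega

/-- the classes of `G - U`: all neighbours of `U` are absorbed -/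
lemma delV_cls {U K : Finset V} {F : Finset D} (hc : G.Cls K F) :
    (G.delV U).Cls ((K ∪ (G.ds.filter fun d => G.pi (G.al d) ∈ U).image G.pi) \ U)
      (F.filter fun d => G.pi d ∉ U ∧ G.pi (G.al d) ∉ U) where
  Ksub := by
    intro v hv
    rw [mem_sdiff, mem_union, mem_image] at hv
    refine mem_sdiff.2 ⟨?_, hv.2⟩
    rcases hv.1 with h | ⟨d, h, rfl⟩
    · exact hc.Ksub h
    · exact G.pi_mem d (mem_filter.1 h).1
  Fsub := by
    intro d hd
    rw [mem_filter] at hd
    rw [mem_delV_ds]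
    exact ⟨hc.Fsub hd.1, hd.2.1⟩
  Fal := by
    intro d hd
    rw [mem_filter] at hd
    rw [G.delV_al_of hd.2.2, mem_filter, G.al_al d (hc.Fsub hd.1)]
    exact ⟨hc.Fal d hd.1, hd.2.2, hd.2.1⟩
  Ftok := by
    intro d hd
    rw [mem_filter] at hd
    rw [G.delV_al_of hd.2.2]
    exact hc.Ftok d hd.1
  F2 := by
    intro v hv hvK
    have hv' : v ∈ G.vs \ U := hv
    rw [mem_sdiff] at hv'
    rw [mem_sdiff, mem_union, mem_image, not_and_or, not_or] at hvK
    have h1 : v ∉ K ∧ ¬ ∃ a ∈ G.ds.filter (fun d => G.pi (G.al d) ∈ U), G.pi a = v := by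
      rcases hvK with h | h
      · exact h
      · exact absurd hv'.2 h
    rw [← hc.F2 v hv'.1 h1.1]
    show ((F.filter fun d => G.pi d ∉ U ∧ G.pi (G.al d) ∉ U).filter fun d => G.pi d = v).card = _
    congr 1
    ext d
    simp only [mem_filter]
    constructor
    · rintro ⟨⟨h2, _⟩, h3⟩
      exact ⟨h2, h3⟩
    · rintro ⟨h2, h3⟩
      refine ⟨⟨h2, by rw [h3]; exact hv'.2, ?_⟩, h3⟩
      intro h4
      exact h1.2 ⟨d, mem_filter.2 ⟨hc.Fsub h2, h4⟩, h3⟩
  tokK := by
    intro d hd ht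
    rw [mem_delV_ds] at hd
    show G.pi d ∈ _
    rw [mem_sdiff, mem_union, mem_image]
    refine ⟨?_, hd.2⟩
    by_cases h : G.pi (G.al d) ∈ U
    · right
      exact ⟨d, mem_filter.2 ⟨hd.1, h⟩, rfl⟩
    · rw [G.delV_al_of h] at ht
      left
      exact hc.tokK d hd.1 ht

lemma delV_adm {U K : Finset V} {F : Finset D} (hc : G.Cls K F) {Z : Finset V} :
    (G.delV U).Adm ((K ∪ (G.ds.filter fun d => G.pi (G.al d) ∈ U).image G.pi) \ U)
      (F.filter fun d => G.pi d ∉ U ∧ G.pi (G.al d) ∉ U) Z ↔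
      (G.Adm K F Z ∧ Disjoint Z U ∧ ∀ d ∈ G.ds, G.pi d ∈ Z → G.pi (G.al d) ∉ U) := by
  constructor
  · intro h
    have hs : Z ⊆ G.vs \ U := h.sub
    have hU : ∀ v ∈ Z, v ∉ U := fun v hv => (mem_sdiff.1 (hs hv)).2
    have hd : ∀ v ∈ Z, v ∉ K ∧
        ¬ ∃ a ∈ G.ds.filter (fun d => G.pi (G.al d) ∈ U), G.pi a = v := by
      intro v hv
      have h1 := h.dis v hv
      rw [mem_sdiff, mem_union, mem_image, not_and_or, not_or] at h1
      rcases h1 with h2 | h2
      · exact h2
      · exact absurd (hU v hv) h2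
    have hn : ∀ d ∈ G.ds, G.pi d ∈ Z → G.pi (G.al d) ∉ U := by
      intro d h1 h2 h3
      exact (hd _ h2).2 ⟨d, mem_filter.2 ⟨h1, h3⟩, rfl⟩
    refine ⟨⟨hs.trans sdiff_subset, fun v hv => (hd v hv).1, ?_⟩, ?_, hn⟩
    · intro d h1 h2
      have h3 := hn d (hc.Fsub h1) h2
      have h4 := h.clo d (mem_filter.2 ⟨h1, hU _ h2, h3⟩) h2
      rw [G.delV_al_of h3] at h4
      exact h4
    · rw [disjoint_left]
      exact hU
  · rintro ⟨h, hdj, hn⟩
    rw [disjoint_left] at hdj
    refine ⟨?_, ?_, ?_⟩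
    · intro v hv
      exact mem_sdiff.2 ⟨h.sub hv, hdj hv⟩
    · intro v hv h1
      rw [mem_sdiff, mem_union, mem_image] at h1
      rcases h1.1 with h2 | ⟨d, h2, rfl⟩
      · exact h.dis v hv h2
      · rw [mem_filter] at h2
        exact hn d h2.1 hv h2.2
    · intro d h1 h2
      rw [mem_filter] at h1
      rw [G.delV_al_of h1.2.2]
      exact h.clo d h1.1 h2

/-- `x1` is a dart of an edge `xy`; a matching of `G - x - y` together with `xy` -/
lemma delV_pm {x1 : D} (hx : x1 ∈ G.ds) (hn : G.pi x1 ≠ G.pi (G.al x1)) {M : Finset D}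
    (hM : (G.delV {G.pi x1, G.pi (G.al x1)}).IsPM M) : G.IsPM (M ∪ {x1, G.al x1}) := by
  have hne : G.al x1 ≠ x1 := fun h => hn (by rw [h])
  have hds : ∀ d ∈ M, d ∈ G.ds ∧ G.pi d ∉ ({G.pi x1, G.pi (G.al x1)} : Finset V) := by
    intro d hd
    exact (G.mem_delV_ds).1 (hM.sub hd)
  have hal : ∀ d ∈ M, G.pi (G.al d) ∉ ({G.pi x1, G.pi (G.al x1)} : Finset V) := by
    intro d hd h
    exact hM.notok d hd (G.delV_al_in h)
  refine ⟨?_, ?_, ?_, ?_⟩
  · intro d hd
    rw [mem_union, mem_insert, mem_singleton] at hd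
    rcases hd with h | rfl | rfl
    · exact (hds d h).1
    · exact hx
    · exact G.al_mem _ hx
  · intro d hd
    rw [mem_union, mem_insert, mem_singleton] at hd ⊢
    rcases hd with h | rfl | rfl
    · left
      have h1 := hM.closed d h
      rw [G.delV_al_of (hal d h)] at h1
      exact h1
    · right; right; rfl
    · right; left
      exact G.al_al _ hx
  · intro d hd
    rw [mem_union, mem_insert, mem_singleton] at hd
    rcases hd with h | rfl | rfl
    · have h1 := hM.notok d h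
      rw [G.delV_al_of (hal d h)] at h1
      exact h1
    · exact hne
    · rw [G.al_al _ hx]
      exact fun h => hne h.symm
  · intro v hv
    rw [filter_union]
    by_cases h1 : v = G.pi x1
    · have e1 : (M.filter fun d => G.pi d = v) = ∅ := by
        apply filter_false_of_mem
        intro d hd h2
        apply (hds d hd).2
        rw [h2, h1]
        exact mem_insert_self _ _
      have e2 : ((({x1, G.al x1} : Finset D)).filter fun d => G.pi d = v) = {x1} := by
        ext d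
        simp only [mem_filter, mem_insert, mem_singleton]
        constructor
        · rintro ⟨rfl | rfl, h3⟩
          · rfl
          · exact absurd (h1.symm.trans h3.symm) hn
        · rintro rfl
          exact ⟨Or.inl rfl, h1.symm⟩
      rw [e1, e2, empty_union, card_singleton]
    · by_cases h2 : v = G.pi (G.al x1)
      · have e1 : (M.filter fun d => G.pi d = v) = ∅ := by
          apply filter_false_of_mem
          intro d hd h3
          apply (hds d hd).2
          rw [h3, h2]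
          exact mem_insert_of_mem (mem_singleton_self _)
        have e2 : ((({x1, G.al x1} : Finset D)).filter fun d => G.pi d = v) = {G.al x1} := by
          ext d
          simp only [mem_filter, mem_insert, mem_singleton]
          constructor
          · rintro ⟨rfl | rfl, h3⟩
            · exact absurd h3.symm h1
            · rfl
          · rintro rfl
            exact ⟨Or.inr rfl, h2.symm⟩
        rw [e1, e2, empty_union, card_singleton]
      · have e2 : ((({x1, G.al x1} : Finset D)).filter fun d => G.pi d = v) = ∅ := by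
          apply filter_false_of_mem
          intro d hd h3
          rw [mem_insert, mem_singleton] at hd
          rcases hd with rfl | rfl
          · exact h1 h3.symm
          · exact h2 h3.symm
        rw [e2, union_empty]
        apply hM.one
        refine mem_sdiff.2 ⟨hv, ?_⟩
        rw [mem_insert, mem_singleton, not_or]
        exact ⟨h1, h2⟩

/-- **Reduction**: an edge `xy` with both ends absorbed such that deleting `x`, `y` leaves at
most four tokens. (Then `G` has a good matching containing `xy`.) -/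
theorem del_red {K : Finset V} {F : Finset D} (hI : G.Inst K F) (ih : IH G.vs.card V D)
    {x1 : D} (hx : x1 ∈ G.ds) (ht : G.al x1 ≠ x1)
    (ax : G.Abs K F (G.pi x1)) (ay : G.Abs K F (G.pi (G.al x1)))
    (h4 : (G.tk G.vs).card + (G.bd {G.pi x1, G.pi (G.al x1)}).card ≤
      4 + (G.tk {G.pi x1, G.pi (G.al x1)}).card) :
    ∃ M, G.Good K F M := by
  have hn : G.pi x1 ≠ G.pi (G.al x1) := fun h => hI.b0.no_loop hx ht h.symm
  set U : Finset V := {G.pi x1, G.pi (G.al x1)} with hU
  have hUs : U ⊆ G.vs := by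
    intro v hv
    rw [hU, mem_insert, mem_singleton] at hv
    rcases hv with rfl | rfl
    · exact G.pi_mem _ hx
    · exact G.pi_mem _ (G.al_mem _ hx)
  have hUc : U.card = 2 := by
    rw [hU]
    exact card_pair hn
  have hUZ : ∀ Z, G.Adm K F Z → ∀ v ∈ Z, v ∉ U := by
    intro Z hZ v hv h
    rw [hU, mem_insert, mem_singleton] at h
    rcases h with rfl | rfl
    · exact ax Z hZ hv
    · exact ay Z hZ hv
  have hcard : (G.vs \ U).card + 2 = G.vs.card := by
    rw [← hUc]
    exact card_sdiff_add_card_eq_card hUs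
  have hbd : ∀ Z, G.Adm K F Z → (∀ d ∈ G.ds, G.pi d ∈ Z → G.pi (G.al d) ∉ U) →
      (G.delV U).bd Z = G.bd Z := by
    intro Z hZ h
    rw [G.delV_bd (fun v hv => mem_sdiff.2 ⟨hZ.sub hv, hUZ Z hZ v hv⟩)]
    apply filter_true_of_mem
    intro d hd
    rw [mem_bd] at hd
    exact h d hd.1 hd.2.1
  have hI' : (G.delV U).Inst ((K ∪ (G.ds.filter fun d => G.pi (G.al d) ∈ U).image G.pi) \ U)
      (F.filter fun d => G.pi d ∉ U ∧ G.pi (G.al d) ∉ U) := by
    refine ⟨?_, ?_, G.delV_b0 hI.b0 U, G.delV_cls hI.cls, ?_⟩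
    · show Even (G.vs \ U).card
      have := hI.even
      rw [← hcard] at this
      exact (Nat.even_add.1 this).2 even_two
    · have := G.delV_tk_card hUs
      omega
    · intro Z hZ ho
      rw [G.delV_adm hI.cls] at hZ
      rw [hbd Z hZ.1 hZ.2.2]
      exact hI.cc Z hZ.1 ho
  obtain ⟨M, hM⟩ := ih (G.delV U) _ _ (by
    show (G.vs \ U).card < G.vs.card
    omega) hI'
  refine ⟨M ∪ {x1, G.al x1}, G.delV_pm hx hn hM.pm, ?_⟩
  intro Z hZ ho
  have hx1 : ∀ d, G.pi d ∈ Z → d ∉ ({x1, G.al x1} : Finset D) := by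
    intro d hd h
    rw [mem_insert, mem_singleton] at h
    rcases h with rfl | rfl
    · exact ax Z hZ hd
    · exact ay Z hZ hd
  by_cases h : ∀ d ∈ G.ds, G.pi d ∈ Z → G.pi (G.al d) ∉ U
  · have hA : (G.delV U).Adm ((K ∪ (G.ds.filter fun d => G.pi (G.al d) ∈ U).image G.pi) \ U)
        (F.filter fun d => G.pi d ∉ U ∧ G.pi (G.al d) ∉ U) Z := by
      rw [G.delV_adm hI.cls]
      exact ⟨hZ, disjoint_left.2 (hUZ Z hZ), h⟩
    obtain ⟨d, hd, hdM⟩ := hM.hit Z hA ho
    rw [hbd Z hZ h] at hd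
    refine ⟨d, hd, ?_⟩
    rw [mem_union, not_or]
    exact ⟨hdM, hx1 d ((G.mem_bd).1 hd).2.1⟩
  · push Not at h
    obtain ⟨d, hd, hdZ, hdU⟩ := h
    refine ⟨d, (G.mem_bd).2 ⟨hd, hdZ, fun h2 => hUZ Z hZ _ h2 hdU⟩, ?_⟩
    rw [mem_union, not_or]
    refine ⟨fun h2 => hM.pm.notok d h2 (G.delV_al_in hdU), hx1 d hdZ⟩

end JK.CG
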