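import Pool.Agent.Lib.JK.Cut

/-! Cutting a set of edges into tokens. -/

set_option autoImplicit false

namespace JK.CG

open Finset Classical

variable {V D : Type*} {G : CG V D}

/-- cutting a set `A` of edges (given by darts) into tokens: these edges are avoided -/
noncomputable def cutS (G : CG V D) (A : Finset D) (hA : ∀ d ∈ A, G.al d ∈ A) : CG V D where
  vs := G.vs
  ds := G.ds
  pi := G.pi
  al := fun d => if d ∈ A then d else G.al d
  pi_mem := G.pi_mem
  al_mem := by
    intro d hd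
    by_cases h : d ∈ A
    · simpa [h] using hd
    · simpa [h] using G.al_mem d hd
  al_al := by
    intro d hd
    by_cases h : d ∈ A
    · simp [h]
    · have h2 : G.al d ∉ A := by
        intro h3
        have := hA _ h3
        rw [G.al_al d hd] at this
        exact h this
      simp [h, h2, G.al_al d hd]
  cubic := G.cubic

section cutS

variable {A : Finset D} (hA : ∀ d ∈ A, G.al d ∈ A)
include hA

private lemma cutS_al_of_mem {d : D} (h : d ∈ A) : (G.cutS A hA).al d = d := by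
  simp [cutS, h]

private lemma cutS_al_of_notMem {d : D} (h : d ∉ A) : (G.cutS A hA).al d = G.al d := by
  simp [cutS, h]

lemma cutS_bd (X : Finset V) : (G.cutS A hA).bd X = G.bd X \ A := by
  ext d
  simp only [bd, mem_filter, mem_sdiff]
  by_cases h : d ∈ A
  · have h1 := cutS_al_of_mem hA h
    rw [h1]
    constructor
    · rintro ⟨_, h2, h3⟩
      exact absurd h2 h3
    · rintro ⟨_, h2⟩
      exact absurd h h2
  · have h1 := cutS_al_of_notMem hA h
    rw [h1]
    constructor
    · rintro ⟨h2, h3, h4⟩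
      exact ⟨⟨h2, h3, h4⟩, h⟩
    · rintro ⟨⟨h2, h3, h4⟩, _⟩
      exact ⟨h2, h3, h4⟩

private lemma cutS_tk' (X : Finset V) :
    (G.cutS A hA).tk X = G.tk X ∪ ((A.filter fun d => G.pi d ∈ X) ∩ G.ds) := by
  ext d
  simp only [tk, mem_filter, mem_union, mem_inter]
  by_cases h : d ∈ A
  · have h1 := cutS_al_of_mem hA h
    rw [h1]
    constructor
    · rintro ⟨h2, h3, _⟩
      exact Or.inr ⟨⟨h, h3⟩, h2⟩
    · rintro (⟨h2, h3, _⟩ | ⟨⟨_, h3⟩, h2⟩)
      · exact ⟨h2, h3, rfl⟩
      · exact ⟨h2, h3, rfl⟩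
  · have h1 := cutS_al_of_notMem hA h
    rw [h1]
    constructor
    · rintro ⟨h2, h3, h4⟩
      exact Or.inl ⟨h2, h3, h4⟩
    · rintro (⟨h2, h3, h4⟩ | ⟨⟨h5, _⟩, _⟩)
      · exact ⟨h2, h3, h4⟩
      · exact absurd h5 h

lemma cutS_tk (hAd : A ⊆ G.ds) (X : Finset V) :
    (G.cutS A hA).tk X = G.tk X ∪ (A.filter fun d => G.pi d ∈ X) := by
  rw [cutS_tk' hA X]
  congr 1
  rw [inter_eq_left]
  exact (filter_subset _ _).trans hAd

lemma cutS_dg (X : Finset V) : G.dg X ≤ (G.cutS A hA).dg X := by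
  unfold dg
  rw [cutS_bd hA X, cutS_tk' hA X]
  have hdisj : Disjoint (G.tk X) (G.bd X ∩ A) := by
    rw [disjoint_left]
    intro d h1 h2
    simp only [tk, bd, mem_filter, mem_inter] at h1 h2
    obtain ⟨_, h3, h4⟩ := h1
    obtain ⟨⟨_, _, h5⟩, _⟩ := h2
    rw [h4] at h5
    exact h5 h3
  have hsub : G.tk X ∪ (G.bd X ∩ A) ⊆ G.tk X ∪ ((A.filter fun d => G.pi d ∈ X) ∩ G.ds) := by
    apply union_subset_union_right
    intro d hd
    simp only [bd, mem_filter, mem_inter] at hd ⊢
    exact ⟨⟨hd.2, hd.1.2.1⟩, hd.1.1⟩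
  have h1 := card_le_card hsub
  rw [card_union_of_disjoint hdisj] at h1
  have h2 : (G.bd X \ A).card + (G.bd X ∩ A).card = (G.bd X).card := card_sdiff_add_card_inter _ _
  omega

lemma cutS_b0 (hb : G.B0) : (G.cutS A hA).B0 := by
  intro X hX ho
  exact (hb X hX ho).trans (cutS_dg hA X)

/-- number of tokens (if no dart of `A` is a token) -/
lemma cutS_tk_card (hAd : A ⊆ G.ds) (hn : ∀ d ∈ A, G.al d ≠ d) :
    ((G.cutS A hA).tk G.vs).card = (G.tk G.vs).card + A.card := by
  rw [cutS_tk hA hAd G.vs]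
  have hf : (A.filter fun d => G.pi d ∈ G.vs) = A := by
    rw [filter_eq_self]
    intro d hd
    exact G.pi_mem d (hAd hd)
  rw [hf, card_union_of_disjoint]
  rw [disjoint_left]
  intro d h1 h2
  simp only [tk, mem_filter] at h1
  exact hn d h2 h1.2.2

lemma cutS_pm {M : Finset D} : (G.cutS A hA).IsPM M ↔ G.IsPM M ∧ ∀ d ∈ A, d ∉ M := by
  constructor
  · intro h
    have hd : ∀ d ∈ A, d ∉ M := by
      intro d hd hM
      exact h.notok d hM (cutS_al_of_mem hA hd)
    have hal : ∀ d ∈ M, (G.cutS A hA).al d = G.al d := by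
      intro d hM
      exact cutS_al_of_notMem hA (fun h1 => hd d h1 hM)
    refine ⟨⟨h.sub, ?_, ?_, h.one⟩, hd⟩
    · intro d hM
      rw [← hal d hM]
      exact h.closed d hM
    · intro d hM
      rw [← hal d hM]
      exact h.notok d hM
  · rintro ⟨h, hd⟩
    have hal : ∀ d ∈ M, (G.cutS A hA).al d = G.al d := by
      intro d hM
      exact cutS_al_of_notMem hA (fun h1 => hd d h1 hM)
    refine ⟨h.sub, ?_, ?_, h.one⟩
    · intro d hM
      rw [hal d hM]
      exact h.closed d hM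
    · intro d hM
      rw [hal d hM]
      exact h.notok d hM

/-- classes after cutting: the ends of the cut edges are absorbed; `F` loses the cut edges -/
lemma cutS_cls (hAd : A ⊆ G.ds) {K : Finset V} {F : Finset D} (hc : G.Cls K F) :
    (G.cutS A hA).Cls (K ∪ A.image G.pi) (F \ A) := by
  have hal : ∀ d, d ∉ A → (G.cutS A hA).al d = G.al d := fun d hd => cutS_al_of_notMem hA hd
  refine ⟨?_, ?_, ?_, ?_, ?_, ?_⟩
  · apply union_subset hc.Ksub
    intro v hv
    rw [mem_image] at hv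
    obtain ⟨d, hd, rfl⟩ := hv
    exact G.pi_mem d (hAd hd)
  · exact sdiff_subset.trans hc.Fsub
  · intro d hd
    rw [mem_sdiff] at hd ⊢
    rw [hal d hd.2]
    refine ⟨hc.Fal d hd.1, fun h => hd.2 ?_⟩
    have := hA _ h
    rwa [G.al_al d (hc.Fsub hd.1)] at this
  · intro d hd
    rw [mem_sdiff] at hd
    rw [hal d hd.2]
    exact hc.Ftok d hd.1
  · intro v hv hvK
    rw [mem_union, not_or] at hvK
    have heq : ((F \ A).filter fun d => (G.cutS A hA).pi d = v) =
        (F.filter fun d => G.pi d = v) := by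
      ext d
      simp only [mem_filter, mem_sdiff]
      constructor
      · rintro ⟨⟨h1, _⟩, h2⟩
        exact ⟨h1, h2⟩
      · rintro ⟨h1, h2⟩
        refine ⟨⟨h1, fun h3 => hvK.2 ?_⟩, h2⟩
        rw [mem_image]
        exact ⟨d, h3, h2⟩
    rw [heq]
    exact hc.F2 v hv hvK.1
  · intro d hd hal'
    rw [mem_union]
    by_cases h : d ∈ A
    · exact Or.inr (mem_image_of_mem _ h)
    · rw [hal d h] at hal'
      exact Or.inl (hc.tokK d hd hal')

lemma cutS_adm (hAd : A ⊆ G.ds) {K : Finset V} {F : Finset D} (hc : G.Cls K F) {Z : Finset V} :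
    (G.cutS A hA).Adm (K ∪ A.image G.pi) (F \ A) Z ↔
      (G.Adm K F Z ∧ ∀ d ∈ A, G.pi d ∉ Z) := by
  have hal : ∀ d, d ∉ A → (G.cutS A hA).al d = G.al d := fun d hd => cutS_al_of_notMem hA hd
  constructor
  · intro h
    have hz : ∀ d ∈ A, G.pi d ∉ Z := by
      intro d hd hZ
      exact h.dis _ hZ (mem_union_right _ (mem_image_of_mem _ hd))
    refine ⟨⟨h.sub, ?_, ?_⟩, hz⟩
    · intro v hv hK
      exact h.dis v hv (mem_union_left _ hK)
    · intro d hd hdZ
      have hdA : d ∉ A := fun h1 => hz d h1 hdZ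
      have := h.clo d (mem_sdiff.2 ⟨hd, hdA⟩) hdZ
      rwa [hal d hdA] at this
  · rintro ⟨h, hz⟩
    refine ⟨h.sub, ?_, ?_⟩
    · intro v hv hK
      rw [mem_union] at hK
      rcases hK with hK | hK
      · exact h.dis v hv hK
      · rw [mem_image] at hK
        obtain ⟨d, hd, rfl⟩ := hK
        exact hz d hd hv
    · intro d hd hdZ
      rw [mem_sdiff] at hd
      rw [hal d hd.2]
      exact h.clo d hd.1 hdZ

end cutS

end JK.CG
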