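import Pool.Agent.Lib.JK.GluePM
import Pool.Agent.Lib.JK.CutS

/-! Gluing along a tight set: one token inside (2 edges), two tokens inside (1 edge), or a
3-cut such that any two of its edges have an absorbed end. -/

set_option autoImplicit false

namespace JK.CG

open Finset Classical

variable {V D : Type*} {G : CG V D} {K : Finset V} {F : Finset D}

/-- circuits cross evenly: the number of `F`-darts leaving a set `Y` disjoint from `K` is even -/
lemma Cls.even_cross (hc : G.Cls K F) {Y : Finset V} (hY : Y ⊆ G.vs) (hK : ∀ v ∈ Y, v ∉ K) :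
    Even ((F.filter fun d => G.pi d ∈ Y ∧ G.pi (G.al d) ∉ Y).card) := by
  have h1 : (F.filter fun d => G.pi d ∈ Y).card = 2 * Y.card := by
    have h2 : ∀ d ∈ F.filter (fun d => G.pi d ∈ Y), G.pi d ∈ Y := fun d hd => (mem_filter.1 hd).2
    rw [card_eq_sum_card_fiberwise h2]
    have h3 : ∀ v ∈ Y, ((F.filter fun d => G.pi d ∈ Y).filter fun d => G.pi d = v).card = 2 := by
      intro v hv
      rw [← hc.F2 v (hY hv) (hK v hv), filter_filter]
      congr 1
      apply filter_congr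
      intro d _
      constructor
      · exact fun h => h.2
      · exact fun h => ⟨h ▸ hv, h⟩
    rw [sum_congr rfl h3, sum_const, smul_eq_mul, mul_comm]
  have h2 : Even ((F.filter fun d => G.pi d ∈ Y ∧ G.pi (G.al d) ∈ Y).card) := by
    apply G.even_of_closed
    · exact (filter_subset _ _).trans hc.Fsub
    · intro d hd
      rw [mem_filter] at hd ⊢
      rw [G.al_al d (hc.Fsub hd.1)]
      exact ⟨hc.Fal d hd.1, hd.2.2, hd.2.1⟩
    · intro d hd
      exact hc.Ftok d (mem_filter.1 hd).1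
  have h3 : (F.filter fun d => G.pi d ∈ Y ∧ G.pi (G.al d) ∈ Y).card +
      (F.filter fun d => G.pi d ∈ Y ∧ G.pi (G.al d) ∉ Y).card =
      (F.filter fun d => G.pi d ∈ Y).card := by
    have h4 := card_filter_add_card_filter_not (s := F.filter fun d => G.pi d ∈ Y)
      (fun d => G.pi (G.al d) ∈ Y)
    rw [filter_filter, filter_filter] at h4
    exact h4
  rw [h1] at h3
  obtain ⟨k, hk⟩ := h2
  refine ⟨Y.card - k, ?_⟩
  omega

section gl

variable {X : Finset V} {z : V} {T : Finset D}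

lemma gl_mem_ds (h : G.CD X z T) {d : D} :
    d ∈ h.con.ds ↔ (d ∈ G.ds ∧ (G.pi d ∈ X ∨ G.pi (G.al d) ∈ X)) ∨ d ∈ T := by
  unfold CD.con
  simp only [mem_union, mem_filter]

lemma gl_pi_in (h : G.CD X z T) {d : D} (hd : G.pi d ∈ X) : h.con.pi d = G.pi d := by
  unfold CD.con
  exact if_pos hd

lemma gl_pi_out (h : G.CD X z T) {d : D} (hd : G.pi d ∉ X) : h.con.pi d = z := by
  unfold CD.con
  exact if_neg hd

lemma gl_al (h : G.CD X z T) (d : D) : h.con.al d = G.al d := rfl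

lemma gl_vs (h : G.CD X z T) : h.con.vs = insert z X := rfl

/-- the matching edge of the cut, seen from the contracted graph -/
lemma gl_edge (h : G.CD X z T) {M : Finset D} (hM : h.con.IsPM M) :
    ∃ e ∈ G.bd X, ∀ d ∈ G.bd X, (d ∈ M ↔ d = e) := by
  have hone := hM.one z (by rw [gl_vs]; exact mem_insert_self _ _)
  rw [card_eq_one] at hone
  obtain ⟨f, hf⟩ := hone
  have hfm : f ∈ M.filter fun d => h.con.pi d = z := by
    rw [hf]
    exact mem_singleton_self f
  rw [mem_filter] at hfm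
  have hfT : f ∉ T := by
    intro hT
    have h1 := (G.mem_tk).1 (h.Tsub hT)
    exact hM.notok f hfm.1 h1.2.2
  have hds := ((gl_mem_ds h).1 (hM.sub hfm.1)).resolve_right hfT
  have hnX : G.pi f ∉ X := by
    intro hx
    have := hfm.2
    rw [gl_pi_in h hx] at this
    rw [this] at hx
    exact h.zX hx
  have hfX : G.pi (G.al f) ∈ X := hds.2.resolve_left hnX
  have haf : G.al f ∈ G.bd X := by
    rw [G.mem_bd]
    refine ⟨G.al_mem f hds.1, hfX, ?_⟩
    rw [G.al_al f hds.1]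
    exact hnX
  refine ⟨G.al f, haf, ?_⟩
  intro d hd
  have h4 := (G.mem_bd).1 hd
  constructor
  · intro hdM
    have h5 : G.al d ∈ M.filter fun d => h.con.pi d = z := by
      rw [mem_filter]
      exact ⟨hM.closed d hdM, gl_pi_out h h4.2.2⟩
    rw [hf, mem_singleton] at h5
    rw [← h5, G.al_al d h4.1]
  · intro hde
    rw [hde]
    exact hM.closed f hfm.1

end gl

/-- **Gluing.** `X` odd with `dg X = 3`, both sides with at least 3 vertices. If `X` has no token
(then 3 edges leave `X`), any two of these edges must have an absorbed end.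

Proof. `W = vs \ X`. `G2` = contraction of `X` to `z2` (tokens of `X` kept at `z2`), `z2` absorbed;
`M2` good by induction; it contains exactly one edge `e` of the cut. `G1` = contraction of `W` to
`z` with `(tk X).card` tokens of `W` at `z`, and all the other edges of the cut are cut into tokens
(their ends absorbed); exactly 4 tokens; `M1` good by induction, `M1` contains `e`.
`M = M1 ∪ M2`. Let `Z` be an odd union of fresh circuits with `bd Z ⊆ M`. `Z ∩ X` has no tokens, so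
the number of non-`M` edges leaving it is even; these are cut edges other than `e` whose inner end
is in `Z`; there are at most two, so none or both, and if both then (same for `Z ∩ W`) all four ends
are in `Z`, contradiction. So `Z` contains no end of a cut edge other than `e`, hence (circuits cross
evenly) `Z ∩ X` and `Z ∩ W` are unions of fresh circuits, one of them is odd, and its boundary is in
`M1` resp. `M2`: contradiction. -/
theorem glue (hI : G.Inst K F) (ih : IH G.vs.card V D) {X : Finset V} (hX : X ⊆ G.vs)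
    (ho : Odd X.card) (h3 : G.dg X = 3) (hc : 3 ≤ X.card) (hc' : 3 ≤ (G.vs \ X).card)
    (hmis : G.tk X = ∅ → ∀ e ∈ G.bd X, ∀ e' ∈ G.bd X, e ≠ e' →
      G.Abs K F (G.pi e) ∨ G.Abs K F (G.pi (G.al e)) ∨ G.Abs K F (G.pi e') ∨
        G.Abs K F (G.pi (G.al e'))) :
    ∃ M, G.Good K F M := by
  have hcls := hI.cls
  obtain ⟨W, hWdef⟩ : ∃ W, W = G.vs \ X := ⟨_, rfl⟩
  rw [← hWdef] at hc'
  have hWs : W ⊆ G.vs := by rw [hWdef]; exact sdiff_subset
  have hWX : G.vs \ W = X := by rw [hWdef, Finset.sdiff_sdiff_eq_self hX]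
  have hmW : ∀ v ∈ G.vs, v ∉ X → v ∈ W := by
    intro v hv hvX
    rw [hWdef]
    exact mem_sdiff.2 ⟨hv, hvX⟩
  have hWnX : ∀ v ∈ W, v ∉ X := by
    intro v hv
    rw [hWdef] at hv
    exact (mem_sdiff.1 hv).2
  have hcard : W.card + X.card = G.vs.card := by
    rw [hWdef]
    exact card_sdiff_add_card_eq_card hX
  have hWo : Odd W.card := by
    have := hI.even
    rw [← hcard] at this
    by_contra hne
    rw [Nat.not_odd_iff_even] at hne
    exact (Nat.not_even_iff_odd.2 (hne.add_odd ho)) this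
  have hb3 : (G.bd X).card + (G.tk X).card = 3 := h3
  have hbW : (G.bd W).card = (G.bd X).card := by
    rw [hWdef, G.bd_compl hX]
  have htW : (G.tk X).card ≤ (G.tk W).card := by
    have h1 := hI.b0 W hWs hWo
    unfold dg at h1
    omega
  have htot : (G.tk W).card + (G.tk X).card ≤ 4 := by
    have := G.tk_compl hX
    have h4 := hI.four
    rw [← hWdef] at this
    omega
  have halbd : ∀ d ∈ G.bd X, G.al d ∈ G.ds ∧ G.pi (G.al d) ∈ W ∧ G.pi d ∈ X ∧ d ∈ G.ds ∧
      G.al (G.al d) = d := by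
    intro d hd
    have h := (G.mem_bd).1 hd
    have h1 := G.al_mem d h.1
    exact ⟨h1, hmW _ (G.pi_mem _ h1) h.2.2, h.2.1, h.1, G.al_al d h.1⟩
  -- the two contractions
  obtain ⟨z2, hz2⟩ : X.Nonempty := card_pos.1 (by omega)
  obtain ⟨z, hz⟩ : W.Nonempty := card_pos.1 (by omega)
  obtain ⟨T, hTs, hTc⟩ := exists_subset_card_eq htW
  have h1 : G.CD X z T := ⟨hX, hWs hz, hWnX z hz, by rw [← hWdef]; exact hTs, by omega⟩
  have h2 : G.CD W z2 (G.tk X) :=
    ⟨hWs, hX hz2, fun h => hWnX z2 h hz2, by rw [hWX], by omega⟩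
  -- the instance `G2`
  have hI2 : h2.con.Inst (insert z2 (K ∩ W)) (F.filter fun d => d ∈ h2.con.ds) := by
    refine ⟨?_, ?_, ?_, ?_, ?_⟩
    · rw [h2.vs_card]
      exact hWo.add_one
    · rw [h2.tk_vs]
      exact htot
    · apply h2.b0_all hI.b0
      · rw [hWX]
        exact ho
      · rw [hWX]
    · exact h2.cls hcls
    · intro Z hZ hoZ
      rw [h2.adm hcls] at hZ
      rw [h2.bd_sub hZ.1]
      exact hI.cc Z hZ.2 hoZ
  obtain ⟨M2, hM2⟩ := ih h2.con _ _ (by rw [h2.vs_card]; omega) hI2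
  -- the matching edge of the cut
  obtain ⟨e, he, heu⟩ : ∃ e ∈ G.bd X, ∀ d ∈ G.bd X, (d ∈ M2 ↔ d = e) := by
    obtain ⟨f, hf, hfu⟩ := gl_edge h2 hM2.pm
    have hfd := (G.mem_bd).1 hf
    have hal : G.al f ∈ G.bd X := by
      rw [G.mem_bd, G.al_al f hfd.1]
      refine ⟨G.al_mem f hfd.1, ?_, hWnX _ hfd.2.1⟩
      by_contra hx
      exact hfd.2.2 (hmW _ (G.pi_mem _ (G.al_mem f hfd.1)) hx)
    refine ⟨G.al f, hal, ?_⟩
    intro d hd
    have h4 := halbd d hd
    have h5 : G.al d ∈ G.bd W := by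
      rw [G.mem_bd, h4.2.2.2.2]
      exact ⟨h4.1, h4.2.1, fun h => hWnX _ h h4.2.2.1⟩
    have h6 : d ∈ M2 ↔ G.al d ∈ M2 := by
      constructor
      · intro h
        exact hM2.pm.closed d h
      · intro h
        have := hM2.pm.closed _ h
        rwa [gl_al, h4.2.2.2.2] at this
    rw [h6, hfu _ h5]
    constructor
    · intro h
      rw [← h, h4.2.2.2.2]
    · intro h
      rw [h, G.al_al f hfd.1]
  -- the edges which are cut
  obtain ⟨A, hA⟩ : ∃ A : Finset D, A = ((G.bd X).erase e) ∪ ((G.bd X).erase e).image G.al :=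
    ⟨_, rfl⟩
  have hAm : ∀ d, d ∈ A ↔ (d ∈ G.bd X ∧ d ≠ e) ∨ (d ∈ G.ds ∧ G.al d ∈ G.bd X ∧ G.al d ≠ e) := by
    intro d
    rw [hA, mem_union, mem_erase, mem_image]
    constructor
    · rintro (h | ⟨a, ha, rfl⟩)
      · exact Or.inl ⟨h.2, h.1⟩
      · rw [mem_erase] at ha
        have h4 := halbd a ha.2
        right
        rw [h4.2.2.2.2]
        exact ⟨h4.1, ha.2, ha.1⟩
    · rintro (h | h)
      · exact Or.inl ⟨h.2, h.1⟩
      · right
        exact ⟨G.al d, mem_erase.2 ⟨h.2.2, h.2.1⟩, G.al_al d h.1⟩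
  have hbpos : 1 ≤ (G.bd X).card := card_pos.2 ⟨e, he⟩
  have hAc : A.card + 2 * (G.tk X).card ≤ 4 := by
    rw [hA]
    have h4 := card_union_le ((G.bd X).erase e) (((G.bd X).erase e).image G.al)
    have h5 := card_image_le (s := (G.bd X).erase e) (f := G.al)
    have h6 := card_erase_of_mem he
    omega
  have hAal : ∀ d ∈ A, h1.con.al d ∈ A := by
    intro d hd
    rw [gl_al]
    rcases (hAm d).1 hd with h | h
    · have h4 := halbd d h.1
      apply (hAm _).2
      right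
      rw [h4.2.2.2.2]
      exact ⟨h4.1, h.1, h.2⟩
    · exact (hAm _).2 (Or.inl ⟨h.2.1, h.2.2⟩)
  have hAds : A ⊆ h1.con.ds := by
    intro d hd
    rw [gl_mem_ds]
    left
    rcases (hAm d).1 hd with h | h
    · have h4 := halbd d h.1
      exact ⟨h4.2.2.2.1, Or.inl h4.2.2.1⟩
    · have h4 := halbd _ h.2.1
      exact ⟨h.1, Or.inr h4.2.2.1⟩
  have hAn : ∀ d ∈ A, h1.con.al d ≠ d := by
    intro d hd hal
    rw [gl_al] at hal
    rcases (hAm d).1 hd with h | h
    · have h4 := (G.mem_bd).1 h.1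
      rw [hal] at h4
      exact h4.2.2 h4.2.1
    · have h4 := (G.mem_bd).1 h.2.1
      rw [G.al_al d h.1] at h4
      rw [hal] at h4
      exact h4.2.2 h4.2.1
  -- the instance `G1`
  have hI1 : (h1.con.cutS A hAal).Inst (insert z (K ∩ X) ∪ A.image h1.con.pi)
      ((F.filter fun d => d ∈ h1.con.ds) \ A) := by
    refine ⟨?_, ?_, ?_, ?_, ?_⟩
    · show Even h1.con.vs.card
      rw [h1.vs_card]
      exact ho.add_one
    · show ((h1.con.cutS A hAal).tk h1.con.vs).card ≤ 4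
      rw [cutS_tk_card hAal hAds hAn, h1.tk_vs, hTc]
      omega
    · exact cutS_b0 hAal (h1.b0_eq hI.b0 ho hTc)
    · exact cutS_cls hAal hAds (h1.cls hcls)
    · intro Z hZ hoZ
      rw [cutS_adm hAal hAds (h1.cls hcls), h1.adm hcls] at hZ
      obtain ⟨⟨hZX, hZa⟩, hZA⟩ := hZ
      rw [cutS_bd hAal, h1.bd_sub hZX]
      have : G.bd Z \ A = G.bd Z := by
        rw [Finset.sdiff_eq_self_iff_disjoint, disjoint_left]
        intro d hd hdA
        apply hZA d hdA
        have h4 := ((G.mem_bd).1 hd).2.1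
        rw [gl_pi_in h1 (hZX h4)]
        exact h4
      rw [this]
      exact hI.cc Z hZa hoZ
  obtain ⟨M1, hM1⟩ := ih (h1.con.cutS A hAal) _ _
    (by show h1.con.vs.card < _; rw [h1.vs_card]; omega) hI1
  obtain ⟨hpm1, hav⟩ := (cutS_pm hAal).1 hM1.pm
  have heu1 : ∀ d ∈ G.bd X, (d ∈ M1 ↔ d = e) := by
    obtain ⟨f, hf, hfu⟩ := gl_edge h1 hpm1
    have hfe : f = e := by
      by_contra hne
      exact hav f ((hAm _).2 (Or.inl ⟨hf, hne⟩)) ((hfu f hf).2 rfl)
    rw [hfe] at hfu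
    exact hfu
  subst hWdef
  have hag : ∀ d ∈ G.bd X, (d ∈ M1 ↔ d ∈ M2) := by
    intro d hd
    rw [heu1 d hd, heu d hd]
  obtain ⟨hpm, hin, hout⟩ := glue_pm h1 h2 hpm1 hM2.pm hag
  have hMX : ∀ d ∈ G.bd X, (d ∈ M1 ∪ M2 ↔ d = e) := by
    intro d hd
    have h4 := halbd d hd
    rw [hin d h4.2.2.2.1 (Or.inl h4.2.2.1)]
    exact heu1 d hd
  refine ⟨M1 ∪ M2, hpm, ?_⟩
  intro Z hZ hoZ
  by_contra hcon
  have hZM : ∀ d ∈ G.bd Z, d ∈ M1 ∪ M2 := by
    intro d hd
    by_contra hne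
    exact hcon ⟨d, hd, hne⟩
  -- closure of `Z` under `F`, both directions
  have hZc : ∀ d ∈ F, (G.pi d ∈ Z ↔ G.pi (G.al d) ∈ Z) := by
    intro d hd
    constructor
    · exact hZ.clo d hd
    · intro h
      have := hZ.clo _ (hcls.Fal d hd) h
      rwa [G.al_al d (hcls.Fsub hd)] at this
  have htkZ : ∀ Y ⊆ Z, G.tk Y = ∅ := by
    intro Y hY
    rw [eq_empty_iff_forall_notMem]
    intro d hd
    rw [G.mem_tk] at hd
    exact hZ.dis _ (hY hd.2.1) (hcls.tokK d hd.1 hd.2.2)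
  -- both ends of a cut edge other than `e` are in `Z` or none
  have hboth : ∀ d ∈ G.bd X, d ≠ e → (G.pi d ∈ Z ↔ G.pi (G.al d) ∈ Z) := by
    intro d hd hde
    have h4 := halbd d hd
    have hdM : d ∉ M1 ∪ M2 := fun h => hde ((hMX d hd).1 h)
    constructor
    · intro h
      by_contra hx
      exact hdM (hZM d ((G.mem_bd).2 ⟨h4.2.2.2.1, h, hx⟩))
    · intro h
      by_contra hx
      have h5 : G.al d ∈ G.bd Z := by
        rw [G.mem_bd, h4.2.2.2.2]
        exact ⟨h4.1, h, hx⟩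
      have h6 := hpm.closed _ (hZM _ h5)
      rw [h4.2.2.2.2] at h6
      exact hdM h6
  -- no cut edge other than `e` has an end in `Z`
  have hno : ∀ d ∈ G.bd X, d ≠ e → G.pi d ∉ Z := by
    intro d0 hd0 hde0 hdZ0
    have hev := hpm.even_compl (inter_subset_right.trans hX : Z ∩ X ⊆ G.vs)
      (htkZ (Z ∩ X) inter_subset_left)
    have hsub : ((G.bd (Z ∩ X)).filter fun d => d ∉ M1 ∪ M2) ⊆ (G.bd X).erase e := by
      intro d hd
      rw [mem_filter, G.mem_bd, mem_inter, mem_inter] at hd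
      obtain ⟨⟨hds, ⟨h4, h5⟩, h6⟩, h7⟩ := hd
      have h8 : G.pi (G.al d) ∈ Z := by
        by_contra hx
        exact h7 (hZM d ((G.mem_bd).2 ⟨hds, h4, hx⟩))
      have h9 : d ∈ G.bd X := (G.mem_bd).2 ⟨hds, h5, fun hx => h6 ⟨h8, hx⟩⟩
      rw [mem_erase]
      exact ⟨fun h => h7 ((hMX d h9).2 h), h9⟩
    have hmem0 : d0 ∈ (G.bd (Z ∩ X)).filter fun d => d ∉ M1 ∪ M2 := by
      have h4 := (G.mem_bd).1 hd0
      rw [mem_filter, G.mem_bd, mem_inter, mem_inter]
      exact ⟨⟨h4.1, ⟨hdZ0, h4.2.1⟩, fun h => h4.2.2 h.2⟩, fun h => hde0 ((hMX d0 hd0).1 h)⟩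
    have hcge : 2 ≤ ((G.bd (Z ∩ X)).filter fun d => d ∉ M1 ∪ M2).card := by
      have hpos : 0 < ((G.bd (Z ∩ X)).filter fun d => d ∉ M1 ∪ M2).card :=
        card_pos.2 ⟨d0, hmem0⟩
      obtain ⟨k, hk⟩ := hev
      omega
    have hcle := card_le_card hsub
    have h6 := card_erase_of_mem he
    have htk0 : G.tk X = ∅ := by
      rw [← card_eq_zero]
      omega
    obtain ⟨a, ha, b, hb, hab⟩ := one_lt_card.1 (show 1 <
      ((G.bd (Z ∩ X)).filter fun d => d ∉ M1 ∪ M2).card by omega)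
    have ha' := mem_erase.1 (hsub ha)
    have hb' := mem_erase.1 (hsub hb)
    rw [mem_filter, G.mem_bd, mem_inter] at ha hb
    have haZ := ha.1.2.1.1
    have hbZ := hb.1.2.1.1
    have haZ' := (hboth a ha'.2 ha'.1).1 haZ
    have hbZ' := (hboth b hb'.2 hb'.1).1 hbZ
    rcases hmis htk0 a ha'.2 b hb'.2 hab with h | h | h | h
    · exact h Z hZ haZ
    · exact h Z hZ haZ'
    · exact h Z hZ hbZ
    · exact h Z hZ hbZ'
  -- circuits do not cross
  have heF : ¬ (e ∈ F ∧ G.pi e ∈ Z) := by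
    rintro ⟨h4, h5⟩
    have h7 := (G.mem_bd).1 he
    have hev := hcls.even_cross (inter_subset_right.trans hX : Z ∩ X ⊆ G.vs)
      (fun v hv => hZ.dis v (mem_inter.1 hv).1)
    have heq : (F.filter fun d => G.pi d ∈ Z ∩ X ∧ G.pi (G.al d) ∉ Z ∩ X) = {e} := by
      ext d
      rw [mem_filter, mem_singleton, mem_inter, mem_inter]
      constructor
      · rintro ⟨hdF, ⟨h8, h9⟩, h10⟩
        have h11 : G.pi (G.al d) ∈ Z := (hZc d hdF).1 h8
        have h12 : d ∈ G.bd X := (G.mem_bd).2 ⟨hcls.Fsub hdF, h9, fun hx => h10 ⟨h11, hx⟩⟩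
        by_contra hne
        exact hno d h12 hne h8
      · intro h
        rw [h]
        exact ⟨h4, ⟨h5, h7.2.1⟩, fun hx => h7.2.2 hx.2⟩
    rw [heq, card_singleton] at hev
    exact absurd hev (by decide)
  have ha1 : G.Adm K F (Z ∩ X) := by
    refine ⟨inter_subset_right.trans hX, fun v hv => hZ.dis v (mem_inter.1 hv).1, ?_⟩
    intro d hd hdZ
    rw [mem_inter] at hdZ
    have h5 := (hZc d hd).1 hdZ.1
    rw [mem_inter]
    refine ⟨h5, ?_⟩
    by_contra hx
    have h6 : d ∈ G.bd X := (G.mem_bd).2 ⟨hcls.Fsub hd, hdZ.2, hx⟩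
    by_cases hde : d = e
    · exact heF ⟨hde ▸ hd, hde ▸ hdZ.1⟩
    · exact hno d h6 hde hdZ.1
  have ha2 : G.Adm K F (Z \ X) := by
    refine ⟨sdiff_subset.trans hZ.sub, fun v hv => hZ.dis v (mem_sdiff.1 hv).1, ?_⟩
    intro d hd hdZ
    rw [mem_sdiff] at hdZ
    have h5 := (hZc d hd).1 hdZ.1
    rw [mem_sdiff]
    refine ⟨h5, ?_⟩
    intro hx
    have hds := hcls.Fsub hd
    have h6 : G.al d ∈ G.bd X := by
      rw [G.mem_bd, G.al_al d hds]
      exact ⟨G.al_mem d hds, hx, hdZ.2⟩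
    by_cases hde : G.al d = e
    · exact heF ⟨hde ▸ hcls.Fal d hd, hde ▸ h5⟩
    · exact hno _ h6 hde h5
  have hsplit : (Z ∩ X).card + (Z \ X).card = Z.card := card_inter_add_card_sdiff Z X
  by_cases hpar : Odd (Z ∩ X).card
  · -- `Z ∩ X` is odd: contradiction with `M1`
    have hadm : (h1.con.cutS A hAal).Adm (insert z (K ∩ X) ∪ A.image h1.con.pi)
      ((F.filter fun d => d ∈ h1.con.ds) \ A) (Z ∩ X) := by
      rw [cutS_adm hAal hAds (h1.cls hcls), h1.adm hcls]
      refine ⟨⟨inter_subset_right, ha1⟩, ?_⟩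
      intro d hd hdY
      rcases (hAm d).1 hd with h | h
      · have h4 := (G.mem_bd).1 h.1
        rw [gl_pi_in h1 h4.2.1] at hdY
        exact hno d h.1 h.2 (mem_inter.1 hdY).1
      · have h4 := (G.mem_bd).1 h.2.1
        rw [G.al_al d h.1] at h4
        rw [gl_pi_out h1 h4.2.2] at hdY
        exact h1.zX (mem_inter.1 hdY).2
    obtain ⟨d, hd, hdM⟩ := hM1.hit (Z ∩ X) hadm hpar
    rw [cutS_bd hAal, h1.bd_sub inter_subset_right] at hd
    have hd' := (mem_sdiff.1 hd).1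
    have h4 := (G.mem_bd).1 hd'
    rw [mem_inter, mem_inter] at h4
    by_cases hz4 : G.pi (G.al d) ∈ Z
    · have h5 : d ∈ G.bd X := (G.mem_bd).2 ⟨h4.1, h4.2.1.2, fun hx => h4.2.2 ⟨hz4, hx⟩⟩
      by_cases hde : d = e
      · exact hdM ((heu1 d h5).2 hde)
      · exact hno d h5 hde h4.2.1.1
    · have h5 := hZM d ((G.mem_bd).2 ⟨h4.1, h4.2.1.1, hz4⟩)
      exact hdM ((hin d h4.1 (Or.inl h4.2.1.2)).1 h5)
  · -- `Z \ X` is odd: contradiction with `M2`
    have ho2 : Odd (Z \ X).card := by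
      rw [← hsplit] at hoZ
      rw [Nat.not_odd_iff_even] at hpar
      by_contra hne
      rw [Nat.not_odd_iff_even] at hne
      exact (Nat.not_even_iff_odd.2 hoZ) (hpar.add hne)
    have hsub : Z \ X ⊆ G.vs \ X := sdiff_subset_sdiff hZ.sub (Subset.refl _)
    obtain ⟨d, hd, hdM⟩ := hM2.hit (Z \ X) ((h2.adm hcls).2 ⟨hsub, ha2⟩) ho2
    rw [h2.bd_sub hsub] at hd
    have h4 := (G.mem_bd).1 hd
    rw [mem_sdiff, mem_sdiff] at h4
    by_cases hz4 : G.pi (G.al d) ∈ Z
    · have hx : G.pi (G.al d) ∈ X := by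
        by_contra hx
        exact h4.2.2 ⟨hz4, hx⟩
      have h5 : G.al d ∈ G.bd X := by
        rw [G.mem_bd, G.al_al d h4.1]
        exact ⟨G.al_mem d h4.1, hx, h4.2.1.2⟩
      by_cases hde : G.al d = e
      · have h6 := hM2.pm.closed _ ((heu _ h5).2 hde)
        rw [gl_al, G.al_al d h4.1] at h6
        exact hdM h6
      · exact hno _ h5 hde hz4
    · have h5 := hZM d ((G.mem_bd).2 ⟨h4.1, h4.2.1.1, hz4⟩)
      exact hdM ((hout d h4.1 (Or.inl h4.2.1.2)).1 h5)

end JK.CG
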