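import Pool.Agent.Lib.JK.StepRed
import Pool.Agent.Lib.JK.Glue
import Pool.Agent.Lib.JK.DelV

/-! A token vertex with an absorbed neighbour: always reducible. -/

set_option autoImplicit false

namespace JK.CG

open Finset Classical

variable {V D : Type*} {G : CG V D} {K : Finset V} {F : Finset D} {σ u1 u2 v1 v2 v3 : D}

/-- the data of a step with the roles of `v2`, `v3` exchanged -/
lemma SD.swap (h : G.SD σ u1 u2 v1 v2 v3) (h' : G.al v3 ≠ v2) : G.SD σ u1 u2 v1 v3 v2 where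
  mσ := h.mσ
  mu1 := h.mu1
  mu2 := h.mu2
  mv1 := h.mv1
  mv2 := h.mv3
  mv3 := h.mv2
  tσ := h.tσ
  pu1 := h.pu1
  pu2 := h.pu2
  pv2 := h.pv3
  pv3 := h.pv2
  hsv := h.hsv
  n1 := h.n1
  n2 := h.n2
  n3 := h.n3
  n4 := h.n5
  n5 := h.n4
  n6 := h.n6.symm
  e1 := h.e1
  a2 := h.a2
  b2 := h.b3
  b3 := h.b2
  c2 := h.c3
  c3 := h.c2
  d2 := h'

/-- a vertex of `K` is absorbed -/
private lemma abs_of_memK {v : V} (hv : v ∈ K) : G.Abs K F v :=
  fun _ hZ hvZ => hZ.dis v hvZ hv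

private lemma abs_of_tok (hc : G.Cls K F) {d : D} (hd : d ∈ G.ds) (ht : G.al d = d) :
    G.Abs K F (G.pi d) := abs_of_memK (hc.tokK d hd ht)

private lemma adm_inter {Z Z' : Finset V} (h : G.Adm K F Z) (h' : G.Adm K F Z') :
    G.Adm K F (Z ∩ Z') where
  sub := fun _ hx => h.sub (mem_inter.1 hx).1
  dis := fun v hv => h.dis v (mem_inter.1 hv).1
  clo := fun d hd hp => mem_inter.2 ⟨h.clo d hd (mem_inter.1 hp).1, h'.clo d hd (mem_inter.1 hp).2⟩

private lemma adm_union {Z Z' : Finset V} (h : G.Adm K F Z) (h' : G.Adm K F Z') :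
    G.Adm K F (Z ∪ Z') where
  sub := union_subset h.sub h'.sub
  dis := fun v hv => (mem_union.1 hv).elim (h.dis v) (h'.dis v)
  clo := fun d hd hp => mem_union.2 ((mem_union.1 hp).imp (h.clo d hd) (h'.clo d hd))

private lemma adm_sdiff (hc : G.Cls K F) {Z Z' : Finset V} (h : G.Adm K F Z)
    (h' : G.Adm K F Z') : G.Adm K F (Z \ Z') where
  sub := fun _ hx => h.sub (mem_sdiff.1 hx).1
  dis := fun v hv => h.dis v (mem_sdiff.1 hv).1
  clo := by
    intro d hd hp
    rw [mem_sdiff] at hp ⊢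
    refine ⟨h.clo d hd hp.1, fun hq => hp.2 ?_⟩
    have := h'.clo (G.al d) (hc.Fal d hd) hq
    rwa [G.al_al d (hc.Fsub hd)] at this

/-- a union of fresh circuits has no tokens -/
private lemma adm_tk (hc : G.Cls K F) {Z : Finset V} (h : G.Adm K F Z) : G.tk Z = ∅ := by
  rw [Finset.eq_empty_iff_forall_notMem]
  intro d hd
  rw [G.mem_tk] at hd
  exact h.dis _ hd.2.1 (hc.tokK d hd.1 hd.2.2)

private lemma adm_bd_odd (hc : G.Cls K F) {Z : Finset V} (h : G.Adm K F Z) (ho : Odd Z.card) :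
    Odd (G.bd Z).card := by
  have := (G.dg_parity h.sub).2 ho
  unfold dg at this
  rwa [adm_tk hc h, card_empty, add_zero] at this

/-- the two ends `s`, `v` of the edge of the step, and their tokens -/
private lemma SD.tk_sv (h : G.SD σ u1 u2 v1 v2 v3) : G.tk {G.pi σ, G.pi v1} = {σ} := by
  have hal1 : G.al v1 = u1 := by rw [← h.e1]; exact G.al_al _ h.mu1
  ext d
  rw [G.mem_tk, mem_singleton]
  constructor
  · rintro ⟨hd, hp, ht⟩
    rw [mem_insert, mem_singleton] at hp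
    rcases hp with hp | hp
    · rcases (h.darts hd).1.1 hp with r | r | r
      · exact r
      · exfalso
        rw [r, h.e1] at ht
        exact h.hsv (by rw [ht, h.pu1])
      · exfalso
        rw [r] at ht
        exact h.a2 ht
    · exfalso
      rcases (h.darts hd).2.1 hp with r | r | r
      · rw [r, hal1] at ht
        exact h.hsv (by rw [← ht, h.pu1])
      · rw [r] at ht
        exact h.b2 ht
      · rw [r] at ht
        exact h.b3 ht
  · rintro rfl
    exact ⟨h.mσ, mem_insert_self _ _, h.tσ⟩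

/-- the third neighbour of `v` is not `s`, `v` -/
private lemma SD.c_out (h : G.SD σ u1 u2 v1 v2 v3) :
    G.pi (G.al v3) ∈ G.vs \ {G.pi σ, G.pi v1} :=
  h.step.pi_mem _ h.outer.2.2.1

private lemma SD.d_out (h : G.SD σ u1 u2 v1 v2 v3) :
    G.pi (G.al v2) ∈ G.vs \ {G.pi σ, G.pi v1} :=
  h.step.pi_mem _ h.outer.2.1

private lemma SD.b_out (h : G.SD σ u1 u2 v1 v2 v3) :
    G.pi (G.al u2) ∈ G.vs \ {G.pi σ, G.pi v1} :=
  h.step.pi_mem _ h.outer.1

/-- if the step is blocked by bridges then the instance is reducible by gluing or deletion.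

Proof. `SD.blocked`: `X` with `b, d ∈ X`, `c ∉ X`, `dg (X ∪ {s,v}) = 3`, this set contains the token
`σ`. Apply `glue` to `X ∪ {s, v}` (at least 3 vertices). If its complement has less than 3 vertices
it is `{c}` (odd, contains `c`); `c` has as many tokens as `X ∪ {s,v}`, hence two (four in total,
`dg {c} = 3`), and `c v` is its only edge; `del_red` for the edge `cv` (both ends absorbed). -/
theorem blocked_red (hI : G.Inst K F) (h4 : (G.tk G.vs).card = 4) (ih : IH G.vs.card V D)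
    (h : G.SD σ u1 u2 v1 v2 v3) (av : G.Abs K F (G.pi v1)) (hb : ¬ h.step.B0) :
    ∃ M, G.Good K F M := by
  unfold B0 at hb
  push Not at hb
  obtain ⟨X, hX, ho, hlt⟩ := hb
  obtain ⟨hX3, hbX, hdX, hcX, hW3⟩ := h.blocked hI.b0 hX ho hlt
  have hXs : X ⊆ G.vs \ {G.pi σ, G.pi v1} := hX
  have hdis : Disjoint X {G.pi σ, G.pi v1} := by
    rw [disjoint_left]
    intro a ha
    exact (mem_sdiff.1 (hXs ha)).2
  have hsv : ({G.pi σ, G.pi v1} : Finset V) ⊆ G.vs := by
    intro a ha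
    rw [mem_insert, mem_singleton] at ha
    rcases ha with r | r
    · rw [r]; exact G.pi_mem _ h.mσ
    · rw [r]; exact G.pi_mem _ h.mv1
  have hWs : X ∪ {G.pi σ, G.pi v1} ⊆ G.vs :=
    union_subset (fun a ha => (mem_sdiff.1 (hXs ha)).1) hsv
  have hWc : (X ∪ {G.pi σ, G.pi v1}).card = X.card + 2 := by
    rw [card_union_of_disjoint hdis, card_pair h.hsv]
  have hX1 : 1 ≤ X.card := ho.pos
  have hWo : Odd (X ∪ {G.pi σ, G.pi v1}).card := by
    rw [hWc]; exact ho.add_even even_two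
  have hσ : σ ∈ G.tk (X ∪ {G.pi σ, G.pi v1}) := by
    rw [G.mem_tk]
    exact ⟨h.mσ, mem_union_right _ (mem_insert_self _ _), h.tσ⟩
  have hcc := card_sdiff_add_card_eq_card hWs
  have hco : Odd (G.vs \ (X ∪ {G.pi σ, G.pi v1})).card := by
    have he := hI.even
    rw [← hcc] at he
    by_contra hn
    rw [Nat.not_odd_iff_even] at hn
    exact (Nat.not_even_iff_odd.2 (hn.add_odd hWo)) he
  by_cases h3 : 3 ≤ (G.vs \ (X ∪ {G.pi σ, G.pi v1})).card
  · refine glue hI ih hWs hWo hW3 (by omega) h3 ?_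
    intro ht
    rw [ht] at hσ
    exact absurd hσ (notMem_empty _)
  · have h1 : (G.vs \ (X ∪ {G.pi σ, G.pi v1})).card = 1 := by
      rcases hco with ⟨k, hk⟩
      omega
    have hco' := mem_sdiff.1 h.c_out
    have hcm : G.pi (G.al v3) ∈ G.vs \ (X ∪ {G.pi σ, G.pi v1}) := by
      rw [mem_sdiff, mem_union, not_or]
      exact ⟨hco'.1, hcX, hco'.2⟩
    have hceq : G.vs \ (X ∪ {G.pi σ, G.pi v1}) = {G.pi (G.al v3)} := by
      rw [card_eq_one] at h1
      obtain ⟨a, ha⟩ := h1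
      rw [ha, mem_singleton] at hcm
      rw [ha, hcm]
    have hbdc := G.bd_compl hWs
    have htkc := G.tk_compl hWs
    rw [hceq] at hbdc htkc
    have hdc := hI.b0.dg_singleton hco'.1
    unfold dg at hdc hW3
    have htc2 : (G.tk {G.pi (G.al v3)}).card = 2 := by omega
    have hmal : G.al v3 ∈ G.ds := G.al_mem _ h.mv3
    have halal : G.al (G.al v3) = v3 := G.al_al _ h.mv3
    have hpv3 : G.pi v3 ∈ G.vs := G.pi_mem _ h.mv3
    have hne : G.pi v3 ≠ G.pi (G.al v3) := by
      intro hh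
      apply hco'.2
      rw [← hh, h.pv3]
      exact mem_insert_of_mem (mem_singleton_self _)
    have htok : ∃ τ, τ ∈ G.tk {G.pi (G.al v3)} := by
      rw [← Finset.Nonempty, ← Finset.card_pos, htc2]; norm_num
    obtain ⟨τ, hτ⟩ := htok
    rw [G.mem_tk, mem_singleton] at hτ
    have ac : G.Abs K F (G.pi (G.al v3)) := by
      rw [← hτ.2.1]
      exact abs_of_tok hI.cls hτ.1 hτ.2.2
    have hdisj : Disjoint ({G.pi v3} : Finset V) {G.pi (G.al v3)} :=
      disjoint_singleton.2 hne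
    have hun := G.dg_union hdisj
    rw [hI.b0.dg_singleton hpv3, hI.b0.dg_singleton hco'.1] at hun
    have hed : 1 ≤ (G.ed {G.pi v3} {G.pi (G.al v3)}).card := by
      rw [Nat.succ_le_iff, card_pos]
      refine ⟨v3, ?_⟩
      rw [G.mem_ed]
      exact ⟨h.mv3, mem_singleton_self _, mem_singleton_self _⟩
    have heq : ({G.pi v3} : Finset V) ∪ {G.pi (G.al v3)} = {G.pi v3, G.pi (G.al v3)} := rfl
    rw [heq] at hun
    have htk2 : (G.tk {G.pi (G.al v3)}).card ≤ (G.tk {G.pi v3, G.pi (G.al v3)}).card := by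
      apply card_le_card
      intro d hd
      rw [G.mem_tk] at hd ⊢
      exact ⟨hd.1, mem_insert_of_mem hd.2.1, hd.2.2⟩
    unfold dg at hun
    refine del_red G hI ih h.mv3 h.b3 (by rw [h.pv3]; exact av) ac ?_
    omega

/-- a blocking 5-cut for one of the two steps -/
private lemma exists_five (hI : G.Inst K F) (ih : IH G.vs.card V D)
    (h : G.SD σ u1 u2 v1 v2 v3) (av : G.Abs K F (G.pi v1)) (hb : h.step.B0)
    (hn : ¬ ∃ M, G.Good K F M) :
    ∃ Z, G.Adm K F Z ∧ Odd Z.card ∧ G.pi (G.al u2) ∈ Z ∧ G.pi (G.al v2) ∈ Z ∧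
      G.pi (G.al v3) ∉ Z ∧ (G.bd Z).card = 5 := by
  by_contra hcon
  apply hn
  refine step_red hI ih h av hb ?_
  intro Z hZ hZo h1 h2 h3
  by_contra hlt
  apply hcon
  refine ⟨Z, hZ, hZo, h1, h2, h3, ?_⟩
  have h5 := hI.cc Z hZ hZo
  obtain ⟨k, hk⟩ := adm_bd_odd hI.cls hZ hZo
  omega

/-- **Beta.** `s` has exactly one token and an absorbed neighbour `v` without tokens.

Proof. By `blocked_red` (for both orders of `v2`, `v3`) both steps are bridgeless. By `step_red` there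
are 5-cuts `Z ∋ b, d`, `∌ c` and `Z' ∋ b, c`, `∌ d` (odd unions of fresh circuits). The edge `sb` goes
from `Z ∩ Z'` to the outside, so `Z ∩ Z'` is odd (second uncrossing: 5 + 5 ≤ 10 - 2 otherwise), and
`bd (Z ∪ Z')` has 5 edges (first uncrossing, both `Z ∩ Z'` and `Z ∪ Z'` are odd unions of fresh
circuits); it contains `sb, vc, vd`; so `W = Z ∪ Z' ∪ {s, v}` has `dg W = 3`, contains the token `σ`;
its complement is odd and has 3 tokens and 2 edges, so at least 3 vertices: `glue`. -/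
theorem beta (hI : G.Inst K F) (h4 : (G.tk G.vs).card = 4) (ih : IH G.vs.card V D)
    (h : G.SD σ u1 u2 v1 v2 v3) (av : G.Abs K F (G.pi v1)) :
    ∃ M, G.Good K F M := by
  have hd2' : G.al v3 ≠ v2 := by
    intro hh
    apply h.d2
    rw [← hh]
    exact G.al_al _ h.mv3
  have h' := h.swap hd2'
  by_cases hb : h.step.B0
  swap
  · exact blocked_red hI h4 ih h av hb
  by_cases hb' : h'.step.B0
  swap
  · exact blocked_red hI h4 ih h' av hb'
  by_contra hn
  obtain ⟨Z, hZ, hZo, hbZ, hdZ, hcZ, hZ5⟩ := exists_five hI ih h av hb hn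
  obtain ⟨Y, hY, hYo, hbY, hcY, hdY, hY5⟩ := exists_five hI ih h' av hb' hn
  apply hn
  have hcls := hI.cls
  -- s and v are outside
  have as : G.Abs K F (G.pi σ) := abs_of_tok hcls h.mσ h.tσ
  have hUadm := adm_union hZ hY
  have hIadm := adm_inter hZ hY
  have hsU : G.pi σ ∉ Z ∪ Y := as _ hUadm
  have hvU : G.pi v1 ∉ Z ∪ Y := av _ hUadm
  have hu2 : G.al (G.al u2) = u2 := G.al_al _ h.mu2
  have hv2 : G.al (G.al v2) = v2 := G.al_al _ h.mv2
  have hv3 : G.al (G.al v3) = v3 := G.al_al _ h.mv3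
  -- the intersection is odd
  have hcardI := card_union_add_card_inter Z Y
  have hIo : Odd (Z ∩ Y).card := by
    by_contra hev
    rw [Nat.not_odd_iff_even] at hev
    have hs1 := card_sdiff_add_card_inter Z Y
    have hs2 := card_sdiff_add_card_inter Y Z
    rw [inter_comm Y Z] at hs2
    have o1 : Odd (Z \ Y).card := by
      rcases Nat.even_or_odd (Z \ Y).card with e | o
      · exfalso
        rw [← hs1] at hZo
        exact (Nat.not_even_iff_odd.2 hZo) (e.add hev)
      · exact o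
    have o2 : Odd (Y \ Z).card := by
      rcases Nat.even_or_odd (Y \ Z).card with e | o
      · exfalso
        rw [← hs2] at hYo
        exact (Nat.not_even_iff_odd.2 hYo) (e.add hev)
      · exact o
    have c1 := hI.cc _ (adm_sdiff hcls hZ hY) o1
    have c2 := hI.cc _ (adm_sdiff hcls hY hZ) o2
    have hp := G.bd_posimod hZ.sub hY.sub
    have he : 1 ≤ (G.ed (Z ∩ Y) (G.vs \ (Z ∪ Y))).card := by
      rw [Nat.succ_le_iff, card_pos]
      refine ⟨G.al u2, ?_⟩
      rw [G.mem_ed, hu2]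
      refine ⟨G.al_mem _ h.mu2, mem_inter.2 ⟨hbZ, hbY⟩, ?_⟩
      rw [h.pu2]
      exact mem_sdiff.2 ⟨G.pi_mem _ h.mσ, hsU⟩
    omega
  have hUo : Odd (Z ∪ Y).card := by
    rcases Nat.even_or_odd (Z ∪ Y).card with e | o
    · exfalso
      have : Odd ((Z ∪ Y).card + (Z ∩ Y).card) := e.add_odd hIo
      rw [hcardI] at this
      exact (Nat.not_even_iff_odd.2 this) (hZo.add_odd hYo)
    · exact o
  have c1 := hI.cc _ hIadm hIo
  have c2 := hI.cc _ hUadm hUo
  have hsub := G.bd_submod Z Y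
  have hU5 : (G.bd (Z ∪ Y)).card = 5 := by omega
  -- the set W
  have hdis : Disjoint (Z ∪ Y) ({G.pi σ, G.pi v1} : Finset V) := by
    rw [disjoint_right]
    intro a ha
    rw [mem_insert, mem_singleton] at ha
    rcases ha with r | r
    · rw [r]; exact hsU
    · rw [r]; exact hvU
  have hWs : (Z ∪ Y) ∪ {G.pi σ, G.pi v1} ⊆ G.vs := by
    apply union_subset hUadm.sub
    intro a ha
    rw [mem_insert, mem_singleton] at ha
    rcases ha with r | r
    · rw [r]; exact G.pi_mem _ h.mσ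
    · rw [r]; exact G.pi_mem _ h.mv1
  have hWc : ((Z ∪ Y) ∪ {G.pi σ, G.pi v1}).card = (Z ∪ Y).card + 2 := by
    rw [card_union_of_disjoint hdis, card_pair h.hsv]
  have hWo : Odd ((Z ∪ Y) ∪ {G.pi σ, G.pi v1}).card := by
    rw [hWc]; exact hUo.add_even even_two
  have hWtk : (G.tk ((Z ∪ Y) ∪ {G.pi σ, G.pi v1})).card = 1 := by
    have := G.tk_add (Z ∪ Y) {G.pi σ, G.pi v1}
    have h0 : G.tk (∅ : Finset V) = ∅ := by
      rw [Finset.eq_empty_iff_forall_notMem]
      intro d hd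
      rw [G.mem_tk] at hd
      exact absurd hd.2.1 (notMem_empty _)
    rw [disjoint_iff_inter_eq_empty.1 hdis, h0, adm_tk hcls hUadm, h.tk_sv, card_singleton,
      card_empty] at this
    omega
  have hWle : G.dg ((Z ∪ Y) ∪ {G.pi σ, G.pi v1}) ≤ 3 := by
    have e1 := G.dg_union hdis
    have hsvd : Disjoint ({G.pi σ} : Finset V) {G.pi v1} := disjoint_singleton.2 h.hsv
    have e2 := G.dg_union hsvd
    have heq : ({G.pi σ} : Finset V) ∪ {G.pi v1} = {G.pi σ, G.pi v1} := rfl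
    rw [heq, hI.b0.dg_singleton (G.pi_mem _ h.mσ), hI.b0.dg_singleton (G.pi_mem _ h.mv1)] at e2
    have f1 : 1 ≤ (G.ed {G.pi σ} {G.pi v1}).card := by
      rw [Nat.succ_le_iff, card_pos]
      refine ⟨u1, ?_⟩
      rw [G.mem_ed, h.e1, h.pu1]
      exact ⟨h.mu1, mem_singleton_self _, mem_singleton_self _⟩
    have f2 : 3 ≤ (G.ed (Z ∪ Y) {G.pi σ, G.pi v1}).card := by
      have hsub3 : ({G.al u2, G.al v2, G.al v3} : Finset D) ⊆
          G.ed (Z ∪ Y) {G.pi σ, G.pi v1} := by
        intro d hd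
        rw [mem_insert, mem_insert, mem_singleton] at hd
        rw [G.mem_ed, mem_insert, mem_singleton]
        rcases hd with r | r | r
        · rw [r, hu2]
          exact ⟨G.al_mem _ h.mu2, mem_union_left _ hbZ, Or.inl h.pu2⟩
        · rw [r, hv2]
          exact ⟨G.al_mem _ h.mv2, mem_union_left _ hdZ, Or.inr h.pv2⟩
        · rw [r, hv3]
          exact ⟨G.al_mem _ h.mv3, mem_union_right _ hcY, Or.inr h.pv3⟩
      have hc3 : ({G.al u2, G.al v2, G.al v3} : Finset D).card = 3 := by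
        obtain ⟨_, _, _, g1, g2, g3⟩ := h.outer
        rw [card_eq_three]
        exact ⟨_, _, _, g1, g2, g3, rfl⟩
      calc 3 = ({G.al u2, G.al v2, G.al v3} : Finset D).card := hc3.symm
        _ ≤ _ := card_le_card hsub3
    have hdU : G.dg (Z ∪ Y) = 5 := by
      unfold dg
      rw [hU5, adm_tk hcls hUadm, card_empty]
    omega
  have hW3 : G.dg ((Z ∪ Y) ∪ {G.pi σ, G.pi v1}) = 3 :=
    le_antisymm hWle (hI.b0 _ hWs hWo)
  have hσ : σ ∈ G.tk ((Z ∪ Y) ∪ {G.pi σ, G.pi v1}) := by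
    rw [G.mem_tk]
    exact ⟨h.mσ, mem_union_right _ (mem_insert_self _ _), h.tσ⟩
  have hcc := card_sdiff_add_card_eq_card hWs
  have hco : Odd (G.vs \ ((Z ∪ Y) ∪ {G.pi σ, G.pi v1})).card := by
    have he := hI.even
    rw [← hcc] at he
    by_contra hn'
    rw [Nat.not_odd_iff_even] at hn'
    exact (Nat.not_even_iff_odd.2 (hn'.add_odd hWo)) he
  have htkc := G.tk_compl hWs
  have hbdc := G.bd_compl hWs
  have h3 : 3 ≤ (G.vs \ ((Z ∪ Y) ∪ {G.pi σ, G.pi v1})).card := by
    by_contra hlt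
    have h1 : (G.vs \ ((Z ∪ Y) ∪ {G.pi σ, G.pi v1})).card = 1 := by
      rcases hco with ⟨k, hk⟩
      omega
    rw [card_eq_one] at h1
    obtain ⟨a, ha⟩ := h1
    have hav : a ∈ G.vs := by
      have : a ∈ G.vs \ ((Z ∪ Y) ∪ {G.pi σ, G.pi v1}) := by rw [ha]; exact mem_singleton_self _
      exact (mem_sdiff.1 this).1
    have hda := hI.b0.dg_singleton hav
    rw [ha] at htkc hbdc
    unfold dg at hda hW3
    omega
  refine glue hI ih hWs hWo hW3 (by have := hUo.pos; omega) h3 ?_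
  intro ht
  rw [ht] at hσ
  exact absurd hσ (notMem_empty _)

end JK.CG
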