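import Pool.Agent.Lib.JK.Cut

/-! Contraction of the complement of `X` to a vertex `z`. -/

set_option autoImplicit false

namespace JK.CG

open Finset Classical

variable {V D : Type*} (G : CG V D)

/-- data of a contraction: `X` is kept, the rest becomes the vertex `z` (a vertex outside `X`),
`T` is the set of tokens (from outside `X`) which are put at `z`, so that `z` has degree 3 -/
structure CD (X : Finset V) (z : V) (T : Finset D) : Prop where
  Xsub : X ⊆ G.vs
  zv : z ∈ G.vs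
  zX : z ∉ X
  Tsub : T ⊆ G.tk (G.vs \ X)
  card3 : (G.bd X).card + T.card = 3

variable {G} {X : Finset V} {z : V} {T : Finset D}

lemma CD.T_ds (h : G.CD X z T) {d : D} (hd : d ∈ T) : d ∈ G.ds :=
  ((G.mem_tk).1 (h.Tsub hd)).1

lemma CD.T_al (h : G.CD X z T) {d : D} (hd : d ∈ T) : G.al d = d :=
  ((G.mem_tk).1 (h.Tsub hd)).2.2

lemma CD.T_pi (h : G.CD X z T) {d : D} (hd : d ∈ T) : G.pi d ∉ X :=
  (Finset.mem_sdiff.1 ((G.mem_tk).1 (h.Tsub hd)).2.1).2

/-- the contracted graph -/
noncomputable def CD.con (h : G.CD X z T) : CG V D where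
  vs := insert z X
  ds := (G.ds.filter fun d => G.pi d ∈ X ∨ G.pi (G.al d) ∈ X) ∪ T
  pi := fun d => if G.pi d ∈ X then G.pi d else z
  al := G.al
  pi_mem := by
    intro d _
    by_cases h1 : G.pi d ∈ X
    · simp only [if_pos h1]; exact Finset.mem_insert_of_mem h1
    · simp only [if_neg h1]; exact Finset.mem_insert_self _ _
  al_mem := by
    intro d hd
    rcases Finset.mem_union.1 hd with h1 | h1
    · rw [Finset.mem_filter] at h1
      refine Finset.mem_union_left _ (Finset.mem_filter.2 ⟨G.al_mem d h1.1, ?_⟩)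
      rw [G.al_al d h1.1]
      exact h1.2.symm
    · rw [h.T_al h1]; exact Finset.mem_union_right _ h1
  al_al := by
    intro d hd
    rcases Finset.mem_union.1 hd with h1 | h1
    · exact G.al_al d (Finset.mem_filter.1 h1).1
    · exact G.al_al d (h.T_ds h1)
  cubic := by
    intro v hv
    rcases Finset.mem_insert.1 hv with rfl | hv
    · have h1 : (((G.ds.filter fun d => G.pi d ∈ X ∨ G.pi (G.al d) ∈ X) ∪ T).filter
          fun d => (if G.pi d ∈ X then G.pi d else v) = v) = (G.bd X).image G.al ∪ T := by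
        ext d
        rw [Finset.mem_filter, Finset.mem_union, Finset.mem_union, Finset.mem_filter,
          Finset.mem_image]
        constructor
        · rintro ⟨h1 | h1, h2⟩
          · left
            have h3 : G.pi d ∉ X := by
              intro h3
              rw [if_pos h3] at h2
              exact h.zX (h2 ▸ h3)
            have h4 : G.pi (G.al d) ∈ X := h1.2.resolve_left h3
            refine ⟨G.al d, (G.mem_bd).2 ⟨G.al_mem d h1.1, h4, ?_⟩, G.al_al d h1.1⟩
            rw [G.al_al d h1.1]; exact h3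
          · exact Or.inr h1
        · rintro (⟨e, he, rfl⟩ | h1)
          · rw [G.mem_bd] at he
            refine ⟨Or.inl ⟨G.al_mem e he.1, Or.inr ?_⟩, ?_⟩
            · rw [G.al_al e he.1]; exact he.2.1
            · rw [if_neg he.2.2]
          · exact ⟨Or.inr h1, by rw [if_neg (h.T_pi h1)]⟩
      have h2 : Disjoint ((G.bd X).image G.al) T := by
        rw [Finset.disjoint_left]
        rintro d hd hT
        obtain ⟨e, he, rfl⟩ := Finset.mem_image.1 hd
        rw [G.mem_bd] at he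
        have h3 := h.T_al hT
        rw [G.al_al e he.1] at h3
        rw [← h3] at he
        exact he.2.2 he.2.1
      have h3 : ((G.bd X).image G.al).card = (G.bd X).card := by
        refine Finset.card_image_of_injOn ?_
        intro d hd e he h4
        have hd1 := ((G.mem_bd).1 (Finset.mem_coe.1 hd)).1
        have he1 := ((G.mem_bd).1 (Finset.mem_coe.1 he)).1
        rw [← G.al_al d hd1, ← G.al_al e he1]
        exact congrArg G.al h4
      rw [h1, Finset.card_union_of_disjoint h2, h3, h.card3]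
    · rw [← G.cubic v (h.Xsub hv)]
      congr 1
      ext d
      rw [Finset.mem_filter, Finset.mem_filter, Finset.mem_union, Finset.mem_filter]
      have hvz : z ≠ v := fun h1 => h.zX (h1 ▸ hv)
      constructor
      · rintro ⟨h1, h2⟩
        have h3 : G.pi d ∈ X := by
          by_contra h3
          rw [if_neg h3] at h2
          exact hvz h2
        rw [if_pos h3] at h2
        rcases h1 with h1 | h1
        · exact ⟨h1.1, h2⟩
        · exact absurd h3 (h.T_pi h1)
      · rintro ⟨h1, h2⟩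
        have h3 : G.pi d ∈ X := h2 ▸ hv
        exact ⟨Or.inl ⟨h1, Or.inl h3⟩, by rw [if_pos h3]; exact h2⟩

lemma CD.con_vs (h : G.CD X z T) : h.con.vs = insert z X := rfl

lemma CD.con_ds (h : G.CD X z T) :
    h.con.ds = (G.ds.filter fun d => G.pi d ∈ X ∨ G.pi (G.al d) ∈ X) ∪ T := rfl

lemma CD.con_al (h : G.CD X z T) (d : D) : h.con.al d = G.al d := rfl

lemma CD.con_pi (h : G.CD X z T) (d : D) : h.con.pi d = if G.pi d ∈ X then G.pi d else z := rfl

lemma CD.con_pi_mem (h : G.CD X z T) {d : D} (hd : G.pi d ∈ X) : h.con.pi d = G.pi d := by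
  rw [h.con_pi, if_pos hd]

lemma CD.con_pi_not (h : G.CD X z T) {d : D} (hd : G.pi d ∉ X) : h.con.pi d = z := by
  rw [h.con_pi, if_neg hd]

lemma CD.mem_con_ds (h : G.CD X z T) {d : D} :
    d ∈ h.con.ds ↔ (d ∈ G.ds ∧ (G.pi d ∈ X ∨ G.pi (G.al d) ∈ X)) ∨ d ∈ T := by
  rw [h.con_ds, Finset.mem_union, Finset.mem_filter]

lemma CD.con_ds_sub (h : G.CD X z T) {d : D} (hd : d ∈ h.con.ds) : d ∈ G.ds := by
  rcases h.mem_con_ds.1 hd with h1 | h1
  · exact h1.1
  · exact h.T_ds h1

/-- `pi'` in a set `Y ⊆ X` -/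
lemma CD.con_pi_mem_iff (h : G.CD X z T) {Y : Finset V} (hY : Y ⊆ X) {d : D} :
    h.con.pi d ∈ Y ↔ G.pi d ∈ Y := by
  by_cases h1 : G.pi d ∈ X
  · rw [h.con_pi_mem h1]
  · rw [h.con_pi_not h1]
    exact ⟨fun h2 => absurd (hY h2) h.zX, fun h2 => absurd (hY h2) h1⟩

/-- `pi'` in a set `insert z Y`, `Y ⊆ X` -/
lemma CD.con_pi_ins_iff (h : G.CD X z T) {Y : Finset V} {d : D} :
    h.con.pi d ∈ insert z Y ↔ (G.pi d ∈ Y ∧ G.pi d ∈ X) ∨ G.pi d ∉ X := by
  by_cases h1 : G.pi d ∈ X
  · rw [h.con_pi_mem h1, Finset.mem_insert]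
    have h2 : G.pi d ≠ z := fun h2 => h.zX (h2 ▸ h1)
    constructor
    · rintro (h3 | h3)
      · exact absurd h3 h2
      · exact Or.inl ⟨h3, h1⟩
    · rintro (h3 | h3)
      · exact Or.inr h3.1
      · exact absurd h1 h3
  · rw [h.con_pi_not h1]
    exact ⟨fun _ => Or.inr h1, fun _ => Finset.mem_insert_self _ _⟩

lemma CD.vs_card (h : G.CD X z T) : h.con.vs.card = X.card + 1 := by
  rw [h.con_vs, Finset.card_insert_of_notMem h.zX]

lemma CD.bd_sub (h : G.CD X z T) {Y : Finset V} (hY : Y ⊆ X) : h.con.bd Y = G.bd Y := by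
  ext d
  rw [mem_bd, mem_bd, h.con_al, h.con_pi_mem_iff hY, h.con_pi_mem_iff hY]
  constructor
  · rintro ⟨h1, h2, h3⟩
    exact ⟨h.con_ds_sub h1, h2, h3⟩
  · rintro ⟨h1, h2, h3⟩
    exact ⟨h.mem_con_ds.2 (Or.inl ⟨h1, Or.inl (hY h2)⟩), h2, h3⟩

lemma CD.tk_sub (h : G.CD X z T) {Y : Finset V} (hY : Y ⊆ X) : h.con.tk Y = G.tk Y := by
  ext d
  rw [mem_tk, mem_tk, h.con_al, h.con_pi_mem_iff hY]
  constructor
  · rintro ⟨h1, h2, h3⟩
    exact ⟨h.con_ds_sub h1, h2, h3⟩
  · rintro ⟨h1, h2, h3⟩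
    exact ⟨h.mem_con_ds.2 (Or.inl ⟨h1, Or.inl (hY h2)⟩), h2, h3⟩

lemma CD.tk_z (h : G.CD X z T) : h.con.tk {z} = T := by
  ext d
  rw [mem_tk, h.con_al, Finset.mem_singleton]
  constructor
  · rintro ⟨h1, h2, h3⟩
    have h4 : G.pi d ∉ X := by
      intro h4
      rw [h.con_pi_mem h4] at h2
      exact h.zX (h2 ▸ h4)
    rcases h.mem_con_ds.1 h1 with h5 | h5
    · rcases h5.2 with h6 | h6
      · exact absurd h6 h4
      · rw [h3] at h6; exact absurd h6 h4
    · exact h5
  · intro h1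
    exact ⟨h.mem_con_ds.2 (Or.inr h1), h.con_pi_not (h.T_pi h1), h.T_al h1⟩

/-- tokens of sets containing `z` -/
lemma CD.tk_ins (h : G.CD X z T) {Y : Finset V} (hY : Y ⊆ X) :
    (h.con.tk (insert z Y)).card = (G.tk Y).card + T.card := by
  have h1 := h.con.tk_add Y {z}
  have h2 : Y ∩ {z} = ∅ := by
    apply Finset.eq_empty_of_forall_notMem
    intro v hv
    rw [Finset.mem_inter, Finset.mem_singleton] at hv
    exact h.zX (hY (hv.2 ▸ hv.1))
  have h3 : h.con.tk ∅ = ∅ := by
    apply Finset.eq_empty_of_forall_notMem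
    intro d hd
    exact absurd ((h.con.mem_tk).1 hd).2.1 (Finset.notMem_empty _)
  rw [h2, h3, Finset.card_empty, h.tk_sub hY, h.tk_z, Finset.union_comm, ← Finset.insert_eq] at h1
  omega

lemma CD.tk_vs (h : G.CD X z T) : (h.con.tk h.con.vs).card = (G.tk X).card + T.card := by
  rw [h.con_vs]
  exact h.tk_ins (Finset.Subset.refl X)

/-- cuts through `z` -/
lemma CD.bd_ins (h : G.CD X z T) {Y : Finset V} (hY : Y ⊆ X) :
    h.con.bd (insert z Y) = G.bd (Y ∪ (G.vs \ X)) := by
  ext d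
  rw [mem_bd, mem_bd, h.con_al, h.con_pi_ins_iff, h.con_pi_ins_iff]
  simp only [Finset.mem_union, Finset.mem_sdiff]
  constructor
  · rintro ⟨h1, h2, h3⟩
    have h4 := h.con_ds_sub h1
    have h5 := G.pi_mem d h4
    refine ⟨h4, ?_, ?_⟩
    · rcases h2 with h2 | h2
      · exact Or.inl h2.1
      · exact Or.inr ⟨h5, h2⟩
    · rintro (h6 | h6)
      · exact h3 (Or.inl ⟨h6, hY h6⟩)
      · exact h3 (Or.inr h6.2)
  · rintro ⟨h1, h2, h3⟩
    have h5 := G.pi_mem _ (G.al_mem d h1)
    have h6 : G.pi (G.al d) ∈ X := by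
      by_contra h6
      exact h3 (Or.inr ⟨h5, h6⟩)
    refine ⟨h.mem_con_ds.2 (Or.inl ⟨h1, Or.inr h6⟩), ?_, ?_⟩
    · rcases h2 with h2 | h2
      · exact Or.inl ⟨h2, hY h2⟩
      · exact Or.inr h2.2
    · rintro (h7 | h7)
      · exact h3 (Or.inl h7.1)
      · exact h7 h6

lemma CD.compl_eq (h : G.CD X z T) {Y : Finset V} (hY : Y ⊆ X) :
    G.vs \ (X \ Y) = Y ∪ (G.vs \ X) := by
  ext v
  simp only [Finset.mem_union, Finset.mem_sdiff]
  constructor
  · rintro ⟨h1, h2⟩
    by_cases h3 : v ∈ X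
    · left
      by_contra h4
      exact h2 ⟨h3, h4⟩
    · exact Or.inr ⟨h1, h3⟩
  · rintro (h1 | h1)
    · exact ⟨h.Xsub (hY h1), fun h2 => h2.2 h1⟩
    · exact ⟨h1.1, fun h2 => h1.2 h2.1⟩

lemma CD.bd_ins_card (h : G.CD X z T) {Y : Finset V} (hY : Y ⊆ X) :
    (h.con.bd (insert z Y)).card = (G.bd (X \ Y)).card := by
  rw [h.bd_ins hY, ← h.compl_eq hY]
  exact G.bd_compl (Finset.sdiff_subset.trans h.Xsub)

lemma CD.dg_sub (h : G.CD X z T) {Y : Finset V} (hY : Y ⊆ X) : h.con.dg Y = G.dg Y := by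
  unfold dg
  rw [h.bd_sub hY, h.tk_sub hY]

lemma CD.dg_ins (h : G.CD X z T) {Y : Finset V} (hY : Y ⊆ X) :
    h.con.dg (insert z Y) = (G.bd (X \ Y)).card + (G.tk Y).card + T.card := by
  unfold dg
  rw [h.bd_ins_card hY, h.tk_ins hY]
  omega

/-- case distinction: sets avoiding `z` and sets containing `z` -/
lemma CD.cases (h : G.CD X z T) {Z : Finset V} (hZ : Z ⊆ h.con.vs) :
    Z ⊆ X ∨ ∃ Y ⊆ X, Z = insert z Y ∧ Z.card = Y.card + 1 := by
  rw [h.con_vs] at hZ
  by_cases hz : z ∈ Z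
  · right
    refine ⟨Z.erase z, ?_, (Finset.insert_erase hz).symm, ?_⟩
    · intro v hv
      rw [Finset.mem_erase] at hv
      exact (Finset.mem_insert.1 (hZ hv.2)).resolve_left hv.1
    · have := Finset.card_erase_add_one hz
      omega
  · left
    intro v hv
    rcases Finset.mem_insert.1 (hZ hv) with h1 | h1
    · exact absurd (h1 ▸ hv) hz
    · exact h1

/-- bridgelessness, all tokens kept (contraction of an odd set without losing tokens) -/
lemma CD.b0_all (h : G.CD X z T) (hb : G.B0) (ho : Odd (G.vs \ X).card)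
    (hT : T = G.tk (G.vs \ X)) : h.con.B0 := by
  intro Z hZ hodd
  rcases h.cases hZ with h1 | ⟨Y, hY, rfl, hc⟩
  · rw [h.dg_sub h1]
    exact hb Z (h1.trans h.Xsub) hodd
  · have hd : Disjoint Y (G.vs \ X) := by
      rw [Finset.disjoint_left]
      intro v hv hv2
      exact (Finset.mem_sdiff.1 hv2).2 (hY hv)
    have hcard : (Y ∪ (G.vs \ X)).card = Y.card + (G.vs \ X).card :=
      Finset.card_union_of_disjoint hd
    have hoddU : Odd (Y ∪ (G.vs \ X)).card := by
      rw [hcard]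
      rw [hc] at hodd
      have hev : Even Y.card := by
        by_contra hne
        rw [Nat.not_even_iff_odd] at hne
        exact (Nat.not_even_iff_odd.2 hodd) (hne.add_one)
      exact hev.add_odd ho
    have hsub : Y ∪ (G.vs \ X) ⊆ G.vs :=
      Finset.union_subset (hY.trans h.Xsub) Finset.sdiff_subset
    have h3 := hb _ hsub hoddU
    have h4 := G.tk_add Y (G.vs \ X)
    rw [Finset.disjoint_iff_inter_eq_empty.1 hd] at h4
    have h5 : G.tk ∅ = ∅ := by
      apply Finset.eq_empty_of_forall_notMem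
      intro d hd
      exact absurd ((G.mem_tk).1 hd).2.1 (Finset.notMem_empty _)
    rw [h5, Finset.card_empty, ← hT] at h4
    unfold dg at h3 ⊢
    rw [h.bd_ins hY, h.tk_ins hY]
    omega

/-- bridgelessness, as many tokens at `z` as there are in `X` -/
lemma CD.b0_eq (h : G.CD X z T) (hb : G.B0) (ho : Odd X.card)
    (hT : T.card = (G.tk X).card) : h.con.B0 := by
  intro Z hZ hodd
  rcases h.cases hZ with h1 | ⟨Y, hY, rfl, hc⟩
  · rw [h.dg_sub h1]
    exact hb Z (h1.trans h.Xsub) hodd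
  · have hev : Even Y.card := by
      by_contra hne
      rw [Nat.not_even_iff_odd] at hne
      rw [hc] at hodd
      exact (Nat.not_even_iff_odd.2 hodd) (hne.add_one)
    have hoddU : Odd (X \ Y).card := by
      rw [Finset.card_sdiff_of_subset hY]
      exact Nat.Odd.sub_even (Finset.card_le_card hY) ho hev
    have h3 := hb (X \ Y) (Finset.sdiff_subset.trans h.Xsub) hoddU
    have h4 := G.tk_sdiff X Y
    rw [h.dg_ins hY, hT]
    unfold dg at h3
    omega

end JK.CG
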