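import Pool.Agent.Lib.JK.Defs

/-! Cuts: parity, uncrossing, matchings. -/

set_option autoImplicit false

namespace JK.CG

open Finset Classical

variable {V D : Type*} (G : CG V D)

lemma mem_bd {X : Finset V} {d : D} :
    d ∈ G.bd X ↔ d ∈ G.ds ∧ G.pi d ∈ X ∧ G.pi (G.al d) ∉ X := by
  unfold bd; rw [mem_filter]

lemma mem_tk {X : Finset V} {d : D} :
    d ∈ G.tk X ↔ d ∈ G.ds ∧ G.pi d ∈ X ∧ G.al d = d := by
  unfold tk; rw [mem_filter]

lemma mem_ed {X Y : Finset V} {d : D} :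
    d ∈ G.ed X Y ↔ d ∈ G.ds ∧ G.pi d ∈ X ∧ G.pi (G.al d) ∈ Y := by
  unfold ed; rw [mem_filter]

/-- reindexing along the involution -/
lemma sum_al (f : D → ℕ) : ∑ d ∈ G.ds, f (G.al d) = ∑ d ∈ G.ds, f d :=
  Finset.sum_nbij' G.al G.al (fun d hd => G.al_mem d hd) (fun d hd => G.al_mem d hd)
    (fun d hd => G.al_al d hd) (fun d hd => G.al_al d hd) (fun _ _ => rfl)

/-- a set of darts closed under `al` and without tokens has even size -/
lemma even_of_closed {A : Finset D} (hA : A ⊆ G.ds) (hc : ∀ d ∈ A, G.al d ∈ A)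
    (hn : ∀ d ∈ A, G.al d ≠ d) : Even A.card := by
  have h : ∑ _d ∈ A, (1 : ZMod 2) = 0 := by
    refine Finset.sum_involution (fun d _ => G.al d) ?_ ?_ ?_ ?_
    · intro d _
      decide
    · intro d hd _
      exact hn d hd
    · intro d hd
      exact hc d hd
    · intro d hd
      exact G.al_al d (hA hd)
  rw [Finset.sum_const, nsmul_eq_mul, mul_one] at h
  exact (ZMod.natCast_eq_zero_iff_even).1 h

/-- number of darts in `X` -/
lemma card_darts {X : Finset V} (hX : X ⊆ G.vs) :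
    (G.ds.filter fun d => G.pi d ∈ X).card = 3 * X.card := by
  have h0 := Finset.card_eq_sum_card_fiberwise (s := G.ds.filter fun d => G.pi d ∈ X) (t := X)
    (f := G.pi) (by
      intro d hd
      exact (Finset.mem_filter.1 (Finset.mem_coe.1 hd)).2)
  rw [h0]
  have h : ∀ v ∈ X, ((G.ds.filter fun d => G.pi d ∈ X).filter fun d => G.pi d = v).card = 3 := by
    intro v hv
    rw [← G.cubic v (hX hv)]
    congr 1
    ext d
    simp only [Finset.mem_filter]
    constructor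
    · rintro ⟨⟨h1, _⟩, h3⟩
      exact ⟨h1, h3⟩
    · rintro ⟨h1, h3⟩
      exact ⟨⟨h1, h3 ▸ hv⟩, h3⟩
  rw [Finset.sum_congr rfl h, Finset.sum_const, smul_eq_mul, mul_comm]

lemma dg_parity {X : Finset V} (hX : X ⊆ G.vs) : Odd (G.dg X) ↔ Odd X.card := by
  have hin : Even (G.ds.filter fun d => G.pi d ∈ X ∧ G.pi (G.al d) ∈ X ∧ G.al d ≠ d).card := by
    apply G.even_of_closed (Finset.filter_subset _ _)
    · intro d hd
      rw [Finset.mem_filter] at hd ⊢
      obtain ⟨h1, h2, h3, h4⟩ := hd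
      refine ⟨G.al_mem d h1, h3, ?_, ?_⟩
      · rw [G.al_al d h1]; exact h2
      · rw [G.al_al d h1]; exact fun h => h4 h.symm
    · intro d hd
      rw [Finset.mem_filter] at hd
      exact hd.2.2.2
  have hsum : G.dg X + (G.ds.filter fun d => G.pi d ∈ X ∧ G.pi (G.al d) ∈ X ∧ G.al d ≠ d).card
      = 3 * X.card := by
    rw [← G.card_darts hX]
    unfold dg bd tk
    simp only [Finset.card_filter, ← Finset.sum_add_distrib]
    refine Finset.sum_congr rfl fun d _ => ?_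
    by_cases h1 : G.pi d ∈ X <;> by_cases h2 : G.pi (G.al d) ∈ X <;> by_cases h3 : G.al d = d <;>
      simp_all
  constructor
  · intro h
    by_contra hc
    rw [Nat.not_odd_iff_even] at hc
    have h1 : Odd (G.dg X +
        (G.ds.filter fun d => G.pi d ∈ X ∧ G.pi (G.al d) ∈ X ∧ G.al d ≠ d).card) :=
      h.add_even hin
    rw [hsum] at h1
    exact (Nat.not_odd_iff_even.2 (hc.mul_left 3)) h1
  · intro h
    by_contra hc
    rw [Nat.not_odd_iff_even] at hc
    have h1 : Even (G.dg X +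
        (G.ds.filter fun d => G.pi d ∈ X ∧ G.pi (G.al d) ∈ X ∧ G.al d ≠ d).card) :=
      hc.add hin
    rw [hsum] at h1
    have h3 : Odd (3 * X.card) := (by decide : Odd 3).mul h
    exact (Nat.not_even_iff_odd.2 h3) h1

lemma ed_comm (X Y : Finset V) : (G.ed X Y).card = (G.ed Y X).card := by
  unfold ed
  rw [Finset.card_filter, Finset.card_filter,
    ← G.sum_al fun d => if G.pi d ∈ Y ∧ G.pi (G.al d) ∈ X then 1 else 0]
  refine Finset.sum_congr rfl fun d hd => ?_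
  rw [G.al_al d hd]
  by_cases h1 : G.pi d ∈ X <;> by_cases h2 : G.pi (G.al d) ∈ Y <;> simp [h1, h2]

/-- uncrossing, first form -/
lemma bd_submod (X Y : Finset V) :
    (G.bd (X ∩ Y)).card + (G.bd (X ∪ Y)).card + 2 * (G.ed (X \ Y) (Y \ X)).card =
      (G.bd X).card + (G.bd Y).card := by
  have hc := G.ed_comm (X \ Y) (Y \ X)
  have h : (G.bd (X ∩ Y)).card + (G.bd (X ∪ Y)).card + (G.ed (X \ Y) (Y \ X)).card +
      (G.ed (Y \ X) (X \ Y)).card = (G.bd X).card + (G.bd Y).card := by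
    unfold bd ed
    simp only [Finset.card_filter, ← Finset.sum_add_distrib]
    refine Finset.sum_congr rfl fun d _ => ?_
    by_cases h1 : G.pi d ∈ X <;> by_cases h2 : G.pi d ∈ Y <;>
      by_cases h3 : G.pi (G.al d) ∈ X <;> by_cases h4 : G.pi (G.al d) ∈ Y <;>
      simp [h1, h2, h3, h4]
  omega

/-- uncrossing, second form -/
lemma bd_posimod {X Y : Finset V} (hX : X ⊆ G.vs) (hY : Y ⊆ G.vs) :
    (G.bd (X \ Y)).card + (G.bd (Y \ X)).card + 2 * (G.ed (X ∩ Y) (G.vs \ (X ∪ Y))).card =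
      (G.bd X).card + (G.bd Y).card := by
  have hc1 := G.ed_comm (X ∩ Y) (X \ Y)
  have hc2 := G.ed_comm (X ∩ Y) (Y \ X)
  have hX' : (G.bd (X \ Y)).card + (G.bd (Y \ X)).card + 2 * (G.ed (X ∩ Y) (G.vs \ (X ∪ Y))).card
      + (G.ed (X ∩ Y) (X \ Y)).card + (G.ed (X ∩ Y) (Y \ X)).card
      = (G.bd X).card + (G.bd Y).card + (G.ed (X \ Y) (X ∩ Y)).card
        + (G.ed (Y \ X) (X ∩ Y)).card := by
    unfold bd ed
    simp only [Finset.card_filter, Finset.mul_sum, ← Finset.sum_add_distrib]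
    refine Finset.sum_congr rfl fun d hd => ?_
    have hv : G.pi (G.al d) ∈ G.vs := G.pi_mem _ (G.al_mem d hd)
    by_cases h1 : G.pi d ∈ X <;> by_cases h2 : G.pi d ∈ Y <;>
      by_cases h3 : G.pi (G.al d) ∈ X <;> by_cases h4 : G.pi (G.al d) ∈ Y <;>
      simp [h1, h2, h3, h4, hv]
  omega

lemma tk_add (X Y : Finset V) :
    (G.tk (X ∩ Y)).card + (G.tk (X ∪ Y)).card = (G.tk X).card + (G.tk Y).card := by
  unfold tk
  simp only [Finset.card_filter, ← Finset.sum_add_distrib]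
  refine Finset.sum_congr rfl fun d _ => ?_
  by_cases h1 : G.pi d ∈ X <;> by_cases h2 : G.pi d ∈ Y <;> by_cases h3 : G.al d = d <;>
    simp [h1, h2, h3]

lemma tk_sdiff (X Y : Finset V) :
    (G.tk (X \ Y)).card + (G.tk (X ∩ Y)).card = (G.tk X).card := by
  unfold tk
  simp only [Finset.card_filter, ← Finset.sum_add_distrib]
  refine Finset.sum_congr rfl fun d _ => ?_
  by_cases h1 : G.pi d ∈ X <;> by_cases h2 : G.pi d ∈ Y <;> by_cases h3 : G.al d = d <;>
    simp [h1, h2, h3]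

lemma tk_compl {X : Finset V} (hX : X ⊆ G.vs) :
    (G.tk (G.vs \ X)).card + (G.tk X).card = (G.tk G.vs).card := by
  have h := G.tk_sdiff G.vs X
  rwa [Finset.inter_eq_right.2 hX] at h

lemma dg_submod (X Y : Finset V) :
    G.dg (X ∩ Y) + G.dg (X ∪ Y) + 2 * (G.ed (X \ Y) (Y \ X)).card = G.dg X + G.dg Y := by
  have h1 := G.bd_submod X Y
  have h2 := G.tk_add X Y
  unfold dg
  omega

lemma dg_posimod {X Y : Finset V} (hX : X ⊆ G.vs) (hY : Y ⊆ G.vs) :
    G.dg (X \ Y) + G.dg (Y \ X) + 2 * (G.ed (X ∩ Y) (G.vs \ (X ∪ Y))).card +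
      2 * (G.tk (X ∩ Y)).card = G.dg X + G.dg Y := by
  have h1 := G.bd_posimod hX hY
  have h2 := G.tk_sdiff X Y
  have h3 := G.tk_sdiff Y X
  rw [Finset.inter_comm Y X] at h3
  unfold dg
  omega

lemma bd_compl_eq {X : Finset V} (hX : X ⊆ G.vs) : G.bd (G.vs \ X) = (G.bd X).image G.al := by
  ext d
  rw [Finset.mem_image]
  constructor
  · intro hd
    rw [mem_bd] at hd
    obtain ⟨h1, h2, h3⟩ := hd
    rw [Finset.mem_sdiff] at h2
    have h4 : G.pi (G.al d) ∈ X := by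
      by_contra hc
      exact h3 (Finset.mem_sdiff.2 ⟨G.pi_mem _ (G.al_mem d h1), hc⟩)
    refine ⟨G.al d, ?_, G.al_al d h1⟩
    rw [mem_bd, G.al_al d h1]
    exact ⟨G.al_mem d h1, h4, h2.2⟩
  · rintro ⟨e, he, rfl⟩
    rw [mem_bd] at he
    obtain ⟨h1, h2, h3⟩ := he
    rw [mem_bd, G.al_al e h1]
    refine ⟨G.al_mem e h1, Finset.mem_sdiff.2 ⟨G.pi_mem _ (G.al_mem e h1), h3⟩, fun h => ?_⟩
    exact (Finset.mem_sdiff.1 h).2 h2

lemma bd_compl {X : Finset V} (hX : X ⊆ G.vs) : (G.bd (G.vs \ X)).card = (G.bd X).card := by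
  rw [G.bd_compl_eq hX]
  refine Finset.card_image_of_injOn ?_
  intro d hd e he h
  have hd1 := ((G.mem_bd).1 (Finset.mem_coe.1 hd)).1
  have he1 := ((G.mem_bd).1 (Finset.mem_coe.1 he)).1
  rw [← G.al_al d hd1, ← G.al_al e he1]
  exact congrArg G.al h

end JK.CG
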