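import Pool.Agent.Lib.JK.MC
import Pool.Agent.Lib.JK.DelV

/-! Even sets with at most one boundary edge. -/

set_option autoImplicit false

namespace JK.CG

open Finset Classical

variable {V D : Type*} {G : CG V D} {K : Finset V} {F : Finset D}

private lemma one_bd (G : CG V D) {U Z : Finset V} (hZ : Z ⊆ G.vs) (hdj : ∀ v ∈ Z, v ∉ U)
    (h : ∀ d ∈ G.ds, G.pi d ∈ Z → G.pi (G.al d) ∉ U) : (G.delV U).bd Z = G.bd Z := by
  rw [G.delV_bd (fun v hv => mem_sdiff.2 ⟨hZ hv, hdj v hv⟩)]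
  apply filter_true_of_mem
  intro d hd
  rw [mem_bd] at hd
  exact h d hd.1 hd.2.1

/-- deleting one side of a cut with at most one edge gives an instance -/
private lemma one_inst (hI : G.Inst K F) {U : Finset V} (hU : U ⊆ G.vs) (he : Even U.card)
    (hb : (G.bd U).card ≤ 1) :
    (G.delV U).Inst ((K ∪ (G.ds.filter fun d => G.pi (G.al d) ∈ U).image G.pi) \ U)
      (F.filter fun d => G.pi d ∉ U ∧ G.pi (G.al d) ∉ U) := by
  refine ⟨?_, ?_, G.delV_b0 hI.b0 U, G.delV_cls hI.cls, ?_⟩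
  · show Even (G.vs \ U).card
    have h1 := hI.even
    rw [← card_sdiff_add_card_eq_card hU] at h1
    exact (Nat.even_add.1 h1).2 he
  · have h1 := G.delV_tk_card hU
    have h2 := hI.four
    have h3 : (G.bd U).card ≤ (G.tk U).card := by
      by_contra hlt
      have h4 : (G.tk U).card = 0 := by omega
      have h4' : (G.bd U).card = 1 := by omega
      have h5 : Odd U.card := by
        rw [← G.dg_parity hU]
        unfold dg
        rw [h4, h4']
        exact odd_one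
      exact (Nat.not_even_iff_odd.2 h5) he
    omega
  · intro Z hZ ho
    rw [G.delV_adm hI.cls] at hZ
    rw [one_bd G hZ.1.sub (disjoint_left.1 hZ.2.1) hZ.2.2]
    exact hI.cc Z hZ.1 ho

/-- darts of a matching of `G - U` -/
private lemma one_mem {U : Finset V} {M : Finset D} (hM : (G.delV U).IsPM M) {d : D}
    (hd : d ∈ M) : d ∈ G.ds ∧ G.pi d ∉ U ∧ G.pi (G.al d) ∉ U ∧ G.al d ∈ M ∧ G.al d ≠ d := by
  have h1 := (G.mem_delV_ds).1 (hM.sub hd)
  have h2 : G.pi (G.al d) ∉ U := fun h => hM.notok d hd (G.delV_al_in h)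
  have h3 := hM.closed d hd
  have h4 := hM.notok d hd
  rw [G.delV_al_of h2] at h3 h4
  exact ⟨h1.1, h1.2, h2, h3, h4⟩

private lemma one_pm {X : Finset V} {M1 M2 : Finset D}
    (h1 : (G.delV (G.vs \ X)).IsPM M1) (h2 : (G.delV X).IsPM M2) : G.IsPM (M1 ∪ M2) := by
  refine ⟨?_, ?_, ?_, ?_⟩
  · intro d hd
    rcases mem_union.1 hd with h | h
    · exact (one_mem h1 h).1
    · exact (one_mem h2 h).1
  · intro d hd
    rcases mem_union.1 hd with h | h
    · exact mem_union_left _ (one_mem h1 h).2.2.2.1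
    · exact mem_union_right _ (one_mem h2 h).2.2.2.1
  · intro d hd
    rcases mem_union.1 hd with h | h
    · exact (one_mem h1 h).2.2.2.2
    · exact (one_mem h2 h).2.2.2.2
  · intro v hv
    by_cases hX : v ∈ X
    · have e1 : ((M1 ∪ M2).filter fun d => G.pi d = v) = M1.filter fun d => G.pi d = v := by
        rw [filter_union]
        have : (M2.filter fun d => G.pi d = v) = ∅ := by
          apply filter_false_of_mem
          intro d hd h
          exact (one_mem h2 hd).2.1 (h ▸ hX)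
        rw [this, union_empty]
      rw [e1]
      exact h1.one v (mem_sdiff.2 ⟨hv, fun h => (mem_sdiff.1 h).2 hX⟩)
    · have e1 : ((M1 ∪ M2).filter fun d => G.pi d = v) = M2.filter fun d => G.pi d = v := by
        rw [filter_union]
        have : (M1.filter fun d => G.pi d = v) = ∅ := by
          apply filter_false_of_mem
          intro d hd h
          exact (one_mem h1 hd).2.1 (mem_sdiff.2 ⟨h ▸ hv, h ▸ hX⟩)
        rw [this, empty_union]
      rw [e1]
      exact h2.one v (mem_sdiff.2 ⟨hv, hX⟩)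

/-- the part of `Z` outside `U` is not odd -/
private lemma one_side (hc : G.Cls K F) {U Z : Finset V} (hZ : G.Adm K F Z)
    (hno : ∀ d ∈ G.ds, G.pi d ∈ Z → G.pi d ∉ U → G.pi (G.al d) ∉ U) {M0 M : Finset D}
    (hM0 : (G.delV U).Good ((K ∪ (G.ds.filter fun d => G.pi (G.al d) ∈ U).image G.pi) \ U)
      (F.filter fun d => G.pi d ∉ U ∧ G.pi (G.al d) ∉ U) M0)
    (hs : ∀ d ∈ M, G.pi d ∉ U → d ∈ M0) (hb : ∀ d ∈ G.bd Z, d ∈ M) : ¬ Odd (Z \ U).card := by
  intro ho
  have hn : ∀ d ∈ G.ds, G.pi d ∈ Z \ U → G.pi (G.al d) ∉ U := fun d hd h =>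
    hno d hd (mem_sdiff.1 h).1 (mem_sdiff.1 h).2
  have hA : G.Adm K F (Z \ U) := by
    refine ⟨sdiff_subset.trans hZ.sub, fun v hv => hZ.dis v (mem_sdiff.1 hv).1, ?_⟩
    intro d hd hp
    exact mem_sdiff.2 ⟨hZ.clo d hd (mem_sdiff.1 hp).1, hn d (hc.Fsub hd) hp⟩
  have hdj : ∀ v ∈ Z \ U, v ∉ U := fun v hv => (mem_sdiff.1 hv).2
  obtain ⟨d, hd, hdM⟩ := hM0.hit (Z \ U)
    ((G.delV_adm hc).2 ⟨hA, disjoint_left.2 hdj, hn⟩) ho
  rw [one_bd G hA.sub hdj hn, mem_bd] at hd
  obtain ⟨h1, h2, h3⟩ := hd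
  have h4 := hn d h1 h2
  have h5 : d ∈ G.bd Z := (G.mem_bd).2
    ⟨h1, (mem_sdiff.1 h2).1, fun h => h3 (mem_sdiff.2 ⟨h, h4⟩)⟩
  exact hdM (hs d (hb d h5) (mem_sdiff.1 h2).2)

/-- In a minimal counterexample a proper non-empty even set has at least two boundary edges. -/
lemma MC.two_le_bd (h : G.MC K F) {X : Finset V} (hX : X ⊆ G.vs) (he : Even X.card)
    (hne : X.Nonempty) (hne' : X ≠ G.vs) : 2 ≤ (G.bd X).card := by
  by_contra hlt
  have hb : (G.bd X).card ≤ 1 := by omega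
  have hI := h.inst
  set Y : Finset V := G.vs \ X with hY
  have hYs : Y ⊆ G.vs := sdiff_subset
  have hcard : Y.card + X.card = G.vs.card := card_sdiff_add_card_eq_card hX
  have hYe : Even Y.card := by
    have h1 := hI.even
    rw [← hcard] at h1
    exact (Nat.even_add.1 h1).2 he
  have hYne : Y.Nonempty := by
    rw [hY, sdiff_nonempty]
    exact fun h1 => hne' (Subset.antisymm hX h1)
  have hbY : (G.bd Y).card ≤ 1 := by
    rw [hY, G.bd_compl hX]
    exact hb
  have hvY : G.vs \ Y = X := by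
    rw [hY]
    exact Finset.sdiff_sdiff_eq_self hX
  obtain ⟨M1, hM1⟩ := h.ih (G.delV Y) _ _ (by
    show (G.vs \ Y).card < G.vs.card
    rw [hvY, ← hcard]
    have := hYne.card_pos
    omega) (one_inst hI hYs hYe hbY)
  obtain ⟨M2, hM2⟩ := h.ih (G.delV X) _ _ (by
    show (G.vs \ X).card < G.vs.card
    rw [← hY, ← hcard]
    have := hne.card_pos
    omega) (one_inst hI hX he hb)
  have hpm : G.IsPM (M1 ∪ M2) := one_pm hM1.pm hM2.pm
  apply h.no
  refine ⟨M1 ∪ M2, hpm, ?_⟩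
  intro Z hZ ho
  by_contra hcon
  push Not at hcon
  -- crossing darts are not in the matching
  have hcr : ∀ d ∈ G.bd X, d ∉ M1 ∪ M2 ∧ G.al d ∉ M1 ∪ M2 := by
    intro d hd
    rw [mem_bd] at hd
    obtain ⟨h1, h2, h3⟩ := hd
    have h4 : G.pi (G.al d) ∈ Y := mem_sdiff.2 ⟨G.pi_mem _ (G.al_mem d h1), h3⟩
    have h5 : d ∉ M1 ∪ M2 := by
      rw [mem_union, not_or]
      exact ⟨fun h6 => (one_mem hM1.pm h6).2.2.1 h4, fun h6 => (one_mem hM2.pm h6).2.1 h2⟩
    refine ⟨h5, fun h6 => h5 ?_⟩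
    have h7 := hpm.closed _ h6
    rwa [G.al_al d h1] at h7
  -- no end of a crossing dart is in `Z`
  have hend : ∀ e ∈ G.bd X, G.pi e ∉ Z ∧ G.pi (G.al e) ∉ Z := by
    intro e he1
    have he2 := (G.mem_bd).1 he1
    have hiff : G.pi e ∈ Z ↔ G.pi (G.al e) ∈ Z := by
      constructor
      · intro h1
        by_contra h2
        exact (hcr e he1).1 (hcon e ((G.mem_bd).2 ⟨he2.1, h1, h2⟩))
      · intro h1
        by_contra h2
        refine (hcr e he1).2 (hcon (G.al e) ((G.mem_bd).2 ⟨G.al_mem e he2.1, h1, ?_⟩))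
        rw [G.al_al e he2.1]
        exact h2
    suffices h0 : G.pi e ∉ Z from ⟨h0, fun h1 => h0 (hiff.2 h1)⟩
    intro h1
    have h2 := hiff.1 h1
    have hZX : Z ∩ X ⊆ G.vs := inter_subset_right.trans hX
    have htk : G.tk (Z ∩ X) = ∅ := by
      apply eq_empty_of_forall_notMem
      intro d hd
      rw [mem_tk] at hd
      exact hZ.dis _ (mem_inter.1 hd.2.1).1 (hI.cls.tokK d hd.1 hd.2.2)
    have hev := hpm.even_compl hZX htk
    have hone : (G.bd (Z ∩ X)).filter (fun d => d ∉ M1 ∪ M2) = {e} := by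
      ext d
      rw [mem_filter, mem_bd, mem_singleton]
      constructor
      · rintro ⟨⟨h3, h4, h5⟩, h6⟩
        have h7 : G.pi (G.al d) ∈ Z := by
          by_contra h8
          exact h6 (hcon d ((G.mem_bd).2 ⟨h3, (mem_inter.1 h4).1, h8⟩))
        have h9 : d ∈ G.bd X := (G.mem_bd).2
          ⟨h3, (mem_inter.1 h4).2, fun h8 => h5 (mem_inter.2 ⟨h7, h8⟩)⟩
        exact card_le_one.1 hb d h9 e he1
      · rintro rfl
        exact ⟨⟨he2.1, mem_inter.2 ⟨h1, he2.2.1⟩, fun h8 => he2.2.2 (mem_inter.1 h8).2⟩,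
          (hcr _ he1).1⟩
    rw [hone, card_singleton] at hev
    exact (Nat.not_even_iff_odd.2 odd_one) hev
  -- the two sides
  have hside1 : ¬ Odd (Z \ Y).card := by
    refine one_side hI.cls hZ ?_ hM1 (M := M1 ∪ M2) ?_ hcon
    · intro d hd h1 h2 h3
      have h4 : G.pi d ∈ X := by
        by_contra h5
        exact h2 (mem_sdiff.2 ⟨hZ.sub h1, h5⟩)
      exact (hend d ((G.mem_bd).2 ⟨hd, h4, (mem_sdiff.1 h3).2⟩)).1 h1
    · intro d hd h1
      rcases mem_union.1 hd with h2 | h2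
      · exact h2
      · exfalso
        have h3 := one_mem hM2.pm h2
        exact h1 (mem_sdiff.2 ⟨G.pi_mem d h3.1, h3.2.1⟩)
  have hside2 : ¬ Odd (Z \ X).card := by
    refine one_side hI.cls hZ ?_ hM2 (M := M1 ∪ M2) ?_ hcon
    · intro d hd h1 h2 h3
      have h4 : G.al d ∈ G.bd X := by
        rw [mem_bd, G.al_al d hd]
        exact ⟨G.al_mem d hd, h3, h2⟩
      have h5 := (hend _ h4).2
      rw [G.al_al d hd] at h5
      exact h5 h1
    · intro d hd h1
      rcases mem_union.1 hd with h2 | h2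
      · exfalso
        have h3 := one_mem hM1.pm h2
        exact h3.2.1 (mem_sdiff.2 ⟨G.pi_mem d h3.1, h1⟩)
      · exact h2
  have hsplit : (Z \ Y).card + (Z \ X).card = Z.card := by
    have h1 : Z \ Y = Z ∩ X := by
      ext v
      rw [mem_sdiff, mem_inter, hY, mem_sdiff]
      constructor
      · rintro ⟨h1, h2⟩
        refine ⟨h1, ?_⟩
        by_contra h3
        exact h2 ⟨hZ.sub h1, h3⟩
      · rintro ⟨h1, h2⟩
        exact ⟨h1, fun h3 => h3.2 h2⟩
    rw [h1, add_comm]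
    exact card_sdiff_add_card_inter Z X
  rw [Nat.not_odd_iff_even] at hside1 hside2
  rw [← hsplit] at ho
  exact (Nat.not_even_iff_odd.2 ho) (hside1.add hside2)

end JK.CG
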