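import Pool.Agent.Lib.JK.CutS

/-! It is enough to treat instances with exactly four tokens. -/

set_option autoImplicit false

namespace JK.CG

open Finset Classical

variable {V D : Type*}

/-- cutting edges whose ends are absorbed (or at a vertex outside the union) keeps the conditions -/
lemma tok_cut (G : CG V D) {K : Finset V} {F : Finset D} (hI : G.Inst K F)
    {A : Finset D} (hA : ∀ d ∈ A, G.al d ∈ A) (hAd : A ⊆ G.ds) (hn : ∀ d ∈ A, G.al d ≠ d)
    (hc : (G.tk G.vs).card + A.card ≤ 4) :
    (G.cutS A hA).Inst (K ∪ A.image G.pi) (F \ A) := by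
  refine ⟨hI.even, ?_, cutS_b0 hA hI.b0, cutS_cls hA hAd hI.cls, ?_⟩
  · have := cutS_tk_card hA hAd hn
    have h2 : (G.cutS A hA).vs = G.vs := rfl
    rw [h2, this]
    exact hc
  · intro Z hZ ho
    obtain ⟨h1, h2⟩ := (cutS_adm hA hAd hI.cls).1 hZ
    rw [cutS_bd hA]
    have h3 : G.bd Z \ A = G.bd Z := by
      apply Finset.sdiff_eq_self_of_disjoint
      rw [Finset.disjoint_left]
      intro d hd hdA
      unfold bd at hd
      rw [mem_filter] at hd
      exact h2 d hdA hd.2.1
    rw [h3]
    exact hI.cc Z h1 ho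

/-- a matching that is good after the cut hits every odd union avoiding a vertex `x` such that
all cut edges are at `x` -/
lemma tok_hit (G : CG V D) {K : Finset V} {F : Finset D} (hI : G.Inst K F)
    {A : Finset D} (hA : ∀ d ∈ A, G.al d ∈ A) (hAd : A ⊆ G.ds)
    {x : V} (hx : ∀ d ∈ A, G.pi d = x ∨ G.pi (G.al d) = x) {M : Finset D}
    (hM : (G.cutS A hA).Good (K ∪ A.image G.pi) (F \ A) M) {Z : Finset V} (hZ : G.Adm K F Z)
    (ho : Odd Z.card) (hxZ : x ∉ Z) : ∃ d ∈ G.bd Z, d ∉ M := by
  have hpm := (cutS_pm hA).1 hM.pm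
  by_cases h : ∀ d ∈ A, G.pi d ∉ Z
  · obtain ⟨d, hd, hdM⟩ := hM.hit Z ((cutS_adm hA hAd hI.cls).2 ⟨hZ, h⟩) ho
    rw [cutS_bd hA, mem_sdiff] at hd
    exact ⟨d, hd.1, hdM⟩
  · push Not at h
    obtain ⟨d, hd, hdZ⟩ := h
    refine ⟨d, ?_, hpm.2 d hd⟩
    unfold bd
    rw [mem_filter]
    refine ⟨hAd hd, hdZ, ?_⟩
    rcases hx d hd with h1 | h1
    · rw [h1] at hdZ
      exact absurd hdZ hxZ
    · rw [h1]
      exact hxZ

/-- Proof. The number of tokens is even (`dg vs`). Two tokens: a token vertex `s` has exactly one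
token (otherwise the complement of `s` violates `B0`); cut one of its edges `s c` (two darts), absorb
`c`: if `c ∈ Z` and the edge is not in `M` then it leaves `Z`. No token: if `vs` is empty, `M = ∅`.
Otherwise take `x ∈ K` if `K` is non-empty, any `x ∈ vs` otherwise; cut two of the three edges at `x`
and absorb their ends and `x`. An odd union `Z` of fresh circuits with `bd Z ⊆ M` and `x ∉ Z` avoids
the new `K`. If `x ∈ Z` then `K = ∅`, replace `Z` by its complement (`F` is symmetric). -/
theorem four_suffices (G : CG V D) {K : Finset V} {F : Finset D} (hI : G.Inst K F)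
    (h : ∀ (G' : CG V D) (K' : Finset V) (F' : Finset D), G'.vs = G.vs → G'.Inst K' F' →
      (G'.tk G'.vs).card = 4 → ∃ M, G'.Good K' F' M) :
    ∃ M, G.Good K F M := by
  have hbdv : G.bd G.vs = ∅ := by
    rw [Finset.eq_empty_iff_forall_notMem]
    intro d hd
    unfold bd at hd
    rw [mem_filter] at hd
    exact hd.2.2 (G.pi_mem _ (G.al_mem d hd.1))
  have hpar : Even (G.tk G.vs).card := by
    have h1 := G.dg_parity (X := G.vs) (Finset.Subset.refl _)
    have h2 : G.dg G.vs = (G.tk G.vs).card := by
      unfold dg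
      rw [hbdv]
      simp
    rw [h2] at h1
    rw [← Nat.not_odd_iff_even, h1, Nat.not_odd_iff_even]
    exact hI.even
  have hfour := hI.four
  obtain ht | ht | ht : (G.tk G.vs).card = 4 ∨ (G.tk G.vs).card = 2 ∨ (G.tk G.vs).card = 0 := by
    obtain ⟨k, hk⟩ := hpar
    omega
  · exact h G K F rfl hI ht
  · -- two tokens
    obtain ⟨σ, hσ⟩ : (G.tk G.vs).Nonempty := by
      rw [← Finset.card_pos]; omega
    have hσ' := hσ
    unfold tk at hσ'
    rw [mem_filter] at hσ'
    obtain ⟨hσd, hσv, hσt⟩ := hσ'
    obtain ⟨s, hs⟩ : ∃ s, s = G.pi σ := ⟨_, rfl⟩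
    have hsv : s ∈ G.vs := by rw [hs]; exact hσv
    have hsK : s ∈ K := by rw [hs]; exact hI.cls.tokK σ hσd hσt
    -- a second dart at s which is not a token
    obtain ⟨u, hud, hus, hut⟩ : ∃ u, u ∈ G.ds ∧ G.pi u = s ∧ G.al u ≠ u := by
      by_contra hcon
      push Not at hcon
      have h3 : (G.ds.filter fun d => G.pi d = s) ⊆ G.tk G.vs := by
        intro d hd
        rw [mem_filter] at hd
        unfold tk
        rw [mem_filter]
        exact ⟨hd.1, by rw [hd.2]; exact hsv, hcon d hd.1 hd.2⟩
      have h4 := Finset.card_le_card h3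
      rw [G.cubic s hsv] at h4
      omega
    have hAu : ∀ d ∈ ({u, G.al u} : Finset D), G.al d ∈ ({u, G.al u} : Finset D) := by
      intro d hd
      rw [mem_insert, mem_singleton] at hd ⊢
      rcases hd with rfl | rfl
      · right; rfl
      · left; exact G.al_al u hud
    have hAd : ({u, G.al u} : Finset D) ⊆ G.ds := by
      intro d hd
      rw [mem_insert, mem_singleton] at hd
      rcases hd with rfl | rfl
      · exact hud
      · exact G.al_mem _ hud
    have hAn : ∀ d ∈ ({u, G.al u} : Finset D), G.al d ≠ d := by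
      intro d hd
      rw [mem_insert, mem_singleton] at hd
      rcases hd with rfl | rfl
      · exact hut
      · rw [G.al_al u hud]; exact hut.symm
    have hAc : ({u, G.al u} : Finset D).card = 2 := Finset.card_pair hut.symm
    have hI' := tok_cut G hI hAu hAd hAn (by rw [ht, hAc])
    obtain ⟨M, hM⟩ := h (G.cutS _ hAu) _ _ rfl hI' (by
      have h2 : (G.cutS _ hAu).vs = G.vs := rfl
      rw [h2, cutS_tk_card hAu hAd hAn, ht, hAc])
    refine ⟨M, ((cutS_pm hAu).1 hM.pm).1, ?_⟩
    intro Z hZ ho
    refine tok_hit G hI hAu hAd (x := s) ?_ hM hZ ho (fun hsZ => hZ.dis s hsZ hsK)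
    intro d hd
    rw [mem_insert, mem_singleton] at hd
    rcases hd with rfl | rfl
    · left; exact hus
    · right; rw [G.al_al u hud]; exact hus
  · -- no token
    have hnt : ∀ d ∈ G.ds, G.al d ≠ d := by
      intro d hd hdt
      have : d ∈ G.tk G.vs := by
        unfold tk
        rw [mem_filter]
        exact ⟨hd, G.pi_mem d hd, hdt⟩
      rw [Finset.card_eq_zero] at ht
      rw [ht] at this
      simp at this
    rcases Finset.eq_empty_or_nonempty G.vs with hv | hv
    · refine ⟨∅, ⟨by simp, by simp, by simp, ?_⟩, ?_⟩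
      · intro v hvv
        rw [hv] at hvv
        simp at hvv
      · intro Z hZ ho
        have h1 := hZ.sub
        rw [hv] at h1
        have h2 : Z = ∅ := Finset.subset_empty.1 h1
        rw [h2] at ho
        simp at ho
    · obtain ⟨x, hxv, hxK⟩ : ∃ x ∈ G.vs, x ∈ K ∨ K = ∅ := by
        rcases Finset.eq_empty_or_nonempty K with hK | hK
        · obtain ⟨x, hx⟩ := hv
          exact ⟨x, hx, Or.inr hK⟩
        · obtain ⟨x, hx⟩ := hK
          exact ⟨x, hI.cls.Ksub hx, Or.inl hx⟩
      obtain ⟨a, b, c, hab, hac, hbc, habc⟩ := Finset.card_eq_three.1 (G.cubic x hxv)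
      have ha : a ∈ G.ds ∧ G.pi a = x := by
        have : a ∈ (G.ds.filter fun d => G.pi d = x) := by rw [habc]; simp
        simpa using this
      have hb : b ∈ G.ds ∧ G.pi b = x := by
        have : b ∈ (G.ds.filter fun d => G.pi d = x) := by rw [habc]; simp
        simpa using this
      have hla : G.pi (G.al a) ≠ x := by
        have := hI.b0.no_loop ha.1 (hnt a ha.1)
        rwa [ha.2] at this
      have hlb : G.pi (G.al b) ≠ x := by
        have := hI.b0.no_loop hb.1 (hnt b hb.1)
        rwa [hb.2] at this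
      obtain ⟨A, hAe⟩ : ∃ A : Finset D, A = {a, G.al a, b, G.al b} := ⟨_, rfl⟩
      have hmA : ∀ d, d ∈ A ↔ d = a ∨ d = G.al a ∨ d = b ∨ d = G.al b := by
        intro d
        rw [hAe]
        simp
      have hAA : ∀ d ∈ A, G.al d ∈ A := by
        intro d hd
        rw [hmA] at hd ⊢
        rcases hd with rfl | rfl | rfl | rfl
        · simp
        · left; exact G.al_al a ha.1
        · simp
        · right; right; left; exact G.al_al b hb.1
      have hAd : A ⊆ G.ds := by
        intro d hd
        rw [hmA] at hd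
        rcases hd with rfl | rfl | rfl | rfl
        · exact ha.1
        · exact G.al_mem _ ha.1
        · exact hb.1
        · exact G.al_mem _ hb.1
      have hAn : ∀ d ∈ A, G.al d ≠ d := fun d hd => hnt d (hAd hd)
      have hAc : A.card = 4 := by
        rw [hAe]
        have h1 : G.al a ≠ a := hnt a ha.1
        have h2 : G.al b ≠ b := hnt b hb.1
        have h3 : G.al a ≠ b := fun h0 => hla (by rw [h0]; exact hb.2)
        have h4 : G.al b ≠ a := fun h0 => hlb (by rw [h0]; exact ha.2)
        have h5 : G.al a ≠ G.al b := fun h0 => hab (by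
          rw [← G.al_al a ha.1, h0, G.al_al b hb.1])
        rw [Finset.card_insert_of_notMem, Finset.card_insert_of_notMem, Finset.card_pair h2.symm]
        · simp [h3, h5]
        · simp [h1.symm, hab, h4.symm]
      have hI' := tok_cut G hI hAA hAd hAn (by rw [ht, hAc])
      obtain ⟨M, hM⟩ := h (G.cutS _ hAA) _ _ rfl hI' (by
        have h2 : (G.cutS _ hAA).vs = G.vs := rfl
        rw [h2, cutS_tk_card hAA hAd hAn, ht, hAc])
      have hpm := ((cutS_pm hAA).1 hM.pm).1
      have hxA : ∀ d ∈ A, G.pi d = x ∨ G.pi (G.al d) = x := by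
        intro d hd
        rw [hmA] at hd
        rcases hd with rfl | rfl | rfl | rfl
        · left; exact ha.2
        · right; rw [G.al_al a ha.1]; exact ha.2
        · left; exact hb.2
        · right; rw [G.al_al b hb.1]; exact hb.2
      refine ⟨M, hpm, ?_⟩
      intro Z hZ ho
      by_cases hxZ : x ∈ Z
      · have hK0 : K = ∅ := by
          rcases hxK with h1 | h1
          · exact absurd h1 (hZ.dis x hxZ)
          · exact h1
        have hZ' : G.Adm K F (G.vs \ Z) := by
          refine ⟨Finset.sdiff_subset, ?_, ?_⟩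
          · intro v _
            rw [hK0]
            simp
          · intro d hd hdZ
            rw [mem_sdiff] at hdZ ⊢
            refine ⟨G.pi_mem _ (G.al_mem d (hI.cls.Fsub hd)), fun h1 => hdZ.2 ?_⟩
            have h2 := hZ.clo (G.al d) (hI.cls.Fal d hd) h1
            rwa [G.al_al d (hI.cls.Fsub hd)] at h2
        have ho' : Odd (G.vs \ Z).card := by
          rw [Finset.card_sdiff_of_subset hZ.sub]
          have h1 := Finset.card_le_card hZ.sub
          have h2 := hI.even
          rw [Nat.odd_iff] at ho ⊢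
          rw [Nat.even_iff] at h2
          omega
        obtain ⟨d, hd, hdM⟩ := tok_hit G hI hAA hAd hxA hM hZ' ho' (by
          rw [mem_sdiff]
          exact fun h1 => h1.2 hxZ)
        unfold bd at hd
        rw [mem_filter, mem_sdiff, mem_sdiff] at hd
        obtain ⟨hd1, ⟨hd2, hd3⟩, hd4⟩ := hd
        refine ⟨G.al d, ?_, ?_⟩
        · unfold bd
          rw [mem_filter, G.al_al d hd1]
          refine ⟨G.al_mem d hd1, ?_, hd3⟩
          by_contra h1
          exact hd4 ⟨G.pi_mem _ (G.al_mem d hd1), h1⟩
        · intro h1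
          have h2 := hpm.closed _ h1
          rw [G.al_al d hd1] at h2
          exact hdM h2
      · exact tok_hit G hI hAA hAd hxA hM hZ ho hxZ

end JK.CG
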