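import Pool.Agent.Lib.JK.CutOne
import Pool.Agent.Lib.JK.Glue
import Pool.Agent.Lib.JK.Tok

/-! Even sets avoiding `K` with two boundary edges. -/

set_option autoImplicit false

namespace JK.CG

open Finset Classical

variable {V D : Type*} {G : CG V D} {K : Finset V} {F : Finset D}

/-- exactly two darts `p`, `q` leave `R` -/
structure RJ (G : CG V D) (R : Finset V) (p q : D) : Prop where
  sub : R ⊆ G.vs
  ne : p ≠ q
  bd : ∀ d, d ∈ G.bd R ↔ d = p ∨ d = q

namespace RJ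

variable {R : Finset V} {p q : D}

lemma mp (h : G.RJ R p q) : p ∈ G.ds ∧ G.pi p ∈ R ∧ G.pi (G.al p) ∉ R :=
  (G.mem_bd).1 ((h.bd p).2 (Or.inl rfl))

lemma mq (h : G.RJ R p q) : q ∈ G.ds ∧ G.pi q ∈ R ∧ G.pi (G.al q) ∉ R :=
  (G.mem_bd).1 ((h.bd q).2 (Or.inr rfl))

lemma in_of (h : G.RJ R p q) {d : D} (hd : d ∈ G.ds) (hR : G.pi d ∈ R) (hp : d ≠ p)
    (hq : d ≠ q) : G.pi (G.al d) ∈ R := by
  by_contra hc
  rcases (h.bd d).1 ((G.mem_bd).2 ⟨hd, hR, hc⟩) with h1 | h1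
  · exact hp h1
  · exact hq h1

lemma al_ne_p (h : G.RJ R p q) {d : D} (hd : d ∈ G.ds) (hR : G.pi d ∈ R) : G.al d ≠ p := by
  intro he
  apply h.mp.2.2
  rw [← he, G.al_al d hd]
  exact hR

lemma al_ne_q (h : G.RJ R p q) {d : D} (hd : d ∈ G.ds) (hR : G.pi d ∈ R) : G.al d ≠ q := by
  intro he
  apply h.mq.2.2
  rw [← he, G.al_al d hd]
  exact hR

/-- restrict `G` to `R` and join the two darts `p`, `q` to an edge -/
noncomputable def gr (h : G.RJ R p q) : CG V D where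
  vs := R
  ds := G.ds.filter fun d => G.pi d ∈ R
  pi := G.pi
  al := fun d => if d = p then q else if d = q then p else G.al d
  pi_mem := fun d hd => (mem_filter.1 hd).2
  al_mem := by
    intro d hd
    rw [mem_filter] at hd
    by_cases h1 : d = p
    · rw [if_pos h1]
      exact mem_filter.2 ⟨h.mq.1, h.mq.2.1⟩
    · rw [if_neg h1]
      by_cases h2 : d = q
      · rw [if_pos h2]
        exact mem_filter.2 ⟨h.mp.1, h.mp.2.1⟩
      · rw [if_neg h2]
        exact mem_filter.2 ⟨G.al_mem d hd.1, h.in_of hd.1 hd.2 h1 h2⟩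
  al_al := by
    intro d hd
    rw [mem_filter] at hd
    by_cases h1 : d = p
    · rw [if_pos h1, if_neg h.ne.symm, if_pos rfl, h1]
    · rw [if_neg h1]
      by_cases h2 : d = q
      · rw [if_pos h2, if_pos rfl, h2]
      · rw [if_neg h2, if_neg (h.al_ne_p hd.1 hd.2), if_neg (h.al_ne_q hd.1 hd.2), G.al_al d hd.1]
  cubic := by
    intro v hv
    rw [← G.cubic v (h.sub hv), filter_filter]
    congr 1
    ext d
    simp only [mem_filter]
    constructor
    · rintro ⟨h1, _, h3⟩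
      exact ⟨h1, h3⟩
    · rintro ⟨h1, h3⟩
      exact ⟨h1, by rw [h3]; exact hv, h3⟩

lemma gr_al_p (h : G.RJ R p q) : h.gr.al p = q := by
  show (if p = p then q else if p = q then p else G.al p) = q
  rw [if_pos rfl]

lemma gr_al_q (h : G.RJ R p q) : h.gr.al q = p := by
  show (if q = p then q else if q = q then p else G.al q) = p
  rw [if_neg h.ne.symm, if_pos rfl]

lemma gr_al_of (h : G.RJ R p q) {d : D} (hp : d ≠ p) (hq : d ≠ q) : h.gr.al d = G.al d := by
  show (if d = p then q else if d = q then p else G.al d) = G.al d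
  rw [if_neg hp, if_neg hq]

lemma mem_gr_ds (h : G.RJ R p q) {d : D} : d ∈ h.gr.ds ↔ d ∈ G.ds ∧ G.pi d ∈ R := by
  show d ∈ G.ds.filter (fun d => G.pi d ∈ R) ↔ _
  rw [mem_filter]

/-- boundary of a set which does not contain both ends of the new edge -/
lemma gr_bd (h : G.RJ R p q) {Y : Finset V} (hY : Y ⊆ R) (hn : ¬ (G.pi p ∈ Y ∧ G.pi q ∈ Y)) :
    h.gr.bd Y = G.bd Y := by
  ext d
  rw [mem_bd, mem_bd, h.mem_gr_ds]
  show (d ∈ G.ds ∧ G.pi d ∈ R) ∧ G.pi d ∈ Y ∧ G.pi (h.gr.al d) ∉ Y ↔ _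
  by_cases h1 : d = p
  · rw [h1, h.gr_al_p]
    constructor
    · rintro ⟨_, h3, _⟩
      exact ⟨h.mp.1, h3, fun h4 => h.mp.2.2 (hY h4)⟩
    · rintro ⟨_, h3, _⟩
      exact ⟨⟨h.mp.1, h.mp.2.1⟩, h3, fun h4 => hn ⟨h3, h4⟩⟩
  · by_cases h2 : d = q
    · rw [h2, h.gr_al_q]
      constructor
      · rintro ⟨_, h3, _⟩
        exact ⟨h.mq.1, h3, fun h4 => h.mq.2.2 (hY h4)⟩
      · rintro ⟨_, h3, _⟩
        exact ⟨⟨h.mq.1, h.mq.2.1⟩, h3, fun h4 => hn ⟨h4, h3⟩⟩
    · rw [h.gr_al_of h1 h2]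
      constructor
      · rintro ⟨⟨h3, _⟩, h4, h5⟩
        exact ⟨h3, h4, h5⟩
      · rintro ⟨h3, h4, h5⟩
        exact ⟨⟨h3, hY h4⟩, h4, h5⟩

lemma gr_tk (h : G.RJ R p q) {Y : Finset V} (hY : Y ⊆ R) : h.gr.tk Y = G.tk Y := by
  ext d
  rw [mem_tk, mem_tk, h.mem_gr_ds]
  show (d ∈ G.ds ∧ G.pi d ∈ R) ∧ G.pi d ∈ Y ∧ h.gr.al d = d ↔ _
  by_cases h1 : d = p
  · rw [h1, h.gr_al_p]
    constructor
    · rintro ⟨_, _, h4⟩
      exact absurd h4 h.ne.symm
    · rintro ⟨_, _, h4⟩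
      exact absurd h.mp.2.1 (by rw [← h4]; exact h.mp.2.2)
  · by_cases h2 : d = q
    · rw [h2, h.gr_al_q]
      constructor
      · rintro ⟨_, _, h4⟩
        exact absurd h4 h.ne
      · rintro ⟨_, _, h4⟩
        exact absurd h.mq.2.1 (by rw [← h4]; exact h.mq.2.2)
    · rw [h.gr_al_of h1 h2]
      constructor
      · rintro ⟨⟨h3, _⟩, h4, h5⟩
        exact ⟨h3, h4, h5⟩
      · rintro ⟨h3, h4, h5⟩
        exact ⟨⟨h3, hY h4⟩, h4, h5⟩

/-- boundary of a set containing both ends: pass to the complement in `R` -/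
lemma gr_bd_both (h : G.RJ R p q) {Y : Finset V} (hY : Y ⊆ R) (hn : G.pi p ∈ Y) :
    (h.gr.bd Y).card = (G.bd (R \ Y)).card := by
  have h1 : Y ⊆ h.gr.vs := hY
  rw [← h.gr.bd_compl h1]
  show (h.gr.bd (R \ Y)).card = _
  rw [h.gr_bd sdiff_subset]
  rintro ⟨h2, _⟩
  exact (mem_sdiff.1 h2).2 hn

/-- the number of edges leaving `Y ∪ (vs \ R)` -/
lemma bd_out (h : G.RJ R p q) {Y : Finset V} (hY : Y ⊆ R) (hn : G.pi p ∈ Y) :
    (h.gr.bd Y).card = (G.bd (Y ∪ (G.vs \ R))).card := by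
  rw [h.gr_bd_both hY hn]
  have h1 : Y ∪ (G.vs \ R) ⊆ G.vs := union_subset (hY.trans h.sub) sdiff_subset
  rw [← G.bd_compl h1]
  congr 2
  ext v
  simp only [mem_sdiff, mem_union, not_or, not_and, not_not]
  constructor
  · rintro ⟨h2, h3⟩
    exact ⟨h.sub h2, h3, fun _ => h2⟩
  · rintro ⟨h2, h3, h4⟩
    exact ⟨h4 h2, h3⟩

lemma gr_cls (h : G.RJ R p q) (hc : G.Cls K F) (hF : p ∈ F ↔ q ∈ F) :
    h.gr.Cls (K ∩ R) (F.filter fun d => G.pi d ∈ R) where
  Ksub := inter_subset_right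
  Fsub := by
    intro d hd
    rw [mem_filter] at hd
    exact (h.mem_gr_ds).2 ⟨hc.Fsub hd.1, hd.2⟩
  Fal := by
    intro d hd
    rw [mem_filter] at hd ⊢
    by_cases h1 : d = p
    · rw [h1, h.gr_al_p]
      exact ⟨hF.1 (h1 ▸ hd.1), h.mq.2.1⟩
    · by_cases h2 : d = q
      · rw [h2, h.gr_al_q]
        exact ⟨hF.2 (h2 ▸ hd.1), h.mp.2.1⟩
      · rw [h.gr_al_of h1 h2]
        exact ⟨hc.Fal d hd.1, h.in_of (hc.Fsub hd.1) hd.2 h1 h2⟩
  Ftok := by
    intro d hd
    rw [mem_filter] at hd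
    by_cases h1 : d = p
    · rw [h1, h.gr_al_p]
      exact h.ne.symm
    · by_cases h2 : d = q
      · rw [h2, h.gr_al_q]
        exact h.ne
      · rw [h.gr_al_of h1 h2]
        exact hc.Ftok d hd.1
  F2 := by
    intro v hv hvK
    have hv' : v ∈ R := hv
    rw [← hc.F2 v (h.sub hv') (fun h1 => hvK (mem_inter.2 ⟨h1, hv'⟩))]
    show ((F.filter fun d => G.pi d ∈ R).filter fun d => G.pi d = v).card = _
    congr 1
    ext d
    simp only [mem_filter]
    constructor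
    · rintro ⟨⟨h1, _⟩, h2⟩
      exact ⟨h1, h2⟩
    · rintro ⟨h1, h2⟩
      exact ⟨⟨h1, by rw [h2]; exact hv'⟩, h2⟩
  tokK := by
    intro d hd ht
    rw [h.mem_gr_ds] at hd
    show G.pi d ∈ _
    have h1 : d ∈ h.gr.tk R := (mem_tk _).2 ⟨(h.mem_gr_ds).2 hd, hd.2, ht⟩
    rw [h.gr_tk (subset_refl _), mem_tk] at h1
    exact mem_inter.2 ⟨hc.tokK d hd.1 h1.2.2, hd.2⟩

/-- unions of fresh circuits not containing both ends of the new edge -/
lemma adm_of (h : G.RJ R p q) {Z : Finset V}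
    (hZ : h.gr.Adm (K ∩ R) (F.filter fun d => G.pi d ∈ R) Z)
    (hn : ¬ (G.pi p ∈ Z ∧ G.pi q ∈ Z)) : G.Adm K F Z := by
  have hs : Z ⊆ R := hZ.sub
  refine ⟨hs.trans h.sub, fun v hv hK => hZ.dis v hv (mem_inter.2 ⟨hK, hs hv⟩), ?_⟩
  intro d hd hdZ
  have h1 := hZ.clo d (mem_filter.2 ⟨hd, hs hdZ⟩) hdZ
  by_cases h2 : d = p
  · rw [h2, h.gr_al_p] at h1
    rw [h2] at hdZ
    exact absurd ⟨hdZ, h1⟩ hn
  · by_cases h3 : d = q
    · rw [h3, h.gr_al_q] at h1
      rw [h3] at hdZ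
      exact absurd ⟨h1, hdZ⟩ hn
    · rw [h.gr_al_of h2 h3] at h1
      exact h1

/-- restricting a union of fresh circuits -/
lemma adm_gr (h : G.RJ R p q) {Z : Finset V} (hs : Z ⊆ R) (hK : ∀ v ∈ Z, v ∉ K)
    (hcl : ∀ d ∈ F, G.pi d ∈ Z → d ≠ p → d ≠ q → G.pi (G.al d) ∈ Z)
    (hpq : p ∈ F → (G.pi p ∈ Z ↔ G.pi q ∈ Z)) (hF : p ∈ F ↔ q ∈ F) :
    h.gr.Adm (K ∩ R) (F.filter fun d => G.pi d ∈ R) Z := by
  refine ⟨hs, fun v hv h1 => hK v hv (mem_inter.1 h1).1, ?_⟩
  intro d hd hdZ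
  rw [mem_filter] at hd
  show G.pi (h.gr.al d) ∈ Z
  have hdZ' : G.pi d ∈ Z := hdZ
  by_cases h1 : d = p
  · rw [h1, h.gr_al_p]
    rw [h1] at hdZ' hd
    exact (hpq hd.1).1 hdZ'
  · by_cases h2 : d = q
    · rw [h2, h.gr_al_q]
      rw [h2] at hdZ' hd
      exact (hpq (hF.2 hd.1)).2 hdZ'
    · rw [h.gr_al_of h1 h2]
      exact hcl d hd.1 hdZ' h1 h2

/-- outside part: the rest has even size and avoids `K` -/
lemma inst_out (h : G.RJ R p q) (hI : G.Inst K F) (hF : p ∈ F ↔ q ∈ F)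
    (he : Even (G.vs \ R).card) (hK : ∀ v ∈ G.vs \ R, v ∉ K) :
    h.gr.Inst (K ∩ R) (F.filter fun d => G.pi d ∈ R) := by
  have htX : G.tk (G.vs \ R) = ∅ := by
    rw [eq_empty_iff_forall_notMem]
    intro d hd
    rw [mem_tk] at hd
    exact hK _ hd.2.1 (hI.cls.tokK d hd.1 hd.2.2)
  have hcard : ∀ Y ⊆ R, (Y ∪ (G.vs \ R)).card = Y.card + (G.vs \ R).card := by
    intro Y hY
    apply card_union_of_disjoint
    rw [disjoint_left]
    intro v hv h1
    exact (mem_sdiff.1 h1).2 (hY hv)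
  have hodd : ∀ Y ⊆ R, Odd Y.card → Odd (Y ∪ (G.vs \ R)).card := by
    intro Y hY ho
    rw [hcard Y hY]
    exact ho.add_even he
  refine ⟨?_, ?_, ?_, h.gr_cls hI.cls hF, ?_⟩
  · show Even R.card
    have h1 := card_sdiff_add_card_eq_card h.sub
    have h2 := hI.even
    rw [← h1, Nat.even_add] at h2
    exact h2.1 he
  · show (h.gr.tk R).card ≤ 4
    rw [h.gr_tk (subset_refl _)]
    exact (card_le_card (by
      intro d hd
      rw [mem_tk] at hd ⊢
      exact ⟨hd.1, h.sub hd.2.1, hd.2.2⟩)).trans hI.four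
  · intro Y hY ho
    have hY' : Y ⊆ R := hY
    by_cases hn : G.pi p ∈ Y ∧ G.pi q ∈ Y
    · have h1 := hI.b0 _ (union_subset (hY'.trans h.sub) sdiff_subset) (hodd Y hY' ho)
      unfold dg at h1 ⊢
      rw [h.bd_out hY' hn.1, h.gr_tk hY']
      have h2 : G.tk (Y ∪ (G.vs \ R)) ⊆ G.tk Y := by
        intro d hd
        rw [mem_tk, mem_union] at hd
        rcases hd.2.1 with h3 | h3
        · exact (G.mem_tk).2 ⟨hd.1, h3, hd.2.2⟩
        · have : d ∈ G.tk (G.vs \ R) := (G.mem_tk).2 ⟨hd.1, h3, hd.2.2⟩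
          rw [htX] at this
          exact absurd this (notMem_empty _)
      have h3 := card_le_card h2
      omega
    · have h1 := hI.b0 Y (hY'.trans h.sub) ho
      unfold dg at h1 ⊢
      rw [h.gr_bd hY' hn, h.gr_tk hY']
      exact h1
  · intro Z hZ ho
    have hs : Z ⊆ R := hZ.sub
    by_cases hn : G.pi p ∈ Z ∧ G.pi q ∈ Z
    · rw [h.bd_out hs hn.1]
      refine hI.cc _ ⟨union_subset (hs.trans h.sub) sdiff_subset, ?_, ?_⟩ (hodd Z hs ho)
      · intro v hv h1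
        rw [mem_union] at hv
        rcases hv with h2 | h2
        · exact hZ.dis v h2 (mem_inter.2 ⟨h1, hs h2⟩)
        · exact hK v h2 h1
      · intro d hd hdZ
        rw [mem_union] at hdZ ⊢
        have hds := hI.cls.Fsub hd
        by_cases h3 : G.pi (G.al d) ∈ G.vs \ R
        · exact Or.inr h3
        · left
          have h4 : G.pi (G.al d) ∈ R := by
            by_contra hc
            exact h3 (mem_sdiff.2 ⟨G.pi_mem _ (G.al_mem d hds), hc⟩)
          rcases hdZ with h5 | h5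
          · have h6 := hZ.clo d (mem_filter.2 ⟨hd, hs h5⟩) h5
            have h7 : d ≠ p := fun he => h.mp.2.2 (he ▸ h4)
            have h8 : d ≠ q := fun he => h.mq.2.2 (he ▸ h4)
            rw [h.gr_al_of h7 h8] at h6
            exact h6
          · have h6 : G.al d ∈ G.bd R := (G.mem_bd).2
              ⟨G.al_mem d hds, h4, by rw [G.al_al d hds]; exact (mem_sdiff.1 h5).2⟩
            rcases (h.bd _).1 h6 with h7 | h7
            · rw [h7]; exact hn.1
            · rw [h7]; exact hn.2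
    · rw [h.gr_bd hs hn]
      exact hI.cc Z (h.adm_of hZ hn) ho

/-- inside part: `R` has even size and avoids `K` -/
lemma inst_in (h : G.RJ R p q) (hI : G.Inst K F) (hF : p ∈ F ↔ q ∈ F)
    (he : Even R.card) (hK : ∀ v ∈ R, v ∉ K) :
    h.gr.Inst (K ∩ R) (F.filter fun d => G.pi d ∈ R) ∧ h.gr.tk R = ∅ := by
  have htX : h.gr.tk R = ∅ := by
    rw [h.gr_tk (subset_refl _), eq_empty_iff_forall_notMem]
    intro d hd
    rw [mem_tk] at hd
    exact hK _ hd.2.1 (hI.cls.tokK d hd.1 hd.2.2)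
  have hodd : ∀ Y ⊆ R, Odd Y.card → Odd (R \ Y).card := by
    intro Y hY ho
    have h1 := card_sdiff_add_card_eq_card hY
    rw [← h1, Nat.even_add'] at he
    exact he.2 ho
  have hnp : ∀ Y : Finset V, G.pi p ∈ Y ∧ G.pi q ∈ Y → ¬ (G.pi p ∈ R \ Y ∧ G.pi q ∈ R \ Y) := by
    intro Y hn h2
    exact (mem_sdiff.1 h2.1).2 hn.1
  refine ⟨⟨he, ?_, ?_, h.gr_cls hI.cls hF, ?_⟩, htX⟩
  · show (h.gr.tk R).card ≤ 4
    rw [htX]
    simp
  · intro Y hY ho
    have hY' : Y ⊆ R := hY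
    by_cases hn : G.pi p ∈ Y ∧ G.pi q ∈ Y
    · have h1 := hI.b0 _ (sdiff_subset.trans h.sub) (hodd Y hY' ho)
      have h2 : G.tk (R \ Y) = ∅ := by
        rw [eq_empty_iff_forall_notMem]
        intro d hd
        rw [mem_tk] at hd
        exact hK _ (mem_sdiff.1 hd.2.1).1 (hI.cls.tokK d hd.1 hd.2.2)
      unfold dg at h1 ⊢
      rw [h.gr_bd_both hY' hn.1]
      rw [h2, card_empty] at h1
      omega
    · have h1 := hI.b0 Y (hY'.trans h.sub) ho
      unfold dg at h1 ⊢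
      rw [h.gr_bd hY' hn, h.gr_tk hY']
      exact h1
  · intro Z hZ ho
    have hs : Z ⊆ R := hZ.sub
    by_cases hn : G.pi p ∈ Z ∧ G.pi q ∈ Z
    · rw [h.gr_bd_both hs hn.1]
      refine hI.cc _ ⟨sdiff_subset.trans h.sub, fun v hv => hK v (mem_sdiff.1 hv).1, ?_⟩
        (hodd Z hs ho)
      intro d hd hdZ
      rw [mem_sdiff] at hdZ ⊢
      have hds := hI.cls.Fsub hd
      have h7 : d ≠ p := fun he => hdZ.2 (he ▸ hn.1)
      have h8 : d ≠ q := fun he => hdZ.2 (he ▸ hn.2)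
      refine ⟨h.in_of hds hdZ.1 h7 h8, fun h3 => hdZ.2 ?_⟩
      have h6 := hZ.clo (G.al d) (mem_filter.2 ⟨hI.cls.Fal d hd, hs h3⟩) h3
      rw [h.gr_al_of (h.al_ne_p hds hdZ.1) (h.al_ne_q hds hdZ.1), G.al_al d hds] at h6
      exact h6
    · rw [h.gr_bd hs hn]
      exact hI.cc Z (h.adm_of hZ hn) ho

lemma symm (h : G.RJ R p q) : G.RJ R q p :=
  ⟨h.sub, h.ne.symm, fun d => by rw [h.bd d, or_comm]⟩

/-- the complement -/
lemma compl (h : G.RJ R p q) : G.RJ (G.vs \ R) (G.al p) (G.al q) := by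
  refine ⟨sdiff_subset, ?_, ?_⟩
  · intro he
    apply h.ne
    rw [← G.al_al p h.mp.1, he, G.al_al q h.mq.1]
  · intro d
    rw [G.bd_compl_eq h.sub, mem_image]
    constructor
    · rintro ⟨e, he, rfl⟩
      rcases (h.bd e).1 he with rfl | rfl
      · exact Or.inl rfl
      · exact Or.inr rfl
    · rintro (rfl | rfl)
      · exact ⟨p, (h.bd p).2 (Or.inl rfl), rfl⟩
      · exact ⟨q, (h.bd q).2 (Or.inr rfl), rfl⟩

/-- cutting the two other edges at `pi p`: a good matching of the inside part using the new edge -/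
lemma good_in (h : G.RJ R p q) (hI : G.Inst K F) (hF : p ∈ F ↔ q ∈ F)
    (he : Even R.card) (hK : ∀ v ∈ R, v ∉ K) (ih : IH G.vs.card V D) (hlt : R.card < G.vs.card) :
    ∃ M, h.gr.IsPM M ∧ p ∈ M ∧ ∀ Z, h.gr.Adm (K ∩ R) (F.filter fun d => G.pi d ∈ R) Z →
      Odd Z.card → G.pi p ∉ Z → ∃ d ∈ h.gr.bd Z, d ∉ M := by
  obtain ⟨hJ, htk⟩ := h.inst_in hI hF he hK
  set b := G.pi p with hb
  have hbR : b ∈ R := h.mp.2.1
  set A : Finset D := h.gr.ds.filter
    (fun d => (G.pi d = b ∨ G.pi (h.gr.al d) = b) ∧ d ≠ p ∧ d ≠ q) with hAdef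
  have hA : ∀ d ∈ A, h.gr.al d ∈ A := by
    intro d hd
    rw [hAdef, mem_filter] at hd ⊢
    obtain ⟨h1, h2, h3, h4⟩ := hd
    refine ⟨h.gr.al_mem d h1, ?_, ?_, ?_⟩
    · rw [h.gr.al_al d h1]
      exact h2.symm
    · intro h5
      apply h4
      rw [← h.gr.al_al d h1, h5, h.gr_al_p]
    · intro h5
      apply h3
      rw [← h.gr.al_al d h1, h5, h.gr_al_q]
  have hAd : A ⊆ h.gr.ds := filter_subset _ _
  have hn : ∀ d ∈ A, h.gr.al d ≠ d := by
    intro d hd h1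
    have h2 : d ∈ h.gr.tk R := (mem_tk _).2 ⟨hAd hd, ((h.mem_gr_ds).1 (hAd hd)).2, h1⟩
    rw [htk] at h2
    exact absurd h2 (notMem_empty _)
  have hc : (h.gr.tk h.gr.vs).card + A.card ≤ 4 := by
    have h0 : (h.gr.tk h.gr.vs).card = 0 := by
      show (h.gr.tk R).card = 0
      rw [htk, card_empty]
    set S : Finset D := (h.gr.ds.filter fun d => h.gr.pi d = b).erase p with hS
    have hSc : S.card = 2 := by
      rw [hS, card_erase_of_mem, h.gr.cubic b hbR]
      exact mem_filter.2 ⟨(h.mem_gr_ds).2 ⟨h.mp.1, h.mp.2.1⟩, rfl⟩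
    have h1 : A ⊆ S ∪ S.image h.gr.al := by
      intro d hd
      have hd' := hA d hd
      rw [hAdef, mem_filter] at hd hd'
      rw [mem_union, mem_image]
      rcases hd.2.1 with h2 | h2
      · left
        exact mem_erase.2 ⟨hd.2.2.1, mem_filter.2 ⟨hd.1, h2⟩⟩
      · right
        exact ⟨h.gr.al d, mem_erase.2 ⟨hd'.2.2.1, mem_filter.2 ⟨hd'.1, h2⟩⟩, h.gr.al_al d hd.1⟩
    have h2 := (card_le_card h1).trans (card_union_le _ _)
    have h3 : (S.image h.gr.al).card ≤ S.card := card_image_le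
    omega
  have hI2 := tok_cut h.gr hJ hA hAd hn hc
  obtain ⟨M, hM⟩ := ih _ _ _ (by
    show R.card < G.vs.card
    exact hlt) hI2
  have hpm := (cutS_pm hA).1 hM.pm
  refine ⟨M, hpm.1, ?_, ?_⟩
  · have h1 := hpm.1.one b hbR
    have h2 : (M.filter fun d => h.gr.pi d = b).Nonempty := by
      rw [← card_pos, h1]
      exact one_pos
    obtain ⟨d, hd⟩ := h2
    rw [mem_filter] at hd
    have hds := hpm.1.sub hd.1
    by_cases h3 : d = p
    · rw [← h3]; exact hd.1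
    · by_cases h4 : d = q
      · have h5 := hpm.1.closed d hd.1
        rw [h4, h.gr_al_q] at h5
        exact h5
      · exact absurd hd.1 (hpm.2 d (mem_filter.2 ⟨hds, Or.inl hd.2, h3, h4⟩))
  · intro Z hZ ho hbZ
    refine tok_hit h.gr hJ hA hAd (x := b) ?_ hM hZ ho hbZ
    intro d hd
    rw [hAdef, mem_filter] at hd
    exact hd.2.1

end RJ

/-- gluing perfect matchings of the two sides -/
lemma pm_sides {X : Finset V} {M1 M2 : Finset D}
    (s1 : ∀ d ∈ M1, d ∈ G.ds ∧ G.pi d ∉ X) (s2 : ∀ d ∈ M2, d ∈ G.ds ∧ G.pi d ∈ X)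
    (c1 : ∀ d ∈ M1, G.al d ∈ M1 ∪ M2) (c2 : ∀ d ∈ M2, G.al d ∈ M1 ∪ M2)
    (n1 : ∀ d ∈ M1, G.al d ≠ d) (n2 : ∀ d ∈ M2, G.al d ≠ d)
    (o1 : ∀ v ∈ G.vs, v ∉ X → (M1.filter fun d => G.pi d = v).card = 1)
    (o2 : ∀ v ∈ G.vs, v ∈ X → (M2.filter fun d => G.pi d = v).card = 1) :
    G.IsPM (M1 ∪ M2) := by
  refine ⟨?_, ?_, ?_, ?_⟩
  · exact union_subset (fun d hd => (s1 d hd).1) (fun d hd => (s2 d hd).1)
  · intro d hd
    rcases mem_union.1 hd with h | h
    · exact c1 d h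
    · exact c2 d h
  · intro d hd
    rcases mem_union.1 hd with h | h
    · exact n1 d h
    · exact n2 d h
  · intro v hv
    rw [filter_union]
    by_cases hX : v ∈ X
    · have e1 : (M1.filter fun d => G.pi d = v) = ∅ := by
        apply filter_false_of_mem
        intro d hd h1
        exact (s1 d hd).2 (h1 ▸ hX)
      rw [e1, empty_union]
      exact o2 v hv hX
    · have e1 : (M2.filter fun d => G.pi d = v) = ∅ := by
        apply filter_false_of_mem
        intro d hd h1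
        exact hX (h1 ▸ (s2 d hd).2)
      rw [e1, union_empty]
      exact o1 v hv hX

/-- In a minimal counterexample a non-empty even set avoiding `K` has at least four boundary
edges. -/
lemma MC.four_le_bd (h : G.MC K F) {X : Finset V} (hX : X ⊆ G.vs) (he : Even X.card)
    (hne : X.Nonempty) (hK : ∀ v ∈ X, v ∉ K) : 4 ≤ (G.bd X).card := by
  have hI := h.inst
  -- no tokens in `X`
  have htX : G.tk X = ∅ := by
    rw [eq_empty_iff_forall_notMem]
    intro d hd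
    rw [mem_tk] at hd
    exact hK _ hd.2.1 (hI.cls.tokK d hd.1 hd.2.2)
  have hXne : X ≠ G.vs := by
    intro h1
    have h2 := h.four
    rw [← h1, htX, card_empty] at h2
    omega
  have h2 := h.two_le_bd hX he hne hXne
  by_contra hcon
  have hpar : Even (G.bd X).card := by
    have h3 := G.dg_parity hX
    unfold dg at h3
    rw [htX, card_empty, add_zero] at h3
    by_contra h4
    exact (Nat.not_odd_iff_even.2 he) (h3.1 (Nat.not_even_iff_odd.1 h4))
  have hc2 : (G.bd X).card = 2 := by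
    obtain ⟨k, hk⟩ := hpar
    omega
  obtain ⟨p, q, hpq, hbdX⟩ := card_eq_two.1 hc2
  have hin : G.RJ X p q := by
    refine ⟨hX, hpq, ?_⟩
    intro d
    rw [hbdX, mem_insert, mem_singleton]
  have hout : G.RJ (G.vs \ X) (G.al p) (G.al q) := hin.compl
  have hcl := hI.cls
  have hFev : ∀ p q, G.RJ X p q → p ∈ F → q ∈ F := by
    intro p q hR hp
    by_contra hq
    have h3 := hcl.even_cross hX hK
    have h4 : (F.filter fun d => G.pi d ∈ X ∧ G.pi (G.al d) ∉ X) = {p} := by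
      ext d
      rw [mem_filter, mem_singleton]
      constructor
      · rintro ⟨h5, h6, h7⟩
        rcases (hR.bd d).1 ((G.mem_bd).2 ⟨hcl.Fsub h5, h6, h7⟩) with h8 | h8
        · exact h8
        · exact absurd (h8 ▸ h5) hq
      · rintro rfl
        exact ⟨hp, hR.mp.2⟩
    rw [h4, card_singleton] at h3
    exact absurd h3 (by decide)
  have hFin : p ∈ F ↔ q ∈ F := ⟨hFev p q hin, hFev q p hin.symm⟩
  have hFal : ∀ d ∈ G.ds, (G.al d ∈ F ↔ d ∈ F) := by
    intro d hd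
    constructor
    · intro h3
      have h4 := hcl.Fal _ h3
      rwa [G.al_al d hd] at h4
    · exact hcl.Fal d
  have hFout : G.al p ∈ F ↔ G.al q ∈ F := by
    rw [hFal p hin.mp.1, hFal q hin.mq.1]
    exact hFin
  have hss : G.vs \ (G.vs \ X) = X := Finset.sdiff_sdiff_eq_self hX
  have hcard := card_sdiff_add_card_eq_card hX
  have hXpos : 0 < X.card := card_pos.2 hne
  have hltX : X.card < G.vs.card := by
    have h3 := card_lt_card (Finset.ssubset_iff_subset_ne.2 ⟨hX, hXne⟩)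
    exact h3
  -- the outside part
  obtain ⟨M1, hM1⟩ := h.ih hout.gr _ _ (by
    show (G.vs \ X).card < G.vs.card
    omega) (hout.inst_out hI hFout (by rw [hss]; exact he) (by rw [hss]; exact hK))
  have s1 : ∀ d ∈ M1, d ∈ G.ds ∧ G.pi d ∉ X := by
    intro d hd
    have h3 := (hout.mem_gr_ds).1 (hM1.pm.sub hd)
    exact ⟨h3.1, (mem_sdiff.1 h3.2).2⟩
  have o1 : ∀ v ∈ G.vs, v ∉ X → (M1.filter fun d => G.pi d = v).card = 1 := by
    intro v hv hvX
    exact hM1.pm.one v (mem_sdiff.2 ⟨hv, hvX⟩)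
  have hpX := hin.mp
  have hqX := hin.mq
  have hne1 : ∀ d ∈ G.ds, G.pi d ∉ X → d ≠ G.al p → d ≠ G.al q → G.pi (G.al d) ∉ X := by
    intro d hd h3 h4 h5
    have h6 := hout.in_of hd (mem_sdiff.2 ⟨G.pi_mem d hd, h3⟩) h4 h5
    exact (mem_sdiff.1 h6).2
  have hmem1 : G.al p ∈ M1 ↔ G.al q ∈ M1 := by
    constructor
    · intro h3
      have h4 := hM1.pm.closed _ h3
      rwa [hout.gr_al_p] at h4
    · intro h3
      have h4 := hM1.pm.closed _ h3
      rwa [hout.gr_al_q] at h4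
  -- parts of an odd union
  have hodd : ∀ Z : Finset V, Odd Z.card → ¬ Odd (Z \ X).card → Odd (Z ∩ X).card := by
    intro Z ho h3
    have h4 := card_sdiff_add_card_inter Z X
    rw [← h4, Nat.odd_add] at ho
    by_contra h5
    exact h3 (ho.2 (Nat.not_odd_iff_even.1 h5))
  have hodd' : ∀ Z : Finset V, Odd (Z ∩ X).card → Odd (X \ Z).card := by
    intro Z h3
    have h4 := card_sdiff_add_card_inter X Z
    rw [inter_comm X Z] at h4
    rw [← h4, Nat.even_add'] at he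
    exact he.2 h3
  -- `Z \ X` is admissible outside
  have adm1 : ∀ Z, G.Adm K F Z → (p ∈ F → (G.pi (G.al p) ∈ Z ↔ G.pi (G.al q) ∈ Z)) →
      hout.gr.Adm (K ∩ (G.vs \ X)) (F.filter fun d => G.pi d ∈ G.vs \ X) (Z \ X) := by
    intro Z hZ hpqZ
    refine hout.adm_gr ?_ ?_ ?_ ?_ hFout
    · intro v hv
      rw [mem_sdiff] at hv
      exact mem_sdiff.2 ⟨hZ.sub hv.1, hv.2⟩
    · intro v hv
      exact hZ.dis v (mem_sdiff.1 hv).1
    · intro d hd hdZ h3 h4
      rw [mem_sdiff] at hdZ ⊢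
      exact ⟨hZ.clo d hd hdZ.1, hne1 d (hcl.Fsub hd) hdZ.2 h3 h4⟩
    · intro h3
      have h4 := hpqZ ((hFal p hpX.1).1 h3)
      rw [mem_sdiff, mem_sdiff]
      constructor
      · rintro ⟨h5, _⟩
        exact ⟨h4.1 h5, hqX.2.2⟩
      · rintro ⟨h5, _⟩
        exact ⟨h4.2 h5, hpX.2.2⟩
  by_cases hα : G.al p ∈ M1
  · -- the cut edges are in the matching
    have hα' := hmem1.1 hα
    obtain ⟨M2, hM2, hβ, hhit⟩ := hin.good_in hI hFin he hK h.ih hltX
    have hβ' : q ∈ M2 := by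
      have h3 := hM2.closed _ hβ
      rwa [hin.gr_al_p] at h3
    have s2 : ∀ d ∈ M2, d ∈ G.ds ∧ G.pi d ∈ X := fun d hd => (hin.mem_gr_ds).1 (hM2.sub hd)
    have hpm : G.IsPM (M1 ∪ M2) := by
      refine pm_sides s1 s2 ?_ ?_ ?_ ?_ o1 ?_
      · intro d hd
        rw [mem_union]
        by_cases h3 : d = G.al p
        · rw [h3, G.al_al p hpX.1]; exact Or.inr hβ
        · by_cases h4 : d = G.al q
          · rw [h4, G.al_al q hqX.1]; exact Or.inr hβ'
          · have h5 := hM1.pm.closed d hd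
            rw [hout.gr_al_of h3 h4] at h5
            exact Or.inl h5
      · intro d hd
        rw [mem_union]
        by_cases h3 : d = p
        · rw [h3]; exact Or.inl hα
        · by_cases h4 : d = q
          · rw [h4]; exact Or.inl hα'
          · have h5 := hM2.closed d hd
            rw [hin.gr_al_of h3 h4] at h5
            exact Or.inr h5
      · intro d hd
        by_cases h3 : d = G.al p
        · rw [h3, G.al_al p hpX.1]
          intro h6
          exact hpX.2.2 (by rw [← h6]; exact hpX.2.1)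
        · by_cases h4 : d = G.al q
          · rw [h4, G.al_al q hqX.1]
            intro h6
            exact hqX.2.2 (by rw [← h6]; exact hqX.2.1)
          · have h5 := hM1.pm.notok d hd
            rwa [hout.gr_al_of h3 h4] at h5
      · intro d hd
        by_cases h3 : d = p
        · rw [h3]
          intro h6
          exact hpX.2.2 (by rw [h6]; exact hpX.2.1)
        · by_cases h4 : d = q
          · rw [h4]
            intro h6
            exact hqX.2.2 (by rw [h6]; exact hqX.2.1)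
          · have h5 := hM2.notok d hd
            rwa [hin.gr_al_of h3 h4] at h5
      · intro v _ hvX
        exact hM2.one v hvX
    have m1 : ∀ d, d ∈ M1 ∪ M2 → G.pi d ∉ X → d ∈ M1 := by
      intro d hd h3
      rcases mem_union.1 hd with h4 | h4
      · exact h4
      · exact absurd (s2 d h4).2 h3
    have m2 : ∀ d, d ∈ M1 ∪ M2 → G.pi d ∈ X → d ∈ M2 := by
      intro d hd h3
      rcases mem_union.1 hd with h4 | h4
      · exact absurd h3 (s1 d h4).2
      · exact h4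
    refine h.no ⟨M1 ∪ M2, hpm, ?_⟩
    intro Z hZ ho
    by_contra hno
    push Not at hno
    have hFZ : ∀ p q, G.RJ X p q → p ∈ F → G.pi p ∈ Z → G.pi q ∈ Z := by
      intro p q hR hp hpZ
      by_contra hqZ
      have h3 := hcl.even_cross (Y := Z ∩ X) (inter_subset_right.trans hX)
        (fun v hv => hK v (mem_inter.1 hv).2)
      have h4 : (F.filter fun d => G.pi d ∈ Z ∩ X ∧ G.pi (G.al d) ∉ Z ∩ X) = {p} := by
        ext d
        rw [mem_filter, mem_singleton, mem_inter, mem_inter]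
        constructor
        · rintro ⟨h5, ⟨h6, h6'⟩, h7⟩
          have h9 := hZ.clo d h5 h6
          rcases (hR.bd d).1 ((G.mem_bd).2 ⟨hcl.Fsub h5, h6', fun h10 => h7 ⟨h9, h10⟩⟩)
            with h8 | h8
          · exact h8
          · exact absurd (h8 ▸ h6) hqZ
        · rintro rfl
          exact ⟨hp, ⟨hpZ, hR.mp.2.1⟩, fun h5 => hR.mp.2.2 h5.2⟩
      rw [h4, card_singleton] at h3
      exact absurd h3 (by decide)
    have hFZ1 : p ∈ F → (G.pi p ∈ Z ↔ G.pi q ∈ Z) := fun h3 =>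
      ⟨hFZ p q hin h3, hFZ q p hin.symm (hFin.1 h3)⟩
    have hcr : ∀ d ∈ F, (G.pi (G.al d) ∈ Z ↔ G.pi d ∈ Z) := by
      intro d hd
      constructor
      · intro h3
        have h4 := hZ.clo _ (hcl.Fal d hd) h3
        rwa [G.al_al d (hcl.Fsub hd)] at h4
      · exact hZ.clo d hd
    have hev : ¬ Odd (Z \ X).card := by
      intro ho1
      obtain ⟨d, hd, hdM⟩ := hM1.hit _ (adm1 Z hZ (by
        intro h3
        rw [hcr p h3, hcr q (hFin.1 h3)]
        exact hFZ1 h3)) ho1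
      rw [mem_bd, hout.mem_gr_ds] at hd
      obtain ⟨⟨h3, _⟩, h4, h5⟩ := hd
      have h6 : d ≠ G.al p := fun h7 => hdM (h7 ▸ hα)
      have h7 : d ≠ G.al q := fun h8 => hdM (h8 ▸ hα')
      rw [hout.gr_al_of h6 h7] at h5
      have h4' : G.pi d ∈ Z \ X := h4
      have h5' : G.pi (G.al d) ∉ Z \ X := h5
      rw [mem_sdiff] at h4' h5'
      have h8 := hne1 d h3 h4'.2 h6 h7
      exact hdM (m1 d (hno d ((G.mem_bd).2 ⟨h3, h4'.1, fun h9 => h5' ⟨h9, h8⟩⟩)) h4'.2)
    have hoX := hodd Z ho hev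
    have hoX' := hodd' Z hoX
    by_cases hb : G.pi p ∈ Z
    · -- use `X \ Z`
      obtain ⟨d, hd, hdM⟩ := hhit (X \ Z) (by
        refine hin.adm_gr sdiff_subset (fun v hv => hK v (mem_sdiff.1 hv).1) ?_ ?_ hFin
        · intro d hd hdZ h3 h4
          rw [mem_sdiff] at hdZ ⊢
          refine ⟨hin.in_of (hcl.Fsub hd) hdZ.1 h3 h4, fun h5 => hdZ.2 ((hcr d hd).1 h5)⟩
        · intro h3
          rw [mem_sdiff, mem_sdiff]
          have h4 := hFZ1 h3
          constructor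
          · rintro ⟨_, h6⟩
            exact ⟨hqX.2.1, fun h7 => h6 (h4.2 h7)⟩
          · rintro ⟨_, h6⟩
            exact ⟨hpX.2.1, fun h7 => h6 (h4.1 h7)⟩) hoX' (fun h3 => (mem_sdiff.1 h3).2 hb)
      rw [mem_bd, hin.mem_gr_ds] at hd
      obtain ⟨⟨h3, _⟩, h4, h5⟩ := hd
      have h6 : d ≠ p := fun h7 => hdM (h7 ▸ hβ)
      have h7 : d ≠ q := fun h8 => hdM (h8 ▸ hβ')
      rw [hin.gr_al_of h6 h7] at h5
      have h4' : G.pi d ∈ X \ Z := h4
      have h5' : G.pi (G.al d) ∉ X \ Z := h5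
      rw [mem_sdiff] at h4' h5'
      have h8 := hin.in_of h3 h4'.1 h6 h7
      have h9 : G.pi (G.al d) ∈ Z := by
        by_contra h10
        exact h5' ⟨h8, h10⟩
      have h10 := hno (G.al d) ((G.mem_bd).2 ⟨G.al_mem d h3, h9, by
        rw [G.al_al d h3]; exact h4'.2⟩)
      have h11 := hpm.closed _ h10
      rw [G.al_al d h3] at h11
      exact hdM (m2 d h11 h4'.1)
    · -- use `Z ∩ X`
      obtain ⟨d, hd, hdM⟩ := hhit (Z ∩ X) (by
        refine hin.adm_gr inter_subset_right (fun v hv => hK v (mem_inter.1 hv).2) ?_ ?_ hFin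
        · intro d hd hdZ h3 h4
          rw [mem_inter] at hdZ ⊢
          exact ⟨hZ.clo d hd hdZ.1, hin.in_of (hcl.Fsub hd) hdZ.2 h3 h4⟩
        · intro h3
          rw [mem_inter, mem_inter]
          have h4 := hFZ1 h3
          constructor
          · rintro ⟨h6, _⟩
            exact ⟨h4.1 h6, hqX.2.1⟩
          · rintro ⟨h6, _⟩
            exact ⟨h4.2 h6, hpX.2.1⟩) hoX (fun h3 => hb (mem_inter.1 h3).1)
      rw [mem_bd, hin.mem_gr_ds] at hd
      obtain ⟨⟨h3, _⟩, h4, h5⟩ := hd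
      have h6 : d ≠ p := fun h7 => hdM (h7 ▸ hβ)
      have h7 : d ≠ q := fun h8 => hdM (h8 ▸ hβ')
      rw [hin.gr_al_of h6 h7] at h5
      have h4' : G.pi d ∈ Z ∩ X := h4
      have h5' : G.pi (G.al d) ∉ Z ∩ X := h5
      rw [mem_inter] at h4' h5'
      have h8 := hin.in_of h3 h4'.2 h6 h7
      exact hdM (m2 d (hno d ((G.mem_bd).2 ⟨h3, h4'.1, fun h9 => h5' ⟨h9, h8⟩⟩)) h4'.2)
  · -- the cut edges are not in the matching
    have hα' : G.al q ∉ M1 := fun h3 => hα (hmem1.2 h3)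
    have hbd2 : ∀ d, d ∈ G.bd X → G.pi (G.al d) ∈ G.vs \ X := by
      intro d hd
      rw [mem_bd] at hd
      exact mem_sdiff.2 ⟨G.pi_mem _ (G.al_mem d hd.1), hd.2.2⟩
    have hvs2 : (G.delV (G.vs \ X)).vs = X := hss
    have hXs : X ⊆ G.vs \ (G.vs \ X) := by rw [hss]
    have hbdZ : ∀ Z ⊆ X, (∀ d ∈ G.ds, G.pi d ∈ Z → G.pi (G.al d) ∉ G.vs \ X) →
        (G.delV (G.vs \ X)).bd Z = G.bd Z := by
      intro Z hZ h3
      rw [G.delV_bd (hZ.trans hXs)]
      apply filter_true_of_mem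
      intro d hd
      rw [mem_bd] at hd
      exact h3 d hd.1 hd.2.1
    obtain ⟨M2, hM2⟩ := h.ih (G.delV (G.vs \ X)) _ _ (by
      rw [hvs2]
      exact hltX)
      (⟨by rw [hvs2]; exact he, by
          rw [hvs2, G.delV_tk_card' hXs, htX, card_empty, zero_add]
          refine (card_filter_le _ _).trans ?_
          omega, G.delV_b0 hI.b0 _, G.delV_cls hcl, by
          intro Z hZ ho
          rw [G.delV_adm hcl] at hZ
          rw [hbdZ Z (by
            intro v hv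
            have h3 := (disjoint_left.1 hZ.2.1) hv
            by_contra h4
            exact h3 (mem_sdiff.2 ⟨hZ.1.sub hv, h4⟩)) hZ.2.2]
          exact hI.cc Z hZ.1 ho⟩ :
        (G.delV (G.vs \ X)).Inst
          ((K ∪ (G.ds.filter fun d => G.pi (G.al d) ∈ G.vs \ X).image G.pi) \ (G.vs \ X))
          (F.filter fun d => G.pi d ∉ G.vs \ X ∧ G.pi (G.al d) ∉ G.vs \ X))
    have s2 : ∀ d ∈ M2, d ∈ G.ds ∧ G.pi d ∈ X := by
      intro d hd
      have h3 := (G.mem_delV_ds).1 (hM2.pm.sub hd)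
      refine ⟨h3.1, ?_⟩
      by_contra h4
      exact h3.2 (mem_sdiff.2 ⟨G.pi_mem d h3.1, h4⟩)
    have i2 : ∀ d ∈ M2, G.pi (G.al d) ∉ G.vs \ X := by
      intro d hd h3
      exact hM2.pm.notok d hd (G.delV_al_in h3)
    have hβ : p ∉ M2 := fun h3 => i2 p h3 (hbd2 p ((hin.bd p).2 (Or.inl rfl)))
    have hβ' : q ∉ M2 := fun h3 => i2 q h3 (hbd2 q ((hin.bd q).2 (Or.inr rfl)))
    have hpm : G.IsPM (M1 ∪ M2) := by
      refine pm_sides s1 s2 ?_ ?_ ?_ ?_ o1 ?_
      · intro d hd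
        rw [mem_union]
        have h3 : d ≠ G.al p := fun h4 => hα (h4 ▸ hd)
        have h4 : d ≠ G.al q := fun h4 => hα' (h4 ▸ hd)
        have h5 := hM1.pm.closed d hd
        rw [hout.gr_al_of h3 h4] at h5
        exact Or.inl h5
      · intro d hd
        rw [mem_union]
        have h5 := hM2.pm.closed d hd
        rw [G.delV_al_of (i2 d hd)] at h5
        exact Or.inr h5
      · intro d hd
        have h3 : d ≠ G.al p := fun h4 => hα (h4 ▸ hd)
        have h4 : d ≠ G.al q := fun h4 => hα' (h4 ▸ hd)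
        have h5 := hM1.pm.notok d hd
        rwa [hout.gr_al_of h3 h4] at h5
      · intro d hd
        have h5 := hM2.pm.notok d hd
        rwa [G.delV_al_of (i2 d hd)] at h5
      · intro v hv hvX
        exact hM2.pm.one v (by rw [hvs2]; exact hvX)
    have m1 : ∀ d, d ∈ M1 ∪ M2 → G.pi d ∉ X → d ∈ M1 := by
      intro d hd h3
      rcases mem_union.1 hd with h4 | h4
      · exact h4
      · exact absurd (s2 d h4).2 h3
    have m2 : ∀ d, d ∈ M1 ∪ M2 → G.pi d ∈ X → d ∈ M2 := by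
      intro d hd h3
      rcases mem_union.1 hd with h4 | h4
      · exact absurd h3 (s1 d h4).2
      · exact h4
    have hpM : p ∉ M1 ∪ M2 := fun h3 => hβ (m2 p h3 hpX.2.1)
    have hqM : q ∉ M1 ∪ M2 := fun h3 => hβ' (m2 q h3 hqX.2.1)
    have hpM' : G.al p ∉ M1 ∪ M2 := fun h3 => hα (m1 _ h3 hpX.2.2)
    have hqM' : G.al q ∉ M1 ∪ M2 := fun h3 => hα' (m1 _ h3 hqX.2.2)
    refine h.no ⟨M1 ∪ M2, hpm, ?_⟩
    intro Z hZ ho
    by_contra hno
    push Not at hno
    have hcr : ∀ d ∈ F, (G.pi (G.al d) ∈ Z ↔ G.pi d ∈ Z) := by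
      intro d hd
      constructor
      · intro h3
        have h4 := hZ.clo _ (hcl.Fal d hd) h3
        rwa [G.al_al d (hcl.Fsub hd)] at h4
      · exact hZ.clo d hd
    have hab : ∀ d ∈ G.ds, d ∉ M1 ∪ M2 → G.pi d ∈ Z → G.pi (G.al d) ∈ Z := by
      intro d hd hdM h3
      by_contra h4
      exact hdM (hno d ((G.mem_bd).2 ⟨hd, h3, h4⟩))
    have hp1 : G.pi (G.al p) ∈ Z ↔ G.pi p ∈ Z := by
      constructor
      · intro h3
        have h4 := hab _ (G.al_mem p hpX.1) hpM' h3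
        rwa [G.al_al p hpX.1] at h4
      · exact hab p hpX.1 hpM
    have hq1 : G.pi (G.al q) ∈ Z ↔ G.pi q ∈ Z := by
      constructor
      · intro h3
        have h4 := hab _ (G.al_mem q hqX.1) hqM' h3
        rwa [G.al_al q hqX.1] at h4
      · exact hab q hqX.1 hqM
    have hone : ∀ p q, G.RJ X p q → p ∉ M1 ∪ M2 → G.pi p ∈ Z → G.pi q ∈ Z := by
      intro p q hR hp hpZ
      by_contra hqZ
      have htY : G.tk (Z ∩ X) = ∅ := by
        rw [eq_empty_iff_forall_notMem]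
        intro d hd
        rw [mem_tk] at hd
        exact hK _ (mem_inter.1 hd.2.1).2 (hcl.tokK d hd.1 hd.2.2)
      have h3 := hpm.even_compl (X := Z ∩ X) (inter_subset_right.trans hX) htY
      have h4 : ((G.bd (Z ∩ X)).filter fun d => d ∉ M1 ∪ M2) = {p} := by
        ext d
        rw [mem_filter, mem_bd, mem_singleton, mem_inter, mem_inter]
        constructor
        · rintro ⟨⟨h5, ⟨h6, h6'⟩, h7⟩, h8⟩
          have h9 := hab d h5 h8 h6
          rcases (hR.bd d).1 ((G.mem_bd).2 ⟨h5, h6', fun h10 => h7 ⟨h9, h10⟩⟩) with h10 | h10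
          · exact h10
          · exact absurd (h10 ▸ h6) hqZ
        · rintro rfl
          exact ⟨⟨hR.mp.1, ⟨hpZ, hR.mp.2.1⟩, fun h5 => hR.mp.2.2 h5.2⟩, hp⟩
      rw [h4, card_singleton] at h3
      exact absurd h3 (by decide)
    have hpqZ : G.pi p ∈ Z ↔ G.pi q ∈ Z := ⟨hone p q hin hpM, hone q p hin.symm hqM⟩
    have hadm := adm1 Z hZ (by
      intro _
      rw [hp1, hq1]
      exact hpqZ)
    have hev : ¬ Odd (Z \ X).card := by
      intro ho1
      obtain ⟨d, hd, hdM⟩ := hM1.hit _ hadm ho1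
      rw [mem_bd, hout.mem_gr_ds] at hd
      obtain ⟨⟨h3, _⟩, h4, h5⟩ := hd
      have h4' : G.pi d ∈ Z \ X := h4
      have h5' : G.pi (hout.gr.al d) ∉ Z \ X := h5
      have h6 : d ≠ G.al p := by
        intro h7
        rw [h7, hout.gr_al_p] at h5'
        rw [h7] at h4'
        rw [mem_sdiff] at h4' h5'
        exact h5' ⟨hq1.2 (hpqZ.1 (hp1.1 h4'.1)), hqX.2.2⟩
      have h7 : d ≠ G.al q := by
        intro h7
        rw [h7, hout.gr_al_q] at h5'
        rw [h7] at h4'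
        rw [mem_sdiff] at h4' h5'
        exact h5' ⟨hp1.2 (hpqZ.2 (hq1.1 h4'.1)), hpX.2.2⟩
      rw [hout.gr_al_of h6 h7] at h5'
      rw [mem_sdiff] at h4' h5'
      have h8 := hne1 d h3 h4'.2 h6 h7
      exact hdM (m1 d (hno d ((G.mem_bd).2 ⟨h3, h4'.1, fun h9 => h5' ⟨h9, h8⟩⟩)) h4'.2)
    have hoX := hodd Z ho hev
    have hoX' := hodd' Z hoX
    by_cases hb : G.pi p ∈ Z
    · -- use `X \ Z`
      have hb' := hpqZ.1 hb
      have hin2 : ∀ d ∈ G.ds, G.pi d ∈ X \ Z → G.pi (G.al d) ∈ X := by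
        intro d hd h3
        rw [mem_sdiff] at h3
        exact hin.in_of hd h3.1 (fun h4 => h3.2 (h4 ▸ hb)) (fun h4 => h3.2 (h4 ▸ hb'))
      have hA : (G.delV (G.vs \ X)).Adm
          ((K ∪ (G.ds.filter fun d => G.pi (G.al d) ∈ G.vs \ X).image G.pi) \ (G.vs \ X))
          (F.filter fun d => G.pi d ∉ G.vs \ X ∧ G.pi (G.al d) ∉ G.vs \ X) (X \ Z) := by
        rw [G.delV_adm hcl]
        refine ⟨⟨sdiff_subset.trans hX, fun v hv => hK v (mem_sdiff.1 hv).1, ?_⟩, ?_, ?_⟩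
        · intro d hd hdZ
          exact mem_sdiff.2 ⟨hin2 d (hcl.Fsub hd) hdZ,
            fun h3 => (mem_sdiff.1 hdZ).2 ((hcr d hd).1 h3)⟩
        · rw [disjoint_left]
          intro v hv h3
          exact (mem_sdiff.1 h3).2 (mem_sdiff.1 hv).1
        · intro d hd hdZ h3
          exact (mem_sdiff.1 h3).2 (hin2 d hd hdZ)
      obtain ⟨d, hd, hdM⟩ := hM2.hit _ hA hoX'
      rw [hbdZ _ sdiff_subset (by
        intro d hd hdZ h3
        exact (mem_sdiff.1 h3).2 (hin2 d hd hdZ)), mem_bd] at hd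
      obtain ⟨h3, h4, h5⟩ := hd
      have h8 := hin2 d h3 h4
      rw [mem_sdiff] at h4 h5
      have h9 : G.pi (G.al d) ∈ Z := by
        by_contra h10
        exact h5 ⟨h8, h10⟩
      have h10 := hno (G.al d) ((G.mem_bd).2 ⟨G.al_mem d h3, h9, by
        rw [G.al_al d h3]; exact h4.2⟩)
      have h11 := hpm.closed _ h10
      rw [G.al_al d h3] at h11
      exact hdM (m2 d h11 h4.1)
    · -- use `Z ∩ X`
      have hb' : G.pi q ∉ Z := fun h3 => hb (hpqZ.2 h3)
      have hin2 : ∀ d ∈ G.ds, G.pi d ∈ Z ∩ X → G.pi (G.al d) ∈ X := by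
        intro d hd h3
        rw [mem_inter] at h3
        exact hin.in_of hd h3.2 (fun h4 => hb (h4 ▸ h3.1)) (fun h4 => hb' (h4 ▸ h3.1))
      have hA : (G.delV (G.vs \ X)).Adm
          ((K ∪ (G.ds.filter fun d => G.pi (G.al d) ∈ G.vs \ X).image G.pi) \ (G.vs \ X))
          (F.filter fun d => G.pi d ∉ G.vs \ X ∧ G.pi (G.al d) ∉ G.vs \ X) (Z ∩ X) := by
        rw [G.delV_adm hcl]
        refine ⟨⟨inter_subset_right.trans hX, fun v hv => hK v (mem_inter.1 hv).2, ?_⟩, ?_, ?_⟩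
        · intro d hd hdZ
          exact mem_inter.2 ⟨hZ.clo d hd (mem_inter.1 hdZ).1, hin2 d (hcl.Fsub hd) hdZ⟩
        · rw [disjoint_left]
          intro v hv h3
          exact (mem_sdiff.1 h3).2 (mem_inter.1 hv).2
        · intro d hd hdZ h3
          exact (mem_sdiff.1 h3).2 (hin2 d hd hdZ)
      obtain ⟨d, hd, hdM⟩ := hM2.hit _ hA hoX
      rw [hbdZ _ inter_subset_right (by
        intro d hd hdZ h3
        exact (mem_sdiff.1 h3).2 (hin2 d hd hdZ)), mem_bd] at hd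
      obtain ⟨h3, h4, h5⟩ := hd
      have h8 := hin2 d h3 h4
      rw [mem_inter] at h4 h5
      exact hdM (m2 d (hno d ((G.mem_bd).2 ⟨h3, h4.1, fun h9 => h5 ⟨h9, h8⟩⟩)) h4.2)

end JK.CG
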