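import Pool.Agent.Lib.JK.Defs

/-! Cyclic coordinates on a fresh circuit (S5, MP_c95763_co).

If `C` is a minimal nonempty union of fresh circuits with `n` vertices then its vertices are
`pi (r i)`, `i : ZMod n`, where `r i ∈ F` is the dart of the edge from the `i`-th to the `(i+1)`-st
vertex. -/

set_option autoImplicit false

namespace JK.CG

open Finset Classical

variable {V D : Type*} {G : CG V D}

/-- cyclic coordinates: `r i` is the dart at the vertex `i` towards the vertex `i + 1` -/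
structure Cy (G : CG V D) (F : Finset D) (C : Finset V) (n : ℕ) (r : ZMod n → D) : Prop where
  memF : ∀ i, r i ∈ F
  memC : ∀ i, G.pi (r i) ∈ C
  nxt : ∀ i, G.pi (G.al (r i)) = G.pi (r (i + 1))
  ne : ∀ i, G.al (r i) ≠ r (i + 1)
  inj : ∀ i j, G.pi (r i) = G.pi (r j) → i = j
  sur : ∀ v ∈ C, ∃ i, G.pi (r i) = v

/-- a minimal fresh union has cyclic coordinates -/
theorem exists_cy {K : Finset V} {F : Finset D} (hc : G.Cls K F) {C : Finset V}
    (hC : G.Adm K F C) (hmin : ∀ Z, G.Adm K F Z → Z ⊆ C → Z.Nonempty → Z = C)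
    {a : D} (haF : a ∈ F) (haC : G.pi a ∈ C) :
    ∃ r : ZMod C.card → D, Cy G F C C.card r ∧ r 0 = a := by
  let S := {d : D // d ∈ F ∧ G.pi d ∈ C}
  have hoth : ∀ d : S, ∃ e : S, G.pi e.1 = G.pi d.1 ∧ e ≠ d ∧
      ∀ x ∈ F, G.pi x = G.pi d.1 → x = d.1 ∨ x = e.1 := by
    rintro ⟨d, hd1, hd2⟩
    have h2 := hc.F2 (G.pi d) (hC.sub hd2) (hC.dis _ hd2)
    have hd3 : d ∈ F.filter fun x => G.pi x = G.pi d := mem_filter.2 ⟨hd1, rfl⟩
    have h3 : ((F.filter fun x => G.pi x = G.pi d).erase d).card = 1 := by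
      rw [card_erase_of_mem hd3, h2]
    obtain ⟨e, he⟩ := card_eq_one.1 h3
    have h4 : e ∈ (F.filter fun x => G.pi x = G.pi d).erase d := he ▸ mem_singleton_self e
    rw [mem_erase, mem_filter] at h4
    refine ⟨⟨e, h4.2.1, by rw [h4.2.2]; exact hd2⟩, h4.2.2, fun h => h4.1 (congrArg Subtype.val h),
      ?_⟩
    intro x hx hxd
    by_cases hxe : x = d
    · exact Or.inl hxe
    · refine Or.inr ?_
      have h5 : x ∈ (F.filter fun x => G.pi x = G.pi d).erase d :=
        mem_erase.2 ⟨hxe, mem_filter.2 ⟨hx, hxd⟩⟩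
      rw [he, mem_singleton] at h5
      exact h5
  choose σ hσ1 hσ2 hσ3 using hoth
  have hσσ : ∀ d : S, σ (σ d) = d := by
    intro d
    rcases hσ3 d (σ (σ d)).1 (σ (σ d)).2.1 ((hσ1 (σ d)).trans (hσ1 d)) with h | h
    · exact Subtype.ext h
    · exact absurd (Subtype.ext h) (hσ2 (σ d))
  let α : S → S := fun d => ⟨G.al d.1, hc.Fal _ d.2.1, hC.clo _ d.2.1 d.2.2⟩
  have hαα : ∀ d : S, α (α d) = d := fun d => Subtype.ext (G.al_al _ (hc.Fsub d.2.1))
  have hα : ∀ d : S, α d ≠ d := fun d h => hc.Ftok _ d.2.1 (congrArg Subtype.val h)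
  let φ : S → S := fun d => σ (α d)
  have hφi : Function.Injective φ := by
    intro x y h
    have h1 : σ (σ (α x)) = σ (σ (α y)) := congrArg σ h
    rw [hσσ, hσσ] at h1
    have h2 := congrArg α h1
    rwa [hαα, hαα] at h2
  have hφσ : ∀ y : S, φ (σ (φ y)) = σ y := by
    intro y
    change σ (α (σ (σ (α y)))) = σ y
    rw [hσσ, hαα]
  have hit : ∀ (i : ℕ) (y : S), φ^[i] (σ (φ^[i] y)) = σ y := by
    intro i
    induction i with
    | zero => intro y; rfl
    | succ i ih =>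
      intro y
      rw [Function.iterate_succ_apply φ i y, Function.iterate_succ_apply' φ i (σ _), ih (φ y)]
      exact hφσ y
  have hno : ∀ (m : ℕ) (x : S), σ x ≠ φ^[m] x := by
    intro m x h
    rcases Nat.even_or_odd' m with ⟨i, h1 | h1⟩
    · rw [h1, two_mul, Function.iterate_add_apply, ← hit i x] at h
      exact hσ2 _ ((hφi.iterate i) h)
    · rw [h1, two_mul, add_assoc, Function.iterate_add_apply, ← hit i x,
        Function.iterate_succ_apply'] at h
      have h2 : σ (φ^[i] x) = σ (α (φ^[i] x)) := (hφi.iterate i) h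
      have h3 := congrArg σ h2
      rw [hσσ, hσσ] at h3
      exact hα _ h3.symm
  let a' : S := ⟨a, haF, haC⟩
  have hfin : Finite S :=
    Set.Finite.to_subtype ((F.finite_toSet).subset fun d (hd : d ∈ F ∧ _) => hd.1)
  -- period
  have hper : a' ∈ Function.periodicPts φ := by
    have := Function.Injective.mem_periodicPts hφi a'
    exact this
  set p := Function.minimalPeriod φ a' with hp
  have hp0 : 0 < p := Function.minimalPeriod_pos_of_mem_periodicPts hper
  have hpp : φ^[p] a' = a' := Function.iterate_minimalPeriod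
  have hinj : ∀ j k : ℕ, j ≤ k → k < p → G.pi (φ^[j] a').1 = G.pi (φ^[k] a').1 → j = k := by
    intro j k hjk hk h
    have h1 : φ^[k] a' = φ^[k - j] (φ^[j] a') := by
      rw [← Function.iterate_add_apply, Nat.sub_add_cancel hjk]
    rcases hσ3 (φ^[j] a') (φ^[k] a').1 (φ^[k] a').2.1 h.symm with h2 | h2
    · have h3 : φ^[k] a' = φ^[j] a' := Subtype.ext h2
      by_contra hne
      have h4 : φ^[k - j] a' = a' := by
        apply hφi.iterate j
        rw [← Function.iterate_add_apply, Nat.add_sub_cancel' hjk, h3]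
      have h5 : p ∣ k - j := Function.IsPeriodicPt.minimalPeriod_dvd h4
      have h6 := Nat.le_of_dvd (by omega) h5
      omega
    · have h3 : φ^[k] a' = σ (φ^[j] a') := Subtype.ext h2
      exact absurd (h3.symm.trans h1) (hno _ _)
  -- the orbit is closed
  have hW : C.filter (fun v => ∃ k : ℕ, G.pi (φ^[k] a').1 = v) = C := by
    apply hmin
    · refine ⟨(filter_subset _ _).trans hC.sub, fun v hv => hC.dis v (mem_filter.1 hv).1, ?_⟩
      intro d hd hdv
      obtain ⟨hdC, k, hk⟩ := mem_filter.1 hdv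
      have key : ∀ y : S, (∃ k : ℕ, φ^[k] a' = y) →
          G.pi (G.al y.1) ∈ C.filter (fun v => ∃ k : ℕ, G.pi (φ^[k] a').1 = v) := by
        rintro y ⟨k, rfl⟩
        refine mem_filter.2 ⟨hC.clo _ (φ^[k] a').2.1 (φ^[k] a').2.2, k + 1, ?_⟩
        rw [Function.iterate_succ_apply']
        exact hσ1 (α (φ^[k] a'))
      rcases hσ3 (φ^[k] a') d hd hk.symm with h2 | h2
      · rw [h2]
        exact key _ ⟨k, rfl⟩
      · -- d = σ (φ^[k] a') = α (previous)
        obtain ⟨m, hm⟩ : ∃ m : ℕ, φ^[m + 1] a' = φ^[k] a' := by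
          cases k with
          | zero => exact ⟨p - 1, by rw [Nat.sub_add_cancel hp0, hpp]; rfl⟩
          | succ k => exact ⟨k, rfl⟩
        have h3 : d = G.al (φ^[m] a').1 := by
          rw [h2, ← hm, Function.iterate_succ_apply']
          change (σ (σ (α (φ^[m] a')))).1 = _
          rw [hσσ]
        rw [h3, G.al_al _ (hc.Fsub (φ^[m] a').2.1)]
        exact mem_filter.2 ⟨(φ^[m] a').2.2, m, rfl⟩
    · exact filter_subset _ _
    · exact ⟨G.pi a, mem_filter.2 ⟨haC, 0, rfl⟩⟩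
  have hmod : ∀ k : ℕ, φ^[k % p] a' = φ^[k] a' := fun k => Function.iterate_mod_minimalPeriod_eq
  have hcard : C.card = p := by
    have h1 : C = (range p).image fun k => G.pi (φ^[k] a').1 := by
      ext v
      rw [mem_image]
      constructor
      · intro hv
        rw [← hW, mem_filter] at hv
        obtain ⟨-, k, hk⟩ := hv
        exact ⟨k % p, mem_range.2 (Nat.mod_lt _ hp0), by rw [hmod]; exact hk⟩
      · rintro ⟨k, -, rfl⟩
        exact (φ^[k] a').2.2
    rw [h1, card_image_of_injOn, card_range]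
    intro j hj k hk h
    rw [coe_range, Set.mem_Iio] at hj hk
    rcases le_total j k with h2 | h2
    · exact hinj j k h2 hk h
    · exact (hinj k j h2 hj h.symm).symm
  have : NeZero C.card := ⟨by rw [hcard]; exact hp0.ne'⟩
  have hmod' : ∀ k : ℕ, φ^[k % C.card] a' = φ^[k] a' := fun k => by rw [hcard]; exact hmod k
  have hv : ∀ i : ZMod C.card, i.val < p := fun i => by rw [← hcard]; exact ZMod.val_lt i
  have hs : ∀ i : ZMod C.card, φ^[(i + 1).val] a' = φ (φ^[i.val] a') := by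
    intro i
    rw [← Function.iterate_succ_apply' φ, ZMod.val_add, hmod', ZMod.val_one_eq_one_mod,
      Function.iterate_add_apply, hmod', ← Function.iterate_add_apply]
  refine ⟨fun i => (φ^[i.val] a').1, ⟨fun i => (φ^[i.val] a').2.1, fun i => (φ^[i.val] a').2.2,
    ?_, ?_, ?_, ?_⟩, ?_⟩
  · intro i
    rw [hs]
    exact (hσ1 (α (φ^[i.val] a'))).symm
  · intro i
    change (α (φ^[i.val] a')).1 ≠ (φ^[(i + 1).val] a').1
    rw [hs]
    exact fun h => hσ2 _ (Subtype.ext h).symm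
  · intro i j h
    change G.pi (φ^[i.val] a').1 = G.pi (φ^[j.val] a').1 at h
    rcases le_total i.val j.val with h2 | h2
    · exact ZMod.val_injective _ (hinj _ _ h2 (hv j) h)
    · exact ZMod.val_injective _ (hinj _ _ h2 (hv i) h.symm).symm
  · intro v hv
    rw [← hW, mem_filter] at hv
    obtain ⟨-, k, hk⟩ := hv
    refine ⟨(k : ZMod C.card), ?_⟩
    rw [ZMod.val_natCast, hcard, hmod]
    exact hk
  · change (φ^[(0 : ZMod C.card).val] a').1 = a
    rw [ZMod.val_zero]
    rfl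

/-! ### the fresh circuit of a vertex -/

lemma Adm.int {K : Finset V} {F : Finset D} {Z Z' : Finset V} (h : G.Adm K F Z)
    (h' : G.Adm K F Z') : G.Adm K F (Z ∩ Z') := by
  refine ⟨inter_subset_left.trans h.sub, fun v hv => h.dis v (mem_inter.1 hv).1, ?_⟩
  intro d hd hv
  rw [mem_inter] at hv ⊢
  exact ⟨h.clo d hd hv.1, h'.clo d hd hv.2⟩

lemma Adm.dif {K : Finset V} {F : Finset D} (hc : G.Cls K F) {Z Z' : Finset V}
    (h : G.Adm K F Z) (h' : G.Adm K F Z') : G.Adm K F (Z \ Z') := by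
  refine ⟨sdiff_subset.trans h.sub, fun v hv => h.dis v (mem_sdiff.1 hv).1, ?_⟩
  intro d hd hv
  rw [mem_sdiff] at hv ⊢
  refine ⟨h.clo d hd hv.1, fun h2 => hv.2 ?_⟩
  have h3 := h'.clo _ (hc.Fal d hd) h2
  rwa [G.al_al _ (hc.Fsub hd)] at h3

lemma Adm.uni {K : Finset V} {F : Finset D} {Z Z' : Finset V} (h : G.Adm K F Z)
    (h' : G.Adm K F Z') : G.Adm K F (Z ∪ Z') := by
  refine ⟨union_subset h.sub h'.sub, ?_, ?_⟩
  · intro v hv
    rcases mem_union.1 hv with h1 | h1
    · exact h.dis v h1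
    · exact h'.dis v h1
  · intro d hd hv
    rcases mem_union.1 hv with h1 | h1
    · exact mem_union_left _ (h.clo d hd h1)
    · exact mem_union_right _ (h'.clo d hd h1)

/-- the fresh circuit of `v` -/
noncomputable def cir (G : CG V D) (K : Finset V) (F : Finset D) (v : V) : Finset V :=
  G.vs.filter fun u => ∀ Z, G.Adm K F Z → v ∈ Z → u ∈ Z

section cir

variable {K : Finset V} {F : Finset D}

lemma mem_cir {v u : V} : u ∈ G.cir K F v ↔ u ∈ G.vs ∧ ∀ Z, G.Adm K F Z → v ∈ Z → u ∈ Z := by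
  unfold cir
  rw [mem_filter]

lemma self_mem_cir {v : V} (hv : v ∈ G.vs) : v ∈ G.cir K F v := mem_cir.2 ⟨hv, fun _ _ h => h⟩

lemma cir_sub {v : V} {Z : Finset V} (hZ : G.Adm K F Z) (hv : v ∈ Z) : G.cir K F v ⊆ Z :=
  fun _ hu => (mem_cir.1 hu).2 Z hZ hv

lemma adm_cir {v : V} (hv : ¬ G.Abs K F v) : G.Adm K F (G.cir K F v) := by
  unfold Abs at hv
  push Not at hv
  obtain ⟨Z, hZ, hvZ⟩ := hv
  refine ⟨filter_subset _ _, fun u hu => hZ.dis u (cir_sub hZ hvZ hu), ?_⟩
  intro d hd hu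
  refine mem_cir.2 ⟨hZ.sub (hZ.clo d hd (cir_sub hZ hvZ hu)), ?_⟩
  intro Z' hZ' hv'
  exact hZ'.clo d hd ((mem_cir.1 hu).2 Z' hZ' hv')

lemma cir_min (hc : G.Cls K F) {v : V} (hv : ¬ G.Abs K F v) {Z : Finset V} (hZ : G.Adm K F Z)
    (hs : Z ⊆ G.cir K F v) (hne : Z.Nonempty) : Z = G.cir K F v := by
  by_cases h : v ∈ Z
  · exact Subset.antisymm hs (cir_sub hZ h)
  · have hvs : v ∈ G.vs := by
      unfold Abs at hv
      push Not at hv
      obtain ⟨Z', hZ', hv'⟩ := hv
      exact hZ'.sub hv'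
    have h1 := (mem_cir.1 · |>.2) (hs hne.choose_spec)
    have h2 := h1 _ ((adm_cir hv).dif hc hZ) (mem_sdiff.2 ⟨self_mem_cir hvs, h⟩)
    exact absurd hne.choose_spec (mem_sdiff.1 h2).2

lemma cir_eq (hc : G.Cls K F) {v u : V} (hv : ¬ G.Abs K F v) (hu : u ∈ G.cir K F v) :
    G.cir K F u = G.cir K F v := by
  have hu' : ¬ G.Abs K F u := fun h => h _ (adm_cir hv) hu
  exact cir_min hc hv (adm_cir hu') (cir_sub (adm_cir hv) hu) ⟨u, self_mem_cir (mem_cir.1 hu).1⟩

/-- a union of fresh circuits contains a fresh circuit or is disjoint from it -/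
lemma adm_cases (hc : G.Cls K F) {v : V} (hv : ¬ G.Abs K F v) {Z : Finset V} (hZ : G.Adm K F Z) :
    G.cir K F v ⊆ Z ∨ Disjoint (G.cir K F v) Z := by
  by_cases h : (G.cir K F v ∩ Z).Nonempty
  · have h1 := cir_min hc hv ((adm_cir hv).int hZ) inter_subset_left h
    exact Or.inl (h1 ▸ inter_subset_right)
  · exact Or.inr (disjoint_iff_inter_eq_empty.2 (not_nonempty_iff_eq_empty.1 h))

lemma cir_al (hc : G.Cls K F) {d : D} (hd : d ∈ F) :
    G.cir K F (G.pi (G.al d)) = G.cir K F (G.pi d) := by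
  have key : ∀ d ∈ F, G.cir K F (G.pi (G.al d)) ⊆ G.cir K F (G.pi d) := by
    intro d hd u hu
    refine mem_cir.2 ⟨(mem_cir.1 hu).1, fun Z hZ hv => (mem_cir.1 hu).2 Z hZ (hZ.clo d hd hv)⟩
  refine Subset.antisymm (key d hd) ?_
  have h := key _ (hc.Fal d hd)
  rwa [G.al_al _ (hc.Fsub hd)] at h

lemma cir_mem_al (hc : G.Cls K F) {d : D} (hd : d ∈ F) :
    G.pi (G.al d) ∈ G.cir K F (G.pi d) := by
  rw [← cir_al hc hd]
  exact self_mem_cir (G.pi_mem _ (hc.Fsub (hc.Fal d hd)))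

/-- coordinates on the fresh circuit of a vertex -/
theorem cir_cy (hc : G.Cls K F) {v : V} (hv : ¬ G.Abs K F v) {a : D} (haF : a ∈ F)
    (ha : G.pi a ∈ G.cir K F v) :
    ∃ r : ZMod (G.cir K F v).card → D, Cy G F (G.cir K F v) (G.cir K F v).card r ∧ r 0 = a :=
  exists_cy hc (adm_cir hv) (fun _ hZ hs hne => cir_min hc hv hZ hs hne) haF ha

end cir

end JK.CG
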