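import Mathlib

/-! Cubic graphs with tokens, in the dart model (S5, MP_c95763_co).

A graph `G : CG V D` has a finite set `vs` of vertices, a finite set `ds` of darts (half edges),
`pi d` is the vertex of the dart `d`, `al d` is the other dart of its edge; `al d = d` means that
`d` is a token (a stub, an edge to the root `r` which is never used by a matching).
Every vertex has exactly three darts (tokens included). Loops and parallel edges are allowed. -/

set_option autoImplicit false

namespace JK

open Finset Classical

/-- cubic graph with tokens -/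
structure CG (V D : Type*) where
  vs : Finset V
  ds : Finset D
  pi : D → V
  al : D → D
  pi_mem : ∀ d ∈ ds, pi d ∈ vs
  al_mem : ∀ d ∈ ds, al d ∈ ds
  al_al : ∀ d ∈ ds, al (al d) = d
  cubic : ∀ v ∈ vs, (ds.filter fun d => pi d = v).card = 3

namespace CG

variable {V D : Type*} (G : CG V D)

/-- darts of the edges leaving `X` (the darts inside `X`) -/
noncomputable def bd (X : Finset V) : Finset D :=
  G.ds.filter fun d => G.pi d ∈ X ∧ G.pi (G.al d) ∉ X

/-- tokens in `X` -/
noncomputable def tk (X : Finset V) : Finset D :=
  G.ds.filter fun d => G.pi d ∈ X ∧ G.al d = d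

/-- the degree of `X` in the graph with the root, that is, edges leaving `X` plus tokens in `X` -/
noncomputable def dg (X : Finset V) : ℕ := (G.bd X).card + (G.tk X).card

/-- darts from `X` to `Y` -/
noncomputable def ed (X Y : Finset V) : Finset D :=
  G.ds.filter fun d => G.pi d ∈ X ∧ G.pi (G.al d) ∈ Y

/-- bridgelessness with the root: every odd vertex set has degree at least 3 -/
def B0 : Prop := ∀ X ⊆ G.vs, Odd X.card → 3 ≤ G.dg X

/-- perfect matching (a set of darts, closed under `al`, without tokens) -/
structure IsPM (M : Finset D) : Prop where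
  sub : M ⊆ G.ds
  closed : ∀ d ∈ M, G.al d ∈ M
  notok : ∀ d ∈ M, G.al d ≠ d
  one : ∀ v ∈ G.vs, (M.filter fun d => G.pi d = v).card = 1

/-- `K` is the absorbing class (it contains all tokens); `F` is a set of edges (given by darts) such
that every vertex outside `K` is incident with exactly two of them. There may be `F`-edges at `K`:
a circuit of `F` meeting `K` is absorbed (joined to `K`); the circuits disjoint from `K` are the
fresh ones. To absorb the circuit through `c` simply replace `K` by `insert c K`. -/
structure Cls (K : Finset V) (F : Finset D) : Prop where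
  Ksub : K ⊆ G.vs
  Fsub : F ⊆ G.ds
  Fal : ∀ d ∈ F, G.al d ∈ F
  Ftok : ∀ d ∈ F, G.al d ≠ d
  F2 : ∀ v ∈ G.vs, v ∉ K → (F.filter fun d => G.pi d = v).card = 2
  tokK : ∀ d ∈ G.ds, G.al d = d → G.pi d ∈ K

/-- unions of fresh circuits: sets avoiding `K` and closed under the edges of `F` -/
structure Adm (K : Finset V) (F : Finset D) (Z : Finset V) : Prop where
  sub : Z ⊆ G.vs
  dis : ∀ v ∈ Z, v ∉ K
  clo : ∀ d ∈ F, G.pi d ∈ Z → G.pi (G.al d) ∈ Z

/-- `v` is absorbed: it lies in no union of fresh circuits (`v ∈ K`, or its circuit meets `K`) -/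
def Abs (K : Finset V) (F : Finset D) (v : V) : Prop := ∀ Z, G.Adm K F Z → v ∉ Z

/-- condition (C) -/
def CC (K : Finset V) (F : Finset D) : Prop :=
  ∀ Z, G.Adm K F Z → Odd Z.card → 5 ≤ (G.bd Z).card

/-- good matchings -/
structure Good (K : Finset V) (F : Finset D) (M : Finset D) : Prop where
  pm : G.IsPM M
  hit : ∀ Z, G.Adm K F Z → Odd Z.card → ∃ d ∈ G.bd Z, d ∉ M

/-- an instance of the main theorem (T4 in the token form) -/
structure Inst (K : Finset V) (F : Finset D) : Prop where
  even : Even G.vs.card
  four : (G.tk G.vs).card ≤ 4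
  b0 : G.B0
  cls : G.Cls K F
  cc : G.CC K F

/-- induction hypothesis: the main theorem for all smaller instances (same types) -/
def IH (n : ℕ) (V D : Type*) : Prop :=
  ∀ (G : CG V D) (K : Finset V) (F : Finset D), G.vs.card < n → G.Inst K F →
    ∃ M, G.Good K F M

end CG

end JK
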