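import Pool.Agent.Lib.JK.CutB
import Mathlib.Combinatorics.SimpleGraph.Tutte

/-! Tutte dichotomy for passes which kill no edge of the 2-factor (S5, MP_c95763_co).

`G` is a cubic graph with tokens, `F` a 2-factor (exactly two darts at every vertex, no tokens), `e1`
and `e2` are two tokens. Either there is a matching `M0` of all vertices which uses all tokens
except `e1` and `e2` (so that `(ds \ F) \ M0` is the killed set of an `F`-free pass from `e1` to `e2`
plus closed trails) or there is a barrier, whose structure is rigid (`Bar`). -/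

set_option autoImplicit false

namespace JK.CG

open Finset Classical

variable {V D : Type*}

/-- a matching of the vertex set `W` by edges inside `W` -/
structure MatW (G : CG V D) (W : Finset V) (N : Finset D) : Prop where
  sub : N ⊆ G.ds
  al : ∀ d ∈ N, G.al d ∈ N
  tok : ∀ d ∈ N, G.al d ≠ d
  inn : ∀ d ∈ N, G.pi d ∈ W
  one : ∀ v ∈ W, (N.filter fun d => G.pi d = v).card = 1

/-- decomposition of `W \ A` without edges between different parts -/
structure Dec (G : CG V D) (W A : Finset V) (P : Finset (Finset V)) : Prop where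
  Asub : A ⊆ W
  sub : ∀ X ∈ P, X ⊆ W \ A
  dis : ∀ X ∈ P, ∀ Y ∈ P, X ≠ Y → Disjoint X Y
  cov : ∀ v ∈ W, v ∉ A → ∃ X ∈ P, v ∈ X
  leave : ∀ X ∈ P, ∀ d ∈ G.ds, G.pi d ∈ X → G.pi (G.al d) ∈ W →
    G.pi (G.al d) ∈ A ∨ G.pi (G.al d) ∈ X

/-- the simple graph on `W` -/
def sgW (G : CG V D) (W : Finset V) : SimpleGraph {v // v ∈ W} where
  Adj u w := u ≠ w ∧ ∃ d ∈ G.ds, G.pi d = u ∧ G.pi (G.al d) = w
  symm := ⟨by
    rintro u w ⟨h, d, hd, h1, h2⟩
    exact ⟨h.symm, G.al d, G.al_mem d hd, h2, by rw [G.al_al d hd]; exact h1⟩⟩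
  loopless := ⟨fun u h => h.1 rfl⟩

/-- from a perfect matching of the simple graph to a matching in darts -/
theorem sgW_pm (G : CG V D) {W : Finset V} (M : (sgW G W).Subgraph) (hM : M.IsPerfectMatching) :
    ∃ N, MatW G W N := by
  rcases isEmpty_or_nonempty D with hD | hD
  · have hW : W = ∅ := by
      rw [eq_empty_iff_forall_notMem]
      intro v hv
      obtain ⟨w, hw, -⟩ := hM.1 (hM.2 ⟨v, hv⟩)
      obtain ⟨-, d, -⟩ := M.adj_sub hw
      exact hD.elim d
    subst hW
    exact ⟨∅, empty_subset _, by simp, by simp, by simp, by simp⟩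
  have hex : ∀ e ∈ M.edgeSet, ∃ d ∈ G.ds,
      s(G.pi d, G.pi (G.al d)) = Sym2.map Subtype.val e := by
    intro e
    induction e using Sym2.ind with
    | _ u w =>
      intro he
      have ha : (sgW G W).Adj u w := M.adj_sub he
      obtain ⟨_, d, hd, h1, h2⟩ := ha
      exact ⟨d, hd, by rw [Sym2.map_mk]; simp [h1, h2]⟩
  choose! f hf hfs using hex
  refine ⟨G.ds.filter fun d => ∃ e ∈ M.edgeSet, d = f e ∨ d = G.al (f e), ?_, ?_, ?_, ?_, ?_⟩
  · exact filter_subset _ _
  · intro d hd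
    rw [mem_filter] at hd ⊢
    obtain ⟨hd, e, he, h⟩ := hd
    refine ⟨G.al_mem d hd, e, he, ?_⟩
    rcases h with h | h
    · exact Or.inr (by rw [h])
    · exact Or.inl (by rw [h, G.al_al _ (hf e he)])
  · intro d hd hal
    rw [mem_filter] at hd
    obtain ⟨hd, e, he, h⟩ := hd
    have h3 : s(G.pi d, G.pi (G.al d)) = Sym2.map Subtype.val e := by
      rcases h with h | h
      · rw [h]; exact hfs e he
      · rw [h, G.al_al _ (hf e he), Sym2.eq_swap]; exact hfs e he
    rw [hal] at h3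
    revert he h3
    induction e using Sym2.ind with
    | _ u w =>
      intro he h3
      have ha : (sgW G W).Adj u w := M.adj_sub he
      rw [Sym2.map_mk] at h3
      have h4 : (u : V) = G.pi d ∧ (w : V) = G.pi d := by
        have := h3
        simp only [Sym2.eq_iff] at this
        rcases this with ⟨a, b⟩ | ⟨a, b⟩
        · exact ⟨a.symm, b.symm⟩
        · exact ⟨b.symm, a.symm⟩
      exact ha.1 (Subtype.ext (h4.1.trans h4.2.symm))
  · intro d hd
    rw [mem_filter] at hd
    obtain ⟨hd, e, he, h⟩ := hd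
    have h3 : s(G.pi d, G.pi (G.al d)) = Sym2.map Subtype.val e := by
      rcases h with h | h
      · rw [h]; exact hfs e he
      · rw [h, G.al_al _ (hf e he), Sym2.eq_swap]; exact hfs e he
    revert he h3
    induction e using Sym2.ind with
    | _ u w =>
      intro he h3
      rw [Sym2.map_mk] at h3
      simp only [Sym2.eq_iff] at h3
      rcases h3 with ⟨a, b⟩ | ⟨a, b⟩
      · rw [a]; exact u.2
      · rw [a]; exact w.2
  · intro v hv
    obtain ⟨w, hw, huw⟩ := hM.1 (hM.2 ⟨v, hv⟩)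
    have he : s((⟨v, hv⟩ : {v // v ∈ W}), w) ∈ M.edgeSet := hw
    have hne : v ≠ (w : V) := by
      have ha : (sgW G W).Adj ⟨v, hv⟩ w := M.adj_sub hw
      intro h
      exact ha.1 (Subtype.ext h)
    have hd := hf _ he
    have hs := hfs _ he
    rw [Sym2.map_mk] at hs
    rw [card_eq_one]
    set e₀ : Sym2 {v // v ∈ W} := s((⟨v, hv⟩ : {v // v ∈ W}), w) with he0
    have key : ∃ d₀ ∈ G.ds, (d₀ = f e₀ ∨ d₀ = G.al (f e₀)) ∧ G.pi d₀ = v ∧
        ∀ d, (d = f e₀ ∨ d = G.al (f e₀)) → G.pi d = v → d = d₀ := by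
      simp only [Sym2.eq_iff] at hs
      rcases hs with ⟨a, b⟩ | ⟨a, b⟩
      · refine ⟨f e₀, hd, Or.inl rfl, a, ?_⟩
        rintro d (h | h) h'
        · exact h
        · exfalso; rw [h, b] at h'; exact hne h'.symm
      · refine ⟨G.al (f e₀), G.al_mem _ hd, Or.inr rfl, b, ?_⟩
        rintro d (h | h) h'
        · exfalso; rw [h, a] at h'; exact hne h'.symm
        · exact h
    obtain ⟨d₀, hd0, h0, hp0, hun⟩ := key
    refine ⟨d₀, ?_⟩
    ext d
    rw [mem_filter, mem_filter, mem_singleton]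
    constructor
    · rintro ⟨⟨hd1, e, he1, h1⟩, hpv⟩
      have h3 : s(G.pi d, G.pi (G.al d)) = Sym2.map Subtype.val e := by
        rcases h1 with h | h
        · rw [h]; exact hfs e he1
        · rw [h, G.al_al _ (hf e he1), Sym2.eq_swap]; exact hfs e he1
      have h4 : (⟨v, hv⟩ : {v // v ∈ W}) ∈ e := by
        have : v ∈ Sym2.map (Subtype.val : {v // v ∈ W} → V) e := by
          rw [← h3, hpv]; exact Sym2.mem_mk_left _ _
        rw [Sym2.mem_map] at this
        obtain ⟨a, ha, hav⟩ := this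
        have : a = ⟨v, hv⟩ := Subtype.ext hav
        rw [← this]; exact ha
      have h5 : e = e₀ := by
        obtain ⟨w', hw'⟩ := h4
        subst hw'
        have : w' = w := huw w' he1
        rw [this]
      rw [h5] at h1
      exact hun d h1 hpv
    · intro h
      rw [h]
      exact ⟨⟨hd0, e₀, he, h0⟩, hp0⟩

/-- **Tutte's theorem** for the part `W` of a dart graph -/
theorem tutteW (G : CG V D) (W : Finset V) :
    (∃ N, MatW G W N) ∨ ∃ A P, Dec G W A P ∧ A.card < (P.filter fun X => Odd X.card).card := by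
  by_cases hno : ∃ N, MatW G W N
  · exact Or.inl hno
  right
  have hnot : ¬ ∃ M : (sgW G W).Subgraph, M.IsPerfectMatching := fun ⟨M, hM⟩ =>
    hno (sgW_pm G M hM)
  rw [SimpleGraph.tutte] at hnot
  push Not at hnot
  obtain ⟨u, hu⟩ := hnot
  unfold SimpleGraph.IsTutteViolator at hu
  set S : (sgW G W).Subgraph := (⊤ : (sgW G W).Subgraph).deleteVerts u with hS
  set H := S.coe with hH
  have hverts : ∀ w : {v // v ∈ W}, w ∈ S.verts ↔ w ∉ u := by
    intro w
    simp [hS]
  have : Finite S.verts := Subtype.finite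
  have : Finite H.ConnectedComponent := Quot.finite _
  have : Fintype H.ConnectedComponent := Fintype.ofFinite _
  set U : Finset V := W.filter fun v => ∃ h : v ∈ W, (⟨v, h⟩ : {v // v ∈ W}) ∈ u with hU
  have hUsub : U ⊆ W := filter_subset _ _
  have hUcard : U.card = u.ncard := by
    rw [← Set.ncard_coe_finset]
    have : (U : Set V) = Subtype.val '' u := by
      ext v
      simp only [hU, coe_filter, Set.mem_setOf_eq, Set.mem_image]
      constructor
      · rintro ⟨_, h, h'⟩; exact ⟨_, h', rfl⟩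
      · rintro ⟨⟨w, hw⟩, h, rfl⟩; exact ⟨hw, hw, h⟩
    rw [this, Set.ncard_image_of_injective _ Subtype.val_injective]
  set Q : H.ConnectedComponent → Finset V := fun c => W.filter fun v =>
    ∃ (h : v ∈ W) (h' : (⟨v, h⟩ : {v // v ∈ W}) ∈ S.verts),
      H.connectedComponentMk ⟨⟨v, h⟩, h'⟩ = c with hQ
  have hQcard : ∀ c, (Q c).card = c.supp.ncard := by
    intro c
    rw [← Set.ncard_coe_finset]
    have : (Q c : Set V) = (fun x : S.verts => ((x : {v // v ∈ W}) : V)) '' c.supp := by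
      ext v
      simp only [hQ, coe_filter, Set.mem_setOf_eq, Set.mem_image,
        SimpleGraph.ConnectedComponent.mem_supp_iff]
      constructor
      · rintro ⟨_, h, h', h''⟩; exact ⟨_, h'', rfl⟩
      · rintro ⟨⟨⟨w, hw⟩, hw'⟩, h, rfl⟩; exact ⟨hw, hw, hw', h⟩
    rw [this, Set.ncard_image_of_injective]
    intro x y hxy
    exact Subtype.ext (Subtype.ext hxy)
  have hQdis : ∀ c c', c ≠ c' → Disjoint (Q c) (Q c') := by
    intro c c' hcc
    rw [Finset.disjoint_left]
    intro v hv hv'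
    simp only [hQ, mem_filter] at hv hv'
    obtain ⟨_, h, h1, h2⟩ := hv
    obtain ⟨_, h', h1', h2'⟩ := hv'
    exact hcc (h2.symm.trans h2')
  have hQinj : ∀ c ∈ (univ : Finset H.ConnectedComponent).filter (fun c => c ∈ H.oddComponents),
      ∀ c' ∈ (univ : Finset H.ConnectedComponent).filter (fun c => c ∈ H.oddComponents),
      Q c = Q c' → c = c' := by
    intro c hc c' _ he
    by_contra hcc
    have h1 := hQdis c c' hcc
    rw [← he, disjoint_self] at h1
    have h2 : Odd c.supp.ncard := (mem_filter.mp hc).2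
    rw [← hQcard, h1, bot_eq_empty, card_empty] at h2
    exact absurd h2 (by decide)
  refine ⟨U, (univ : Finset H.ConnectedComponent).image Q, ⟨hUsub, ?_, ?_, ?_, ?_⟩, ?_⟩
  · intro X hX
    obtain ⟨c, -, rfl⟩ := mem_image.1 hX
    intro v hv
    simp only [hQ, mem_filter] at hv
    obtain ⟨h0, h, h', -⟩ := hv
    rw [mem_sdiff]
    refine ⟨h, fun hvU => ?_⟩
    simp only [hU, mem_filter] at hvU
    obtain ⟨-, h2, h3⟩ := hvU
    exact (hverts _).mp h' h3
  · intro X hX Y hY hne
    obtain ⟨c, -, rfl⟩ := mem_image.1 hX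
    obtain ⟨c', -, rfl⟩ := mem_image.1 hY
    exact hQdis c c' (fun h => hne (by rw [h]))
  · intro v hv hvU
    have hnu : (⟨v, hv⟩ : {v // v ∈ W}) ∉ u := by
      intro h
      exact hvU (by simp only [hU, mem_filter]; exact ⟨hv, hv, h⟩)
    have hv2 := (hverts _).mpr hnu
    refine ⟨Q (H.connectedComponentMk ⟨⟨v, hv⟩, hv2⟩), mem_image.2 ⟨_, mem_univ _, rfl⟩, ?_⟩
    simp only [hQ, mem_filter]
    exact ⟨hv, hv, hv2, trivial⟩
  · intro X hX d hd hp hpW
    obtain ⟨c, -, rfl⟩ := mem_image.1 hX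
    by_cases hpU : G.pi (G.al d) ∈ U
    · exact Or.inl hpU
    right
    have hnu : (⟨G.pi (G.al d), hpW⟩ : {v // v ∈ W}) ∉ u := by
      intro h
      exact hpU (by simp only [hU, mem_filter]; exact ⟨hpW, hpW, h⟩)
    have hv2 := (hverts _).mpr hnu
    simp only [hQ, mem_filter] at hp ⊢
    obtain ⟨hpv, h, h', h''⟩ := hp
    refine ⟨hpW, hpW, hv2, ?_⟩
    rw [← h'']
    by_cases heq : G.pi d = G.pi (G.al d)
    · congr 1
      exact Subtype.ext (Subtype.ext heq.symm)
    · apply SimpleGraph.ConnectedComponent.sound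
      apply SimpleGraph.Adj.reachable
      have hadj : (sgW G W).Adj ⟨G.pi (G.al d), hpW⟩ ⟨G.pi d, h⟩ := by
        refine ⟨fun h => heq (congrArg Subtype.val h).symm, G.al d, G.al_mem _ hd, rfl, ?_⟩
        rw [G.al_al _ hd]
      show S.Adj _ _
      exact (SimpleGraph.Subgraph.deleteVerts_adj (G' := (⊤ : (sgW G W).Subgraph)) (s := u)).mpr
        ⟨Set.mem_univ _, (hverts _).mp hv2, Set.mem_univ _, (hverts _).mp h', hadj⟩
  · have h1 : ((univ : Finset H.ConnectedComponent).filter
        (fun c => c ∈ H.oddComponents)).card = H.oddComponents.ncard := by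
      rw [← Set.ncard_coe_finset]
      congr 1
      ext c
      simp
    have h2 : (((univ : Finset H.ConnectedComponent).image Q).filter fun X => Odd X.card) =
        ((univ : Finset H.ConnectedComponent).filter (fun c => c ∈ H.oddComponents)).image Q := by
      ext X
      rw [mem_filter, mem_image, mem_image]
      constructor
      · rintro ⟨⟨c, hc, rfl⟩, ho⟩
        rw [hQcard] at ho
        exact ⟨c, mem_filter.2 ⟨hc, ho⟩, rfl⟩
      · rintro ⟨c, hc, rfl⟩
        have h3 : Odd c.supp.ncard := (mem_filter.mp hc).2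
        exact ⟨⟨c, mem_univ _, rfl⟩, by rw [hQcard]; exact h3⟩
    rw [h2, card_image_of_injOn (fun c hc c' hc' he => hQinj c (mem_coe.1 hc) c' (mem_coe.1 hc') he),
      h1, hUcard]
    exact hu

/-- sizes of a decomposition -/
lemma Dec.card {G : CG V D} {W A : Finset V} {P : Finset (Finset V)} (h : Dec G W A P) :
    ∑ X ∈ P, X.card + A.card = W.card := by
  have h1 : P.biUnion id = W \ A := by
    ext v
    rw [mem_biUnion, mem_sdiff]
    constructor
    · rintro ⟨X, hX, hv⟩
      exact mem_sdiff.1 (h.sub X hX hv)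
    · rintro ⟨hv, hA⟩
      exact h.cov v hv hA
  have h2 : (P.biUnion id).card = ∑ X ∈ P, X.card := by
    rw [card_biUnion]
    · rfl
    · intro X hX Y hY hne
      exact h.dis X hX Y hY hne
  rw [← h2, h1]
  exact card_sdiff_add_card_eq_card h.Asub

/-- parity of a sum -/
lemma sum_parity {ι : Type*} (s : Finset ι) (f : ι → ℕ) :
    Odd (∑ i ∈ s, f i) ↔ Odd (s.filter fun i => Odd (f i)).card := by
  rw [Finset.odd_sum_iff_odd_card_odd]

/-- refining a decomposition -/
lemma Dec.ext {G : CG V D} {W A : Finset V} {P : Finset (Finset V)} (h : Dec G W A P)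
    {X : Finset V} (hX : X ∈ P) {v : V} (hv : v ∈ X) {B : Finset V} {R : Finset (Finset V)}
    (hB : Dec G (X.erase v) B R) :
    Dec G W (insert v (A ∪ B)) (P.erase X ∪ R) ∧
      (insert v (A ∪ B)).card = A.card + B.card + 1 ∧
      ((P.erase X ∪ R).filter fun Y => Odd Y.card).card =
        ((P.erase X).filter fun Y => Odd Y.card).card + (R.filter fun Y => Odd Y.card).card := by
  have hXW : ∀ w ∈ X, w ∈ W ∧ w ∉ A := fun w hw => mem_sdiff.1 (h.sub X hX hw)
  have hBX : ∀ w ∈ B, w ≠ v ∧ w ∈ X := fun w hw => mem_erase.1 (hB.Asub hw)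
  have hRX : ∀ Y ∈ R, ∀ w ∈ Y, (w ≠ v ∧ w ∈ X) ∧ w ∉ B := by
    intro Y hY w hw
    have h1 := mem_sdiff.1 (hB.sub Y hY hw)
    exact ⟨mem_erase.1 h1.1, h1.2⟩
  have hPX : ∀ Y ∈ P.erase X, ∀ w ∈ Y, w ∈ W ∧ w ∉ A ∧ w ∉ X := by
    intro Y hY w hw
    rw [mem_erase] at hY
    have h1 := mem_sdiff.1 (h.sub Y hY.2 hw)
    exact ⟨h1.1, h1.2, disjoint_left.1 (h.dis Y hY.2 X hX hY.1) hw⟩
  refine ⟨⟨?_, ?_, ?_, ?_, ?_⟩, ?_, ?_⟩
  · intro w hw
    rw [mem_insert, mem_union] at hw
    rcases hw with rfl | hw | hw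
    · exact (hXW _ hv).1
    · exact h.Asub hw
    · exact (hXW _ (hBX w hw).2).1
  · intro Y hY w hw
    rw [mem_sdiff, mem_insert, mem_union]
    rcases mem_union.1 hY with hY | hY
    · obtain ⟨h1, h2, h3⟩ := hPX Y hY w hw
      refine ⟨h1, ?_⟩
      rintro (rfl | h4 | h4)
      · exact h3 hv
      · exact h2 h4
      · exact h3 (hBX w h4).2
    · obtain ⟨⟨h1, h2⟩, h3⟩ := hRX Y hY w hw
      refine ⟨(hXW w h2).1, ?_⟩
      rintro (h4 | h4 | h4)
      · exact h1 h4
      · exact (hXW w h2).2 h4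
      · exact h3 h4
  · intro Y hY Z hZ hne
    rcases mem_union.1 hY with hY | hY <;> rcases mem_union.1 hZ with hZ | hZ
    · exact h.dis Y (mem_of_mem_erase hY) Z (mem_of_mem_erase hZ) hne
    · rw [disjoint_left]
      intro w h1 h2
      exact (hPX Y hY w h1).2.2 (hRX Z hZ w h2).1.2
    · rw [disjoint_left]
      intro w h1 h2
      exact (hPX Z hZ w h2).2.2 (hRX Y hY w h1).1.2
    · exact hB.dis Y hY Z hZ hne
  · intro w hw hwA
    rw [mem_insert, mem_union, not_or, not_or] at hwA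
    obtain ⟨Y, hY, hwY⟩ := h.cov w hw hwA.2.1
    by_cases hYX : Y = X
    · subst hYX
      obtain ⟨Z, hZ, hwZ⟩ := hB.cov w (mem_erase.2 ⟨hwA.1, hwY⟩) hwA.2.2
      exact ⟨Z, mem_union_right _ hZ, hwZ⟩
    · exact ⟨Y, mem_union_left _ (mem_erase.2 ⟨hYX, hY⟩), hwY⟩
  · intro Y hY d hd hp hpW
    rcases mem_union.1 hY with hY | hY
    · rcases h.leave Y (mem_of_mem_erase hY) d hd hp hpW with h1 | h1
      · exact Or.inl (mem_insert_of_mem (mem_union_left _ h1))
      · exact Or.inr h1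
    · have h1 := (hRX Y hY _ hp).1
      rcases h.leave X hX d hd h1.2 hpW with h2 | h2
      · exact Or.inl (mem_insert_of_mem (mem_union_left _ h2))
      · by_cases h3 : G.pi (G.al d) = v
        · rw [h3]; exact Or.inl (mem_insert_self _ _)
        · rcases hB.leave Y hY d hd hp (mem_erase.2 ⟨h3, h2⟩) with h4 | h4
          · exact Or.inl (mem_insert_of_mem (mem_union_right _ h4))
          · exact Or.inr h4
  · rw [card_insert_of_notMem, card_union_of_disjoint]
    · rw [disjoint_left]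
      intro w h1 h2
      exact (hXW w (hBX w h2).2).2 h1
    · rw [mem_union]
      rintro (h1 | h1)
      · exact (hXW v hv).2 h1
      · exact (hBX v h1).1 rfl
  · rw [filter_union, card_union_of_disjoint]
    rw [disjoint_left]
    intro Y h1 h2
    rw [mem_filter] at h1 h2
    obtain ⟨w, hw⟩ : Y.Nonempty := by
      rw [nonempty_iff_ne_empty]
      rintro rfl
      exact absurd h1.2 (by simp)
    exact (hPX Y h1.1 w hw).2.2 (hRX Y h2.1 w hw).1.2

/-- **maximal barriers**: all parts are odd and factor-critical -/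
theorem barrier (G : CG V D) {W : Finset V} (hW : Even W.card) (hno : ¬ ∃ N, MatW G W N) :
    ∃ A P, Dec G W A P ∧ (∀ X ∈ P, Odd X.card) ∧ (∀ X ∈ P, ∀ v ∈ X, ∃ N, MatW G (X.erase v) N) ∧
      A.card + 2 ≤ P.card := by
  -- parity
  have par : ∀ (U A : Finset V) (P : Finset (Finset V)), Even U.card → Dec G U A P →
      A.card < (P.filter fun X => Odd X.card).card →
      A.card + 2 ≤ (P.filter fun X => Odd X.card).card := by
    intro U A P hU hd hlt
    have h1 := hd.card
    have h2 := sum_parity P fun X => X.card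
    rw [Nat.odd_iff, Nat.odd_iff] at h2
    rw [Nat.even_iff] at hU
    omega
  set p : ℕ → Prop := fun n => ∃ A P, (Dec G W A P ∧
    A.card + 2 ≤ (P.filter fun X => Odd X.card).card) ∧ A.card = n with hp
  have hex : ∃ n ≤ W.card, p n := by
    rcases tutteW G W with h | ⟨A, P, h1, h2⟩
    · exact absurd h hno
    · exact ⟨A.card, card_le_card h1.Asub, A, P, ⟨h1, par W A P hW h1 h2⟩, rfl⟩
  obtain ⟨n, hn, hpn⟩ := hex
  obtain ⟨A, P, ⟨hD, hc⟩, hA⟩ := Nat.findGreatest_spec hn hpn
  have hmax : ∀ A' P', Dec G W A' P' → A'.card + 2 ≤ (P'.filter fun X => Odd X.card).card →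
      A'.card ≤ A.card := by
    intro A' P' h1 h2
    rw [hA]
    exact Nat.le_findGreatest (card_le_card h1.Asub) ⟨A', P', ⟨h1, h2⟩, rfl⟩
  -- no even part
  have hev : ∀ X ∈ P, ∀ v ∈ X, Odd X.card := by
    intro X hX v hv
    by_contra hno'
    rw [Nat.not_odd_iff_even] at hno'
    have hB : Dec G (X.erase v) ∅ {X.erase v} := by
      refine ⟨empty_subset _, ?_, ?_, ?_, ?_⟩
      · intro Y hY
        rw [mem_singleton] at hY
        rw [hY, sdiff_empty]
      · intro Y hY Z hZ hne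
        rw [mem_singleton] at hY hZ
        exact absurd (hY.trans hZ.symm) hne
      · intro w hw _
        exact ⟨_, mem_singleton_self _, hw⟩
      · intro Y hY d _ _ hp
        rw [mem_singleton] at hY
        rw [hY]
        exact Or.inr hp
    obtain ⟨h1, h2, h3⟩ := hD.ext hX hv hB
    have h4 : (P.erase X).filter (fun Y => Odd Y.card) = P.filter fun Y => Odd Y.card := by
      ext Y
      rw [mem_filter, mem_filter, mem_erase]
      constructor
      · rintro ⟨⟨_, a⟩, b⟩
        exact ⟨a, b⟩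
      · rintro ⟨a, b⟩
        refine ⟨⟨?_, a⟩, b⟩
        rintro rfl
        exact absurd hno' (Nat.not_even_iff_odd.2 b)
    have h5 : (({X.erase v} : Finset (Finset V)).filter fun Y => Odd Y.card) = {X.erase v} := by
      rw [filter_eq_self]
      intro Y hY
      rw [mem_singleton] at hY
      rw [hY, card_erase_of_mem hv]
      exact Nat.Even.sub_odd (card_pos.2 ⟨v, hv⟩) hno' odd_one
    rw [h4, h5, card_singleton] at h3
    have h6 := hmax _ _ h1 (by rw [h3, h2, card_empty]; omega)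
    rw [h2, card_empty] at h6
    omega
  have hcov : ∀ v ∈ W, v ∉ A → ∃ X ∈ P.filter (fun X => Odd X.card), v ∈ X := by
    intro v hv hvA
    obtain ⟨X, hX, hvX⟩ := hD.cov v hv hvA
    exact ⟨X, mem_filter.2 ⟨hX, hev X hX v hvX⟩, hvX⟩
  refine ⟨A, P.filter fun X => Odd X.card, ⟨hD.Asub, ?_, ?_, hcov, ?_⟩, ?_, ?_, hc⟩
  · intro X hX
    exact hD.sub X (mem_filter.1 hX).1
  · intro X hX Y hY hne
    exact hD.dis X (mem_filter.1 hX).1 Y (mem_filter.1 hY).1 hne
  · intro X hX
    exact hD.leave X (mem_filter.1 hX).1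
  · intro X hX
    exact (mem_filter.1 hX).2
  · intro X hX v hv
    rw [mem_filter] at hX
    by_contra hnoM
    have hXe : Even (X.erase v).card := by
      rw [card_erase_of_mem hv]
      exact Nat.Odd.sub_odd hX.2 odd_one
    rcases tutteW G (X.erase v) with h | ⟨B, R, h1, h2⟩
    · exact hnoM h
    · have h3 := par _ B R hXe h1 h2
      obtain ⟨g1, g2, g3⟩ := hD.ext hX.1 hv h1
      have h4 : ((P.erase X).filter fun Y => Odd Y.card).card + 1 =
          (P.filter fun Y => Odd Y.card).card := by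
        rw [filter_erase]
        exact card_erase_add_one (mem_filter.2 hX)
      have h6 := hmax _ _ g1 (by omega)
      omega

/-- `F` is a 2-factor (all vertices, no tokens) -/
structure Fac2 (G : CG V D) (F : Finset D) : Prop where
  sub : F ⊆ G.ds
  al : ∀ d ∈ F, G.al d ∈ F
  tok : ∀ d ∈ F, G.al d ≠ d
  two : ∀ v ∈ G.vs, (F.filter fun d => G.pi d = v).card = 2

/-- the darts of the other edges (and tokens) leaving `X` -/
noncomputable def jb (G : CG V D) (F : Finset D) (X : Finset V) : Finset D :=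
  (G.bd X ∪ G.tk X) \ F

/-- the darts of `F` leaving `X` -/
noncomputable def fb (G : CG V D) (F : Finset D) (X : Finset V) : Finset D :=
  (G.bd X).filter fun d => d ∈ F

lemma mem_jb {G : CG V D} {F : Finset D} {X : Finset V} {d : D} : d ∈ jb G F X ↔
    d ∈ G.ds ∧ G.pi d ∈ X ∧ (G.pi (G.al d) ∉ X ∨ G.al d = d) ∧ d ∉ F := by
  unfold jb
  rw [mem_sdiff, mem_union, mem_bd, mem_tk]
  tauto

lemma mem_fb {G : CG V D} {F : Finset D} {X : Finset V} {d : D} : d ∈ fb G F X ↔
    d ∈ G.ds ∧ G.pi d ∈ X ∧ G.pi (G.al d) ∉ X ∧ d ∈ F := by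
  unfold fb
  rw [mem_filter, mem_bd]
  tauto

namespace Fac2

variable {G : CG V D} {F : Finset D}

lemma jal (h : Fac2 G F) {d : D} (hd : d ∈ G.ds) (hF : d ∉ F) : G.al d ∉ F := by
  intro h1
  apply hF
  rw [← G.al_al d hd]
  exact h.al _ h1

/-- exactly one other dart at every vertex -/
lemma jone (h : Fac2 G F) {v : V} (hv : v ∈ G.vs) :
    ((G.ds \ F).filter fun d => G.pi d = v).card = 1 := by
  have h1 := G.cubic v hv
  have h2 := h.two v hv
  have h3 : ((G.ds \ F).filter fun d => G.pi d = v) =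
      (G.ds.filter fun d => G.pi d = v) \ (F.filter fun d => G.pi d = v) := by
    ext d
    simp only [mem_filter, mem_sdiff]
    tauto
  have h4 : (F.filter fun d => G.pi d = v) ⊆ G.ds.filter fun d => G.pi d = v :=
    filter_subset_filter _ h.sub
  rw [h3, card_sdiff_of_subset h4]
  omega

lemma jinj (h : Fac2 G F) {d e : D} (hd : d ∈ G.ds) (hdF : d ∉ F) (he : e ∈ G.ds) (heF : e ∉ F)
    (hp : G.pi d = G.pi e) : d = e := by
  have h1 := h.jone (G.pi_mem d hd)
  rw [card_eq_one] at h1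
  obtain ⟨a, ha⟩ := h1
  have h2 : d ∈ (G.ds \ F).filter fun x => G.pi x = G.pi d :=
    mem_filter.2 ⟨mem_sdiff.2 ⟨hd, hdF⟩, rfl⟩
  have h3 : e ∈ (G.ds \ F).filter fun x => G.pi x = G.pi d :=
    mem_filter.2 ⟨mem_sdiff.2 ⟨he, heF⟩, hp.symm⟩
  rw [ha, mem_singleton] at h2 h3
  rw [h2, h3]

lemma jex (h : Fac2 G F) {v : V} (hv : v ∈ G.vs) : ∃ d ∈ G.ds, d ∉ F ∧ G.pi d = v := by
  have h1 := h.jone hv
  rw [card_eq_one] at h1
  obtain ⟨a, ha⟩ := h1
  have h2 : a ∈ (G.ds \ F).filter fun x => G.pi x = v := by rw [ha]; exact mem_singleton_self _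
  rw [mem_filter, mem_sdiff] at h2
  exact ⟨a, h2.1.1, h2.1.2, h2.2⟩

/-- number of other darts at a set -/
lemma jcard (h : Fac2 G F) {X : Finset V} (hX : X ⊆ G.vs) :
    ((G.ds \ F).filter fun d => G.pi d ∈ X).card = X.card := by
  have h0 := Finset.card_eq_sum_card_fiberwise (s := (G.ds \ F).filter fun d => G.pi d ∈ X)
    (t := X) (f := G.pi) (by
      intro d hd
      exact (Finset.mem_filter.1 (Finset.mem_coe.1 hd)).2)
  rw [h0, card_eq_sum_ones]
  refine Finset.sum_congr rfl fun v hv => ?_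
  rw [← h.jone (hX hv)]
  congr 1
  ext d
  simp only [Finset.mem_filter]
  constructor
  · rintro ⟨⟨h1, _⟩, h3⟩
    exact ⟨h1, h3⟩
  · rintro ⟨h1, h3⟩
    exact ⟨⟨h1, h3 ▸ hv⟩, h3⟩

lemma fcard (h : Fac2 G F) {X : Finset V} (hX : X ⊆ G.vs) :
    (F.filter fun d => G.pi d ∈ X).card = 2 * X.card := by
  have h0 := Finset.card_eq_sum_card_fiberwise (s := F.filter fun d => G.pi d ∈ X)
    (t := X) (f := G.pi) (by
      intro d hd
      exact (Finset.mem_filter.1 (Finset.mem_coe.1 hd)).2)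
  have h1 : ∀ v ∈ X, ((F.filter fun d => G.pi d ∈ X).filter fun d => G.pi d = v).card = 2 := by
    intro v hv
    rw [← h.two v (hX hv)]
    congr 1
    ext d
    simp only [Finset.mem_filter]
    constructor
    · rintro ⟨⟨h1, _⟩, h3⟩
      exact ⟨h1, h3⟩
    · rintro ⟨h1, h3⟩
      exact ⟨⟨h1, h3 ▸ hv⟩, h3⟩
  rw [h0, Finset.sum_congr rfl h1, Finset.sum_const, smul_eq_mul, mul_comm]

/-- parity of the other darts leaving a set -/
lemma jparity (h : Fac2 G F) {X : Finset V} (hX : X ⊆ G.vs) :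
    Odd (jb G F X).card ↔ Odd X.card := by
  have h1 := h.jcard hX
  have h2 : ((G.ds \ F).filter fun d => G.pi d ∈ X).card = (jb G F X).card +
      ((G.ds \ F).filter fun d => G.pi d ∈ X ∧ G.pi (G.al d) ∈ X ∧ G.al d ≠ d).card := by
    rw [← card_union_of_disjoint]
    · congr 1
      ext d
      rw [mem_union, mem_jb, mem_filter, mem_filter, mem_sdiff]
      tauto
    · rw [disjoint_left]
      intro d h1 h2
      rw [mem_jb] at h1
      rw [mem_filter] at h2
      tauto
  have h3 : Even ((G.ds \ F).filter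
      fun d => G.pi d ∈ X ∧ G.pi (G.al d) ∈ X ∧ G.al d ≠ d).card := by
    apply G.even_of_closed
    · intro d hd
      exact (mem_sdiff.1 (mem_filter.1 hd).1).1
    · intro d hd
      rw [mem_filter, mem_sdiff] at hd ⊢
      obtain ⟨⟨a, b⟩, c, e, f⟩ := hd
      refine ⟨⟨G.al_mem d a, h.jal a b⟩, e, ?_, ?_⟩
      · rw [G.al_al d a]; exact c
      · rw [G.al_al d a]; exact fun x => f x.symm
    · intro d hd
      exact (mem_filter.1 hd).2.2.2
  rw [h1] at h2
  rw [h2, Nat.odd_add]
  constructor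
  · intro h4
    exact ⟨fun _ => h3, fun _ => h4⟩
  · intro h4
    exact h4.2 h3

/-- parity of the `F`-darts leaving a set -/
lemma fparity (h : Fac2 G F) {X : Finset V} (hX : X ⊆ G.vs) : Even (fb G F X).card := by
  have h1 := h.fcard hX
  have h2 : (F.filter fun d => G.pi d ∈ X).card = (fb G F X).card +
      (F.filter fun d => G.pi d ∈ X ∧ G.pi (G.al d) ∈ X).card := by
    rw [← card_union_of_disjoint]
    · congr 1
      ext d
      rw [mem_union, mem_fb, mem_filter, mem_filter]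
      constructor
      · rintro ⟨a, b⟩
        by_cases c : G.pi (G.al d) ∈ X
        · exact Or.inr ⟨a, b, c⟩
        · exact Or.inl ⟨h.sub a, b, c, a⟩
      · rintro (⟨_, b, _, a⟩ | ⟨a, b, _⟩) <;> exact ⟨a, b⟩
    · rw [disjoint_left]
      intro d h1 h2
      rw [mem_fb] at h1
      rw [mem_filter] at h2
      exact h1.2.2.1 h2.2.2
  have h3 : Even (F.filter fun d => G.pi d ∈ X ∧ G.pi (G.al d) ∈ X).card := by
    apply G.even_of_closed
    · exact (filter_subset _ _).trans h.sub
    · intro d hd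
      rw [mem_filter] at hd ⊢
      obtain ⟨a, c, e⟩ := hd
      refine ⟨h.al d a, e, ?_⟩
      rw [G.al_al d (h.sub a)]; exact c
    · intro d hd
      exact h.tok d (mem_filter.1 hd).1
  rw [h1] at h2
  rw [Nat.even_iff] at h3 ⊢
  omega

/-- the degree -/
lemma dg_eq (h : Fac2 G F) (X : Finset V) : G.dg X = (jb G F X).card + (fb G F X).card := by
  rw [dg_eq_card_union, ← card_union_of_disjoint]
  · congr 1
    ext d
    rw [mem_union, mem_union, mem_jb, mem_fb, mem_bd, mem_tk]
    constructor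
    · rintro (⟨a, b, c⟩ | ⟨a, b, c⟩)
      · by_cases hF : d ∈ F
        · exact Or.inr ⟨a, b, c, hF⟩
        · exact Or.inl ⟨a, b, Or.inl c, hF⟩
      · exact Or.inl ⟨a, b, Or.inr c, fun hF => h.tok d hF c⟩
    · rintro (⟨a, b, c, -⟩ | ⟨a, b, c, -⟩)
      · rcases c with c | c
        · exact Or.inl ⟨a, b, c⟩
        · exact Or.inr ⟨a, b, c⟩
      · exact Or.inl ⟨a, b, c⟩
  · rw [disjoint_left]
    intro d h1 h2
    exact (mem_jb.1 h1).2.2.2 (mem_fb.1 h2).2.2.2

end Fac2

/-- a pass from `e1` to `e2` which kills no edge of `F`, as a matching: all vertices are matched,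
every token except `e1` and `e2` is used -/
structure PassM (G : CG V D) (e1 e2 : D) (M0 : Finset D) : Prop where
  sub : M0 ⊆ G.ds
  al : ∀ d ∈ M0, G.al d ∈ M0
  one : ∀ v ∈ G.vs, (M0.filter fun d => G.pi d = v).card = 1
  tok : ∀ d ∈ G.ds, G.al d = d → (d ∈ M0 ↔ d ≠ e1 ∧ d ≠ e2)

/-- the barrier -/
structure Bar (G : CG V D) (F : Finset D) (e1 e2 : D) (O : Finset V) (P : Finset (Finset V)) :
    Prop where
  Osub : O ⊆ G.vs
  sub : ∀ X ∈ P, X ⊆ G.vs
  out : ∀ X ∈ P, ∀ v ∈ X, v ∉ O
  dis : ∀ X ∈ P, ∀ Y ∈ P, X ≠ Y → Disjoint X Y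
  cov : ∀ v ∈ G.vs, v ∉ O → ∃ X ∈ P, v ∈ X
  leave : ∀ X ∈ P, ∀ d ∈ G.bd X, G.pi (G.al d) ∈ O
  odd : ∀ X ∈ P, Odd X.card
  fc : ∀ X ∈ P, ∀ v ∈ X, ∃ N, MatW G (X.erase v) N
  tokO : ∀ d ∈ G.ds, G.al d = d → d ≠ e1 → d ≠ e2 → G.pi d ∈ O
  e1O : G.pi e1 ∉ O
  e2O : G.pi e2 ∉ O
  jO : ∀ d ∈ G.ds, d ∉ F → G.al d ≠ d → G.pi d ∈ O → G.pi (G.al d) ∉ O
  jX : ∀ X ∈ P, (jb G F X).card = 1
  cnt : P.card + (G.tk G.vs).card = O.card + 4
  fcnt : ∑ X ∈ P, (fb G F X).card + (F.filter fun d => G.pi d ∈ O ∧ G.pi (G.al d) ∈ O).card =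
    2 * O.card

lemma bd_vs (G : CG V D) : G.bd G.vs = ∅ := by
  apply Finset.eq_empty_of_forall_notMem
  intro d hd
  rw [mem_bd] at hd
  exact hd.2.2 (G.pi_mem _ (G.al_mem d hd.1))

/-- **Tutte dichotomy for passes without `F`-kills.** -/
theorem dicho (G : CG V D) {F : Finset D} (hF : Fac2 G F) {e1 e2 : D} (h1 : e1 ∈ G.ds)
    (t1 : G.al e1 = e1) (h2 : e2 ∈ G.ds) (t2 : G.al e2 = e2) (hne : e1 ≠ e2) :
    (∃ M0, PassM G e1 e2 M0) ∨ ∃ O P, Bar G F e1 e2 O P := by
  have ntok : ∀ d, G.al d = d → d ∉ F := fun d hd h => hF.tok d h hd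
  set T0 := (G.tk G.vs).filter fun d => d ≠ e1 ∧ d ≠ e2 with hT0
  have mT0 : ∀ d, d ∈ T0 ↔ d ∈ G.ds ∧ G.al d = d ∧ d ≠ e1 ∧ d ≠ e2 := by
    intro d
    rw [hT0, mem_filter, mem_tk]
    constructor
    · rintro ⟨⟨a, _, b⟩, c⟩
      exact ⟨a, b, c⟩
    · rintro ⟨a, b, c⟩
      exact ⟨⟨a, G.pi_mem d a, b⟩, c⟩
  have mtk : ∀ d, d ∈ G.tk G.vs ↔ d ∈ G.ds ∧ G.al d = d := by
    intro d
    rw [mem_tk]
    constructor
    · rintro ⟨a, _, b⟩; exact ⟨a, b⟩
    · rintro ⟨a, b⟩; exact ⟨a, G.pi_mem d a, b⟩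
  have cT0 : T0.card + 2 = (G.tk G.vs).card := by
    have e : G.tk G.vs = T0 ∪ {e1, e2} := by
      ext d
      rw [mtk, mem_union, mT0, mem_insert, mem_singleton]
      constructor
      · rintro ⟨a, b⟩
        by_cases c1 : d = e1
        · exact Or.inr (Or.inl c1)
        · by_cases c2 : d = e2
          · exact Or.inr (Or.inr c2)
          · exact Or.inl ⟨a, b, c1, c2⟩
      · rintro (⟨a, b, _⟩ | rfl | rfl)
        · exact ⟨a, b⟩
        · exact ⟨h1, t1⟩
        · exact ⟨h2, t2⟩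
    rw [e, card_union_of_disjoint, card_pair hne]
    rw [disjoint_left]
    intro d hd hd'
    rw [mT0] at hd
    rw [mem_insert, mem_singleton] at hd'
    rcases hd' with h | h
    · exact hd.2.2.1 h
    · exact hd.2.2.2 h
  set O0 := T0.image G.pi with hO0
  have cO0 : O0.card = T0.card := by
    rw [hO0]
    apply card_image_of_injOn
    intro d hd e he hp
    rw [mem_coe, mT0] at hd he
    exact hF.jinj hd.1 (ntok d hd.2.1) he.1 (ntok e he.2.1) hp
  have sO0 : O0 ⊆ G.vs := by
    intro v hv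
    rw [hO0, mem_image] at hv
    obtain ⟨d, hd, rfl⟩ := hv
    exact G.pi_mem d ((mT0 d).1 hd).1
  have hWe : Even (G.vs \ O0).card := by
    have a1 := hF.jparity (subset_refl G.vs)
    have a2 : jb G F G.vs = G.tk G.vs := by
      unfold jb
      rw [bd_vs, empty_union, Finset.sdiff_eq_self_iff_disjoint, disjoint_left]
      intro d hd hdF
      exact ntok d ((mtk d).1 hd).2 hdF
    rw [a2, Nat.odd_iff, Nat.odd_iff] at a1
    have a3 := card_sdiff_add_card_eq_card sO0
    rw [Nat.even_iff]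
    omega
  by_cases hno : ∃ N, MatW G (G.vs \ O0) N
  · left
    obtain ⟨N, hN⟩ := hno
    refine ⟨N ∪ T0, ?_, ?_, ?_, ?_⟩
    · exact union_subset hN.sub fun d hd => ((mT0 d).1 hd).1
    · intro d hd
      rcases mem_union.1 hd with hd | hd
      · exact mem_union_left _ (hN.al d hd)
      · rw [((mT0 d).1 hd).2.1]
        exact mem_union_right _ hd
    · intro v hv
      by_cases hvO : v ∈ O0
      · have e1 : (N ∪ T0).filter (fun d => G.pi d = v) = T0.filter fun d => G.pi d = v := by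
          ext d
          rw [mem_filter, mem_filter, mem_union]
          constructor
          · rintro ⟨a | a, b⟩
            · exfalso
              have := hN.inn d a
              rw [b, mem_sdiff] at this
              exact this.2 hvO
            · exact ⟨a, b⟩
          · rintro ⟨a, b⟩
            exact ⟨Or.inr a, b⟩
        rw [e1]
        rw [hO0, mem_image] at hvO
        obtain ⟨d, hd, hdv⟩ := hvO
        rw [card_eq_one]
        refine ⟨d, ?_⟩
        ext e
        rw [mem_filter, mem_singleton]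
        constructor
        · rintro ⟨a, b⟩
          rw [mT0] at a hd
          exact hF.jinj a.1 (ntok e a.2.1) hd.1 (ntok d hd.2.1) (b.trans hdv.symm)
        · rintro rfl
          exact ⟨hd, hdv⟩
      · have e1 : (N ∪ T0).filter (fun d => G.pi d = v) = N.filter fun d => G.pi d = v := by
          ext d
          rw [mem_filter, mem_filter, mem_union]
          constructor
          · rintro ⟨a | a, b⟩
            · exact ⟨a, b⟩
            · exfalso
              apply hvO
              rw [← b, hO0]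
              exact mem_image_of_mem _ a
          · rintro ⟨a, b⟩
            exact ⟨Or.inl a, b⟩
        rw [e1]
        exact hN.one v (mem_sdiff.2 ⟨hv, hvO⟩)
    · intro d hd hal
      rw [mem_union, mT0]
      constructor
      · rintro (h | h)
        · exact absurd hal (hN.tok d h)
        · exact h.2.2
      · intro h
        exact Or.inr ⟨hd, hal, h⟩
  right
  obtain ⟨A, P, hD, hodd, hfc, hcard⟩ := barrier G hWe hno
  have sA : ∀ v ∈ A, v ∈ G.vs ∧ v ∉ O0 := fun v hv => mem_sdiff.1 (hD.Asub hv)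
  have sX : ∀ X ∈ P, ∀ v ∈ X, v ∈ G.vs ∧ v ∉ O0 ∧ v ∉ A := by
    intro X hX v hv
    have a := mem_sdiff.1 (hD.sub X hX hv)
    have b := mem_sdiff.1 a.1
    exact ⟨b.1, b.2, a.2⟩
  set O := A ∪ O0 with hO
  have Osub : O ⊆ G.vs := union_subset (fun v hv => (sA v hv).1) sO0
  have cO : O.card = A.card + T0.card := by
    rw [hO, card_union_of_disjoint, cO0]
    rw [disjoint_left]
    intro v a b
    exact (sA v a).2 b
  have out : ∀ X ∈ P, ∀ v ∈ X, v ∉ O := by
    intro X hX v hv h
    obtain ⟨-, a, b⟩ := sX X hX v hv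
    rcases mem_union.1 h with h | h
    · exact b h
    · exact a h
  have Xsub : ∀ X ∈ P, X ⊆ G.vs := fun X hX v hv => (sX X hX v hv).1
  have cov : ∀ v ∈ G.vs, v ∉ O → ∃ X ∈ P, v ∈ X := by
    intro v hv h
    rw [hO, mem_union, not_or] at h
    exact hD.cov v (mem_sdiff.2 ⟨hv, h.2⟩) h.1
  have leave : ∀ X ∈ P, ∀ d ∈ G.bd X, G.pi (G.al d) ∈ O := by
    intro X hX d hd
    rw [mem_bd] at hd
    by_contra hcon
    rw [hO, mem_union, not_or] at hcon
    have hv : G.pi (G.al d) ∈ G.vs \ O0 :=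
      mem_sdiff.2 ⟨G.pi_mem _ (G.al_mem d hd.1), hcon.2⟩
    rcases hD.leave X hX d hd.1 hd.2.1 hv with h | h
    · exact hcon.1 h
    · exact hd.2.2 h
  have tokO : ∀ d ∈ G.ds, G.al d = d → d ≠ e1 → d ≠ e2 → G.pi d ∈ O := by
    intro d hd hal n1 n2
    apply mem_union_right
    rw [hO0]
    exact mem_image_of_mem _ ((mT0 d).2 ⟨hd, hal, n1, n2⟩)
  -- the counts
  set Tout := (G.tk G.vs).filter fun d => G.pi d ∉ O with hTout
  set Tin := (G.tk G.vs).filter fun d => G.pi d ∈ O with hTin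
  have cT : Tin.card + Tout.card = (G.tk G.vs).card := Finset.card_filter_add_card_filter_not _
  have Tout_sub : Tout ⊆ {e1, e2} := by
    intro d hd
    rw [hTout, mem_filter, mtk] at hd
    rw [mem_insert, mem_singleton]
    by_contra hcon
    rw [not_or] at hcon
    exact hd.2 (tokO d hd.1.1 hd.1.2 hcon.1 hcon.2)
  have cTout : Tout.card ≤ 2 := by
    have := card_le_card Tout_sub
    rw [card_pair hne] at this
    exact this
  set S1 := (G.ds \ F).filter fun d => G.pi d ∉ O ∧ G.pi (G.al d) ∈ O with hS1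
  set S2 := (G.ds \ F).filter fun d => G.pi d ∈ O ∧ G.pi (G.al d) ∉ O with hS2
  set C := (G.ds \ F).filter
    fun d => G.pi d ∈ O ∧ G.pi (G.al d) ∈ O ∧ G.al d ≠ d with hC
  have cS : S1.card = S2.card := by
    apply Finset.card_nbij' G.al G.al
    · intro d hd
      rw [mem_coe, hS1, mem_filter, mem_sdiff] at hd
      rw [mem_coe, hS2, mem_filter, mem_sdiff]
      obtain ⟨⟨a, b⟩, c, e⟩ := hd
      exact ⟨⟨G.al_mem d a, hF.jal a b⟩, e, by rw [G.al_al d a]; exact c⟩
    · intro d hd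
      rw [mem_coe, hS2, mem_filter, mem_sdiff] at hd
      rw [mem_coe, hS1, mem_filter, mem_sdiff]
      obtain ⟨⟨a, b⟩, c, e⟩ := hd
      exact ⟨⟨G.al_mem d a, hF.jal a b⟩, e, by rw [G.al_al d a]; exact c⟩
    · intro d hd
      rw [mem_coe, hS1, mem_filter, mem_sdiff] at hd
      exact G.al_al d hd.1.1
    · intro d hd
      rw [mem_coe, hS2, mem_filter, mem_sdiff] at hd
      exact G.al_al d hd.1.1
  have cjO : O.card = S2.card + Tin.card + C.card := by
    rw [← hF.jcard Osub]
    have e : ((G.ds \ F).filter fun d => G.pi d ∈ O) = (S2 ∪ Tin) ∪ C := by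
      ext d
      rw [mem_union, mem_union, hS2, hTin, hC, mem_filter, mem_filter, mem_filter, mem_filter,
        mtk, mem_sdiff]
      constructor
      · rintro ⟨⟨a, b⟩, c⟩
        by_cases x : G.pi (G.al d) ∈ O
        · by_cases y : G.al d = d
          · exact Or.inl (Or.inr ⟨⟨a, y⟩, c⟩)
          · exact Or.inr ⟨⟨a, b⟩, c, x, y⟩
        · exact Or.inl (Or.inl ⟨⟨a, b⟩, c, x⟩)
      · rintro ((⟨a, b, _⟩ | ⟨⟨a, b⟩, c⟩) | ⟨a, b, _, _⟩)
        · exact ⟨a, b⟩
        · exact ⟨⟨a, ntok d b⟩, c⟩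
        · exact ⟨a, b⟩
    rw [e, card_union_of_disjoint, card_union_of_disjoint]
    · rw [disjoint_left]
      intro d a b
      rw [hS2, mem_filter] at a
      rw [hTin, mem_filter, mtk] at b
      rw [b.1.2] at a
      exact a.2.2 a.2.1
    · rw [disjoint_left]
      intro d a b
      rw [hC, mem_filter] at b
      rcases mem_union.1 a with a | a
      · rw [hS2, mem_filter] at a
        exact a.2.2 b.2.2.1
      · rw [hTin, mem_filter, mtk] at a
        exact b.2.2.2 a.1.2
  have cjP : ∑ X ∈ P, (jb G F X).card = S1.card + Tout.card := by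
    rw [← card_biUnion, ← card_union_of_disjoint]
    · congr 1
      ext d
      rw [mem_biUnion, mem_union, hS1, hTout, mem_filter, mem_filter, mtk, mem_sdiff]
      constructor
      · rintro ⟨X, hX, hd⟩
        rw [mem_jb] at hd
        obtain ⟨a, b, c, e⟩ := hd
        by_cases y : G.al d = d
        · exact Or.inr ⟨⟨a, y⟩, out X hX _ b⟩
        · left
          rcases c with c | c
          · exact ⟨⟨a, e⟩, out X hX _ b, leave X hX d ((G.mem_bd).2 ⟨a, b, c⟩)⟩
          · exact absurd c y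
      · rintro (⟨⟨a, b⟩, c, e⟩ | ⟨⟨a, b⟩, c⟩)
        · obtain ⟨X, hX, hx⟩ := cov _ (G.pi_mem d a) c
          exact ⟨X, hX, mem_jb.2 ⟨a, hx, Or.inl fun hh => out X hX _ hh e, b⟩⟩
        · obtain ⟨X, hX, hx⟩ := cov _ (G.pi_mem d a) c
          exact ⟨X, hX, mem_jb.2 ⟨a, hx, Or.inr b, ntok d b⟩⟩
    · rw [disjoint_left]
      intro d a b
      rw [hS1, mem_filter] at a
      rw [hTout, mem_filter, mtk] at b
      rw [b.1.2] at a
      exact a.2.1 a.2.2
    · intro X hX Y hY hXY
      show Disjoint _ _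
      rw [disjoint_left]
      intro d a b
      exact disjoint_left.1 (hD.dis X hX Y hY hXY) (mem_jb.1 a).2.1 (mem_jb.1 b).2.1
  have one_le : ∀ X ∈ P, 1 ≤ (jb G F X).card := by
    intro X hX
    have a := (hF.jparity (Xsub X hX)).2 (hodd X hX)
    exact a.pos
  have hsum : P.card ≤ ∑ X ∈ P, (jb G F X).card := by
    rw [card_eq_sum_ones]
    exact sum_le_sum one_le
  have q1 : C.card = 0 := by omega
  have q2 : Tout.card = 2 := by omega
  have q3 : P.card = A.card + 2 := by omega
  have q4 : ∑ X ∈ P, 1 = ∑ X ∈ P, (jb G F X).card := by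
    rw [← card_eq_sum_ones]
    omega
  have q5 := (Finset.sum_eq_sum_iff_of_le one_le).1 q4
  have hTe : Tout = {e1, e2} := by
    apply eq_of_subset_of_card_le Tout_sub
    rw [card_pair hne, q2]
  refine ⟨O, P, Osub, Xsub, out, hD.dis, cov, leave, hodd, hfc, tokO, ?_, ?_, ?_, ?_, ?_, ?_⟩
  · have : e1 ∈ Tout := by rw [hTe]; exact mem_insert_self _ _
    exact (mem_filter.1 this).2
  · have : e2 ∈ Tout := by rw [hTe]; exact mem_insert_of_mem (mem_singleton_self _)
    exact (mem_filter.1 this).2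
  · intro d hd hdF hal hp hp'
    have : d ∈ C := by
      rw [hC, mem_filter, mem_sdiff]
      exact ⟨⟨hd, hdF⟩, hp, hp', hal⟩
    rw [card_eq_zero] at q1
    rw [q1] at this
    exact absurd this (notMem_empty _)
  · intro X hX
    exact (q5 X hX).symm
  · omega
  · have c2 := hF.fcard Osub
    have c3 : (F.filter fun d => G.pi d ∈ O).card =
        (F.filter fun d => G.pi d ∈ O ∧ G.pi (G.al d) ∉ O).card +
        (F.filter fun d => G.pi d ∈ O ∧ G.pi (G.al d) ∈ O).card := by
      rw [← card_union_of_disjoint]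
      · congr 1
        ext d
        rw [mem_union, mem_filter, mem_filter, mem_filter]
        tauto
      · rw [disjoint_left]
        intro d a b
        rw [mem_filter] at a b
        exact a.2.2 b.2.2
    have c4 : (F.filter fun d => G.pi d ∈ O ∧ G.pi (G.al d) ∉ O).card =
        (F.filter fun d => G.pi d ∉ O ∧ G.pi (G.al d) ∈ O).card := by
      apply Finset.card_nbij' G.al G.al
      · intro d hd
        rw [mem_coe, mem_filter] at hd ⊢
        obtain ⟨a, c, e⟩ := hd
        exact ⟨hF.al d a, e, by rw [G.al_al d (hF.sub a)]; exact c⟩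
      · intro d hd
        rw [mem_coe, mem_filter] at hd ⊢
        obtain ⟨a, c, e⟩ := hd
        exact ⟨hF.al d a, e, by rw [G.al_al d (hF.sub a)]; exact c⟩
      · intro d hd
        rw [mem_coe, mem_filter] at hd
        exact G.al_al d (hF.sub hd.1)
      · intro d hd
        rw [mem_coe, mem_filter] at hd
        exact G.al_al d (hF.sub hd.1)
    have c5 : ∑ X ∈ P, (fb G F X).card =
        (F.filter fun d => G.pi d ∉ O ∧ G.pi (G.al d) ∈ O).card := by
      rw [← card_biUnion]
      · congr 1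
        ext d
        rw [mem_biUnion, mem_filter]
        constructor
        · rintro ⟨X, hX, hd⟩
          rw [mem_fb] at hd
          obtain ⟨a, b, c, e⟩ := hd
          exact ⟨e, out X hX _ b, leave X hX d ((G.mem_bd).2 ⟨a, b, c⟩)⟩
        · rintro ⟨a, b, c⟩
          obtain ⟨X, hX, hx⟩ := cov _ (G.pi_mem d (hF.sub a)) b
          exact ⟨X, hX, mem_fb.2 ⟨hF.sub a, hx, fun hh => out X hX _ hh c, a⟩⟩
      · intro X hX Y hY hXY
        show Disjoint _ _
        rw [disjoint_left]
        intro d a b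
        exact disjoint_left.1 (hD.dis X hX Y hY hXY) (mem_fb.1 a).2.1 (mem_fb.1 b).2.1
    rw [c5]
    omega

/-- the `F`-darts inside the barrier -/
noncomputable def finO (G : CG V D) (F : Finset D) (O : Finset V) : Finset D :=
  F.filter fun d => G.pi d ∈ O ∧ G.pi (G.al d) ∈ O

lemma finO_even {G : CG V D} {F : Finset D} (hF : Fac2 G F) (O : Finset V) :
    Even (finO G F O).card := by
  apply G.even_of_closed
  · exact (filter_subset _ _).trans hF.sub
  · intro d hd
    unfold finO at hd ⊢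
    rw [mem_filter] at hd ⊢
    obtain ⟨a, c, e⟩ := hd
    refine ⟨hF.al d a, e, ?_⟩
    rw [G.al_al d (hF.sub a)]; exact c
  · intro d hd
    exact hF.tok d (mem_filter.1 hd).1

namespace Bar

variable {G : CG V D} {F : Finset D} {e1 e2 : D} {O : Finset V} {P : Finset (Finset V)}

/-- `#O = #P + b - 4`, and the number of `F`-edges -/
lemma excess (h : Bar G F e1 e2 O P) :
    ∑ X ∈ P, (fb G F X).card + (finO G F O).card + 8 = 2 * P.card + 2 * (G.tk G.vs).card := by
  have a := h.cnt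
  have b := h.fcnt
  unfold finO
  omega

/-- a part with no `F`-edge leaving has degree 1, so every part has at least two -/
lemma two_le (h : Bar G F e1 e2 O P) (hF : Fac2 G F) (hb : G.B0) {X : Finset V} (hX : X ∈ P) :
    2 ≤ (fb G F X).card := by
  have a := hb X (h.sub X hX) (h.odd X hX)
  rw [hF.dg_eq, h.jX X hX] at a
  omega

lemma dg_part (h : Bar G F e1 e2 O P) (hF : Fac2 G F) {X : Finset V} (hX : X ∈ P) :
    G.dg X = (fb G F X).card + 1 := by
  rw [hF.dg_eq, h.jX X hX, add_comm]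

/-- with at most three tokens there is no barrier -/
lemma four_le (h : Bar G F e1 e2 O P) (hF : Fac2 G F) (hb : G.B0) :
    4 ≤ (G.tk G.vs).card := by
  have a := h.excess
  have b : 2 * P.card ≤ ∑ X ∈ P, (fb G F X).card := by
    rw [mul_comm, ← smul_eq_mul]
    exact Finset.card_nsmul_le_sum _ _ _ fun X hX => h.two_le hF hb hX
  omega

/-- four tokens: everything is tight -/
lemma four (h : Bar G F e1 e2 O P) (hF : Fac2 G F) (hb : G.B0) (h4 : (G.tk G.vs).card = 4) :
    (∀ X ∈ P, G.dg X = 3) ∧ ∀ d ∈ F, G.pi d ∈ O → G.pi (G.al d) ∉ O := by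
  have a := h.excess
  have b : ∑ X ∈ P, 2 ≤ ∑ X ∈ P, (fb G F X).card := sum_le_sum fun X hX => h.two_le hF hb hX
  have c : ∑ X ∈ P, 2 = 2 * P.card := by rw [sum_const, smul_eq_mul, mul_comm]
  have e : ∑ X ∈ P, 2 = ∑ X ∈ P, (fb G F X).card := by omega
  have f := (Finset.sum_eq_sum_iff_of_le fun X hX => h.two_le hF hb hX).1 e
  refine ⟨fun X hX => ?_, fun d hd h1 h2 => ?_⟩
  · rw [h.dg_part hF hX, ← f X hX]
  · have g : (finO G F O).card = 0 := by omega
    rw [card_eq_zero] at g
    have : d ∈ finO G F O := mem_filter.2 ⟨hd, h1, h2⟩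
    rw [g] at this
    exact absurd this (notMem_empty _)

/-- **five tokens: (alpha) or (beta)** -/
theorem five (h : Bar G F e1 e2 O P) (hF : Fac2 G F) (hb : G.B0) (h5 : (G.tk G.vs).card = 5) :
    (∃ f0 ∈ F, G.pi f0 ∈ O ∧ G.pi (G.al f0) ∈ O ∧
      (∀ d ∈ F, G.pi d ∈ O → G.pi (G.al d) ∈ O → d = f0 ∨ d = G.al f0) ∧
      ∀ X ∈ P, G.dg X = 3) ∨
    ((∀ d ∈ F, G.pi d ∈ O → G.pi (G.al d) ∉ O) ∧
      ∃ Q ∈ P, (fb G F Q).card = 4 ∧ G.dg Q = 5 ∧ ∀ X ∈ P, X ≠ Q → G.dg X = 3) := by
  have a := h.excess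
  have b : ∑ X ∈ P, 2 ≤ ∑ X ∈ P, (fb G F X).card := sum_le_sum fun X hX => h.two_le hF hb hX
  have c : ∑ X ∈ P, 2 = 2 * P.card := by rw [sum_const, smul_eq_mul, mul_comm]
  have ev := finO_even hF O
  rcases Nat.eq_zero_or_pos (finO G F O).card with g | g
  · right
    refine ⟨fun d hd h1 h2 => ?_, ?_⟩
    · rw [card_eq_zero] at g
      have : d ∈ finO G F O := mem_filter.2 ⟨hd, h1, h2⟩
      rw [g] at this
      exact absurd this (notMem_empty _)
    · have hex : ∃ Q ∈ P, 2 < (fb G F Q).card := by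
        by_contra hcon
        push Not at hcon
        have := sum_le_sum (f := fun X => (fb G F X).card) (g := fun _ => 2) hcon
        omega
      obtain ⟨Q, hQ, h2⟩ := hex
      have e1 := sum_erase_add P (fun X => (fb G F X).card) hQ
      have e2 : ∑ X ∈ P.erase Q, 2 ≤ ∑ X ∈ P.erase Q, (fb G F X).card :=
        sum_le_sum fun X hX => h.two_le hF hb (mem_of_mem_erase hX)
      have e3 : ∑ X ∈ P.erase Q, 2 = 2 * (P.erase Q).card := by
        rw [sum_const, smul_eq_mul, mul_comm]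
      have e4 := card_erase_add_one hQ
      have e5 := hF.fparity (h.sub Q hQ)
      rw [Nat.even_iff] at e5
      have e6 : (fb G F Q).card = 4 := by
        omega
      have e7 : ∑ X ∈ P.erase Q, 2 = ∑ X ∈ P.erase Q, (fb G F X).card := by
        omega
      have f := (Finset.sum_eq_sum_iff_of_le
        fun X hX => h.two_le hF hb (mem_of_mem_erase hX)).1 e7
      refine ⟨Q, hQ, e6, by rw [h.dg_part hF hQ, e6], fun X hX hne => ?_⟩
      rw [h.dg_part hF hX, ← f X (mem_erase.2 ⟨hne, hX⟩)]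
  · left
    rw [Nat.even_iff] at ev
    have g2 : (finO G F O).card = 2 := by omega
    have e : ∑ X ∈ P, 2 = ∑ X ∈ P, (fb G F X).card := by omega
    have f := (Finset.sum_eq_sum_iff_of_le fun X hX => h.two_le hF hb hX).1 e
    obtain ⟨f0, hf0⟩ := card_pos.1 g
    have hf := mem_filter.1 hf0
    have hal : G.al f0 ∈ finO G F O := by
      refine mem_filter.2 ⟨hF.al f0 hf.1, hf.2.2, ?_⟩
      rw [G.al_al f0 (hF.sub hf.1)]
      exact hf.2.1
    have hpair : ({f0, G.al f0} : Finset D) = finO G F O := by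
      apply eq_of_subset_of_card_le
      · intro d hd
        rw [mem_insert, mem_singleton] at hd
        rcases hd with rfl | rfl
        · exact hf0
        · exact hal
      · rw [g2, card_pair (hF.tok f0 hf.1).symm]
    refine ⟨f0, hf.1, hf.2.1, hf.2.2, ?_, ?_⟩
    · intro d hd h1 h2
      have : d ∈ finO G F O := mem_filter.2 ⟨hd, h1, h2⟩
      rw [← hpair, mem_insert, mem_singleton] at this
      exact this
    · intro X hX
      rw [h.dg_part hF hX, ← f X hX]

/-- the two tokens lie in different parts -/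
lemma tokens_apart (h : Bar G F e1 e2 O P) (hF : Fac2 G F) (h1 : e1 ∈ G.ds) (t1 : G.al e1 = e1)
    (h2 : e2 ∈ G.ds) (t2 : G.al e2 = e2) (hne : e1 ≠ e2) {X : Finset V} (hX : X ∈ P)
    (hx1 : G.pi e1 ∈ X) : G.pi e2 ∉ X := by
  intro hx2
  have a := h.jX X hX
  rw [card_eq_one] at a
  obtain ⟨c, hc⟩ := a
  have b1 : e1 ∈ jb G F X := mem_jb.2 ⟨h1, hx1, Or.inr t1, fun hh => hF.tok e1 hh t1⟩
  have b2 : e2 ∈ jb G F X := mem_jb.2 ⟨h2, hx2, Or.inr t2, fun hh => hF.tok e2 hh t2⟩
  rw [hc, mem_singleton] at b1 b2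
  exact hne (b1.trans b2.symm)

end Bar

/-- at most three tokens: a pass without `F`-kills exists for every pair of tokens -/
theorem pass_of_le_three (G : CG V D) {F : Finset D} (hF : Fac2 G F) (hb : G.B0) {e1 e2 : D}
    (h1 : e1 ∈ G.ds) (t1 : G.al e1 = e1) (h2 : e2 ∈ G.ds) (t2 : G.al e2 = e2) (hne : e1 ≠ e2)
    (h3 : (G.tk G.vs).card ≤ 3) : ∃ M0, PassM G e1 e2 M0 := by
  rcases dicho G hF h1 t1 h2 t2 hne with h | ⟨O, P, h⟩
  · exact h
  · have := h.four_le hF hb
    omega

end JK.CG
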