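import Pool.Agent.Lib.JK.OfSG
import Pool.Agent.Lib.MP_c95763_co.Final

/-! Even subgraphs containing a given set of edges. -/

set_option autoImplicit false

namespace JK

open Finset Classical

variable {V : Type} [Fintype V]

/-- oriented edges -/
def ES71 (G : SimpleGraph V) : Type :=
  {p : V × V // G.Adj p.1 p.2 ∧ Fintype.equivFin V p.1 < Fintype.equivFin V p.2}

noncomputable instance (G : SimpleGraph V) : Fintype (ES71 G) := by
  unfold ES71; infer_instance

/-- first end -/
def es71s {G : SimpleGraph V} (e : ES71 G) : V := e.1.1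

/-- second end -/
def es71t {G : SimpleGraph V} (e : ES71 G) : V := e.1.2

lemma es71_ne {G : SimpleGraph V} (e : ES71 G) : es71s e ≠ es71t e := by
  intro h
  have h1 := e.2.1
  have h2 : e.1.1 = e.1.2 := h
  rw [h2] at h1
  exact G.loopless.irrefl _ h1

/-- `w` is joined to `v` by an edge of `A` -/
def nb71 {G : SimpleGraph V} (A : Finset (ES71 G)) (v w : V) : Prop :=
  ∃ e ∈ A, (es71s e = v ∧ es71t e = w) ∨ (es71s e = w ∧ es71t e = v)

lemma nb71_symm {G : SimpleGraph V} {A : Finset (ES71 G)} {v w : V} (h : nb71 A v w) :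
    nb71 A w v := by
  obtain ⟨e, he, h1 | h1⟩ := h
  · exact ⟨e, he, Or.inr h1⟩
  · exact ⟨e, he, Or.inl h1⟩

lemma nb71_adj {G : SimpleGraph V} {A : Finset (ES71 G)} {v w : V} (h : nb71 A v w) :
    G.Adj v w := by
  obtain ⟨e, he, ⟨h1, h2⟩ | ⟨h1, h2⟩⟩ := h
  · have := e.2.1
    rw [← h1, ← h2]; exact this
  · have := e.2.1
    rw [← h1, ← h2]; exact this.symm

lemma es71_ext {G : SimpleGraph V} {e e' : ES71 G} (h1 : es71s e = es71s e')
    (h2 : es71t e = es71t e') : e = e' :=
  Subtype.ext (Prod.ext h1 h2)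

lemma es71_anti {G : SimpleGraph V} {e e' : ES71 G} (h1 : es71s e = es71t e')
    (h2 : es71t e = es71s e') : False := by
  have a := e.2.2
  have b := e'.2.2
  have h1' : e.1.1 = e'.1.2 := h1
  have h2' : e.1.2 = e'.1.1 := h2
  rw [h1', h2'] at a
  exact absurd a (not_lt.mpr b.le)

lemma nb71_card {G : SimpleGraph V} (A : Finset (ES71 G)) (v : V) :
    {w | nb71 A v w}.ncard = OddFour.cn es71s es71t A {v} := by
  rw [OddFour.cn_eq_card]
  let o : ES71 G → V := fun e => if es71s e = v then es71t e else es71s e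
  have himg : {w | nb71 A v w} =
      (((A.filter (OddFour.cr es71s es71t {v})).image o : Finset V) : Set V) := by
    ext w
    rw [Set.mem_setOf_eq, mem_coe, mem_image]
    constructor
    · rintro ⟨e, he, ⟨h1, h2⟩ | ⟨h1, h2⟩⟩
      · refine ⟨e, ?_, ?_⟩
        · rw [mem_filter, OddFour.cr_singleton _ _ es71_ne]
          exact ⟨he, Or.inl h1⟩
        · show (if es71s e = v then es71t e else es71s e) = w
          rw [if_pos h1, h2]
      · refine ⟨e, ?_, ?_⟩
        · rw [mem_filter, OddFour.cr_singleton _ _ es71_ne]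
          exact ⟨he, Or.inr h2⟩
        · show (if es71s e = v then es71t e else es71s e) = w
          rw [if_neg, h1]
          intro h3
          exact es71_ne e (h3.trans h2.symm)
    · rintro ⟨e, he, h⟩
      rw [mem_filter, OddFour.cr_singleton _ _ es71_ne] at he
      have h' : (if es71s e = v then es71t e else es71s e) = w := h
      by_cases hs : es71s e = v
      · rw [if_pos hs] at h'
        exact ⟨e, he.1, Or.inl ⟨hs, h'⟩⟩
      · rw [if_neg hs] at h'
        exact ⟨e, he.1, Or.inr ⟨h', he.2.resolve_left hs⟩⟩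
  rw [himg, Set.ncard_coe_finset, card_image_of_injOn]
  intro e he e' he' h
  rw [mem_coe, mem_filter, OddFour.cr_singleton _ _ es71_ne] at he he'
  have h' : (if es71s e = v then es71t e else es71s e) =
    (if es71s e' = v then es71t e' else es71s e') := h
  by_cases hs : es71s e = v <;> by_cases hs' : es71s e' = v
  · rw [if_pos hs, if_pos hs'] at h'
    exact es71_ext (hs.trans hs'.symm) h'
  · rw [if_pos hs, if_neg hs'] at h'
    exact (es71_anti (hs.trans (he'.2.resolve_left hs').symm) h').elim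
  · rw [if_neg hs, if_pos hs'] at h'
    exact (es71_anti h' ((he.2.resolve_left hs).trans hs'.symm)).elim
  · rw [if_neg hs, if_neg hs'] at h'
    exact es71_ext h' ((he.2.resolve_left hs).trans (he'.2.resolve_left hs').symm)

/-- the oriented edge of an adjacent pair -/
lemma es71_exists {G : SimpleGraph V} {a b : V} (h : G.Adj a b) :
    ∃ e : ES71 G, (es71s e = a ∧ es71t e = b) ∨ (es71s e = b ∧ es71t e = a) := by
  rcases lt_trichotomy (Fintype.equivFin V a) (Fintype.equivFin V b) with h1 | h1 | h1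
  · exact ⟨⟨(a, b), h, h1⟩, Or.inl ⟨rfl, rfl⟩⟩
  · exact absurd ((Fintype.equivFin V).injective h1) h.ne
  · exact ⟨⟨(b, a), h.symm, h1⟩, Or.inr ⟨rfl, rfl⟩⟩

/-- a symmetric set of darts containing no odd cut extends to an even subgraph
(from `OddFour.exists_cycle`, or directly) -/
lemma exists_even (G : SimpleGraph V) (hc : ∀ v : V, (G.neighborSet v).ncard = 3)
    (T : Finset (V × V)) (hT : ∀ d ∈ T, G.Adj d.1 d.2) (hs : ∀ d ∈ T, d.swap ∈ T)
    (hZ : ∀ Z : Finset V, Odd Z.card → ∃ d ∈ (ofSG G hc).bd Z, d ∉ T) :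
    ∃ C : SimpleGraph V, C ≤ G ∧ (∀ d ∈ T, C.Adj d.1 d.2) ∧
      ∀ v : V, Even ((C.neighborSet v).ncard) := by
  have hdeg : ∀ v : V, OddFour.cn (es71s (G := G)) es71t univ {v} = 3 := by
    intro v
    rw [← nb71_card, ← hc v]
    congr 1
    ext w
    rw [Set.mem_setOf_eq, SimpleGraph.mem_neighborSet]
    refine ⟨nb71_adj, fun h => ?_⟩
    obtain ⟨e, he⟩ := es71_exists h
    exact ⟨e, mem_univ _, he⟩
  obtain ⟨Cs, hDC, hC⟩ := OddFour.exists_cycle (es71s (G := G)) es71t es71_ne
    (univ.filter fun e : ES71 G => (es71s e, es71t e) ∈ T) (by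
      intro Z hcr
      rw [← Nat.not_odd_iff_even]
      intro ho
      have ho' : Odd Z.card := by
        rw [← OddFour.odd_cn (A := (univ : Finset (ES71 G))) (fun e _ => es71_ne e)]
        · exact ho
        · intro v _
          rw [hdeg v]
          decide
      obtain ⟨d, hd, hdT⟩ := hZ Z ho'
      rw [ofSG_mem_bd] at hd
      obtain ⟨hadj, h1, h2⟩ := hd
      obtain ⟨e, ⟨ha, hb⟩ | ⟨ha, hb⟩⟩ := es71_exists hadj
      · have hce : OddFour.cr es71s es71t Z e := by
          unfold OddFour.cr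
          rw [ha, hb]
          exact fun hh => h2 (hh.mp h1)
        have := hcr e hce
        rw [mem_filter, ha, hb] at this
        exact hdT this.2
      · have hce : OddFour.cr es71s es71t Z e := by
          unfold OddFour.cr
          rw [ha, hb]
          exact fun hh => h2 (hh.mpr h1)
        have := hcr e hce
        rw [mem_filter, ha, hb] at this
        exact hdT (hs _ this.2))
  refine ⟨{ Adj := nb71 Cs, symm := ⟨fun _ _ => nb71_symm⟩, loopless := ⟨?_⟩ }, ?_, ?_, ?_⟩
  · intro v hv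
    exact G.loopless.irrefl v (nb71_adj hv)
  · intro v w h
    exact nb71_adj h
  · intro d hd
    obtain ⟨e, ⟨ha, hb⟩ | ⟨ha, hb⟩⟩ := es71_exists (hT d hd)
    · refine ⟨e, hDC ?_, Or.inl ⟨ha, hb⟩⟩
      rw [mem_filter, ha, hb]
      exact ⟨mem_univ _, hd⟩
    · refine ⟨e, hDC ?_, Or.inr ⟨ha, hb⟩⟩
      rw [mem_filter, ha, hb]
      exact ⟨mem_univ _, hs _ hd⟩
  · intro v
    show Even ({w | nb71 Cs v w}.ncard)
    rw [nb71_card]
    exact hC v

end JK
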