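import Pool.Agent.Lib.JK.CutTwo

/-! In a minimal counterexample no union of fresh circuits has at most four vertices (F4). -/

set_option autoImplicit false

namespace JK.CG

open Finset Classical

variable {V D : Type*} {G : CG V D} {K : Finset V} {F : Finset D}

/-- a perfect matching of `Z` by edges of `F` -/
structure ND (G : CG V D) (F : Finset D) (Z : Finset V) (nx : V → V) (nd : V → D) : Prop where
  nxm : ∀ x ∈ Z, nx x ∈ Z
  nxx : ∀ x ∈ Z, nx (nx x) = x
  nxne : ∀ x ∈ Z, nx x ≠ x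
  ndF : ∀ x ∈ Z, nd x ∈ F
  ndpi : ∀ x ∈ Z, G.pi (nd x) = x
  ndal : ∀ x ∈ Z, G.al (nd x) = nd (nx x)

/-- every vertex of `Z` has exactly one dart leaving `Z` -/
structure LG (G : CG V D) (Z : Finset V) (lg : V → D) : Prop where
  sub : Z ⊆ G.vs
  mem : ∀ x ∈ Z, lg x ∈ G.ds
  pi : ∀ x ∈ Z, G.pi (lg x) = x
  out : ∀ x ∈ Z, G.pi (G.al (lg x)) ∉ Z
  all : ∀ d ∈ G.bd Z, d = lg (G.pi d)

namespace LG

variable {Z : Finset V} {lg : V → D} {nx : V → V} {nd : V → D}

lemma eq (h : G.LG Z lg) {d : D} (hd : d ∈ G.ds) (hn : G.pi d ∉ Z) (hz : G.pi (G.al d) ∈ Z) :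
    lg (G.pi (G.al d)) = G.al d := by
  refine (h.all _ ((G.mem_bd).2 ⟨G.al_mem d hd, hz, ?_⟩)).symm
  rw [G.al_al d hd]
  exact hn

/-- delete `Z` and join the outer darts of the legs at `x` and `nx x` -/
noncomputable def gr (h : G.LG Z lg) (n : G.ND F Z nx nd) : CG V D where
  vs := G.vs \ Z
  ds := G.ds.filter fun d => G.pi d ∉ Z
  pi := G.pi
  al := fun d => if G.pi (G.al d) ∈ Z then G.al (lg (nx (G.pi (G.al d)))) else G.al d
  pi_mem := by
    intro d hd
    rw [mem_filter] at hd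
    exact mem_sdiff.2 ⟨G.pi_mem d hd.1, hd.2⟩
  al_mem := by
    intro d hd
    rw [mem_filter] at hd
    by_cases hz : G.pi (G.al d) ∈ Z
    · rw [if_pos hz]
      have h1 := n.nxm _ hz
      exact mem_filter.2 ⟨G.al_mem _ (h.mem _ h1), h.out _ h1⟩
    · rw [if_neg hz]
      exact mem_filter.2 ⟨G.al_mem d hd.1, hz⟩
  al_al := by
    intro d hd
    rw [mem_filter] at hd
    by_cases hz : G.pi (G.al d) ∈ Z
    · have h1 := n.nxm _ hz
      have h2 : G.al (G.al (lg (nx (G.pi (G.al d))))) = lg (nx (G.pi (G.al d))) :=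
        G.al_al _ (h.mem _ h1)
      have h3 : G.pi (lg (nx (G.pi (G.al d)))) = nx (G.pi (G.al d)) := h.pi _ h1
      rw [if_pos hz, h2, h3, if_pos h1, n.nxx _ hz, h.eq hd.1 hd.2 hz, G.al_al d hd.1]
    · rw [if_neg hz, G.al_al d hd.1, if_neg hd.2]
  cubic := by
    intro v hv
    rw [mem_sdiff] at hv
    rw [← G.cubic v hv.1, filter_filter]
    congr 1
    ext d
    simp only [mem_filter]
    constructor
    · rintro ⟨h1, _, h3⟩
      exact ⟨h1, h3⟩
    · rintro ⟨h1, h3⟩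
      exact ⟨h1, by rw [h3]; exact hv.2, h3⟩

lemma gr_vs (h : G.LG Z lg) (n : G.ND F Z nx nd) : (h.gr n).vs = G.vs \ Z := rfl

lemma gr_pi (h : G.LG Z lg) (n : G.ND F Z nx nd) : (h.gr n).pi = G.pi := rfl

lemma mem_gr_ds (h : G.LG Z lg) (n : G.ND F Z nx nd) {d : D} :
    d ∈ (h.gr n).ds ↔ d ∈ G.ds ∧ G.pi d ∉ Z := by
  show d ∈ G.ds.filter (fun d => G.pi d ∉ Z) ↔ _
  rw [mem_filter]

lemma gr_al_in (h : G.LG Z lg) (n : G.ND F Z nx nd) {d : D} (hz : G.pi (G.al d) ∈ Z) :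
    (h.gr n).al d = G.al (lg (nx (G.pi (G.al d)))) := by
  show (if G.pi (G.al d) ∈ Z then G.al (lg (nx (G.pi (G.al d)))) else G.al d) = _
  rw [if_pos hz]

lemma gr_al_out (h : G.LG Z lg) (n : G.ND F Z nx nd) {d : D} (hz : G.pi (G.al d) ∉ Z) :
    (h.gr n).al d = G.al d := by
  show (if G.pi (G.al d) ∈ Z then G.al (lg (nx (G.pi (G.al d)))) else G.al d) = _
  rw [if_neg hz]

/-- the outer dart of the leg at `x` -/
lemma gr_al_leg (h : G.LG Z lg) (n : G.ND F Z nx nd) {x : V} (hx : x ∈ Z) :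
    (h.gr n).al (G.al (lg x)) = G.al (lg (nx x)) := by
  have h1 : G.al (G.al (lg x)) = lg x := G.al_al _ (h.mem _ hx)
  have h2 : G.pi (G.al (G.al (lg x))) = x := by rw [h1, h.pi _ hx]
  rw [h.gr_al_in n (by rw [h2]; exact hx), h2]

lemma leg_mem (h : G.LG Z lg) (n : G.ND F Z nx nd) {x : V} (hx : x ∈ Z) :
    G.al (lg x) ∈ (h.gr n).ds :=
  (h.mem_gr_ds n).2 ⟨G.al_mem _ (h.mem _ hx), h.out _ hx⟩

/-- the legs are different -/
lemma inj (h : G.LG Z lg) {x y : V} (hx : x ∈ Z) (hy : y ∈ Z) (e : G.al (lg x) = G.al (lg y)) :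
    x = y := by
  have h1 : lg x = lg y := by
    rw [← G.al_al _ (h.mem _ hx), ← G.al_al _ (h.mem _ hy), e]
  rw [← h.pi _ hx, ← h.pi _ hy, h1]

/-- the vertices of `Z` whose leg ends in `W` -/
noncomputable def kk (G : CG V D) (Z : Finset V) (lg : V → D) (W : Finset V) : Finset V :=
  Z.filter fun x => G.pi (G.al (lg x)) ∈ W

/-- the vertices `x` of `Z` such that the legs at `x` and `nx x` both end in `W` -/
noncomputable def pp (G : CG V D) (Z : Finset V) (lg : V → D) (nx : V → V) (W : Finset V) :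
    Finset V :=
  Z.filter fun x => G.pi (G.al (lg x)) ∈ W ∧ G.pi (G.al (lg (nx x))) ∈ W

lemma ed_card (h : G.LG Z lg) {W : Finset V} (hW : Disjoint Z W) :
    (G.ed Z W).card = (kk G Z lg W).card := by
  have e : G.ed Z W = (kk G Z lg W).image lg := by
    ext d
    rw [mem_ed, mem_image]
    constructor
    · rintro ⟨h1, h2, h3⟩
      have h4 : d ∈ G.bd Z := (G.mem_bd).2 ⟨h1, h2, fun q => (disjoint_left.1 hW) q h3⟩
      have h5 := h.all d h4
      refine ⟨G.pi d, ?_, h5.symm⟩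
      unfold kk
      rw [mem_filter, ← h5]
      exact ⟨h2, h3⟩
    · rintro ⟨x, h1, rfl⟩
      unfold kk at h1
      rw [mem_filter] at h1
      refine ⟨h.mem _ h1.1, ?_, h1.2⟩
      rw [h.pi _ h1.1]
      exact h1.1
  rw [e]
  apply card_image_of_injOn
  intro x hx y hy hxy
  have hx' := mem_coe.1 hx
  have hy' := mem_coe.1 hy
  unfold kk at hx' hy'
  rw [mem_filter] at hx' hy'
  have hxy' : lg x = lg y := hxy
  rw [← h.pi _ hx'.1, ← h.pi _ hy'.1, hxy']

lemma gr_bd_card (h : G.LG Z lg) (n : G.ND F Z nx nd) {W : Finset V} (hW : Disjoint Z W) :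
    ((h.gr n).bd W).card + (pp G Z lg nx W).card = (G.bd W).card := by
  have hWZ : ∀ v ∈ W, v ∉ Z := fun v hv q => (disjoint_left.1 hW) q hv
  have e : G.bd W = (h.gr n).bd W ∪ (pp G Z lg nx W).image (fun x => G.al (lg x)) := by
    ext d
    rw [mem_union, mem_bd, mem_bd, mem_image, h.mem_gr_ds n, h.gr_pi n]
    constructor
    · rintro ⟨h1, h2, h3⟩
      have h4 := hWZ _ h2
      by_cases hz : G.pi (G.al d) ∈ Z
      · rw [h.gr_al_in n hz]
        by_cases h5 : G.pi (G.al (lg (nx (G.pi (G.al d))))) ∈ W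
        · right
          refine ⟨G.pi (G.al d), ?_, ?_⟩
          · unfold pp
            rw [mem_filter, h.eq h1 h4 hz, G.al_al d h1]
            exact ⟨hz, h2, h5⟩
          · show G.al (lg (G.pi (G.al d))) = d
            rw [h.eq h1 h4 hz, G.al_al d h1]
        · left
          exact ⟨⟨h1, h4⟩, h2, h5⟩
      · left
        rw [h.gr_al_out n hz]
        exact ⟨⟨h1, h4⟩, h2, h3⟩
    · rintro (⟨⟨h1, h4⟩, h2, h3⟩ | ⟨x, hx, rfl⟩)
      · refine ⟨h1, h2, ?_⟩
        by_cases hz : G.pi (G.al d) ∈ Z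
        · exact fun q => hWZ _ q hz
        · rwa [h.gr_al_out n hz] at h3
      · unfold pp at hx
        rw [mem_filter] at hx
        refine ⟨G.al_mem _ (h.mem _ hx.1), hx.2.1, ?_⟩
        rw [G.al_al _ (h.mem _ hx.1), h.pi _ hx.1]
        exact fun q => hWZ _ q hx.1
  rw [e, card_union_of_disjoint, card_image_of_injOn]
  · intro x hx y hy hxy
    have hx' := mem_coe.1 hx
    have hy' := mem_coe.1 hy
    unfold pp at hx' hy'
    rw [mem_filter] at hx' hy'
    exact h.inj hx'.1 hy'.1 hxy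
  · rw [disjoint_left]
    rintro d h1 h2
    rw [mem_image] at h2
    obtain ⟨x, hx, rfl⟩ := h2
    unfold pp at hx
    rw [mem_filter] at hx
    rw [mem_bd, h.gr_pi n, h.gr_al_leg n hx.1] at h1
    exact h1.2.2 hx.2.2

lemma gr_tk (h : G.LG Z lg) (n : G.ND F Z nx nd) {W : Finset V} (hW : Disjoint Z W) :
    (h.gr n).tk W = G.tk W := by
  have hWZ : ∀ v ∈ W, v ∉ Z := fun v hv q => (disjoint_left.1 hW) q hv
  ext d
  rw [mem_tk, mem_tk, h.mem_gr_ds n, h.gr_pi n]
  constructor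
  · rintro ⟨⟨h1, h4⟩, h2, h3⟩
    refine ⟨h1, h2, ?_⟩
    by_cases hz : G.pi (G.al d) ∈ Z
    · exfalso
      rw [h.gr_al_in n hz] at h3
      have h5 : G.al (lg (G.pi (G.al d))) = d := by
        rw [h.eq h1 h4 hz, G.al_al d h1]
      exact n.nxne _ hz (h.inj (n.nxm _ hz) hz (h3.trans h5.symm))
    · rwa [h.gr_al_out n hz] at h3
  · rintro ⟨h1, h2, h3⟩
    have h4 := hWZ _ h2
    refine ⟨⟨h1, h4⟩, h2, ?_⟩
    rw [h.gr_al_out n (by rw [h3]; exact h4)]
    exact h3

lemma gr_dg (h : G.LG Z lg) (n : G.ND F Z nx nd) {W : Finset V} (hW : Disjoint Z W) :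
    (h.gr n).dg W + (pp G Z lg nx W).card = G.dg W := by
  have h1 := h.gr_bd_card n hW
  unfold dg
  rw [h.gr_tk n hW]
  omega

/-- the classes of the new graph -/
lemma gr_cls (h : G.LG Z lg) (n : G.ND F Z nx nd) (hc : G.Cls K F) (hZ : G.Adm K F Z) :
    (h.gr n).Cls K (F.filter fun d => G.pi d ∉ Z) := by
  have hal : ∀ d ∈ F, G.pi d ∉ Z → G.pi (G.al d) ∉ Z := by
    intro d hd h1 h2
    have h3 := hZ.clo _ (hc.Fal d hd) h2
    rw [G.al_al d (hc.Fsub hd)] at h3
    exact h1 h3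
  refine ⟨?_, ?_, ?_, ?_, ?_, ?_⟩
  · intro v hv
    exact mem_sdiff.2 ⟨hc.Ksub hv, fun q => hZ.dis v q hv⟩
  · intro d hd
    rw [mem_filter] at hd
    exact (h.mem_gr_ds n).2 ⟨hc.Fsub hd.1, hd.2⟩
  · intro d hd
    rw [mem_filter] at hd
    have h1 := hal d hd.1 hd.2
    rw [h.gr_al_out n h1, mem_filter]
    exact ⟨hc.Fal d hd.1, h1⟩
  · intro d hd
    rw [mem_filter] at hd
    rw [h.gr_al_out n (hal d hd.1 hd.2)]
    exact hc.Ftok d hd.1
  · intro v hv hvK
    rw [h.gr_vs n, mem_sdiff] at hv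
    rw [← hc.F2 v hv.1 hvK]
    show ((F.filter fun d => G.pi d ∉ Z).filter fun d => G.pi d = v).card = _
    congr 1
    ext d
    simp only [mem_filter]
    constructor
    · rintro ⟨⟨h2, _⟩, h3⟩
      exact ⟨h2, h3⟩
    · rintro ⟨h2, h3⟩
      exact ⟨⟨h2, by rw [h3]; exact hv.2⟩, h3⟩
  · intro d hd ht
    rw [h.mem_gr_ds n] at hd
    have h1 : d ∈ (h.gr n).tk {G.pi d} :=
      ((h.gr n).mem_tk).2 ⟨(h.mem_gr_ds n).2 hd, mem_singleton_self _, ht⟩
    rw [h.gr_tk n (disjoint_singleton_right.2 hd.2), mem_tk] at h1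
    exact hc.tokK d h1.1 h1.2.2

lemma gr_adm (h : G.LG Z lg) (n : G.ND F Z nx nd) (hc : G.Cls K F) (hZ : G.Adm K F Z)
    {W : Finset V} : (h.gr n).Adm K (F.filter fun d => G.pi d ∉ Z) W ↔
      G.Adm K F W ∧ Disjoint Z W := by
  have hal : ∀ d ∈ F, G.pi d ∉ Z → G.pi (G.al d) ∉ Z := by
    intro d hd h1 h2
    have h3 := hZ.clo _ (hc.Fal d hd) h2
    rw [G.al_al d (hc.Fsub hd)] at h3
    exact h1 h3
  constructor
  · intro q
    have hs : W ⊆ G.vs \ Z := q.sub
    have hd : ∀ v ∈ W, v ∉ Z := fun v hv => (mem_sdiff.1 (hs hv)).2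
    refine ⟨⟨hs.trans sdiff_subset, q.dis, ?_⟩, disjoint_left.2 fun v h1 h2 => hd v h2 h1⟩
    intro d h1 h2
    have h3 := hd _ h2
    have h4 := q.clo d (mem_filter.2 ⟨h1, h3⟩) h2
    rwa [h.gr_al_out n (hal d h1 h3)] at h4
  · rintro ⟨q, hd⟩
    have hd' : ∀ v ∈ W, v ∉ Z := fun v hv h1 => (disjoint_left.1 hd) h1 hv
    refine ⟨fun v hv => mem_sdiff.2 ⟨q.sub hv, hd' v hv⟩, q.dis, ?_⟩
    intro d h1 h2
    rw [mem_filter] at h1
    rw [h.gr_al_out n (hal d h1.1 h1.2)]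
    exact q.clo d h1.1 h2

/-- the lift of a matching of the new graph -/
noncomputable def lm (G : CG V D) (Z : Finset V) (lg nd : V → D) (M : Finset D) : Finset D :=
  Z.image fun x => if G.al (lg x) ∈ M then lg x else nd x

lemma mem_lm {M : Finset D} {d : D} : d ∈ lm G Z lg nd M ↔
    ∃ x ∈ Z, (if G.al (lg x) ∈ M then lg x else nd x) = d := by
  unfold lm
  rw [mem_image]

lemma lift_pm (h : G.LG Z lg) (n : G.ND F Z nx nd) (hc : G.Cls K F) {M : Finset D}
    (hM : (h.gr n).IsPM M) : G.IsPM (M ∪ lm G Z lg nd M) := by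
  have hm : ∀ d ∈ M, d ∈ G.ds ∧ G.pi d ∉ Z := fun d hd => (h.mem_gr_ds n).1 (hM.sub hd)
  have hpi : ∀ x ∈ Z, G.pi (if G.al (lg x) ∈ M then lg x else nd x) = x := by
    intro x hx
    split_ifs
    · exact h.pi x hx
    · exact n.ndpi x hx
  -- the legs at `x` and `nx x` are used together
  have hxx : ∀ x ∈ Z, G.al (lg x) ∈ M → G.al (lg (nx x)) ∈ M := by
    intro x hx h1
    have h2 := hM.closed _ h1
    rwa [h.gr_al_leg n hx] at h2
  refine pm_sides (X := Z) hm ?_ ?_ ?_ ?_ ?_ ?_ ?_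
  · intro d hd
    obtain ⟨x, hx, rfl⟩ := mem_lm.1 hd
    refine ⟨?_, by rw [hpi x hx]; exact hx⟩
    split_ifs
    · exact h.mem x hx
    · exact hc.Fsub (n.ndF x hx)
  · intro d hd
    have h1 := hm d hd
    by_cases hz : G.pi (G.al d) ∈ Z
    · refine mem_union_right _ (mem_lm.2 ⟨G.pi (G.al d), hz, ?_⟩)
      rw [h.eq h1.1 h1.2 hz, G.al_al d h1.1, if_pos hd]
    · have h2 := hM.closed d hd
      rw [h.gr_al_out n hz] at h2
      exact mem_union_left _ h2
  · intro d hd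
    obtain ⟨x, hx, rfl⟩ := mem_lm.1 hd
    by_cases h1 : G.al (lg x) ∈ M
    · rw [if_pos h1]
      exact mem_union_left _ h1
    · rw [if_neg h1, n.ndal x hx]
      refine mem_union_right _ (mem_lm.2 ⟨nx x, n.nxm x hx, ?_⟩)
      rw [if_neg]
      intro h2
      apply h1
      have h3 := hxx _ (n.nxm x hx) h2
      rwa [n.nxx x hx] at h3
  · intro d hd h1
    have h2 := hm d hd
    by_cases hz : G.pi (G.al d) ∈ Z
    · rw [h1] at hz
      exact h2.2 hz
    · exact hM.notok d hd (by rw [h.gr_al_out n hz]; exact h1)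
  · intro d hd
    obtain ⟨x, hx, rfl⟩ := mem_lm.1 hd
    split_ifs with h1
    · intro h2
      apply h.out x hx
      rw [h2, h.pi x hx]
      exact hx
    · exact hc.Ftok _ (n.ndF x hx)
  · intro v hv hvZ
    exact hM.one v (mem_sdiff.2 ⟨hv, hvZ⟩)
  · intro v hv hvZ
    rw [card_eq_one]
    refine ⟨if G.al (lg v) ∈ M then lg v else nd v, ?_⟩
    ext d
    rw [mem_filter, mem_singleton, mem_lm]
    constructor
    · rintro ⟨⟨x, hx, rfl⟩, h2⟩
      rw [hpi x hx] at h2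
      rw [h2]
    · rintro rfl
      exact ⟨⟨v, hvZ, rfl⟩, hpi v hvZ⟩

/-- the lift is good if `Z` is one circuit -/
lemma lift_good (h : G.LG Z lg) (n : G.ND F Z nx nd) (hc : G.Cls K F) (hZ : G.Adm K F Z)
    (hev : Even Z.card) (hone : ∀ X, G.Adm K F X → Z ⊆ X ∨ Disjoint Z X) {M : Finset D}
    (hM : (h.gr n).Good K (F.filter fun d => G.pi d ∉ Z) M) :
    G.Good K F (M ∪ lm G Z lg nd M) := by
  have hpm := h.lift_pm n hc hM.pm
  refine ⟨hpm, ?_⟩
  intro X hX ho
  by_contra hcon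
  push Not at hcon
  have hlm : ∀ d ∈ M ∪ lm G Z lg nd M, G.pi d ∉ Z → d ∈ M := by
    intro d hd h1
    rcases mem_union.1 hd with h2 | h2
    · exact h2
    · exfalso
      obtain ⟨x, hx, rfl⟩ := mem_lm.1 h2
      apply h1
      split_ifs
      · rw [h.pi x hx]; exact hx
      · rw [n.ndpi x hx]; exact hx
  -- a leg in the matching
  have hleg : ∀ x ∈ Z, lg x ∈ M ∪ lm G Z lg nd M → G.al (lg x) ∈ M := by
    intro x hx h1
    refine hlm _ (hpm.closed _ h1) (h.out x hx)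
  have hadm : G.Adm K F (X \ Z) := by
    refine ⟨sdiff_subset.trans hX.sub, fun v hv => hX.dis v (mem_sdiff.1 hv).1, ?_⟩
    intro d hd h1
    rw [mem_sdiff] at h1 ⊢
    refine ⟨hX.clo d hd h1.1, fun h2 => h1.2 ?_⟩
    have h3 := hZ.clo _ (hc.Fal d hd) h2
    rwa [G.al_al d (hc.Fsub hd)] at h3
  have hodd : Odd (X \ Z).card := by
    rcases hone X hX with h1 | h1
    · rw [← card_sdiff_add_card_eq_card h1, Nat.odd_add] at ho
      exact ho.2 hev
    · rw [sdiff_eq_self_of_disjoint h1.symm]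
      exact ho
  obtain ⟨d, hd, hdM⟩ := hM.hit (X \ Z) ((h.gr_adm n hc hZ).2 ⟨hadm, disjoint_sdiff⟩) hodd
  rw [mem_bd, h.mem_gr_ds n, h.gr_pi n] at hd
  obtain ⟨⟨h1, h2⟩, h3, h4⟩ := hd
  apply hdM
  by_cases hz : G.pi (G.al d) ∈ Z
  · -- `d` is the outer dart of a leg
    rw [h.gr_al_in n hz] at h4
    have hx := hz
    set x := G.pi (G.al d) with hxd
    have h5 : G.al (lg x) = d := by
      rw [hxd, h.eq h1 h2 hz, G.al_al d h1]
    have hnx := n.nxm x hx
    rcases hone X hX with h6 | h6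
    · have h7 : lg (nx x) ∈ G.bd X := by
        refine (G.mem_bd).2 ⟨h.mem _ hnx, ?_, ?_⟩
        · rw [h.pi _ hnx]
          exact h6 hnx
        · exact fun h8 => h4 (mem_sdiff.2 ⟨h8, h.out _ hnx⟩)
      have h8 := hleg _ hnx (hcon _ h7)
      have h9 := hM.pm.closed _ h8
      rw [h.gr_al_leg n hnx, n.nxx x hx, h5] at h9
      exact h9
    · have h7 : d ∈ G.bd X := by
        refine (G.mem_bd).2 ⟨h1, (mem_sdiff.1 h3).1, ?_⟩
        exact fun h8 => (disjoint_left.1 h6) hz h8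
      exact hlm d (hcon d h7) h2
  · rw [h.gr_al_out n hz] at h4
    refine hlm d (hcon d ((G.mem_bd).2 ⟨h1, (mem_sdiff.1 h3).1, ?_⟩)) h2
    exact fun h8 => h4 (mem_sdiff.2 ⟨h8, hz⟩)

lemma kk_sub {W : Finset V} : kk G Z lg W ⊆ Z := filter_subset _ _

lemma mem_kk {W : Finset V} {x : V} :
    x ∈ kk G Z lg W ↔ x ∈ Z ∧ G.pi (G.al (lg x)) ∈ W := by
  unfold kk
  rw [mem_filter]

lemma kk_inter {W W' : Finset V} : kk G Z lg (W ∩ W') = kk G Z lg W ∩ kk G Z lg W' := by
  ext x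
  simp only [mem_kk, mem_inter]
  tauto

lemma kk_union {W W' : Finset V} : kk G Z lg (W ∪ W') = kk G Z lg W ∪ kk G Z lg W' := by
  ext x
  simp only [mem_kk, mem_union]
  tauto

lemma pp_sub {W : Finset V} : pp G Z lg nx W ⊆ kk G Z lg W := by
  intro x hx
  unfold pp at hx
  rw [mem_filter] at hx
  exact mem_kk.2 ⟨hx.1, hx.2.1⟩

lemma bd_card (h : G.LG Z lg) : (G.bd Z).card = Z.card := by
  have e : G.bd Z = Z.image lg := by
    ext d
    rw [mem_image]
    constructor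
    · intro hd
      exact ⟨G.pi d, (G.mem_bd.1 hd).2.1, (h.all d hd).symm⟩
    · rintro ⟨x, hx, rfl⟩
      exact G.mem_bd.2 ⟨h.mem x hx, by rw [h.pi x hx]; exact hx, h.out x hx⟩
  rw [e, card_image_of_injOn]
  intro x hx y hy hxy
  have hxy' : lg x = lg y := hxy
  rw [← h.pi _ (mem_coe.1 hx), ← h.pi _ (mem_coe.1 hy), hxy']

/-- counting the legs -/
lemma cnt (h : G.LG Z lg) (ht : G.tk Z = ∅) {W : Finset V} (hW : Disjoint Z W) :
    G.dg (Z ∪ W) + 2 * (kk G Z lg W).card = Z.card + G.dg W := by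
  have h1 := G.dg_union hW
  rw [h.ed_card hW] at h1
  have h2 : G.dg Z = Z.card := by
    unfold dg
    rw [ht, card_empty, add_zero, h.bd_card]
  omega

/-- an odd set which makes the new graph bad -/
structure Blk (G : CG V D) (K : Finset V) (F : Finset D) (Z : Finset V) (lg : V → D)
    (nx : V → V) (W : Finset V) : Prop where
  sub : W ⊆ G.vs
  dis : Disjoint Z W
  odd : Odd W.card
  two : (kk G Z lg W).card = 2
  clo : ∀ x ∈ kk G Z lg W, nx x ∈ kk G Z lg W
  ty : G.dg W = 3 ∨ (G.Adm K F W ∧ G.dg W = 5)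

private lemma f4_tk (hc : G.Cls K F) {Z : Finset V} (h : G.Adm K F Z) : G.tk Z = ∅ := by
  rw [Finset.eq_empty_iff_forall_notMem]
  intro d hd
  rw [G.mem_tk] at hd
  exact h.dis _ hd.2.1 (hc.tokK d hd.1 hd.2.2)

private lemma f4_int {Z Z' : Finset V} (h : G.Adm K F Z) (h' : G.Adm K F Z') :
    G.Adm K F (Z ∩ Z') where
  sub := fun _ hx => h.sub (mem_inter.1 hx).1
  dis := fun v hv => h.dis v (mem_inter.1 hv).1
  clo := fun d hd hp => mem_inter.2 ⟨h.clo d hd (mem_inter.1 hp).1, h'.clo d hd (mem_inter.1 hp).2⟩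

private lemma f4_uni {Z Z' : Finset V} (h : G.Adm K F Z) (h' : G.Adm K F Z') :
    G.Adm K F (Z ∪ Z') where
  sub := union_subset h.sub h'.sub
  dis := fun v hv => (mem_union.1 hv).elim (h.dis v) (h'.dis v)
  clo := fun d hd hp => mem_union.2 ((mem_union.1 hp).imp (h.clo d hd) (h'.clo d hd))

private lemma f4_dif (hc : G.Cls K F) {Z Z' : Finset V} (h : G.Adm K F Z)
    (h' : G.Adm K F Z') : G.Adm K F (Z \ Z') where
  sub := fun _ hx => h.sub (mem_sdiff.1 hx).1
  dis := fun v hv => h.dis v (mem_sdiff.1 hv).1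
  clo := by
    intro d hd hp
    rw [mem_sdiff] at hp ⊢
    refine ⟨h.clo d hd hp.1, fun hq => hp.2 ?_⟩
    have := h'.clo (G.al d) (hc.Fal d hd) hq
    rwa [G.al_al d (hc.Fsub hd)] at this

private lemma f4_dg5 (hI : G.Inst K F) {W : Finset V} (h : G.Adm K F W) (ho : Odd W.card) :
    5 ≤ G.dg W := by
  have := hI.cc W h ho
  unfold dg
  omega

/-- either the new graph is an instance or there is a blocking set -/
lemma inst_or (h : G.LG Z lg) (n : G.ND F Z nx nd) (hI : G.Inst K F) (hZ : G.Adm K F Z)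
    (h4 : Z.card = 4) : (h.gr n).Inst K (F.filter fun d => G.pi d ∉ Z) ∨
      ∃ W, Blk G K F Z lg nx W := by
  by_cases hB : ∃ W, Blk G K F Z lg nx W
  · exact Or.inr hB
  left
  have htZ := f4_tk hI.cls hZ
  have key : ∀ W ⊆ G.vs, Disjoint Z W → Odd W.card → (h.gr n).dg W ≤ 3 →
      ((h.gr n).dg W = 1 ∨ (G.Adm K F W)) → False := by
    intro W hWs hd ho h3 hty
    have hWg : W ⊆ (h.gr n).vs := fun v hv => mem_sdiff.2 ⟨hWs hv, fun q => (disjoint_left.1 hd) q hv⟩
    have e1 := h.gr_dg n hd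
    have e2 := h.cnt htZ hd
    have hod : Odd (Z ∪ W).card := by
      rw [card_union_of_disjoint hd, h4, Nat.odd_add]
      exact ⟨fun q => absurd q (by decide), fun q => absurd q (Nat.not_even_iff_odd.2 ho)⟩
    have e3 := hI.b0 (Z ∪ W) (union_subset h.sub hWs) hod
    have e4 := hI.b0 W hWs ho
    have p1 := ((h.gr n).dg_parity hWg).2 ho
    have p2 := (G.dg_parity hWs).2 ho
    have p3 : (pp G Z lg nx W).card ≤ (kk G Z lg W).card := card_le_card pp_sub
    have p4 : (kk G Z lg W).card ≤ 4 := by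
      rw [← h4]
      exact card_le_card kk_sub
    obtain ⟨k1, hk1⟩ := p1
    obtain ⟨k2, hk2⟩ := p2
    have e5 : (kk G Z lg W).card = 2 ∧ (pp G Z lg nx W).card = 2 ∧
        (G.dg W = 3 ∨ (G.Adm K F W ∧ G.dg W = 5)) := by
      rcases hty with h1 | h1
      · refine ⟨by omega, by omega, Or.inl (by omega)⟩
      · have q1 := f4_dg5 hI h1 ho
        have q2 := f4_dg5 hI (f4_uni hZ h1) hod
        refine ⟨by omega, by omega, Or.inr ⟨h1, by omega⟩⟩
    have e6 : pp G Z lg nx W = kk G Z lg W :=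
      eq_of_subset_of_card_le pp_sub (by omega)
    apply hB
    refine ⟨W, hWs, hd, ho, e5.1, ?_, e5.2.2⟩
    intro x hx
    have hx' := hx
    rw [← e6] at hx'
    unfold pp at hx'
    rw [mem_filter] at hx'
    exact mem_kk.2 ⟨n.nxm x hx'.1, hx'.2.2⟩
  refine ⟨?_, ?_, ?_, h.gr_cls n hI.cls hZ, ?_⟩
  · have h1 : (G.vs \ Z).card + Z.card = G.vs.card := card_sdiff_add_card_eq_card h.sub
    have h2 := hI.even
    show Even (G.vs \ Z).card
    rw [← h1, h4] at h2
    rw [Nat.even_add] at h2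
    exact h2.2 (by decide)
  · have h1 : (h.gr n).tk (h.gr n).vs = G.tk (G.vs \ Z) := h.gr_tk n disjoint_sdiff
    have h2 : G.tk (G.vs \ Z) ⊆ G.tk G.vs := by
      intro d hd
      rw [mem_tk] at hd ⊢
      exact ⟨hd.1, (mem_sdiff.1 hd.2.1).1, hd.2.2⟩
    rw [h1]
    exact (card_le_card h2).trans hI.four
  · intro W hW ho
    have hWs : W ⊆ G.vs := fun v hv => (mem_sdiff.1 (hW hv)).1
    have hd : Disjoint Z W := disjoint_left.2 fun v h1 h2 => (mem_sdiff.1 (hW h2)).2 h1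
    by_contra hlt
    have p1 := ((h.gr n).dg_parity hW).2 ho
    obtain ⟨k1, hk1⟩ := p1
    exact key W hWs hd ho (by omega) (Or.inl (by omega))
  · intro W hW ho
    have hW' := (h.gr_adm n hI.cls hZ).1 hW
    by_contra hlt
    have p1 := ((h.gr n).dg_parity hW.sub).2 ho
    have p2 : (h.gr n).tk W = ∅ := by
      rw [h.gr_tk n hW'.2]
      exact f4_tk hI.cls hW'.1
    have p3 : (h.gr n).dg W = ((h.gr n).bd W).card := by
      unfold dg
      rw [p2, card_empty, add_zero]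
    obtain ⟨k1, hk1⟩ := p1
    exact key W hW'.1.sub hW'.2 ho (by omega) (Or.inr hW'.1)

/-- no fresh circuit crosses the boundary of a blocking set of degree three -/
lemma Blk.cross (h : G.LG Z lg) (hc : G.Cls K F) (hZ : G.Adm K F Z) {W Y : Finset V}
    (hb : Blk G K F Z lg nx W) (h3 : G.dg W = 3) (hY : G.Adm K F Y) : G.Adm K F (W ∩ Y) := by
  refine ⟨inter_subset_left.trans hb.sub, fun v hv => hY.dis v (mem_inter.1 hv).2, ?_⟩
  intro d hd hv
  rw [mem_inter] at hv
  have hvY := hY.clo d hd hv.2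
  refine mem_inter.2 ⟨?_, hvY⟩
  by_contra hW
  have h1 := hc.even_cross (Y := W ∩ Y) (inter_subset_left.trans hb.sub)
    (fun v hv => hY.dis v (mem_inter.1 hv).2)
  set A := F.filter (fun d => G.pi d ∈ W ∩ Y ∧ G.pi (G.al d) ∉ W ∩ Y) with hA
  have hdA : d ∈ A := by
    rw [hA, mem_filter]
    exact ⟨hd, mem_inter.2 hv, fun q => hW (mem_inter.1 q).1⟩
  have h2 : 2 ≤ A.card := by
    have h3 : 0 < A.card := card_pos.2 ⟨d, hdA⟩
    obtain ⟨k, hk⟩ := h1
    omega
  set B := (kk G Z lg W).image (fun x => G.al (lg x)) with hB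
  have hBc : B.card = 2 := by
    rw [hB, card_image_of_injOn, hb.two]
    intro x hx y hy hxy
    exact h.inj (mem_kk.1 (mem_coe.1 hx)).1 (mem_kk.1 (mem_coe.1 hy)).1 hxy
  have hAB : Disjoint A B := by
    rw [disjoint_left]
    intro e he he'
    rw [hA, mem_filter] at he
    rw [hB, mem_image] at he'
    obtain ⟨x, hx, rfl⟩ := he'
    rw [mem_kk] at hx
    have h4 := hc.Fal _ he.1
    rw [G.al_al _ (h.mem _ hx.1)] at h4
    exact h.out _ hx.1 (hZ.clo _ h4 (by rw [h.pi _ hx.1]; exact hx.1))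
  have hsub : A ∪ B ⊆ G.bd W := by
    intro e he
    rcases mem_union.1 he with h4 | h4
    · rw [hA, mem_filter, mem_inter] at h4
      refine G.mem_bd.2 ⟨hc.Fsub h4.1, h4.2.1.1, ?_⟩
      exact fun q => h4.2.2 (mem_inter.2 ⟨q, hY.clo _ h4.1 h4.2.1.2⟩)
    · rw [hB, mem_image] at h4
      obtain ⟨x, hx, rfl⟩ := h4
      rw [mem_kk] at hx
      refine G.mem_bd.2 ⟨G.al_mem _ (h.mem _ hx.1), hx.2, ?_⟩
      rw [G.al_al _ (h.mem _ hx.1), h.pi _ hx.1]
      exact fun q => (disjoint_left.1 hb.dis) hx.1 q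
  have h4 := card_le_card hsub
  rw [card_union_of_disjoint hAB, hBc] at h4
  unfold dg at h3
  omega

/-- two sets of two elements of `Z`, closed under different fixed point free involutions -/
private lemma f4_one {Z A1 A2 : Finset V} {nx1 nx2 : V → V} (h4 : Z.card = 4) (s1 : A1 ⊆ Z)
    (s2 : A2 ⊆ Z) (c1 : A1.card = 2) (c2 : A2.card = 2) (m1 : ∀ x ∈ A1, nx1 x ∈ A1)
    (m2 : ∀ x ∈ A2, nx2 x ∈ A2) (z1 : ∀ x ∈ Z, nx1 x ≠ x) (z2 : ∀ x ∈ Z, nx2 x ≠ x)
    (zz : ∀ x ∈ Z, nx2 (nx2 x) = x) (zm : ∀ x ∈ Z, nx2 x ∈ Z)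
    (hne : ∀ x ∈ Z, nx1 x ≠ nx2 x) : (A1 ∩ A2).card = 1 := by
  -- `A1` contains no `x`, `nx2 x`
  have key : ∀ x ∈ A1, nx2 x ∉ A1 := by
    intro x hx h2
    have h3 : ({x, nx1 x, nx2 x} : Finset V) ⊆ A1 := by
      intro y hy
      rw [mem_insert, mem_insert, mem_singleton] at hy
      rcases hy with rfl | rfl | rfl
      · exact hx
      · exact m1 x hx
      · exact h2
    have h5 := card_le_card h3
    have hxZ := s1 hx
    rw [card_insert_of_notMem, card_insert_of_notMem, card_singleton, c1] at h5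
    · omega
    · rw [mem_singleton]
      exact hne x hxZ
    · rw [mem_insert, mem_singleton, not_or]
      exact ⟨(z1 x hxZ).symm, (z2 x hxZ).symm⟩
  have hne1 : A1 ≠ A2 := by
    intro he
    obtain ⟨x, hx⟩ : A1.Nonempty := card_pos.1 (by omega)
    exact key x hx (by rw [he] at hx ⊢; exact m2 x hx)
  have hne2 : (A1 ∩ A2).Nonempty := by
    by_contra he
    rw [not_nonempty_iff_eq_empty] at he
    have hd : Disjoint A1 A2 := disjoint_iff_inter_eq_empty.2 he
    have hu : A1 ∪ A2 = Z := by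
      apply eq_of_subset_of_card_le (union_subset s1 s2)
      rw [card_union_of_disjoint hd, c1, c2, h4]
    obtain ⟨x, hx⟩ : A1.Nonempty := card_pos.1 (by omega)
    have hxZ := s1 hx
    have h1 := zm x hxZ
    rw [← hu, mem_union] at h1
    rcases h1 with h1 | h1
    · exact key x hx h1
    · have h2 := m2 _ h1
      rw [zz x hxZ] at h2
      exact (disjoint_left.1 hd) hx h2
  have h1 : (A1 ∩ A2).card ≤ 2 := by
    rw [← c1]
    exact card_le_card inter_subset_left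
  have h2 : (A1 ∩ A2).card ≠ 2 := by
    intro h3
    apply hne1
    have h5 : A1 ∩ A2 = A1 := eq_of_subset_of_card_le inter_subset_left (by omega)
    have h6 : A1 ∩ A2 = A2 := eq_of_subset_of_card_le inter_subset_right (by omega)
    rw [← h5, h6]
  have h3 := card_pos.2 hne2
  omega

/-- the two ways of joining the legs are not both blocked -/
lemma two_blk (h : G.LG Z lg) (hI : G.Inst K F) (hZ : G.Adm K F Z) (h4 : Z.card = 4)
    {nx1 nx2 : V → V} {nd1 nd2 : V → D} (n1 : G.ND F Z nx1 nd1) (n2 : G.ND F Z nx2 nd2)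
    (hne : ∀ x ∈ Z, nx1 x ≠ nx2 x) {W1 W2 : Finset V} (b1 : Blk G K F Z lg nx1 W1)
    (b2 : Blk G K F Z lg nx2 W2) : False := by
  have htZ := f4_tk hI.cls hZ
  have hone := f4_one h4 kk_sub kk_sub b1.two b2.two b1.clo b2.clo n1.nxne n2.nxne n2.nxx n2.nxm hne
  have hk : (kk G Z lg (W1 ∪ W2)).card = 3 := by
    have h1 := card_union_add_card_inter (kk G Z lg W1) (kk G Z lg W2)
    rw [kk_union]
    have h2 := b1.two
    have h3 := b2.two
    omega
  have hdis : Disjoint Z (W1 ∪ W2) := disjoint_union_right.2 ⟨b1.dis, b2.dis⟩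
  have hUs : W1 ∪ W2 ⊆ G.vs := union_subset b1.sub b2.sub
  have hcnt := h.cnt htZ hdis
  have hcc := card_union_add_card_inter W1 W2
  obtain ⟨k1, hk1⟩ := b1.odd
  obtain ⟨k2, hk2⟩ := b2.odd
  -- the intersection is a union of circuits in the mixed case
  rcases Nat.even_or_odd (W1 ∩ W2).card with he | ho
  · have hi1 := card_sdiff_add_card_inter W1 W2
    have hi2 := card_sdiff_add_card_inter W2 W1
    rw [inter_comm W2 W1] at hi2
    obtain ⟨k3, hk3⟩ := he
    have o1 : Odd (W1 \ W2).card := ⟨k1 - k3, by omega⟩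
    have o2 : Odd (W2 \ W1).card := ⟨k2 - k3, by omega⟩
    have hp := G.dg_posimod b1.sub b2.sub
    have hed : 1 ≤ (G.ed (W1 ∩ W2) (G.vs \ (W1 ∪ W2))).card := by
      obtain ⟨z, hz⟩ := card_pos.1 (by omega : 0 < (kk G Z lg W1 ∩ kk G Z lg W2).card)
      rw [← kk_inter, mem_kk] at hz
      apply card_pos.2
      refine ⟨G.al (lg z), ?_⟩
      rw [mem_ed]
      refine ⟨G.al_mem _ (h.mem _ hz.1), hz.2, ?_⟩
      rw [G.al_al _ (h.mem _ hz.1), h.pi _ hz.1]
      exact mem_sdiff.2 ⟨h.sub hz.1, fun q => (disjoint_left.1 hdis) hz.1 q⟩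
    have g1 := hI.b0 _ (sdiff_subset.trans b1.sub) o1
    have g2 := hI.b0 _ (sdiff_subset.trans b2.sub) o2
    rcases b1.ty with t1 | ⟨a1, t1⟩ <;> rcases b2.ty with t2 | ⟨a2, t2⟩
    · omega
    · have h1 : G.Adm K F (W2 \ W1) := by
        have h2 := f4_dif hI.cls a2 (b1.cross h hI.cls hZ t1 a2)
        have h3 : W2 \ (W1 ∩ W2) = W2 \ W1 := by
          ext v
          simp only [mem_sdiff, mem_inter]
          tauto
        rwa [h3] at h2
      have h2 := f4_dg5 hI h1 o2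
      omega
    · have h1 : G.Adm K F (W1 \ W2) := by
        have h2 := f4_dif hI.cls a1 (b2.cross h hI.cls hZ t2 a1)
        have h3 : W1 \ (W2 ∩ W1) = W1 \ W2 := by
          ext v
          simp only [mem_sdiff, mem_inter]
          tauto
        rwa [h3] at h2
      have h2 := f4_dg5 hI h1 o1
      omega
    · have h1 := f4_dg5 hI (f4_dif hI.cls a1 a2) o1
      have h2 := f4_dg5 hI (f4_dif hI.cls a2 a1) o2
      omega
  · have hs := G.dg_submod W1 W2
    have hoU : Odd (W1 ∪ W2).card := by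
      obtain ⟨k3, hk3⟩ := ho
      exact ⟨k1 + k2 - k3, by omega⟩
    have hoZ : Odd (Z ∪ (W1 ∪ W2)).card := by
      rw [card_union_of_disjoint hdis, h4, Nat.odd_add]
      exact ⟨fun q => absurd q (by decide), fun q => absurd q (Nat.not_even_iff_odd.2 hoU)⟩
    have g1 := hI.b0 _ (inter_subset_left.trans b1.sub) ho
    have g2 := hI.b0 _ (union_subset h.sub hUs) hoZ
    rcases b1.ty with t1 | ⟨a1, t1⟩ <;> rcases b2.ty with t2 | ⟨a2, t2⟩
    · omega
    · have h1 := f4_dg5 hI (b1.cross h hI.cls hZ t1 a2) ho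
      omega
    · have h2 := b2.cross h hI.cls hZ t2 a1
      rw [inter_comm] at h2
      have h1 := f4_dg5 hI h2 ho
      omega
    · have h1 := f4_dg5 hI (f4_int a1 a2) ho
      have h2 := f4_dg5 hI (f4_uni hZ (f4_uni a1 a2)) hoZ
      omega

end LG

/-- at most one dart of a vertex of `Z` leaves `Z` -/
private lemma f4_leg (hc : G.Cls K F) {Z : Finset V} (hZ : G.Adm K F Z) {d e : D}
    (hd : d ∈ G.bd Z) (he : e ∈ G.bd Z) (hp : G.pi d = G.pi e) : d = e := by
  rw [mem_bd] at hd he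
  have hv := hZ.sub hd.2.1
  have h3 := G.cubic _ hv
  have h2 := hc.F2 _ hv (hZ.dis _ hd.2.1)
  have hs : (F.filter fun x => G.pi x = G.pi d) ⊆ G.ds.filter fun x => G.pi x = G.pi d := by
    intro x hx
    rw [mem_filter] at hx ⊢
    exact ⟨hc.Fsub hx.1, hx.2⟩
  have h1 := card_sdiff_add_card_eq_card hs
  have h4 : ((G.ds.filter fun x => G.pi x = G.pi d) \
      (F.filter fun x => G.pi x = G.pi d)).card = 1 := by omega
  obtain ⟨y, hy⟩ := card_eq_one.1 h4
  have h5 : d ∈ (G.ds.filter fun x => G.pi x = G.pi d) \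
      (F.filter fun x => G.pi x = G.pi d) := by
    rw [mem_sdiff, mem_filter, mem_filter]
    exact ⟨⟨hd.1, rfl⟩, fun q => hd.2.2 (hZ.clo _ q.1 hd.2.1)⟩
  have h6 : e ∈ (G.ds.filter fun x => G.pi x = G.pi d) \
      (F.filter fun x => G.pi x = G.pi d) := by
    rw [mem_sdiff, mem_filter, mem_filter]
    exact ⟨⟨he.1, hp.symm⟩, fun q => he.2.2 (hZ.clo _ q.1 he.2.1)⟩
  rw [hy, mem_singleton] at h5 h6
  rw [h5, h6]

private lemma f4_bd_le (hc : G.Cls K F) {Z : Finset V} (hZ : G.Adm K F Z) :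
    (G.bd Z).card ≤ Z.card := by
  apply card_le_card_of_injOn G.pi
  · intro d hd
    exact mem_coe.2 (G.mem_bd.1 (mem_coe.1 hd)).2.1
  · intro d hd e he hp
    exact f4_leg hc hZ (mem_coe.1 hd) (mem_coe.1 he) hp

private lemma f4_four_le (h : G.MC K F) {Z : Finset V} (hZ : G.Adm K F Z) (hne : Z.Nonempty) :
    4 ≤ Z.card := by
  have h1 := f4_bd_le h.inst.cls hZ
  rcases Nat.even_or_odd Z.card with he | ho
  · have := h.four_le_bd hZ.sub he hne hZ.dis
    omega
  · have := h.inst.cc Z hZ ho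
    omega

private lemma f4_lg (h : G.MC K F) {Z : Finset V} (hZ : G.Adm K F Z) (h4 : Z.card = 4) :
    ∃ lg, G.LG Z lg := by
  have hne : Z.Nonempty := card_pos.1 (by omega)
  have h1 := f4_bd_le h.inst.cls hZ
  have h2 := h.four_le_bd hZ.sub (by rw [h4]; decide) hne hZ.dis
  have h3 : (G.bd Z).image G.pi = Z := by
    apply eq_of_subset_of_card_le
    · intro v hv
      obtain ⟨d, hd, rfl⟩ := mem_image.1 hv
      exact (G.mem_bd.1 hd).2.1
    · rw [card_image_of_injOn]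
      · omega
      · intro d hd e he hp
        exact f4_leg h.inst.cls hZ (mem_coe.1 hd) (mem_coe.1 he) hp
  have h5 : ∀ x ∈ Z, ∃ d, d ∈ G.bd Z ∧ G.pi d = x := by
    intro x hx
    rw [← h3] at hx
    obtain ⟨d, hd, hp⟩ := mem_image.1 hx
    exact ⟨d, hd, hp⟩
  obtain ⟨x0, hx0⟩ := hne
  obtain ⟨d0, _⟩ := h5 x0 hx0
  have : Nonempty D := ⟨d0⟩
  choose! lg hlg using h5
  refine ⟨lg, hZ.sub, ?_, ?_, ?_, ?_⟩
  · exact fun x hx => (G.mem_bd.1 (hlg x hx).1).1
  · exact fun x hx => (hlg x hx).2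
  · exact fun x hx => (G.mem_bd.1 (hlg x hx).1).2.2
  · intro d hd
    have h6 := (G.mem_bd.1 hd).2.1
    exact f4_leg h.inst.cls hZ hd (hlg _ h6).1 (hlg _ h6).2.symm

/-- a perfect matching of a set of four vertices -/
private lemma f4_nd (hc : G.Cls K F) {Z : Finset V} {x1 x2 y1 y2 : V} {p s : D}
    (hZ : ∀ x, x ∈ Z ↔ x = x1 ∨ x = x2 ∨ x = y1 ∨ x = y2) (h12 : x1 ≠ x2) (h13 : x1 ≠ y1)
    (h14 : x1 ≠ y2) (h23 : x2 ≠ y1) (h24 : x2 ≠ y2) (h34 : y1 ≠ y2) (hp : p ∈ F) (hs : s ∈ F)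
    (e1 : G.pi p = x1) (e2 : G.pi (G.al p) = x2) (e3 : G.pi s = y1) (e4 : G.pi (G.al s) = y2) :
    ∃ nx nd, G.ND F Z nx nd ∧ nx x1 = x2 ∧ nx x2 = x1 ∧ nx y1 = y2 ∧ nx y2 = y1 := by
  have a1 := G.al_al _ (hc.Fsub hp)
  have a2 := G.al_al _ (hc.Fsub hs)
  have f1 := hc.Fal _ hp
  have f2 := hc.Fal _ hs
  refine ⟨fun x => if x = x1 then x2 else if x = x2 then x1 else if x = y1 then y2 else y1,
    fun x => if x = x1 then p else if x = x2 then G.al p else if x = y1 then s else G.al s,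
    ⟨?_, ?_, ?_, ?_, ?_, ?_⟩, ?_, ?_, ?_, ?_⟩
  · intro x hx
    rcases (hZ x).1 hx with rfl | rfl | rfl | rfl <;> simp [hZ, h12, h12.symm, h13, h13.symm, h14,
      h14.symm, h23, h23.symm, h24, h24.symm, h34, h34.symm]
  · intro x hx
    rcases (hZ x).1 hx with rfl | rfl | rfl | rfl <;> simp [h12, h12.symm, h13, h13.symm, h14,
      h14.symm, h23, h23.symm, h24, h24.symm, h34, h34.symm]
  · intro x hx
    rcases (hZ x).1 hx with rfl | rfl | rfl | rfl <;> simp [h12, h12.symm, h13, h13.symm, h14,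
      h14.symm, h23, h23.symm, h24, h24.symm, h34, h34.symm]
  · intro x hx
    rcases (hZ x).1 hx with rfl | rfl | rfl | rfl <;> simp [h12, h12.symm, h13, h13.symm, h14,
      h14.symm, h23, h23.symm, h24, h24.symm, h34, h34.symm, hp, hs, f1, f2]
  · intro x hx
    rcases (hZ x).1 hx with rfl | rfl | rfl | rfl <;> simp [h12, h12.symm, h13, h13.symm, h14,
      h14.symm, h23, h23.symm, h24, h24.symm, h34, h34.symm, e1, e2, e3, e4]
  · intro x hx
    rcases (hZ x).1 hx with rfl | rfl | rfl | rfl <;> simp [h12, h12.symm, h13, h13.symm, h14,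
      h14.symm, h23, h23.symm, h24, h24.symm, h34, h34.symm, a1, a2]
  · simp
  · simp [h12.symm]
  · simp [h13.symm, h23.symm]
  · simp [h14.symm, h24.symm, h34.symm]

/-- the second dart of `F` at a vertex of `Z` -/
private lemma f4_snd (hc : G.Cls K F) {Z : Finset V} (hZ : G.Adm K F Z) {p : D} (hp : p ∈ F)
    (hpZ : G.pi p ∈ Z) : ∃ q ∈ F, G.pi q = G.pi p ∧ q ≠ p ∧
      ∀ d ∈ F, G.pi d = G.pi p → d = p ∨ d = q := by
  have h2 := hc.F2 _ (hZ.sub hpZ) (hZ.dis _ hpZ)
  have h1 : p ∈ F.filter fun x => G.pi x = G.pi p := mem_filter.2 ⟨hp, rfl⟩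
  have h3 : ((F.filter fun x => G.pi x = G.pi p).erase p).card = 1 := by
    rw [card_erase_of_mem h1, h2]
  obtain ⟨q, hq⟩ := card_eq_one.1 h3
  have h4 : q ∈ (F.filter fun x => G.pi x = G.pi p).erase p := by
    rw [hq]
    exact mem_singleton_self q
  rw [mem_erase, mem_filter] at h4
  refine ⟨q, h4.2.1, h4.2.2, h4.1, ?_⟩
  intro d hd hdp
  by_cases hdq : d = p
  · exact Or.inl hdq
  · right
    have h5 : d ∈ (F.filter fun x => G.pi x = G.pi p).erase p :=
      mem_erase.2 ⟨hdq, mem_filter.2 ⟨hd, hdp⟩⟩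
    rw [hq] at h5
    exact mem_singleton.1 h5

/-- the two perfect matchings of a circuit of length four -/
private lemma f4_cyc (hc : G.Cls K F) {Z : Finset V} (hZ : G.Adm K F Z) (h4 : Z.card = 4)
    (hno : ∀ Y, G.Adm K F Y → Y.Nonempty → 4 ≤ Y.card) :
    ∃ nx1 nd1 nx2 nd2, G.ND F Z nx1 nd1 ∧ G.ND F Z nx2 nd2 ∧ ∀ x ∈ Z, nx1 x ≠ nx2 x := by
  have hinj : ∀ d ∈ F, ∀ e ∈ F, G.al d = G.al e → d = e := by
    intro d hd e he h1
    rw [← G.al_al d (hc.Fsub hd), ← G.al_al e (hc.Fsub he), h1]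
  have hal : ∀ d ∈ F, G.al (G.al d) = d := fun d hd => G.al_al d (hc.Fsub hd)
  have hmk : ∀ Y, Y ⊆ Z → (∀ d ∈ F, G.pi d ∈ Y → G.pi (G.al d) ∈ Y) → Y.Nonempty →
      4 ≤ Y.card := by
    intro Y hY h1 h2
    exact hno Y ⟨hY.trans hZ.sub, fun v hv => hZ.dis v (hY hv), h1⟩ h2
  obtain ⟨a, ha⟩ : Z.Nonempty := card_pos.1 (by omega)
  obtain ⟨p, hpF, hpa⟩ : ∃ p ∈ F, G.pi p = a := by
    have h2 := hc.F2 _ (hZ.sub ha) (hZ.dis _ ha)
    obtain ⟨p, hp⟩ := card_pos.1 (by omega : 0 < (F.filter fun x => G.pi x = a).card)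
    rw [mem_filter] at hp
    exact ⟨p, hp.1, hp.2⟩
  obtain ⟨q, hqF, hqa, hqp, hda⟩ := f4_snd hc hZ hpF (by rw [hpa]; exact ha)
  rw [hpa] at hqa hda
  obtain ⟨b, hb⟩ : ∃ b, G.pi (G.al p) = b := ⟨_, rfl⟩
  obtain ⟨e, he⟩ : ∃ e, G.pi (G.al q) = e := ⟨_, rfl⟩
  have hbZ : b ∈ Z := by rw [← hb]; exact hZ.clo p hpF (by rw [hpa]; exact ha)
  have heZ : e ∈ Z := by rw [← he]; exact hZ.clo q hqF (by rw [hqa]; exact ha)
  have hapF := hc.Fal p hpF
  have haqF := hc.Fal q hqF
  have hab : a ≠ b := by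
    intro h1
    have h2 := hda _ hapF (hb.trans h1.symm)
    have h3 : G.al p = q := h2.resolve_left (hc.Ftok p hpF)
    have h5 := hmk {a} (singleton_subset_iff.2 ha) (by
      intro d hd hdp
      rw [mem_singleton] at hdp ⊢
      rcases hda d hd hdp with rfl | rfl
      · rw [hb, h1]
      · rw [← h3, hal p hpF, hpa]) (singleton_nonempty a)
    rw [card_singleton] at h5
    omega
  have hae : a ≠ e := by
    intro h1
    have h2 := hda _ haqF (he.trans h1.symm)
    have h3 : G.al q = p := h2.resolve_right (hc.Ftok q hqF)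
    apply hab
    rw [← hb, ← h3, hal q hqF, hqa]
  obtain ⟨r, hrF, hrb, hrp, hdb⟩ := f4_snd hc hZ hapF (by rw [hb]; exact hbZ)
  rw [hb] at hrb hdb
  obtain ⟨s, hsF, hse, hsq, hde⟩ := f4_snd hc hZ haqF (by rw [he]; exact heZ)
  rw [he] at hse hde
  have hbe : b ≠ e := by
    intro h1
    have h2 := hdb _ haqF (he.trans h1.symm)
    have h3 : G.al q = r := h2.resolve_left fun h3 => hqp (hinj q hqF p hpF h3)
    have h5 := hmk {a, b} (by
      intro x hx
      rw [mem_insert, mem_singleton] at hx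
      rcases hx with rfl | rfl
      · exact ha
      · exact hbZ) (by
      intro d hd hdp
      rw [mem_insert, mem_singleton] at hdp ⊢
      rcases hdp with hdp | hdp
      · rcases hda d hd hdp with rfl | rfl
        · right; exact hb
        · right; rw [he, h1]
      · rcases hdb d hd hdp with rfl | rfl
        · left; rw [hal p hpF, hpa]
        · left; rw [← h3, hal q hqF, hqa]) ⟨a, mem_insert_self _ _⟩
    have h6 : ({a, b} : Finset V).card ≤ 2 := card_le_two
    omega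
  obtain ⟨c, hcc⟩ : ∃ c, G.pi (G.al r) = c := ⟨_, rfl⟩
  have harF := hc.Fal r hrF
  have hasF := hc.Fal s hsF
  have hcZ : c ∈ Z := by rw [← hcc]; exact hZ.clo r hrF (by rw [hrb]; exact hbZ)
  have hac : a ≠ c := by
    intro h1
    rcases hda _ harF (hcc.trans h1.symm) with h2 | h2
    · apply hrp
      rw [← h2, hal r hrF]
    · apply hbe
      rw [← hrb, ← he, ← h2, hal r hrF]
  have hbc : b ≠ c := by
    intro h1
    rcases hdb _ harF (hcc.trans h1.symm) with h2 | h2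
    · have h3 := hinj r hrF p hpF h2
      apply hab
      rw [← hpa, ← h3, hrb]
    · exact hc.Ftok r hrF h2
  have hce : c ≠ e := by
    intro h1
    rcases hde _ harF (hcc.trans h1) with h2 | h2
    · have h3 := hinj r hrF q hqF h2
      apply hab
      rw [← hqa, ← h3, hrb]
    · have h5 := hmk {a, b, e} (by
        intro x hx
        rw [mem_insert, mem_insert, mem_singleton] at hx
        rcases hx with rfl | rfl | rfl
        · exact ha
        · exact hbZ
        · exact heZ) (by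
        intro d hd hdp
        rw [mem_insert, mem_insert, mem_singleton] at hdp ⊢
        rcases hdp with hdp | hdp | hdp
        · rcases hda d hd hdp with rfl | rfl
          · right; left; exact hb
          · right; right; exact he
        · rcases hdb d hd hdp with rfl | rfl
          · left; rw [hal p hpF, hpa]
          · right; right; rw [hcc, h1]
        · rcases hde d hd hdp with rfl | rfl
          · left; rw [hal q hqF, hqa]
          · right; left; rw [← h2, hal r hrF, hrb]) ⟨a, mem_insert_self _ _⟩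
      have h6 : ({a, b, e} : Finset V).card ≤ 3 := card_le_three
      omega
  have hZe : Z = {a, b, c, e} := by
    symm
    apply eq_of_subset_of_card_le
    · intro x hx
      rw [mem_insert, mem_insert, mem_insert, mem_singleton] at hx
      rcases hx with rfl | rfl | rfl | rfl
      · exact ha
      · exact hbZ
      · exact hcZ
      · exact heZ
    · rw [h4, card_insert_of_notMem, card_insert_of_notMem, card_insert_of_notMem, card_singleton]
      · rw [mem_singleton]; exact hce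
      · rw [mem_insert, mem_singleton, not_or]; exact ⟨hbc, hbe⟩
      · rw [mem_insert, mem_insert, mem_singleton, not_or, not_or]; exact ⟨hab, hac, hae⟩
  have hsc : G.pi (G.al s) = c := by
    have h1 := hZ.clo s hsF (by rw [hse]; exact heZ)
    rw [hZe, mem_insert, mem_insert, mem_insert, mem_singleton] at h1
    rcases h1 with h1 | h1 | h1 | h1
    · exfalso
      rcases hda _ hasF h1 with h2 | h2
      · apply hbe
        rw [← hb, ← h2, hal s hsF, hse]
      · apply hsq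
        rw [← h2, hal s hsF]
    · exfalso
      rcases hdb _ hasF h1 with h2 | h2
      · have h3 := hinj s hsF p hpF h2
        apply hae
        rw [← hpa, ← h3, hse]
      · apply hce
        rw [← hcc, ← h2, hal s hsF, hse]
    · exact h1
    · exfalso
      rcases hde _ hasF h1 with h2 | h2
      · have h3 := hinj s hsF q hqF h2
        apply hae
        rw [← hqa, ← h3, hse]
      · exact hc.Ftok s hsF h2
  obtain ⟨nx1, nd1, hn1, u1, u2, u3, u4⟩ := f4_nd (x1 := a) (x2 := b) (y1 := e) (y2 := c) hc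
    (Z := Z) (p := p) (s := s)
    (by
      intro x
      rw [hZe, mem_insert, mem_insert, mem_insert, mem_singleton]
      tauto) hab hae hac hbe hbc hce.symm hpF hsF hpa hb hse hsc
  obtain ⟨nx2, nd2, hn2, w1, w2, w3, w4⟩ := f4_nd (x1 := a) (x2 := e) (y1 := b) (y2 := c) hc
    (Z := Z) (p := q) (s := r)
    (by
      intro x
      rw [hZe, mem_insert, mem_insert, mem_insert, mem_singleton]
      tauto) hae hab hac hbe.symm hce.symm hbc hqF hrF hqa he hrb hcc
  refine ⟨nx1, nd1, nx2, nd2, hn1, hn2, ?_⟩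
  intro x hx
  rw [hZe, mem_insert, mem_insert, mem_insert, mem_singleton] at hx
  rcases hx with rfl | rfl | rfl | rfl
  · rw [u1, w1]; exact hbe
  · rw [u2, w3]; exact hac
  · rw [u4, w4]; exact hbe.symm
  · rw [u3, w2]; exact hac.symm

/-- (F4) in a minimal counterexample there is no nonempty union of fresh circuits with at most four
vertices -/
theorem MC.no_small (h : G.MC K F) {Z : Finset V} (hZ : G.Adm K F Z) (h4 : Z.card ≤ 4) :
    Z = ∅ := by
  by_contra hne
  have hne' : Z.Nonempty := nonempty_iff_ne_empty.2 hne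
  have h5 : Z.card = 4 := le_antisymm h4 (f4_four_le h hZ hne')
  obtain ⟨lg, hl⟩ := f4_lg h hZ h5
  obtain ⟨nx1, nd1, nx2, nd2, n1, n2, hne2⟩ :=
    f4_cyc h.inst.cls hZ h5 fun Y hY hY' => f4_four_le h hY hY'
  have hone : ∀ X, G.Adm K F X → Z ⊆ X ∨ Disjoint Z X := by
    intro X hX
    by_cases h1 : (Z ∩ X).Nonempty
    · left
      have h2 : G.Adm K F (Z ∩ X) := ⟨inter_subset_left.trans hZ.sub,
        fun v hv => hZ.dis v (mem_inter.1 hv).1, fun d hd hp =>
          mem_inter.2 ⟨hZ.clo d hd (mem_inter.1 hp).1, hX.clo d hd (mem_inter.1 hp).2⟩⟩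
      have h3 := f4_four_le h h2 h1
      have h6 : Z ∩ X = Z := eq_of_subset_of_card_le inter_subset_left (by omega)
      rw [← h6]
      exact inter_subset_right
    · right
      rw [not_nonempty_iff_eq_empty] at h1
      exact disjoint_iff_inter_eq_empty.2 h1
  have hlt : (G.vs \ Z).card < G.vs.card := by
    have h1 : (G.vs \ Z).card + Z.card = G.vs.card := card_sdiff_add_card_eq_card hZ.sub
    omega
  have key : ∀ (nx : V → V) (nd : V → D) (n : G.ND F Z nx nd),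
      ¬ (hl.gr n).Inst K (F.filter fun d => G.pi d ∉ Z) := by
    intro nx nd n hI
    obtain ⟨M, hM⟩ := h.ih (hl.gr n) K (F.filter fun d => G.pi d ∉ Z) hlt hI
    exact h.no ⟨_, hl.lift_good n h.inst.cls hZ (by rw [h5]; decide) hone hM⟩
  rcases hl.inst_or n1 h.inst hZ h5 with h1 | ⟨W1, b1⟩
  · exact key _ _ n1 h1
  · rcases hl.inst_or n2 h.inst hZ h5 with h2 | ⟨W2, b2⟩
    · exact key _ _ n2 h2
    · exact hl.two_blk h.inst hZ h5 n1 n2 hne2 b1 b2

end JK.CG
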