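import Pool.Agent.Lib.JK.MkKD

/-! Passes through a patch (S5, MP_c95763_co).

`F` is a 2-factor of the patch, the boundary edges are the tokens. If there are `b` tokens, `b ≤ 3` or
`b` odd, and every `F`-closed odd set has degree at least `max 3 b` then there is a pass (pairs in `F`,
killed edges arbitrary) between any two tokens. The proof is a count at a barrier. -/

set_option autoImplicit false

namespace JK.CG

open Finset Classical

variable {V D : Type*} (G : CG V D)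

/-- darts of `S` (not tokens) from `X` to `Y` -/
noncomputable def cn (S : Finset D) (X Y : Finset V) : ℕ :=
  (S.filter fun d => G.al d ≠ d ∧ G.pi d ∈ X ∧ G.pi (G.al d) ∈ Y).card

lemma cn_eq_sum (S : Finset D) (X Y : Finset V) : G.cn S X Y =
    ∑ d ∈ S, if G.al d ≠ d ∧ G.pi d ∈ X ∧ G.pi (G.al d) ∈ Y then 1 else 0 := by
  unfold cn
  rw [card_filter]

lemma cn_comm {S : Finset D} (hS : S ⊆ G.ds) (hc : ∀ d ∈ S, G.al d ∈ S) (X Y : Finset V) :
    G.cn S X Y = G.cn S Y X := by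
  unfold cn
  apply Finset.card_nbij' G.al G.al
  · intro d hd
    rw [mem_coe, mem_filter] at hd ⊢
    obtain ⟨h1, h2, h3, h4⟩ := hd
    refine ⟨hc d h1, ?_, h4, ?_⟩
    · rw [G.al_al d (hS h1)]; exact fun h => h2 h.symm
    · rw [G.al_al d (hS h1)]; exact h3
  · intro d hd
    rw [mem_coe, mem_filter] at hd ⊢
    obtain ⟨h1, h2, h3, h4⟩ := hd
    refine ⟨hc d h1, ?_, h4, ?_⟩
    · rw [G.al_al d (hS h1)]; exact fun h => h2 h.symm
    · rw [G.al_al d (hS h1)]; exact h3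
  · intro d hd
    rw [mem_coe, mem_filter] at hd
    exact G.al_al d (hS hd.1)
  · intro d hd
    rw [mem_coe, mem_filter] at hd
    exact G.al_al d (hS hd.1)

lemma cn_self_even {S : Finset D} (hS : S ⊆ G.ds) (hc : ∀ d ∈ S, G.al d ∈ S) (X : Finset V) :
    Even (G.cn S X X) := by
  unfold cn
  apply G.even_of_closed
  · exact (filter_subset _ _).trans hS
  · intro d hd
    rw [mem_filter] at hd ⊢
    obtain ⟨h1, h2, h3, h4⟩ := hd
    refine ⟨hc d h1, ?_, h4, ?_⟩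
    · rw [G.al_al d (hS h1)]; exact fun h => h2 h.symm
    · rw [G.al_al d (hS h1)]; exact h3
  · intro d hd
    exact (mem_filter.1 hd).2.1

/-- `F` is a 2-factor (without tokens) -/
structure Tf (F : Finset D) : Prop where
  sub : F ⊆ G.ds
  al : ∀ d ∈ F, G.al d ∈ F
  tok : ∀ d ∈ F, G.al d ≠ d
  two : ∀ v ∈ G.vs, (F.filter fun d => G.pi d = v).card = 2

namespace Tf

variable {G} {F : Finset D} (h : G.Tf F)
include h

lemma jal : ∀ d ∈ G.ds \ F, G.al d ∈ G.ds \ F := by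
  intro d hd
  rw [mem_sdiff] at hd ⊢
  refine ⟨G.al_mem d hd.1, fun hf => hd.2 ?_⟩
  have := h.al _ hf
  rwa [G.al_al d hd.1] at this

lemma one {v : V} (hv : v ∈ G.vs) : ((G.ds \ F).filter fun d => G.pi d = v).card = 1 := by
  have h3 := G.cubic v hv
  have h2 := h.two v hv
  have : (G.ds.filter fun d => G.pi d = v).card = (F.filter fun d => G.pi d = v).card +
      ((G.ds \ F).filter fun d => G.pi d = v).card := by
    rw [← card_union_of_disjoint]
    · congr 1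
      ext d
      simp only [mem_filter, mem_union, mem_sdiff]
      constructor
      · rintro ⟨a, b⟩
        by_cases hF : d ∈ F
        · exact Or.inl ⟨hF, b⟩
        · exact Or.inr ⟨⟨a, hF⟩, b⟩
      · rintro (⟨a, b⟩ | ⟨⟨a, -⟩, b⟩)
        · exact ⟨h.sub a, b⟩
        · exact ⟨a, b⟩
    · rw [disjoint_left]
      intro d h4 h5
      exact (mem_sdiff.1 (mem_filter.1 h5).1).2 (mem_filter.1 h4).1
  omega

/-- the other dart at `v` is unique -/
lemma j_unique {d e : D} (hd : d ∈ G.ds \ F) (he : e ∈ G.ds \ F) (hde : G.pi d = G.pi e) :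
    d = e := by
  have h1 := h.one (G.pi_mem d (mem_sdiff.1 hd).1)
  rw [card_eq_one] at h1
  obtain ⟨x, hx⟩ := h1
  have a1 : d ∈ (G.ds \ F).filter fun d' => G.pi d' = G.pi d := mem_filter.2 ⟨hd, rfl⟩
  have a2 : e ∈ (G.ds \ F).filter fun d' => G.pi d' = G.pi d := mem_filter.2 ⟨he, hde.symm⟩
  rw [hx, mem_singleton] at a1 a2
  rw [a1, a2]

lemma card_F {X : Finset V} (hX : X ⊆ G.vs) : (F.filter fun d => G.pi d ∈ X).card = 2 * X.card := by
  rw [Finset.card_eq_sum_card_fiberwise (s := F.filter fun d => G.pi d ∈ X) (t := X)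
    (f := G.pi) (fun d hd => (mem_filter.1 (mem_coe.1 hd)).2)]
  have : ∀ v ∈ X, ((F.filter fun d => G.pi d ∈ X).filter fun d => G.pi d = v).card = 2 := by
    intro v hv
    rw [← h.two v (hX hv)]
    congr 1
    ext d
    simp only [mem_filter]
    constructor
    · rintro ⟨⟨h1, _⟩, h3⟩
      exact ⟨h1, h3⟩
    · rintro ⟨h1, h3⟩
      exact ⟨⟨h1, h3 ▸ hv⟩, h3⟩
  rw [Finset.sum_congr rfl this, Finset.sum_const, smul_eq_mul, mul_comm]

lemma card_J {X : Finset V} (hX : X ⊆ G.vs) :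
    ((G.ds \ F).filter fun d => G.pi d ∈ X).card = X.card := by
  rw [Finset.card_eq_sum_card_fiberwise (s := (G.ds \ F).filter fun d => G.pi d ∈ X) (t := X)
    (f := G.pi) (fun d hd => (mem_filter.1 (mem_coe.1 hd)).2)]
  have : ∀ v ∈ X, (((G.ds \ F).filter fun d => G.pi d ∈ X).filter fun d => G.pi d = v).card = 1 := by
    intro v hv
    rw [← h.one (hX hv)]
    congr 1
    ext d
    simp only [mem_filter]
    constructor
    · rintro ⟨⟨h1, _⟩, h3⟩
      exact ⟨h1, h3⟩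
    · rintro ⟨h1, h3⟩
      exact ⟨⟨h1, h3 ▸ hv⟩, h3⟩
  rw [Finset.sum_congr rfl this, Finset.sum_const, smul_eq_mul, mul_one]

/-- darts of `F` leaving `X` by the class of the other end -/
lemma split_F {X A B C : Finset V} (hX : X ⊆ G.vs) (hAB : Disjoint A B) (hAC : Disjoint A C)
    (hBC : Disjoint B C) (hv : ∀ d ∈ F, G.pi d ∈ X → G.pi (G.al d) ∈ A ∪ B ∪ C) :
    2 * X.card = G.cn F X A + G.cn F X B + G.cn F X C := by
  rw [← h.card_F hX, card_filter, cn_eq_sum, cn_eq_sum, cn_eq_sum, ← sum_add_distrib,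
    ← sum_add_distrib]
  refine sum_congr rfl fun d hd => ?_
  have ht := h.tok d hd
  by_cases h1 : G.pi d ∈ X
  · have h2 := hv d hd h1
    rw [mem_union, mem_union] at h2
    have e1 : G.pi (G.al d) ∈ A → G.pi (G.al d) ∉ B := fun k => disjoint_left.1 hAB k
    have e2 : G.pi (G.al d) ∈ A → G.pi (G.al d) ∉ C := fun k => disjoint_left.1 hAC k
    have e3 : G.pi (G.al d) ∈ B → G.pi (G.al d) ∉ C := fun k => disjoint_left.1 hBC k
    by_cases ha : G.pi (G.al d) ∈ A <;> by_cases hb : G.pi (G.al d) ∈ B <;>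
      by_cases hc : G.pi (G.al d) ∈ C <;> simp_all
  · simp [h1]

/-- darts of `J` leaving `X` -/
lemma split_J {X A B C : Finset V} (hX : X ⊆ G.vs) (hAB : Disjoint A B) (hAC : Disjoint A C)
    (hBC : Disjoint B C)
    (hv : ∀ d ∈ G.ds \ F, G.al d ≠ d → G.pi d ∈ X → G.pi (G.al d) ∈ A ∪ B ∪ C) :
    X.card = (G.tk X).card + G.cn (G.ds \ F) X A + G.cn (G.ds \ F) X B + G.cn (G.ds \ F) X C := by
  have ht : (G.tk X).card = ∑ d ∈ G.ds \ F, if G.al d = d ∧ G.pi d ∈ X then 1 else 0 := by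
    rw [← card_filter]
    congr 1
    ext d
    rw [mem_tk, mem_filter, mem_sdiff]
    constructor
    · rintro ⟨a, b, c⟩
      exact ⟨⟨a, fun hf => h.tok d hf c⟩, c, b⟩
    · rintro ⟨⟨a, -⟩, c, b⟩
      exact ⟨a, b, c⟩
  rw [← h.card_J hX, card_filter, cn_eq_sum, cn_eq_sum, cn_eq_sum, ht, ← sum_add_distrib,
    ← sum_add_distrib, ← sum_add_distrib]
  refine sum_congr rfl fun d hd => ?_
  by_cases h0 : G.al d = d
  · simp [h0]
  · by_cases h1 : G.pi d ∈ X
    · have h2 := hv d hd h0 h1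
      rw [mem_union, mem_union] at h2
      have e1 : G.pi (G.al d) ∈ A → G.pi (G.al d) ∉ B := fun k => disjoint_left.1 hAB k
      have e2 : G.pi (G.al d) ∈ A → G.pi (G.al d) ∉ C := fun k => disjoint_left.1 hAC k
      have e3 : G.pi (G.al d) ∈ B → G.pi (G.al d) ∉ C := fun k => disjoint_left.1 hBC k
      by_cases ha : G.pi (G.al d) ∈ A <;> by_cases hb : G.pi (G.al d) ∈ B <;>
        by_cases hc : G.pi (G.al d) ∈ C <;> simp_all
    · simp [h1]

end Tf

/-- barriers -/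
structure FBar (G : CG V D) (F : Finset D) {L : Type*} (OO EE : Finset V) (κ : V → L) : Prop where
  oo : OO ⊆ G.vs
  ee : EE ⊆ G.vs
  dis : ∀ v, v ∈ OO → v ∉ EE
  inj : ∀ x y, (x ∈ OO ∨ x ∈ EE) → (y ∈ OO ∨ y ∈ EE) → κ x = κ y → x = y
  kill : ∀ d ∈ G.ds, G.al d ≠ d → G.pi d ∉ OO → G.pi (G.al d) ∉ OO → κ (G.pi d) = κ (G.pi (G.al d))
  pair : ∀ d ∈ F, G.pi d ∉ EE → G.pi (G.al d) ∉ EE → κ (G.pi d) = κ (G.pi (G.al d))

namespace FBar

variable {G} {F : Finset D} {L : Type*} {OO EE : Finset V} {κ : V → L}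

/-- the rest -/
noncomputable def RR (G : CG V D) (OO EE : Finset V) : Finset V :=
  G.vs.filter fun v => v ∉ OO ∧ v ∉ EE

/-- classes of the rest -/
noncomputable def Cl (G : CG V D) (OO EE : Finset V) (κ : V → L) (l : L) : Finset V :=
  (RR G OO EE).filter fun v => κ v = l

lemma mem_RR {v : V} : v ∈ RR G OO EE ↔ v ∈ G.vs ∧ v ∉ OO ∧ v ∉ EE := by
  unfold RR
  rw [mem_filter]

lemma mem_Cl {l : L} {v : V} : v ∈ Cl G OO EE κ l ↔ v ∈ G.vs ∧ v ∉ OO ∧ v ∉ EE ∧ κ v = l := by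
  unfold Cl
  rw [mem_filter, mem_RR]
  tauto

lemma Cl_sub (l : L) : Cl G OO EE κ l ⊆ G.vs := fun _ hv => (mem_Cl.1 hv).1

/-- neighbours of a class: along `F` the label is the same -/
lemma nb_F (hb : FBar G F OO EE κ) (h : G.Tf F) {l : L} {d : D} (hd : d ∈ F)
    (hC : G.pi d ∈ Cl G OO EE κ l) : κ (G.pi (G.al d)) = l := by
  obtain ⟨h1, h2, h3, h4⟩ := mem_Cl.1 hC
  by_cases he : G.pi (G.al d) ∈ EE
  · rw [← hb.kill d (h.sub hd) (h.tok d hd) h2 (fun ho => hb.dis _ ho he), h4]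
  · rw [← hb.pair d hd h3 he, h4]

/-- neighbours of a class: along any edge the label is the same or the other end is in `OO` -/
lemma nb_J (hb : FBar G F OO EE κ) {l : L} {d : D} (hd : d ∈ G.ds) (ht : G.al d ≠ d)
    (hC : G.pi d ∈ Cl G OO EE κ l) : κ (G.pi (G.al d)) = l ∨ G.pi (G.al d) ∈ OO := by
  obtain ⟨h1, h2, h3, h4⟩ := mem_Cl.1 hC
  by_cases ho : G.pi (G.al d) ∈ OO
  · exact Or.inr ho
  · left
    rw [← hb.kill d hd ht h2 ho, h4]

end FBar

namespace FBar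

variable {G} {F : Finset D} {L : Type*} {OO EE : Finset V} {κ : V → L}

lemma Cl_cases (hb : FBar G F OO EE κ) {l : L} {d : D} (hd : d ∈ G.ds) (ht : G.al d ≠ d)
    (hC : G.pi d ∈ Cl G OO EE κ l) :
    G.pi (G.al d) ∉ Cl G OO EE κ l ↔ G.pi (G.al d) ∈ OO ∨ G.pi (G.al d) ∈ EE := by
  constructor
  · intro h
    by_contra hcon
    rw [not_or] at hcon
    rcases hb.nb_J hd ht hC with h1 | h1
    · exact h (mem_Cl.2 ⟨G.pi_mem _ (G.al_mem d hd), hcon.1, hcon.2, h1⟩)
    · exact hcon.1 h1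
  · rintro (h | h) h'
    · exact (mem_Cl.1 h').2.1 h
    · exact (mem_Cl.1 h').2.2.1 h

lemma dg_Cl (hb : FBar G F OO EE κ) (h : G.Tf F) (l : L) : G.dg (Cl G OO EE κ l) =
    (G.tk (Cl G OO EE κ l)).card + G.cn (G.ds \ F) (Cl G OO EE κ l) OO +
      G.cn (G.ds \ F) (Cl G OO EE κ l) EE + G.cn F (Cl G OO EE κ l) OO +
      G.cn F (Cl G OO EE κ l) EE := by
  have hb1 : (G.bd (Cl G OO EE κ l)).card = G.cn (G.ds \ F) (Cl G OO EE κ l) OO +
      G.cn (G.ds \ F) (Cl G OO EE κ l) EE + G.cn F (Cl G OO EE κ l) OO +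
      G.cn F (Cl G OO EE κ l) EE := by
    have e : ∀ S ⊆ G.ds, ∀ X Y : Finset V, G.cn S X Y = ∑ d ∈ G.ds,
        if d ∈ S ∧ G.al d ≠ d ∧ G.pi d ∈ X ∧ G.pi (G.al d) ∈ Y then 1 else 0 := by
      intro S hS X Y
      unfold cn
      rw [← card_filter]
      congr 1
      ext d
      simp only [mem_filter]
      exact ⟨fun ⟨a, b⟩ => ⟨hS a, a, b⟩, fun ⟨_, a, b⟩ => ⟨a, b⟩⟩
    unfold bd
    rw [card_filter, e _ sdiff_subset, e _ sdiff_subset, e _ h.sub, e _ h.sub, ← sum_add_distrib,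
      ← sum_add_distrib, ← sum_add_distrib]
    refine sum_congr rfl fun d hd => ?_
    by_cases h0 : G.al d = d
    · simp [h0]
    · by_cases h1 : G.pi d ∈ Cl G OO EE κ l
      · have h2 := hb.Cl_cases hd h0 h1
        have h3 := hb.dis (G.pi (G.al d))
        by_cases h4 : G.pi (G.al d) ∈ OO <;> by_cases h5 : G.pi (G.al d) ∈ EE <;>
          by_cases h6 : d ∈ F <;> simp_all
      · simp [h1]
  unfold dg
  rw [hb1]
  ring

/-- the only possible neighbour of a class along `F` -/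
lemma sp (hb : FBar G F OO EE κ) (h : G.Tf F) {l : L} {x : V} (hx : x ∈ OO ∨ x ∈ EE) (hk : κ x = l)
    {d : D} (hd : d ∈ F) (hC : G.pi d ∈ Cl G OO EE κ l)
    (hy : G.pi (G.al d) ∈ OO ∨ G.pi (G.al d) ∈ EE) : G.pi (G.al d) = x :=
  hb.inj _ _ hy hx (by rw [hb.nb_F h hd hC, hk])

lemma sp_J (hb : FBar G F OO EE κ) {l : L} {x : V} (hx : x ∈ OO ∨ x ∈ EE) (hk : κ x = l)
    {d : D} (hd : d ∈ G.ds) (ht : G.al d ≠ d) (hC : G.pi d ∈ Cl G OO EE κ l)
    (hy : G.pi (G.al d) ∈ EE) : G.pi (G.al d) = x := by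
  rcases hb.nb_J hd ht hC with h1 | h1
  · exact hb.inj _ _ (Or.inr hy) hx (by rw [h1, hk])
  · exact absurd hy (hb.dis _ h1)

/-- **the count at one class** -/
lemma class_count (hb : FBar G F OO EE κ) (h : G.Tf F) (hl : ∀ v ∈ G.vs, G.dg {v} = 3) {b : ℕ}
    (hodd : ∀ X ⊆ G.vs, Odd X.card → (∀ d ∈ F, G.pi d ∈ X → G.pi (G.al d) ∈ X) →
      b ≤ G.dg X ∧ 3 ≤ G.dg X) (l : L) :
    0 ≤ 2 * ((G.tk (Cl G OO EE κ l)).card : ℤ) + 2 * G.cn (G.ds \ F) (Cl G OO EE κ l) OO +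
        G.cn F (Cl G OO EE κ l) EE - 2 * G.cn (G.ds \ F) (Cl G OO EE κ l) EE -
        G.cn F (Cl G OO EE κ l) OO ∧
      ((2 * ((G.tk (Cl G OO EE κ l)).card : ℤ) + 2 * G.cn (G.ds \ F) (Cl G OO EE κ l) OO +
        G.cn F (Cl G OO EE κ l) EE - 2 * G.cn (G.ds \ F) (Cl G OO EE κ l) EE -
        G.cn F (Cl G OO EE κ l) OO) % 4 = 0 ∨
        2 * (b : ℤ) - 4 ≤ 2 * ((G.tk (Cl G OO EE κ l)).card : ℤ) +
        2 * G.cn (G.ds \ F) (Cl G OO EE κ l) OO +
        G.cn F (Cl G OO EE κ l) EE - 2 * G.cn (G.ds \ F) (Cl G OO EE κ l) EE -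
        G.cn F (Cl G OO EE κ l) OO) := by
  have hdg := hb.dg_Cl h l
  have hC := Cl_sub (G := G) (OO := OO) (EE := EE) (κ := κ) l
  have hpC := G.dg_parity hC
  have hfe := G.cn_self_even h.sub h.al (Cl G OO EE κ l)
  have hF2 : 2 * (Cl G OO EE κ l).card = G.cn F (Cl G OO EE κ l) (Cl G OO EE κ l) +
      G.cn F (Cl G OO EE κ l) OO + G.cn F (Cl G OO EE κ l) EE := by
    apply h.split_F hC
    · rw [disjoint_left]
      exact fun v hv h' => (mem_Cl.1 hv).2.1 h'
    · rw [disjoint_left]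
      exact fun v hv h' => (mem_Cl.1 hv).2.2.1 h'
    · rw [disjoint_left]
      exact fun v hv h' => hb.dis v hv h'
    · intro d hd hdC
      rw [mem_union, mem_union]
      by_cases h1 : G.pi (G.al d) ∈ Cl G OO EE κ l
      · exact Or.inl (Or.inl h1)
      · rcases (hb.Cl_cases (h.sub hd) (h.tok d hd) hdC).1 h1 with h2 | h2
        · exact Or.inl (Or.inr h2)
        · exact Or.inr h2
  -- if nothing of `F` leaves the class then it is closed
  have hclo : G.cn F (Cl G OO EE κ l) OO + G.cn F (Cl G OO EE κ l) EE = 0 →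
      ∀ d ∈ F, G.pi d ∈ Cl G OO EE κ l → G.pi (G.al d) ∈ Cl G OO EE κ l := by
    intro h0 d hd hdC
    by_contra h1
    rcases (hb.Cl_cases (h.sub hd) (h.tok d hd) hdC).1 h1 with h2 | h2
    · have : 0 < G.cn F (Cl G OO EE κ l) OO :=
        card_pos.2 ⟨d, mem_filter.2 ⟨hd, h.tok d hd, hdC, h2⟩⟩
      omega
    · have : 0 < G.cn F (Cl G OO EE κ l) EE :=
        card_pos.2 ⟨d, mem_filter.2 ⟨hd, h.tok d hd, hdC, h2⟩⟩
      omega
  have hoddC : G.cn F (Cl G OO EE κ l) OO + G.cn F (Cl G OO EE κ l) EE = 0 →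
      Odd (Cl G OO EE κ l).card → b ≤ G.dg (Cl G OO EE κ l) ∧ 3 ≤ G.dg (Cl G OO EE κ l) :=
    fun h0 ho => hodd _ hC ho (hclo h0)
  rw [Nat.odd_iff, Nat.odd_iff] at hpC
  rw [Nat.even_iff] at hfe
  rw [Nat.odd_iff] at hoddC
  by_cases hx : ∃ x, (x ∈ OO ∨ x ∈ EE) ∧ κ x = l
  · obtain ⟨x, hx, hk⟩ := hx
    have hxv : x ∈ G.vs := by
      rcases hx with h1 | h1
      · exact hb.oo h1
      · exact hb.ee h1
    have hxC : x ∉ Cl G OO EE κ l := by
      intro h'
      rcases hx with h1 | h1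
      · exact (mem_Cl.1 h').2.1 h1
      · exact (mem_Cl.1 h').2.2.1 h1
    -- at most two darts of `F` and one of `J` from the class to `x`
    have hFx2 : G.cn F (Cl G OO EE κ l) {x} ≤ 2 := by
      rw [G.cn_comm h.sub h.al, ← h.two x hxv]
      apply card_le_card
      intro d hd
      rw [mem_filter] at hd ⊢
      exact ⟨hd.1, mem_singleton.1 hd.2.2.1⟩
    have hJx1 : G.cn (G.ds \ F) (Cl G OO EE κ l) {x} ≤ 1 := by
      rw [G.cn_comm sdiff_subset h.jal, ← h.one hxv]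
      apply card_le_card
      intro d hd
      rw [mem_filter] at hd ⊢
      exact ⟨hd.1, mem_singleton.1 hd.2.2.1⟩
    -- the set with `x`
    have hZ : G.cn F (Cl G OO EE κ l) {x} = 2 →
        (∀ d ∈ F, G.pi d ∈ Cl G OO EE κ l ∪ {x} → G.pi (G.al d) ∈ Cl G OO EE κ l ∪ {x}) := by
      intro h2 d hd hdZ
      rcases mem_union.1 hdZ with h3 | h3
      · by_cases h4 : G.pi (G.al d) ∈ Cl G OO EE κ l
        · exact mem_union_left _ h4
        · have h5 := (hb.Cl_cases (h.sub hd) (h.tok d hd) h3).1 h4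
          exact mem_union_right _ (mem_singleton.2 (hb.sp h hx hk hd h3 h5))
      · rw [G.cn_comm h.sub h.al, ← h.two x hxv] at h2
        have hsub : (F.filter fun d => G.al d ≠ d ∧ G.pi d ∈ ({x} : Finset V) ∧
            G.pi (G.al d) ∈ Cl G OO EE κ l) ⊆ F.filter fun d => G.pi d = x := by
          intro d hd
          rw [mem_filter] at hd ⊢
          exact ⟨hd.1, mem_singleton.1 hd.2.2.1⟩
        have heq := Finset.eq_of_subset_of_card_le hsub (by unfold cn at h2; omega)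
        have : d ∈ F.filter fun d => G.pi d = x := mem_filter.2 ⟨hd, mem_singleton.1 h3⟩
        rw [← heq, mem_filter] at this
        exact mem_union_left _ this.2.2.2
    have hdis : Disjoint (Cl G OO EE κ l) {x} := by
      rw [disjoint_singleton_right]
      exact hxC
    have hZs : Cl G OO EE κ l ∪ {x} ⊆ G.vs :=
      union_subset hC (singleton_subset_iff.2 hxv)
    have hdgZ := G.dg_union hdis
    have hed : (G.ed (Cl G OO EE κ l) {x}).card = G.cn F (Cl G OO EE κ l) {x} +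
        G.cn (G.ds \ F) (Cl G OO EE κ l) {x} := by
      unfold ed cn
      rw [← card_union_of_disjoint]
      · congr 1
        ext d
        simp only [mem_filter, mem_union, mem_sdiff, mem_singleton]
        constructor
        · rintro ⟨a, b, c⟩
          have hne : G.al d ≠ d := by
            intro he
            rw [he] at c
            rw [c] at b
            exact hxC b
          by_cases hF : d ∈ F
          · exact Or.inl ⟨hF, hne, b, c⟩
          · exact Or.inr ⟨⟨a, hF⟩, hne, b, c⟩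
        · rintro (⟨a, -, b, c⟩ | ⟨⟨a, -⟩, -, b, c⟩)
          · exact ⟨h.sub a, b, c⟩
          · exact ⟨a, b, c⟩
      · rw [disjoint_left]
        intro d h4 h5
        exact (mem_sdiff.1 (mem_filter.1 h5).1).2 (mem_filter.1 h4).1
    rw [hed, hl x hxv] at hdgZ
    have hpZ := G.dg_parity hZs
    have hcZ : (Cl G OO EE κ l ∪ {x}).card = (Cl G OO EE κ l).card + 1 := by
      rw [card_union_of_disjoint hdis, card_singleton]
    have hoddZ : G.cn F (Cl G OO EE κ l) {x} = 2 → (Cl G OO EE κ l ∪ {x}).card % 2 = 1 →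
        b ≤ G.dg (Cl G OO EE κ l ∪ {x}) ∧ 3 ≤ G.dg (Cl G OO EE κ l ∪ {x}) :=
      fun h2 ho => hodd _ hZs (Nat.odd_iff.2 ho) (hZ h2)
    rw [Nat.odd_iff, Nat.odd_iff] at hpZ
    rcases hx with hxo | hxe
    · -- `x` is in `OO`
      have hFe : G.cn F (Cl G OO EE κ l) EE = 0 := by
        unfold cn
        rw [card_eq_zero, filter_eq_empty_iff]
        rintro d hd ⟨-, h1, h2⟩
        have := hb.sp h (Or.inl hxo) hk hd h1 (Or.inr h2)
        rw [this] at h2
        exact hb.dis x hxo h2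
      have hJe : G.cn (G.ds \ F) (Cl G OO EE κ l) EE = 0 := by
        unfold cn
        rw [card_eq_zero, filter_eq_empty_iff]
        rintro d hd ⟨h0, h1, h2⟩
        have := hb.sp_J (Or.inl hxo) hk (mem_sdiff.1 hd).1 h0 h1 h2
        rw [this] at h2
        exact hb.dis x hxo h2
      have hFo : G.cn F (Cl G OO EE κ l) OO = G.cn F (Cl G OO EE κ l) {x} := by
        unfold cn
        congr 1
        ext d
        simp only [mem_filter, mem_singleton]
        constructor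
        · rintro ⟨a, b, c, e⟩
          exact ⟨a, b, c, hb.sp h (Or.inl hxo) hk a c (Or.inl e)⟩
        · rintro ⟨a, b, c, e⟩
          exact ⟨a, b, c, by rw [e]; exact hxo⟩
      omega
    · have hFo : G.cn F (Cl G OO EE κ l) OO = 0 := by
        unfold cn
        rw [card_eq_zero, filter_eq_empty_iff]
        rintro d hd ⟨-, h1, h2⟩
        have := hb.sp h (Or.inr hxe) hk hd h1 (Or.inl h2)
        rw [this] at h2
        exact hb.dis x h2 hxe
      have hJe : G.cn (G.ds \ F) (Cl G OO EE κ l) EE = G.cn (G.ds \ F) (Cl G OO EE κ l) {x} := by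
        unfold cn
        congr 1
        ext d
        simp only [mem_filter, mem_singleton]
        constructor
        · rintro ⟨a, b, c, e⟩
          exact ⟨a, b, c, hb.sp_J (Or.inr hxe) hk (mem_sdiff.1 a).1 b c e⟩
        · rintro ⟨a, b, c, e⟩
          exact ⟨a, b, c, by rw [e]; exact hxe⟩
      have hFe : G.cn F (Cl G OO EE κ l) EE = G.cn F (Cl G OO EE κ l) {x} := by
        unfold cn
        congr 1
        ext d
        simp only [mem_filter, mem_singleton]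
        constructor
        · rintro ⟨a, b, c, e⟩
          exact ⟨a, b, c, hb.sp h (Or.inr hxe) hk a c (Or.inr e)⟩
        · rintro ⟨a, b, c, e⟩
          exact ⟨a, b, c, by rw [e]; exact hxe⟩
      omega
  · have hFo : G.cn F (Cl G OO EE κ l) OO = 0 := by
      unfold cn
      rw [card_eq_zero, filter_eq_empty_iff]
      rintro d hd ⟨-, h1, h2⟩
      exact hx ⟨_, Or.inl h2, hb.nb_F h hd h1⟩
    have hFe : G.cn F (Cl G OO EE κ l) EE = 0 := by
      unfold cn
      rw [card_eq_zero, filter_eq_empty_iff]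
      rintro d hd ⟨-, h1, h2⟩
      exact hx ⟨_, Or.inr h2, hb.nb_F h hd h1⟩
    have hJe : G.cn (G.ds \ F) (Cl G OO EE κ l) EE = 0 := by
      unfold cn
      rw [card_eq_zero, filter_eq_empty_iff]
      rintro d hd ⟨h0, h1, h2⟩
      rcases hb.nb_J (mem_sdiff.1 hd).1 h0 h1 with h3 | h3
      · exact hx ⟨_, Or.inr h2, h3⟩
      · exact hb.dis _ h3 h2
    omega

end FBar

namespace Tf

variable {G} {F : Finset D} (h : G.Tf F)
include h

/-- no loops -/
lemma no_loop (h3 : ∀ X ⊆ G.vs, Odd X.card → (∀ d ∈ F, G.pi d ∈ X → G.pi (G.al d) ∈ X) →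
    3 ≤ G.dg X) {d : D} (hd : d ∈ G.ds) (ht : G.al d ≠ d) : G.pi (G.al d) ≠ G.pi d := by
  intro he
  have hv := G.pi_mem d hd
  by_cases hF : d ∈ F
  · have hcard := h.two _ hv
    have hsub : ({d, G.al d} : Finset D) ⊆ F.filter fun e => G.pi e = G.pi d := by
      intro e he'
      rcases mem_insert.1 he' with rfl | he'
      · exact mem_filter.2 ⟨hF, rfl⟩
      · rw [mem_singleton.1 he']
        exact mem_filter.2 ⟨h.al d hF, he⟩
    have heq := Finset.eq_of_subset_of_card_le hsub (by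
      rw [hcard, card_pair (fun h' => ht h'.symm)])
    have h4 := h3 {G.pi d} (singleton_subset_iff.2 hv) (by rw [card_singleton]; exact odd_one) (by
      intro e he' hpe
      have : e ∈ F.filter fun e => G.pi e = G.pi d := mem_filter.2 ⟨he', mem_singleton.1 hpe⟩
      rw [← heq] at this
      rw [mem_singleton]
      rcases mem_insert.1 this with h5 | h5
      · rw [h5]; exact he
      · rw [mem_singleton.1 h5, G.al_al d hd])
    have hlt : G.dg {G.pi d} < 3 := by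
      rw [dg_eq_card_union, ← G.cubic _ hv]
      apply Finset.card_lt_card
      rw [Finset.ssubset_iff_of_subset (G.bd_union_tk_sub _)]
      refine ⟨d, Finset.mem_filter.mpr ⟨hd, rfl⟩, ?_⟩
      intro hm
      rcases Finset.mem_union.mp hm with h1 | h1
      · exact ((G.mem_bd).mp h1).2.2 (Finset.mem_singleton.mpr he)
      · exact ht ((G.mem_tk).mp h1).2.2
    omega
  · have h1 : d ∈ G.ds \ F := mem_sdiff.2 ⟨hd, hF⟩
    exact ht (h.j_unique (h.jal d h1) h1 he)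

lemma dg_one (h3 : ∀ X ⊆ G.vs, Odd X.card → (∀ d ∈ F, G.pi d ∈ X → G.pi (G.al d) ∈ X) →
    3 ≤ G.dg X) {v : V} (hv : v ∈ G.vs) : G.dg {v} = 3 := by
  apply le_antisymm (G.dg_singleton_le hv)
  rw [dg_eq_card_union, ← G.cubic v hv]
  apply card_le_card
  intro d hd
  rw [mem_filter] at hd
  rw [mem_union, mem_bd, mem_tk, mem_singleton, mem_singleton]
  by_cases ht : G.al d = d
  · exact Or.inr ⟨hd.1, hd.2, ht⟩
  · refine Or.inl ⟨hd.1, hd.2, ?_⟩
    rw [← hd.2]
    exact h.no_loop h3 hd.1 ht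

end Tf

namespace FBar

variable {G} {F : Finset D} {L : Type*} {OO EE : Finset V} {κ : V → L}

lemma sum_cn (S : Finset D) (_hS : S ⊆ G.ds) (Y : Finset V) :
    G.cn S (RR G OO EE) Y = ∑ l ∈ (RR G OO EE).image κ, G.cn S (Cl G OO EE κ l) Y := by
  unfold cn
  rw [card_eq_sum_card_fiberwise (s := S.filter fun d => G.al d ≠ d ∧ G.pi d ∈ RR G OO EE ∧
    G.pi (G.al d) ∈ Y) (t := (RR G OO EE).image κ) (f := fun d => κ (G.pi d))
    (fun d hd => mem_image_of_mem κ (mem_filter.1 (mem_coe.1 hd)).2.2.1)]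
  refine sum_congr rfl fun l _ => ?_
  congr 1
  ext d
  simp only [mem_filter, Cl]
  tauto

lemma sum_tk : (G.tk (RR G OO EE)).card =
    ∑ l ∈ (RR G OO EE).image κ, (G.tk (Cl G OO EE κ l)).card := by
  rw [card_eq_sum_card_fiberwise (s := G.tk (RR G OO EE)) (t := (RR G OO EE).image κ)
    (f := fun d => κ (G.pi d)) (fun d hd => mem_image_of_mem κ ((G.mem_tk).1 (mem_coe.1 hd)).2.1)]
  refine sum_congr rfl fun l _ => ?_
  congr 1
  ext d
  simp only [mem_filter, mem_tk, Cl]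
  tauto

/-- **the count**: two tokens at `OO` are impossible -/
theorem no (hb : FBar G F OO EE κ) (h : G.Tf F) (h3 : (G.tk G.vs).card ≤ 3 ∨ Odd (G.tk G.vs).card)
    (hodd : ∀ X ⊆ G.vs, Odd X.card → (∀ d ∈ F, G.pi d ∈ X → G.pi (G.al d) ∈ X) →
      (G.tk G.vs).card ≤ G.dg X ∧ 3 ≤ G.dg X)
    {τ1 τ2 : D} (m1 : τ1 ∈ G.ds) (m2 : τ2 ∈ G.ds) (t1 : G.al τ1 = τ1) (t2 : G.al τ2 = τ2)
    (hne : τ1 ≠ τ2) (o1 : G.pi τ1 ∈ OO) (o2 : G.pi τ2 ∈ OO) : False := by
  have hodd3 : ∀ X ⊆ G.vs, Odd X.card → (∀ d ∈ F, G.pi d ∈ X → G.pi (G.al d) ∈ X) →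
      3 ≤ G.dg X := fun X a b c => (hodd X a b c).2
  have hl : ∀ v ∈ G.vs, G.dg {v} = 3 := fun v hv => h.dg_one hodd3 hv
  have hcc := hb.class_count h hl hodd
  have dOE : Disjoint OO EE := by
    rw [disjoint_left]; exact fun v hv => hb.dis v hv
  have dOR : Disjoint OO (RR G OO EE) := by
    rw [disjoint_left]; exact fun v hv h' => (mem_RR.1 h').2.1 hv
  have dER : Disjoint EE (RR G OO EE) := by
    rw [disjoint_left]; exact fun v hv h' => (mem_RR.1 h').2.2 hv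
  have hcov : ∀ v ∈ G.vs, v ∈ OO ∪ EE ∪ RR G OO EE := by
    intro v hv
    rw [mem_union, mem_union, mem_RR]
    tauto
  have hcovd : ∀ d ∈ G.ds, G.pi (G.al d) ∈ OO ∪ EE ∪ RR G OO EE :=
    fun d hd => hcov _ (G.pi_mem _ (G.al_mem d hd))
  have e1 := h.split_J (X := OO) hb.oo dOE dOR dER (fun d hd _ _ => hcovd d (mem_sdiff.1 hd).1)
  have e2 := h.split_J (X := EE) hb.ee dOE dOR dER (fun d hd _ _ => hcovd d (mem_sdiff.1 hd).1)
  have e3 := h.split_F (X := OO) hb.oo dOE dOR dER (fun d hd _ => hcovd d (h.sub hd))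
  have e4 := h.split_F (X := EE) hb.ee dOE dOR dER (fun d hd _ => hcovd d (h.sub hd))
  have z1 : G.cn F OO OO = 0 := by
    unfold cn
    rw [card_eq_zero, filter_eq_empty_iff]
    rintro d hd ⟨h0, h1, h2⟩
    have hk := hb.pair d hd (hb.dis _ h1) (hb.dis _ h2)
    exact h.no_loop hodd3 (h.sub hd) h0 (hb.inj _ _ (Or.inl h2) (Or.inl h1) hk.symm)
  have z2 : G.cn F EE EE = 0 := by
    unfold cn
    rw [card_eq_zero, filter_eq_empty_iff]
    rintro d hd ⟨h0, h1, h2⟩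
    have hk := hb.kill d (h.sub hd) h0 (fun h' => hb.dis _ h' h1) (fun h' => hb.dis _ h' h2)
    exact h.no_loop hodd3 (h.sub hd) h0 (hb.inj _ _ (Or.inr h2) (Or.inr h1) hk.symm)
  have z3 : G.cn (G.ds \ F) EE EE = 0 := by
    unfold cn
    rw [card_eq_zero, filter_eq_empty_iff]
    rintro d hd ⟨h0, h1, h2⟩
    have hk := hb.kill d (mem_sdiff.1 hd).1 h0 (fun h' => hb.dis _ h' h1)
      (fun h' => hb.dis _ h' h2)
    exact h.no_loop hodd3 (mem_sdiff.1 hd).1 h0 (hb.inj _ _ (Or.inr h2) (Or.inr h1) hk.symm)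
  have c1 := G.cn_comm (sdiff_subset (s := G.ds) (t := F)) h.jal OO EE
  have c2 := G.cn_comm (sdiff_subset (s := G.ds) (t := F)) h.jal OO (RR G OO EE)
  have c3 := G.cn_comm (sdiff_subset (s := G.ds) (t := F)) h.jal EE (RR G OO EE)
  have c4 := G.cn_comm h.sub h.al OO EE
  have c5 := G.cn_comm h.sub h.al OO (RR G OO EE)
  have c6 := G.cn_comm h.sub h.al EE (RR G OO EE)
  have ev := G.cn_self_even (sdiff_subset (s := G.ds) (t := F)) h.jal OO
  have htk : (G.tk G.vs).card = (G.tk OO).card + (G.tk EE).card + (G.tk (RR G OO EE)).card := by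
    rw [← card_union_of_disjoint, ← card_union_of_disjoint]
    · congr 1
      ext d
      simp only [mem_union, mem_tk]
      constructor
      · rintro ⟨a, b, c⟩
        have := hcov _ b
        rw [mem_union, mem_union] at this
        tauto
      · rintro ((⟨a, b, c⟩ | ⟨a, b, c⟩) | ⟨a, b, c⟩)
        · exact ⟨a, hb.oo b, c⟩
        · exact ⟨a, hb.ee b, c⟩
        · exact ⟨a, (mem_RR.1 b).1, c⟩
    · rw [disjoint_left]
      intro d hd1 hd2
      rw [mem_tk] at hd2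
      rcases mem_union.1 hd1 with h1 | h1
      · exact disjoint_left.1 dOR ((G.mem_tk).1 h1).2.1 hd2.2.1
      · exact disjoint_left.1 dER ((G.mem_tk).1 h1).2.1 hd2.2.1
    · rw [disjoint_left]
      intro d hd1 hd2
      exact disjoint_left.1 dOE ((G.mem_tk).1 hd1).2.1 ((G.mem_tk).1 hd2).2.1
  have h2 : 2 ≤ (G.tk OO).card := by
    have hsub : ({τ1, τ2} : Finset D) ⊆ G.tk OO := by
      intro d hd
      rcases mem_insert.1 hd with rfl | hd
      · exact (G.mem_tk).2 ⟨m1, o1, t1⟩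
      · rw [mem_singleton.1 hd]
        exact (G.mem_tk).2 ⟨m2, o2, t2⟩
    have := card_le_card hsub
    rwa [card_pair hne] at this
  -- the sum over the classes
  have s1 := sum_tk (G := G) (OO := OO) (EE := EE) (κ := κ)
  have s2 := sum_cn (G := G) (OO := OO) (EE := EE) (κ := κ) (G.ds \ F) sdiff_subset OO
  have s3 := sum_cn (G := G) (OO := OO) (EE := EE) (κ := κ) (G.ds \ F) sdiff_subset EE
  have s4 := sum_cn (G := G) (OO := OO) (EE := EE) (κ := κ) F h.sub OO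
  have s5 := sum_cn (G := G) (OO := OO) (EE := EE) (κ := κ) F h.sub EE
  have hT : ∑ l ∈ (RR G OO EE).image κ, (2 * ((G.tk (Cl G OO EE κ l)).card : ℤ) +
      2 * G.cn (G.ds \ F) (Cl G OO EE κ l) OO + G.cn F (Cl G OO EE κ l) EE -
      2 * G.cn (G.ds \ F) (Cl G OO EE κ l) EE - G.cn F (Cl G OO EE κ l) OO) =
      2 * ((G.tk (RR G OO EE)).card : ℤ) + 2 * G.cn (G.ds \ F) (RR G OO EE) OO +
      G.cn F (RR G OO EE) EE - 2 * G.cn (G.ds \ F) (RR G OO EE) EE - G.cn F (RR G OO EE) OO := by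
    rw [s1, s2, s3, s4, s5]
    push_cast
    rw [sum_sub_distrib, sum_sub_distrib, sum_add_distrib, sum_add_distrib, ← mul_sum, ← mul_sum,
      ← mul_sum]
  rw [Nat.even_iff] at ev
  by_cases hall : ∀ l ∈ (RR G OO EE).image κ, (2 * ((G.tk (Cl G OO EE κ l)).card : ℤ) +
      2 * G.cn (G.ds \ F) (Cl G OO EE κ l) OO + G.cn F (Cl G OO EE κ l) EE -
      2 * G.cn (G.ds \ F) (Cl G OO EE κ l) EE - G.cn F (Cl G OO EE κ l) OO) % 4 = 0
  · have hd4 := Finset.dvd_sum (s := (RR G OO EE).image κ) (a := (4 : ℤ))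
      (fun l hl => Int.dvd_of_emod_eq_zero (hall l hl))
    have hnn := Finset.sum_nonneg (s := (RR G OO EE).image κ) (fun l _ => (hcc l).1)
    rw [hT] at hd4 hnn
    rcases h3 with h3 | h3
    · omega
    · rw [Nat.odd_iff] at h3
      omega
  · push Not at hall
    obtain ⟨l0, hl0, hl1⟩ := hall
    have hge := (hcc l0).2.resolve_left hl1
    have hle := Finset.single_le_sum (s := (RR G OO EE).image κ) (fun l _ => (hcc l).1) hl0
    rw [hT] at hle
    omega

end FBar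

/-- **passes exist**: if there are at most three tokens, or an odd number, and the `F`-closed odd sets
have degree at least 3 and at least the number of tokens then there is a pass between any two tokens -/
theorem exists_pass {F : Finset D} (h : G.Tf F)
    (h3 : (G.tk G.vs).card ≤ 3 ∨ Odd (G.tk G.vs).card)
    (hodd : ∀ X ⊆ G.vs, Odd X.card → (∀ d ∈ F, G.pi d ∈ X → G.pi (G.al d) ∈ X) →
      (G.tk G.vs).card ≤ G.dg X ∧ 3 ≤ G.dg X)
    {τ1 τ2 : D} (m1 : τ1 ∈ G.ds) (m2 : τ2 ∈ G.ds) (t1 : G.al τ1 = τ1) (t2 : G.al τ2 = τ2)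
    (hne : τ1 ≠ τ2) :
    ∃ (A : Finset D) (al' p : D → D), G.KD A al' p ∧ τ1 ∈ A ∧ τ2 ∈ A ∧
      (∀ d ∈ A, G.al d = d → d = τ1 ∨ d = τ2) ∧ (∀ d ∈ A, al' d ≠ d) ∧ (∀ d ∈ A, p d ∈ F) := by
  have n1 : τ1 ∈ G.ds \ F := mem_sdiff.2 ⟨m1, fun hf => h.tok _ hf t1⟩
  have n2 : τ2 ∈ G.ds \ F := mem_sdiff.2 ⟨m2, fun hf => h.tok _ hf t2⟩
  let Kl : Finset D := G.ds.filter fun d => G.al d ≠ d
  have hKs : Kl ⊆ G.ds := filter_subset _ _
  have hKc : ∀ d ∈ Kl, G.al d ∈ Kl := by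
    intro d hd
    simp only [Kl, mem_filter] at hd ⊢
    refine ⟨G.al_mem d hd.1, ?_⟩
    rw [G.al_al d hd.1]
    exact fun h' => hd.2 h'.symm
  have hab : (⟨G.pi τ1, G.pi_mem _ m1⟩ : {v // v ∈ G.vs}) ≠ ⟨G.pi τ2, G.pi_mem _ m2⟩ := by
    intro he
    exact hne (h.j_unique n1 n2 (congrArg Subtype.val he))
  rcases Alt.alt (G.rel_symm h.sub h.al) (G.rel_symm hKs hKc) hab with ⟨u, k, ht⟩ | ⟨O, E, κ, hB⟩
  · obtain ⟨A, al', p, a1, a2, a3, a4, a5, a6⟩ :=
      G.trail_kd h.sub h.tok h.al hKs hKc m1 m2 t1 t2 ht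
    refine ⟨A, al', p, a1, a2, a3, fun d hd hdt => ?_, a5, a6⟩
    rcases a4 d hd with h5 | h5 | h5
    · exact Or.inl h5
    · exact Or.inr h5
    · exact absurd hdt (mem_filter.1 h5).2
  · exfalso
    let OO : Finset V := G.vs.filter fun v => ∃ hv : v ∈ G.vs, (⟨v, hv⟩ : {v // v ∈ G.vs}) ∈ O
    let EE : Finset V := G.vs.filter fun v => ∃ hv : v ∈ G.vs, (⟨v, hv⟩ : {v // v ∈ G.vs}) ∈ E
    have mO : ∀ v, v ∈ OO ↔ ∃ hv : v ∈ G.vs, (⟨v, hv⟩ : {v // v ∈ G.vs}) ∈ O := by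
      intro v
      simp only [OO, mem_filter]
      exact ⟨fun h' => h'.2, fun ⟨hv, h'⟩ => ⟨hv, hv, h'⟩⟩
    have mE : ∀ v, v ∈ EE ↔ ∃ hv : v ∈ G.vs, (⟨v, hv⟩ : {v // v ∈ G.vs}) ∈ E := by
      intro v
      simp only [EE, mem_filter]
      exact ⟨fun h' => h'.2, fun ⟨hv, h'⟩ => ⟨hv, hv, h'⟩⟩
    let κ' : V → {v // v ∈ G.vs} × Bool := fun v => if hv : v ∈ G.vs then κ ⟨v, hv⟩ else
      (⟨G.pi τ1, G.pi_mem _ m1⟩, true)
    have hk : ∀ v (hv : v ∈ G.vs), κ' v = κ ⟨v, hv⟩ := by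
      intro v hv
      simp only [κ', dif_pos hv]
    have hbar : FBar G F OO EE κ' := by
      refine ⟨filter_subset _ _, filter_subset _ _, ?_, ?_, ?_, ?_⟩
      · intro v ho he
        obtain ⟨hv, h1⟩ := (mO v).1 ho
        obtain ⟨_, h2⟩ := (mE v).1 he
        exact hB.dis _ h1 h2
      · intro x y hx hy hxy
        have hx' : ∃ hv : x ∈ G.vs, (⟨x, hv⟩ : {v // v ∈ G.vs}) ∈ O ∨
            (⟨x, hv⟩ : {v // v ∈ G.vs}) ∈ E := by
          rcases hx with h1 | h1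
          · obtain ⟨hv, h1⟩ := (mO x).1 h1
            exact ⟨hv, Or.inl h1⟩
          · obtain ⟨hv, h1⟩ := (mE x).1 h1
            exact ⟨hv, Or.inr h1⟩
        have hy' : ∃ hv : y ∈ G.vs, (⟨y, hv⟩ : {v // v ∈ G.vs}) ∈ O ∨
            (⟨y, hv⟩ : {v // v ∈ G.vs}) ∈ E := by
          rcases hy with h1 | h1
          · obtain ⟨hv, h1⟩ := (mO y).1 h1
            exact ⟨hv, Or.inl h1⟩
          · obtain ⟨hv, h1⟩ := (mE y).1 h1
            exact ⟨hv, Or.inr h1⟩
        obtain ⟨hxv, hx'⟩ := hx'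
        obtain ⟨hyv, hy'⟩ := hy'
        rw [hk x hxv, hk y hyv] at hxy
        exact congrArg Subtype.val (hB.inj _ _ hx' hy' hxy)
      · intro d hd ht h1 h2
        have v1 := G.pi_mem d hd
        have v2 := G.pi_mem _ (G.al_mem d hd)
        rw [hk _ v1, hk _ v2]
        apply hB.kill
        · exact ⟨d, mem_filter.2 ⟨hd, ht⟩, rfl, rfl⟩
        · exact fun h' => h1 ((mO _).2 ⟨v1, h'⟩)
        · exact fun h' => h2 ((mO _).2 ⟨v2, h'⟩)
      · intro d hd h1 h2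
        have v1 := G.pi_mem d (h.sub hd)
        have v2 := G.pi_mem _ (G.al_mem d (h.sub hd))
        rw [hk _ v1, hk _ v2]
        apply hB.pair
        · exact ⟨d, hd, rfl, rfl⟩
        · exact fun h' => h1 ((mE _).2 ⟨v1, h'⟩)
        · exact fun h' => h2 ((mE _).2 ⟨v2, h'⟩)
    exact hbar.no h h3 hodd m1 m2 t1 t2 hne ((mO _).2 ⟨_, hB.src⟩) ((mO _).2 ⟨_, hB.tgt⟩)

end JK.CG
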