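import Pool.Agent.Lib.JK.CutTwo
import Pool.Agent.Lib.JK.Absorb

/-! Small cuts of a minimal counterexample which meet `K` in at most one vertex. -/

set_option autoImplicit false

namespace JK.CG

open Finset Classical

variable {V D : Type*} {G : CG V D} {K : Finset V} {F : Finset D}

/-- tokens of a set which meets `K` at most in the vertex of the token `σ` -/
private lemma facts_tk_sub (hc : G.Cls K F) {σ : D}
    (hone : ∀ τ ∈ G.ds, G.al τ = τ → G.pi τ = G.pi σ → τ = σ) {X : Finset V}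
    (hK : ∀ v ∈ X, v ∈ K → v = G.pi σ) : G.tk X ⊆ {σ} := by
  intro τ hτ
  have h1 := G.mem_tk.1 hτ
  exact mem_singleton.2 (hone τ h1.1 h1.2.2 (hK _ h1.2.1 (hc.tokK τ h1.1 h1.2.2)))

private lemma facts_tk_empty (hc : G.Cls K F) {σ : D} {X : Finset V}
    (hK : ∀ v ∈ X, v ∈ K → v = G.pi σ) (hσ : G.pi σ ∉ X) : G.tk X = ∅ := by
  apply Finset.eq_empty_of_forall_notMem
  intro τ hτ
  have h1 := G.mem_tk.1 hτ
  exact hσ ((hK _ h1.2.1 (hc.tokK τ h1.1 h1.2.2)) ▸ h1.2.1)

/-- the complement of an odd set with at most one token has at least three vertices -/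
private lemma facts_compl (h : G.MC K F) {X : Finset V} (hX : X ⊆ G.vs) (ho : Odd X.card)
    (ht : (G.tk X).card ≤ 1) (h3 : 3 ≤ G.dg X) : 3 ≤ (G.vs \ X).card := by
  have h4 := h.four
  have hc := G.tk_compl hX
  have hev := h.inst.even
  have hcard : (G.vs \ X).card + X.card = G.vs.card := card_sdiff_add_card_eq_card hX
  have hWo : Odd (G.vs \ X).card := by
    by_contra hne
    rw [Nat.not_odd_iff_even] at hne
    rw [← hcard] at hev
    exact (Nat.not_even_iff_odd.2 (hne.add_odd ho)) hev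
  by_contra hlt
  have h1 : (G.vs \ X).card = 1 := by
    obtain ⟨k, hk⟩ := hWo
    omega
  obtain ⟨w, hw⟩ := card_eq_one.1 h1
  have hwv : w ∈ G.vs := by
    have : w ∈ G.vs \ X := by rw [hw]; exact mem_singleton_self w
    exact (mem_sdiff.1 this).1
  have h5 := G.dg_singleton_le hwv
  have h6 : (G.bd (G.vs \ X)).card = (G.bd X).card := G.bd_compl hX
  rw [hw] at h6 hc
  unfold dg at h5 h3
  omega

/-- `glueA0` for sets avoiding `K`; `glue` if the token vertex `s` is in the set (the complement has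
at least three vertices: it contains three tokens). -/
lemma MC.odd5 (h : G.MC K F) {σ : D} (mσ : σ ∈ G.ds) (tσ : G.al σ = σ)
    (hone : ∀ τ ∈ G.ds, G.al τ = τ → G.pi τ = G.pi σ → τ = σ) {X : Finset V} (hX : X ⊆ G.vs)
    (ho : Odd X.card) (h3 : 3 ≤ X.card) (hK : ∀ v ∈ X, v ∈ K → v = G.pi σ) : 5 ≤ G.dg X := by
  have hb := h.inst.b0 X hX ho
  have hp := (G.dg_parity hX).2 ho
  by_contra hlt
  have hd3 : G.dg X = 3 := by
    obtain ⟨k, hk⟩ := hp
    omega
  have hsub := facts_tk_sub h.inst.cls hone hK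
  have ht1 : (G.tk X).card ≤ 1 := by
    have := card_le_card hsub
    rwa [card_singleton] at this
  have hc' := facts_compl h hX ho ht1 hb
  by_cases hs : G.pi σ ∈ X
  · refine h.no (glue h.inst h.ih hX ho hd3 h3 hc' ?_)
    intro he
    exfalso
    have hm : σ ∈ G.tk X := G.mem_tk.2 ⟨mσ, hs, tσ⟩
    rw [he] at hm
    exact absurd hm (Finset.notMem_empty _)
  · refine h.no (glueA0 h.inst h.ih hX ho hd3 (facts_tk_empty h.inst.cls hK hs) h3 hc' ?_)
    intro v hv hvK
    exact hs ((hK v hv hvK) ▸ hv)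

/-- `MC.two_le_bd`, `MC.four_le_bd`, parity -/
lemma MC.even4 (h : G.MC K F) {σ : D} (mσ : σ ∈ G.ds) (tσ : G.al σ = σ)
    (hone : ∀ τ ∈ G.ds, G.al τ = τ → G.pi τ = G.pi σ → τ = σ) {X : Finset V} (hX : X ⊆ G.vs)
    (he : Even X.card) (hne : X.Nonempty) (hK : ∀ v ∈ X, v ∈ K → v = G.pi σ) : 4 ≤ G.dg X := by
  by_cases hs : G.pi σ ∈ X
  · have hsub := facts_tk_sub h.inst.cls hone hK
    have ht1 : (G.tk X).card = 1 := by
      have h1 := card_le_card hsub
      rw [card_singleton] at h1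
      have h2 : 0 < (G.tk X).card := card_pos.2 ⟨σ, G.mem_tk.2 ⟨mσ, hs, tσ⟩⟩
      omega
    have hne' : X ≠ G.vs := by
      intro heq
      have h4 := h.four
      rw [← heq] at h4
      omega
    have h2 := h.two_le_bd hX he hne hne'
    have hp : Even (G.dg X) := by
      by_contra hn
      rw [Nat.not_even_iff_odd] at hn
      exact (Nat.not_even_iff_odd.2 ((G.dg_parity hX).1 hn)) he
    unfold dg at hp ⊢
    obtain ⟨k, hk⟩ := hp
    omega
  · have h4 := h.four_le_bd hX he hne (fun v hv hvK => hs ((hK v hv hvK) ▸ hv))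
    unfold dg
    omega

end JK.CG
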