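import Pool.Agent.Lib.JK.Two
import Pool.Agent.Lib.JK.EvenSub

/-! From the main theorem to the frozen statement S11409. -/

set_option autoImplicit false

namespace JK

open Finset Classical

/-- the complement of a perfect matching -/
private def compl2 {V : Type} [Fintype V] (G : SimpleGraph V)
    (hc : ∀ v : V, (G.neighborSet v).ncard = 3) (M : Finset (V × V))
    (hM : (ofSG G hc).IsPM M) : SimpleGraph V where
  Adj v w := G.Adj v w ∧ (v, w) ∉ M
  symm := ⟨fun v w h => ⟨h.1.symm, fun hw => h.2 (hM.closed (w, v) hw)⟩⟩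
  loopless := ⟨fun v h => G.loopless.irrefl v h.1⟩

private lemma compl2_le {V : Type} [Fintype V] (G : SimpleGraph V)
    (hc : ∀ v : V, (G.neighborSet v).ncard = 3) (M : Finset (V × V))
    (hM : (ofSG G hc).IsPM M) : compl2 G hc M hM ≤ G := fun _ _ h => h.1

private lemma compl2_card {V : Type} [Fintype V] (G : SimpleGraph V)
    (hc : ∀ v : V, (G.neighborSet v).ncard = 3) (M : Finset (V × V))
    (hM : (ofSG G hc).IsPM M) (v : V) : ((compl2 G hc M hM).neighborSet v).ncard = 2 := by
  obtain ⟨d, hd⟩ := Finset.card_eq_one.1 (hM.one v (Finset.mem_univ v))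
  have hd1 : d ∈ M ∧ d.1 = v := by
    have : d ∈ M.filter fun d => (ofSG G hc).pi d = v := by rw [hd]; simp
    rw [Finset.mem_filter] at this
    exact this
  obtain ⟨a, w⟩ := d
  obtain ⟨hm, rfl⟩ := hd1
  have hadj : G.Adj a w := by
    have := hM.sub hm
    simpa [ofSG] using this
  have hset : (compl2 G hc M hM).neighborSet a = G.neighborSet a \ {w} := by
    ext x
    simp only [SimpleGraph.mem_neighborSet, Set.mem_sdiff, Set.mem_singleton_iff]
    constructor
    · rintro ⟨h1, h2⟩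
      refine ⟨h1, ?_⟩
      rintro rfl
      exact h2 hm
    · rintro ⟨h1, h2⟩
      refine ⟨h1, fun h3 => h2 ?_⟩
      have : (a, x) ∈ M.filter fun d => (ofSG G hc).pi d = a := by
        rw [Finset.mem_filter]
        exact ⟨h3, rfl⟩
      rw [hd, Finset.mem_singleton] at this
      exact (Prod.ext_iff.1 this).2
  rw [hset, Set.ncard_sdiff_singleton_of_mem (show w ∈ G.neighborSet a from hadj), hc]

/-- the frozen statement, given the main theorem -/
theorem final (hmain : ∀ (V D : Type) (G : CG V D) (K : Finset V) (F : Finset D),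
      G.Inst K F → ∃ M, G.Good K F M) :
    ∀ (V : Type) [Fintype V] (G : SimpleGraph V),
      (∀ v : V, (G.neighborSet v).ncard = 3) →
      (∀ v w : V, G.Adj v w → (G.deleteEdges {s(v, w)}).Reachable v w) →
      ∃ F₁ F₂ C : SimpleGraph V,
        F₁ ≤ G ∧ F₂ ≤ G ∧ C ≤ G ∧
        (∀ v : V, (F₁.neighborSet v).ncard = 2) ∧
        (∀ v : V, (F₂.neighborSet v).ncard = 2) ∧
        (∀ v : V, Even ((C.neighborSet v).ncard)) ∧
        F₁ ⊔ F₂ ⊔ C = G := by
  intro V _ G hc hb
  obtain ⟨M1, M2, h1, h2, hZ⟩ := exists_two hmain G hc hb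
  obtain ⟨C, hC, hT, hev⟩ := exists_even G hc (M1 ∩ M2)
    (fun d hd => by
      have := h1.sub (Finset.mem_inter.1 hd).1
      simpa [ofSG] using this)
    (fun d hd => Finset.mem_inter.2 ⟨h1.closed d (Finset.mem_inter.1 hd).1,
      h2.closed d (Finset.mem_inter.1 hd).2⟩)
    (fun Z hZo => by
      obtain ⟨d, hd, hd'⟩ := hZ Z hZo
      exact ⟨d, hd, fun h => hd' (Finset.mem_inter.1 h)⟩)
  refine ⟨compl2 G hc M1 h1, compl2 G hc M2 h2, C, compl2_le G hc M1 h1, compl2_le G hc M2 h2,
    hC, compl2_card G hc M1 h1, compl2_card G hc M2 h2, hev, ?_⟩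
  ext v w
  simp only [SimpleGraph.sup_adj]
  constructor
  · rintro ((h | h) | h)
    · exact h.1
    · exact h.1
    · exact hC h
  · intro h
    by_cases hm1 : (v, w) ∈ M1
    · by_cases hm2 : (v, w) ∈ M2
      · exact Or.inr (hT _ (Finset.mem_inter.2 ⟨hm1, hm2⟩))
      · exact Or.inl (Or.inr ⟨h, hm2⟩)
    · exact Or.inl (Or.inl ⟨h, hm1⟩)

end JK
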