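import Pool.Agent.Lib.JK.MC
import Pool.Agent.Lib.JK.Kill

/-! The root digon (state gamma): a vertex `q` with two tokens; its third edge `u` leads to a vertex
`x = pi (al u)` which is not absorbed. Every perfect matching contains `u`, so `q` and `x` can be
deleted; the two other edges at `x` (they are in `F`) become tokens. -/

set_option autoImplicit false

namespace JK.CG

open Finset Classical

variable {V D : Type*} {G : CG V D} {K : Finset V} {F : Finset D}

/-- `u` is the only dart at its vertex which is not a token -/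
structure GQ (G : CG V D) (u : D) : Prop where
  mu : u ∈ G.ds
  tu : G.al u ≠ u
  hq : ∀ d ∈ G.ds, G.pi d = G.pi u → d = u ∨ G.al d = d

/-- the two vertices which are deleted -/
noncomputable def gU (G : CG V D) (u : D) : Finset V := {G.pi u, G.pi (G.al u)}

lemma mem_gU {u : D} {v : V} : v ∈ gU G u ↔ v = G.pi u ∨ v = G.pi (G.al u) := by
  simp [gU]

namespace GQ

variable {u : D} (h : G.GQ u)
include h

lemma mal : G.al u ∈ G.ds := G.al_mem _ h.mu

lemma alal : G.al (G.al u) = u := G.al_al _ h.mu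

lemma ne : G.pi u ≠ G.pi (G.al u) := by
  intro e
  rcases h.hq _ h.mal e.symm with e1 | e1
  · exact h.tu e1
  · rw [h.alal] at e1
    exact h.tu e1.symm

lemma gU_sub : gU G u ⊆ G.vs := by
  intro v hv
  rcases mem_gU.1 hv with rfl | rfl
  · exact G.pi_mem _ h.mu
  · exact G.pi_mem _ h.mal

lemma gU_card : (gU G u).card = 2 := card_pair h.ne

/-- the tokens at `q` -/
lemma tk_q : (G.tk {G.pi u}).card = 2 := by
  have h3 := G.cubic _ (G.pi_mem _ h.mu)
  have e : (G.ds.filter fun d => G.pi d = G.pi u) = insert u (G.tk {G.pi u}) := by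
    ext d
    rw [mem_insert, mem_tk, mem_filter, mem_singleton]
    constructor
    · rintro ⟨a, b⟩
      rcases h.hq d a b with c | c
      · exact Or.inl c
      · exact Or.inr ⟨a, b, c⟩
    · rintro (rfl | ⟨a, b, -⟩)
      · exact ⟨h.mu, rfl⟩
      · exact ⟨a, b⟩
  rw [e, card_insert_of_notMem (fun hh => h.tu ((mem_tk _).1 hh).2.2)] at h3
  omega

lemma exists_tk : ∃ τ ∈ G.ds, G.al τ = τ ∧ G.pi τ = G.pi u := by
  have h2 := h.tk_q
  have : (G.tk {G.pi u}).Nonempty := by
    rw [← card_pos]; omega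
  obtain ⟨τ, hτ⟩ := this
  rw [mem_tk, mem_singleton] at hτ
  exact ⟨τ, hτ.1, hτ.2.2, hτ.2.1⟩

lemma qK (hc : G.Cls K F) : G.pi u ∈ K := by
  obtain ⟨τ, a, b, c⟩ := h.exists_tk
  rw [← c]
  exact hc.tokK τ a b

/-- every perfect matching contains `u` -/
lemma mem_pm {M : Finset D} (hM : G.IsPM M) : u ∈ M := by
  have h1 := hM.one _ (G.pi_mem _ h.mu)
  rw [card_eq_one] at h1
  obtain ⟨d, hd⟩ := h1
  have h2 : d ∈ M.filter fun d => G.pi d = G.pi u := by rw [hd]; exact mem_singleton_self _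
  rw [mem_filter] at h2
  rcases h.hq d (hM.sub h2.1) h2.2 with rfl | e
  · exact h2.1
  · exact absurd e (hM.notok d h2.1)

variable (hc : G.Cls K F) (hx : ¬ G.Abs K F (G.pi (G.al u)))
include hc hx

omit h hc in
lemma xK : G.pi (G.al u) ∉ K := fun hk => hx fun _ hZ hz => hZ.dis _ hz hk

lemma alu_F : G.al u ∉ F := by
  intro hF
  apply hx
  intro Z hZ hz
  have := hZ.clo _ hF hz
  rw [h.alal] at this
  exact hZ.dis _ this (h.qK hc)

/-- the darts at `x` -/
lemma at_x {d : D} (hd : d ∈ G.ds) (hp : G.pi d = G.pi (G.al u)) : d = G.al u ∨ d ∈ F := by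
  have hv := G.pi_mem _ h.mal
  have h3 := G.cubic _ hv
  have h2 := hc.F2 _ hv (GQ.xK hx)
  set S := G.ds.filter fun d => G.pi d = G.pi (G.al u) with hS
  have ha : G.al u ∈ S := mem_filter.2 ⟨h.mal, rfl⟩
  have hsub : (F.filter fun d => G.pi d = G.pi (G.al u)) ⊆ S.erase (G.al u) := by
    intro e he
    rw [mem_filter] at he
    rw [mem_erase]
    refine ⟨?_, mem_filter.2 ⟨hc.Fsub he.1, he.2⟩⟩
    rintro rfl
    exact h.alu_F hc hx he.1
  have heq : (F.filter fun d => G.pi d = G.pi (G.al u)) = S.erase (G.al u) := by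
    apply eq_of_subset_of_card_le hsub
    rw [card_erase_of_mem ha, h3, h2]
  by_cases hdu : d = G.al u
  · exact Or.inl hdu
  · right
    have : d ∈ S.erase (G.al u) := mem_erase.2 ⟨hdu, mem_filter.2 ⟨hd, hp⟩⟩
    rw [← heq] at this
    exact (mem_filter.1 this).1

/-- nothing fresh is adjacent to the deleted vertices, except the circuit of `x` -/
lemma nbr {Z : Finset V} (hZ : G.Adm K F Z) (hxZ : G.pi (G.al u) ∉ Z) :
    ∀ d ∈ G.ds, G.pi d ∈ Z → G.pi (G.al d) ∉ gU G u := by
  intro d hd hz hU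
  have hqZ : G.pi u ∉ Z := fun hh => hZ.dis _ hh (h.qK hc)
  have hal := G.al_mem _ hd
  have hdd := G.al_al _ hd
  rcases mem_gU.1 hU with e | e
  · rcases h.hq _ hal e with e1 | e1
    · rw [e1] at hdd
      rw [← hdd] at hz
      exact hxZ hz
    · rw [hdd] at e1
      rw [← e1] at e
      exact hqZ (e ▸ hz)
  · rcases h.at_x hc hx hal e with e1 | e1
    · rw [e1, h.alal] at hdd
      rw [← hdd] at hz
      exact hqZ hz
    · have h1 := hc.Fal _ e1
      rw [hdd] at h1
      have h2 := hZ.clo _ h1 hz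
      rw [e] at h2
      exact hxZ h2

omit hx in
lemma dj {Z : Finset V} (hZ : G.Adm K F Z) (hxZ : G.pi (G.al u) ∉ Z) : Disjoint Z (gU G u) := by
  rw [disjoint_left]
  intro v hv hU
  rcases mem_gU.1 hU with rfl | rfl
  · exact hZ.dis _ hv (h.qK hc)
  · exact hxZ hv

lemma bd_eq {Z : Finset V} (hZ : G.Adm K F Z) (hxZ : G.pi (G.al u) ∉ Z) :
    (G.delV (gU G u)).bd Z = G.bd Z := by
  have hd := h.dj hc hZ hxZ
  rw [disjoint_left] at hd
  rw [G.delV_bd (fun v hv => mem_sdiff.2 ⟨hZ.sub hv, hd hv⟩)]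
  apply filter_true_of_mem
  intro d hd'
  rw [mem_bd] at hd'
  exact h.nbr hc hx hZ hxZ d hd'.1 hd'.2.1

lemma adm {Z : Finset V} (hZ : G.Adm K F Z) (hxZ : G.pi (G.al u) ∉ Z) :
    (G.delV (gU G u)).Adm
      ((K ∪ (G.ds.filter fun d => G.pi (G.al d) ∈ gU G u).image G.pi) \ gU G u)
      (F.filter fun d => G.pi d ∉ gU G u ∧ G.pi (G.al d) ∉ gU G u) Z := by
  rw [G.delV_adm hc]
  exact ⟨hZ, h.dj hc hZ hxZ, h.nbr hc hx hZ hxZ⟩

omit hc in
lemma tk_bd : (G.bd (gU G u)).card ≤ (G.tk (gU G u)).card := by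
  have h1 : (G.bd (gU G u)).card ≤ 2 := by
    have hsub : G.bd (gU G u) ⊆ (G.ds.filter fun d => G.pi d = G.pi (G.al u)).erase (G.al u) := by
      intro d hd
      rw [mem_bd, mem_gU, mem_gU] at hd
      rw [mem_erase, mem_filter]
      refine ⟨?_, hd.1, ?_⟩
      · rintro rfl
        exact hd.2.2 (Or.inl (by rw [h.alal]))
      · rcases hd.2.1 with e | e
        · exfalso
          rcases h.hq _ hd.1 e with rfl | e1
          · exact hd.2.2 (Or.inr rfl)
          · rw [e1] at hd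
            exact hd.2.2 hd.2.1
        · exact e
    refine (card_le_card hsub).trans ?_
    have hm : G.al u ∈ G.ds.filter fun d => G.pi d = G.pi (G.al u) := mem_filter.2 ⟨h.mal, rfl⟩
    rw [card_erase_of_mem hm, G.cubic _ (G.pi_mem _ h.mal)]
  have h2 : 2 ≤ (G.tk (gU G u)).card := by
    rw [← h.tk_q]
    apply card_le_card
    intro d hd
    rw [mem_tk, mem_singleton] at hd
    rw [mem_tk, mem_gU]
    exact ⟨hd.1, Or.inl hd.2.1, hd.2.2⟩
  omega

/-- the instance after deleting `q` and `x` -/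
lemma inst (hI : G.Inst K F) : (G.delV (gU G u)).Inst
    ((K ∪ (G.ds.filter fun d => G.pi (G.al d) ∈ gU G u).image G.pi) \ gU G u)
      (F.filter fun d => G.pi d ∉ gU G u ∧ G.pi (G.al d) ∉ gU G u) := by
  have hcard : (G.vs \ gU G u).card + 2 = G.vs.card := by
    rw [← h.gU_card]
    exact card_sdiff_add_card_eq_card h.gU_sub
  refine ⟨?_, ?_, G.delV_b0 hI.b0 _, G.delV_cls hc, ?_⟩
  · show Even (G.vs \ gU G u).card
    have := hI.even
    rw [← hcard] at this
    exact (Nat.even_add.1 this).2 even_two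
  · have h1 := G.delV_tk_card h.gU_sub
    have h2 := h.tk_bd hx
    have h3 := hI.four
    omega
  · intro Z hZ ho
    rw [G.delV_adm hc] at hZ
    have hxZ : G.pi (G.al u) ∉ Z := fun hz =>
      disjoint_left.1 hZ.2.1 hz (mem_gU.2 (Or.inr rfl))
    rw [h.bd_eq hc hx hZ.1 hxZ]
    exact hI.cc Z hZ.1 ho

end GQ

/-- **gamma reduction**: `q`, `x` are deleted, then the edges in `A` are killed; `hj` : everything
touched, and the circuit of `x`, is joined to `K` by killed edges. -/
theorem gamma_red (hI : G.Inst K F) (ih : IH G.vs.card V D) {u : D} (h : G.GQ u)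
    (hx : ¬ G.Abs K F (G.pi (G.al u))) {A : Finset D} {al' p : D → D}
    (k : (G.delV (gU G u)).KD A al' p) (hb : k.gr.B0)
    (ht : (A.filter fun d => al' d = d).card ≤
      (A.filter fun d => (G.delV (gU G u)).al d = d).card)
    (hj : ∀ Z, G.Adm K F Z → (∃ d ∈ A, G.pi d ∈ Z) ∨ G.pi (G.al u) ∈ Z →
      ∃ d ∈ A, d ∈ G.bd Z) : ∃ M, G.Good K F M := by
  have hc := hI.cls
  have hI1 := h.inst hc hx hI
  have hI2 := k.inst hI1 hb ht
  have hcard : (G.vs \ gU G u).card + 2 = G.vs.card := by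
    rw [← h.gU_card]
    exact card_sdiff_add_card_eq_card h.gU_sub
  obtain ⟨M', hM'⟩ := ih k.gr _ _ (by
    show (G.vs \ gU G u).card < G.vs.card
    omega) hI2
  have pm1 := k.lift_pm hM'.pm
  have pm : G.IsPM (KD.lift A p M' ∪ {u, G.al u}) := G.delV_pm h.mu h.ne pm1
  have hout : ∀ d ∈ (G.delV (gU G u)).ds, d ∉ ({u, G.al u} : Finset D) := by
    intro d hd hh
    rw [mem_delV_ds] at hd
    rw [mem_insert, mem_singleton] at hh
    rcases hh with rfl | rfl
    · exact hd.2 (mem_gU.2 (Or.inl rfl))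
    · exact hd.2 (mem_gU.2 (Or.inr rfl))
  refine ⟨_, pm, ?_⟩
  intro Z hZ ho
  by_cases hT : (∃ d ∈ A, G.pi d ∈ Z) ∨ G.pi (G.al u) ∈ Z
  · obtain ⟨d, hd, hdb⟩ := hj Z hZ hT
    refine ⟨d, hdb, ?_⟩
    rw [mem_union, not_or]
    exact ⟨k.lift_not hM'.pm hd, hout d (k.sub hd)⟩
  · rw [not_or] at hT
    obtain ⟨hT1, hxZ⟩ := hT
    push Not at hT1
    have hZ1 := h.adm hc hx hZ hxZ
    have hun : ∀ v ∈ Z, v ∉ KD.tch (G.delV (gU G u)) A := by
      intro v hv hvt
      obtain ⟨d, hd, rfl⟩ := KD.mem_tch.1 hvt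
      exact hT1 d hd hv
    obtain ⟨e, he, heM⟩ := hM'.hit Z ((k.adm_iff (G.delV_cls hc)).2 ⟨hZ1, hun⟩) ho
    rw [k.bd_untouched hun, h.bd_eq hc hx hZ hxZ] at he
    have heb := (mem_bd _).1 he
    refine ⟨e, he, ?_⟩
    rw [mem_union, not_or, KD.mem_lift]
    refine ⟨?_, ?_⟩
    · rintro (⟨h6, -⟩ | ⟨e', h6, h7, rfl⟩)
      · exact heM h6
      · have h8 := (k.pair e' h7 (hM'.pm.notok e' h6)).2.2.2.1
        have h9 : (G.delV (gU G u)).pi (p e') ∈ Z := heb.2.1
        rw [h8] at h9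
        exact hun _ h9 (KD.mem_tch.2 ⟨e', h7, rfl⟩)
    · apply hout
      rw [mem_delV_ds]
      exact ⟨heb.1, disjoint_left.1 (h.dj hc hZ hxZ) heb.2.1⟩

/-- **total parity**: if all vertices except the two token vertices are fresh -/
theorem gamma_small (hI : G.Inst K F) (ih : IH G.vs.card V D) {u u' : D} (h : G.GQ u)
    (h' : G.GQ u') (hne : G.pi u ≠ G.pi u') (hx : ¬ G.Abs K F (G.pi (G.al u)))
    (hall : ∀ v ∈ G.vs, G.Abs K F v → v = G.pi u ∨ v = G.pi u') : ∃ M, G.Good K F M := by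
  have hc := hI.cls
  have hI1 := h.inst hc hx hI
  have hcard : (G.vs \ gU G u).card + 2 = G.vs.card := by
    rw [← h.gU_card]
    exact card_sdiff_add_card_eq_card h.gU_sub
  obtain ⟨M', hM'⟩ := ih (G.delV (gU G u)) _ _ (by
    show (G.vs \ gU G u).card < G.vs.card
    omega) hI1
  have pm : G.IsPM (M' ∪ {u, G.al u}) := G.delV_pm h.mu h.ne hM'.pm
  have hout : ∀ d ∈ (G.delV (gU G u)).ds, d ∉ ({u, G.al u} : Finset D) := by
    intro d hd hh
    rw [mem_delV_ds] at hd
    rw [mem_insert, mem_singleton] at hh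
    rcases hh with rfl | rfl
    · exact hd.2 (mem_gU.2 (Or.inl rfl))
    · exact hd.2 (mem_gU.2 (Or.inr rfl))
  -- sets without `x`
  have key : ∀ Z, G.Adm K F Z → Odd Z.card → G.pi (G.al u) ∉ Z →
      ∃ d ∈ G.bd Z, d ∉ M' ∪ {u, G.al u} := by
    intro Z hZ ho hxZ
    obtain ⟨e, he, heM⟩ := hM'.hit Z (h.adm hc hx hZ hxZ) ho
    rw [h.bd_eq hc hx hZ hxZ] at he
    refine ⟨e, he, ?_⟩
    rw [mem_union, not_or]
    refine ⟨heM, ?_⟩
    apply hout
    have heb := (mem_bd _).1 he
    rw [mem_delV_ds]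
    exact ⟨heb.1, disjoint_left.1 (h.dj hc hZ hxZ) heb.2.1⟩
  refine ⟨_, pm, ?_⟩
  intro Z hZ ho
  by_cases hxZ : G.pi (G.al u) ∈ Z
  · -- the complement
    by_contra hcon
    push Not at hcon
    set Q : Finset V := {G.pi u, G.pi u'} with hQ
    have hQs : Q ⊆ G.vs := by
      intro v hv
      rw [hQ, mem_insert, mem_singleton] at hv
      rcases hv with rfl | rfl
      · exact G.pi_mem _ h.mu
      · exact G.pi_mem _ h'.mu
    have hQc : Q.card = 2 := card_pair hne
    have hZQ : ∀ v ∈ Z, v ∉ Q := by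
      intro v hv hh
      rw [hQ, mem_insert, mem_singleton] at hh
      rcases hh with rfl | rfl
      · exact hZ.dis _ hv (h.qK hc)
      · exact hZ.dis _ hv (h'.qK hc)
    have hAbs : ∀ v, v ∈ G.vs \ Q → ¬ G.Abs K F v := by
      intro v hv ha
      rw [mem_sdiff] at hv
      apply hv.2
      rw [hQ, mem_insert, mem_singleton]
      exact hall v hv.1 ha
    have hZ' : G.Adm K F ((G.vs \ Q) \ Z) := by
      refine ⟨?_, ?_, ?_⟩
      · intro v hv
        exact (mem_sdiff.1 (mem_sdiff.1 hv).1).1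
      · intro v hv hk
        refine hAbs v (mem_sdiff.1 hv).1 ?_
        intro Y hY hy
        exact hY.dis _ hy hk
      · intro d hd hv
        rw [mem_sdiff] at hv
        have hdd := hc.Fsub hd
        have hw := G.pi_mem _ (G.al_mem _ hdd)
        rw [mem_sdiff, mem_sdiff]
        refine ⟨⟨hw, ?_⟩, ?_⟩
        · intro hh
          refine hAbs _ hv.1 ?_
          intro Y hY hy
          have := hY.clo _ hd hy
          rw [hQ, mem_insert, mem_singleton] at hh
          rcases hh with e | e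
          · rw [e] at this
            exact hY.dis _ this (h.qK hc)
          · rw [e] at this
            exact hY.dis _ this (h'.qK hc)
        · intro hh
          have := hZ.clo _ (hc.Fal _ hd) hh
          rw [G.al_al _ hdd] at this
          exact hv.2 this
    have ho' : Odd ((G.vs \ Q) \ Z).card := by
      have e1 : (G.vs \ Q).card + 2 = G.vs.card := by
        rw [← hQc]
        exact card_sdiff_add_card_eq_card hQs
      have hsub : Z ⊆ G.vs \ Q := fun v hv => mem_sdiff.2 ⟨hZ.sub hv, hZQ v hv⟩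
      have e2 := card_sdiff_add_card_eq_card hsub
      have e3 := hI.even
      rw [← e1, ← e2] at e3
      rw [Nat.odd_iff] at ho ⊢
      rw [Nat.even_iff] at e3
      omega
    have hx' : G.pi (G.al u) ∉ (G.vs \ Q) \ Z := fun hh => (mem_sdiff.1 hh).2 hxZ
    obtain ⟨d, hd, hdM⟩ := key _ hZ' ho' hx'
    rw [mem_bd] at hd
    obtain ⟨hd1, hd2, hd3⟩ := hd
    have hal := G.al_mem _ hd1
    have hdd := G.al_al _ hd1
    have hw := G.pi_mem _ hal
    have hz2 := (mem_sdiff.1 hd2).2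
    by_cases hzz : G.pi (G.al d) ∈ Z
    · have h5 : G.al d ∈ G.bd Z := (mem_bd _).2 ⟨hal, hzz, by rw [hdd]; exact hz2⟩
      have h6 := pm.closed _ (hcon _ h5)
      rw [hdd] at h6
      exact hdM h6
    · have h5 : G.pi (G.al d) ∈ Q := by
        by_contra h6
        exact hd3 (mem_sdiff.2 ⟨mem_sdiff.2 ⟨hw, h6⟩, hzz⟩)
      have hQd : G.pi d ∉ Q := (mem_sdiff.1 (mem_sdiff.1 hd2).1).2
      have fin : ∀ w : D, G.GQ w → G.pi (G.al d) = G.pi w → G.pi w ∈ Q → False := by
        intro w hw' e hwQ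
        rcases hw'.hq _ hal e with e1 | e1
        · have h7 := pm.closed _ (hw'.mem_pm pm)
          rw [← e1, hdd] at h7
          exact hdM h7
        · rw [hdd] at e1
          rw [← e1] at e
          exact hQd (e ▸ hwQ)
      rw [hQ, mem_insert, mem_singleton] at h5
      rcases h5 with e | e
      · exact fin u h e (by rw [hQ]; exact mem_insert_self _ _)
      · exact fin u' h' e (by rw [hQ]; exact mem_insert_of_mem (mem_singleton_self _))
  · exact key Z hZ ho hxZ

end JK.CG
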