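import Pool.Agent.Lib.JK.Contract

/-! Gluing of matchings, and the classes after a contraction. -/

set_option autoImplicit false

namespace JK.CG

open Finset Classical

variable {V D : Type*} {G : CG V D} {X : Finset V} {z : V} {T : Finset D}

/-- darts of the contracted graph -/
lemma CD.gp_mem_ds (h : G.CD X z T) {d : D} :
    d ∈ h.con.ds ↔ (d ∈ G.ds ∧ (G.pi d ∈ X ∨ G.pi (G.al d) ∈ X)) ∨ d ∈ T := by
  show d ∈ (G.ds.filter fun d => G.pi d ∈ X ∨ G.pi (G.al d) ∈ X) ∪ T ↔ _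
  rw [mem_union, mem_filter]

lemma CD.gp_pi (h : G.CD X z T) (d : D) :
    h.con.pi d = if G.pi d ∈ X then G.pi d else z := rfl

lemma CD.gp_al (h : G.CD X z T) (d : D) : h.con.al d = G.al d := rfl

lemma CD.gp_vs (h : G.CD X z T) : h.con.vs = insert z X := rfl

/-- darts of the contracted graph are darts of `G` -/
lemma CD.gp_ds_sub (h : G.CD X z T) {d : D} (hd : d ∈ h.con.ds) : d ∈ G.ds := by
  rcases h.gp_mem_ds.1 hd with h1 | h1
  · exact h1.1
  · have := h.Tsub h1
    unfold tk at this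
    exact (mem_filter.1 this).1

/-- `T` consists of tokens -/
lemma CD.gp_T_tok (h : G.CD X z T) {d : D} (hd : d ∈ T) : G.al d = d := by
  have := h.Tsub hd
  unfold tk at this
  exact (mem_filter.1 this).2.2

/-- the projection at a vertex of `X` -/
lemma CD.gp_pi_eq (h : G.CD X z T) {v : V} (hv : v ∈ X) (d : D) :
    h.con.pi d = v ↔ G.pi d = v := by
  rw [h.gp_pi]
  by_cases hd : G.pi d ∈ X
  · rw [if_pos hd]
  · rw [if_neg hd]
    constructor
    · intro e
      exact absurd (e ▸ hv) h.zX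
    · intro e
      exact absurd (e ▸ hv) hd

/-- darts of a matching of the contracted graph -/
lemma CD.gp_pm_mem (h : G.CD X z T) {M : Finset D} (hM : h.con.IsPM M) {d : D} (hd : d ∈ M) :
    d ∈ G.ds ∧ (G.pi d ∈ X ∨ G.pi (G.al d) ∈ X) ∧ G.al d ≠ d ∧ G.al d ∈ M := by
  have hnt : G.al d ≠ d := hM.notok d hd
  rcases h.gp_mem_ds.1 (hM.sub hd) with h1 | h1
  · exact ⟨h1.1, h1.2, hnt, hM.closed d hd⟩
  · exact absurd (h.gp_T_tok h1) hnt

/-- gluing of two matchings which agree on the cut -/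
lemma glue_pm {z2 : V} {T2 : Finset D} (h : G.CD X z T) (h2 : G.CD (G.vs \ X) z2 T2)
    {M1 M2 : Finset D} (hM1 : h.con.IsPM M1) (hM2 : h2.con.IsPM M2)
    (hag : ∀ d ∈ G.bd X, (d ∈ M1 ↔ d ∈ M2)) :
    G.IsPM (M1 ∪ M2) ∧
      (∀ d ∈ G.ds, G.pi d ∈ X ∨ G.pi (G.al d) ∈ X → (d ∈ M1 ∪ M2 ↔ d ∈ M1)) ∧
      (∀ d ∈ G.ds, G.pi d ∉ X ∨ G.pi (G.al d) ∉ X → (d ∈ M1 ∪ M2 ↔ d ∈ M2)) := by
  -- a crossing dart
  have cross : ∀ d ∈ G.ds, (G.pi d ∈ X ∨ G.pi (G.al d) ∈ X) →
      (G.pi d ∉ X ∨ G.pi (G.al d) ∉ X) → (d ∈ M1 ↔ d ∈ M2) := by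
    intro d hd ha hb
    by_cases hp : G.pi d ∈ X
    · have hq : G.pi (G.al d) ∉ X := by
        rcases hb with hb | hb
        · exact absurd hp hb
        · exact hb
      exact hag d (by rw [mem_bd]; exact ⟨hd, hp, hq⟩)
    · have hq : G.pi (G.al d) ∈ X := by
        rcases ha with ha | ha
        · exact absurd ha hp
        · exact ha
      have hal : G.al (G.al d) = d := G.al_al d hd
      have h3 := hag (G.al d) (by
        rw [mem_bd]
        exact ⟨G.al_mem d hd, hq, by rw [hal]; exact hp⟩)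
      constructor
      · intro hm
        have h4 : G.al d ∈ M2 := h3.1 (hM1.closed d hm)
        have h5 : G.al (G.al d) ∈ M2 := hM2.closed _ h4
        rwa [hal] at h5
      · intro hm
        have h4 : G.al d ∈ M1 := h3.2 (hM2.closed d hm)
        have h5 : G.al (G.al d) ∈ M1 := hM1.closed _ h4
        rwa [hal] at h5
  have m1 : ∀ d ∈ M1, d ∈ G.ds ∧ (G.pi d ∈ X ∨ G.pi (G.al d) ∈ X) := fun d hd =>
    ⟨(h.gp_pm_mem hM1 hd).1, (h.gp_pm_mem hM1 hd).2.1⟩
  have m2 : ∀ d ∈ M2, d ∈ G.ds ∧ (G.pi d ∉ X ∨ G.pi (G.al d) ∉ X) := by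
    intro d hd
    obtain ⟨a, b, -, -⟩ := h2.gp_pm_mem hM2 hd
    refine ⟨a, ?_⟩
    rcases b with b | b
    · exact Or.inl (mem_sdiff.1 b).2
    · exact Or.inr (mem_sdiff.1 b).2
  have e1 : ∀ d ∈ G.ds, G.pi d ∈ X ∨ G.pi (G.al d) ∈ X → (d ∈ M1 ∪ M2 ↔ d ∈ M1) := by
    intro d hd ha
    rw [mem_union]
    constructor
    · rintro (h1 | h1)
      · exact h1
      · exact (cross d hd ha (m2 d h1).2).2 h1
    · exact Or.inl
  have e2 : ∀ d ∈ G.ds, G.pi d ∉ X ∨ G.pi (G.al d) ∉ X → (d ∈ M1 ∪ M2 ↔ d ∈ M2) := by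
    intro d hd hb
    rw [mem_union]
    constructor
    · rintro (h1 | h1)
      · exact (cross d hd (m1 d h1).2 hb).1 h1
      · exact h1
    · exact Or.inr
  refine ⟨⟨?_, ?_, ?_, ?_⟩, e1, e2⟩
  · intro d hd
    rcases mem_union.1 hd with h1 | h1
    · exact (m1 d h1).1
    · exact (m2 d h1).1
  · intro d hd
    rcases mem_union.1 hd with h1 | h1
    · exact mem_union_left _ (h.gp_pm_mem hM1 h1).2.2.2
    · exact mem_union_right _ (h2.gp_pm_mem hM2 h1).2.2.2
  · intro d hd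
    rcases mem_union.1 hd with h1 | h1
    · exact (h.gp_pm_mem hM1 h1).2.2.1
    · exact (h2.gp_pm_mem hM2 h1).2.2.1
  · intro v hv
    by_cases hX : v ∈ X
    · have key : ((M1 ∪ M2).filter fun d => G.pi d = v) = M1.filter fun d => h.con.pi d = v := by
        ext d
        rw [mem_filter, mem_filter, h.gp_pi_eq hX]
        constructor
        · rintro ⟨a, b⟩
          have hd : d ∈ G.ds := by
            rcases mem_union.1 a with h1 | h1
            · exact (m1 d h1).1
            · exact (m2 d h1).1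
          exact ⟨(e1 d hd (Or.inl (b ▸ hX))).1 a, b⟩
        · rintro ⟨a, b⟩
          exact ⟨mem_union_left _ a, b⟩
      rw [key]
      exact hM1.one v (by rw [h.gp_vs]; exact mem_insert_of_mem hX)
    · have hX2 : v ∈ G.vs \ X := mem_sdiff.2 ⟨hv, hX⟩
      have key : ((M1 ∪ M2).filter fun d => G.pi d = v) = M2.filter fun d => h2.con.pi d = v := by
        ext d
        rw [mem_filter, mem_filter, h2.gp_pi_eq hX2]
        constructor
        · rintro ⟨a, b⟩
          have hd : d ∈ G.ds := by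
            rcases mem_union.1 a with h1 | h1
            · exact (m1 d h1).1
            · exact (m2 d h1).1
          exact ⟨(e2 d hd (Or.inl (b ▸ hX))).1 a, b⟩
        · rintro ⟨a, b⟩
          exact ⟨mem_union_right _ a, b⟩
      rw [key]
      exact hM2.one v (by rw [h2.gp_vs]; exact mem_insert_of_mem hX2)

/-- classes after a contraction, `z` absorbed -/
lemma CD.cls (h : G.CD X z T) {K : Finset V} {F : Finset D} (hc : G.Cls K F) :
    h.con.Cls (insert z (K ∩ X)) (F.filter fun d => d ∈ h.con.ds) := by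
  refine ⟨?_, ?_, ?_, ?_, ?_, ?_⟩
  · rw [h.gp_vs]
    exact insert_subset_insert _ inter_subset_right
  · intro d hd
    exact (mem_filter.1 hd).2
  · intro d hd
    obtain ⟨a, b⟩ := mem_filter.1 hd
    exact mem_filter.2 ⟨hc.Fal d a, h.con.al_mem d b⟩
  · intro d hd
    exact hc.Ftok d (mem_filter.1 hd).1
  · intro v hv hvK
    rw [h.gp_vs] at hv
    have hvz : v ≠ z := fun e => hvK (e ▸ mem_insert_self _ _)
    have hX : v ∈ X := by
      rcases mem_insert.1 hv with e | e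
      · exact absurd e hvz
      · exact e
    have hK : v ∉ K := fun e => hvK (mem_insert_of_mem (mem_inter.2 ⟨e, hX⟩))
    have key : ((F.filter fun d => d ∈ h.con.ds).filter fun d => h.con.pi d = v) =
        F.filter fun d => G.pi d = v := by
      ext d
      rw [mem_filter, mem_filter, mem_filter, h.gp_pi_eq hX]
      constructor
      · rintro ⟨⟨a, -⟩, b⟩
        exact ⟨a, b⟩
      · rintro ⟨a, b⟩
        refine ⟨⟨a, h.gp_mem_ds.2 (Or.inl ⟨hc.Fsub a, Or.inl (b ▸ hX)⟩)⟩, b⟩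
    rw [key]
    exact hc.F2 v (h.Xsub hX) hK
  · intro d hd he
    rw [h.gp_pi]
    by_cases hX : G.pi d ∈ X
    · rw [if_pos hX]
      exact mem_insert_of_mem (mem_inter.2 ⟨hc.tokK d (h.gp_ds_sub hd) he, hX⟩)
    · rw [if_neg hX]
      exact mem_insert_self _ _

/-- unions of fresh circuits after a contraction, `z` absorbed -/
lemma CD.adm (h : G.CD X z T) {K : Finset V} {F : Finset D} (hc : G.Cls K F) {Z : Finset V} :
    h.con.Adm (insert z (K ∩ X)) (F.filter fun d => d ∈ h.con.ds) Z ↔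
      (Z ⊆ X ∧ G.Adm K F Z) := by
  constructor
  · intro ha
    have hzZ : z ∉ Z := fun e => ha.dis z e (mem_insert_self _ _)
    have hZX : Z ⊆ X := by
      intro v hv
      rcases mem_insert.1 (h.gp_vs ▸ ha.sub hv) with e | e
      · exact absurd (e ▸ hv) hzZ
      · exact e
    refine ⟨hZX, ⟨hZX.trans h.Xsub, ?_, ?_⟩⟩
    · intro v hv hK
      exact ha.dis v hv (mem_insert_of_mem (mem_inter.2 ⟨hK, hZX hv⟩))
    · intro d hd hp
      have hX : G.pi d ∈ X := hZX hp
      have h1 := ha.clo d (mem_filter.2 ⟨hd, h.gp_mem_ds.2 (Or.inl ⟨hc.Fsub hd, Or.inl hX⟩)⟩)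
        (by rw [h.gp_pi, if_pos hX]; exact hp)
      rw [h.gp_al, h.gp_pi] at h1
      by_cases hq : G.pi (G.al d) ∈ X
      · rwa [if_pos hq] at h1
      · rw [if_neg hq] at h1
        exact absurd h1 hzZ
  · rintro ⟨hZX, ha⟩
    have hzZ : z ∉ Z := fun e => h.zX (hZX e)
    refine ⟨?_, ?_, ?_⟩
    · rw [h.gp_vs]
      exact hZX.trans (subset_insert _ _)
    · intro v hv hK
      rcases mem_insert.1 hK with e | e
      · exact hzZ (e ▸ hv)
      · exact ha.dis v hv (mem_inter.1 e).1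
    · intro d hd hp
      have hF : d ∈ F := (mem_filter.1 hd).1
      rw [h.gp_pi] at hp
      have hX : G.pi d ∈ X := by
        by_contra hn
        rw [if_neg hn] at hp
        exact hzZ hp
      rw [if_pos hX] at hp
      have h1 := ha.clo d hF hp
      rw [h.gp_al, h.gp_pi, if_pos (hZX h1)]
      exact h1

end JK.CG
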