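import Pool.Agent.Lib.JK.Live

/-! The potential argument relative to a set `Z` (the outside of `Z` is contracted to the root), after
Grow.lean of helper62: only thin sets inside `Z` are looked at. -/

set_option autoImplicit false

namespace JK.CG

open Finset Classical

variable {V D : Type*} (G : CG V D)

/-- thin sets inside `Z` -/
def ThinR (Z : Finset V) (A : Finset D) (W : Finset V) : Prop := W ⊆ Z ∧ G.m A W ≤ 1

/-- the union of the thin sets inside `Z` -/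
noncomputable def UR (Z : Finset V) (A : Finset D) : Finset V :=
  Z.filter fun v => ∃ W, G.ThinR Z A W ∧ v ∈ W

/-- no thin set inside `Z` cuts a circuit of `F` -/
def CLR (Z : Finset V) (F A : Finset D) : Prop :=
  ∀ W, G.ThinR Z A W → ∀ d ∈ F, G.pi d ∈ W → G.pi (G.al d) ∈ W

variable {G} {F A A2 : Finset D} {Y Z : Finset V}

lemma ThinR.mem_UR {W : Finset V} (h : G.ThinR Z A W) {v : V} (hv : v ∈ W) : v ∈ G.UR Z A := by
  unfold UR
  rw [mem_filter]
  exact ⟨h.1 hv, W, h, hv⟩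

lemma mem_UR {v : V} : v ∈ G.UR Z A ↔ v ∈ Z ∧ ∃ W, G.ThinR Z A W ∧ v ∈ W := by
  unfold UR
  rw [mem_filter]

/-- the largest closed set -/
lemma exists_N0R (hcl : ∀ d ∈ A, G.al d ∈ A) :
    ∃ N, N ⊆ Z ∧ G.m A N = 0 ∧ ∀ W ⊆ Z, G.m A W = 0 → W ⊆ N := by
  let S : Finset (Finset V) := Z.powerset.filter fun W => G.m A W = 0
  have hS : ∀ W, W ∈ S ↔ W ⊆ Z ∧ G.m A W = 0 := by
    intro W
    simp [S]
  have h : S.sup id ⊆ Z ∧ G.m A (S.sup id) = 0 := by
    refine Finset.sup_induction (p := fun N : Finset V => N ⊆ Z ∧ G.m A N = 0) ?_ ?_ ?_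
    · exact ⟨empty_subset _, G.m_empty A⟩
    · intro a ha b hb
      refine ⟨union_subset ha.1 hb.1, ?_⟩
      have := G.m_submod_le hcl a b
      have h2 : G.m A (a ∪ b) = 0 := by omega
      exact h2
    · intro b hb
      exact (hS b).1 hb
  refine ⟨S.sup id, h.1, h.2, fun W hW h0 => ?_⟩
  have : id W ≤ S.sup id := Finset.le_sup (f := id) ((hS W).2 ⟨hW, h0⟩)
  exact this

/-- a maximal thin set which is not closed (if there is one): it contains all closed sets and the outer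
end of its live edge is in no thin set. Take `W` thin, not closed, `Y = W ∪ N0` with `|Y|` maximal. -/
lemma exists_YR (hcl : ∀ d ∈ A, G.al d ∈ A)
    (hex : ∃ W ⊆ Z, G.m A W = 1 ∧ ∃ v ∈ W, ∀ N ⊆ Z, G.m A N = 0 → v ∉ N) :
    ∃ Y ⊆ Z, G.m A Y = 1 ∧ (∀ W ⊆ Z, G.m A W = 0 → W ⊆ Y) ∧
      ∀ g ∈ G.lv A Y, G.al g = g ∨ G.pi (G.al g) ∉ G.UR Z A := by
  obtain ⟨N0, hN0s, hN0m, hN0⟩ := exists_N0R (G := G) hcl
  obtain ⟨W, hWs, hW1, v, hv, hvN⟩ := hex
  let S : Finset (Finset V) := Z.powerset.filter fun Y => G.m A Y = 1 ∧ N0 ⊆ Y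
  have hS : ∀ Y, Y ∈ S ↔ Y ⊆ Z ∧ G.m A Y = 1 ∧ N0 ⊆ Y := by
    intro Y
    simp [S]
  have hne : S.Nonempty := by
    refine ⟨W ∪ N0, (hS _).2 ⟨union_subset hWs hN0s, ?_, subset_union_right⟩⟩
    have h1 := G.m_submod_le hcl W N0
    by_contra h2
    have h0 : G.m A (W ∪ N0) = 0 := by omega
    exact hvN _ (union_subset hWs hN0s) h0 (mem_union_left _ hv)
  obtain ⟨Y, hYS, hmax⟩ := S.exists_max_image (fun Y => Y.card) hne
  obtain ⟨hYs, hY1, hYN⟩ := (hS Y).1 hYS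
  refine ⟨Y, hYs, hY1, fun W hW h0 => (hN0 W hW h0).trans hYN, fun g hg => ?_⟩
  by_contra hcon
  rw [not_or, not_not] at hcon
  obtain ⟨hgg, hx⟩ := hcon
  obtain ⟨_, W1, hW1t, hxW⟩ := mem_UR.1 hx
  have hg' := (G.mem_lv).1 hg
  have hx0 : G.pi (G.al g) ∉ Y := by
    rcases hg'.2.2.1 with h | h
    · exact h
    · exact absurd h hgg
  -- add the closed sets
  set W' := W1 ∪ N0 with hW'
  have hW's : W' ⊆ Z := union_subset hW1t.1 hN0s
  have hW'm : G.m A W' ≤ 1 := by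
    have h1 := G.m_submod_le hcl W1 N0
    have h2 := hW1t.2
    rw [hW']
    omega
  have hxW' : G.pi (G.al g) ∈ W' := mem_union_left _ hxW
  have hsub := G.m_submod hcl W' Y
  have hUs : W' ∪ Y ⊆ Z := union_subset hW's hYs
  have hne0 : G.m A (W' ∪ Y) ≠ 0 := fun h0 =>
    hx0 (hYN (hN0 _ hUs h0 (mem_union_left _ hxW')))
  have hne1 : G.m A (W' ∪ Y) ≠ 1 := by
    intro h1
    have hin : W' ∪ Y ∈ S := (hS _).2 ⟨hUs, h1, hYN.trans subset_union_right⟩
    have hle := hmax _ hin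
    have hss : Y ⊂ W' ∪ Y := by
      refine ⟨subset_union_right, fun h => hx0 (h (mem_union_left _ hxW'))⟩
    exact absurd (card_lt_card hss) (by omega)
  have hI : G.m A (W' ∩ Y) = 0 := by omega
  have hle0 : (G.le A (W' \ Y) (Y \ W')).card = 0 := by omega
  by_cases hy : G.pi g ∈ W'
  · have : g ∈ G.lv A (W' ∩ Y) := by
      rw [mem_lv]
      refine ⟨hg'.1, mem_inter.2 ⟨hy, hg'.2.1⟩, Or.inl fun h => hx0 (mem_inter.1 h).2, hg'.2.2.2⟩
    have h2 : 0 < G.m A (W' ∩ Y) := card_pos.2 ⟨g, this⟩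
    omega
  · have : G.al g ∈ G.le A (W' \ Y) (Y \ W') := by
      rw [mem_le, G.al_al g hg'.1]
      refine ⟨G.al_mem g hg'.1, mem_sdiff.2 ⟨hxW', hx0⟩, mem_sdiff.2 ⟨hg'.2.1, hy⟩, fun h => ?_⟩
      have h3 := hcl _ h
      rw [G.al_al g hg'.1] at h3
      exact hg'.2.2.2 h3
    rw [card_eq_zero] at hle0
    rw [hle0] at this
    exact notMem_empty _ this

/-- the data of re-solving `Y`. `hin`: no live bridge inside `Y` (an even set with one live edge gives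
an odd one, the live edge is a pair). `hS`: if `W` cuts a circuit inside `Y` then it has two live edges or
one of its live edges is inside `Y`. -/
structure RSR (G : CG V D) (F A A2 : Finset D) (Y Z : Finset V) : Prop where
  hcl : ∀ d ∈ A, G.al d ∈ A
  hcl2 : ∀ d ∈ A2, G.al d ∈ A2
  hYs : Y ⊆ Z
  hY : G.m A Y ≤ 1
  hN : ∀ W ⊆ Z, G.m A W = 0 → W ⊆ Y
  hg : ∀ g ∈ G.lv A Y, G.al g = g ∨ G.pi (G.al g) ∉ G.UR Z A
  hout : ∀ d ∈ A2, G.pi d ∉ Y → d ∈ A
  hlv : ∀ g ∈ G.lv A Y, G.al g = g → g ∉ A2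
  hin : ∀ W ⊆ Y, G.m A2 W ≠ 1
  hS : ∀ W ⊆ Z, (∃ d ∈ F, G.pi d ∈ Y ∧ G.pi d ∈ W ∧ G.pi (G.al d) ∉ W) →
    2 ≤ G.m A2 W ∨ ∃ d ∈ G.lv A2 W, G.pi d ∈ Y ∧ G.pi (G.al d) ∈ Y ∧ G.al d ≠ d

/-- there is at most one live dart at `Y` -/
lemma RSR.g_unique (h : RSR G F A A2 Y Z) {g g' : D} (hg : g ∈ G.lv A Y) (hg' : g' ∈ G.lv A Y) :
    g = g' :=
  card_le_one.1 h.hY g hg g' hg'

lemma RSR.Ythin (h : RSR G F A A2 Y Z) : G.ThinR Z A Y := ⟨h.hYs, h.hY⟩

/-- a live dart of `W` outside `Y` which does not go to `W ∩ Y` is live for `A2` and leaves `W` -/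
lemma RSR.lv_out (h : RSR G F A A2 Y Z) {W : Finset V} {d : D} (hd : d ∈ G.ds) (hW : G.pi d ∈ W)
    (hY : G.pi d ∉ Y) (hA : d ∉ A) (hl : G.pi (G.al d) ∉ W ∨ G.al d = d) : d ∈ G.lv A2 W := by
  rw [mem_lv]
  exact ⟨hd, hW, hl, fun h2 => hA (h.hout d h2 hY)⟩

/-- the outer end of the live edge of `Y` is in no thin set of `A2` -/
lemma RSR.x0_out (h : RSR G F A A2 Y Z) {W : Finset V} (hW : G.ThinR Z A2 W) :
    ∀ g ∈ G.lv A Y, G.al g = g ∨ G.pi (G.al g) ∉ W := by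
  intro g hg
  rcases h.hg g hg with h0 | hU
  · exact Or.inl h0
  by_cases hgg : G.al g = g
  · exact Or.inl hgg
  refine Or.inr fun hx => hU ?_
  have hg' := (G.mem_lv).1 hg
  have hxY : G.pi (G.al g) ∉ Y := by
    rcases hg'.2.2.1 with h1 | h1
    · exact h1
    · exact absurd h1 hgg
  by_cases hy : G.pi g ∈ W
  · -- `W ∪ Y` is thin
    refine ThinR.mem_UR (W := W ∪ Y) ⟨union_subset hW.1 h.hYs, ?_⟩ (mem_union_left _ hx)
    refine le_trans (card_le_card fun d hd => ?_) hW.2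
    obtain ⟨d1, d2, d3, d4⟩ := (G.mem_lv).1 hd
    have hdY : G.pi d ∉ Y := by
      intro hdY
      have hdl : d ∈ G.lv A Y := by
        rw [mem_lv]
        refine ⟨d1, hdY, ?_, d4⟩
        rcases d3 with h3 | h3
        · exact Or.inl fun h4 => h3 (mem_union_right _ h4)
        · exact Or.inr h3
      have := h.g_unique hdl hg
      subst this
      rcases d3 with h3 | h3
      · exact h3 (mem_union_left _ hx)
      · exact hgg h3
    have hdW : G.pi d ∈ W := by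
      rcases mem_union.1 d2 with h3 | h3
      · exact h3
      · exact absurd h3 hdY
    refine h.lv_out d1 hdW hdY d4 ?_
    rcases d3 with h3 | h3
    · exact Or.inl fun h4 => h3 (mem_union_left _ h4)
    · exact Or.inr h3
  · -- `W \ Y` is thin
    refine ThinR.mem_UR (W := W \ Y) ⟨sdiff_subset.trans hW.1, ?_⟩ (mem_sdiff.2 ⟨hx, hxY⟩)
    refine le_trans (card_le_card fun d hd => ?_) hW.2
    obtain ⟨d1, d2, d3, d4⟩ := (G.mem_lv).1 hd
    rw [mem_sdiff] at d2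
    refine h.lv_out d1 d2.1 d2.2 d4 ?_
    rcases d3 with h3 | h3
    · refine Or.inl fun h4 => ?_
      have h5 : G.pi (G.al d) ∈ Y := by
        by_contra h6
        exact h3 (mem_sdiff.2 ⟨h4, h6⟩)
      have h6 : G.al d ∈ G.lv A Y := by
        rw [mem_lv, G.al_al d d1]
        refine ⟨G.al_mem d d1, h5, Or.inl d2.2, fun h7 => d4 ?_⟩
        have := h.hcl _ h7
        rwa [G.al_al d d1] at this
      have h7 := h.g_unique h6 hg
      exact hy (h7 ▸ h4)
    · exact Or.inr h3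

/-- the live darts of `W \ Y` are live darts of `W` for `A2` -/
lemma RSR.lv_sub' (h : RSR G F A A2 Y Z) {W : Finset V} (hW : G.ThinR Z A2 W) :
    G.lv A (W \ Y) ⊆ (G.lv A2 W).filter fun d => G.pi d ∉ Y := by
  intro d hd
  obtain ⟨d1, d2, d3, d4⟩ := (G.mem_lv).1 hd
  rw [mem_sdiff] at d2
  rw [mem_filter]
  refine ⟨h.lv_out d1 d2.1 d2.2 d4 ?_, d2.2⟩
  rcases d3 with h3 | h3
  · refine Or.inl fun h4 => ?_
    have h5 : G.pi (G.al d) ∈ Y := by
      by_contra h6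
      exact h3 (mem_sdiff.2 ⟨h4, h6⟩)
    have h6 : G.al d ∈ G.lv A Y := by
      rw [mem_lv, G.al_al d d1]
      refine ⟨G.al_mem d d1, h5, Or.inl d2.2, fun h7 => d4 ?_⟩
      have := h.hcl _ h7
      rwa [G.al_al d d1] at this
    rcases h.x0_out hW _ h6 with h7 | h7
    · rw [G.al_al d d1] at h7
      rw [← h7] at h5
      exact d2.2 h5
    · rw [G.al_al d d1] at h7
      exact h7 d2.1
  · exact Or.inr h3

/-- outside `Y` a thin set for `A2` is thin for `A`, and it does not contain the outer end of the live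
edge `g` of `Y`. -/
lemma RSR.thin_out (h : RSR G F A A2 Y Z) {W : Finset V} (hW : G.ThinR Z A2 W) :
    G.ThinR Z A (W \ Y) ∧ ∀ g ∈ G.lv A Y, G.al g = g ∨ G.pi (G.al g) ∉ W :=
  ⟨⟨sdiff_subset.trans hW.1,
    (card_le_card ((h.lv_sub' hW).trans (filter_subset _ _))).trans hW.2⟩, h.x0_out hW⟩

/-- if a live dart of `W` (for `A2`) starts in `Y` and `W` is thin for `A2` then `W ⊆ Y`, so a
contradiction to `hin`: `W \ Y` is closed for `A`. -/
lemma RSR.not_in (h : RSR G F A A2 Y Z) {W : Finset V} (hW : G.ThinR Z A2 W) :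
    ∀ d ∈ G.lv A2 W, G.pi d ∉ Y := by
  intro d hd hdY
  have h0 : G.m A (W \ Y) = 0 := by
    unfold m
    rw [card_eq_zero, eq_empty_iff_forall_notMem]
    intro e he
    have he' := mem_filter.1 (h.lv_sub' hW he)
    have := card_le_one.1 hW.2 e he'.1 d hd
    exact he'.2 (this ▸ hdY)
  have h1 := h.hN _ (sdiff_subset.trans hW.1) h0
  have h2 : W ⊆ Y := by
    intro v hv
    by_contra hvY
    exact hvY (h1 (mem_sdiff.2 ⟨hv, hvY⟩))
  have h3 : 0 < G.m A2 W := card_pos.2 ⟨d, hd⟩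
  have h4 := hW.2
  exact h.hin W h2 (by omega)

/-- the union of the thin sets does not grow -/
lemma RSR.U_sub (h : RSR G F A A2 Y Z) : G.UR Z A2 ⊆ G.UR Z A := by
  intro v hv
  obtain ⟨_, W, hW, hvW⟩ := mem_UR.1 hv
  by_cases hvY : v ∈ Y
  · exact h.Ythin.mem_UR hvY
  · exact (h.thin_out hW).1.mem_UR (mem_sdiff.2 ⟨hvW, hvY⟩)

/-- the inner end of the live edge of `Y` is in no thin set of `A2` -/
lemma RSR.y0_out (h : RSR G F A A2 Y Z) {g : D} (hg : g ∈ G.lv A Y) : G.pi g ∉ G.UR Z A2 := by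
  intro hy
  obtain ⟨_, W, hW, hyW⟩ := mem_UR.1 hy
  obtain ⟨g1, g2, g3, g4⟩ := (G.mem_lv).1 hg
  have hgA2 : g ∉ A2 := by
    by_cases hgg : G.al g = g
    · exact h.hlv g hg hgg
    · intro h5
      have h6 := h.hcl2 g h5
      have h7 : G.pi (G.al g) ∉ Y := by
        rcases g3 with h8 | h8
        · exact h8
        · exact absurd h8 hgg
      have h9 := h.hcl _ (h.hout _ h6 h7)
      rw [G.al_al g g1] at h9
      exact g4 h9
  have hgl : g ∈ G.lv A2 W := by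
    rw [mem_lv]
    refine ⟨g1, hyW, ?_, hgA2⟩
    rcases h.x0_out hW g hg with h5 | h5
    · exact Or.inr h5
    · exact Or.inl h5
  exact h.not_in hW g hgl g2

/-- the union of the thin sets gets smaller -/
lemma RSR.U_ssub (h : RSR G F A A2 Y Z) (h1 : G.m A Y = 1) : G.UR Z A2 ⊂ G.UR Z A := by
  refine ⟨h.U_sub, fun hc => ?_⟩
  obtain ⟨g, hg⟩ := card_pos.1 (show 0 < (G.lv A Y).card by
    have : (G.lv A Y).card = 1 := h1
    omega)
  exact h.y0_out hg (hc (h.Ythin.mem_UR ((G.mem_lv).1 hg).2.1))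

/-- the new structure is in the class -/
theorem RSR.cl (h : RSR G F A A2 Y Z) (hc : G.CLR Z F A) : G.CLR Z F A2 := by
  intro W hW d hd hdW
  by_contra hcon
  by_cases hdY : G.pi d ∈ Y
  · rcases h.hS W hW.1 ⟨d, hd, hdY, hdW, hcon⟩ with h1 | ⟨e, he, heY, _⟩
    · have := hW.2
      omega
    · exact h.not_in hW e he heY
  · exact hcon (mem_sdiff.1 (hc _ (h.thin_out hW).1 d hd (mem_sdiff.2 ⟨hdW, hdY⟩))).1

/-- if `Y` contains all thin sets then every thin set of `A2` is closed and inside `Y` -/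
theorem RSR.fin (h : RSR G F A A2 Y Z) (hU : G.UR Z A ⊆ Y) {W : Finset V} (hW : G.ThinR Z A2 W) :
    G.m A2 W = 0 ∧ W ⊆ Y := by
  have h2 : W ⊆ Y := by
    intro v hv
    by_contra hvY
    exact hvY (hU ((h.thin_out hW).1.mem_UR (mem_sdiff.2 ⟨hv, hvY⟩)))
  refine ⟨?_, h2⟩
  have h3 := h.hin W h2
  have h4 := hW.2
  omega

end JK.CG
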