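import Pool.Agent.Lib.JK.Live

/-! Trails in set form (S5, MP_c95763_co). A trail structure is a set `A` of killed darts with
`KD`-data, exactly one killed token `τ` (the start) and exactly one new token `ζ` (the landing).
Closed alternating circuits are allowed; a structure of minimal size has none which is not joined,
by parity. -/

set_option autoImplicit false

namespace JK.CG

open Finset Classical

variable {V D : Type*} (G : CG V D)

/-- trail structure in set form; the first pair may be the dart `c` (not an edge of `F`) -/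
structure TK (K : Finset V) (F A : Finset D) (al' p : D → D) (τ ζ c : D) : Prop where
  kd : G.KD A al' p
  tauA : τ ∈ A
  tau : G.al τ = τ
  tauU : ∀ d ∈ A, G.al d = d → d = τ
  zetaA : ζ ∈ A
  zeta : al' ζ = ζ
  zetaU : ∀ d ∈ A, al' d = d → d = ζ
  pF : ∀ d ∈ A, al' d ≠ d → p d ∈ F ∨ (d = τ ∧ p d = c) ∨ (al' d = τ ∧ p d = G.al c)

namespace TK

variable {G} {K : Finset V} {F A : Finset D} {al' p : D → D} {τ ζ c : D}

lemma tau_notMem (h : G.TK K F A al' p τ ζ c) (hc : G.Cls K F) {Z : Finset V}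
    (hZ : G.Adm K F Z) : G.pi τ ∉ Z := fun hv =>
  hZ.dis _ hv (hc.tokK τ (h.kd.sub h.tauA) h.tau)

/-- a killed dart in a closed set is not a token -/
lemma not_tok (h : G.TK K F A al' p τ ζ c) (hc : G.Cls K F) {Z : Finset V}
    (hZ : G.Adm K F Z) {d : D} (hd : d ∈ A) (hp : G.pi d ∈ Z) : G.al d ≠ d := fun he =>
  hZ.dis _ hp (hc.tokK d (h.kd.sub hd) he)

lemma al_in (h : G.TK K F A al' p τ ζ c) {Z : Finset V}
    (hn : ∀ d ∈ A, d ∉ G.bd Z) {d : D} (hd : d ∈ A) (hp : G.pi d ∈ Z) : G.pi (G.al d) ∈ Z := by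
  by_contra hcon
  exact hn d hd ((G.mem_bd).2 ⟨h.kd.sub hd, hp, hcon⟩)

/-- pairs stay in a closed set, except the first one -/
lemma al'_in (h : G.TK K F A al' p τ ζ c) (hc : G.Cls K F) {Z : Finset V}
    (hZ : G.Adm K F Z) {d : D} (hd : d ∈ A) (hp : G.pi d ∈ Z) (hne : d ≠ al' τ) :
    G.pi (al' d) ∈ Z := by
  by_cases hf : al' d = d
  · rw [hf]; exact hp
  · rcases h.pF d hd hf with h1 | ⟨h1, -⟩ | ⟨h1, -⟩
    · have h2 := h.kd.pair d hd hf
      rw [← h.kd.pi_pair hd hf]
      exact hZ.clo _ h1 (by rw [h2.2.2.2.1]; exact hp)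
    · rw [h1] at hp
      exact absurd hp (h.tau_notMem hc hZ)
    · exact absurd (by rw [← h1, h.kd.inv' d hd]) hne

/-- the parity argument -/
lemma parity (h : G.TK K F A al' p τ ζ c) (hc : G.Cls K F) {Z : Finset V}
    (hZ : G.Adm K F Z) (hn : ∀ d ∈ A, d ∉ G.bd Z) :
    G.pi ζ ∈ Z ↔ G.pi (al' τ) ∈ Z := by
  set AZ := A.filter fun d => G.pi d ∈ Z with hAZ
  set B := A.filter fun d => G.pi d ∈ Z ∧ d ≠ ζ ∧ d ≠ al' τ with hB
  have e1 : Even AZ.card := by
    apply G.even_of_closed ((filter_subset _ _).trans h.kd.sub)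
    · intro d hd
      rw [mem_filter] at hd ⊢
      exact ⟨h.kd.cl d hd.1, h.al_in hn hd.1 hd.2⟩
    · intro d hd
      rw [mem_filter] at hd
      exact h.not_tok hc hZ hd.1 hd.2
  have e2 : Even B.card := by
    apply h.kd.gr.even_of_closed ((filter_subset _ _).trans h.kd.sub)
    · intro d hd
      rw [mem_filter] at hd ⊢
      obtain ⟨h1, h2, h3, h4⟩ := hd
      rw [KD.gr_al]
      refine ⟨h.kd.cl' d h1, h.al'_in hc hZ h1 h2 h4, ?_, ?_⟩
      · intro he
        apply h3
        rw [← h.kd.inv' d h1, he, h.zeta]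
      · intro he
        have : d = τ := by rw [← h.kd.inv' d h1, he, h.kd.inv' τ h.tauA]
        rw [this] at h2
        exact h.tau_notMem hc hZ h2
    · intro d hd
      rw [mem_filter] at hd
      rw [KD.gr_al]
      intro he
      exact hd.2.2.1 (h.zetaU d hd.1 he)
  have hat : al' τ ∈ A := h.kd.cl' τ h.tauA
  constructor
  · intro hz
    by_contra hcon
    have : AZ = insert ζ B := by
      ext d
      simp only [hAZ, hB, mem_filter, mem_insert]
      constructor
      · rintro ⟨h1, h2⟩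
        by_cases hd : d = ζ
        · exact Or.inl hd
        · exact Or.inr ⟨h1, h2, hd, fun he => hcon (by rw [← he]; exact h2)⟩
      · rintro (rfl | ⟨h1, h2, -⟩)
        · exact ⟨h.zetaA, hz⟩
        · exact ⟨h1, h2⟩
    rw [this, card_insert_of_notMem (by simp [hB])] at e1
    rcases e1 with ⟨a, ha⟩
    rcases e2 with ⟨b, hb⟩
    omega
  · intro hz
    by_contra hcon
    have : AZ = insert (al' τ) B := by
      ext d
      simp only [hAZ, hB, mem_filter, mem_insert]
      constructor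
      · rintro ⟨h1, h2⟩
        by_cases hd : d = al' τ
        · exact Or.inl hd
        · exact Or.inr ⟨h1, h2, fun he => hcon (by rw [← he]; exact h2), hd⟩
      · rintro (rfl | ⟨h1, h2, -⟩)
        · exact ⟨hat, hz⟩
        · exact ⟨h1, h2⟩
    rw [this, card_insert_of_notMem (by simp [hB])] at e1
    rcases e1 with ⟨a, ha⟩
    rcases e2 with ⟨b, hb⟩
    omega

/-- dropping the part of the structure inside a closed set -/
lemma drop (h : G.TK K F A al' p τ ζ c) (hc : G.Cls K F) {Z : Finset V}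
    (hZ : G.Adm K F Z) (hn : ∀ d ∈ A, d ∉ G.bd Z) (hz : G.pi ζ ∉ Z) (ht : G.pi (al' τ) ∉ Z) :
    G.TK K F (A.filter fun d => G.pi d ∉ Z)
      (fun d => if G.pi d ∈ Z then G.al d else al' d) p τ ζ c := by
  have htz := h.tau_notMem hc hZ
  have out : ∀ d ∈ A, G.pi d ∉ Z → G.pi (al' d) ∉ Z := by
    intro d hd hp hcon
    have h1 := h.al'_in hc hZ (h.kd.cl' d hd) hcon (by
      intro he
      have : d = τ := by rw [← h.kd.inv' d hd, he, h.kd.inv' τ h.tauA]
      rw [this] at hcon
      exact ht hcon)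
    rw [h.kd.inv' d hd] at h1
    exact hp h1
  refine ⟨⟨?_, ?_, ?_, ?_, ?_, ?_, ?_⟩, ?_, h.tau, ?_, ?_, ?_, ?_, ?_⟩
  · exact (filter_subset _ _).trans h.kd.sub
  · intro d hd
    rw [mem_filter] at hd ⊢
    refine ⟨h.kd.cl d hd.1, fun hcon => hn _ (h.kd.cl d hd.1) ((G.mem_bd).2
      ⟨h.kd.sub (h.kd.cl d hd.1), hcon, ?_⟩)⟩
    rw [G.al_al d (h.kd.sub hd.1)]
    exact hd.2
  · intro d hd
    rw [mem_filter] at hd ⊢
    simp only [if_neg hd.2]
    exact ⟨h.kd.cl' d hd.1, out d hd.1 hd.2⟩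
  · intro d hd
    rw [mem_filter] at hd
    simp only [if_neg hd.2, if_neg (out d hd.1 hd.2)]
    exact h.kd.inv' d hd.1
  · intro d hd hA
    by_cases hp : G.pi d ∈ Z
    · simp only [if_pos hp]
    · simp only [if_neg hp]
      exact h.kd.off d hd (fun hA' => hA (mem_filter.2 ⟨hA', hp⟩))
  · intro d hd e he
    exact h.kd.inj d (mem_filter.1 hd).1 e (mem_filter.1 he).1
  · intro d hd hne
    rw [mem_filter] at hd
    simp only [if_neg hd.2] at hne ⊢
    have h1 := h.kd.pair d hd.1 hne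
    exact ⟨h1.1, fun hA => h1.2.1 (mem_filter.1 hA).1, h1.2.2⟩
  · exact mem_filter.2 ⟨h.tauA, htz⟩
  · intro d hd
    exact h.tauU d (mem_filter.1 hd).1
  · exact mem_filter.2 ⟨h.zetaA, hz⟩
  · simp only [if_neg hz]
    exact h.zeta
  · intro d hd
    rw [mem_filter] at hd
    simp only [if_neg hd.2]
    exact h.zetaU d hd.1
  · intro d hd
    rw [mem_filter] at hd
    simp only [if_neg hd.2]
    exact h.pF d hd.1

/-- dropping keeps the new graph bridgeless -/
lemma drop_b0 (h : G.TK K F A al' p τ ζ c) (hc : G.Cls K F) {Z : Finset V}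
    (hZ : G.Adm K F Z) (hn : ∀ d ∈ A, d ∉ G.bd Z) (hz : G.pi ζ ∉ Z) (ht : G.pi (al' τ) ∉ Z)
    (hb : h.kd.gr.B0) : (h.drop hc hZ hn hz ht).kd.gr.B0 := by
  intro X hX ho
  by_contra hcon
  set H' := h.kd.gr with hH'
  set H2 := (h.drop hc hZ hn hz ht).kd.gr with hH2
  have hodd : Odd (H2.dg X) := (dg_parity H2 hX).2 ho
  have h1 : H2.dg X = 1 := by
    rcases hodd with ⟨k, hk⟩
    omega
  have h3 : 3 ≤ H'.dg X := hb X hX ho
  set S' := H'.bd X ∪ H'.tk X with hS'
  set S2 := H2.bd X ∪ H2.tk X with hS2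
  have c' : H'.dg X = S'.card := H'.dg_eq_card_union X
  have c2 : H2.dg X = S2.card := H2.dg_eq_card_union X
  have m' : ∀ d, d ∈ S' ↔ d ∈ G.ds ∧ G.pi d ∈ X ∧ (G.pi (al' d) ∉ X ∨ al' d = d) := by
    intro d
    rw [hS', mem_union, mem_bd, mem_tk]
    show (d ∈ G.ds ∧ G.pi d ∈ X ∧ G.pi (al' d) ∉ X) ∨ (d ∈ G.ds ∧ G.pi d ∈ X ∧ al' d = d) ↔ _
    tauto
  have m2 : ∀ d, d ∈ S2 ↔ d ∈ G.ds ∧ G.pi d ∈ X ∧
      (G.pi (if G.pi d ∈ Z then G.al d else al' d) ∉ X ∨
        (if G.pi d ∈ Z then G.al d else al' d) = d) := by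
    intro d
    rw [hS2, mem_union, mem_bd, mem_tk]
    show (d ∈ G.ds ∧ G.pi d ∈ X ∧ G.pi (if G.pi d ∈ Z then G.al d else al' d) ∉ X) ∨
      (d ∈ G.ds ∧ G.pi d ∈ X ∧ (if G.pi d ∈ Z then G.al d else al' d) = d) ↔ _
    tauto
  set R := S'.filter fun d => ¬ (d ∈ A ∧ G.pi d ∈ Z) with hR
  set T := S'.filter fun d => d ∈ A ∧ G.pi d ∈ Z with hT
  have hsum : T.card + R.card = S'.card := Finset.card_filter_add_card_filter_not _
  have hRS : R ⊆ S2 := by
    intro d hd
    rw [hR, mem_filter, m'] at hd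
    rw [m2]
    obtain ⟨⟨a, b, e⟩, f⟩ := hd
    refine ⟨a, b, ?_⟩
    by_cases hp : G.pi d ∈ Z
    · have hA : d ∉ A := fun hA => f ⟨hA, hp⟩
      rw [if_pos hp]
      rwa [h.kd.off d a hA] at e
    · rw [if_neg hp]
      exact e
  have hTR : T.card ≤ R.card := by
    apply card_le_card_of_injOn p
    · intro d hd
      rw [mem_coe, hT, mem_filter, m'] at hd
      obtain ⟨⟨a, b, e⟩, f, g⟩ := hd
      have hf : al' d ≠ d := by
        intro he
        have := h.zetaU d f he
        rw [this] at g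
        exact hz g
      have e' : G.pi (al' d) ∉ X := by
        rcases e with e | e
        · exact e
        · exact absurd e hf
      have hp := h.kd.pair d f hf
      rw [mem_coe, hR, mem_filter, m']
      refine ⟨⟨hp.1, by rw [hp.2.2.2.1]; exact b, Or.inl ?_⟩, fun hh => hp.2.1 hh.1⟩
      rw [h.kd.off _ hp.1 hp.2.1, h.kd.pi_pair f hf]
      exact e'
    · intro d hd e he hde
      rw [mem_coe, hT, mem_filter] at hd he
      have key : ∀ d, d ∈ A → G.pi d ∈ Z → G.pi (p d) = G.pi d := by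
        intro d f g
        have hf : al' d ≠ d := by
          intro he
          have := h.zetaU d f he
          rw [this] at g
          exact hz g
        exact (h.kd.pair d f hf).2.2.2.1
      apply h.kd.inj d hd.2.1 e he.2.1
      rw [← key d hd.2.1 hd.2.2, ← key e he.2.1 he.2.2, hde]
  have hR1 : R.card ≤ 1 := by
    rw [← h1, c2]
    exact card_le_card hRS
  omega

end TK

/-- **Joined is free**: if there is a bridgeless trail structure then there is a joined one. The
hypothesis `hL` says that a closed set containing the landing vertex and the far end of the first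
pair `c` has a second edge to the start vertex (alpha state; it is void if the first pair is in `F`
or the landing is at `K`). -/
theorem exists_joined {K : Finset V} {F : Finset D} {τ ζ c : D} (hc : G.Cls K F)
    (hL : ∀ Z, G.Adm K F Z → G.pi ζ ∈ Z → G.pi (G.al c) ∈ Z →
      ∃ d2 ∈ G.bd Z, G.pi (G.al d2) = G.pi τ ∧ d2 ≠ G.al c)
    (hex : ∃ A al' p, ∃ h : G.TK K F A al' p τ ζ c, h.kd.gr.B0) :
    ∃ A al' p, ∃ h : G.TK K F A al' p τ ζ c, h.kd.gr.B0 ∧ KD.Joined G K F A := by
  obtain ⟨A, al', p, h, hb⟩ := hex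
  induction hn : A.card using Nat.strong_induction_on generalizing A al' p with
  | _ n ih =>
    by_cases hj : KD.Joined G K F A
    · exact ⟨A, al', p, h, hb, hj⟩
    · unfold KD.Joined at hj
      push Not at hj
      obtain ⟨Z, hZ, ⟨v, hv, hvt⟩, hno, h2⟩ := hj
      have hno' : ∀ d ∈ A, d ∉ G.bd Z := hno
      obtain ⟨d, hdA, hdv⟩ := KD.mem_tch.1 hvt
      have hpar := h.parity hc hZ hno'
      have htz := h.tau_notMem hc hZ
      by_cases hz : G.pi ζ ∈ Z
      · exfalso
        have ht := hpar.1 hz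
        have hne : al' τ ≠ τ := by
          intro he
          rw [he] at ht
          exact htz ht
        have hp := h.kd.pair τ h.tauA hne
        have hpp := h.kd.pi_pair h.tauA hne
        rcases h.pF τ h.tauA hne with hF | ⟨-, hF⟩ | ⟨hF, -⟩
        · -- the first pair in F: impossible
          have h3 : G.pi (G.al (G.al (p τ))) ∈ Z :=
            hZ.clo _ (hc.Fal _ hF) (by rw [hpp]; exact ht)
          rw [G.al_al _ hp.1, hp.2.2.2.1] at h3
          exact htz h3
        · rw [hF] at hpp hp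
          obtain ⟨d2, h4, h5, h6⟩ := hL Z hZ hz (by rw [hpp]; exact ht)
          have h7 : G.al c ∈ G.bd Z := by
            rw [mem_bd, G.al_al _ hp.1]
            exact ⟨G.al_mem _ hp.1, by rw [hpp]; exact ht, by rw [hp.2.2.2.1]; exact htz⟩
          exact h2 d2 h4 (G.al c) h7 h6 (by rw [h5, G.al_al _ hp.1, hp.2.2.2.1])
        · exact hne hF
      · have ht : G.pi (al' τ) ∉ Z := fun ht => hz (hpar.2 ht)
        have hcard : (A.filter fun d => G.pi d ∉ Z).card < n := by
          rw [← hn]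
          apply card_lt_card
          rw [Finset.ssubset_iff_of_subset (filter_subset _ _)]
          exact ⟨d, hdA, fun hh => (mem_filter.1 hh).2 (hdv ▸ hv)⟩
        exact ih _ hcard _ _ _ (h.drop hc hZ hno' hz ht) (h.drop_b0 hc hZ hno' hz ht hb) rfl

end JK.CG
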