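import Pool.Agent.Lib.JK.Step

/-! Joining two tokens to an edge (`al` swaps them; same vertices, darts and `pi`). -/

set_option autoImplicit false

namespace JK.CG

open Finset Classical

variable {V D : Type*} (G : CG V D)

/-- `t1`, `t2` are two different tokens -/
structure TT (t1 t2 : D) : Prop where
  m1 : t1 ∈ G.ds
  m2 : t2 ∈ G.ds
  a1 : G.al t1 = t1
  a2 : G.al t2 = t2
  ne : t1 ≠ t2

variable {G} {t1 t2 : D}

/-- other order -/
lemma TT.symm (h : G.TT t1 t2) : G.TT t2 t1 := ⟨h.m2, h.m1, h.a2, h.a1, h.ne.symm⟩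

/-- a dart which is not one of the two tokens is not mapped to them -/
lemma TT.al_ne (h : G.TT t1 t2) {d : D} (hd : d ∈ G.ds) (h1 : d ≠ t1) (h2 : d ≠ t2) :
    G.al d ≠ t1 ∧ G.al d ≠ t2 := by
  constructor
  · intro e
    apply h1
    rw [← G.al_al d hd, e, h.a1]
  · intro e
    apply h2
    rw [← G.al_al d hd, e, h.a2]

/-- joining two tokens to an edge -/
noncomputable def TT.join (h : G.TT t1 t2) : CG V D where
  vs := G.vs
  ds := G.ds
  pi := G.pi
  al := fun d => if d = t1 then t2 else if d = t2 then t1 else G.al d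
  pi_mem := G.pi_mem
  al_mem := by
    intro d hd
    split_ifs with h1 h2
    · exact h.m2
    · exact h.m1
    · exact G.al_mem d hd
  al_al := by
    intro d hd
    by_cases h1 : d = t1
    · rw [if_pos h1, if_neg h.ne.symm, if_pos rfl, h1]
    · by_cases h2 : d = t2
      · rw [if_neg h1, if_pos h2, if_pos rfl, h2]
      · have h3 := h.al_ne hd h1 h2
        rw [if_neg h1, if_neg h2, if_neg h3.1, if_neg h3.2, G.al_al d hd]
  cubic := G.cubic

section join

variable (h : G.TT t1 t2)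

lemma TT.join_vs : h.join.vs = G.vs := rfl

lemma TT.join_ds : h.join.ds = G.ds := rfl

lemma TT.join_pi : h.join.pi = G.pi := rfl

lemma TT.join_al1 : h.join.al t1 = t2 := by
  show (if t1 = t1 then t2 else if t1 = t2 then t1 else G.al t1) = t2
  rw [if_pos rfl]

lemma TT.join_al2 : h.join.al t2 = t1 := by
  show (if t2 = t1 then t2 else if t2 = t2 then t1 else G.al t2) = t1
  rw [if_neg h.ne.symm, if_pos rfl]

lemma TT.join_al {d : D} (h1 : d ≠ t1) (h2 : d ≠ t2) : h.join.al d = G.al d := by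
  show (if d = t1 then t2 else if d = t2 then t1 else G.al d) = G.al d
  rw [if_neg h1, if_neg h2]

/-- the order of the two tokens does not matter -/
lemma TT.join_symm : h.symm.join = h.join := by
  have : (fun d => if d = t2 then t1 else if d = t1 then t2 else G.al d) =
      (fun d => if d = t1 then t2 else if d = t2 then t1 else G.al d) := by
    funext d
    by_cases h1 : d = t1
    · subst h1
      rw [if_neg h.ne, if_pos rfl, if_pos rfl]
    · by_cases h2 : d = t2
      · rw [if_pos h2, if_neg h1, if_pos h2]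
      · rw [if_neg h2, if_neg h1, if_neg h1, if_neg h2]
  unfold TT.join
  congr 1

lemma TT.join_bd (X : Finset V) : h.join.bd X = G.bd X ∪
    ((if G.pi t1 ∈ X ∧ G.pi t2 ∉ X then {t1} else ∅) ∪
      (if G.pi t2 ∈ X ∧ G.pi t1 ∉ X then {t2} else ∅)) := by
  ext d
  rw [mem_union, mem_union, mem_ite_singleton, mem_ite_singleton, mem_bd, mem_bd, h.join_ds,
    h.join_pi]
  by_cases e1 : d = t1
  · subst e1
    rw [h.join_al1, h.a1]
    constructor
    · rintro ⟨-, q2, q3⟩
      exact Or.inr (Or.inl ⟨⟨q2, q3⟩, rfl⟩)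
    · rintro (⟨-, q2, q3⟩ | ⟨⟨q2, q3⟩, -⟩ | ⟨-, q1⟩)
      · exact absurd q2 q3
      · exact ⟨h.m1, q2, q3⟩
      · exact absurd q1 h.ne
  · by_cases e2 : d = t2
    · subst e2
      rw [h.join_al2, h.a2]
      constructor
      · rintro ⟨-, q2, q3⟩
        exact Or.inr (Or.inr ⟨⟨q2, q3⟩, rfl⟩)
      · rintro (⟨-, q2, q3⟩ | ⟨-, q1⟩ | ⟨⟨q2, q3⟩, -⟩)
        · exact absurd q2 q3
        · exact absurd q1 e1
        · exact ⟨h.m2, q2, q3⟩
    · rw [h.join_al e1 e2]
      constructor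
      · intro q
        exact Or.inl q
      · rintro (q | ⟨-, q⟩ | ⟨-, q⟩)
        · exact q
        · exact absurd q e1
        · exact absurd q e2

lemma TT.join_tk (X : Finset V) : h.join.tk X = ((G.tk X).erase t1).erase t2 := by
  ext d
  rw [mem_erase, mem_erase, mem_tk, mem_tk, h.join_ds, h.join_pi]
  by_cases e1 : d = t1
  · subst e1
    rw [h.join_al1]
    constructor
    · rintro ⟨-, -, q⟩
      exact absurd q.symm h.ne
    · rintro ⟨-, q, -⟩
      exact absurd rfl q
  · by_cases e2 : d = t2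
    · subst e2
      rw [h.join_al2]
      constructor
      · rintro ⟨-, -, q⟩
        exact absurd q h.ne
      · rintro ⟨q, -⟩
        exact absurd rfl q
    · rw [h.join_al e1 e2]
      exact ⟨fun q => ⟨e2, e1, q⟩, fun q => q.2.2⟩

/-- a set containing at most one of the two ends -/
lemma TT.join_dg_out {X : Finset V} (hX : ¬ (G.pi t1 ∈ X ∧ G.pi t2 ∈ X)) :
    h.join.dg X = G.dg X := by
  have k1 : t1 ∈ G.tk X ↔ G.pi t1 ∈ X := by
    rw [mem_tk]; exact ⟨fun q => q.2.1, fun q => ⟨h.m1, q, h.a1⟩⟩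
  have k2 : t2 ∈ G.tk X ↔ G.pi t2 ∈ X := by
    rw [mem_tk]; exact ⟨fun q => q.2.1, fun q => ⟨h.m2, q, h.a2⟩⟩
  have n1 : t1 ∉ G.bd X := by
    rw [mem_bd, h.a1]; exact fun q => q.2.2 q.2.1
  have n2 : t2 ∉ G.bd X := by
    rw [mem_bd, h.a2]; exact fun q => q.2.2 q.2.1
  unfold dg
  rw [h.join_bd, h.join_tk]
  by_cases a : G.pi t1 ∈ X
  · have b : G.pi t2 ∉ X := fun q => hX ⟨a, q⟩
    rw [if_pos ⟨a, b⟩, if_neg (fun q => b q.1), union_empty,
      erase_eq_of_notMem (a := t2) (fun q => b (k2.1 (mem_of_mem_erase q))),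
      card_union_of_disjoint (disjoint_singleton_right.2 n1), card_singleton]
    have := card_erase_add_one (k1.2 a)
    omega
  · by_cases b : G.pi t2 ∈ X
    · rw [if_neg (fun q => a q.1), if_pos ⟨b, a⟩, empty_union,
        erase_eq_of_notMem (a := t1) (fun q => a (k1.1 q)),
        card_union_of_disjoint (disjoint_singleton_right.2 n2), card_singleton]
      have := card_erase_add_one (k2.2 b)
      omega
    · rw [if_neg (fun q => a q.1), if_neg (fun q => b q.1), empty_union, union_empty,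
        erase_eq_of_notMem (a := t1) (fun q => a (k1.1 q)),
        erase_eq_of_notMem (a := t2) (fun q => b (k2.1 q))]

/-- a set containing both ends -/
lemma TT.join_dg_in {X : Finset V} (h1 : G.pi t1 ∈ X) (h2 : G.pi t2 ∈ X) :
    h.join.dg X + 2 = G.dg X := by
  have k1 : t1 ∈ G.tk X := (G.mem_tk).2 ⟨h.m1, h1, h.a1⟩
  have k2 : t2 ∈ (G.tk X).erase t1 :=
    mem_erase.2 ⟨h.ne.symm, (G.mem_tk).2 ⟨h.m2, h2, h.a2⟩⟩
  unfold dg
  rw [h.join_bd, h.join_tk, if_neg (fun q => q.2 h2), if_neg (fun q => q.2 h1), union_empty,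
    union_empty]
  have e1 := card_erase_add_one k1
  have e2 := card_erase_add_one k2
  omega

lemma TT.join_dg_le (X : Finset V) : h.join.dg X ≤ G.dg X := by
  by_cases hX : G.pi t1 ∈ X ∧ G.pi t2 ∈ X
  · have := h.join_dg_in hX.1 hX.2
    omega
  · rw [h.join_dg_out hX]

lemma TT.join_dg (X : Finset V) :
    h.join.dg X + (if G.pi t1 ∈ X ∧ G.pi t2 ∈ X then 2 else 0) = G.dg X := by
  split_ifs with hX
  · exact h.join_dg_in hX.1 hX.2
  · rw [h.join_dg_out hX]; rfl

/-- two tokens less -/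
lemma TT.join_tk_card : (h.join.tk h.join.vs).card + 2 = (G.tk G.vs).card := by
  have k1 : t1 ∈ G.tk G.vs := (G.mem_tk).2 ⟨h.m1, G.pi_mem _ h.m1, h.a1⟩
  have k2 : t2 ∈ (G.tk G.vs).erase t1 :=
    mem_erase.2 ⟨h.ne.symm, (G.mem_tk).2 ⟨h.m2, G.pi_mem _ h.m2, h.a2⟩⟩
  rw [h.join_tk, h.join_vs]
  have e1 := card_erase_add_one k1
  have e2 := card_erase_add_one k2
  omega

/-- bridgelessness is kept if no odd set with both ends has degree 3 -/
lemma TT.join_b0 (hb : G.B0)
    (hx : ∀ X ⊆ G.vs, Odd X.card → G.pi t1 ∈ X → G.pi t2 ∈ X → G.dg X ≠ 3) : h.join.B0 := by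
  intro X hX ho
  by_cases hq : G.pi t1 ∈ X ∧ G.pi t2 ∈ X
  · have e := h.join_dg_in hq.1 hq.2
    have o := (G.dg_parity hX).2 ho
    have g := hb X hX ho
    have n := hx X hX ho hq.1 hq.2
    rcases o with ⟨k, hk⟩
    omega
  · rw [h.join_dg_out hq]
    exact hb X hX ho

/-- if joining destroys bridgelessness then there is an odd set of degree 3 with both ends -/
lemma TT.join_blocked (hb : G.B0) (hj : ¬ h.join.B0) :
    ∃ X ⊆ G.vs, Odd X.card ∧ G.pi t1 ∈ X ∧ G.pi t2 ∈ X ∧ G.dg X = 3 := by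
  by_contra hc
  push Not at hc
  exact hj (h.join_b0 hb hc)

/-- matchings of `G` are matchings of the new graph -/
lemma TT.join_pm_of {M : Finset D} (hM : G.IsPM M) : h.join.IsPM M := by
  have n1 : t1 ∉ M := fun q => hM.notok _ q h.a1
  have n2 : t2 ∉ M := fun q => hM.notok _ q h.a2
  have e : ∀ d ∈ M, h.join.al d = G.al d := by
    intro d hd
    exact h.join_al (fun q => n1 (q ▸ hd)) (fun q => n2 (q ▸ hd))
  refine ⟨hM.sub, ?_, ?_, hM.one⟩
  · intro d hd
    rw [e d hd]
    exact hM.closed d hd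
  · intro d hd
    rw [e d hd]
    exact hM.notok d hd

lemma TT.join_pm_iff12 {M : Finset D} (hM : h.join.IsPM M) : t1 ∈ M ↔ t2 ∈ M := by
  constructor
  · intro q
    have := hM.closed _ q
    rwa [h.join_al1] at this
  · intro q
    have := hM.closed _ q
    rwa [h.join_al2] at this

/-- matchings avoiding the new edge are matchings of `G` -/
lemma TT.join_pm_out {M : Finset D} (hM : h.join.IsPM M) (n1 : t1 ∉ M) : G.IsPM M := by
  have n2 : t2 ∉ M := fun q => n1 ((h.join_pm_iff12 hM).2 q)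
  have e : ∀ d ∈ M, h.join.al d = G.al d := by
    intro d hd
    exact h.join_al (fun q => n1 (q ▸ hd)) (fun q => n2 (q ▸ hd))
  refine ⟨hM.sub, ?_, ?_, hM.one⟩
  · intro d hd
    rw [← e d hd]
    exact hM.closed d hd
  · intro d hd
    rw [← e d hd]
    exact hM.notok d hd

lemma TT.join_pm {M : Finset D} : G.IsPM M ↔ h.join.IsPM M ∧ t1 ∉ M := by
  constructor
  · intro hM
    exact ⟨h.join_pm_of hM, fun q => hM.notok _ q h.a1⟩
  · rintro ⟨hM, n1⟩
    exact h.join_pm_out hM n1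

/-- the new edge belongs to no class -/
lemma TT.join_cls {K : Finset V} {F : Finset D} (hc : G.Cls K F) : h.join.Cls K F := by
  have n1 : t1 ∉ F := fun q => hc.Ftok _ q h.a1
  have n2 : t2 ∉ F := fun q => hc.Ftok _ q h.a2
  have e : ∀ d ∈ F, h.join.al d = G.al d := by
    intro d hd
    exact h.join_al (fun q => n1 (q ▸ hd)) (fun q => n2 (q ▸ hd))
  refine ⟨hc.Ksub, hc.Fsub, ?_, ?_, hc.F2, ?_⟩
  · intro d hd
    rw [e d hd]
    exact hc.Fal d hd
  · intro d hd
    rw [e d hd]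
    exact hc.Ftok d hd
  · intro d hd ht
    by_cases e1 : d = t1
    · subst e1
      exact hc.tokK _ h.m1 h.a1
    · by_cases e2 : d = t2
      · subst e2
        exact hc.tokK _ h.m2 h.a2
      · rw [h.join_al e1 e2] at ht
        exact hc.tokK d hd ht

lemma TT.join_adm {K : Finset V} {F : Finset D} (hc : G.Cls K F) {Z : Finset V} :
    h.join.Adm K F Z ↔ G.Adm K F Z := by
  have n1 : t1 ∉ F := fun q => hc.Ftok _ q h.a1
  have n2 : t2 ∉ F := fun q => hc.Ftok _ q h.a2
  have e : ∀ d ∈ F, h.join.al d = G.al d := by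
    intro d hd
    exact h.join_al (fun q => n1 (q ▸ hd)) (fun q => n2 (q ▸ hd))
  constructor
  · intro hZ
    refine ⟨hZ.sub, hZ.dis, ?_⟩
    intro d hd hdZ
    rw [← e d hd]
    exact hZ.clo d hd hdZ
  · intro hZ
    refine ⟨hZ.sub, hZ.dis, ?_⟩
    intro d hd hdZ
    rw [h.join_pi] at hdZ ⊢
    rw [e d hd]
    exact hZ.clo d hd hdZ

lemma TT.join_abs {K : Finset V} {F : Finset D} (hc : G.Cls K F) {v : V} :
    h.join.Abs K F v ↔ G.Abs K F v := by
  constructor
  · intro hv Z hZ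
    exact hv Z ((h.join_adm hc).2 hZ)
  · intro hv Z hZ
    exact hv Z ((h.join_adm hc).1 hZ)

/-- the boundary of a set without the two ends -/
lemma TT.join_bd_out {X : Finset V} (h1 : G.pi t1 ∉ X) (h2 : G.pi t2 ∉ X) :
    h.join.bd X = G.bd X := by
  rw [h.join_bd, if_neg (fun q => h1 q.1), if_neg (fun q => h2 q.1), union_empty, union_empty]

lemma TT.join_bd_adm {K : Finset V} {F : Finset D} (hc : G.Cls K F) {Z : Finset V}
    (hZ : G.Adm K F Z) : h.join.bd Z = G.bd Z :=
  h.join_bd_out (fun q => hZ.dis _ q (hc.tokK _ h.m1 h.a1))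
    (fun q => hZ.dis _ q (hc.tokK _ h.m2 h.a2))

lemma TT.join_cc {K : Finset V} {F : Finset D} (hc : G.Cls K F) :
    h.join.CC K F ↔ G.CC K F := by
  constructor
  · intro hC Z hZ ho
    rw [← h.join_bd_adm hc hZ]
    exact hC Z ((h.join_adm hc).2 hZ) ho
  · intro hC Z hZ ho
    have hZ' := (h.join_adm hc).1 hZ
    rw [h.join_bd_adm hc hZ']
    exact hC Z hZ' ho

/-- a good matching avoiding the new edge is good in `G` -/
lemma TT.join_good {K : Finset V} {F M : Finset D} (hc : G.Cls K F) (hM : h.join.Good K F M)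
    (n1 : t1 ∉ M) : G.Good K F M := by
  refine ⟨h.join_pm_out hM.pm n1, ?_⟩
  intro Z hZ ho
  have := hM.hit Z ((h.join_adm hc).2 hZ) ho
  rwa [h.join_bd_adm hc hZ] at this

/-- the instance after joining -/
lemma TT.join_inst {K : Finset V} {F : Finset D} (hi : G.Inst K F)
    (hx : ∀ X ⊆ G.vs, Odd X.card → G.pi t1 ∈ X → G.pi t2 ∈ X → G.dg X ≠ 3) :
    h.join.Inst K F := by
  refine ⟨hi.even, ?_, h.join_b0 hi.b0 hx, h.join_cls hi.cls, (h.join_cc hi.cls).2 hi.cc⟩
  have := h.join_tk_card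
  have := hi.four
  omega

/-- a matching using the new edge, seen in `G`: the darts without the two tokens cover every
vertex except the two ends -/
lemma TT.join_pm_in {M : Finset D} (hM : h.join.IsPM M) (m1 : t1 ∈ M) :
    G.pi t1 ≠ G.pi t2 ∧ (∀ d ∈ (M.erase t1).erase t2, G.al d ∈ (M.erase t1).erase t2) ∧
    (∀ d ∈ (M.erase t1).erase t2, G.al d ≠ d) ∧
    (∀ v ∈ G.vs, v ≠ G.pi t1 → v ≠ G.pi t2 →
      (((M.erase t1).erase t2).filter fun d => G.pi d = v).card = 1) ∧
    (∀ d ∈ (M.erase t1).erase t2, G.pi d ≠ G.pi t1 ∧ G.pi d ≠ G.pi t2) := by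
  have m2 := (h.join_pm_iff12 hM).1 m1
  have uni : ∀ d ∈ M, ∀ e ∈ M, G.pi d = G.pi e → d = e := by
    intro d hd e he hde
    exact hM.unique hd he hde
  refine ⟨?_, ?_, ?_, ?_, ?_⟩
  · intro q
    exact h.ne (uni _ m1 _ m2 q)
  · intro d hd
    rw [mem_erase, mem_erase] at hd
    obtain ⟨d2, d1, dM⟩ := hd
    have dd : d ∈ G.ds := hM.sub dM
    have hn := h.al_ne dd d1 d2
    rw [mem_erase, mem_erase]
    refine ⟨hn.2, hn.1, ?_⟩
    rw [← h.join_al d1 d2]
    exact hM.closed d dM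
  · intro d hd
    rw [mem_erase, mem_erase] at hd
    obtain ⟨d2, d1, dM⟩ := hd
    rw [← h.join_al d1 d2]
    exact hM.notok d dM
  · intro v hv v1 v2
    have e : (((M.erase t1).erase t2).filter fun d => G.pi d = v) =
        M.filter fun d => h.join.pi d = v := by
      ext d
      rw [mem_filter, mem_filter, mem_erase, mem_erase, h.join_pi]
      constructor
      · rintro ⟨⟨-, -, q⟩, q'⟩
        exact ⟨q, q'⟩
      · rintro ⟨q, q'⟩
        refine ⟨⟨?_, ?_, q⟩, q'⟩
        · rintro rfl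
          exact v2 q'.symm
        · rintro rfl
          exact v1 q'.symm
    rw [e]
    exact hM.one v hv
  · intro d hd
    rw [mem_erase, mem_erase] at hd
    obtain ⟨d2, d1, dM⟩ := hd
    exact ⟨fun q => d1 (uni _ dM _ m1 q), fun q => d2 (uni _ dM _ m2 q)⟩

end join

end JK.CG
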