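import Mathlib

/-! Two involutions: the components are circuits or paths, the ends of a path are paired
(S5, MP_c95763_co; used for the segments of a trail outside a vertex set). -/

set_option autoImplicit false

namespace JK.TwoInv

open Function

variable {D : Type*} (f g : D → D)

/-- the product of the two involutions -/
def pr (x : D) : D := f (g x)

/-- the component of `x` (for a `g`-fixed `x`) -/
def Cmp (x d : D) : Prop := ∃ k, d = (pr f g)^[k] x ∨ d = g ((pr f g)^[k] x)

variable {f g} (hf : Involutive f) (hg : Involutive g)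

include hf hg in
lemma pr_inj : Injective (pr f g) := fun _ _ h => hg.injective (hf.injective h)

include hf hg in
lemma iter_inj (k : ℕ) : Injective (pr f g)^[k] := (pr_inj hf hg).iterate k

include hf hg in
/-- going back from a fixed point of `g` -/
lemma iter_back {x : D} (hx : g x = x) (k : ℕ) : (pr f g)^[k] (g ((pr f g)^[k] x)) = x := by
  induction k with
  | zero => simpa using hx
  | succ k ih =>
    have h1 : (pr f g)^[k + 1] x = f (g ((pr f g)^[k] x)) := iterate_succ_apply' _ _ _
    rw [h1, iterate_succ_apply]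
    have h2 : pr f g (g (f (g ((pr f g)^[k] x)))) = g ((pr f g)^[k] x) := by
      unfold pr
      rw [hg, hf]
    rw [h2]
    exact ih

section fin

variable {S : Set D} (hS : S.Finite) (hfS : ∀ d ∈ S, f d ∈ S) (hgS : ∀ d ∈ S, g d ∈ S)

include hfS hgS in
lemma iter_mem {x : D} (hx : x ∈ S) (k : ℕ) : (pr f g)^[k] x ∈ S := by
  induction k with
  | zero => exact hx
  | succ k ih =>
    rw [iterate_succ_apply']
    exact hfS _ (hgS _ ih)

include hf hg hS hfS hgS in
lemma period_pos {x : D} (hx : x ∈ S) : 0 < minimalPeriod (pr f g) x := by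
  apply minimalPeriod_pos_of_mem_periodicPts
  have : Finite S := hS
  obtain ⟨i, j, hij, h⟩ := Finite.exists_ne_map_eq_of_infinite
    (fun k : ℕ => (⟨(pr f g)^[k] x, iter_mem hfS hgS hx k⟩ : S))
  have h' : (pr f g)^[i] x = (pr f g)^[j] x := congrArg Subtype.val h
  have key : ∀ i j, i < j → (pr f g)^[i] x = (pr f g)^[j] x → x ∈ periodicPts (pr f g) := by
    intro i j hij h
    refine ⟨j - i, by omega, ?_⟩
    have e : j = i + (j - i) := by omega
    rw [e, iterate_add_apply] at h
    exact (iter_inj hf hg i h).symm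
  rcases lt_or_gt_of_ne hij with h1 | h1
  · exact key i j h1 h'
  · exact key j i h1 h'.symm

end fin

/-- the partner of a fixed point `x` of `g` -/
noncomputable def be (f g : D → D) (x : D) : D := (pr f g)^[minimalPeriod (pr f g) x / 2] x

include hf hg in
/-- which iterates are fixed by `g` -/
lemma iter_fix_iff {x : D} (hx : g x = x) (k : ℕ) :
    g ((pr f g)^[k] x) = (pr f g)^[k] x ↔ minimalPeriod (pr f g) x ∣ 2 * k := by
  rw [← isPeriodicPt_iff_minimalPeriod_dvd]
  unfold IsPeriodicPt IsFixedPt
  rw [two_mul, iterate_add_apply]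
  constructor
  · intro h
    have := iter_back hf hg hx k
    rwa [h] at this
  · intro h
    apply iter_inj hf hg k
    rw [h]
    exact iter_back hf hg hx k

include hf hg in
lemma iter_ffix_iff {x : D} (hx : g x = x) (k : ℕ) :
    f (g ((pr f g)^[k] x)) = g ((pr f g)^[k] x) ↔ minimalPeriod (pr f g) x ∣ 2 * k + 1 := by
  rw [← isPeriodicPt_iff_minimalPeriod_dvd]
  unfold IsPeriodicPt IsFixedPt
  have e : 2 * k + 1 = k + (k + 1) := by ring
  rw [e, iterate_add_apply, iterate_succ_apply' _ k x]
  constructor
  · intro h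
    have := iter_back hf hg hx k
    unfold pr at h ⊢
    unfold pr at this
    rw [h]
    exact this
  · intro h
    apply iter_inj hf hg k
    have h2 : f (g ((pr f g)^[k] x)) = pr f g ((pr f g)^[k] x) := rfl
    rw [h2, h]
    exact (iter_back hf hg hx k).symm

include hf hg in
/-- the period of the partner -/
lemma period_iter (x : D) (k : ℕ) :
    minimalPeriod (pr f g) ((pr f g)^[k] x) = minimalPeriod (pr f g) x := by
  apply Nat.dvd_antisymm
  · rw [← isPeriodicPt_iff_minimalPeriod_dvd]
    have h1 := isPeriodicPt_minimalPeriod (pr f g) x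
    unfold IsPeriodicPt IsFixedPt at *
    rw [← iterate_add_apply, add_comm, iterate_add_apply, h1]
  · rw [← isPeriodicPt_iff_minimalPeriod_dvd]
    have h1 := isPeriodicPt_minimalPeriod (pr f g) ((pr f g)^[k] x)
    unfold IsPeriodicPt IsFixedPt at *
    apply iter_inj hf hg k
    rw [← iterate_add_apply, add_comm, iterate_add_apply, h1]

section even

variable {x : D} (hx : g x = x) (hpos : 0 < minimalPeriod (pr f g) x)
  (hev : Even (minimalPeriod (pr f g) x))

include hf hg hx hev in
lemma be_fix : g (be f g x) = be f g x := by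
  unfold be
  rw [iter_fix_iff hf hg hx]
  obtain ⟨a, ha⟩ := hev
  rw [ha]
  exact ⟨1, by omega⟩

include hpos hev in
lemma be_ne : be f g x ≠ x := by
  intro h
  unfold be at h
  obtain ⟨a, ha⟩ := hev
  have h1 : minimalPeriod (pr f g) x ∣ minimalPeriod (pr f g) x / 2 := by
    rw [← isPeriodicPt_iff_minimalPeriod_dvd]
    exact h
  have := Nat.le_of_dvd (by omega) h1
  omega

include hf hg hev in
lemma be_be : be f g (be f g x) = x := by
  have h1 : minimalPeriod (pr f g) (be f g x) = minimalPeriod (pr f g) x :=
    period_iter hf hg x _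
  have h2 : be f g (be f g x) =
      (pr f g)^[minimalPeriod (pr f g) x / 2] ((pr f g)^[minimalPeriod (pr f g) x / 2] x) := by
    show (pr f g)^[minimalPeriod (pr f g) (be f g x) / 2] (be f g x) = _
    rw [h1]
    rfl
  rw [h2, ← iterate_add_apply]
  obtain ⟨a, ha⟩ := hev
  have h3 : minimalPeriod (pr f g) x / 2 + minimalPeriod (pr f g) x / 2 =
      minimalPeriod (pr f g) x := by omega
  rw [h3]
  exact iterate_minimalPeriod

end even

section cmp

variable {x : D} (hx : g x = x)

lemma cmp_self : Cmp f g x x := ⟨0, Or.inl rfl⟩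

include hg in
lemma cmp_g {d : D} (h : Cmp f g x d) : Cmp f g x (g d) := by
  obtain ⟨k, rfl | rfl⟩ := h
  · exact ⟨k, Or.inr rfl⟩
  · exact ⟨k, Or.inl (hg _)⟩

include hf hg hx in
lemma cmp_f {d : D} (h : Cmp f g x d) : Cmp f g x (f d) := by
  obtain ⟨k, rfl | rfl⟩ := h
  · rcases k with - | k
    · refine ⟨1, Or.inl ?_⟩
      show f x = f (g x)
      rw [hx]
    · refine ⟨k, Or.inr ?_⟩
      rw [iterate_succ_apply']
      exact hf _
  · refine ⟨k + 1, Or.inl ?_⟩
    rw [iterate_succ_apply']
    rfl

include hf hg hx in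
/-- the `g`-fixed points of a component -/
lemma cmp_fix {d : D} (h : Cmp f g x d) (hd : g d = d) (hpos : 0 < minimalPeriod (pr f g) x) :
    d = x ∨ (Even (minimalPeriod (pr f g) x) ∧ d = be f g x) := by
  obtain ⟨k, hk⟩ := h
  have hk' : d = (pr f g)^[k] x := by
    rcases hk with h | h
    · exact h
    · rw [h, hg] at hd
      rw [h, ← hd]
  subst hk'
  rw [iter_fix_iff hf hg hx] at hd
  set n := minimalPeriod (pr f g) x with hn
  have hmod : (pr f g)^[k] x = (pr f g)^[k % n] x := by
    rw [hn, iterate_mod_minimalPeriod_eq]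
  have hlt : k % n < n := Nat.mod_lt _ hpos
  have hdvd : n ∣ 2 * (k % n) := by
    have h1 : 2 * k = 2 * (k % n) + n * (2 * (k / n)) := by
      have := Nat.mod_add_div k n
      calc 2 * k = 2 * (k % n + n * (k / n)) := by rw [this]
        _ = _ := by ring
    rw [h1] at hd
    exact (Nat.dvd_add_left (Dvd.intro _ rfl)).1 hd
  obtain ⟨c, hc⟩ := hdvd
  have hc2 : c < 2 := by
    by_contra hcon
    have : n * 2 ≤ n * c := Nat.mul_le_mul_left n (by omega)
    omega
  rcases Nat.lt_or_ge c 1 with h0 | h0
  · left
    have : c = 0 := by omega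
    subst this
    have : k % n = 0 := by omega
    rw [hmod, this]
    rfl
  · right
    have : c = 1 := by omega
    subst this
    refine ⟨⟨k % n, by omega⟩, ?_⟩
    rw [hmod]
    unfold be
    have : k % n = n / 2 := by omega
    rw [this]

include hf hg in
/-- two components with a common element -/
lemma cmp_share {y d : D} (hx : g x = x) (h1 : Cmp f g x d) (h2 : Cmp f g y d) :
    Cmp f g x y := by
  have key : ∀ k, Cmp f g x ((pr f g)^[k] y) → Cmp f g x y := by
    intro k
    induction k with
    | zero => exact fun h => h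
    | succ k ih =>
      intro h
      apply ih
      rw [iterate_succ_apply'] at h
      have h3 := cmp_g hg (cmp_f hf hg hx h)
      have h4 : g (f (pr f g ((pr f g)^[k] y))) = (pr f g)^[k] y := by
        unfold pr
        rw [hf, hg]
      rwa [h4] at h3
  obtain ⟨k, hk | hk⟩ := h2
  · rw [hk] at h1
    exact key k h1
  · rw [hk] at h1
    have h3 := cmp_g hg h1
    rw [hg] at h3
    exact key k h3

include hf hg hx in
/-- a component with an `f`-fixed point has odd period -/
lemma cmp_ffix {d : D} (h : Cmp f g x d) (hd : f d = d) (hfx : f x ≠ x) :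
    ¬ Even (minimalPeriod (pr f g) x) := by
  rw [Nat.not_even_iff_odd]
  obtain ⟨k, hk | hk⟩ := h
  · rcases k with - | k
    · exfalso
      apply hfx
      have : d = x := hk
      rw [← this]; exact hd
    · rw [iterate_succ_apply'] at hk
      have h1 : f d = g ((pr f g)^[k] x) := by
        rw [hk]
        exact hf _
      rw [hd] at h1
      have h2 : f (g ((pr f g)^[k] x)) = g ((pr f g)^[k] x) := by
        rw [← h1]; exact hd
      rw [iter_ffix_iff hf hg hx] at h2
      exact (odd_two_mul_add_one k).of_dvd_nat h2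
  · have h2 : f (g ((pr f g)^[k] x)) = g ((pr f g)^[k] x) := by
      rw [← hk]; exact hd
    rw [iter_ffix_iff hf hg hx] at h2
    exact (odd_two_mul_add_one k).of_dvd_nat h2

end cmp

end JK.TwoInv
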