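import Pool.Agent.Lib.JK.JoinS
import Pool.Agent.Lib.JK.TwoInv

/-! Links (S5, MP_c95763_co). `(A, al', p)` is a killed structure and `Y` a vertex set which
separates no pair. The part of `A` outside `Y` pairs the killed boundary darts of `Y` (except the
ones which lead to a killed token or to a landing dart): `lk`. Each of these links can be kept or
omitted, and the inside of `Y` can be replaced by another structure with the same boundary darts
(`splice`). -/

set_option autoImplicit false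

namespace JK.CG

open Finset Classical Function

variable {V D : Type*} (G : CG V D)

namespace KD

variable {G} {A : Finset D} {al' p : D → D}

/-- killed darts outside `Y` -/
noncomputable def outA (G : CG V D) (A : Finset D) (Y : Finset V) : Finset D :=
  A.filter fun d => G.pi d ∉ Y

/-- killed boundary darts of `Y`, on the side of `Y` -/
noncomputable def bdA (G : CG V D) (A : Finset D) (Y : Finset V) : Finset D :=
  A.filter fun d => G.pi d ∈ Y ∧ G.pi (G.al d) ∉ Y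

lemma mem_outA {Y : Finset V} {d : D} : d ∈ outA G A Y ↔ d ∈ A ∧ G.pi d ∉ Y := by
  unfold outA; rw [mem_filter]

lemma mem_bdA {Y : Finset V} {d : D} : d ∈ bdA G A Y ↔
    d ∈ A ∧ G.pi d ∈ Y ∧ G.pi (G.al d) ∉ Y := by
  unfold bdA; rw [mem_filter]

/-- killed edges -/
noncomputable def lf (G : CG V D) (A : Finset D) (Y : Finset V) (d : D) : D :=
  if d ∈ outA G A Y ∨ d ∈ bdA G A Y then G.al d else d

/-- pairs outside `Y` -/
noncomputable def lg (G : CG V D) (A : Finset D) (al' : D → D) (Y : Finset V) (d : D) : D :=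
  if d ∈ outA G A Y then al' d else d

/-- the component of the outer part which starts with the boundary dart `x` -/
def Lc (G : CG V D) (A : Finset D) (al' : D → D) (Y : Finset V) (x d : D) : Prop :=
  TwoInv.Cmp (lf G A Y) (lg G A al' Y) x d

/-- the partner of a boundary dart -/
noncomputable def lk (G : CG V D) (A : Finset D) (al' : D → D) (Y : Finset V) (x : D) : D :=
  TwoInv.be (lf G A Y) (lg G A al' Y) x

/-- `x` is linked -/
def Lkd (G : CG V D) (A : Finset D) (al' : D → D) (Y : Finset V) (x : D) : Prop :=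
  x ∈ bdA G A Y ∧ Even (minimalPeriod (TwoInv.pr (lf G A Y) (lg G A al' Y)) x) ∧
    lk G A al' Y x ∈ bdA G A Y

section links

variable (h : G.KD A al' p) {Y : Finset V} (hs : Sat G A al' Y)

include h in
lemma al_out_or {d : D} (hd : d ∈ outA G A Y ∨ d ∈ bdA G A Y) :
    G.al d ∈ outA G A Y ∨ G.al d ∈ bdA G A Y := by
  rw [mem_outA, mem_bdA]
  rcases hd with hd | hd
  · rw [mem_outA] at hd
    by_cases h1 : G.pi (G.al d) ∈ Y
    · right
      refine ⟨h.cl d hd.1, h1, ?_⟩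
      rw [G.al_al d (h.sub hd.1)]
      exact hd.2
    · exact Or.inl ⟨h.cl d hd.1, h1⟩
  · rw [mem_bdA] at hd
    exact Or.inl ⟨h.cl d hd.1, hd.2.2⟩

include h hs in
lemma al'_out {d : D} (hd : d ∈ outA G A Y) : al' d ∈ outA G A Y := by
  rw [mem_outA] at hd ⊢
  refine ⟨h.cl' d hd.1, ?_⟩
  by_cases hf : al' d = d
  · rw [hf]; exact hd.2
  · exact fun h1 => hd.2 ((hs d hd.1 hf).2 h1)

include h in
lemma lf_inv : Involutive (lf G A Y) := by
  intro d
  unfold lf
  by_cases hd : d ∈ outA G A Y ∨ d ∈ bdA G A Y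
  · rw [if_pos hd, if_pos (h.al_out_or hd)]
    apply G.al_al
    rcases hd with h1 | h1
    · exact h.sub (mem_outA.1 h1).1
    · exact h.sub (mem_bdA.1 h1).1
  · rw [if_neg hd, if_neg hd]

include h hs in
lemma lg_inv : Involutive (lg G A al' Y) := by
  intro d
  unfold lg
  by_cases hd : d ∈ outA G A Y
  · rw [if_pos hd, if_pos (h.al'_out hs hd)]
    exact h.inv' d (mem_outA.1 hd).1
  · rw [if_neg hd, if_neg hd]

lemma lg_bd {x : D} (hx : x ∈ bdA G A Y) : lg G A al' Y x = x := by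
  unfold lg
  rw [if_neg]
  intro h1
  exact (mem_outA.1 h1).2 (mem_bdA.1 hx).2.1

lemma lf_bd {x : D} (hx : x ∈ bdA G A Y) : lf G A Y x = G.al x := by
  unfold lf
  rw [if_pos (Or.inr hx)]

lemma lf_out {x : D} (hx : x ∈ outA G A Y) : lf G A Y x = G.al x := by
  unfold lf
  rw [if_pos (Or.inl hx)]

lemma lg_out {x : D} (hx : x ∈ outA G A Y) : lg G A al' Y x = al' x := by
  unfold lg
  rw [if_pos hx]

include h hs in
lemma lc_mem {x d : D} (hx : x ∈ bdA G A Y) (hc : Lc G A al' Y x d) :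
    d ∈ outA G A Y ∨ d ∈ bdA G A Y := by
  have hfS : ∀ d ∈ {d | d ∈ outA G A Y ∨ d ∈ bdA G A Y}, lf G A Y d ∈
      {d | d ∈ outA G A Y ∨ d ∈ bdA G A Y} := by
    intro d hd
    have hd' : d ∈ outA G A Y ∨ d ∈ bdA G A Y := hd
    unfold lf
    rw [if_pos hd']
    exact h.al_out_or hd'
  have hgS : ∀ d ∈ {d | d ∈ outA G A Y ∨ d ∈ bdA G A Y}, lg G A al' Y d ∈
      {d | d ∈ outA G A Y ∨ d ∈ bdA G A Y} := by
    intro d hd
    unfold lg
    by_cases h1 : d ∈ outA G A Y
    · rw [if_pos h1]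
      exact Or.inl (h.al'_out hs h1)
    · rw [if_neg h1]
      exact hd
  obtain ⟨k, hk | hk⟩ := hc
  · rw [hk]
    exact TwoInv.iter_mem hfS hgS (S := {d | d ∈ outA G A Y ∨ d ∈ bdA G A Y}) (Or.inr hx) k
  · rw [hk]
    exact hgS _ (TwoInv.iter_mem hfS hgS (S := {d | d ∈ outA G A Y ∨ d ∈ bdA G A Y})
      (Or.inr hx) k)

include h hs in
lemma lper_pos {x : D} (hx : x ∈ bdA G A Y) :
    0 < minimalPeriod (TwoInv.pr (lf G A Y) (lg G A al' Y)) x := by
  have hfin : ({d | d ∈ outA G A Y ∨ d ∈ bdA G A Y} : Set D).Finite := by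
    apply Set.Finite.subset A.finite_toSet
    intro d hd
    rcases hd with h1 | h1
    · exact (mem_outA.1 h1).1
    · exact (mem_bdA.1 h1).1
  refine TwoInv.period_pos h.lf_inv (h.lg_inv hs) hfin ?_ ?_ (Or.inr hx)
  · intro d hd
    have hd' : d ∈ outA G A Y ∨ d ∈ bdA G A Y := hd
    unfold lf
    rw [if_pos hd']
    exact h.al_out_or hd'
  · intro d hd
    unfold lg
    by_cases h1 : d ∈ outA G A Y
    · rw [if_pos h1]
      exact Or.inl (h.al'_out hs h1)
    · rw [if_neg h1]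
      exact hd

include h hs in
/-- the partner of a boundary dart is another boundary dart or a landing dart -/
lemma lk_cases {x : D} (hx : x ∈ bdA G A Y)
    (hev : Even (minimalPeriod (TwoInv.pr (lf G A Y) (lg G A al' Y)) x)) :
    lk G A al' Y x ≠ x ∧ (Lkd G A al' Y x ∨
      (lk G A al' Y x ∈ outA G A Y ∧ al' (lk G A al' Y x) = lk G A al' Y x)) := by
  have hpos := h.lper_pos hs hx
  refine ⟨TwoInv.be_ne hpos hev, ?_⟩
  have h1 := TwoInv.be_fix h.lf_inv (h.lg_inv hs) (lg_bd hx) hev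
  have h2 : lk G A al' Y x ∈ outA G A Y ∨ lk G A al' Y x ∈ bdA G A Y :=
    h.lc_mem hs hx ⟨_, Or.inl rfl⟩
  rcases h2 with h2 | h2
  · right
    refine ⟨h2, ?_⟩
    rw [← lg_out (al' := al') h2]
    exact h1
  · exact Or.inl ⟨hx, hev, h2⟩

include h hs in
/-- otherwise it leads to a killed token -/
lemma lk_odd {x : D} (hx : x ∈ bdA G A Y)
    (hodd : ¬ Even (minimalPeriod (TwoInv.pr (lf G A Y) (lg G A al' Y)) x)) :
    ∃ t ∈ outA G A Y, G.al t = t ∧ Lc G A al' Y x t := by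
  rw [Nat.not_even_iff_odd] at hodd
  obtain ⟨k, hk⟩ := hodd
  have h1 := (TwoInv.iter_ffix_iff h.lf_inv (h.lg_inv hs) (lg_bd (al' := al') hx) k).2
    (by rw [hk])
  set t := lg G A al' Y ((TwoInv.pr (lf G A Y) (lg G A al' Y))^[k] x) with ht
  have hc : Lc G A al' Y x t := ⟨k, Or.inr rfl⟩
  have h2 := h.lc_mem hs hx hc
  have h3 : G.al t = t := by
    have : lf G A Y t = G.al t := by
      unfold lf
      rw [if_pos h2]
    rw [← this]
    exact h1
  rcases h2 with h2 | h2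
  · exact ⟨t, h2, h3, hc⟩
  · exfalso
    rw [mem_bdA, h3] at h2
    exact h2.2.2 h2.2.1

include h hs in
lemma lkd_lk {x : D} (hx : Lkd G A al' Y x) : Lkd G A al' Y (lk G A al' Y x) := by
  obtain ⟨h1, h2, h3⟩ := hx
  refine ⟨h3, ?_, ?_⟩
  · unfold lk TwoInv.be
    rw [TwoInv.period_iter h.lf_inv (h.lg_inv hs)]
    exact h2
  · have : lk G A al' Y (lk G A al' Y x) = x :=
      TwoInv.be_be h.lf_inv (h.lg_inv hs) h2
    rw [this]
    exact h1

include h hs in
/-- the linking is an involution -/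
lemma lk_lk {x : D} (hx : Lkd G A al' Y x) : lk G A al' Y (lk G A al' Y x) = x :=
  TwoInv.be_be h.lf_inv (h.lg_inv hs) hx.2.1

include h hs in
lemma lk_ne {x : D} (hx : Lkd G A al' Y x) : lk G A al' Y x ≠ x :=
  TwoInv.be_ne (h.lper_pos hs hx.1) hx.2.1

include h hs in
/-- the boundary darts in a component -/
lemma lc_bd {x y : D} (hx : x ∈ bdA G A Y) (hy : y ∈ bdA G A Y) (hc : Lc G A al' Y x y) :
    y = x ∨ (Lkd G A al' Y x ∧ y = lk G A al' Y x) := by
  rcases TwoInv.cmp_fix h.lf_inv (h.lg_inv hs) (lg_bd hx) hc (lg_bd hy) (h.lper_pos hs hx) with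
    h1 | ⟨h1, h2⟩
  · exact Or.inl h1
  · right
    have h3 : y = lk G A al' Y x := h2
    exact ⟨⟨hx, h1, h3 ▸ hy⟩, h3⟩

include h hs in
/-- two boundary darts whose components meet -/
lemma lc_share {x y d : D} (hx : x ∈ bdA G A Y) (hy : y ∈ bdA G A Y)
    (h1 : Lc G A al' Y x d) (h2 : Lc G A al' Y y d) :
    y = x ∨ (Lkd G A al' Y x ∧ y = lk G A al' Y x) :=
  h.lc_bd hs hx hy (TwoInv.cmp_share h.lf_inv (h.lg_inv hs) (lg_bd hx) h1 h2)

include h hs in
/-- a boundary dart which leads to a killed token -/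
lemma lc_tok {x t : D} (hx : x ∈ bdA G A Y) (hc : Lc G A al' Y x t) (ht : G.al t = t) :
    ¬ Even (minimalPeriod (TwoInv.pr (lf G A Y) (lg G A al' Y)) x) := by
  have h2 := h.lc_mem hs hx hc
  refine TwoInv.cmp_ffix h.lf_inv (h.lg_inv hs) (lg_bd hx) hc ?_ ?_
  · unfold lf
    rw [if_pos h2]
    exact ht
  · rw [lf_bd hx]
    intro he
    have := mem_bdA.1 hx
    rw [he] at this
    exact this.2.2 this.2.1

include h hs in
/-- a boundary dart which leads to a landing dart -/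
lemma lc_land {x t : D} (hx : x ∈ bdA G A Y) (hc : Lc G A al' Y x t) (ht : t ∈ outA G A Y)
    (hz : al' t = t) :
    Even (minimalPeriod (TwoInv.pr (lf G A Y) (lg G A al' Y)) x) ∧ t = lk G A al' Y x := by
  rcases TwoInv.cmp_fix h.lf_inv (h.lg_inv hs) (lg_bd hx) hc (by rw [lg_out ht, hz])
    (h.lper_pos hs hx) with h1 | h1
  · exfalso
    rw [h1] at ht
    exact (mem_outA.1 ht).2 (mem_bdA.1 hx).2.1
  · exact h1

/-! ### keeping the links in `S` -/

/-- the outer part, when only the boundary darts in `S` are used -/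
noncomputable def outS (G : CG V D) (A : Finset D) (al' : D → D) (Y : Finset V)
    (S : Finset D) : Finset D :=
  (outA G A Y).filter fun d => ∀ x ∈ bdA G A Y, Lc G A al' Y x d → x ∈ S

variable {S : Finset D}

lemma mem_outS {d : D} : d ∈ outS G A al' Y S ↔ d ∈ outA G A Y ∧
    ∀ x ∈ bdA G A Y, Lc G A al' Y x d → x ∈ S := by
  unfold outS; rw [mem_filter]

lemma outS_sub : outS G A al' Y S ⊆ A := fun _ hd => (mem_outA.1 (mem_outS.1 hd).1).1

lemma outS_pi {d : D} (hd : d ∈ outS G A al' Y S) : G.pi d ∉ Y :=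
  (mem_outA.1 (mem_outS.1 hd).1).2

include h hs in
lemma outS_al' {d : D} (hd : d ∈ outS G A al' Y S) : al' d ∈ outS G A al' Y S := by
  rw [mem_outS] at hd ⊢
  refine ⟨h.al'_out hs hd.1, fun x hx hc => hd.2 x hx ?_⟩
  have h1 := TwoInv.cmp_g (h.lg_inv hs) hc
  rw [lg_out (h.al'_out hs hd.1), h.inv' d (mem_outA.1 hd.1).1] at h1
  exact h1

include h hs in
lemma outS_al {d : D} (hd : d ∈ outS G A al' Y S) :
    G.al d ∈ outS G A al' Y S ∨ (G.al d ∈ bdA G A Y ∧ G.al d ∈ S) := by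
  rw [mem_outS] at hd
  have hA := (mem_outA.1 hd.1).1
  rcases h.al_out_or (Or.inl hd.1) with h1 | h1
  · left
    rw [mem_outS]
    refine ⟨h1, fun x hx hc => hd.2 x hx ?_⟩
    have h2 := TwoInv.cmp_f h.lf_inv (h.lg_inv hs) (lg_bd hx) hc
    rw [lf_out h1, G.al_al d (h.sub hA)] at h2
    exact h2
  · right
    refine ⟨h1, hd.2 _ h1 ?_⟩
    have h2 := TwoInv.cmp_f h.lf_inv (h.lg_inv hs) (lg_bd h1)
      (TwoInv.cmp_self (f := lf G A Y) (g := lg G A al' Y) (x := G.al d))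
    rw [lf_bd h1, G.al_al d (h.sub hA)] at h2
    exact h2

include h hs in
/-- if `S` is closed under the linking then its darts lead to the outer part -/
lemma al_S (hS : ∀ x, Lkd G A al' Y x → lk G A al' Y x ∈ S → x ∈ S) {x : D}
    (hx : x ∈ bdA G A Y) (hxS : x ∈ S) : G.al x ∈ outS G A al' Y S := by
  have hxx := mem_bdA.1 hx
  rw [mem_outS]
  refine ⟨mem_outA.2 ⟨h.cl x hxx.1, hxx.2.2⟩, fun y hy hc => ?_⟩
  have h2 := TwoInv.cmp_f h.lf_inv (h.lg_inv hs) (lg_bd hy) hc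
  rw [lf_out (mem_outA.2 ⟨h.cl x hxx.1, hxx.2.2⟩), G.al_al x (h.sub hxx.1)] at h2
  rcases h.lc_bd hs hy hx h2 with h3 | ⟨h3, h4⟩
  · rw [← h3]; exact hxS
  · exact hS y h3 (h4 ▸ hxS)

/-- a killed token outside `Y` which is kept -/
lemma tok_outS (h : G.KD A al' p) (hs : Sat G A al' Y) {t : D} (ht : t ∈ outA G A Y)
    (htt : G.al t = t)
    (hx : ∀ x ∈ bdA G A Y, Lc G A al' Y x t →
      ¬ Even (minimalPeriod (TwoInv.pr (lf G A Y) (lg G A al' Y)) x) → x ∈ S) :
    t ∈ outS G A al' Y S :=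
  mem_outS.2 ⟨ht, fun x h1 h2 => hx x h1 h2 (h.lc_tok hs h1 h2 htt)⟩

/-- a landing dart outside `Y` which is kept -/
lemma land_outS (h : G.KD A al' p) (hs : Sat G A al' Y) {t : D} (ht : t ∈ outA G A Y)
    (htt : al' t = t) (hx : ∀ x ∈ bdA G A Y, lk G A al' Y x = t → x ∈ S) :
    t ∈ outS G A al' Y S :=
  mem_outS.2 ⟨ht, fun x h1 h2 => hx x h1 (h.lc_land hs h1 h2 ht htt).2.symm⟩

end links

/-! ### splicing -/

/-- a structure inside `Y` with boundary darts `S` -/
structure Inn (G : CG V D) (Y : Finset V) (S A1 : Finset D) (al1 p1 : D → D) : Prop where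
  sub : A1 ⊆ G.ds
  inY : ∀ d ∈ A1, G.pi d ∈ Y
  SA : S ⊆ A1
  cl : ∀ d ∈ A1, d ∉ S → G.al d ∈ A1
  cl' : ∀ d ∈ A1, al1 d ∈ A1
  inv' : ∀ d ∈ A1, al1 (al1 d) = d
  inj : ∀ d ∈ A1, ∀ e ∈ A1, G.pi d = G.pi e → d = e
  pair : ∀ d ∈ A1, al1 d ≠ d → p1 d ∈ G.ds ∧ p1 d ∉ A1 ∧ G.al (p1 d) ≠ p1 d ∧
    G.pi (p1 d) = G.pi d ∧ p1 (al1 d) = G.al (p1 d)

/-- the new pairing -/
noncomputable def spA (G : CG V D) (O A1 : Finset D) (al' al1 : D → D) (d : D) : D :=
  if d ∈ A1 then al1 d else if d ∈ O then al' d else G.al d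

/-- the new pair edges -/
noncomputable def spP (G : CG V D) (Y : Finset V) (p p1 : D → D) (d : D) : D :=
  if G.pi d ∈ Y then p1 d else p d

/-- **Splicing.** The inside of `Y` is replaced by another structure, the links in `S` are kept and
the others are omitted. -/
theorem splice (h : G.KD A al' p) {Y : Finset V} (hs : Sat G A al' Y) {S : Finset D}
    (hSB : S ⊆ bdA G A Y) (hS : ∀ x, Lkd G A al' Y x → lk G A al' Y x ∈ S → x ∈ S)
    {A1 : Finset D} {al1 p1 : D → D} (hi : Inn G Y S A1 al1 p1) :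
    G.KD (outS G A al' Y S ∪ A1) (spA G (outS G A al' Y S) A1 al' al1) (spP G Y p p1) := by
  set O := outS G A al' Y S with hO
  have hOA : ∀ d ∈ O, d ∉ A1 := fun d hd h1 => outS_pi hd (hi.inY d h1)
  have hAO : ∀ d ∈ A1, d ∉ O := fun d hd h1 => hOA d h1 hd
  have e1 : ∀ d ∈ A1, spA G O A1 al' al1 d = al1 d := fun d hd => by
    unfold spA; rw [if_pos hd]
  have e2 : ∀ d ∈ O, spA G O A1 al' al1 d = al' d := fun d hd => by
    unfold spA; rw [if_neg (hOA d hd), if_pos hd]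
  have e3 : ∀ d ∈ A1, spP G Y p p1 d = p1 d := fun d hd => by
    unfold spP; rw [if_pos (hi.inY d hd)]
  have e4 : ∀ d ∈ O, spP G Y p p1 d = p d := fun d hd => by
    unfold spP; rw [if_neg (outS_pi hd)]
  have e5 : ∀ d ∈ O, al' d ∈ O := fun d hd => h.outS_al' hs hd
  refine ⟨?_, ?_, ?_, ?_, ?_, ?_, ?_⟩
  · exact union_subset (outS_sub.trans h.sub) hi.sub
  · intro d hd
    rw [mem_union] at hd ⊢
    rcases hd with hd | hd
    · rcases h.outS_al hs hd with h1 | ⟨-, h1⟩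
      · exact Or.inl h1
      · exact Or.inr (hi.SA h1)
    · by_cases hdS : d ∈ S
      · exact Or.inl (h.al_S hs hS (hSB hdS) hdS)
      · exact Or.inr (hi.cl d hd hdS)
  · intro d hd
    rw [mem_union] at hd ⊢
    rcases hd with hd | hd
    · rw [e2 d hd]; exact Or.inl (e5 d hd)
    · rw [e1 d hd]; exact Or.inr (hi.cl' d hd)
  · intro d hd
    rw [mem_union] at hd
    rcases hd with hd | hd
    · rw [e2 d hd, e2 _ (e5 d hd)]
      exact h.inv' d (outS_sub hd)
    · rw [e1 d hd, e1 _ (hi.cl' d hd)]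
      exact hi.inv' d hd
  · intro d hd hA
    rw [mem_union, not_or] at hA
    unfold spA
    rw [if_neg hA.2, if_neg hA.1]
  · intro d hd e he hde
    rw [mem_union] at hd he
    rcases hd with hd | hd <;> rcases he with he | he
    · exact h.inj d (outS_sub hd) e (outS_sub he) hde
    · exact absurd (hi.inY e he) (by rw [← hde]; exact outS_pi hd)
    · exact absurd (hi.inY d hd) (by rw [hde]; exact outS_pi he)
    · exact hi.inj d hd e he hde
  · intro d hd hne
    rw [mem_union] at hd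
    rcases hd with hd | hd
    · rw [e2 d hd] at hne ⊢
      rw [e4 d hd, e4 _ (e5 d hd)]
      have hp := h.pair d (outS_sub hd) hne
      refine ⟨hp.1, ?_, hp.2.2⟩
      rw [mem_union, not_or]
      refine ⟨fun h1 => hp.2.1 (outS_sub h1), fun h1 => ?_⟩
      have := hi.inY _ h1
      rw [hp.2.2.2.1] at this
      exact outS_pi hd this
    · rw [e1 d hd] at hne ⊢
      rw [e3 d hd, e3 _ (hi.cl' d hd)]
      have hp := hi.pair d hd hne
      refine ⟨hp.1, ?_, hp.2.2⟩
      rw [mem_union, not_or]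
      refine ⟨fun h1 => ?_, hp.2.1⟩
      have := outS_pi h1
      rw [hp.2.2.2.1] at this
      exact this (hi.inY d hd)

/-- the old structure is of this form -/
lemma inn_self (h : G.KD A al' p) {Y : Finset V} (hs : Sat G A al' Y) :
    Inn G Y (bdA G A Y) (A.filter fun d => G.pi d ∈ Y) al' p := by
  refine ⟨?_, ?_, ?_, ?_, ?_, ?_, ?_, ?_⟩
  · exact (filter_subset _ _).trans h.sub
  · intro d hd; exact (mem_filter.1 hd).2
  · intro d hd
    rw [mem_bdA] at hd
    exact mem_filter.2 ⟨hd.1, hd.2.1⟩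
  · intro d hd hn
    rw [mem_filter] at hd ⊢
    refine ⟨h.cl d hd.1, ?_⟩
    by_contra hcon
    exact hn (mem_bdA.2 ⟨hd.1, hd.2, hcon⟩)
  · intro d hd
    rw [mem_filter] at hd ⊢
    refine ⟨h.cl' d hd.1, ?_⟩
    by_cases hf : al' d = d
    · rw [hf]; exact hd.2
    · exact (hs d hd.1 hf).1 hd.2
  · intro d hd; exact h.inv' d (mem_filter.1 hd).1
  · intro d hd e he; exact h.inj d (mem_filter.1 hd).1 e (mem_filter.1 he).1
  · intro d hd hne
    rw [mem_filter] at hd
    have hp := h.pair d hd.1 hne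
    exact ⟨hp.1, fun h1 => hp.2.1 (mem_filter.1 h1).1, hp.2.2⟩

/-- live degrees outside `Y` do not go down -/
lemma m_splice_out {Y : Finset V} {S A1 : Finset D} {al1 p1 : D → D}
    (hi : Inn G Y S A1 al1 p1) {X : Finset V} (hX : Disjoint X Y) :
    G.m A X ≤ G.m (outS G A al' Y S ∪ A1) X := by
  apply card_le_card
  intro d hd
  rw [mem_lv] at hd ⊢
  refine ⟨hd.1, hd.2.1, hd.2.2.1, fun h1 => ?_⟩
  rw [mem_union] at h1
  rcases h1 with h1 | h1
  · exact hd.2.2.2 (outS_sub h1)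
  · exact (disjoint_left.1 hX hd.2.1) (hi.inY d h1)

/-- live degrees inside `Y` only depend on the inner structure -/
lemma m_splice_in {Y : Finset V} {S A1 : Finset D} {X : Finset V} (hX : X ⊆ Y) :
    G.m (outS G A al' Y S ∪ A1) X = G.m A1 X := by
  unfold m
  congr 1
  ext d
  rw [mem_lv, mem_lv, mem_union]
  constructor
  · rintro ⟨a, b, c, e⟩
    exact ⟨a, b, c, fun h1 => e (Or.inr h1)⟩
  · rintro ⟨a, b, c, e⟩
    exact ⟨a, b, c, fun h1 => h1.elim (fun h2 => outS_pi h2 (hX b)) e⟩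

end KD

namespace TK

variable {G} {K : Finset V} {F A : Finset D} {al' p : D → D} {τ ζ c : D}

/-- at most one boundary dart leads to the start -/
lemma lead_unique (h : G.TK K F A al' p τ ζ c) {Y : Finset V} (hs : KD.Sat G A al' Y) {x y : D}
    (hx : x ∈ KD.bdA G A Y) (hy : y ∈ KD.bdA G A Y)
    (h1 : ¬ Even (minimalPeriod (TwoInv.pr (KD.lf G A Y) (KD.lg G A al' Y)) x))
    (h2 : ¬ Even (minimalPeriod (TwoInv.pr (KD.lf G A Y) (KD.lg G A al' Y)) y)) : y = x := by
  obtain ⟨t, ht, htt, hc⟩ := h.kd.lk_odd hs hx h1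
  obtain ⟨t', ht', htt', hc'⟩ := h.kd.lk_odd hs hy h2
  have e1 := h.tauU t (KD.mem_outA.1 ht).1 htt
  have e2 := h.tauU t' (KD.mem_outA.1 ht').1 htt'
  rw [e1] at hc
  rw [e2] at hc'
  rcases h.kd.lc_share hs hx hy hc hc' with h3 | ⟨h3, -⟩
  · exact h3
  · exact absurd h3.2.1 h1

/-- at most one boundary dart leads to the landing -/
lemma land_unique (h : G.TK K F A al' p τ ζ c) {Y : Finset V} (hs : KD.Sat G A al' Y) {x y : D}
    (hx : x ∈ KD.bdA G A Y) (hy : y ∈ KD.bdA G A Y) (hz : G.pi ζ ∉ Y)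
    (h1 : KD.Lc G A al' Y x ζ) (h2 : KD.Lc G A al' Y y ζ) : y = x := by
  have hzo : ζ ∈ KD.outA G A Y := KD.mem_outA.2 ⟨h.zetaA, hz⟩
  rcases h.kd.lc_share hs hx hy h1 h2 with h3 | ⟨h3, -⟩
  · exact h3
  · exfalso
    have h4 := (h.kd.lc_land hs hx h1 hzo h.zeta).2
    have h5 := h3.2.2
    rw [← h4] at h5
    exact hz (KD.mem_bdA.1 h5).2.1

/-- splicing a trail structure: what has to be checked is only the inside -/
theorem splice (h : G.TK K F A al' p τ ζ c) {Y : Finset V} (hs : KD.Sat G A al' Y)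
    {S : Finset D} (hSB : S ⊆ KD.bdA G A Y)
    (hS : ∀ x, KD.Lkd G A al' Y x → KD.lk G A al' Y x ∈ S → x ∈ S)
    {A1 : Finset D} {al1 p1 : D → D} (hi : KD.Inn G Y S A1 al1 p1) {ζ' : D}
    (hτ : τ ∈ KD.outS G A al' Y S ∪ A1) (hτU : ∀ d ∈ A1, G.al d = d → d = τ)
    (hζ' : (ζ' ∈ A1 ∧ al1 ζ' = ζ' ∧ (∀ d ∈ A1, al1 d = d → d = ζ') ∧
        ζ ∉ KD.outS G A al' Y S) ∨
      (ζ' = ζ ∧ ζ ∈ KD.outS G A al' Y S ∧ ∀ d ∈ A1, al1 d ≠ d))
    (hF : ∀ d ∈ A1, al1 d ≠ d → p1 d ∈ F ∨ (d = τ ∧ p1 d = c) ∨ (al1 d = τ ∧ p1 d = G.al c)) :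
    G.TK K F (KD.outS G A al' Y S ∪ A1) (KD.spA G (KD.outS G A al' Y S) A1 al' al1)
      (KD.spP G Y p p1) τ ζ' c := by
  set O := KD.outS G A al' Y S with hO
  have hOA : ∀ d ∈ O, d ∉ A1 := fun d hd h1 => KD.outS_pi hd (hi.inY d h1)
  have e1 : ∀ d ∈ A1, KD.spA G O A1 al' al1 d = al1 d := fun d hd => by
    unfold KD.spA; rw [if_pos hd]
  have e2 : ∀ d ∈ O, KD.spA G O A1 al' al1 d = al' d := fun d hd => by
    unfold KD.spA; rw [if_neg (hOA d hd), if_pos hd]
  have e3 : ∀ d ∈ A1, KD.spP G Y p p1 d = p1 d := fun d hd => by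
    unfold KD.spP; rw [if_pos (hi.inY d hd)]
  have e4 : ∀ d ∈ O, KD.spP G Y p p1 d = p d := fun d hd => by
    unfold KD.spP; rw [if_neg (KD.outS_pi hd)]
  refine ⟨h.kd.splice hs hSB hS hi, hτ, h.tau, ?_, ?_, ?_, ?_, ?_⟩
  · intro d hd hf
    rw [mem_union] at hd
    rcases hd with hd | hd
    · exact h.tauU d (KD.outS_sub hd) hf
    · exact hτU d hd hf
  · rcases hζ' with ⟨h1, -⟩ | ⟨h1, h2, -⟩
    · exact mem_union_right _ h1
    · rw [h1]; exact mem_union_left _ h2
  · rcases hζ' with ⟨h1, h2, -⟩ | ⟨h1, h2, -⟩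
    · rw [e1 _ h1]; exact h2
    · rw [h1, e2 _ h2]; exact h.zeta
  · intro d hd hf
    rw [mem_union] at hd
    rcases hζ' with ⟨h1, h2, h3, h4⟩ | ⟨h1, h2, h3⟩
    · rcases hd with hd | hd
      · rw [e2 d hd] at hf
        have := h.zetaU d (KD.outS_sub hd) hf
        exact absurd (this ▸ hd) h4
      · rw [e1 d hd] at hf
        exact h3 d hd hf
    · rcases hd with hd | hd
      · rw [e2 d hd] at hf
        rw [h1]
        exact h.zetaU d (KD.outS_sub hd) hf
      · rw [e1 d hd] at hf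
        exact absurd hf (h3 d hd)
  · intro d hd hne
    rw [mem_union] at hd
    rcases hd with hd | hd
    · rw [e2 d hd] at hne ⊢
      rw [e4 d hd]
      exact h.pF d (KD.outS_sub hd) hne
    · rw [e1 d hd] at hne ⊢
      rw [e3 d hd]
      exact hF d hd hne

/-- the number of killed boundary darts modulo 2 -/
lemma bd_parity (h : G.TK K F A al' p τ ζ c) {Y : Finset V} (hs : KD.Sat G A al' Y) :
    ((KD.bdA G A Y).card + (if G.pi τ ∈ Y then 0 else 1) + (if G.pi ζ ∈ Y then 0 else 1)) % 2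
      = 0 := by
  set O := KD.outA G A Y with hO
  set B := KD.bdA G A Y with hB
  have hdis : Disjoint O B := by
    rw [disjoint_left]
    intro d h1 h2
    exact (KD.mem_outA.1 h1).2 (KD.mem_bdA.1 h2).2.1
  -- first involution
  have e1 : ((O ∪ B).erase τ).card % 2 = 0 := by
    rw [← Nat.even_iff]
    apply G.even_of_closed
    · intro d hd
      rw [mem_erase, mem_union] at hd
      rcases hd.2 with h1 | h1
      · exact h.kd.sub (KD.mem_outA.1 h1).1
      · exact h.kd.sub (KD.mem_bdA.1 h1).1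
    · intro d hd
      rw [mem_erase, mem_union] at hd ⊢
      have hA : d ∈ A := by
        rcases hd.2 with h1 | h1
        · exact (KD.mem_outA.1 h1).1
        · exact (KD.mem_bdA.1 h1).1
      refine ⟨fun he => hd.1 ?_, h.kd.al_out_or hd.2⟩
      rw [← G.al_al d (h.kd.sub hA), he, h.tau]
    · intro d hd he
      rw [mem_erase, mem_union] at hd
      have hA : d ∈ A := by
        rcases hd.2 with h1 | h1
        · exact (KD.mem_outA.1 h1).1
        · exact (KD.mem_bdA.1 h1).1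
      exact hd.1 (h.tauU d hA he)
  have e2 : (O.erase ζ).card % 2 = 0 := by
    rw [← Nat.even_iff]
    apply h.kd.gr.even_of_closed
    · intro d hd
      rw [mem_erase] at hd
      exact h.kd.sub (KD.mem_outA.1 hd.2).1
    · intro d hd
      rw [mem_erase] at hd ⊢
      have hA := (KD.mem_outA.1 hd.2).1
      rw [KD.gr_al]
      refine ⟨fun he => hd.1 ?_, h.kd.al'_out hs hd.2⟩
      rw [← h.kd.inv' d hA, he, h.zeta]
    · intro d hd he
      rw [mem_erase] at hd
      exact hd.1 (h.zetaU d (KD.mem_outA.1 hd.2).1 he)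
  have hτB : τ ∉ B := fun h1 => by
    have := KD.mem_bdA.1 h1
    rw [h.tau] at this
    exact this.2.2 this.2.1
  have c1 : ((O ∪ B).erase τ).card + (if G.pi τ ∈ Y then 0 else 1) = O.card + B.card := by
    rw [← card_union_of_disjoint hdis]
    by_cases ht : G.pi τ ∈ Y
    · rw [if_pos ht, add_zero, erase_eq_of_notMem]
      rw [mem_union, not_or]
      exact ⟨fun h1 => (KD.mem_outA.1 h1).2 ht, hτB⟩
    · rw [if_neg ht, card_erase_add_one]
      exact mem_union_left _ (KD.mem_outA.2 ⟨h.tauA, ht⟩)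
  have c2 : (O.erase ζ).card + (if G.pi ζ ∈ Y then 0 else 1) = O.card := by
    by_cases ht : G.pi ζ ∈ Y
    · rw [if_pos ht, add_zero, erase_eq_of_notMem]
      exact fun h1 => (KD.mem_outA.1 h1).2 ht
    · rw [if_neg ht, card_erase_add_one]
      exact KD.mem_outA.2 ⟨h.zetaA, ht⟩
  omega

end TK

end JK.CG
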