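import Pool.Agent.Lib.JK.PotR

/-! The local induction: if every thin set admits a first structure then every thin set can be
re-solved. -/

set_option autoImplicit false

namespace JK.CG

open Finset Classical

variable {V D : Type*} {G : CG V D} {F : Finset D}

/-- `A2` re-solves `Z` (starting from `A`): nothing new is killed outside `Z`, live tokens at `Z` stay
live -/
structure Rel (G : CG V D) (A A2 : Finset D) (Z : Finset V) : Prop where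
  out : ∀ d ∈ A2, G.pi d ∉ Z → d ∈ A
  lv : ∀ g ∈ G.lv A Z, G.al g = g → g ∉ A2

/-- composition -/
lemma Rel.trans {A A1 A2 : Finset D} {Y Z : Finset V} (h : Rel G A A1 Z) (hYZ : Y ⊆ Z)
    (h2 : Rel G A1 A2 Y) : Rel G A A2 Z := by
  refine ⟨fun d hd hZ => h.out d (h2.out d hd fun h3 => hZ (hYZ h3)) hZ, fun g hg ht h3 => ?_⟩
  have hg1 := h.lv g hg ht
  have hg' := (G.mem_lv).1 hg
  by_cases hY : G.pi g ∈ Y
  · exact h2.lv g ((G.mem_lv).2 ⟨hg'.1, hY, Or.inr ht, hg1⟩) ht h3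
  · exact hg1 (h2.out g h3 hY)

/-- a re-solution of `Z`: no live bridge inside `Z`, and `CSR` -/
structure Sol (G : CG V D) (F : Finset D) (P : Finset D → Prop) (A A2 : Finset D) (Z : Finset V) :
    Prop where
  pr : P A2
  rel : Rel G A A2 Z
  hin : ∀ W ⊆ Z, G.m A2 W ≠ 1
  hS : G.CSR Z F A2

/-- `LOC` from the existence of a first structure (`EX`). `Gd` is a property of sets which is
inherited by `F`-closed subsets (for example: avoids `T`). -/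
theorem loc_of_ex {P : Finset D → Prop} {Gd : Finset V → Prop} (hF : F ⊆ G.ds)
    (hFa : ∀ d ∈ F, G.al d ∈ F) (hP : ∀ A, P A → ∀ d ∈ A, G.al d ∈ A)
    (hGs : ∀ Z, Gd Z → Z ⊆ G.vs)
    (hG : ∀ Z Y, Gd Z → Y ⊆ Z → (∀ d ∈ F, G.pi d ∈ Y → G.pi (G.al d) ∈ Y) → Gd Y)
    (ex : ∀ Z, Gd Z → (∀ d ∈ F, G.pi d ∈ Z → G.pi (G.al d) ∈ Z) →
      (∀ Y ⊆ Z, Y ≠ Z → Gd Y → ∀ A, P A → G.m A Y ≤ 1 → G.CLR Y F A →
        (∀ d ∈ F, G.pi d ∈ Y → G.pi (G.al d) ∈ Y) → ∃ A2, Sol G F P A A2 Y) →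
      ∀ A, P A → G.m A Z ≤ 1 → G.CLR Z F A →
      (∃ A2, Sol G F P A A2 Z) ∨
        ∃ A', P A' ∧ Rel G A A' Z ∧ G.CLR Z F A' ∧ G.CSR Z F A' ∧ 2 ≤ G.m A' Z)
    (Z : Finset V) (hZ : Gd Z) (hZF : ∀ d ∈ F, G.pi d ∈ Z → G.pi (G.al d) ∈ Z)
    (A : Finset D) (hPA : P A) (hm : G.m A Z ≤ 1) (hc : G.CLR Z F A) :
    ∃ A2, Sol G F P A A2 Z := by
  induction hn : Z.card using Nat.strong_induction_on generalizing Z A with
  | _ n ih =>
    have hloc : ∀ Y ⊆ Z, Y ≠ Z → Gd Y → ∀ A, P A → G.m A Y ≤ 1 → G.CLR Y F A →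
        (∀ d ∈ F, G.pi d ∈ Y → G.pi (G.al d) ∈ Y) → ∃ A2, Sol G F P A A2 Y := by
      intro Y hYZ hne hGY A1 hP1 hm1 hc1 hYF
      have hlt : Y.card < n := by
        rw [← hn]
        exact card_lt_card (hYZ.ssubset_of_ne hne)
      exact ih _ hlt Y hGY hYF A1 hP1 hm1 hc1 rfl
    rcases ex Z hZ hZF hloc A hPA hm hc with h | ⟨A', h1, h2, h3, h4, h5⟩
    · exact h
    obtain ⟨A2, hA2, h6, h7, h8, h9⟩ := exists_final_rel (G := G) (F := F) (Z := Z)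
      (P := fun B => P B ∧ Rel G A B Z) hF hFa (hGs Z hZ) (fun B hB => hP B hB.1)
      ⟨A', ⟨h1, h2⟩, h3, h4, h5⟩ (by
        intro B hB hcB Y hYZ hne hmY hYF
        obtain ⟨B2, hB2⟩ := hloc Y hYZ hne (hG Z Y hZ hYZ hYF) B hB.1 hmY
          (fun W hW => hcB W ⟨hW.1.trans hYZ, hW.2⟩) hYF
        exact ⟨B2, ⟨hB2.pr, hB.2.trans hYZ hB2.rel⟩, hB2.rel.out, hB2.rel.lv, hB2.hin, hB2.hS⟩)
    exact ⟨A2, hA2.1, hA2.2, h9, h7⟩

end JK.CG
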