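import Pool.Agent.Lib.JK.Norm
import Pool.Agent.Lib.JK.Tok
import Pool.Agent.Lib.JK.JoinS

/-! Minimal counterexamples with respect to (number of vertices, number of fresh vertices). -/

set_option autoImplicit false

namespace JK.CG

open Finset Classical

variable {V D : Type*}

/-- the number of vertices which are not absorbed -/
noncomputable def mu (G : CG V D) (K : Finset V) (F : Finset D) : ℕ :=
  (G.vs.filter fun v => ¬ G.Abs K F v).card

lemma mu_le {G G' : CG V D} {K K' : Finset V} {F F' : Finset D} (hv : G'.vs = G.vs)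
    (h : ∀ Z, G'.Adm K' F' Z → G.Adm K F Z) : mu G' K' F' ≤ mu G K F := by
  unfold mu
  apply card_le_card
  intro v hv'
  rw [mem_filter] at hv' ⊢
  refine ⟨hv ▸ hv'.1, fun ha => hv'.2 ?_⟩
  intro Z hZ
  exact ha Z (h Z hZ)

/-- minimal counterexample, order (|vs|, mu), then `K` maximal -/
structure MC2 (G : CG V D) (K : Finset V) (F : Finset D) : Prop extends G.MC K F where
  ih2 : ∀ (G' : CG V D) (K' : Finset V) (F' : Finset D), G'.vs.card = G.vs.card → G'.Inst K' F' →
    mu G' K' F' < mu G K F → ∃ M, G'.Good K' F' M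

/-- `four_suffices` with the additional information that the new instance absorbs at least as
much -/
theorem four_suffices2 (G : CG V D) {K : Finset V} {F : Finset D} (hI : G.Inst K F)
    (h : ∀ (G' : CG V D) (K' : Finset V) (F' : Finset D), G'.vs = G.vs → G'.Inst K' F' →
      (G'.tk G'.vs).card = 4 → (∀ Z, G'.Adm K' F' Z → G.Adm K F Z) → ∃ M, G'.Good K' F' M) :
    ∃ M, G.Good K F M := by
  have hbdv : G.bd G.vs = ∅ := by
    rw [Finset.eq_empty_iff_forall_notMem]
    intro d hd
    unfold bd at hd
    rw [mem_filter] at hd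
    exact hd.2.2 (G.pi_mem _ (G.al_mem d hd.1))
  have hpar : Even (G.tk G.vs).card := by
    have h1 := G.dg_parity (X := G.vs) (Finset.Subset.refl _)
    have h2 : G.dg G.vs = (G.tk G.vs).card := by
      unfold dg
      rw [hbdv]
      simp
    rw [h2] at h1
    rw [← Nat.not_odd_iff_even, h1, Nat.not_odd_iff_even]
    exact hI.even
  have hfour := hI.four
  obtain ht | ht | ht : (G.tk G.vs).card = 4 ∨ (G.tk G.vs).card = 2 ∨ (G.tk G.vs).card = 0 := by
    obtain ⟨k, hk⟩ := hpar
    omega
  · exact h G K F rfl hI ht (fun _ hZ => hZ)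
  · -- two tokens
    obtain ⟨σ, hσ⟩ : (G.tk G.vs).Nonempty := by
      rw [← Finset.card_pos]; omega
    have hσ' := hσ
    unfold tk at hσ'
    rw [mem_filter] at hσ'
    obtain ⟨hσd, hσv, hσt⟩ := hσ'
    obtain ⟨s, hs⟩ : ∃ s, s = G.pi σ := ⟨_, rfl⟩
    have hsv : s ∈ G.vs := by rw [hs]; exact hσv
    have hsK : s ∈ K := by rw [hs]; exact hI.cls.tokK σ hσd hσt
    -- a second dart at s which is not a token
    obtain ⟨u, hud, hus, hut⟩ : ∃ u, u ∈ G.ds ∧ G.pi u = s ∧ G.al u ≠ u := by
      by_contra hcon
      push Not at hcon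
      have h3 : (G.ds.filter fun d => G.pi d = s) ⊆ G.tk G.vs := by
        intro d hd
        rw [mem_filter] at hd
        unfold tk
        rw [mem_filter]
        exact ⟨hd.1, by rw [hd.2]; exact hsv, hcon d hd.1 hd.2⟩
      have h4 := Finset.card_le_card h3
      rw [G.cubic s hsv] at h4
      omega
    have hAu : ∀ d ∈ ({u, G.al u} : Finset D), G.al d ∈ ({u, G.al u} : Finset D) := by
      intro d hd
      rw [mem_insert, mem_singleton] at hd ⊢
      rcases hd with rfl | rfl
      · right; rfl
      · left; exact G.al_al u hud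
    have hAd : ({u, G.al u} : Finset D) ⊆ G.ds := by
      intro d hd
      rw [mem_insert, mem_singleton] at hd
      rcases hd with rfl | rfl
      · exact hud
      · exact G.al_mem _ hud
    have hAn : ∀ d ∈ ({u, G.al u} : Finset D), G.al d ≠ d := by
      intro d hd
      rw [mem_insert, mem_singleton] at hd
      rcases hd with rfl | rfl
      · exact hut
      · rw [G.al_al u hud]; exact hut.symm
    have hAc : ({u, G.al u} : Finset D).card = 2 := Finset.card_pair hut.symm
    have hI' := tok_cut G hI hAu hAd hAn (by rw [ht, hAc])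
    obtain ⟨M, hM⟩ := h (G.cutS _ hAu) _ _ rfl hI' (by
      have h2 : (G.cutS _ hAu).vs = G.vs := rfl
      rw [h2, cutS_tk_card hAu hAd hAn, ht, hAc])
      (fun Z hZ => ((cutS_adm hAu hAd hI.cls).1 hZ).1)
    refine ⟨M, ((cutS_pm hAu).1 hM.pm).1, ?_⟩
    intro Z hZ ho
    refine tok_hit G hI hAu hAd (x := s) ?_ hM hZ ho (fun hsZ => hZ.dis s hsZ hsK)
    intro d hd
    rw [mem_insert, mem_singleton] at hd
    rcases hd with rfl | rfl
    · left; exact hus
    · right; rw [G.al_al u hud]; exact hus
  · -- no token
    have hnt : ∀ d ∈ G.ds, G.al d ≠ d := by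
      intro d hd hdt
      have : d ∈ G.tk G.vs := by
        unfold tk
        rw [mem_filter]
        exact ⟨hd, G.pi_mem d hd, hdt⟩
      rw [Finset.card_eq_zero] at ht
      rw [ht] at this
      simp at this
    rcases Finset.eq_empty_or_nonempty G.vs with hv | hv
    · refine ⟨∅, ⟨by simp, by simp, by simp, ?_⟩, ?_⟩
      · intro v hvv
        rw [hv] at hvv
        simp at hvv
      · intro Z hZ ho
        have h1 := hZ.sub
        rw [hv] at h1
        have h2 : Z = ∅ := Finset.subset_empty.1 h1
        rw [h2] at ho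
        simp at ho
    · obtain ⟨x, hxv, hxK⟩ : ∃ x ∈ G.vs, x ∈ K ∨ K = ∅ := by
        rcases Finset.eq_empty_or_nonempty K with hK | hK
        · obtain ⟨x, hx⟩ := hv
          exact ⟨x, hx, Or.inr hK⟩
        · obtain ⟨x, hx⟩ := hK
          exact ⟨x, hI.cls.Ksub hx, Or.inl hx⟩
      obtain ⟨a, b, c, hab, hac, hbc, habc⟩ := Finset.card_eq_three.1 (G.cubic x hxv)
      have ha : a ∈ G.ds ∧ G.pi a = x := by
        have : a ∈ (G.ds.filter fun d => G.pi d = x) := by rw [habc]; simp
        simpa using this
      have hb : b ∈ G.ds ∧ G.pi b = x := by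
        have : b ∈ (G.ds.filter fun d => G.pi d = x) := by rw [habc]; simp
        simpa using this
      have hla : G.pi (G.al a) ≠ x := by
        have := hI.b0.no_loop ha.1 (hnt a ha.1)
        rwa [ha.2] at this
      have hlb : G.pi (G.al b) ≠ x := by
        have := hI.b0.no_loop hb.1 (hnt b hb.1)
        rwa [hb.2] at this
      obtain ⟨A, hAe⟩ : ∃ A : Finset D, A = {a, G.al a, b, G.al b} := ⟨_, rfl⟩
      have hmA : ∀ d, d ∈ A ↔ d = a ∨ d = G.al a ∨ d = b ∨ d = G.al b := by
        intro d
        rw [hAe]
        simp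
      have hAA : ∀ d ∈ A, G.al d ∈ A := by
        intro d hd
        rw [hmA] at hd ⊢
        rcases hd with rfl | rfl | rfl | rfl
        · simp
        · left; exact G.al_al a ha.1
        · simp
        · right; right; left; exact G.al_al b hb.1
      have hAd : A ⊆ G.ds := by
        intro d hd
        rw [hmA] at hd
        rcases hd with rfl | rfl | rfl | rfl
        · exact ha.1
        · exact G.al_mem _ ha.1
        · exact hb.1
        · exact G.al_mem _ hb.1
      have hAn : ∀ d ∈ A, G.al d ≠ d := fun d hd => hnt d (hAd hd)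
      have hAc : A.card = 4 := by
        rw [hAe]
        have h1 : G.al a ≠ a := hnt a ha.1
        have h2 : G.al b ≠ b := hnt b hb.1
        have h3 : G.al a ≠ b := fun h0 => hla (by rw [h0]; exact hb.2)
        have h4 : G.al b ≠ a := fun h0 => hlb (by rw [h0]; exact ha.2)
        have h5 : G.al a ≠ G.al b := fun h0 => hab (by
          rw [← G.al_al a ha.1, h0, G.al_al b hb.1])
        rw [Finset.card_insert_of_notMem, Finset.card_insert_of_notMem, Finset.card_pair h2.symm]
        · simp [h3, h5]
        · simp [h1.symm, hab, h4.symm]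
      have hI' := tok_cut G hI hAA hAd hAn (by rw [ht, hAc])
      obtain ⟨M, hM⟩ := h (G.cutS _ hAA) _ _ rfl hI' (by
        have h2 : (G.cutS _ hAA).vs = G.vs := rfl
        rw [h2, cutS_tk_card hAA hAd hAn, ht, hAc])
        (fun Z hZ => ((cutS_adm hAA hAd hI.cls).1 hZ).1)
      have hpm := ((cutS_pm hAA).1 hM.pm).1
      have hxA : ∀ d ∈ A, G.pi d = x ∨ G.pi (G.al d) = x := by
        intro d hd
        rw [hmA] at hd
        rcases hd with rfl | rfl | rfl | rfl
        · left; exact ha.2
        · right; rw [G.al_al a ha.1]; exact ha.2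
        · left; exact hb.2
        · right; rw [G.al_al b hb.1]; exact hb.2
      refine ⟨M, hpm, ?_⟩
      intro Z hZ ho
      by_cases hxZ : x ∈ Z
      · have hK0 : K = ∅ := by
          rcases hxK with h1 | h1
          · exact absurd h1 (hZ.dis x hxZ)
          · exact h1
        have hZ' : G.Adm K F (G.vs \ Z) := by
          refine ⟨Finset.sdiff_subset, ?_, ?_⟩
          · intro v _
            rw [hK0]
            simp
          · intro d hd hdZ
            rw [mem_sdiff] at hdZ ⊢
            refine ⟨G.pi_mem _ (G.al_mem d (hI.cls.Fsub hd)), fun h1 => hdZ.2 ?_⟩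
            have h2 := hZ.clo (G.al d) (hI.cls.Fal d hd) h1
            rwa [G.al_al d (hI.cls.Fsub hd)] at h2
        have ho' : Odd (G.vs \ Z).card := by
          rw [Finset.card_sdiff_of_subset hZ.sub]
          have h1 := Finset.card_le_card hZ.sub
          have h2 := hI.even
          rw [Nat.odd_iff] at ho ⊢
          rw [Nat.even_iff] at h2
          omega
        obtain ⟨d, hd, hdM⟩ := tok_hit G hI hAA hAd hxA hM hZ' ho' (by
          rw [mem_sdiff]
          exact fun h1 => h1.2 hxZ)
        unfold bd at hd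
        rw [mem_filter, mem_sdiff, mem_sdiff] at hd
        obtain ⟨hd1, ⟨hd2, hd3⟩, hd4⟩ := hd
        refine ⟨G.al d, ?_, ?_⟩
        · unfold bd
          rw [mem_filter, G.al_al d hd1]
          refine ⟨G.al_mem d hd1, ?_, hd3⟩
          by_contra h1
          exact hd4 ⟨G.pi_mem _ (G.al_mem d hd1), h1⟩
        · intro h1
          have h2 := hpm.closed _ h1
          rw [G.al_al d hd1] at h2
          exact hdM h2
      · exact tok_hit G hI hAA hAd hxA hM hZ ho hxZ

/-- as `main_of`, with the order (|vs|, mu). -/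
theorem main_of2 (h : ∀ (G : CG V D) (K : Finset V) (F : Finset D), ¬ MC2 G K F)
    (G : CG V D) (K : Finset V) (F : Finset D) (hI : G.Inst K F) : ∃ M, G.Good K F M := by
  have key : ∀ n : ℕ, ∀ (G : CG V D) (K : Finset V) (F : Finset D), G.vs.card = n → G.Inst K F →
      ∃ M, G.Good K F M := by
    intro n
    induction n using Nat.strong_induction_on with
    | _ n ihn =>
      have key1 : ∀ m : ℕ, ∀ (G : CG V D) (K : Finset V) (F : Finset D), G.vs.card = n →
          mu G K F = m → G.Inst K F → ∃ M, G.Good K F M := by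
        intro m
        induction m using Nat.strong_induction_on with
        | _ m ihm =>
          intro G K F hn hm hI
          refine G.four_suffices2 hI ?_
          intro G' K' F' hvs hI' h4 hAd
          have hn' : G'.vs.card = n := by rw [hvs, hn]
          have hmu : mu G' K' F' ≤ m := hm ▸ mu_le hvs hAd
          have key2 : ∀ k : ℕ, ∀ K' : Finset V, (G'.vs \ K').card = k → G'.Inst K' F' →
              mu G' K' F' ≤ m → ∃ M, G'.Good K' F' M := by
            intro k
            induction k using Nat.strong_induction_on with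
            | _ k ihk =>
              intro K' hk hI' hmu
              by_contra hno
              refine h G' K' F' ⟨⟨hI', h4, ?_, hno, ?_⟩, ?_⟩
              · intro G'' K'' F'' hlt hI''
                exact ihn G''.vs.card (by rw [hn'] at hlt; exact hlt) G'' K'' F'' rfl hI''
              · intro c hc hcK hIc
                refine ihk _ ?_ (insert c K') rfl hIc (le_trans (mu_le rfl ?_) hmu)
                · rw [← hk]
                  apply Finset.card_lt_card
                  refine ⟨fun v hv => ?_, fun hh => ?_⟩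
                  · rw [mem_sdiff, mem_insert, not_or] at hv
                    exact mem_sdiff.2 ⟨hv.1, hv.2.2⟩
                  · have := hh (mem_sdiff.2 ⟨hc, hcK⟩)
                    rw [mem_sdiff, mem_insert, not_or] at this
                    exact this.2.1 rfl
                · intro Z hZ
                  exact (adm_ins.1 hZ).1
              · intro G'' K'' F'' hc hI'' hlt
                exact ihm (mu G'' K'' F'') (lt_of_lt_of_le hlt hmu) G'' K'' F''
                  (hc.trans hn') rfl hI''
          exact key2 _ K' rfl hI' hmu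
      intro G K F hn hI
      exact key1 _ G K F hn rfl hI
  exact key _ G K F rfl hI

lemma mu_full {G : CG V D} {K : Finset V} {F : Finset D} :
    mu G (G.fullK K F) (G.fullF K F) = mu G K F := by
  unfold mu
  congr 1
  apply filter_congr
  intro v _
  rw [abs_full]

theorem MC2.full {G : CG V D} {K : Finset V} {F : Finset D} (h : MC2 G K F) :
    MC2 G (G.fullK K F) (G.fullF K F) := by
  refine ⟨h.toMC.full, ?_⟩
  intro G' K' F' hc hI hlt
  rw [mu_full] at hlt
  exact h.ih2 G' K' F' hc hI hlt

theorem MC2.exists_full {G : CG V D} {K : Finset V} {F : Finset D} (h : MC2 G K F) :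
    ∃ K' F', MC2 G K' F' ∧ G.Full K' F' :=
  ⟨_, _, h.full, full_full⟩

/-- **killing finishes**: there is no bridgeless trail structure in a minimal counterexample.
`exists_joined`, then `KD.inst` and `KD.good` for `kd.gr` with `K ∪ tch G A`, `F \ A`; `mu` is smaller
because `pi (al' τ)` is touched and fresh: `al' τ ≠ τ` (`zetaU`), there is no dart of `F` at `pi τ`
(`Full`, `tokK`), so `p τ = c` and `pi (al' τ) = pi (al c)`. -/
theorem MC2.kill {G : CG V D} {K : Finset V} {F : Finset D} (h : MC2 G K F) (hf : G.Full K F)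
    {τ ζ c : D} (hz : ζ ≠ τ) (hc : G.pi (G.al c) ∉ K)
    (hL : ∀ Z, G.Adm K F Z → G.pi ζ ∈ Z → G.pi (G.al c) ∈ Z →
      ∃ d2 ∈ G.bd Z, G.pi (G.al d2) = G.pi τ ∧ d2 ≠ G.al c)
    (hex : ∃ A al' p, ∃ t : G.TK K F A al' p τ ζ c, t.kd.gr.B0) : False := by
  have hI := h.inst
  obtain ⟨A, al', p, t, hb, hj⟩ := exists_joined G hI.cls hL hex
  have hcard : (A.filter fun d => al' d = d).card ≤ (A.filter fun d => G.al d = d).card := by
    have h1 : (A.filter fun d => al' d = d) ⊆ {ζ} := by
      intro d hd
      rw [mem_filter] at hd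
      rw [mem_singleton]
      exact t.zetaU d hd.1 hd.2
    have h2 : ({τ} : Finset D) ⊆ A.filter fun d => G.al d = d := by
      intro d hd
      rw [mem_singleton] at hd
      rw [mem_filter, hd]
      exact ⟨t.tauA, t.tau⟩
    have h3 := card_le_card h1
    have h4 := card_le_card h2
    rw [card_singleton] at h3 h4
    omega
  have hI' := t.kd.inst hI hb hcard
  have hne : al' τ ≠ τ := fun he => hz (t.zetaU τ t.tauA he).symm
  have hpp := t.kd.pi_pair t.tauA hne
  have hpr := t.kd.pair τ t.tauA hne
  have hv0 : G.pi (al' τ) = G.pi (G.al c) := by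
    rcases t.pF τ t.tauA hne with h1 | ⟨-, h1⟩ | ⟨h1, -⟩
    · exfalso
      apply hf.out _ h1
      rw [hpr.2.2.2.1]
      exact hI.cls.tokK τ (t.kd.sub t.tauA) t.tau
    · rw [← hpp, h1]
    · exact absurd h1 hne
  have hat : al' τ ∈ A := t.kd.cl' τ t.tauA
  have hlt : mu t.kd.gr (K ∪ KD.tch G A) (F \ A) < mu G K F := by
    unfold mu
    apply card_lt_card
    refine ⟨?_, ?_⟩
    · intro v hv
      rw [mem_filter] at hv ⊢
      refine ⟨hv.1, fun ha => hv.2 ?_⟩
      intro Z hZ
      exact ha Z ((t.kd.adm_iff hI.cls).1 hZ).1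
    · intro hh
      have h1 : G.pi (al' τ) ∈ G.vs.filter fun v => ¬ G.Abs K F v := by
        rw [mem_filter]
        refine ⟨G.pi_mem _ (t.kd.sub hat), fun ha => hc ?_⟩
        rw [← hv0]
        exact hf.abs _ (G.pi_mem _ (t.kd.sub hat)) ha
      have h2 := hh h1
      rw [mem_filter] at h2
      apply h2.2
      intro Z hZ hv
      exact ((t.kd.adm_iff hI.cls).1 hZ).2 _ hv (KD.mem_tch.2 ⟨_, hat, rfl⟩)
  obtain ⟨M, hM⟩ := h.ih2 t.kd.gr _ _ rfl hI' hlt
  exact h.no ⟨_, t.kd.good hI.cls hj hM⟩

end JK.CG
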