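import Pool.Agent.Lib.JK.Final
import Pool.Agent.Lib.JK.MC2

/-! The frame: the trail theorem implies the frozen statement S11409. -/

set_option autoImplicit false

namespace JK

open Finset Classical

/-- the trail theorem: in a minimal counterexample in which everything absorbed is in `K` there is a
bridgeless trail structure starting at a token `τ`, with first pair `c` (whose far end is fresh) and
landing at `ζ ≠ τ` -/
def TrailThm : Prop := ∀ (V D : Type) (G : CG V D) (K : Finset V) (F : Finset D),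
  CG.MC2 G K F → G.Full K F → ∃ τ ζ c : D, ζ ≠ τ ∧ G.pi (G.al c) ∉ K ∧
    (∀ Z, G.Adm K F Z → G.pi ζ ∈ Z → G.pi (G.al c) ∈ Z →
      ∃ d2 ∈ G.bd Z, G.pi (G.al d2) = G.pi τ ∧ d2 ≠ G.al c) ∧
    ∃ A al' p, ∃ t : G.TK K F A al' p τ ζ c, t.kd.gr.B0

/-- no minimal counterexample -/
theorem TrailThm.noMC (h : TrailThm) (V D : Type) (G : CG V D) (K : Finset V) (F : Finset D) :
    ¬ CG.MC2 G K F := by
  intro hm
  obtain ⟨K', F', hm', hf⟩ := hm.exists_full
  obtain ⟨τ, ζ, c, h1, h2, h3, h4⟩ := h V D G K' F' hm' hf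
  exact hm'.kill hf h1 h2 h3 h4

/-- the main theorem -/
theorem TrailThm.main (h : TrailThm) (V D : Type) (G : CG V D) (K : Finset V) (F : Finset D)
    (hI : G.Inst K F) : ∃ M, G.Good K F M :=
  CG.main_of2 (h.noMC V D) G K F hI

/-- the frozen statement -/
theorem TrailThm.final (h : TrailThm) :
    ∀ (V : Type) [Fintype V] (G : SimpleGraph V),
      (∀ v : V, (G.neighborSet v).ncard = 3) →
      (∀ v w : V, G.Adj v w → (G.deleteEdges {s(v, w)}).Reachable v w) →
      ∃ F₁ F₂ C : SimpleGraph V,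
        F₁ ≤ G ∧ F₂ ≤ G ∧ C ≤ G ∧
        (∀ v : V, (F₁.neighborSet v).ncard = 2) ∧
        (∀ v : V, (F₂.neighborSet v).ncard = 2) ∧
        (∀ v : V, Even ((C.neighborSet v).ncard)) ∧
        F₁ ⊔ F₂ ⊔ C = G :=
  JK.final fun V D G K F hI => h.main V D G K F hI

end JK
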