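import Pool.Agent.Lib.JK.Live
import Pool.Agent.Lib.JK.Alt

/-! Killed structures from sequences of darts (S5, MP_c95763_co).

`a 0, ..., a (n-1)` are the killed darts, at distinct vertices; `a (2i)` and `a (2i+1)` are the two ends
of the pair edge `f i`. If `n` is odd then the last dart becomes a token. -/

set_option autoImplicit false

namespace JK.CG

open Finset Classical

variable {V D : Type*} (G : CG V D)

namespace MkKD

/-- the partner of an index -/
def prt (n j : ℕ) : ℕ := if j % 2 = 0 then (if j + 1 < n then j + 1 else j) else j - 1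

lemma prt_lt {n j : ℕ} (h : j < n) : prt n j < n := by
  unfold prt
  split_ifs <;> omega

lemma prt_prt {n j : ℕ} (h : j < n) : prt n (prt n j) = j := by
  unfold prt
  split_ifs <;> omega

lemma prt_even {n i : ℕ} (h : 2 * i + 1 < n) : prt n (2 * i) = 2 * i + 1 := by
  unfold prt
  split_ifs <;> omega

lemma prt_odd {n i : ℕ} : prt n (2 * i + 1) = 2 * i := by
  unfold prt
  split_ifs <;> omega

lemma prt_last {n i : ℕ} (h : 2 * i + 1 = n) : prt n (2 * i) = 2 * i := by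
  unfold prt
  split_ifs <;> omega

/-- index of a killed dart -/
noncomputable def idx (n : ℕ) (a : ℕ → D) (d : D) : ℕ :=
  if h : ∃ j, j < n ∧ a j = d then h.choose else 0

/-- new involution -/
noncomputable def al' (n : ℕ) (a : ℕ → D) (d : D) : D :=
  if ∃ j, j < n ∧ a j = d then a (prt n (idx n a d)) else G.al d

/-- pair edges -/
noncomputable def pp (n : ℕ) (a f : ℕ → D) (d : D) : D :=
  if idx n a d % 2 = 0 then f (idx n a d / 2) else G.al (f (idx n a d / 2))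

end MkKD

open MkKD in
/-- killed structures from sequences -/
theorem mkKD (n : ℕ) (a f : ℕ → D) (hs : ∀ j, j < n → a j ∈ G.ds)
    (hinj : ∀ i j, i < n → j < n → G.pi (a i) = G.pi (a j) → i = j)
    (hcl : ∀ j, j < n → ∃ i, i < n ∧ G.al (a j) = a i)
    (hf : ∀ i, 2 * i + 1 < n → f i ∈ G.ds ∧ G.al (f i) ≠ f i ∧ G.pi (f i) = G.pi (a (2 * i)) ∧
      G.pi (G.al (f i)) = G.pi (a (2 * i + 1)) ∧ f i ≠ a (2 * i)) :
    ∃ al' p : D → D, G.KD ((range n).image a) al' p ∧
      (∀ i, 2 * i + 1 < n → al' (a (2 * i)) = a (2 * i + 1) ∧ al' (a (2 * i + 1)) = a (2 * i) ∧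
        p (a (2 * i)) = f i ∧ p (a (2 * i + 1)) = G.al (f i)) ∧
      (∀ i, 2 * i + 1 = n → al' (a (2 * i)) = a (2 * i)) := by
  have hmem : ∀ d, d ∈ (range n).image a ↔ ∃ j, j < n ∧ a j = d := by
    intro d
    simp [mem_image, mem_range]
  have hidx : ∀ j, j < n → idx n a (a j) = j := by
    intro j hj
    have h : ∃ i, i < n ∧ a i = a j := ⟨j, hj, rfl⟩
    unfold idx
    rw [dif_pos h]
    exact hinj _ _ h.choose_spec.1 hj (by rw [h.choose_spec.2])
  have hal : ∀ j, j < n → al' G n a (a j) = a (prt n j) := by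
    intro j hj
    unfold al'
    rw [if_pos ⟨j, hj, rfl⟩, hidx j hj]
  have hpp : ∀ j, j < n → pp G n a f (a j) = if j % 2 = 0 then f (j / 2) else G.al (f (j / 2)) := by
    intro j hj
    unfold pp
    rw [hidx j hj]
  -- the pair edge is not killed
  have hf' : ∀ i, 2 * i + 1 < n → f i ∉ (range n).image a ∧ G.al (f i) ∉ (range n).image a := by
    intro i hi
    obtain ⟨h1, h2, h3, h4, h5⟩ := hf i hi
    have k1 : f i ∉ (range n).image a := by
      rw [hmem]
      rintro ⟨j, hj, hj'⟩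
      have : j = 2 * i := hinj j _ hj (by omega) (by rw [hj', h3])
      subst this
      exact h5 hj'.symm
    refine ⟨k1, ?_⟩
    rw [hmem]
    rintro ⟨j, hj, hj'⟩
    obtain ⟨k, hk, hk'⟩ := hcl j hj
    rw [hj', G.al_al _ h1] at hk'
    exact k1 ((hmem _).2 ⟨k, hk, hk'.symm⟩)
  refine ⟨al' G n a, pp G n a f, ⟨?_, ?_, ?_, ?_, ?_, ?_, ?_⟩, ?_, ?_⟩
  · intro d hd
    obtain ⟨j, hj, rfl⟩ := (hmem d).1 hd
    exact hs j hj
  · intro d hd
    obtain ⟨j, hj, rfl⟩ := (hmem d).1 hd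
    obtain ⟨i, hi, hi'⟩ := hcl j hj
    exact (hmem _).2 ⟨i, hi, hi'.symm⟩
  · intro d hd
    obtain ⟨j, hj, rfl⟩ := (hmem d).1 hd
    rw [hal j hj]
    exact (hmem _).2 ⟨_, prt_lt hj, rfl⟩
  · intro d hd
    obtain ⟨j, hj, rfl⟩ := (hmem d).1 hd
    rw [hal j hj, hal _ (prt_lt hj), prt_prt hj]
  · intro d _ hd
    unfold al'
    rw [if_neg (fun h => hd ((hmem d).2 h))]
  · intro d hd e he h
    obtain ⟨i, hi, rfl⟩ := (hmem d).1 hd
    obtain ⟨j, hj, rfl⟩ := (hmem e).1 he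
    rw [hinj i j hi hj h]
  · intro d hd hne
    obtain ⟨j, hj, rfl⟩ := (hmem d).1 hd
    rw [hal j hj] at hne ⊢
    rcases Nat.even_or_odd' j with ⟨i, rfl | rfl⟩
    · have hi : 2 * i + 1 < n := by
        by_contra hcon
        exact hne (by rw [prt_last (by omega)])
      obtain ⟨h1, h2, h3, h4, h5⟩ := hf i hi
      have e1 : pp G n a f (a (2 * i)) = f i := by
        rw [hpp _ hj]
        simp
      have e2 : pp G n a f (a (2 * i + 1)) = G.al (f i) := by
        rw [hpp _ hi]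
        have : (2 * i + 1) % 2 = 1 := by omega
        have h' : (2 * i + 1) / 2 = i := by omega
        simp [this, h']
      rw [e1, prt_even hi, e2]
      exact ⟨h1, (hf' i hi).1, h2, h3, rfl⟩
    · obtain ⟨h1, h2, h3, h4, h5⟩ := hf i hj
      have e1 : pp G n a f (a (2 * i)) = f i := by
        rw [hpp _ (by omega)]
        simp
      have e2 : pp G n a f (a (2 * i + 1)) = G.al (f i) := by
        rw [hpp _ hj]
        have : (2 * i + 1) % 2 = 1 := by omega
        have h' : (2 * i + 1) / 2 = i := by omega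
        simp [this, h']
      rw [e2, prt_odd, e1]
      refine ⟨G.al_mem _ h1, (hf' i hj).2, ?_, h4, (G.al_al _ h1).symm⟩
      rw [G.al_al _ h1]
      exact fun h => h2 h.symm
  · intro i hi
    refine ⟨by rw [hal _ (by omega), prt_even hi], by rw [hal _ hi, prt_odd], ?_, ?_⟩
    · rw [hpp _ (by omega)]
      simp
    · rw [hpp _ hi]
      have : (2 * i + 1) % 2 = 1 := by omega
      have h' : (2 * i + 1) / 2 = i := by omega
      simp [this, h']
  · intro i hi
    rw [hal _ (by omega), prt_last hi]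


/-- edges of `S` between two vertices -/
def rel (S : Finset D) (x y : {v // v ∈ G.vs}) : Prop := ∃ d ∈ S, G.pi d = x.1 ∧ G.pi (G.al d) = y.1

lemma rel_symm {S : Finset D} (hS : S ⊆ G.ds) (hc : ∀ d ∈ S, G.al d ∈ S) (x y : {v // v ∈ G.vs})
    (h : G.rel S x y) : G.rel S y x := by
  obtain ⟨d, h1, h2, h3⟩ := h
  exact ⟨G.al d, hc d h1, h3, by rw [G.al_al d (hS h1)]; exact h2⟩

/-- a trail between two tokens, with pair edges in `F` and killed edges in `Kl`, gives a killed structure -/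
theorem trail_kd {F Kl : Finset D} (hFs : F ⊆ G.ds) (hFt : ∀ d ∈ F, G.al d ≠ d)
    (hFc : ∀ d ∈ F, G.al d ∈ F) (hKs : Kl ⊆ G.ds)
    (hKc : ∀ d ∈ Kl, G.al d ∈ Kl) {τ1 τ2 : D} (h1 : τ1 ∈ G.ds) (h2 : τ2 ∈ G.ds)
    (t1 : G.al τ1 = τ1) (t2 : G.al τ2 = τ2) {u : ℕ → {v // v ∈ G.vs}} {k : ℕ}
    (ht : Alt.Trail (G.rel F) (G.rel Kl) ⟨G.pi τ1, G.pi_mem _ h1⟩ ⟨G.pi τ2, G.pi_mem _ h2⟩ u k) :
    ∃ (A : Finset D) (al' p : D → D), G.KD A al' p ∧ τ1 ∈ A ∧ τ2 ∈ A ∧
      (∀ d ∈ A, d = τ1 ∨ d = τ2 ∨ d ∈ Kl) ∧ (∀ d ∈ A, al' d ≠ d) ∧ (∀ d ∈ A, p d ∈ F) := by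
  have hx : ∀ i, i < k → ∃ d ∈ Kl, G.pi d = (u (2 * i + 1)).1 ∧ G.pi (G.al d) = (u (2 * i + 2)).1 :=
    fun i hi => ht.kill i hi
  have hfx : ∀ i, i ≤ k → ∃ d ∈ F, G.pi d = (u (2 * i)).1 ∧ G.pi (G.al d) = (u (2 * i + 1)).1 :=
    fun i hi => ht.pair i hi
  have hD : Nonempty D := ⟨τ1⟩
  choose! x hx1 hx2 hx3 using hx
  choose! f hf1 hf2 hf3 using hfx
  have huinj : ∀ i j, i ≤ 2 * k + 1 → j ≤ 2 * k + 1 → (u i).1 = (u j).1 → i = j := by
    intro i j hi hj h
    have h' : u i = u j := Subtype.ext h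
    rcases lt_trichotomy i j with h3 | h3 | h3
    · exact absurd h' (ht.inj i j h3 hj)
    · exact h3
    · exact absurd h'.symm (ht.inj j i h3 hi)
  let a : ℕ → D := fun j => if j = 0 then τ1 else if j = 2 * k + 1 then τ2 else
    if j % 2 = 1 then x (j / 2) else G.al (x (j / 2 - 1))
  have a0 : a 0 = τ1 := by simp [a]
  have aL : a (2 * k + 1) = τ2 := by simp [a]
  have ao : ∀ i, i < k → a (2 * i + 1) = x i := by
    intro i hi
    have e1 : 2 * i + 1 ≠ 0 := by omega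
    have e2 : 2 * i + 1 ≠ 2 * k + 1 := by omega
    have e3 : (2 * i + 1) % 2 = 1 := by omega
    have e4 : (2 * i + 1) / 2 = i := by omega
    simp only [a, if_neg e1, if_neg e2, if_pos e3, e4]
  have ae : ∀ i, i < k → a (2 * i + 2) = G.al (x i) := by
    intro i hi
    have e1 : 2 * i + 2 ≠ 0 := by omega
    have e2 : 2 * i + 2 ≠ 2 * k + 1 := by omega
    have e3 : (2 * i + 2) % 2 ≠ 1 := by omega
    have e4 : (2 * i + 2) / 2 - 1 = i := by omega
    simp only [a, if_neg e1, if_neg e2, if_neg e3, e4]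
  have hcase : ∀ j, j < 2 * k + 2 → j = 0 ∨ j = 2 * k + 1 ∨ (∃ i, i < k ∧ j = 2 * i + 1) ∨
      ∃ i, i < k ∧ j = 2 * i + 2 := by
    intro j hj
    rcases Nat.eq_zero_or_pos j with h | h
    · exact Or.inl h
    · rcases Nat.even_or_odd' j with ⟨i, rfl | rfl⟩
      · exact Or.inr (Or.inr (Or.inr ⟨i - 1, by omega, by omega⟩))
      · by_cases h3 : i = k
        · exact Or.inr (Or.inl (by rw [h3]))
        · exact Or.inr (Or.inr (Or.inl ⟨i, by omega, rfl⟩))
  have hpa : ∀ j, j < 2 * k + 2 → G.pi (a j) = (u j).1 := by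
    intro j hj
    rcases hcase j hj with h | h | ⟨i, hi, h⟩ | ⟨i, hi, h⟩
    · subst h
      rw [a0, ht.src]
    · subst h
      rw [aL, ht.tgt]
    · subst h
      rw [ao i hi, hx2 i hi]
    · subst h
      rw [ae i hi, hx3 i hi]
  have hs : ∀ j, j < 2 * k + 2 → a j ∈ G.ds := by
    intro j hj
    rcases hcase j hj with h | h | ⟨i, hi, h⟩ | ⟨i, hi, h⟩
    · subst h
      rw [a0]; exact h1
    · subst h
      rw [aL]; exact h2
    · subst h
      rw [ao i hi]; exact hKs (hx1 i hi)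
    · subst h
      rw [ae i hi]; exact hKs (hKc _ (hx1 i hi))
  have hinj : ∀ i j, i < 2 * k + 2 → j < 2 * k + 2 → G.pi (a i) = G.pi (a j) → i = j := by
    intro i j hi hj h
    rw [hpa i hi, hpa j hj] at h
    exact huinj i j (by omega) (by omega) h
  have hcl : ∀ j, j < 2 * k + 2 → ∃ i, i < 2 * k + 2 ∧ G.al (a j) = a i := by
    intro j hj
    rcases hcase j hj with h | h | ⟨i, hi, h⟩ | ⟨i, hi, h⟩
    · subst h
      exact ⟨0, by omega, by rw [a0, t1]⟩
    · subst h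
      exact ⟨2 * k + 1, by omega, by rw [aL, t2]⟩
    · subst h
      exact ⟨2 * i + 2, by omega, by rw [ao i hi, ae i hi]⟩
    · subst h
      exact ⟨2 * i + 1, by omega, by rw [ao i hi, ae i hi, G.al_al _ (hKs (hx1 i hi))]⟩
  have hf : ∀ i, 2 * i + 1 < 2 * k + 2 → f i ∈ G.ds ∧ G.al (f i) ≠ f i ∧
      G.pi (f i) = G.pi (a (2 * i)) ∧ G.pi (G.al (f i)) = G.pi (a (2 * i + 1)) ∧
      f i ≠ a (2 * i) := by
    intro i hi
    have hi' : i ≤ k := by omega
    refine ⟨hFs (hf1 i hi'), hFt _ (hf1 i hi'), ?_, ?_, ?_⟩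
    · rw [hpa _ (by omega), hf2 i hi']
    · rw [hpa _ (by omega), hf3 i hi']
    · rintro he
      rcases Nat.eq_zero_or_pos i with h | h
      · subst h
        rw [Nat.mul_zero, a0] at he
        exact hFt _ (hf1 0 hi') (by rw [he]; exact t1)
      · obtain ⟨i', rfl⟩ : ∃ i', i = i' + 1 := ⟨i - 1, by omega⟩
        have e : 2 * (i' + 1) = 2 * i' + 2 := by ring
        rw [e, ae i' (by omega)] at he
        have h3 := hf3 (i' + 1) hi'
        rw [he, G.al_al _ (hKs (hx1 i' (by omega))), hx2 i' (by omega)] at h3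
        have := huinj _ _ (by omega) (by omega) h3
        omega
  obtain ⟨al', p, hkd, hp1, -⟩ := G.mkKD (2 * k + 2) a f hs hinj hcl hf
  have hmem : ∀ d, d ∈ (range (2 * k + 2)).image a ↔ ∃ j, j < 2 * k + 2 ∧ a j = d := by
    intro d
    simp [mem_image, mem_range]
  have hvals : ∀ j, j < 2 * k + 2 → al' (a j) ≠ a j ∧ p (a j) ∈ F := by
    intro j hj
    rcases Nat.even_or_odd' j with ⟨i, rfl | rfl⟩
    · obtain ⟨q1, q2, q3, q4⟩ := hp1 i (by omega)
      rw [q1, q3]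
      refine ⟨fun h => ?_, hf1 i (by omega)⟩
      have := hinj _ _ (by omega) hj (congrArg G.pi h)
      omega
    · obtain ⟨q1, q2, q3, q4⟩ := hp1 i hj
      rw [q2, q4]
      refine ⟨fun h => ?_, ?_⟩
      · have := hinj _ _ (by omega) hj (congrArg G.pi h)
        omega
      · exact hFc _ (hf1 i (by omega))
  refine ⟨_, al', p, hkd, (hmem _).2 ⟨0, by omega, a0⟩, (hmem _).2 ⟨2 * k + 1, by omega, aL⟩,
    ?_, ?_, ?_⟩
  · intro d hd
    obtain ⟨j, hj, rfl⟩ := (hmem d).1 hd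
    rcases hcase j hj with h | h | ⟨i, hi, h⟩ | ⟨i, hi, h⟩
    · subst h; exact Or.inl a0
    · subst h; exact Or.inr (Or.inl aL)
    · subst h; rw [ao i hi]; exact Or.inr (Or.inr (hx1 i hi))
    · subst h; rw [ae i hi]; exact Or.inr (Or.inr (hKc _ (hx1 i hi)))
  · intro d hd
    obtain ⟨j, hj, rfl⟩ := (hmem d).1 hd
    exact (hvals j hj).1
  · intro d hd
    obtain ⟨j, hj, rfl⟩ := (hmem d).1 hd
    exact (hvals j hj).2

end JK.CG
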