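import Pool.Agent.Lib.JK.Absorb

/-! Normal form of a minimal counterexample (S5, MP_c95763_co): all absorbed vertices are in `K`,
and `F` is exactly a 2-factor outside `K`. -/

set_option autoImplicit false

namespace JK.CG

open Finset Classical

variable {V D : Type*} {G : CG V D} {K : Finset V} {F : Finset D}

/-- all absorbed vertices -/
noncomputable def fullK (G : CG V D) (K : Finset V) (F : Finset D) : Finset V :=
  G.vs.filter fun v => G.Abs K F v

/-- the darts of `F` at the vertices which are not absorbed -/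
noncomputable def fullF (G : CG V D) (K : Finset V) (F : Finset D) : Finset D :=
  F.filter fun d => ¬ G.Abs K F (G.pi d)

lemma mem_fullK {v : V} : v ∈ G.fullK K F ↔ v ∈ G.vs ∧ G.Abs K F v := by
  unfold fullK
  rw [mem_filter]

lemma mem_fullF {d : D} : d ∈ G.fullF K F ↔ d ∈ F ∧ ¬ G.Abs K F (G.pi d) := by
  unfold fullF
  rw [mem_filter]

lemma abs_of_mem {v : V} (h : v ∈ K) : G.Abs K F v := fun _ hZ hv => hZ.dis v hv h

lemma abs_al (hc : G.Cls K F) {d : D} (hd : d ∈ F) :
    G.Abs K F (G.pi (G.al d)) ↔ G.Abs K F (G.pi d) := by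
  constructor
  · intro h Z hZ hv
    exact h Z hZ (hZ.clo d hd hv)
  · intro h Z hZ hv
    apply h Z hZ
    have := hZ.clo (G.al d) (hc.Fal d hd) hv
    rw [G.al_al d (hc.Fsub hd)] at this
    exact this

/-- the admissible sets do not change -/
lemma adm_full {Z : Finset V} :
    G.Adm (G.fullK K F) (G.fullF K F) Z ↔ G.Adm K F Z := by
  constructor
  · intro h
    have hdis : ∀ v ∈ Z, ¬ G.Abs K F v := by
      intro v hv ha
      exact h.dis v hv (mem_fullK.2 ⟨h.sub hv, ha⟩)
    refine ⟨h.sub, ?_, ?_⟩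
    · intro v hv hvK
      exact hdis v hv (abs_of_mem hvK)
    · intro d hd hv
      exact h.clo d (mem_fullF.2 ⟨hd, hdis _ hv⟩) hv
  · intro h
    refine ⟨h.sub, ?_, ?_⟩
    · intro v hv hvK
      exact (mem_fullK.1 hvK).2 Z h hv
    · intro d hd hv
      exact h.clo d (mem_fullF.1 hd).1 hv

lemma adm_full_ins {c : V} {Z : Finset V} :
    G.Adm (insert c (G.fullK K F)) (G.fullF K F) Z ↔ G.Adm (insert c K) F Z := by
  rw [adm_ins, adm_ins, adm_full]

lemma abs_full {v : V} :
    G.Abs (G.fullK K F) (G.fullF K F) v ↔ G.Abs K F v := by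
  constructor
  · intro h Z hZ
    exact h Z (adm_full.2 hZ)
  · intro h Z hZ
    exact h Z (adm_full.1 hZ)

/-- at a vertex which is not absorbed the darts of `F` are unchanged -/
lemma fullF_at {v : V} (hv : ¬ G.Abs K F v) :
    ((G.fullF K F).filter fun d => G.pi d = v) = F.filter fun d => G.pi d = v := by
  ext d
  rw [mem_filter, mem_filter, mem_fullF]
  constructor
  · rintro ⟨⟨h1, _⟩, h2⟩
    exact ⟨h1, h2⟩
  · rintro ⟨h1, h2⟩
    refine ⟨⟨h1, ?_⟩, h2⟩
    rw [h2]
    exact hv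

lemma Cls.full (hc : G.Cls K F) : G.Cls (G.fullK K F) (G.fullF K F) := by
  refine ⟨?_, ?_, ?_, ?_, ?_, ?_⟩
  · intro v hv
    exact (mem_fullK.1 hv).1
  · intro d hd
    exact hc.Fsub (mem_fullF.1 hd).1
  · intro d hd
    obtain ⟨h1, h2⟩ := mem_fullF.1 hd
    refine mem_fullF.2 ⟨hc.Fal d h1, ?_⟩
    rw [abs_al hc h1]
    exact h2
  · intro d hd
    exact hc.Ftok d (mem_fullF.1 hd).1
  · intro v hv hvK
    have hna : ¬ G.Abs K F v := fun ha => hvK (mem_fullK.2 ⟨hv, ha⟩)
    rw [fullF_at hna]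
    exact hc.F2 v hv fun hh => hna (abs_of_mem hh)
  · intro d hd ht
    exact mem_fullK.2 ⟨G.pi_mem d hd, abs_of_mem (hc.tokK d hd ht)⟩

lemma good_congr {K' : Finset V} {F' : Finset D}
    (h : ∀ Z, G.Adm K F Z ↔ G.Adm K' F' Z) {M : Finset D} : G.Good K F M ↔ G.Good K' F' M := by
  constructor
  · intro hM
    exact ⟨hM.pm, fun Z hZ ho => hM.hit Z ((h Z).2 hZ) ho⟩
  · intro hM
    exact ⟨hM.pm, fun Z hZ ho => hM.hit Z ((h Z).1 hZ) ho⟩

lemma Inst.full (hI : G.Inst K F) : G.Inst (G.fullK K F) (G.fullF K F) :=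
  ⟨hI.even, hI.four, hI.b0, hI.cls.full, fun Z hZ ho => hI.cc Z (adm_full.1 hZ) ho⟩

/-- **normal form**: a minimal counterexample remains one if all absorbed vertices are put into `K`
and the edges of `F` at absorbed vertices are removed from `F` -/
theorem MC.full (h : G.MC K F) : G.MC (G.fullK K F) (G.fullF K F) := by
  refine ⟨h.inst.full, h.four, h.ih, ?_, ?_⟩
  · rintro ⟨M, hM⟩
    exact h.no ⟨M, (good_congr fun Z => adm_full.symm).2 hM⟩
  · intro c hcv hcK _
    have hcK' : c ∉ K := fun hh => hcK (mem_fullK.2 ⟨hcv, abs_of_mem hh⟩)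
    obtain ⟨M, hM⟩ := h.abs c hcv hcK' (h.inst.ins hcv)
    exact ⟨M, (good_congr fun Z => adm_full_ins.symm).1 hM⟩

/-- what the normal form says -/
structure Full (G : CG V D) (K : Finset V) (F : Finset D) : Prop where
  /-- every absorbed vertex is in `K` -/
  abs : ∀ v ∈ G.vs, G.Abs K F v → v ∈ K
  /-- no dart of `F` is at `K` -/
  out : ∀ d ∈ F, G.pi d ∉ K

lemma full_full : G.Full (G.fullK K F) (G.fullF K F) := by
  refine ⟨?_, ?_⟩
  · intro v hv ha
    exact mem_fullK.2 ⟨hv, abs_full.1 ha⟩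
  · intro d hd hK
    exact (mem_fullF.1 hd).2 (mem_fullK.1 hK).2

/-- we may assume that a minimal counterexample is in normal form -/
theorem MC.exists_full (h : G.MC K F) : ∃ K' F', G.MC K' F' ∧ G.Full K' F' ∧ K ⊆ K' ∧ F' ⊆ F ∧
    ∀ Z, G.Adm K' F' Z ↔ G.Adm K F Z :=
  ⟨_, _, h.full, full_full,
    fun _ hv => mem_fullK.2 ⟨h.inst.cls.Ksub hv, abs_of_mem hv⟩,
    fun _ hd => (mem_fullF.1 hd).1, fun _ => adm_full⟩

section
variable (hf : G.Full K F)
include hf

lemma Full.abs_iff {v : V} (hv : v ∈ G.vs) : G.Abs K F v ↔ v ∈ K :=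
  ⟨hf.abs v hv, abs_of_mem⟩

/-- both ends of an edge of `F` are outside `K` -/
lemma Full.out' (hc : G.Cls K F) {d : D} (hd : d ∈ F) : G.pi (G.al d) ∉ K :=
  hf.out _ (hc.Fal d hd)

/-- number of `F`-darts at a vertex -/
lemma Full.card_F (hc : G.Cls K F) {v : V} (hv : v ∈ G.vs) :
    (F.filter fun d => G.pi d = v).card = if v ∈ K then 0 else 2 := by
  split_ifs with hK
  · rw [card_eq_zero, eq_empty_iff_forall_notMem]
    intro d hd
    rw [mem_filter] at hd
    apply hf.out d hd.1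
    rw [hd.2]
    exact hK
  · exact hc.F2 v hv hK

/-- number of `J`-darts at a vertex -/
lemma Full.card_J (hc : G.Cls K F) {v : V} (hv : v ∈ G.vs) :
    ((G.ds \ F).filter fun d => G.pi d = v).card = if v ∈ K then 3 else 1 := by
  have h1 : (F.filter fun d => G.pi d = v) ∪ ((G.ds \ F).filter fun d => G.pi d = v) =
      G.ds.filter fun d => G.pi d = v := by
    rw [← filter_union, union_sdiff_of_subset hc.Fsub]
  have h2 : Disjoint (F.filter fun d => G.pi d = v) ((G.ds \ F).filter fun d => G.pi d = v) :=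
    disjoint_filter_filter disjoint_sdiff
  have h3 := card_union_of_disjoint h2
  rw [h1, G.cubic v hv, hf.card_F hc hv] at h3
  split_ifs with hK
  · rw [if_pos hK] at h3
    omega
  · rw [if_neg hK] at h3
    omega

/-- the vertices outside `K` form a union of fresh circuits -/
lemma Full.adm_rest (hc : G.Cls K F) : G.Adm K F (G.vs \ K) := by
  refine ⟨sdiff_subset, ?_, ?_⟩
  · intro v hv
    exact (mem_sdiff.1 hv).2
  · intro d hd _
    exact mem_sdiff.2 ⟨G.pi_mem _ (hc.Fsub (hc.Fal d hd)), hf.out' hc hd⟩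

end

end JK.CG
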