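import Pool.Agent.Lib.JK.Cut

/-! The dart graph of a cubic simple graph. -/

set_option autoImplicit false

namespace JK

open Finset Classical

variable {V : Type} [Fintype V]

/-- the darts at a vertex of a cubic simple graph -/
lemma card_darts_at (G : SimpleGraph V) (hc : ∀ v : V, (G.neighborSet v).ncard = 3) (v : V) :
    (((univ : Finset (V × V)).filter fun p => G.Adj p.1 p.2).filter fun p => p.1 = v).card = 3 := by
  have h1 : (((univ : Finset (V × V)).filter fun p => G.Adj p.1 p.2).filter fun p => p.1 = v) =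
      (univ.filter fun w => G.Adj v w).image fun w => (v, w) := by
    ext ⟨a, b⟩
    simp only [mem_filter, mem_univ, true_and, mem_image, Prod.mk.injEq]
    constructor
    · rintro ⟨h, rfl⟩
      exact ⟨b, h, rfl, rfl⟩
    · rintro ⟨w, h, rfl, rfl⟩
      exact ⟨h, rfl⟩
  rw [h1, card_image_of_injective _ (fun a b h => (Prod.mk.injEq _ _ _ _ ▸ h).2)]
  rw [← hc v, ← Set.ncard_coe_finset]
  congr 1
  ext w
  simp

/-- the dart graph of a cubic simple graph -/
noncomputable def ofSG (G : SimpleGraph V) (hc : ∀ v : V, (G.neighborSet v).ncard = 3) :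
    CG V (V × V) where
  vs := univ
  ds := univ.filter fun p => G.Adj p.1 p.2
  pi := Prod.fst
  al := Prod.swap
  pi_mem := fun _ _ => mem_univ _
  al_mem := by
    intro d hd
    rw [mem_filter] at hd ⊢
    exact ⟨mem_univ _, hd.2.symm⟩
  al_al := fun d _ => Prod.swap_swap d
  cubic := fun v _ => card_darts_at G hc v

lemma ofSG_mem_ds (G : SimpleGraph V) (hc : ∀ v : V, (G.neighborSet v).ncard = 3) {d : V × V} :
    d ∈ (ofSG G hc).ds ↔ G.Adj d.1 d.2 := by
  show d ∈ (univ.filter fun p : V × V => G.Adj p.1 p.2) ↔ _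
  rw [mem_filter]
  exact ⟨fun h => h.2, fun h => ⟨mem_univ _, h⟩⟩

lemma ofSG_mem_bd (G : SimpleGraph V) (hc : ∀ v : V, (G.neighborSet v).ncard = 3) {d : V × V}
    {X : Finset V} : d ∈ (ofSG G hc).bd X ↔ G.Adj d.1 d.2 ∧ d.1 ∈ X ∧ d.2 ∉ X := by
  rw [CG.mem_bd, ofSG_mem_ds]
  exact Iff.rfl

lemma ofSG_tk_eq (G : SimpleGraph V) (hc : ∀ v : V, (G.neighborSet v).ncard = 3) (X : Finset V) :
    (ofSG G hc).tk X = ∅ := by
  rw [eq_empty_iff_forall_notMem]
  intro d hd
  rw [CG.mem_tk, ofSG_mem_ds] at hd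
  obtain ⟨h1, -, h3⟩ := hd
  have h4 : d.2 = d.1 := congrArg Prod.fst (h3 : d.swap = d)
  rw [h4] at h1
  exact G.loopless.irrefl _ h1

lemma ofSG_tk (G : SimpleGraph V) (hc : ∀ v : V, (G.neighborSet v).ncard = 3) :
    (ofSG G hc).tk (ofSG G hc).vs = ∅ :=
  ofSG_tk_eq G hc _

lemma ofSG_dg (G : SimpleGraph V) (hc : ∀ v : V, (G.neighborSet v).ncard = 3) (X : Finset V) :
    (ofSG G hc).dg X = ((ofSG G hc).bd X).card := by
  unfold CG.dg
  rw [ofSG_tk_eq, card_empty, add_zero]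

lemma ofSG_b0 (G : SimpleGraph V) (hc : ∀ v : V, (G.neighborSet v).ncard = 3)
    (hb : ∀ v w : V, G.Adj v w → (G.deleteEdges {s(v, w)}).Reachable v w) :
    (ofSG G hc).B0 := by
  intro X hX ho
  have hodd : Odd ((ofSG G hc).dg X) := ((ofSG G hc).dg_parity hX).mpr ho
  by_contra hlt
  have h1 : (ofSG G hc).dg X = 1 := by
    obtain ⟨k, hk⟩ := hodd
    omega
  rw [ofSG_dg, card_eq_one] at h1
  obtain ⟨p, hp⟩ := h1
  have hpm : p ∈ (ofSG G hc).bd X := by rw [hp]; exact mem_singleton_self p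
  rw [ofSG_mem_bd] at hpm
  obtain ⟨hadj, hin, hout⟩ := hpm
  obtain ⟨q⟩ := hb p.1 p.2 hadj
  obtain ⟨d, -, hd1, hd2⟩ := q.exists_boundary_dart (X : Set V) (by exact_mod_cast hin)
    (by exact_mod_cast hout)
  have hdadj : (G.deleteEdges {s(p.1, p.2)}).Adj d.fst d.snd := d.adj
  rw [SimpleGraph.deleteEdges_adj] at hdadj
  have hdm : (d.fst, d.snd) ∈ (ofSG G hc).bd X := by
    rw [ofSG_mem_bd]
    exact ⟨hdadj.1, by exact_mod_cast hd1, by exact_mod_cast hd2⟩
  rw [hp, mem_singleton] at hdm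
  apply hdadj.2
  rw [Set.mem_singleton_iff]
  have e1 : d.fst = p.1 := congrArg Prod.fst hdm
  have e2 : d.snd = p.2 := congrArg Prod.snd hdm
  rw [e1, e2]

lemma ofSG_even (G : SimpleGraph V) (hc : ∀ v : V, (G.neighborSet v).ncard = 3) :
    Even (ofSG G hc).vs.card := by
  rw [← Nat.not_odd_iff_even]
  intro ho
  have hodd := ((ofSG G hc).dg_parity (Finset.Subset.refl _)).mpr ho
  have h0 : (ofSG G hc).dg (ofSG G hc).vs = 0 := by
    rw [ofSG_dg, card_eq_zero, eq_empty_iff_forall_notMem]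
    intro d hd
    rw [ofSG_mem_bd] at hd
    exact hd.2.2 (mem_univ _)
  rw [h0] at hodd
  exact absurd hodd (by decide)

end JK
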