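import Pool.Agent.Lib.JK.Tog

/-! Weights of passed pentagons (S5, MP_c95763_co): a passed pentagon which is cut by a set of value
`1` can be toggled (Lemma V of the pentagon world). -/

set_option autoImplicit false

namespace JK.CG

section noclassical

/-- weights of the edges `k, k+1` of a pentagon whose legs at `i ≠ j` are killed -/
def pw (i j k : ZMod 5) : ℕ :=
  if j = i + 1 then (if k = i then 2 else 1)
  else if i = j + 1 then (if k = j then 2 else 1)
  else if j = i + 2 then (if k = i + 2 ∨ k = i + 4 then 2 else if k = i + 3 then 0 else 1)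
  else (if k = j + 2 ∨ k = j + 4 then 2 else if k = j + 3 then 0 else 1)

theorem pw_sum : ∀ i j : ZMod 5, i ≠ j → ∀ k, pw i j (k - 1) + pw i j k =
    if k = i ∨ k = j then 3 else 2 := by
  decide +kernel

set_option synthInstance.maxSize 2000 in
theorem pw_cut : ∀ i j : ZMod 5, i ≠ j → ∀ b : ZMod 5 → Bool,
    (∀ k, 2 ≤ pw i j k → b k = b (k + 1)) →
    (∀ k l, k ≠ l → pw i j k ≠ 0 → pw i j l ≠ 0 → b k = b (k + 1) ∨ b l = b (l + 1)) →
    (∀ k, b k = b 0) ∨ ∃ k, pw i j k = 2 ∧ b k = b (k + 1) ∧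
      (∀ l, l ≠ k → l ≠ k + 1 → b l = !(b k)) ∧ (pw i j (k + 1) ≠ 0 ∨ pw i j (k - 1) ≠ 0) := by
  decide +kernel

theorem z5_ne : ∀ k : ZMod 5, k ≠ k + 1 ∧ (k + 1 + 1 ≠ k ∧ k + 1 + 1 ≠ k + 1) ∧
    (k - 1 ≠ k ∧ k - 1 ≠ k + 1 ∧ k - 1 + 1 = k) := by
  decide

end noclassical

open Finset Classical

variable {V D : Type*} {G : CG V D}

/-- a set of value at most `1`: all its boundary edges have value at most `1` -/
lemma zc_bd_le {z : D → ℕ} {t : V → ℕ} {W : Finset V} {n : ℕ} (h : G.zc z t W ≤ n) {d : D}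
    (hd : d ∈ G.bd W) : z d ≤ n := by
  have h1 : z d ≤ ∑ d ∈ G.bd W, z d := single_le_sum (fun _ _ => Nat.zero_le _) hd
  unfold zc at h
  omega

/-- a set of value at most `1` has at most one live boundary edge -/
lemma zc_bd_two {z : D → ℕ} {t : V → ℕ} {W : Finset V} (h : G.zc z t W ≤ 1) {d e : D}
    (hd : d ∈ G.bd W) (he : e ∈ G.bd W) (hde : d ≠ e) : z d = 0 ∨ z e = 0 := by
  have h1 : z d + z e ≤ ∑ d ∈ G.bd W, z d := by
    rw [← sum_pair hde]
    refine sum_le_sum_of_subset ?_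
    intro x hx
    rw [mem_insert, mem_singleton] at hx
    rcases hx with h | h
    · exact h ▸ hd
    · exact h ▸ he
  unfold zc at h
  omega

namespace Cy

variable {F : Finset D} {C : Finset V} {n : ℕ} {r : ZMod n → D}

lemma ds (h : Cy G F C n r) (hF : F ⊆ G.ds) (i : ZMod n) : r i ∈ G.ds := hF (h.memF i)

lemma rinj (h : Cy G F C n r) {i j : ZMod n} (e : r i = r j) : i = j :=
  h.inj i j (congrArg G.pi e)

lemma al_ne_r (h : Cy G F C n r) (i j : ZMod n) : G.al (r i) ≠ r j := by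
  intro e
  have h1 := h.nxt i
  rw [e] at h1
  have h2 := h.inj _ _ h1
  subst h2
  exact h.ne i e

lemma alinj (h : Cy G F C n r) (hF : F ⊆ G.ds) {i j : ZMod n} (e : G.al (r i) = G.al (r j)) :
    i = j := by
  have h1 := congrArg G.al e
  rw [G.al_al _ (h.ds hF i), G.al_al _ (h.ds hF j)] at h1
  exact h.rinj h1

/-- the boundary dart of the edge `k` for a set which cuts it -/
noncomputable def cd (G : CG V D) {n : ℕ} (r : ZMod n → D) (W : Finset V) (k : ZMod n) : D :=
  if G.pi (r k) ∈ W then r k else G.al (r k)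

lemma cd_mem (h : Cy G F C n r) (hF : F ⊆ G.ds) {W : Finset V} {k : ZMod n}
    (hk : ¬ (G.pi (r k) ∈ W ↔ G.pi (r (k + 1)) ∈ W)) : cd G r W k ∈ G.bd W := by
  unfold cd
  split_ifs with h1
  · refine G.mem_bd.2 ⟨h.ds hF k, h1, ?_⟩
    rw [h.nxt]
    tauto
  · refine G.mem_bd.2 ⟨G.al_mem _ (h.ds hF k), ?_, ?_⟩
    · rw [h.nxt]
      tauto
    · rw [G.al_al _ (h.ds hF k)]
      exact h1

lemma cd_ne (h : Cy G F C n r) (hF : F ⊆ G.ds) {W : Finset V} {k l : ZMod n} (hkl : k ≠ l) :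
    cd G r W k ≠ cd G r W l := by
  unfold cd
  split_ifs with h1 h2 h3
  · exact fun e => hkl (h.rinj e)
  · exact fun e => h.al_ne_r l k e.symm
  · exact fun e => h.al_ne_r k l e
  · exact fun e => hkl (h.alinj hF e)

lemma z_cd {z : D → ℕ} (hF : F ⊆ G.ds) (h : Cy G F C n r)
    (hs : ∀ d ∈ G.ds, z (G.al d) = z d) {W : Finset V} (k : ZMod n) :
    z (cd G r W k) = z (r k) := by
  unfold cd
  split_ifs with h1
  · rfl
  · exact hs _ (h.ds hF k)

/-- an unpassed circuit (all its edges are live) is not cut by a set of value `1` -/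
theorem uncut (h : Cy G F C n r) (hF : F ⊆ G.ds) {z : D → ℕ} {t : V → ℕ}
    (hs : ∀ d ∈ G.ds, z (G.al d) = z d) (hl : ∀ k, z (r k) ≠ 0) {W : Finset V}
    (hv : G.zc z t W ≤ 1) : C ⊆ W ∨ Disjoint C W := by
  by_contra hne
  rw [not_or, not_disjoint_iff] at hne
  obtain ⟨h1, v, hvC, hvW⟩ := hne
  obtain ⟨u, huC, huW⟩ := not_subset.1 h1
  obtain ⟨i, rfl⟩ := h.sur v hvC
  obtain ⟨j, rfl⟩ := h.sur u huC
  -- two different cut edges
  have hex : ∀ a b : ZMod n, G.pi (r a) ∈ W → G.pi (r b) ∉ W →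
      ∃ k : ZMod n, G.pi (r k) ∈ W ∧ G.pi (r (k + 1)) ∉ W := by
    intro a b ha hb
    by_contra hno
    push Not at hno
    have : ∀ m : ℕ, G.pi (r (a + m)) ∈ W := by
      intro m
      induction m with
      | zero => rw [Nat.cast_zero, add_zero]; exact ha
      | succ m ih => rw [Nat.cast_succ, ← add_assoc]; exact hno _ ih
    have hn : n ≠ 0 ∨ n = 0 := by omega
    rcases hn with hn | hn
    · have : NeZero n := ⟨hn⟩
      have h5 := ‹∀ m : ℕ, G.pi (r (a + m)) ∈ W› (b - a).val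
      rw [ZMod.natCast_zmod_val, add_sub_cancel] at h5
      exact hb h5
    · -- an infinite circuit is impossible
      subst hn
      have h6 : Function.Injective fun i : ZMod 0 => G.pi (r i) := fun i j e => h.inj i j e
      have h7 : (Set.range fun i : ZMod 0 => G.pi (r i)).Finite :=
        (C.finite_toSet).subset (by rintro _ ⟨i, rfl⟩; exact h.memC i)
      have h8 : Finite (ZMod 0) := by
        have := h7.to_subtype
        exact Finite.of_injective (fun i => (⟨G.pi (r i), i, rfl⟩ :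
          (Set.range fun i : ZMod 0 => G.pi (r i)))) fun i j e => h6 (congrArg Subtype.val e)
      have h9 : Infinite (ZMod 0) := inferInstanceAs (Infinite ℤ)
      exact not_finite (ZMod 0)
  have hex2 : ∀ a b : ZMod n, G.pi (r a) ∉ W → G.pi (r b) ∈ W →
      ∃ k : ZMod n, G.pi (r k) ∉ W ∧ G.pi (r (k + 1)) ∈ W := by
    intro a b ha hb
    obtain ⟨k, hk1, hk2⟩ := hex b a hb ha
    by_contra hno
    push Not at hno
    have h0 : ∀ m : ℕ, G.pi (r (k + 1 + m)) ∉ W := by
      intro m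
      induction m with
      | zero => rw [Nat.cast_zero, add_zero]; exact hk2
      | succ m ih => rw [Nat.cast_succ, ← add_assoc]; exact hno _ ih
    have hn : n ≠ 0 := by
      rintro rfl
      have h6 : Function.Injective fun i : ZMod 0 => G.pi (r i) := fun i j e => h.inj i j e
      have h7 : (Set.range fun i : ZMod 0 => G.pi (r i)).Finite :=
        (C.finite_toSet).subset (by rintro _ ⟨i, rfl⟩; exact h.memC i)
      have h8 : Finite (ZMod 0) := by
        have := h7.to_subtype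
        exact Finite.of_injective (fun i => (⟨G.pi (r i), i, rfl⟩ :
          (Set.range fun i : ZMod 0 => G.pi (r i)))) fun i j e => h6 (congrArg Subtype.val e)
      have h9 : Infinite (ZMod 0) := inferInstanceAs (Infinite ℤ)
      exact not_finite (ZMod 0)
    have : NeZero n := ⟨hn⟩
    have h5 := h0 (k - (k + 1)).val
    rw [ZMod.natCast_zmod_val, add_sub_cancel] at h5
    exact h5 hk1
  obtain ⟨k, hk1, hk2⟩ := hex i j hvW huW
  obtain ⟨l, hl1, hl2⟩ := hex2 j i huW hvW
  have hkl : k ≠ l := fun e => hl1 (e ▸ hk1)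
  rcases zc_bd_two hv (h.cd_mem hF (k := k) (by tauto)) (h.cd_mem hF (k := l) (by tauto))
    (h.cd_ne hF hkl) with h3 | h3
  · rw [z_cd hF h hs] at h3
    exact hl _ h3
  · rw [z_cd hF h hs] at h3
    exact hl _ h3

/-- **a passed pentagon can be toggled**: if the legs at `i ≠ j` are killed and the edges have the
weights `pw i j` then a set of value at most `1` can be changed on `C` such that it does not cut `C` -/
theorem pass {r : ZMod 5 → D} (h : Cy G F C 5 r) (hF : F ⊆ G.ds) {z : D → ℕ} {t : V → ℕ}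
    (hw : G.ZW z t) {i j : ZMod 5} (hij : i ≠ j) (hz : ∀ k, z (r k) = pw i j k)
    {W : Finset V} (hW : W ⊆ G.vs) (hv : G.zc z t W ≤ 1) :
    ∃ W' ⊆ G.vs, G.zc z t W' ≤ 1 ∧ (Odd W.card → Odd W'.card) ∧ (C ⊆ W' ∨ Disjoint C W') ∧
      ∀ v, v ∉ C → (v ∈ W' ↔ v ∈ W) := by
  have hb1 : ∀ k : ZMod 5, ¬ (G.pi (r k) ∈ W ↔ G.pi (r (k + 1)) ∈ W) → pw i j k ≤ 1 := by
    intro k hk
    rw [← hz k, ← z_cd hF h hw.sym (W := W) k]
    exact zc_bd_le hv (h.cd_mem hF hk)
  have hb2 : ∀ k l : ZMod 5, k ≠ l → ¬ (G.pi (r k) ∈ W ↔ G.pi (r (k + 1)) ∈ W) →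
      ¬ (G.pi (r l) ∈ W ↔ G.pi (r (l + 1)) ∈ W) → pw i j k = 0 ∨ pw i j l = 0 := by
    intro k l hkl hk hl
    rw [← hz k, ← hz l, ← z_cd hF h hw.sym (W := W) k, ← z_cd hF h hw.sym (W := W) l]
    exact zc_bd_two hv (h.cd_mem hF hk) (h.cd_mem hF hl) (h.cd_ne hF hkl)
  have hdec : ∀ k l : ZMod 5, (decide (G.pi (r k) ∈ W) = decide (G.pi (r l) ∈ W)) ↔
      (G.pi (r k) ∈ W ↔ G.pi (r l) ∈ W) := fun k l => decide_eq_decide
  rcases pw_cut i j hij (fun k => decide (G.pi (r k) ∈ W))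
    (by
      intro k hk
      rw [hdec]
      by_contra hne
      have := hb1 k hne
      omega)
    (by
      intro k l hkl hk hl
      rw [hdec, hdec]
      by_contra hne
      rw [not_or] at hne
      rcases hb2 k l hkl hne.1 hne.2 with h1 | h1
      · exact hk h1
      · exact hl h1) with h1 | ⟨k, hk2, hk3, hk4, hk5⟩
  · refine ⟨W, hW, hv, id, ?_, fun _ _ => Iff.rfl⟩
    by_cases h0 : G.pi (r 0) ∈ W
    · left
      intro v hvC
      obtain ⟨k, rfl⟩ := h.sur v hvC
      have h2 := h1 k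
      beta_reduce at h2
      rw [hdec] at h2
      exact h2.2 h0
    · right
      rw [disjoint_left]
      intro v hvC hvW
      obtain ⟨k, rfl⟩ := h.sur v hvC
      have h2 := h1 k
      beta_reduce at h2
      rw [hdec] at h2
      exact h0 (h2.1 hvW)
  · rw [hdec] at hk3
    have hk6 : ∀ l, l ≠ k → l ≠ k + 1 → (G.pi (r l) ∈ W ↔ G.pi (r k) ∉ W) := by
      intro l h2 h3
      have h4 := hk4 l h2 h3
      by_cases h5 : G.pi (r l) ∈ W <;> by_cases h6 : G.pi (r k) ∈ W <;> simp_all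
    obtain ⟨e1, e2, e3⟩ := z5_ne k
    have hne : G.pi (G.al (r k)) ≠ G.pi (r k) := by
      rw [h.nxt]
      exact fun e => e1 (h.inj _ _ e).symm
    have hz2 : 2 ≤ z (r k) := by rw [hz, hk2]
    have fin : ∀ d ∈ G.ds, (G.pi d = G.pi (r k) ∨ G.pi d = G.pi (G.al (r k))) → z d ≠ 0 →
        (G.pi d ∈ W ↔ G.pi (G.al d) ∉ W) →
        ∃ W' ⊆ G.vs, G.zc z t W' ≤ 1 ∧ (Odd W.card → Odd W'.card) ∧ (C ⊆ W' ∨ Disjoint C W') ∧
        ∀ v, v ∉ C → (v ∈ W' ↔ v ∈ W) := by
      intro d hd hd1 hd2 hd3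
      obtain ⟨W', hW', hv', ho', hm⟩ := hw.toggle (h.ds hF k) hne hz2 hd hd1 hd2 hd3
        (by rw [h.nxt]; exact hk3) hW
      refine ⟨W', hW', hv'.trans hv, ho', ?_, ?_⟩
      · have hall : ∀ l, (G.pi (r l) ∈ W' ↔ G.pi (r k) ∉ W) := by
          intro l
          rw [hm]
          by_cases h2 : G.pi (r l) = G.pi (r k) ∨ G.pi (r l) = G.pi (G.al (r k))
          · rw [if_pos h2]
            rcases h2 with h2 | h2
            · rw [h2]
            · rw [h2, h.nxt, hk3]
          · rw [if_neg h2]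
            rw [not_or, h.nxt] at h2
            exact hk6 l (fun e => h2.1 (by rw [e])) (fun e => h2.2 (by rw [e]))
        by_cases h0 : G.pi (r k) ∈ W
        · right
          rw [disjoint_left]
          intro v hvC hvW
          obtain ⟨l, rfl⟩ := h.sur v hvC
          exact (hall l).1 hvW h0
        · left
          intro v hvC
          obtain ⟨l, rfl⟩ := h.sur v hvC
          exact (hall l).2 h0
      · intro v hvC
        rw [hm, if_neg]
        rintro (h2 | h2)
        · exact hvC (h2 ▸ h.memC k)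
        · rw [h.nxt] at h2
          exact hvC (h2 ▸ h.memC _)
    rcases hk5 with h5 | h5
    · -- the edge k + 1
      refine fin (r (k + 1)) (h.ds hF _) (Or.inr (h.nxt k).symm) (by rw [hz]; exact h5) ?_
      rw [h.nxt (k + 1), ← hk3, hk6 _ e2.1 e2.2]
      tauto
    · -- the edge k - 1
      refine fin (G.al (r (k - 1))) (G.al_mem _ (h.ds hF _)) (Or.inl ?_)
        (by rw [hw.sym _ (h.ds hF _), hz]; exact h5) ?_
      · rw [h.nxt, e3.2.2]
      · rw [G.al_al _ (h.ds hF _), h.nxt, e3.2.2, hk6 _ e3.1 e3.2.1]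
        tauto

/-- reversed coordinates -/
noncomputable def rv (G : CG V D) {n : ℕ} (r : ZMod n → D) (k : ZMod n) : D := G.al (r (-k - 1))

lemma rev (h : Cy G F C n r) (hF : F ⊆ G.ds) (hFal : ∀ d ∈ F, G.al d ∈ F) :
    Cy G F C n (rv G r) := by
  have hp : ∀ k : ZMod n, G.pi (rv G r k) = G.pi (r (-k)) := by
    intro k
    unfold rv
    rw [h.nxt, sub_add_cancel]
  refine ⟨fun k => hFal _ (h.memF _), fun k => by rw [hp]; exact h.memC _, ?_, ?_, ?_, ?_⟩
  · intro k
    rw [hp]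
    unfold rv
    rw [G.al_al _ (h.ds hF _)]
    congr 2
    ring
  · intro k
    unfold rv
    rw [G.al_al _ (h.ds hF _)]
    exact fun e => h.al_ne_r _ _ e.symm
  · intro i j e
    rw [hp, hp] at e
    exact neg_injective (h.inj _ _ e)
  · intro v hv
    obtain ⟨k, rfl⟩ := h.sur v hv
    exact ⟨-k, by rw [hp, neg_neg]⟩

lemma rv_pi (h : Cy G F C n r) (k : ZMod n) : G.pi (rv G r k) = G.pi (r (-k)) := by
  unfold rv
  rw [h.nxt, sub_add_cancel]

end Cy

/-! ### cleaning all passed circuits -/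

/-- all circuits which can be cleaned one by one can be cleaned together -/
theorem clean_all {K : Finset V} {F : Finset D} (hc : G.Cls K F) {z : D → ℕ} {t : V → ℕ}
    (P : V → Prop)
    (hP : ∀ v, ¬ G.Abs K F v → P v → ∀ W ⊆ G.vs, G.zc z t W ≤ 1 →
      ∃ W' ⊆ G.vs, G.zc z t W' ≤ 1 ∧ (Odd W.card → Odd W'.card) ∧
        (G.cir K F v ⊆ W' ∨ Disjoint (G.cir K F v) W') ∧
        ∀ u, u ∉ G.cir K F v → (u ∈ W' ↔ u ∈ W))
    {W : Finset V} (hW : W ⊆ G.vs) (hv : G.zc z t W ≤ 1) :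
    ∃ W' ⊆ G.vs, G.zc z t W' ≤ 1 ∧ (Odd W.card → Odd W'.card) ∧
      (∀ v, ¬ G.Abs K F v → P v → G.cir K F v ⊆ W' ∨ Disjoint (G.cir K F v) W') ∧
      ∀ u, (∀ v, ¬ G.Abs K F v → P v → u ∉ G.cir K F v) → (u ∈ W' ↔ u ∈ W) := by
  have key : ∀ n : ℕ, ∀ W ⊆ G.vs, G.zc z t W ≤ 1 →
      (G.vs.filter fun v => ¬ G.Abs K F v ∧ P v ∧
        ¬ (G.cir K F v ⊆ W ∨ Disjoint (G.cir K F v) W)).card ≤ n →
      ∃ W' ⊆ G.vs, G.zc z t W' ≤ 1 ∧ (Odd W.card → Odd W'.card) ∧
      (∀ v, ¬ G.Abs K F v → P v → G.cir K F v ⊆ W' ∨ Disjoint (G.cir K F v) W') ∧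
      ∀ u, (∀ v, ¬ G.Abs K F v → P v → u ∉ G.cir K F v) → (u ∈ W' ↔ u ∈ W) := by
    intro n
    induction n with
    | zero =>
      intro W hW hv hn
      refine ⟨W, hW, hv, id, ?_, fun _ _ => Iff.rfl⟩
      intro v hva hPv
      by_contra hne
      have hvs : v ∈ G.vs := by
        unfold Abs at hva
        push Not at hva
        obtain ⟨Z, hZ, hvZ⟩ := hva
        exact hZ.sub hvZ
      have h1 : v ∈ (G.vs.filter fun v => ¬ G.Abs K F v ∧ P v ∧
        ¬ (G.cir K F v ⊆ W ∨ Disjoint (G.cir K F v) W)) := mem_filter.2 ⟨hvs, hva, hPv, hne⟩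
      rw [Nat.le_zero, card_eq_zero] at hn
      rw [hn] at h1
      exact notMem_empty _ h1
    | succ n ih =>
      intro W hW hv hn
      by_cases hex : ∃ v ∈ G.vs, ¬ G.Abs K F v ∧ P v ∧
        ¬ (G.cir K F v ⊆ W ∨ Disjoint (G.cir K F v) W)
      · obtain ⟨v, hvs, hva, hPv, hcut⟩ := hex
        obtain ⟨W1, hW1, hv1, ho1, hc1, hm1⟩ := hP v hva hPv W hW hv
        have hsub : (G.vs.filter fun v => ¬ G.Abs K F v ∧ P v ∧
            ¬ (G.cir K F v ⊆ W1 ∨ Disjoint (G.cir K F v) W1)) ⊂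
            (G.vs.filter fun v => ¬ G.Abs K F v ∧ P v ∧
            ¬ (G.cir K F v ⊆ W ∨ Disjoint (G.cir K F v) W)) := by
          rw [ssubset_iff_of_subset]
          · exact ⟨v, mem_filter.2 ⟨hvs, hva, hPv, hcut⟩, fun h => (mem_filter.1 h).2.2.2 hc1⟩
          · intro u hu
            rw [mem_filter] at hu ⊢
            refine ⟨hu.1, hu.2.1, hu.2.2.1, ?_⟩
            by_cases huv : u ∈ G.cir K F v
            · exact absurd (by rw [cir_eq hc hva huv]; exact hc1) hu.2.2.2
            · have hdis : Disjoint (G.cir K F u) (G.cir K F v) := by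
                rcases adm_cases hc hu.2.1 (adm_cir hva) with h2 | h2
                · exact absurd (h2 (self_mem_cir hu.1)) huv
                · exact h2
              intro h3
              apply hu.2.2.2
              rcases h3 with h3 | h3
              · exact Or.inl fun x hx => (hm1 x (disjoint_left.1 hdis hx)).2 (h3 hx)
              · right
                rw [disjoint_left]
                intro x hx hx1
                exact disjoint_left.1 h3 hx ((hm1 x (disjoint_left.1 hdis hx)).1 hx1)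
        obtain ⟨W2, hW2, hv2, ho2, hc2, hm2⟩ := ih W1 hW1 hv1
          (by have := card_lt_card hsub; omega)
        refine ⟨W2, hW2, hv2, fun h => ho2 (ho1 h), hc2, ?_⟩
        intro u hu
        rw [hm2 u hu, hm1 u (hu v hva hPv)]
      · refine ih W hW hv ?_
        have : (G.vs.filter fun v => ¬ G.Abs K F v ∧ P v ∧
            ¬ (G.cir K F v ⊆ W ∨ Disjoint (G.cir K F v) W)) = ∅ := by
          rw [Finset.eq_empty_iff_forall_notMem]
          intro v hv'
          rw [mem_filter] at hv'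
          exact hex ⟨v, hv'.1, hv'.2⟩
        rw [this, card_empty]
        exact Nat.zero_le _
  exact key _ W hW hv le_rfl

end JK.CG
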