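import Pool.Agent.Lib.JK.PWt

/-! The weights of the fresh pentagons which are passed by a trail (S5, MP_c95763_co). -/

set_option autoImplicit false

namespace JK.CG

open Finset Classical

variable {V D : Type*} {G : CG V D} {K : Finset V} {F : Finset D}

section cy

variable {C : Finset V} {n : ℕ} {r : ZMod n → D}

/-- the `F`-darts at a vertex of a fresh circuit -/
lemma Cy.fdarts (h : Cy G F C n r) (hc : G.Cls K F) (hC : G.Adm K F C) (k : ZMod n) :
    F.filter (fun d => G.pi d = G.pi (r k)) = {r k, G.al (r (k - 1))} := by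
  have h2 := hc.F2 _ (hC.sub (h.memC k)) (hC.dis _ (h.memC k))
  have hne : r k ≠ G.al (r (k - 1)) := fun e => h.al_ne_r _ _ e.symm
  have hs : ({r k, G.al (r (k - 1))} : Finset D) ⊆ F.filter (fun d => G.pi d = G.pi (r k)) := by
    intro x hx
    rw [mem_insert, mem_singleton] at hx
    rw [mem_filter]
    rcases hx with rfl | rfl
    · exact ⟨h.memF k, rfl⟩
    · exact ⟨hc.Fal _ (h.memF _), by rw [h.nxt, sub_add_cancel]⟩
  exact (eq_of_subset_of_card_le hs (by rw [h2, card_pair hne])).symm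

lemma Cy.fcases (h : Cy G F C n r) (hc : G.Cls K F) (hC : G.Adm K F C) {d : D} (hd : d ∈ F)
    (hdC : G.pi d ∈ C) : ∃ k, d = r k ∨ d = G.al (r k) := by
  obtain ⟨k, hk⟩ := h.sur _ hdC
  have h1 : d ∈ F.filter (fun d => G.pi d = G.pi (r k)) := mem_filter.2 ⟨hd, hk.symm⟩
  rw [h.fdarts hc hC, mem_insert, mem_singleton] at h1
  rcases h1 with h1 | h1
  · exact ⟨k, Or.inl h1⟩
  · exact ⟨k - 1, Or.inr h1⟩

end cy

/-- a fresh vertex has only one dart outside `F` -/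
lemma leg_unique (hc : G.Cls K F) {v : V} (hv : v ∈ G.vs) (hvK : v ∉ K) {a b : D} (ha : a ∈ G.ds)
    (hb : b ∈ G.ds) (haF : a ∉ F) (hbF : b ∉ F) (hav : G.pi a = v) (hbv : G.pi b = v) : a = b := by
  by_contra hne
  have h2 := hc.F2 v hv hvK
  have h3 := G.cubic v hv
  have h4 : (F.filter fun d => G.pi d = v) ∪ {a, b} ⊆ G.ds.filter fun d => G.pi d = v := by
    intro x hx
    rw [mem_union, mem_filter, mem_insert, mem_singleton] at hx
    rw [mem_filter]
    rcases hx with h | rfl | rfl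
    · exact ⟨hc.Fsub h.1, h.2⟩
    · exact ⟨ha, hav⟩
    · exact ⟨hb, hbv⟩
  have h5 : Disjoint (F.filter fun d => G.pi d = v) ({a, b} : Finset D) := by
    rw [disjoint_left]
    intro x hx hx2
    rw [mem_filter] at hx
    rw [mem_insert, mem_singleton] at hx2
    rcases hx2 with rfl | rfl
    · exact haF hx.1
    · exact hbF hx.1
  have h6 := card_le_card h4
  rw [card_union_of_disjoint h5, card_pair hne] at h6
  omega

/-- coordinates with a given number of vertices -/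
lemma cir_cyn (hc : G.Cls K F) {v : V} (hv : ¬ G.Abs K F v) {n : ℕ}
    (hn : (G.cir K F v).card = n) {a : D} (haF : a ∈ F) (ha : G.pi a ∈ G.cir K F v) :
    ∃ r : ZMod n → D, Cy G F (G.cir K F v) n r ∧ r 0 = a := by
  subst hn
  exact cir_cy hc hv haF ha

/-- coordinates with a given number of vertices -/
lemma cir_cyn' (hc : G.Cls K F) {v : V} (hv : ¬ G.Abs K F v) {n : ℕ}
    (hn : (G.cir K F v).card = n) : ∃ r : ZMod n → D, Cy G F (G.cir K F v) n r := by
  have hC := adm_cir hv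
  have hvs : v ∈ G.vs := by
    unfold Abs at hv
    push Not at hv
    obtain ⟨Z, hZ, hvZ⟩ := hv
    exact hZ.sub hvZ
  have hvC := self_mem_cir (K := K) (F := F) hvs
  have h2 := hc.F2 v hvs (hC.dis v hvC)
  obtain ⟨a, ha⟩ : (F.filter fun d => G.pi d = v).Nonempty := card_pos.1 (by omega)
  rw [mem_filter] at ha
  obtain ⟨r, hr, -⟩ := cir_cyn hc hv hn ha.1 (by rw [ha.2]; exact hvC)
  exact ⟨r, hr⟩

/-- weights of one circuit which is passed at most once -/
theorem exists_py (hc : G.Cls K F) {A : Finset D} (hAs : A ⊆ G.ds) (hAF : ∀ d ∈ A, d ∉ F)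
    {v : V} (hv : ¬ G.Abs K F v) (h5 : (G.cir K F v).card = 5)
    (hA : (A.filter fun d => G.pi d ∈ G.cir K F v).card = 0 ∨
      (A.filter fun d => G.pi d ∈ G.cir K F v).card = 2) :
    ∃ y : D → ℕ, (∀ d ∈ F, G.pi d ∈ G.cir K F v → y (G.al d) = y d) ∧
      (∀ u ∈ G.cir K F v, ∑ d ∈ F.filter (fun d => G.pi d = u), y d =
        if ∃ a ∈ A, G.pi a = u then 3 else 2) ∧
      (∀ (z : D → ℕ) (t : V → ℕ), G.ZW z t → (∀ d ∈ F, G.pi d ∈ G.cir K F v → z d = y d) →
        ∀ W ⊆ G.vs, G.zc z t W ≤ 1 → ∃ W' ⊆ G.vs, G.zc z t W' ≤ 1 ∧ (Odd W.card → Odd W'.card) ∧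
          (G.cir K F v ⊆ W' ∨ Disjoint (G.cir K F v) W') ∧
          ∀ u, u ∉ G.cir K F v → (u ∈ W' ↔ u ∈ W)) := by
  have hC := adm_cir hv
  obtain ⟨r, hr⟩ := cir_cyn' hc hv h5
  rcases hA with h0 | h2
  · -- not passed
    have hno : ∀ u ∈ G.cir K F v, ¬ ∃ a ∈ A, G.pi a = u := by
      rintro u hu ⟨a, ha, hau⟩
      rw [card_eq_zero] at h0
      have : a ∈ A.filter fun d => G.pi d ∈ G.cir K F v := mem_filter.2 ⟨ha, hau ▸ hu⟩
      rw [h0] at this
      exact notMem_empty _ this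
    refine ⟨fun _ => 1, fun _ _ _ => rfl, ?_, ?_⟩
    · intro u hu
      rw [if_neg (hno u hu), sum_const, smul_eq_mul, mul_one]
      exact hc.F2 u (hC.sub hu) (hC.dis u hu)
    · intro z t hw hz W hW hv1
      refine ⟨W, hW, hv1, id, ?_, fun _ _ => Iff.rfl⟩
      refine hr.uncut hc.Fsub hw.sym ?_ hv1
      intro k
      rw [hz _ (hr.memF k) (hr.memC k)]
      exact one_ne_zero
  · -- passed
    obtain ⟨a, b, hab, hAB⟩ := card_eq_two.1 h2
    have ha : a ∈ A.filter fun d => G.pi d ∈ G.cir K F v := by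
      rw [hAB]
      exact mem_insert_self _ _
    have hb : b ∈ A.filter fun d => G.pi d ∈ G.cir K F v := by
      rw [hAB]
      exact mem_insert_of_mem (mem_singleton_self _)
    rw [mem_filter] at ha hb
    obtain ⟨i, hi⟩ := hr.sur _ ha.2
    obtain ⟨j, hj⟩ := hr.sur _ hb.2
    have hij : i ≠ j := by
      rintro rfl
      exact hab (leg_unique hc (hC.sub ha.2) (hC.dis _ ha.2) (hAs ha.1) (hAs hb.1) (hAF _ ha.1)
        (hAF _ hb.1) rfl (hj.symm.trans hi))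
    have hA2 : ∀ k : ZMod 5, (∃ a ∈ A, G.pi a = G.pi (r k)) ↔ (k = i ∨ k = j) := by
      intro k
      constructor
      · rintro ⟨x, hx, hxk⟩
        have h1 : x ∈ A.filter fun d => G.pi d ∈ G.cir K F v :=
          mem_filter.2 ⟨hx, hxk ▸ hr.memC k⟩
        rw [hAB, mem_insert, mem_singleton] at h1
        rcases h1 with rfl | rfl
        · exact Or.inl (hr.inj _ _ (hxk.symm.trans hi.symm))
        · exact Or.inr (hr.inj _ _ (hxk.symm.trans hj.symm))
      · rintro (rfl | rfl)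
        · exact ⟨a, ha.1, hi.symm⟩
        · exact ⟨b, hb.1, hj.symm⟩
    have hex : ∀ d : D, ∃ w : ℕ, ∀ k : ZMod 5, (d = r k ∨ d = G.al (r k)) → w = pw i j k := by
      intro d
      by_cases hd : ∃ k, d = r k ∨ d = G.al (r k)
      · obtain ⟨k, hk⟩ := hd
        refine ⟨pw i j k, ?_⟩
        intro l hl
        have : k = l := by
          rcases hk with hk | hk <;> rcases hl with hl | hl
          · exact hr.rinj (hk.symm.trans hl)
          · exact absurd (hl.symm.trans hk) (hr.al_ne_r _ _)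
          · exact absurd (hk.symm.trans hl) (hr.al_ne_r _ _)
          · exact hr.alinj hc.Fsub (hk.symm.trans hl)
        rw [this]
      · exact ⟨0, fun k hk => absurd ⟨k, hk⟩ hd⟩
    choose y hy using hex
    have yr : ∀ k, y (r k) = pw i j k := fun k => hy _ k (Or.inl rfl)
    have yal : ∀ k, y (G.al (r k)) = pw i j k := fun k => hy _ k (Or.inr rfl)
    refine ⟨y, ?_, ?_, ?_⟩
    · intro d hd hdC
      obtain ⟨k, rfl | rfl⟩ := hr.fcases hc hC hd hdC
      · rw [yal, yr]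
      · rw [G.al_al _ (hr.ds hc.Fsub _), yal, yr]
    · intro u hu
      obtain ⟨k, rfl⟩ := hr.sur u hu
      rw [hr.fdarts hc hC, sum_pair (fun e => hr.al_ne_r _ _ e.symm), yr, yal, add_comm,
        pw_sum i j hij k]
      exact (if_congr (hA2 k) rfl rfl).symm
    · intro z t hw hz W hW hv1
      refine hr.pass hc.Fsub hw hij ?_ hW hv1
      intro k
      rw [hz _ (hr.memF k) (hr.memC k), yr]

/-- **the weights of all passed circuits**: `Q` = circuits which are treated separately -/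
theorem exists_pz (hc : G.Cls K F) {A : Finset D} (hAs : A ⊆ G.ds) (hAF : ∀ d ∈ A, d ∉ F)
    (Q : V → Prop) (h5 : ∀ v, ¬ G.Abs K F v → ¬ Q v → (G.cir K F v).card = 5)
    (hA : ∀ v, ¬ G.Abs K F v → ¬ Q v → (A.filter fun d => G.pi d ∈ G.cir K F v).card = 0 ∨
      (A.filter fun d => G.pi d ∈ G.cir K F v).card = 2) :
    ∃ y : D → ℕ, (∀ d ∈ F, ¬ G.Abs K F (G.pi d) → ¬ Q (G.pi d) → y (G.al d) = y d) ∧
      (∀ u, ¬ G.Abs K F u → ¬ Q u → ∑ d ∈ F.filter (fun d => G.pi d = u), y d =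
        if ∃ a ∈ A, G.pi a = u then 3 else 2) ∧
      (∀ (z : D → ℕ) (t : V → ℕ), G.ZW z t → (∀ d ∈ F, ¬ G.Abs K F (G.pi d) → ¬ Q (G.pi d) →
        z d = y d) → ∀ v, ¬ G.Abs K F v → ¬ Q v →
        (∀ u ∈ G.cir K F v, ¬ Q u) →
        ∀ W ⊆ G.vs, G.zc z t W ≤ 1 → ∃ W' ⊆ G.vs, G.zc z t W' ≤ 1 ∧ (Odd W.card → Odd W'.card) ∧
          (G.cir K F v ⊆ W' ∨ Disjoint (G.cir K F v) W') ∧
          ∀ u, u ∉ G.cir K F v → (u ∈ W' ↔ u ∈ W)) := by
  have hex : ∀ C : Finset V, ∃ y : D → ℕ, ∀ v, ¬ G.Abs K F v → ¬ Q v → G.cir K F v = C →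
      (∀ d ∈ F, G.pi d ∈ C → y (G.al d) = y d) ∧
      (∀ u ∈ C, ∑ d ∈ F.filter (fun d => G.pi d = u), y d =
        if ∃ a ∈ A, G.pi a = u then 3 else 2) ∧
      (∀ (z : D → ℕ) (t : V → ℕ), G.ZW z t → (∀ d ∈ F, G.pi d ∈ C → z d = y d) →
        ∀ W ⊆ G.vs, G.zc z t W ≤ 1 → ∃ W' ⊆ G.vs, G.zc z t W' ≤ 1 ∧ (Odd W.card → Odd W'.card) ∧
          (C ⊆ W' ∨ Disjoint C W') ∧ ∀ u, u ∉ C → (u ∈ W' ↔ u ∈ W)) := by
    intro C
    by_cases h : ∃ v, ¬ G.Abs K F v ∧ ¬ Q v ∧ G.cir K F v = C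
    · obtain ⟨v, hv, hQ, rfl⟩ := h
      obtain ⟨y, hy⟩ := exists_py hc hAs hAF hv (h5 v hv hQ) (hA v hv hQ)
      exact ⟨y, fun _ _ _ _ => hy⟩
    · exact ⟨fun _ => 0, fun v hv hQ hC => absurd ⟨v, hv, hQ, hC⟩ h⟩
  choose y hy using hex
  have hvs : ∀ {v}, ¬ G.Abs K F v → v ∈ G.vs := by
    intro v hv
    unfold Abs at hv
    push Not at hv
    obtain ⟨Z, hZ, hvZ⟩ := hv
    exact hZ.sub hvZ
  refine ⟨fun d => y (G.cir K F (G.pi d)) d, ?_, ?_, ?_⟩
  · intro d hd hv hQ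
    beta_reduce
    rw [cir_al hc hd]
    exact (hy _ _ hv hQ rfl).1 d hd (self_mem_cir (hvs hv))
  · intro u hu hQ
    rw [← (hy _ _ hu hQ rfl).2.1 u (self_mem_cir (hvs hu))]
    refine sum_congr rfl fun d hd => ?_
    beta_reduce
    rw [(mem_filter.1 hd).2]
  · intro z t hw hz v hv hQ hQ2 W hW hv1
    refine (hy _ _ hv hQ rfl).2.2 z t hw ?_ W hW hv1
    intro d hd hdC
    rw [hz d hd (fun h => h _ (adm_cir hv) hdC) (hQ2 _ hdC)]
    beta_reduce
    rw [cir_eq hc hv hdC]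

end JK.CG
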