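import Pool.Agent.Lib.JK.Tame
import Pool.Agent.Lib.JK.DelV
import Pool.Agent.Lib.JK.Tutte

/-! Passes which kill no edge of a 2-factor `F` (S5, MP_c95763_co).

`TwoF F`: `F` is a 2-factor of `G` (tokens are not in `F`). `J0 = ds \ F` has exactly one dart at
every vertex. A tame structure without landing (`TN`) is a killed structure with
`A = J0 \ M0`, all killed darts are paired. With two tokens, or with three tokens one of which stays
live, such a structure killing the two tokens always exists in a bridgeless graph. -/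

set_option autoImplicit false

namespace JK.CG

open Finset Classical

variable {V D : Type*} (G : CG V D)

/-- `F` is a 2-factor -/
structure TwoF (F : Finset D) : Prop where
  sub : F ⊆ G.ds
  al : ∀ d ∈ F, G.al d ∈ F
  tok : ∀ d ∈ F, G.al d ≠ d
  two : ∀ v ∈ G.vs, (F.filter fun d => G.pi d = v).card = 2

namespace TwoF

variable {G} {F : Finset D}

/-- exactly one dart outside `F` at every vertex -/
lemma one (h : G.TwoF F) {v : V} (hv : v ∈ G.vs) :
    ((G.ds \ F).filter fun d => G.pi d = v).card = 1 := by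
  have h1 := G.cubic v hv
  have h2 := h.two v hv
  have h3 : (G.ds.filter fun d => G.pi d = v) =
      ((G.ds \ F).filter fun d => G.pi d = v) ∪ (F.filter fun d => G.pi d = v) := by
    rw [← filter_union, sdiff_union_of_subset h.sub]
  have h4 : Disjoint ((G.ds \ F).filter fun d => G.pi d = v) (F.filter fun d => G.pi d = v) := by
    rw [disjoint_left]
    intro d hd hd'
    exact (mem_sdiff.1 (mem_filter.1 hd).1).2 (mem_filter.1 hd').1
  rw [h3, card_union_of_disjoint h4] at h1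
  omega

lemma exists_J (h : G.TwoF F) {v : V} (hv : v ∈ G.vs) :
    ∃ d ∈ G.ds \ F, G.pi d = v := by
  obtain ⟨d, hd⟩ := card_pos.1 (show 0 < ((G.ds \ F).filter fun d => G.pi d = v).card by
    rw [h.one hv]; exact Nat.one_pos)
  rw [mem_filter] at hd
  exact ⟨d, hd.1, hd.2⟩

lemma J_inj (h : G.TwoF F) : ∀ d ∈ G.ds \ F, ∀ e ∈ G.ds \ F, G.pi d = G.pi e → d = e := by
  intro d hd e he hde
  have h1 := h.one (G.pi_mem e (mem_sdiff.1 he).1)
  exact card_le_one.1 h1.le d (mem_filter.2 ⟨hd, hde⟩) e (mem_filter.2 ⟨he, rfl⟩)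

lemma J_al (h : G.TwoF F) : ∀ d ∈ G.ds \ F, G.al d ∈ G.ds \ F := by
  intro d hd
  rw [mem_sdiff] at hd ⊢
  refine ⟨G.al_mem d hd.1, fun h1 => hd.2 ?_⟩
  rw [← G.al_al d hd.1]
  exact h.al _ h1

lemma tok_J (h : G.TwoF F) {d : D} (hd : d ∈ G.ds) (ht : G.al d = d) : d ∈ G.ds \ F :=
  mem_sdiff.2 ⟨hd, fun h1 => h.tok d h1 ht⟩

end TwoF

/-- tame data without landing -/
structure TN (J0 M0 : Finset D) : Prop where
  Jsub : J0 ⊆ G.ds
  Msub : M0 ⊆ G.ds
  Jal : ∀ d ∈ J0, G.al d ∈ J0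
  Mal : ∀ d ∈ M0, G.al d ∈ M0
  Jinj : ∀ d ∈ J0, ∀ e ∈ J0, G.pi d = G.pi e → d = e
  Minj : ∀ d ∈ M0, ∀ e ∈ M0, G.pi d = G.pi e → d = e
  Mtok : ∀ e ∈ M0, e ∉ J0 → G.al e ≠ e
  MJ : ∀ e ∈ M0, e ∉ J0 → ∃ d ∈ J0, G.pi d = G.pi e
  JM : ∀ d ∈ J0, d ∉ M0 → ∃ e ∈ M0, G.pi e = G.pi d

/-- the new pairing -/
noncomputable def taln (J0 M0 : Finset D) (d : D) : D :=
  if d ∈ J0 ∧ d ∉ M0 then G.dt J0 (G.pi (G.al (G.tp M0 d))) d else G.al d

namespace TN

variable {G} {J0 M0 : Finset D}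

/-- the basic facts -/
lemma step (h : G.TN J0 M0) {d : D} (hd : d ∈ J0) (hM : d ∉ M0) :
    ∃ e d', e ∈ M0 ∧ e ∉ J0 ∧ G.pi e = G.pi d ∧ G.al e ≠ e ∧ d' ∈ J0 ∧ d' ∉ M0 ∧ d' ≠ d ∧
      G.pi d' = G.pi (G.al e) ∧ G.tp M0 d = e ∧ G.tp M0 d' = G.al e ∧
      G.taln J0 M0 d = d' ∧ G.taln J0 M0 d' = d := by
  obtain ⟨e, he, hep⟩ := h.JM d hd hM
  have heJ : e ∉ J0 := fun h1 => hM (by rw [← h.Jinj e h1 d hd hep]; exact he)
  have het := h.Mtok e he heJ
  have haM := h.Mal e he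
  have hes := h.Msub he
  have haJ : G.al e ∉ J0 := fun h1 => heJ (by rw [← G.al_al e hes]; exact h.Jal _ h1)
  obtain ⟨d', hd', hdp'⟩ := h.MJ _ haM haJ
  have hdM' : d' ∉ M0 := fun h1 => haJ (by rw [← h.Minj d' h1 _ haM hdp']; exact hd')
  have hne : d' ≠ d := by
    intro h1
    apply het
    apply h.Minj _ haM _ he
    rw [← hdp', h1, hep]
  have t1 : G.tp M0 d = e := by
    unfold tp
    rw [← hep]
    exact G.dt_eq h.Minj he d
  have t2 : G.tp M0 d' = G.al e := by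
    unfold tp
    rw [hdp']
    exact G.dt_eq h.Minj haM d'
  refine ⟨e, d', he, heJ, hep, het, hd', hdM', hne, hdp', t1, t2, ?_, ?_⟩
  · unfold taln
    rw [if_pos ⟨hd, hM⟩, t1, ← hdp']
    exact G.dt_eq h.Jinj hd' d
  · unfold taln
    rw [if_pos ⟨hd', hdM'⟩, t2, G.al_al e hes, hep]
    exact G.dt_eq h.Jinj hd d'

/-- there is no landing -/
lemma nofix (h : G.TN J0 M0) : ∀ d ∈ J0 \ M0, G.taln J0 M0 d ≠ d := by
  intro d hd
  rw [mem_sdiff] at hd
  obtain ⟨e, d', -, -, -, -, -, -, hne, -, -, -, h1, -⟩ := h.step hd.1 hd.2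
  rw [h1]
  exact hne

/-- tame data give a killed structure -/
theorem kd (h : G.TN J0 M0) : G.KD (J0 \ M0) (G.taln J0 M0) (G.tp M0) := by
  refine ⟨?_, ?_, ?_, ?_, ?_, ?_, ?_⟩
  · exact sdiff_subset.trans h.Jsub
  · intro d hd
    rw [mem_sdiff] at hd ⊢
    refine ⟨h.Jal d hd.1, fun h1 => hd.2 ?_⟩
    rw [← G.al_al d (h.Jsub hd.1)]
    exact h.Mal _ h1
  · intro d hd
    rw [mem_sdiff] at hd
    obtain ⟨e, d', -, -, -, -, h1, h2, -, -, -, -, h3, -⟩ := h.step hd.1 hd.2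
    rw [h3, mem_sdiff]
    exact ⟨h1, h2⟩
  · intro d hd
    rw [mem_sdiff] at hd
    obtain ⟨e, d', -, -, -, -, h1, h2, -, -, -, -, h3, h4⟩ := h.step hd.1 hd.2
    rw [h3, h4]
  · intro d hd hA
    unfold taln
    rw [if_neg]
    rw [mem_sdiff] at hA
    exact hA
  · intro d hd e he
    exact h.Jinj d (mem_sdiff.1 hd).1 e (mem_sdiff.1 he).1
  · intro d hd hne
    rw [mem_sdiff] at hd
    obtain ⟨e, d', a1, a2, a3, a4, a5, a6, a8, a9, b1, b2, b3, b4⟩ := h.step hd.1 hd.2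
    rw [b3, b1, b2]
    refine ⟨h.Msub a1, ?_, a4, a3, rfl⟩
    rw [mem_sdiff]
    exact fun h1 => h1.2 a1

/-- the pair edges are in `M0 \ J0` -/
lemma tp_mem (h : G.TN J0 M0) : ∀ d ∈ J0 \ M0, G.tp M0 d ∈ M0 ∧ G.tp M0 d ∉ J0 := by
  intro d hd
  rw [mem_sdiff] at hd
  obtain ⟨e, d', a1, a2, a3, a4, a5, a6, a8, a9, b1, b2, b3, b4⟩ := h.step hd.1 hd.2
  rw [b1]
  exact ⟨a1, a2⟩

/-- the darts of `M0 \ J0` are the pair edges -/
lemma exists_pair (h : G.TN J0 M0) {e : D} (he : e ∈ M0) (heJ : e ∉ J0) :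
    ∃ d, d ∈ J0 ∧ d ∉ M0 ∧ G.pi d = G.pi e ∧ G.tp M0 d = e := by
  obtain ⟨d, hd, hdp⟩ := h.MJ e he heJ
  refine ⟨d, hd, fun h1 => heJ ?_, hdp, ?_⟩
  · rw [← h.Minj d h1 e he hdp]; exact hd
  · unfold tp
    rw [hdp]
    exact G.dt_eq h.Minj he d

/-- **the cuts of the new graph**: the complement of `J0`, and `M0` -/
theorem dg_eq (h : G.TN J0 M0) (X : Finset V) : h.kd.gr.dg X =
    ((G.bd X ∪ G.tk X) \ J0).card + (M0 ∩ (G.bd X ∪ G.tk X)).card := by
  rw [dg_eq_card_union]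
  set al' := G.taln J0 M0 with hal
  have m1 : ∀ d, d ∈ h.kd.gr.bd X ∪ h.kd.gr.tk X ↔ d ∈ G.ds ∧ G.pi d ∈ X ∧
      (G.pi (al' d) ∉ X ∨ al' d = d) := by
    intro d
    rw [mem_union, mem_bd, mem_tk]
    show (d ∈ G.ds ∧ G.pi d ∈ X ∧ G.pi (al' d) ∉ X) ∨ (d ∈ G.ds ∧ G.pi d ∈ X ∧ al' d = d) ↔ _
    tauto
  have off : ∀ d, ¬ (d ∈ J0 ∧ d ∉ M0) → al' d = G.al d := fun d hd => by
    rw [hal]; unfold taln; rw [if_neg hd]
  have nf : ∀ d, d ∈ J0 → d ∉ M0 → al' d ≠ d := fun d h1 h2 =>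
    h.nofix d (mem_sdiff.2 ⟨h1, h2⟩)
  set P1 := (G.bd X ∪ G.tk X) \ J0 with hP1
  set P2 := (M0 ∩ (G.bd X ∪ G.tk X)).filter fun d => d ∈ J0 with hP2
  set P3 := (J0 \ M0).filter fun d => G.pi d ∈ X ∧ G.pi (al' d) ∉ X with hP3
  have e0 : h.kd.gr.bd X ∪ h.kd.gr.tk X = (P1 ∪ P2) ∪ P3 := by
    ext d
    rw [m1, mem_union, mem_union]
    simp only [hP1, hP2, hP3, mem_sdiff, mem_filter, mem_inter, mem_union, mem_bd, mem_tk]
    constructor
    · rintro ⟨a, b, c⟩
      by_cases hJ : d ∈ J0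
      · by_cases hM : d ∈ M0
        · rw [off d (fun hh => hh.2 hM)] at c
          left; right
          refine ⟨⟨hM, ?_⟩, hJ⟩
          tauto
        · right
          refine ⟨⟨hJ, hM⟩, b, ?_⟩
          rcases c with c | c
          · exact c
          · exact absurd c (nf d hJ hM)
      · rw [off d (fun hh => hJ hh.1)] at c
        left; left
        refine ⟨?_, hJ⟩
        tauto
    · rintro ((⟨a, b⟩ | ⟨⟨a, b⟩, c⟩) | ⟨⟨a, b⟩, e, f⟩)
      · rw [off d (fun hh => b hh.1)]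
        tauto
      · rw [off d (fun hh => hh.2 a)]
        tauto
      · exact ⟨h.Jsub a, e, Or.inl f⟩
  have d1 : Disjoint P1 P2 := by
    rw [disjoint_left]
    intro d h1 h2
    exact (mem_sdiff.1 h1).2 (mem_filter.1 h2).2
  have d2 : Disjoint (P1 ∪ P2) P3 := by
    rw [disjoint_left]
    intro d h1 h2
    have h3 := mem_sdiff.1 (mem_filter.1 h2).1
    rcases mem_union.1 h1 with h4 | h4
    · exact (mem_sdiff.1 h4).2 h3.1
    · exact h3.2 (mem_inter.1 (mem_filter.1 h4).1).1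
  have c3 : P3.card = ((M0 ∩ (G.bd X ∪ G.tk X)).filter fun d => d ∉ J0).card := by
    apply card_nbij (G.tp M0)
    · intro d hd
      rw [mem_coe, hP3, mem_filter, mem_sdiff] at hd
      obtain ⟨⟨a, b⟩, e, f⟩ := hd
      obtain ⟨e', d', a1, a2, a3, a4, a5, a6, a8, a9, b1, b2, b3, b4⟩ := h.step a b
      rw [hal, b3, a9] at f
      rw [b1, mem_coe, mem_filter, mem_inter, mem_union, mem_bd]
      exact ⟨⟨a1, Or.inl ⟨h.Msub a1, by rw [a3]; exact e, f⟩⟩, a2⟩
    · intro d hd e he hde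
      rw [mem_coe, hP3, mem_filter, mem_sdiff] at hd he
      obtain ⟨e', d', a1, a2, a3, a4, a5, a6, a8, a9, b1, b2, b3, b4⟩ :=
        h.step hd.1.1 hd.1.2
      obtain ⟨e'', d'', a1', a2', a3', a4', a5', a6', a8', a9', b1', b2', b3', b4'⟩ :=
        h.step he.1.1 he.1.2
      apply h.Jinj d hd.1.1 e he.1.1
      rw [← a3, ← a3', ← b1, ← b1', hde]
    · intro e he
      rw [mem_coe, mem_filter, mem_inter, mem_union, mem_bd, mem_tk] at he
      obtain ⟨⟨a, b⟩, c⟩ := he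
      obtain ⟨d, x1, x2, x4, x5⟩ := h.exists_pair a c
      obtain ⟨e', d', a1, a2, a3, a4, a5, a6, a8, a9, b1, b2, b3, b4⟩ := h.step x1 x2
      have hee : e' = e := by rw [← b1]; exact x5
      subst hee
      refine ⟨d, ?_, x5⟩
      rw [mem_coe, hP3, mem_filter, mem_sdiff]
      refine ⟨⟨x1, x2⟩, ?_, ?_⟩
      · rw [x4]
        rcases b with b | b
        · exact b.2.1
        · exact b.2.1
      · rw [hal, b3, a9]
        rcases b with b | b
        · exact b.2.2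
        · exact absurd b.2.2 a4
  have c5 : P2.card + ((M0 ∩ (G.bd X ∪ G.tk X)).filter fun d => d ∉ J0).card =
      (M0 ∩ (G.bd X ∪ G.tk X)).card := Finset.card_filter_add_card_filter_not _
  rw [e0, card_union_of_disjoint d2, card_union_of_disjoint d1]
  omega

end TN

variable {G}

/-- a set of darts with one dart at every vertex gives tame data without landing -/
lemma TwoF.tn {F M0 : Finset D} (hF : G.TwoF F) (hM : M0 ⊆ G.ds) (hal : ∀ d ∈ M0, G.al d ∈ M0)
    (h1 : ∀ v ∈ G.vs, (M0.filter fun d => G.pi d = v).card = 1) : G.TN (G.ds \ F) M0 := by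
  refine ⟨sdiff_subset, hM, hF.J_al, hal, hF.J_inj, ?_, ?_, ?_, ?_⟩
  · intro d hd e he hde
    exact card_le_one.1 (h1 _ (G.pi_mem e (hM he))).le d (mem_filter.2 ⟨hd, hde⟩) e
      (mem_filter.2 ⟨he, rfl⟩)
  · intro e he hJ ht
    exact hJ (hF.tok_J (hM he) ht)
  · intro e he _
    exact hF.exists_J (G.pi_mem e (hM he))
  · intro d hd _
    obtain ⟨e, he⟩ := card_pos.1 (show 0 < (M0.filter fun e => G.pi e = G.pi d).card by
      rw [h1 _ (G.pi_mem d (mem_sdiff.1 hd).1)]; exact Nat.one_pos)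
    rw [mem_filter] at he
    exact ⟨e, he.1, he.2⟩

/-- the whole graph has an empty boundary -/
lemma bd_vs : G.bd G.vs = ∅ := by
  rw [eq_empty_iff_forall_notMem]
  intro d hd
  rw [mem_bd] at hd
  exact hd.2.2 (G.pi_mem _ (G.al_mem d hd.1))

lemma dg_vs : G.dg G.vs = (G.tk G.vs).card := by
  unfold dg
  rw [bd_vs, card_empty, Nat.zero_add]

/-- **(a)** two tokens: a tame pass killing both -/
theorem pass_two {F : Finset D} (hF : G.TwoF F) (hb : G.B0) (h2 : (G.tk G.vs).card = 2) :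
    ∃ M0, G.TN (G.ds \ F) M0 ∧ ∀ d ∈ G.ds, G.al d = d → d ∈ (G.ds \ F) \ M0 := by
  have he : Even G.vs.card := by
    rw [← Nat.not_odd_iff_even, ← G.dg_parity (subset_refl _), dg_vs, h2]
    decide
  obtain ⟨M, hM⟩ := G.exists_pm he (by omega) hb
  refine ⟨M, hF.tn hM.sub hM.closed hM.one, ?_⟩
  intro d hd ht
  rw [mem_sdiff]
  exact ⟨hF.tok_J hd ht, fun h => hM.notok d h ht⟩

/-- **(b)** three tokens: a tame pass killing two of them, the token `g` stays live -/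
theorem pass_three {F : Finset D} (hF : G.TwoF F) (hb : G.B0) (h3 : (G.tk G.vs).card = 3)
    {g : D} (hg : g ∈ G.ds) (hgt : G.al g = g) :
    ∃ M0, G.TN (G.ds \ F) M0 ∧ g ∈ M0 ∧
      ∀ d ∈ G.ds, G.al d = d → d ≠ g → d ∈ (G.ds \ F) \ M0 := by
  set U : Finset V := {G.pi g} with hU
  have hgv := G.pi_mem g hg
  have hUs : U ⊆ G.vs := by
    intro v hv
    rw [hU, mem_singleton] at hv
    rw [hv]; exact hgv
  -- at `pi g` the only token is `g`
  have htU : G.tk U = {g} := by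
    ext d
    rw [mem_tk, hU, mem_singleton, mem_singleton]
    constructor
    · rintro ⟨h1, h2, h4⟩
      exact hF.J_inj d (hF.tok_J h1 h4) g (hF.tok_J hg hgt) h2
    · rintro rfl
      exact ⟨hg, rfl, hgt⟩
  have hdU : G.dg U = 3 := hb.dg_singleton hgv
  have hbU : (G.bd U).card = 2 := by
    unfold dg at hdU
    rw [htU, card_singleton] at hdU
    omega
  have hodd : Odd G.vs.card := by
    rw [← G.dg_parity (subset_refl _), dg_vs, h3]
    decide
  have hcard : (G.vs \ U).card + 1 = G.vs.card := by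
    have := card_sdiff_add_card_eq_card hUs
    rw [hU, card_singleton] at this
    exact this
  have he : Even (G.delV U).vs.card := by
    show Even (G.vs \ U).card
    rw [← hcard] at hodd
    rw [← Nat.not_odd_iff_even]
    intro h
    exact (Nat.not_odd_iff_even.2 (h.add_odd odd_one)) hodd
  have htk : ((G.delV U).tk (G.delV U).vs).card ≤ 4 := by
    have := G.delV_tk_card hUs
    rw [htU, card_singleton, h3, hbU] at this
    omega
  obtain ⟨N, hN⟩ := (G.delV U).exists_pm he htk (G.delV_b0 hb U)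
  have hNs : ∀ d ∈ N, d ∈ G.ds ∧ G.pi d ∉ U := fun d hd => by
    have := hN.sub hd
    rwa [mem_delV_ds] at this
  have hNal : ∀ d ∈ N, (G.delV U).al d = G.al d := by
    intro d hd
    by_cases h : G.pi (G.al d) ∈ U
    · exact absurd (G.delV_al_in h) (hN.notok d hd)
    · exact G.delV_al_of h
  have hgN : g ∉ N := fun h => (hNs g h).2 (by rw [hU]; exact mem_singleton_self _)
  refine ⟨insert g N, hF.tn ?_ ?_ ?_, mem_insert_self _ _, ?_⟩
  · intro d hd
    rw [mem_insert] at hd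
    rcases hd with rfl | hd
    · exact hg
    · exact (hNs d hd).1
  · intro d hd
    rw [mem_insert] at hd ⊢
    rcases hd with rfl | hd
    · exact Or.inl hgt
    · right
      rw [← hNal d hd]
      exact hN.closed d hd
  · intro v hv
    rw [filter_insert]
    by_cases hvg : G.pi g = v
    · have : (N.filter fun d => G.pi d = v) = ∅ := by
        apply filter_false_of_mem
        intro d hd h
        exact (hNs d hd).2 (by rw [hU, mem_singleton, h, hvg])
      rw [if_pos hvg, this, insert_empty_eq, card_singleton]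
    · rw [if_neg hvg]
      apply hN.one
      show v ∈ G.vs \ U
      rw [mem_sdiff, hU, mem_singleton]
      exact ⟨hv, fun h => hvg h.symm⟩
  · intro d hd ht hne
    rw [mem_sdiff]
    refine ⟨hF.tok_J hd ht, ?_⟩
    rw [mem_insert, not_or]
    refine ⟨hne, fun h => hN.notok d h ?_⟩
    rw [hNal d h, ht]

end JK.CG
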