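import Pool.Agent.Lib.JK.Pass

/-! Landing in a set `T`, or a barrier (S5, MP_c95763_co).

`F` is a 2-factor of `G`, `J0 = ds \ F`, `τ` is a token, all other tokens stay live. Either there is a
tame structure killing `τ` and landing at a vertex of `T`, or there is a set `A` and `|A| + 1` disjoint
odd sets avoiding `T` such that all edges leaving one of them go to `A` or to vertices with other
tokens. -/

set_option autoImplicit false

namespace JK.CG

open Finset Classical

variable {V D : Type*} (G : CG V D)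

/-- the graph on `W` with an additional vertex `none` joined to `T` -/
def h88T (W T : Finset V) : SimpleGraph (Option {v // v ∈ W}) where
  Adj a b := (∃ u w : {v // v ∈ W}, a = some u ∧ b = some w ∧ u ≠ w ∧
      ∃ d ∈ G.ds, G.pi d = u ∧ G.pi (G.al d) = w) ∨
    (a = none ∧ ∃ w : {v // v ∈ W}, b = some w ∧ (w : V) ∈ T) ∨
    (b = none ∧ ∃ w : {v // v ∈ W}, a = some w ∧ (w : V) ∈ T)
  symm := ⟨by
    rintro a b (⟨u, w, h1, h2, h3, d, hd, h4, h5⟩ | h | h)
    · exact Or.inl ⟨w, u, h2, h1, h3.symm, G.al d, G.al_mem d hd, h5, by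
        rw [G.al_al d hd]; exact h4⟩
    · exact Or.inr (Or.inr h)
    · exact Or.inr (Or.inl h)⟩
  loopless := ⟨by
    rintro a (⟨u, w, h1, h2, h3, -⟩ | ⟨h1, w, h2, -⟩ | ⟨h1, w, h2, -⟩)
    · rw [h1] at h2
      exact h3 (Option.some.inj h2)
    · rw [h1] at h2
      exact absurd h2 (by simp)
    · rw [h1] at h2
      exact absurd h2 (by simp)⟩

/-- a perfect matching of the extended graph gives a perfect matching of `G` without `z ∈ T` and
without the vertices outside `W` -/
lemma h88T_pm {W T : Finset V} (hW : W ⊆ G.vs) (M : (G.h88T W T).Subgraph)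
    (hM : M.IsPerfectMatching) :
    ∃ z ∈ T, z ∈ W ∧ ∃ N, (G.delV (insert z (G.vs \ W))).IsPM N := by
  obtain ⟨x, hx, hxu⟩ := hM.1 (hM.2 none)
  have hz : ∃ z : {v // v ∈ W}, x = some z ∧ (z : V) ∈ T := by
    rcases M.adj_sub hx with ⟨u, w, h1, -⟩ | ⟨-, w, h1, h2⟩ | ⟨-, w, h1, -⟩
    · exact absurd h1 (by simp)
    · exact ⟨w, h1, h2⟩
    · exact absurd h1 (by simp)
  obtain ⟨z, rfl, hzT⟩ := hz
  refine ⟨z, hzT, z.2, ?_⟩
  set U : Finset V := insert (z : V) (G.vs \ W) with hU
  have hmem : ∀ v, v ∈ (G.delV U).vs → v ∈ W ∧ v ≠ (z : V) := by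
    intro v hv
    have hv' : v ∈ G.vs \ U := hv
    rw [mem_sdiff, hU, mem_insert, not_or, mem_sdiff] at hv'
    refine ⟨?_, hv'.2.1⟩
    by_contra h
    exact hv'.2.2 ⟨hv'.1, h⟩
  -- the subgraph
  let N : (h88S (G.delV U)).Subgraph :=
    { verts := Set.univ
      Adj := fun u w => M.Adj (some ⟨u, (hmem u u.2).1⟩) (some ⟨w, (hmem w w.2).1⟩)
      adj_sub := by
        intro u w huw
        rcases M.adj_sub huw with ⟨u', w', h1, h2, h3, d, hd, h4, h5⟩ | ⟨h1, -⟩ | ⟨h1, -⟩
        · have e1 := Option.some.inj h1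
          have e2 := Option.some.inj h2
          have hu : G.pi d = (u : V) := by rw [h4, ← e1]
          have hw : G.pi (G.al d) = (w : V) := by rw [h5, ← e2]
          have hu' := u.2
          have hw' : (w : V) ∈ G.vs \ U := w.2
          have hu'' : (u : V) ∈ G.vs \ U := u.2
          have hwU : G.pi (G.al d) ∉ U := by rw [hw]; exact (mem_sdiff.1 hw').2
          refine ⟨?_, d, ?_, hu, ?_⟩
          · intro h
            apply h3
            rw [← e1, ← e2]
            exact Subtype.ext (by rw [h])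
          · rw [mem_delV_ds]
            refine ⟨hd, ?_⟩
            rw [hu]
            exact (mem_sdiff.1 hu'').2
          · show G.pi ((G.delV U).al d) = w
            rw [G.delV_al_of hwU]
            exact hw
        · exact absurd h1 (by simp)
        · exact absurd h1 (by simp)
      edge_vert := fun _ => Set.mem_univ _
      symm := ⟨fun u w h => M.symm.symm _ _ h⟩ }
  apply h88_pm (G.delV U) N
  refine ⟨?_, fun v => Set.mem_univ v⟩
  intro u _
  obtain ⟨y, hy, hyu⟩ := hM.1 (hM.2 (some ⟨(u : V), (hmem u u.2).1⟩))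
  have hyw : ∃ w : {v // v ∈ W}, y = some w := by
    cases y with
    | none =>
      exfalso
      have h1 := hxu _ (M.symm.symm _ _ hy)
      have h2 := Option.some.inj h1
      exact (hmem u u.2).2 (congrArg Subtype.val h2)
    | some w => exact ⟨w, rfl⟩
  obtain ⟨w, rfl⟩ := hyw
  have hwz : (w : V) ≠ z := by
    intro h
    have hwz' : w = z := Subtype.ext h
    rw [hwz'] at hy
    obtain ⟨y', hy', hyu'⟩ := hM.1 (hM.2 (some z))
    have h1 := hyu' _ (M.symm.symm _ _ hx)
    have h2 := hyu' _ (M.symm.symm _ _ hy)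
    rw [← h1] at h2
    exact absurd h2 (by simp)
  have hwv : (w : V) ∈ (G.delV U).vs := by
    show (w : V) ∈ G.vs \ U
    rw [mem_sdiff, hU, mem_insert, not_or, mem_sdiff]
    exact ⟨hW w.2, hwz, fun h => h.2 w.2⟩
  refine ⟨⟨(w : V), hwv⟩, hy, ?_⟩
  intro w' hw'
  have h1 := hyu _ hw'
  have h2 := congrArg Subtype.val (Option.some.inj h1)
  exact Subtype.ext h2

/-- barrier with respect to `W` and `T` -/
structure BarT (W T A : Finset V) (P : Finset (Finset V)) : Prop where
  Asub : A ⊆ W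
  sub : ∀ X ∈ P, X ⊆ W
  dis : ∀ X ∈ P, Disjoint X A
  odd : ∀ X ∈ P, Odd X.card
  disT : ∀ X ∈ P, Disjoint X T
  pair : ∀ X ∈ P, ∀ Y ∈ P, X ≠ Y → Disjoint X Y
  out : ∀ X ∈ P, ∀ d ∈ G.bd X, G.pi (G.al d) ∈ A ∨ G.pi (G.al d) ∉ W

/-- Tutte for the extended graph: `hJ` = every set of disjoint closed odd sets has at most
`|A| + 1` members -/
lemma exists_barT {W T : Finset V} (hW : W ⊆ G.vs) (ho : Odd W.card)
    (hJ : ∀ A P, G.BarT W ∅ A P → P.card ≤ A.card + 1)
    (hno : ¬ ∃ z ∈ T, z ∈ W ∧ ∃ N, (G.delV (insert z (G.vs \ W))).IsPM N) :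
    ∃ A P, G.BarT W T A P ∧ P.card = A.card + 1 := by
  have hnot : ¬ ∃ M : (G.h88T W T).Subgraph, M.IsPerfectMatching := fun ⟨M, hM⟩ =>
    hno (G.h88T_pm hW M hM)
  rw [SimpleGraph.tutte] at hnot
  push Not at hnot
  obtain ⟨u, hu⟩ := hnot
  unfold SimpleGraph.IsTutteViolator at hu
  set S : (G.h88T W T).Subgraph := (⊤ : (G.h88T W T).Subgraph).deleteVerts u with hS
  set H := S.coe with hH
  have hverts : ∀ w : Option {v // v ∈ W}, w ∈ S.verts ↔ w ∉ u := by
    intro w
    simp [hS]
  have : Finite S.verts := Subtype.finite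
  have : Finite H.ConnectedComponent := Quot.finite _
  have : Fintype H.ConnectedComponent := Fintype.ofFinite _
  set A : Finset V := W.filter fun v => ∃ h : v ∈ W, (some ⟨v, h⟩ : Option {v // v ∈ W}) ∈ u
    with hA
  have hAcard : A.card + (if (none : Option {v // v ∈ W}) ∈ u then 1 else 0) = u.ncard := by
    have h1 : A.card = (some '' ((fun x : {v // v ∈ W} => (some x : Option {v // v ∈ W})) ⁻¹' u) :
        Set (Option {v // v ∈ W})).ncard := by
      rw [Set.ncard_image_of_injective _ (Option.some_injective _), ← Set.ncard_coe_finset]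
      have : (A : Set V) = Subtype.val ''
          ((fun x : {v // v ∈ W} => (some x : Option {v // v ∈ W})) ⁻¹' u) := by
        ext v
        simp only [hA, coe_filter, Set.mem_image, Set.mem_preimage]
        constructor
        · rintro ⟨_, h, h'⟩; exact ⟨⟨v, h⟩, h', rfl⟩
        · rintro ⟨⟨w, hw⟩, h, rfl⟩; exact ⟨hw, hw, h⟩
      rw [this, Set.ncard_image_of_injective _ Subtype.val_injective]
    rw [h1]
    split_ifs with hn
    · have h2 : u = insert none
          (some '' ((fun x : {v // v ∈ W} => (some x : Option {v // v ∈ W})) ⁻¹' u)) := by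
        ext x
        cases x with
        | none => simp [hn]
        | some x => simp
      conv_rhs => rw [h2]
      rw [Set.ncard_insert_of_notMem (by simp)]
    · have h2 : u =
          (some '' ((fun x : {v // v ∈ W} => (some x : Option {v // v ∈ W})) ⁻¹' u)) := by
        ext x
        cases x with
        | none => simp [hn]
        | some x => simp
      conv_rhs => rw [h2]
      rw [Nat.add_zero]
  -- the components
  set Q : H.ConnectedComponent → Finset V := fun c => W.filter fun v =>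
    ∃ (h : v ∈ W) (h' : (some ⟨v, h⟩ : Option {v // v ∈ W}) ∈ S.verts),
      H.connectedComponentMk ⟨some ⟨v, h⟩, h'⟩ = c with hQ
  have hQsub : ∀ c, Q c ⊆ W := fun c => filter_subset _ _
  have hQA : ∀ c, Disjoint (Q c) A := by
    intro c
    rw [disjoint_left]
    intro v hv hv'
    rw [hQ, mem_filter] at hv
    rw [hA, mem_filter] at hv'
    obtain ⟨_, h, h1, -⟩ := hv
    obtain ⟨_, h', h2⟩ := hv'
    exact (hverts _).1 h1 h2
  have hQdis : ∀ c c', c ≠ c' → Disjoint (Q c) (Q c') := by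
    intro c c' hcc
    rw [Finset.disjoint_left]
    intro v hv hv'
    simp only [hQ, mem_filter] at hv hv'
    obtain ⟨_, h, h1, h2⟩ := hv
    obtain ⟨_, h', h1', h2'⟩ := hv'
    exact hcc (h2.symm.trans h2')
  have hleave : ∀ c, ∀ d ∈ G.bd (Q c), G.pi (G.al d) ∈ A ∨ G.pi (G.al d) ∉ W := by
    intro c d hd
    rw [G.mem_bd] at hd
    obtain ⟨hds, hp, hp'⟩ := hd
    by_contra hcon
    rw [not_or, not_not] at hcon
    obtain ⟨hnU, hpa⟩ := hcon
    have hnu : (some ⟨G.pi (G.al d), hpa⟩ : Option {v // v ∈ W}) ∉ u := by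
      intro h
      exact hnU (by simp only [hA, mem_filter]; exact ⟨hpa, hpa, h⟩)
    have hv2 := (hverts _).mpr hnu
    simp only [hQ, mem_filter] at hp
    obtain ⟨hpv, h, h', h''⟩ := hp
    apply hp'
    simp only [hQ, mem_filter]
    refine ⟨hpa, hpa, hv2, ?_⟩
    rw [← h'']
    by_cases heq : G.pi d = G.pi (G.al d)
    · congr 1
      apply Subtype.ext
      simp only [heq]
    · apply SimpleGraph.ConnectedComponent.sound
      apply SimpleGraph.Adj.reachable
      have hadj : (G.h88T W T).Adj (some ⟨G.pi (G.al d), hpa⟩) (some ⟨G.pi d, h⟩) := by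
        refine Or.inl ⟨_, _, rfl, rfl, fun h => heq (congrArg Subtype.val h).symm,
          G.al d, G.al_mem _ hds, rfl, ?_⟩
        rw [G.al_al _ hds]
      show S.Adj _ _
      exact (SimpleGraph.Subgraph.deleteVerts_adj
        (G' := (⊤ : (G.h88T W T).Subgraph)) (s := u)).mpr
        ⟨Set.mem_univ _, (hverts _).mp hv2, Set.mem_univ _, (hverts _).mp h', hadj⟩
  -- odd components without `none`
  set OC : Finset H.ConnectedComponent := univ.filter fun c => c ∈ H.oddComponents with hOC
  have hOCcard : OC.card = H.oddComponents.ncard := by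
    rw [← Set.ncard_coe_finset]
    congr 1
    ext c
    simp [hOC]
  set isN : H.ConnectedComponent → Prop := fun c =>
    ∃ h : (none : Option {v // v ∈ W}) ∈ S.verts, H.connectedComponentMk ⟨none, h⟩ = c with hisN
  have hQcard : ∀ c, ¬ isN c → (Q c).card = c.supp.ncard := by
    intro c hc
    rw [← Set.ncard_coe_finset]
    have h1 : (some '' (Subtype.val ⁻¹' (Q c : Set V) : Set {v // v ∈ W}) :
        Set (Option {v // v ∈ W})) = (fun x : S.verts => (x : Option {v // v ∈ W})) '' c.supp := by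
      ext x
      simp only [Set.mem_image, Set.mem_preimage, hQ, coe_filter,
        SimpleGraph.ConnectedComponent.mem_supp_iff]
      constructor
      · rintro ⟨y, ⟨_, h, h', h''⟩, rfl⟩
        exact ⟨_, h'', rfl⟩
      · rintro ⟨⟨y, hy⟩, h, rfl⟩
        cases y with
        | none => exact absurd ⟨hy, h⟩ hc
        | some y => exact ⟨y, ⟨y.2, y.2, hy, h⟩, rfl⟩
    have h2 : (Q c : Set V) = Subtype.val '' (Subtype.val ⁻¹' (Q c : Set V) : Set {v // v ∈ W}) := by
      ext v
      simp only [Set.mem_image, Set.mem_preimage, mem_coe]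
      constructor
      · intro h
        exact ⟨⟨v, hQsub c h⟩, h, rfl⟩
      · rintro ⟨w, h, rfl⟩
        exact h
    rw [h2, Set.ncard_image_of_injective _ Subtype.val_injective,
      ← Set.ncard_image_of_injective _ (Option.some_injective _), h1,
      Set.ncard_image_of_injective _ Subtype.val_injective]
  set P' : Finset H.ConnectedComponent := OC.filter fun c => ¬ isN c with hP'
  have hPQ : ∀ c ∈ P', Odd (Q c).card := by
    intro c hc
    rw [hP', mem_filter, hOC, mem_filter] at hc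
    rw [hQcard c hc.2]
    exact hc.1.2
  have hQinj : Set.InjOn Q (P' : Set H.ConnectedComponent) := by
    intro c hc c' hc' hcc
    by_contra hne
    have h1 := hQdis c c' hne
    rw [← hcc, disjoint_self_iff_empty] at h1
    have h2 := hPQ c hc
    rw [h1, card_empty] at h2
    exact absurd h2 (by decide)
  have hbar : ∀ T', (∀ c ∈ P', Disjoint (Q c) T') → G.BarT W T' A (P'.image Q) := by
    intro T' hT'
    refine ⟨filter_subset _ _, ?_, ?_, ?_, ?_, ?_, ?_⟩
    · intro X hX
      obtain ⟨c, hc, rfl⟩ := mem_image.1 hX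
      exact hQsub c
    · intro X hX
      obtain ⟨c, hc, rfl⟩ := mem_image.1 hX
      exact hQA c
    · intro X hX
      obtain ⟨c, hc, rfl⟩ := mem_image.1 hX
      exact hPQ c hc
    · intro X hX
      obtain ⟨c, hc, rfl⟩ := mem_image.1 hX
      exact hT' c hc
    · intro X hX Y hY hXY
      obtain ⟨c, hc, rfl⟩ := mem_image.1 hX
      obtain ⟨c', hc', rfl⟩ := mem_image.1 hY
      exact hQdis c c' fun h => hXY (by rw [h])
    · intro X hX
      obtain ⟨c, hc, rfl⟩ := mem_image.1 hX
      exact hleave c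
  have hPcard : (P'.image Q).card = P'.card := card_image_of_injOn hQinj
  have hupper := hJ A _ (hbar ∅ fun c _ => disjoint_empty_right _)
  rw [hPcard] at hupper
  -- parity
  have hpar : Odd OC.card ↔ Odd (Nat.card S.verts) := by
    rw [hOCcard]
    exact H.odd_ncard_oddComponents
  have hSv : Nat.card S.verts + u.ncard = W.card + 1 := by
    have h1 : Nat.card S.verts = (uᶜ : Set (Option {v // v ∈ W})).ncard := by
      have : S.verts = uᶜ := by ext w; rw [hverts]; rfl
      rw [this]; rfl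
    rw [h1, add_comm, Set.ncard_add_ncard_compl, Nat.card_eq_fintype_card, Fintype.card_option,
      Fintype.card_coe]
  rw [← hOCcard] at hu
  by_cases hn : (none : Option {v // v ∈ W}) ∈ u
  · exfalso
    rw [if_pos hn] at hAcard
    have h1 : P' = OC := by
      rw [hP']
      apply filter_true_of_mem
      rintro c hc ⟨h, -⟩
      exact (hverts _).1 h hn
    rw [h1] at hupper
    omega
  · rw [if_neg hn] at hAcard
    have hnS := (hverts none).2 hn
    have h1 : OC.card ≤ P'.card + 1 := by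
      have h2 : OC ⊆ insert (H.connectedComponentMk ⟨none, hnS⟩) P' := by
        intro c hc
        rw [mem_insert]
        by_cases h3 : isN c
        · obtain ⟨h4, h5⟩ := h3
          exact Or.inl h5.symm
        · exact Or.inr (by rw [hP', mem_filter]; exact ⟨hc, h3⟩)
      exact (card_le_card h2).trans (card_insert_le _ _)
    refine ⟨A, P'.image Q, hbar T ?_, ?_⟩
    · intro c hc
      rw [disjoint_left]
      intro v hv hvT
      rw [hP', mem_filter] at hc
      rw [hQ, mem_filter] at hv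
      obtain ⟨_, h, h', h''⟩ := hv
      apply hc.2
      refine ⟨hnS, ?_⟩
      rw [← h'']
      apply SimpleGraph.ConnectedComponent.sound
      apply SimpleGraph.Adj.reachable
      have hadj : (G.h88T W T).Adj none (some ⟨v, h⟩) := Or.inr (Or.inl ⟨rfl, _, rfl, hvT⟩)
      show S.Adj _ _
      exact (SimpleGraph.Subgraph.deleteVerts_adj
        (G' := (⊤ : (G.h88T W T).Subgraph)) (s := u)).mpr
        ⟨Set.mem_univ _, hn, Set.mem_univ _, (hverts _).mp h', hadj⟩
    · rw [hPcard]
      rw [Nat.odd_iff, Nat.odd_iff] at hpar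
      rw [Nat.odd_iff] at ho
      omega


variable {G} {F : Finset D} {τ : D}

/-- the vertices with a token different from `τ` -/
noncomputable def otk (G : CG V D) (τ : D) : Finset V :=
  (G.ds.filter fun d => G.al d = d ∧ d ≠ τ).image G.pi

lemma mem_otk {v : V} : v ∈ otk G τ ↔ ∃ d ∈ G.ds, G.al d = d ∧ d ≠ τ ∧ G.pi d = v := by
  unfold otk
  rw [mem_image]
  constructor
  · rintro ⟨d, hd, h⟩
    rw [mem_filter] at hd
    exact ⟨d, hd.1, hd.2.1, hd.2.2, h⟩
  · rintro ⟨d, h1, h2, h3, h4⟩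
    exact ⟨d, mem_filter.2 ⟨h1, h2, h3⟩, h4⟩

lemma otk_sub : otk G τ ⊆ G.vs := by
  intro v hv
  obtain ⟨d, h1, -, -, rfl⟩ := mem_otk.1 hv
  exact G.pi_mem d h1

/-- the `J`-dart at a vertex of `otk` is a token -/
lemma TwoF.otk_J (hF : G.TwoF F) {d : D} (hd : d ∈ G.ds \ F) (hv : G.pi d ∈ otk G τ) :
    G.al d = d ∧ d ≠ τ := by
  obtain ⟨g, h1, h2, h3, h4⟩ := mem_otk.1 hv
  have := hF.J_inj g (hF.tok_J h1 h2) d hd h4
  rw [← this]
  exact ⟨h2, h3⟩

lemma TwoF.tau_otk (hF : G.TwoF F) (hτ : τ ∈ G.ds) (tτ : G.al τ = τ) : G.pi τ ∉ otk G τ := by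
  intro h
  exact (hF.otk_J (hF.tok_J hτ tτ) h).2 rfl

/-- a non-token `J`-edge with one end in `W` has the other end in `W` -/
lemma TwoF.J_W (hF : G.TwoF F) {d : D} (hd : d ∈ G.ds \ F) (ht : G.al d ≠ d) :
    G.pi (G.al d) ∈ G.vs \ otk G τ := by
  rw [mem_sdiff]
  refine ⟨G.pi_mem _ (G.al_mem d (mem_sdiff.1 hd).1), fun h => ht ?_⟩
  have h1 := (hF.otk_J (hF.J_al d hd) h).1
  rw [G.al_al d (mem_sdiff.1 hd).1] at h1
  exact h1.symm

/-- the number of vertices not in `otk` is odd -/
lemma TwoF.odd_W (hF : G.TwoF F) (hτ : τ ∈ G.ds) (tτ : G.al τ = τ) :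
    Odd (G.vs \ otk G τ).card := by
  set B := (G.ds \ F).filter fun d => G.pi d ∈ G.vs \ otk G τ with hB
  have h1 : B.card = (G.vs \ otk G τ).card := by
    have hmap : ∀ d ∈ B, G.pi d ∈ G.vs \ otk G τ := fun d hd => by
      rw [hB, mem_filter] at hd
      exact hd.2
    rw [card_eq_sum_card_fiberwise hmap, card_eq_sum_ones]
    refine Finset.sum_congr rfl fun v hv => ?_
    rw [← hF.one (mem_sdiff.1 hv).1]
    congr 1
    ext d
    simp only [hB, mem_filter]
    constructor
    · rintro ⟨⟨a, b⟩, c⟩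
      exact ⟨a, c⟩
    · rintro ⟨a, c⟩
      exact ⟨⟨a, by rw [c]; exact hv⟩, c⟩
  have h2 : Even (B.erase τ).card := by
    apply G.even_of_closed
    · intro d hd
      rw [mem_erase, hB, mem_filter, mem_sdiff] at hd
      exact hd.2.1.1
    · intro d hd
      rw [mem_erase, hB, mem_filter] at hd
      have ht : G.al d ≠ d := by
        intro h
        exact (mem_sdiff.1 hd.2.2).2
          (mem_otk.2 ⟨d, (mem_sdiff.1 hd.2.1).1, h, hd.1, rfl⟩)
      rw [mem_erase, hB, mem_filter]
      refine ⟨?_, hF.J_al d hd.2.1, hF.J_W hd.2.1 ht⟩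
      intro h
      apply hd.1
      rw [← G.al_al d (mem_sdiff.1 hd.2.1).1, h, tτ]
    · intro d hd h
      rw [mem_erase, hB, mem_filter] at hd
      exact (mem_sdiff.1 hd.2.2).2
        (mem_otk.2 ⟨d, (mem_sdiff.1 hd.2.1).1, h, hd.1, rfl⟩)
  have h3 : τ ∈ B := by
    exact mem_filter.2 ⟨hF.tok_J hτ tτ, mem_sdiff.2 ⟨G.pi_mem τ hτ, hF.tau_otk hτ tτ⟩⟩
  rw [← h1, ← card_erase_add_one h3]
  exact h2.add_odd odd_one

/-- a vertex of an odd set whose `J`-dart is a token or leaves the set -/
lemma TwoF.exists_out (hF : G.TwoF F) {X : Finset V} (hX : X ⊆ G.vs) (ho : Odd X.card) :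
    ∃ d ∈ G.ds \ F, G.pi d ∈ X ∧ (G.al d = d ∨ G.pi (G.al d) ∉ X) := by
  by_contra hcon
  push Not at hcon
  set B := (G.ds \ F).filter fun d => G.pi d ∈ X with hB
  have h1 : B.card = X.card := by
    have hmap : ∀ d ∈ B, G.pi d ∈ X := fun d hd => by
      rw [hB, mem_filter] at hd
      exact hd.2
    rw [card_eq_sum_card_fiberwise hmap, card_eq_sum_ones]
    refine Finset.sum_congr rfl fun v hv => ?_
    rw [← hF.one (hX hv)]
    congr 1
    ext d
    simp only [hB, mem_filter]
    constructor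
    · rintro ⟨⟨a, b⟩, c⟩
      exact ⟨a, c⟩
    · rintro ⟨a, c⟩
      exact ⟨⟨a, by rw [c]; exact hv⟩, c⟩
  have h2 : Even B.card := by
    apply G.even_of_closed
    · intro d hd
      rw [hB, mem_filter, mem_sdiff] at hd
      exact hd.1.1
    · intro d hd
      rw [hB, mem_filter] at hd ⊢
      exact ⟨hF.J_al d hd.1, (hcon d hd.1 hd.2).2⟩
    · intro d hd h
      rw [hB, mem_filter] at hd
      exact (hcon d hd.1 hd.2).1 h
  rw [h1] at h2
  exact (Nat.not_odd_iff_even.2 h2) ho

/-- the `J`-count -/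
lemma TwoF.barT_card (hF : G.TwoF F) {A : Finset V} {P : Finset (Finset V)}
    (h : G.BarT (G.vs \ otk G τ) ∅ A P) : P.card ≤ A.card + 1 := by
  have hex : ∀ X ∈ P, ∃ d ∈ G.ds \ F, G.pi d ∈ X ∧ (d = τ ∨ G.pi (G.al d) ∈ A) := by
    intro X hX
    obtain ⟨d, h1, h2, h3⟩ := hF.exists_out ((h.sub X hX).trans sdiff_subset) (h.odd X hX)
    refine ⟨d, h1, h2, ?_⟩
    rcases h3 with h3 | h3
    · left
      by_contra hne
      exact (mem_sdiff.1 (h.sub X hX h2)).2 (mem_otk.2 ⟨d, (mem_sdiff.1 h1).1, h3, hne, rfl⟩)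
    · right
      rcases h.out X hX d ((G.mem_bd).2 ⟨(mem_sdiff.1 h1).1, h2, h3⟩) with h4 | h4
      · exact h4
      · exfalso
        apply h4
        apply hF.J_W h1
        intro h5
        rw [h5] at h3
        exact h3 h2
  have : Nonempty D := ⟨τ⟩
  choose! f hf using hex
  have hinj : Set.InjOn f (P : Set (Finset V)) := by
    intro X hX Y hY hXY
    by_contra hne
    have h1 := (hf X hX).2.1
    rw [hXY] at h1
    exact disjoint_left.1 (h.pair X hX Y hY hne) h1 (hf Y hY).2.1
  have h1 : (P.image f).card = P.card := card_image_of_injOn hinj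
  have h2 : ((P.image f).erase τ).card ≤ A.card := by
    apply card_le_card_of_injOn fun d => G.pi (G.al d)
    · intro d hd
      rw [mem_coe, mem_erase, mem_image] at hd
      obtain ⟨hne, X, hX, rfl⟩ := hd
      rcases (hf X hX).2.2 with h3 | h3
      · exact absurd h3 hne
      · exact h3
    · intro d hd e he hde
      rw [mem_coe, mem_erase, mem_image] at hd he
      obtain ⟨-, X, hX, rfl⟩ := hd
      obtain ⟨-, Y, hY, rfl⟩ := he
      have a1 := (hf X hX).1
      have a2 := (hf Y hY).1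
      have := hF.J_inj _ (hF.J_al _ a1) _ (hF.J_al _ a2) hde
      rw [← G.al_al _ (mem_sdiff.1 a1).1, this, G.al_al _ (mem_sdiff.1 a2).1]
  have h3 : (P.image f).card ≤ ((P.image f).erase τ).card + 1 := by
    have := card_le_card (insert_erase_subset τ (P.image f))
    rw [← Finset.card_insert_of_notMem (notMem_erase τ (P.image f))]
    exact card_le_card (by
      intro d hd
      rw [mem_insert, mem_erase]
      by_cases h : d = τ
      · exact Or.inl h
      · exact Or.inr ⟨h, hd⟩)
  omega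

/-- **Landing or barrier.** The tokens different from `τ` stay live. -/
theorem land_or_bar (hF : G.TwoF F) (hτ : τ ∈ G.ds) (tτ : G.al τ = τ) (T : Finset V) :
    (∃ ζ ∈ G.ds \ F, G.pi ζ ∈ T ∧ ∃ M0, G.TM (G.ds \ F) M0 ζ ∧ τ ∉ M0 ∧ ζ ∉ M0 ∧
      ∀ g ∈ G.ds, G.al g = g → g ≠ τ → g ∈ M0) ∨
    ∃ A P, G.BarT (G.vs \ otk G τ) T A P ∧ P.card = A.card + 1 := by
  by_cases hno : ∃ z ∈ T, z ∈ G.vs \ otk G τ ∧
      ∃ N, (G.delV (insert z (G.vs \ (G.vs \ otk G τ)))).IsPM N
  swap
  · right
    exact G.exists_barT sdiff_subset (hF.odd_W hτ tτ) (fun A P h => hF.barT_card h) hno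
  left
  obtain ⟨z, hzT, hzW, N, hN⟩ := hno
  rw [Finset.sdiff_sdiff_eq_self otk_sub] at hN
  obtain ⟨ζ, hζ, hζz⟩ := hF.exists_J (mem_sdiff.1 hzW).1
  set U := insert z (otk G τ) with hU
  have hNs : ∀ d ∈ N, d ∈ G.ds ∧ G.pi d ∉ U := fun d hd => by
    have := hN.sub hd
    rwa [mem_delV_ds] at this
  have hNal : ∀ d ∈ N, (G.delV U).al d = G.al d := by
    intro d hd
    by_cases h : G.pi (G.al d) ∈ U
    · exact absurd (G.delV_al_in h) (hN.notok d hd)
    · exact G.delV_al_of h
  set R := G.ds.filter fun d => G.al d = d ∧ d ≠ τ with hR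
  have hRJ : ∀ d ∈ R, d ∈ G.ds \ F ∧ G.pi d ∈ otk G τ := by
    intro d hd
    rw [hR, mem_filter] at hd
    exact ⟨hF.tok_J hd.1 hd.2.1, mem_otk.2 ⟨d, hd.1, hd.2.1, hd.2.2, rfl⟩⟩
  have hz : ∀ e ∈ N ∪ R, G.pi e ≠ G.pi ζ := by
    intro e he h
    rw [hζz] at h
    rcases mem_union.1 he with he | he
    · exact (hNs e he).2 (by rw [h, hU]; exact mem_insert_self _ _)
    · have := (hRJ e he).2
      rw [h] at this
      exact (mem_sdiff.1 hzW).2 this
  refine ⟨ζ, hζ, by rw [hζz]; exact hzT, N ∪ R, ⟨sdiff_subset, ?_, hF.J_al, ?_, hF.J_inj, ?_, ?_,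
    ?_, ?_, hz⟩, ?_, fun h => hz ζ h rfl, ?_⟩
  · intro d hd
    rcases mem_union.1 hd with hd | hd
    · exact (hNs d hd).1
    · exact (mem_filter.1 hd).1
  · intro d hd
    rcases mem_union.1 hd with hd | hd
    · rw [← hNal d hd]
      exact mem_union_left _ (hN.closed d hd)
    · rw [(mem_filter.1 hd).2.1]
      exact mem_union_right _ hd
  · intro d hd e he hde
    rcases mem_union.1 hd with hd | hd <;> rcases mem_union.1 he with he | he
    · have hv : G.pi e ∈ (G.delV U).vs := (G.delV U).pi_mem e (hN.sub he)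
      exact card_le_one.1 (hN.one _ hv).le d (mem_filter.2 ⟨hd, hde⟩) e (mem_filter.2 ⟨he, rfl⟩)
    · exfalso
      apply (hNs d hd).2
      rw [hde, hU]
      exact mem_insert_of_mem (hRJ e he).2
    · exfalso
      apply (hNs e he).2
      rw [← hde, hU]
      exact mem_insert_of_mem (hRJ d hd).2
    · exact hF.J_inj d (hRJ d hd).1 e (hRJ e he).1 hde
  · intro e he hJ ht
    refine hJ (hF.tok_J ?_ ht)
    rcases mem_union.1 he with he | he
    · exact (hNs e he).1
    · exact (mem_filter.1 he).1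
  · intro e he _
    apply hF.exists_J
    rcases mem_union.1 he with he | he
    · exact G.pi_mem e (hNs e he).1
    · exact G.pi_mem e (mem_filter.1 he).1
  · intro d hd hdM hdz
    have hdv := G.pi_mem d (mem_sdiff.1 hd).1
    by_cases h1 : G.pi d ∈ otk G τ
    · exfalso
      have h2 := hF.otk_J hd h1
      exact hdM (mem_union_right _ (mem_filter.2 ⟨(mem_sdiff.1 hd).1, h2.1, h2.2⟩))
    · have h2 : G.pi d ≠ z := by
        intro h
        exact hdz (hF.J_inj d hd ζ hζ (by rw [h, hζz]))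
      have h3 : G.pi d ∈ (G.delV U).vs := by
        show G.pi d ∈ G.vs \ U
        rw [mem_sdiff, hU, mem_insert, not_or]
        exact ⟨hdv, h2, h1⟩
      obtain ⟨e, he⟩ := card_pos.1 (show 0 < (N.filter fun e => G.pi e = G.pi d).card by
        rw [show (N.filter fun e => G.pi e = G.pi d).card = 1 from hN.one _ h3]
        exact Nat.one_pos)
      rw [mem_filter] at he
      exact ⟨e, mem_union_left _ he.1, he.2⟩
  · intro h
    rcases mem_union.1 h with h | h
    · apply hN.notok τ h
      rw [hNal τ h, tτ]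
    · exact (mem_filter.1 h).2.2 rfl
  · intro g hg ht hne
    exact mem_union_right _ (mem_filter.2 ⟨hg, ht, hne⟩)

/-- the trail structure of a landing -/
theorem TwoF.tk_of_TM (hF : G.TwoF F) (hτ : τ ∈ G.ds) (tτ : G.al τ = τ) {ζ : D} {M0 : Finset D}
    (h : G.TM (G.ds \ F) M0 ζ) (hζ : ζ ∈ G.ds \ F) (h1 : τ ∉ M0)
    (h2 : ∀ g ∈ G.ds, G.al g = g → g ≠ τ → g ∈ M0) (K : Finset V) (c : D) :
    G.TK K F ((G.ds \ F) \ M0) (G.tal (G.ds \ F) M0 ζ) (G.tp M0) τ ζ c := by
  refine h.tk hζ c (hF.tok_J hτ tτ) h1 tτ ?_ ?_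
  · intro d hd hdM ht
    by_contra hne
    exact hdM (h2 d (mem_sdiff.1 hd).1 ht hne)
  · intro e he heJ
    by_contra hcon
    exact heJ (mem_sdiff.2 ⟨h.Msub he, hcon⟩)

end JK.CG
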