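import Pool.Agent.Lib.JK.Links

/-! The patch of `Y` with its links (S5, MP_c95763_co). `(A, al', p)` is a killed structure and `Y` a
vertex set which separates no pair. The patch `KD.patch` is the graph on `Y` whose edges are the
edges inside `Y` and the links (two linked boundary darts are joined); the other boundary darts
become tokens. A killed structure of the patch gives the inside of a new killed structure of `G`,
in which the unused links are released; a released link is a live path. -/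

set_option autoImplicit false

namespace JK.CG

open Finset Classical Function

variable {V D : Type*} {G : CG V D}

namespace KD

variable {A : Finset D} {al' p : D → D}

/-! ### released links are live paths -/

lemma exists_switch {P : ℕ → Prop} {n : ℕ} (h0 : P 0) (hn : ¬ P n) :
    ∃ k < n, P k ∧ ¬ P (k + 1) := by
  by_contra hcon
  push Not at hcon
  apply hn
  have key : ∀ k ≤ n, P k := by
    intro k
    induction k with
    | zero => exact fun _ => h0
    | succ k ih =>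
      intro hk
      exact hcon k (by omega) (ih (by omega))
  exact key n le_rfl

/-- a live crossing dart on a released link -/
lemma exists_cross (h : G.KD A al' p) {Y : Finset V} (hs : Sat G A al' Y) {S : Finset D}
    (hS : ∀ x, Lkd G A al' Y x → lk G A al' Y x ∈ S → x ∈ S) {x : D}
    (hx : Lkd G A al' Y x) (hxS : x ∉ S) {W : Finset V} (h1 : G.pi x ∈ W)
    (h2 : G.pi (lk G A al' Y x) ∉ W) :
    ∃ c, c ∈ G.ds ∧ G.pi c ∈ W ∧ G.pi (G.al c) ∉ W ∧ c ∉ outS G A al' Y S ∧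
      (G.pi c ∉ Y ∨ (c ∈ bdA G A Y ∧ c ∉ S)) ∧
      ((c ∈ A ∧ Lc G A al' Y x c) ∨
        ∃ e ∈ A, c ∉ A ∧ Lc G A al' Y x e ∧ al' e ≠ e ∧ c = p e) := by
  set pr := TwoInv.pr (lf G A Y) (lg G A al' Y) with hpr
  set g := lg G A al' Y with hg
  have hlx : lk G A al' Y x ∉ S := fun hh => hxS (hS x hx hh)
  -- boundary darts of the component are not in `S`
  have hbS : ∀ c ∈ bdA G A Y, Lc G A al' Y x c → c ∉ S := by
    intro c hc hcc
    rcases h.lc_bd hs hx.1 hc hcc with h3 | ⟨-, h3⟩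
    · rw [h3]; exact hxS
    · rw [h3]; exact hlx
  obtain ⟨k, -, hk1, hk2⟩ := exists_switch (P := fun k => G.pi (pr^[k] x) ∈ W) h1 h2
  have hmem : ∀ k, (pr^[k] x) ∈ outA G A Y ∨ (pr^[k] x) ∈ bdA G A Y := fun k =>
    h.lc_mem hs hx.1 ⟨k, Or.inl rfl⟩
  have hmemg : ∀ k, g (pr^[k] x) ∈ outA G A Y ∨ g (pr^[k] x) ∈ bdA G A Y := fun k =>
    h.lc_mem hs hx.1 ⟨k, Or.inr rfl⟩
  have hAk : ∀ d, d ∈ outA G A Y ∨ d ∈ bdA G A Y → d ∈ A := by
    rintro d (hd | hd)
    · exact (mem_outA.1 hd).1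
    · exact (mem_bdA.1 hd).1
  by_cases hgk : G.pi (g (pr^[k] x)) ∈ W
  · -- a killed edge crosses
    have e1 : pr^[k + 1] x = G.al (g (pr^[k] x)) := by
      rw [iterate_succ_apply']
      show lf G A Y (g (pr^[k] x)) = _
      unfold lf
      rw [if_pos (hmemg k)]
    have hLc : Lc G A al' Y x (g (pr^[k] x)) := ⟨k, Or.inr rfl⟩
    have hA := hAk _ (hmemg k)
    rw [e1] at hk2
    refine ⟨g (pr^[k] x), h.sub hA, hgk, hk2, ?_, ?_, Or.inl ⟨hA, hLc⟩⟩
    · intro hh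
      exact hxS ((mem_outS.1 hh).2 x hx.1 hLc)
    · rcases hmemg k with h3 | h3
      · exact Or.inl (mem_outA.1 h3).2
      · exact Or.inr ⟨h3, hbS _ h3 hLc⟩
  · -- a pair edge crosses
    have hko : (pr^[k] x) ∈ outA G A Y := by
      rcases hmem k with h3 | h3
      · exact h3
      · exfalso
        apply hgk
        have : g (pr^[k] x) = pr^[k] x := lg_bd h3
        rw [this]
        exact hk1
    have e1 : g (pr^[k] x) = al' (pr^[k] x) := lg_out hko
    have hA := (mem_outA.1 hko).1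
    have hne : al' (pr^[k] x) ≠ pr^[k] x := by
      intro hh
      rw [e1, hh] at hgk
      exact hgk hk1
    have hp := h.pair _ hA hne
    have hpp := h.pi_pair hA hne
    refine ⟨p (pr^[k] x), hp.1, ?_, ?_, ?_, Or.inl ?_, Or.inr ⟨_, hA, hp.2.1, ⟨k, Or.inl rfl⟩,
      hne, rfl⟩⟩
    · rw [hp.2.2.2.1]; exact hk1
    · rw [hpp, ← e1]; exact hgk
    · exact fun hh => hp.2.1 (outS_sub hh)
    · rw [hp.2.2.2.1]; exact (mem_outA.1 hko).2

/-- **released links are disjoint live paths**: the live degree of `W` in the new structure is at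
least the number of live edges inside `Y` which cross `W` plus the number of released links with
exactly one end in `W` -/
theorem card_release_le (h : G.KD A al' p) {Y : Finset V} (hs : Sat G A al' Y)
    {S : Finset D} (hS : ∀ x, Lkd G A al' Y x → lk G A al' Y x ∈ S → x ∈ S)
    {A1 : Finset D} {al1 p1 : D → D} (hi : Inn G Y S A1 al1 p1) (W : Finset V) :
    (((G.ds \ A1).filter fun d => G.pi d ∈ W ∧ G.pi d ∈ Y ∧ G.pi (G.al d) ∈ Y ∧
        G.pi (G.al d) ∉ W)).card +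
      ((bdA G A Y).filter fun x => Lkd G A al' Y x ∧ x ∉ S ∧ G.pi x ∈ W ∧
        G.pi (lk G A al' Y x) ∉ W).card ≤ G.m (outS G A al' Y S ∪ A1) W := by
  set I := (G.ds \ A1).filter fun d => G.pi d ∈ W ∧ G.pi d ∈ Y ∧ G.pi (G.al d) ∈ Y ∧
        G.pi (G.al d) ∉ W with hI
  set L := (bdA G A Y).filter fun x => Lkd G A al' Y x ∧ x ∉ S ∧ G.pi x ∈ W ∧
        G.pi (lk G A al' Y x) ∉ W with hL
  have hc : ∀ x ∈ L, ∃ c, c ∈ G.ds ∧ G.pi c ∈ W ∧ G.pi (G.al c) ∉ W ∧ c ∉ outS G A al' Y S ∧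
      (G.pi c ∉ Y ∨ (c ∈ bdA G A Y ∧ c ∉ S)) ∧
      ((c ∈ A ∧ Lc G A al' Y x c) ∨
        ∃ e ∈ A, c ∉ A ∧ Lc G A al' Y x e ∧ al' e ≠ e ∧ c = p e) := by
    intro x hx
    rw [hL, mem_filter] at hx
    exact h.exists_cross hs hS hx.2.1 hx.2.2.1 hx.2.2.2.1 hx.2.2.2.2
  choose! c hc using hc
  -- `c` is injective on `L`
  have same : ∀ x ∈ L, ∀ y ∈ L, ∀ d, Lc G A al' Y x d → Lc G A al' Y y d → x = y := by
    intro x hx y hy d h1 h2
    rw [hL, mem_filter] at hx hy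
    rcases h.lc_share hs hx.1 hy.1 h1 h2 with h3 | ⟨-, h3⟩
    · exact h3.symm
    · exfalso
      apply hx.2.2.2.2
      rw [← h3]
      exact hy.2.2.2.1
  have cinj : Set.InjOn c (L : Set D) := by
    intro x hx y hy hxy
    have hx' := hc x hx
    have hy' := hc y hy
    rcases hx'.2.2.2.2.2 with ⟨a1, a2⟩ | ⟨e, a1, a2, a3, a4, a5⟩ <;>
      rcases hy'.2.2.2.2.2 with ⟨b1, b2⟩ | ⟨e', b1, b2, b3, b4, b5⟩
    · rw [← hxy] at b2
      exact same x hx y hy _ a2 b2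
    · exact absurd (hxy ▸ a1) b2
    · exact absurd (hxy ▸ b1) a2
    · have e1 := (h.pair e a1 a4).2.2.2.1
      have e2 := (h.pair e' b1 b4).2.2.2.1
      have : e = e' := by
        apply h.inj e a1 e' b1
        rw [← e1, ← e2, ← a5, ← b5, hxy]
      rw [← this] at b3
      exact same x hx y hy _ a3 b3
  have hdis : Disjoint I (L.image c) := by
    rw [disjoint_left]
    intro d h1 h2
    rw [hI, mem_filter] at h1
    obtain ⟨x, hx, rfl⟩ := mem_image.1 h2
    rcases (hc x hx).2.2.2.2.1 with h3 | ⟨h3, -⟩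
    · exact h3 h1.2.2.1
    · exact (mem_bdA.1 h3).2.2 h1.2.2.2.1
  have hsub : I ∪ L.image c ⊆ G.lv (outS G A al' Y S ∪ A1) W := by
    intro d hd
    rw [mem_lv]
    rcases mem_union.1 hd with h1 | h1
    · rw [hI, mem_filter, mem_sdiff] at h1
      refine ⟨h1.1.1, h1.2.1, Or.inl h1.2.2.2.2, ?_⟩
      rw [mem_union, not_or]
      exact ⟨fun hh => outS_pi hh h1.2.2.1, h1.1.2⟩
    · obtain ⟨x, hx, rfl⟩ := mem_image.1 h1
      obtain ⟨a1, a2, a3, a4, a5, -⟩ := hc x hx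
      refine ⟨a1, a2, Or.inl a3, ?_⟩
      rw [mem_union, not_or]
      refine ⟨a4, fun hh => ?_⟩
      rcases a5 with a5 | ⟨a5, a6⟩
      · exact a5 (hi.inY _ hh)
      · exact (mem_bdA.1 a5).2.2 (hi.inY _ (hi.cl _ hh a6))
  calc I.card + L.card = I.card + (L.image c).card := by rw [card_image_of_injOn cinj]
    _ = (I ∪ L.image c).card := (card_union_of_disjoint hdis).symm
    _ ≤ _ := card_le_card hsub

/-! ### the patch -/

section patch

variable (h : G.KD A al' p) {Y : Finset V} (hY : Y ⊆ G.vs) (hs : Sat G A al' Y)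

/-- edges inside `Y`, links, tokens -/
noncomputable def pal (G : CG V D) (A : Finset D) (al' : D → D) (Y : Finset V) (d : D) : D :=
  if G.pi (G.al d) ∈ Y then G.al d else if Lkd G A al' Y d then lk G A al' Y d else d

omit h hY hs in
lemma pal_in {d : D} (hd : G.pi (G.al d) ∈ Y) : pal G A al' Y d = G.al d := by
  unfold pal; rw [if_pos hd]

omit h hY hs in
lemma pal_lk {d : D} (hd : Lkd G A al' Y d) : pal G A al' Y d = lk G A al' Y d := by
  unfold pal; rw [if_neg (mem_bdA.1 hd.1).2.2, if_pos hd]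

omit h hY hs in
lemma pal_tok {d : D} (hd : G.pi (G.al d) ∉ Y) (hl : ¬ Lkd G A al' Y d) :
    pal G A al' Y d = d := by
  unfold pal; rw [if_neg hd, if_neg hl]

/-- the patch: `Y` with its links -/
noncomputable def patch : CG V D where
  vs := Y
  ds := G.ds.filter fun d => G.pi d ∈ Y
  pi := G.pi
  al := pal G A al' Y
  pi_mem := fun d hd => (mem_filter.1 hd).2
  al_mem := by
    intro d hd
    rw [mem_filter] at hd ⊢
    by_cases h1 : G.pi (G.al d) ∈ Y
    · rw [pal_in h1]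
      exact ⟨G.al_mem d hd.1, h1⟩
    · by_cases h2 : Lkd G A al' Y d
      · rw [pal_lk h2]
        have := mem_bdA.1 h2.2.2
        exact ⟨h.sub this.1, this.2.1⟩
      · rw [pal_tok h1 h2]
        exact hd
  al_al := by
    intro d hd
    rw [mem_filter] at hd
    by_cases h1 : G.pi (G.al d) ∈ Y
    · rw [pal_in h1, pal_in (by rw [G.al_al d hd.1]; exact hd.2), G.al_al d hd.1]
    · by_cases h2 : Lkd G A al' Y d
      · rw [pal_lk h2, pal_lk (h.lkd_lk hs h2), h.lk_lk hs h2]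
      · rw [pal_tok h1 h2, pal_tok h1 h2]
  cubic := by
    intro v hv
    rw [← G.cubic v (hY hv)]
    congr 1
    ext d
    simp only [mem_filter]
    constructor
    · rintro ⟨⟨a, -⟩, b⟩; exact ⟨a, b⟩
    · rintro ⟨a, b⟩; exact ⟨⟨a, by rw [b]; exact hv⟩, b⟩

@[simp] lemma patch_vs : (h.patch hY hs).vs = Y := rfl
@[simp] lemma patch_pi : (h.patch hY hs).pi = G.pi := rfl
@[simp] lemma patch_al : (h.patch hY hs).al = pal G A al' Y := rfl

lemma mem_patch_ds {d : D} : d ∈ (h.patch hY hs).ds ↔ d ∈ G.ds ∧ G.pi d ∈ Y := mem_filter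

/-- the links inside `X` -/
noncomputable def lkin (G : CG V D) (A : Finset D) (al' : D → D) (Y X : Finset V) : Finset D :=
  (bdA G A Y).filter fun x => Lkd G A al' Y x ∧ G.pi x ∈ X ∧ G.pi (lk G A al' Y x) ∈ X

omit h hY hs in
lemma mem_lkin {X : Finset V} {x : D} : x ∈ lkin G A al' Y X ↔
    Lkd G A al' Y x ∧ G.pi x ∈ X ∧ G.pi (lk G A al' Y x) ∈ X := by
  unfold lkin
  rw [mem_filter]
  exact ⟨fun hh => hh.2, fun hh => ⟨hh.1.1, hh⟩⟩

include h hs in
/-- live degrees in the patch: a live link inside `X` counts twice in `G` -/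
lemma m_patch {X : Finset V} (hX : X ⊆ Y) (B : Finset D) :
    (h.patch hY hs).m B X + (lkin G A al' Y X \ B).card = G.m B X := by
  have hdis : Disjoint ((h.patch hY hs).lv B X) (lkin G A al' Y X \ B) := by
    rw [disjoint_left]
    intro d h1 h2
    rw [mem_lv] at h1
    rw [mem_sdiff, mem_lkin] at h2
    obtain ⟨-, -, h3, -⟩ := h1
    rw [patch_pi, patch_al, pal_lk h2.1.1] at h3
    rcases h3 with h3 | h3
    · exact h3 h2.1.2.2
    · exact h.lk_ne hs h2.1.1 h3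
  unfold m
  rw [← card_union_of_disjoint hdis]
  congr 1
  ext d
  rw [mem_union, mem_lv, mem_lv, mem_sdiff, mem_lkin, mem_patch_ds, patch_pi, patch_al]
  constructor
  · rintro (⟨⟨a, a'⟩, b, c, e⟩ | ⟨⟨a, b, c⟩, e⟩)
    · refine ⟨a, b, ?_, e⟩
      by_cases h1 : G.pi (G.al d) ∈ Y
      · rw [pal_in h1] at c
        exact c
      · exact Or.inl fun hh => h1 (hX hh)
    · have ha := mem_bdA.1 a.1
      exact ⟨h.sub ha.1, b, Or.inl fun hh => ha.2.2 (hX hh), e⟩
  · rintro ⟨a, b, c, e⟩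
    by_cases h1 : G.pi (G.al d) ∈ Y
    · left
      rw [pal_in h1]
      exact ⟨⟨a, hX b⟩, b, c, e⟩
    · by_cases h2 : Lkd G A al' Y d
      · by_cases h3 : G.pi (lk G A al' Y d) ∈ X
        · exact Or.inr ⟨⟨h2, b, h3⟩, e⟩
        · left
          rw [pal_lk h2]
          exact ⟨⟨a, hX b⟩, b, Or.inl h3, e⟩
      · left
        rw [pal_tok h1 h2]
        exact ⟨⟨a, hX b⟩, b, Or.inr rfl, e⟩

include h hs in
/-- degrees in the patch -/
lemma dg_patch {X : Finset V} (hX : X ⊆ Y) :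
    (h.patch hY hs).dg X + (lkin G A al' Y X).card = G.dg X := by
  have := h.m_patch hY hs hX ∅
  rw [sdiff_empty] at this
  have e : ∀ H : CG V D, H.m ∅ X = H.dg X := by
    intro H
    rw [dg_eq_card_union]
    unfold m lv
    rw [sdiff_empty]
  rwa [e, e] at this

include h hs in
/-- if no token of `G` is in `Y` then the tokens of the patch are the boundary darts which are not
linked -/
lemma tk_patch (hT : ∀ d ∈ G.ds, G.pi d ∈ Y → G.al d ≠ d) {X : Finset V} (hX : X ⊆ Y) :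
    (h.patch hY hs).tk X = (G.bd Y).filter fun d => G.pi d ∈ X ∧ ¬ Lkd G A al' Y d := by
  ext d
  rw [mem_tk, mem_patch_ds, mem_filter, mem_bd, patch_pi, patch_al]
  constructor
  · rintro ⟨⟨a, b⟩, c, e⟩
    by_cases h1 : G.pi (G.al d) ∈ Y
    · rw [pal_in h1] at e
      exact absurd e (hT d a b)
    · refine ⟨⟨a, b, h1⟩, c, fun h2 => ?_⟩
      rw [pal_lk h2] at e
      exact h.lk_ne hs h2 e
  · rintro ⟨⟨a, b, c⟩, e, f⟩
    exact ⟨⟨a, b⟩, e, pal_tok c f⟩

include h hs in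
/-- the old structure, inside -/
lemma patch_kd : (h.patch hY hs).KD (A.filter fun d => G.pi d ∈ Y)
    (fun d => if d ∈ A then al' d else pal G A al' Y d) p := by
  have hin : ∀ d ∈ A, G.pi d ∈ Y → G.pi (al' d) ∈ Y := by
    intro d hd hp
    by_cases hf : al' d = d
    · rw [hf]; exact hp
    · exact (hs d hd hf).1 hp
  refine ⟨?_, ?_, ?_, ?_, ?_, ?_, ?_⟩
  · intro d hd
    rw [mem_filter] at hd
    exact (h.mem_patch_ds hY hs).2 ⟨h.sub hd.1, hd.2⟩
  · intro d hd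
    rw [mem_filter] at hd ⊢
    rw [patch_al]
    by_cases h1 : G.pi (G.al d) ∈ Y
    · rw [pal_in h1]
      exact ⟨h.cl d hd.1, h1⟩
    · by_cases h2 : Lkd G A al' Y d
      · rw [pal_lk h2]
        have := mem_bdA.1 h2.2.2
        exact ⟨this.1, this.2.1⟩
      · rw [pal_tok h1 h2]
        exact hd
  · intro d hd
    rw [mem_filter] at hd ⊢
    simp only [if_pos hd.1]
    exact ⟨h.cl' d hd.1, hin d hd.1 hd.2⟩
  · intro d hd
    rw [mem_filter] at hd
    simp only [if_pos hd.1, if_pos (h.cl' d hd.1)]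
    exact h.inv' d hd.1
  · intro d hd hA
    rw [mem_patch_ds] at hd
    have : d ∉ A := fun hh => hA (mem_filter.2 ⟨hh, hd.2⟩)
    simp only [if_neg this]
    rfl
  · intro d hd e he
    exact h.inj d (mem_filter.1 hd).1 e (mem_filter.1 he).1
  · intro d hd hne
    rw [mem_filter] at hd
    simp only [if_pos hd.1] at hne ⊢
    have hp := h.pair d hd.1 hne
    have hpp := h.pi_pair hd.1 hne
    have h1 : G.pi (G.al (p d)) ∈ Y := by rw [hpp]; exact hin d hd.1 hd.2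
    rw [patch_al, pal_in h1]
    refine ⟨(h.mem_patch_ds hY hs).2 ⟨hp.1, ?_⟩, fun hh => hp.2.1 (mem_filter.1 hh).1, hp.2.2.1,
      hp.2.2.2.1, hp.2.2.2.2⟩
    rw [hp.2.2.2.1]
    exact hd.2

variable {B : Finset D} {alB pB : D → D}

/-- the boundary darts of a structure of the patch -/
noncomputable def pS (G : CG V D) (Y : Finset V) (B : Finset D) : Finset D :=
  B.filter fun d => G.pi (G.al d) ∉ Y

include h hs in
/-- a structure of the patch whose pairs are edges inside `Y` and which kills no live boundary dart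
is an inner structure -/
lemma patch_inn (hB : (h.patch hY hs).KD B alB pB)
    (hp : ∀ d ∈ B, alB d ≠ d → G.pi (G.al (pB d)) ∈ Y)
    (hA : ∀ d ∈ B, G.pi (G.al d) ∉ Y → d ∈ A) :
    Inn G Y (pS G Y B) B alB pB ∧ pS G Y B ⊆ bdA G A Y ∧
      ∀ x, Lkd G A al' Y x → lk G A al' Y x ∈ pS G Y B → x ∈ pS G Y B := by
  have hin : ∀ d ∈ B, d ∈ G.ds ∧ G.pi d ∈ Y := fun d hd =>
    (h.mem_patch_ds hY hs).1 (hB.sub hd)
  refine ⟨⟨?_, ?_, ?_, ?_, ?_, ?_, ?_, ?_⟩, ?_, ?_⟩
  · exact fun d hd => (hin d hd).1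
  · exact fun d hd => (hin d hd).2
  · exact filter_subset _ _
  · intro d hd hS
    have h1 : G.pi (G.al d) ∈ Y := by
      by_contra hcon
      exact hS (mem_filter.2 ⟨hd, hcon⟩)
    have := hB.cl d hd
    rwa [patch_al, pal_in h1] at this
  · exact hB.cl'
  · exact hB.inv'
  · exact hB.inj
  · intro d hd hne
    have h1 := hB.pair d hd hne
    rw [patch_al, pal_in (hp d hd hne)] at h1
    exact ⟨((h.mem_patch_ds hY hs).1 h1.1).1, h1.2⟩
  · intro d hd
    unfold pS at hd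
    rw [mem_filter] at hd
    exact mem_bdA.2 ⟨hA d hd.1 hd.2, (hin d hd.1).2, hd.2⟩
  · intro x hx hl
    unfold pS at hl ⊢
    rw [mem_filter] at hl ⊢
    refine ⟨?_, (mem_bdA.1 hx.1).2.2⟩
    have := hB.cl _ hl.1
    rwa [patch_al, pal_lk (h.lkd_lk hs hx), h.lk_lk hs hx] at this

include h hs in
/-- lifting a structure of the patch -/
theorem patch_lift (hB : (h.patch hY hs).KD B alB pB)
    (hp : ∀ d ∈ B, alB d ≠ d → G.pi (G.al (pB d)) ∈ Y)
    (hA : ∀ d ∈ B, G.pi (G.al d) ∉ Y → d ∈ A) :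
    G.KD (outS G A al' Y (pS G Y B) ∪ B) (spA G (outS G A al' Y (pS G Y B)) B al' alB)
      (spP G Y p pB) := by
  obtain ⟨h1, h2, h3⟩ := h.patch_inn hY hs hB hp hA
  exact h.splice hs h2 h3 h1

include h hs in
/-- **the cuts of the lifted structure**: every live edge of the patch (released link) which crosses
`W` gives a live edge of `G` which crosses `W` -/
theorem patch_cut (hB : (h.patch hY hs).KD B alB pB)
    (hp : ∀ d ∈ B, alB d ≠ d → G.pi (G.al (pB d)) ∈ Y)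
    (hA : ∀ d ∈ B, G.pi (G.al d) ∉ Y → d ∈ A) (W : Finset V) :
    ((h.patch hY hs).bd (W ∩ Y) \ B).card ≤
      G.m (outS G A al' Y (pS G Y B) ∪ B) W := by
  obtain ⟨h1, h2, h3⟩ := h.patch_inn hY hs hB hp hA
  refine le_trans ?_ (h.card_release_le hs h3 h1 W)
  rw [← card_union_of_disjoint]
  · apply card_le_card
    intro d hd
    rw [mem_sdiff, mem_bd, mem_patch_ds, patch_pi, patch_al, mem_inter, mem_inter] at hd
    obtain ⟨⟨⟨a, a'⟩, ⟨b, b'⟩, c⟩, e⟩ := hd
    rw [mem_union, mem_filter, mem_filter, mem_sdiff]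
    by_cases h4 : G.pi (G.al d) ∈ Y
    · left
      rw [pal_in h4] at c
      exact ⟨⟨a, e⟩, b, a', h4, fun hh => c ⟨hh, h4⟩⟩
    · by_cases h5 : Lkd G A al' Y d
      · right
        rw [pal_lk h5] at c
        refine ⟨h5.1, h5, fun hh => e (mem_filter.1 hh).1, b, fun hh => c ⟨hh, ?_⟩⟩
        exact (mem_bdA.1 h5.2.2).2.1
      · exfalso
        rw [pal_tok h4 h5] at c
        exact c ⟨b, b'⟩
  · rw [disjoint_left]
    intro d h4 h5
    rw [mem_filter] at h4 h5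
    exact (mem_bdA.1 h5.1).2.2 h4.2.2.2.1

include h hs in
/-- (S-dagger) in the patch gives the condition of the potential argument -/
theorem patch_hS (hB : (h.patch hY hs).KD B alB pB)
    (hp : ∀ d ∈ B, alB d ≠ d → G.pi (G.al (pB d)) ∈ Y)
    (hA : ∀ d ∈ B, G.pi (G.al d) ∉ Y → d ∈ A) {W : Finset V}
    (hW : 2 ≤ ((h.patch hY hs).bd (W ∩ Y) \ B).card ∨
      ∃ d ∈ (h.patch hY hs).bd (W ∩ Y) \ B, G.pi (G.al d) ∈ Y) :
    2 ≤ G.m (outS G A al' Y (pS G Y B) ∪ B) W ∨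
      ∃ d ∈ G.lv (outS G A al' Y (pS G Y B) ∪ B) W,
        G.pi d ∈ Y ∧ G.pi (G.al d) ∈ Y ∧ G.al d ≠ d := by
  rcases hW with h4 | ⟨d, h4, h5⟩
  · exact Or.inl (h4.trans (h.patch_cut hY hs hB hp hA W))
  · right
    rw [mem_sdiff, mem_bd, mem_patch_ds, patch_pi, patch_al, pal_in h5, mem_inter,
      mem_inter] at h4
    obtain ⟨⟨⟨a, a'⟩, ⟨b, b'⟩, c⟩, e⟩ := h4
    refine ⟨d, ?_, a', h5, fun hh => c (by rw [hh]; exact ⟨b, b'⟩)⟩
    rw [mem_lv, mem_union, not_or]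
    exact ⟨a, b, Or.inl fun hh => c ⟨hh, h5⟩, fun hh => outS_pi hh a', e⟩

include h hs in
/-- live degrees inside `Y` after lifting -/
lemma patch_m_in {X : Finset V} (hX : X ⊆ Y) :
    G.m (outS G A al' Y (pS G Y B) ∪ B) X =
      (h.patch hY hs).m B X + (lkin G A al' Y X \ B).card := by
  rw [m_splice_in hX, h.m_patch hY hs hX]

end patch

end KD

namespace TK

variable {K : Finset V} {F A : Finset D} {al' p : D → D} {τ ζ c : D}

/-- **lifting a passing structure of the patch**: start and landing outside `Y`; the structure of the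
patch kills all boundary darts which are not linked (the two ends of the trail) and has no landing -/
theorem patch_pass (h : G.TK K F A al' p τ ζ c) {Y : Finset V} (hY : Y ⊆ G.vs)
    (hs : KD.Sat G A al' Y) {B : Finset D} {alB pB : D → D}
    (hB : (h.kd.patch hY hs).KD B alB pB)
    (hp : ∀ d ∈ B, alB d ≠ d → G.pi (G.al (pB d)) ∈ Y)
    (hA : ∀ d ∈ B, G.pi (G.al d) ∉ Y → d ∈ A)
    (hend : ∀ x ∈ KD.bdA G A Y, ¬ KD.Lkd G A al' Y x → x ∈ B)
    (htY : G.pi τ ∉ Y) (hzY : G.pi ζ ∉ Y) (hnf : ∀ d ∈ B, alB d ≠ d)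
    (hnt : ∀ d ∈ B, G.al d ≠ d)
    (hF : ∀ d ∈ B, alB d ≠ d → pB d ∈ F ∨ (d = τ ∧ pB d = c) ∨ (alB d = τ ∧ pB d = G.al c)) :
    G.TK K F (KD.outS G A al' Y (KD.pS G Y B) ∪ B)
      (KD.spA G (KD.outS G A al' Y (KD.pS G Y B)) B al' alB) (KD.spP G Y p pB) τ ζ c := by
  obtain ⟨h1, h2, h3⟩ := h.kd.patch_inn hY hs hB hp hA
  have hend' : ∀ x ∈ KD.bdA G A Y, ¬ KD.Lkd G A al' Y x → x ∈ KD.pS G Y B := by
    intro x hx hl
    exact mem_filter.2 ⟨hend x hx hl, (KD.mem_bdA.1 hx).2.2⟩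
  have hzo : ζ ∈ KD.outS G A al' Y (KD.pS G Y B) := by
    refine h.kd.land_outS hs (KD.mem_outA.2 ⟨h.zetaA, hzY⟩) h.zeta ?_
    intro x hx hxz
    apply hend' x hx
    intro hl
    have := KD.mem_bdA.1 hl.2.2
    rw [hxz] at this
    exact hzY this.2.1
  have hto : τ ∈ KD.outS G A al' Y (KD.pS G Y B) := by
    refine h.kd.tok_outS hs (KD.mem_outA.2 ⟨h.tauA, htY⟩) h.tau ?_
    intro x hx _ hodd
    exact hend' x hx fun hl => hodd hl.2.1
  exact h.splice hs h2 h3 h1 (mem_union_left _ hto) (fun d hd he => absurd he (hnt d hd))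
    (Or.inr ⟨rfl, hzo, hnf⟩) hF

/-- **lifting a structure of the patch with its landing inside `Y`**; the start may be inside `Y` (then
it is killed by `B`) or outside (then `B` uses the boundary dart which leads to it); the old landing
is inside `Y`, or its boundary dart is not used -/
theorem patch_land (h : G.TK K F A al' p τ ζ c) {Y : Finset V} (hY : Y ⊆ G.vs)
    (hs : KD.Sat G A al' Y) {B : Finset D} {alB pB : D → D}
    (hB : (h.kd.patch hY hs).KD B alB pB)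
    (hp : ∀ d ∈ B, alB d ≠ d → G.pi (G.al (pB d)) ∈ Y)
    (hA : ∀ d ∈ B, G.pi (G.al d) ∉ Y → d ∈ A) {ζ' : D}
    (hz : ζ' ∈ B) (hzf : alB ζ' = ζ') (hzU : ∀ d ∈ B, alB d = d → d = ζ')
    (hold : G.pi ζ ∈ Y ∨ ∃ x ∈ KD.bdA G A Y, x ∉ B ∧ KD.Lc G A al' Y x ζ)
    (hτ : τ ∈ B ∨ (G.pi τ ∉ Y ∧ ∀ x ∈ KD.bdA G A Y,
      ¬ Even (minimalPeriod (TwoInv.pr (KD.lf G A Y) (KD.lg G A al' Y)) x) → x ∈ B))
    (hnt : ∀ d ∈ B, G.al d = d → d = τ)
    (hF : ∀ d ∈ B, alB d ≠ d → pB d ∈ F ∨ (d = τ ∧ pB d = c) ∨ (alB d = τ ∧ pB d = G.al c)) :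
    G.TK K F (KD.outS G A al' Y (KD.pS G Y B) ∪ B)
      (KD.spA G (KD.outS G A al' Y (KD.pS G Y B)) B al' alB) (KD.spP G Y p pB) τ ζ' c := by
  obtain ⟨h1, h2, h3⟩ := h.kd.patch_inn hY hs hB hp hA
  have hto : τ ∈ KD.outS G A al' Y (KD.pS G Y B) ∪ B := by
    rcases hτ with h4 | ⟨h4, h5⟩
    · exact mem_union_right _ h4
    · apply mem_union_left
      refine h.kd.tok_outS hs (KD.mem_outA.2 ⟨h.tauA, h4⟩) h.tau ?_
      intro x hx _ hodd
      exact mem_filter.2 ⟨h5 x hx hodd, (KD.mem_bdA.1 hx).2.2⟩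
  have hzo : ζ ∉ KD.outS G A al' Y (KD.pS G Y B) := by
    intro hh
    rcases hold with h4 | ⟨x, h4, h5, h6⟩
    · exact KD.outS_pi hh h4
    · exact h5 (mem_filter.1 ((KD.mem_outS.1 hh).2 x h4 h6)).1
  exact h.splice hs h2 h3 h1 hto hnt (Or.inl ⟨hz, hzf, hzU, hzo⟩) hF

/-- lifting a passing structure when the start is inside `Y` -/
theorem patch_pass' (h : G.TK K F A al' p τ ζ c) {Y : Finset V} (hY : Y ⊆ G.vs)
    (hs : KD.Sat G A al' Y) {B : Finset D} {alB pB : D → D}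
    (hB : (h.kd.patch hY hs).KD B alB pB)
    (hp : ∀ d ∈ B, alB d ≠ d → G.pi (G.al (pB d)) ∈ Y)
    (hA : ∀ d ∈ B, G.pi (G.al d) ∉ Y → d ∈ A)
    (hzY : G.pi ζ ∉ Y) (hend : ∀ x ∈ KD.bdA G A Y, KD.lk G A al' Y x = ζ → x ∈ B)
    (hnf : ∀ d ∈ B, alB d ≠ d)
    (hτ : τ ∈ B ∨ (G.pi τ ∉ Y ∧ ∀ x ∈ KD.bdA G A Y,
      ¬ Even (minimalPeriod (TwoInv.pr (KD.lf G A Y) (KD.lg G A al' Y)) x) → x ∈ B))
    (hnt : ∀ d ∈ B, G.al d = d → d = τ)
    (hF : ∀ d ∈ B, alB d ≠ d → pB d ∈ F ∨ (d = τ ∧ pB d = c) ∨ (alB d = τ ∧ pB d = G.al c)) :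
    G.TK K F (KD.outS G A al' Y (KD.pS G Y B) ∪ B)
      (KD.spA G (KD.outS G A al' Y (KD.pS G Y B)) B al' alB) (KD.spP G Y p pB) τ ζ c := by
  obtain ⟨h1, h2, h3⟩ := h.kd.patch_inn hY hs hB hp hA
  have hto : τ ∈ KD.outS G A al' Y (KD.pS G Y B) ∪ B := by
    rcases hτ with h4 | ⟨h4, h5⟩
    · exact mem_union_right _ h4
    · apply mem_union_left
      refine h.kd.tok_outS hs (KD.mem_outA.2 ⟨h.tauA, h4⟩) h.tau ?_
      intro x hx _ hodd
      exact mem_filter.2 ⟨h5 x hx hodd, (KD.mem_bdA.1 hx).2.2⟩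
  have hzo : ζ ∈ KD.outS G A al' Y (KD.pS G Y B) := by
    refine h.kd.land_outS hs (KD.mem_outA.2 ⟨h.zetaA, hzY⟩) h.zeta ?_
    intro x hx hxz
    exact mem_filter.2 ⟨hend x hx hxz, (KD.mem_bdA.1 hx).2.2⟩
  exact h.splice hs h2 h3 h1 hto hnt (Or.inr ⟨rfl, hzo, hnf⟩) hF

end TK

end JK.CG
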