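import Pool.Agent.Lib.JK.Grow

/-! The potential argument: induction on the union of the thin sets. -/

set_option autoImplicit false

namespace JK.CG

open Finset Classical

variable {V D : Type*} {G : CG V D} {F : Finset D}

/-- `P A`: the killed set `A` belongs to a structure of the wanted form. If every maximal thin set and
the union of all closed sets (when there is no other thin set) can be re-solved then there is a
structure in the class all of whose thin sets are closed. Choose `A` with `|U A|` minimal; `exists_Y`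
and `RS.U_ssub`, or `RS.fin` with `Y = U A` = the largest closed set. -/
theorem exists_final {P : Finset D → Prop} (hP : ∀ A, P A → ∀ d ∈ A, G.al d ∈ A)
    (h0 : ∃ A, P A ∧ G.CL F A)
    (h3 : ∀ A, P A → G.CL F A → ∀ Y ⊆ G.vs, G.m A Y = 1 →
      (∀ W ⊆ G.vs, G.m A W = 0 → W ⊆ Y) → (∀ g ∈ G.lv A Y, G.al g = g ∨ G.pi (G.al g) ∉ G.U A) →
      ∃ A2, P A2 ∧ RS G F A A2 Y)
    (h2 : ∀ A, P A → G.CL F A → ∀ Y ⊆ G.vs, G.m A Y = 0 →
      (∀ W ⊆ G.vs, G.m A W ≤ 1 → W ⊆ Y) → ∃ A2, P A2 ∧ RS G F A A2 Y) :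
    ∃ A, P A ∧ G.CL F A ∧ ∀ W ⊆ G.vs, G.m A W ≠ 1 := by
  obtain ⟨A, hA, hc⟩ := h0
  induction hn : (G.U A).card using Nat.strong_induction_on generalizing A with
  | _ n ih =>
    by_cases hex : ∃ W ⊆ G.vs, G.m A W = 1 ∧ ∃ v ∈ W, ∀ N ⊆ G.vs, G.m A N = 0 → v ∉ N
    · obtain ⟨Y, hY, hY1, hYN, hYg⟩ := exists_Y (hP A hA) hex
      obtain ⟨A2, hA2, hr⟩ := h3 A hA hc Y hY hY1 hYN hYg
      exact ih _ (by rw [← hn]; exact card_lt_card (hr.U_ssub hY1)) A2 hA2 (hr.cl hc) rfl
    · obtain ⟨N, hN, hN0, hNmax⟩ := exists_N0 (G := G) (hP A hA)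
      have hthin : ∀ W ⊆ G.vs, G.m A W ≤ 1 → W ⊆ N := by
        intro W hW hW1
        by_cases h00 : G.m A W = 0
        · exact hNmax W hW h00
        · intro v hv
          by_contra hcon
          exact hex ⟨W, hW, by omega, v, hv, fun N' hN' h' hv' => hcon (hNmax N' hN' h' hv')⟩
      obtain ⟨A2, hA2, hr⟩ := h2 A hA hc N hN hN0 hthin
      refine ⟨A2, hA2, hr.cl hc, fun W hW h1 => ?_⟩
      have hU : G.U A ⊆ N := by
        intro v hv
        obtain ⟨_, W', hW', hvW⟩ := mem_U.1 hv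
        exact hthin W' hW'.1 hW'.2 hvW
      have := (hr.fin hU ⟨hW, by omega⟩).1
      omega

end JK.CG
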