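import Pool.Agent.Lib.JK.GrowR

/-! The local potential argument: `Z` is fixed, only proper thin subsets of `Z` are re-solved. -/

set_option autoImplicit false

namespace JK.CG

open Finset Classical

variable {V D : Type*} {G : CG V D} {F A A2 : Finset D} {Y Z : Finset V}

/-- if `W` cuts a circuit inside `Z` then it has two live edges, or a live edge inside `Z` crosses it -/
def CSR (G : CG V D) (Z : Finset V) (F A : Finset D) : Prop :=
  ∀ W ⊆ G.vs, (∃ d ∈ F, G.pi d ∈ Z ∧ G.pi d ∈ W ∧ G.pi (G.al d) ∉ W) →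
    2 ≤ G.m A W ∨ ∃ d ∈ G.lv A W, G.pi d ∈ Z ∧ G.pi (G.al d) ∈ Z ∧ G.al d ≠ d

/-- for a thin set `Y` the class condition inside `Y` gives `CSR` -/
lemma csr_of_clr (hYs : Y ⊆ G.vs) (hY : G.m A Y ≤ 1) (hF : F ⊆ G.ds) (hFa : ∀ d ∈ F, G.al d ∈ F)
    (hc : G.CLR Y F A) (hYF : ∀ d ∈ F, G.pi d ∈ Y → G.pi (G.al d) ∈ Y) : G.CSR Y F A := by
  intro W hW hcut
  obtain ⟨d, hd, hdY, hdW, hdn⟩ := hcut
  have hnt : ¬ G.ThinR Y A (W ∩ Y) := by
    intro ht
    exact hdn (mem_inter.1 (hc _ ht d hd (mem_inter.2 ⟨hdW, hdY⟩))).1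
  have h2 : 2 ≤ G.m A (W ∩ Y) := by
    by_contra hcon
    exact hnt ⟨inter_subset_right, by omega⟩
  right
  by_contra hcon
  push Not at hcon
  have hsub : G.lv A (W ∩ Y) ⊆ G.lv A Y := by
    intro e he
    obtain ⟨e1, e2, e3, e4⟩ := (G.mem_lv).1 he
    rw [mem_inter] at e2
    rw [mem_lv]
    refine ⟨e1, e2.2, ?_, e4⟩
    rcases e3 with h3 | h3
    · left
      intro h5
      have h6 : G.pi (G.al e) ∉ W := fun h7 => h3 (mem_inter.2 ⟨h7, h5⟩)
      have h7 := hcon e ((G.mem_lv).2 ⟨e1, e2.1, Or.inl h6, e4⟩) e2.2 h5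
      rw [h7] at h6
      exact h6 e2.1
    · exact Or.inr h3
  have := card_le_card hsub
  unfold m at h2 hY
  omega

/-- the live boundary of `Z` does not shrink -/
lemma RSR.mZ (h : RSR G F A A2 Y Z) : G.m A Z ≤ G.m A2 Z := by
  refine card_le_card fun d hd => ?_
  obtain ⟨d1, d2, d3, d4⟩ := (G.mem_lv).1 hd
  rw [mem_lv]
  refine ⟨d1, d2, d3, fun h2 => ?_⟩
  by_cases hY : G.pi d ∈ Y
  · by_cases ht : G.al d = d
    · exact h.hlv d ((G.mem_lv).2 ⟨d1, hY, Or.inr ht, d4⟩) ht h2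
    · have h3 : G.pi (G.al d) ∉ Z := by
        rcases d3 with h4 | h4
        · exact h4
        · exact absurd h4 ht
      have h5 := h.hcl _ (h.hout _ (h.hcl2 _ h2) fun h6 => h3 (h.hYs h6))
      rw [G.al_al d d1] at h5
      exact d4 h5
  · exact d4 (h.hout d h2 hY)

/-- `CSR` is preserved by re-solving `Y` -/
theorem RSR.cs (h : RSR G F A A2 Y Z) (hF : F ⊆ G.ds) (hFa : ∀ d ∈ F, G.al d ∈ F)
    (hZ : Z ⊆ G.vs) (hYF : ∀ d ∈ F, G.pi d ∈ Y → G.pi (G.al d) ∈ Y)
    (hS2 : G.CSR Y F A2) (hc : G.CSR Z F A) : G.CSR Z F A2 := by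
  intro W hW hcut
  by_contra hcon
  rw [not_or] at hcon
  obtain ⟨hm, hno⟩ := hcon
  obtain ⟨d, hd, hdZ, hdW, hdn⟩ := hcut
  by_cases hdY : G.pi d ∈ Y
  · rcases hS2 W hW ⟨d, hd, hdY, hdW, hdn⟩ with h1 | ⟨e, he, e1, e2, e3⟩
    · exact hm h1
    · exact hno ⟨e, he, h.hYs e1, h.hYs e2, e3⟩
  · have hdY' : G.pi (G.al d) ∉ Y := by
      intro h1
      have h2 := hYF _ (hFa d hd) h1
      rw [G.al_al d (hF hd)] at h2
      exact hdY h2
    -- a set `X` cutting the same circuit, all of whose live darts leave `W` as well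
    have key : ∃ X ⊆ G.vs, G.pi d ∈ X ∧ G.pi (G.al d) ∉ X ∧ G.lv A X ⊆ G.lv A2 W := by
      by_cases hx : ∃ g ∈ G.lv A Y, G.al g ≠ g ∧ G.pi (G.al g) ∈ W
      · obtain ⟨g, hg, hgg, hx⟩ := hx
        refine ⟨W ∪ Y, union_subset hW (h.hYs.trans hZ), mem_union_left _ hdW, ?_, ?_⟩
        · intro h1
          rcases mem_union.1 h1 with h2 | h2
          · exact hdn h2
          · exact hdY' h2
        · intro e he
          obtain ⟨e1, e2, e3, e4⟩ := (G.mem_lv).1 he
          have heY : G.pi e ∉ Y := by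
            intro heY
            have hel : e ∈ G.lv A Y := by
              rw [mem_lv]
              refine ⟨e1, heY, ?_, e4⟩
              rcases e3 with h3 | h3
              · exact Or.inl fun h4 => h3 (mem_union_right _ h4)
              · exact Or.inr h3
            have := h.g_unique hel hg
            subst this
            rcases e3 with h3 | h3
            · exact h3 (mem_union_left _ hx)
            · exact hgg h3
          have heW : G.pi e ∈ W := by
            rcases mem_union.1 e2 with h3 | h3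
            · exact h3
            · exact absurd h3 heY
          refine h.lv_out e1 heW heY e4 ?_
          rcases e3 with h3 | h3
          · exact Or.inl fun h4 => h3 (mem_union_left _ h4)
          · exact Or.inr h3
      · push Not at hx
        refine ⟨W \ Y, sdiff_subset.trans hW, mem_sdiff.2 ⟨hdW, hdY⟩,
          fun h1 => hdn (mem_sdiff.1 h1).1, ?_⟩
        intro e he
        obtain ⟨e1, e2, e3, e4⟩ := (G.mem_lv).1 he
        rw [mem_sdiff] at e2
        refine h.lv_out e1 e2.1 e2.2 e4 ?_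
        rcases e3 with h3 | h3
        · refine Or.inl fun h4 => ?_
          have h5 : G.pi (G.al e) ∈ Y := by
            by_contra h6
            exact h3 (mem_sdiff.2 ⟨h4, h6⟩)
          have h6 : G.al e ∈ G.lv A Y := by
            rw [mem_lv, G.al_al e e1]
            refine ⟨G.al_mem e e1, h5, Or.inl e2.2, fun h7 => e4 ?_⟩
            have := h.hcl _ h7
            rwa [G.al_al e e1] at this
          have h7 := hx _ h6
          rw [G.al_al e e1] at h7
          refine h7 (fun h8 => ?_) e2.1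
          rw [← h8] at h5
          exact e2.2 h5
        · exact Or.inr h3
    obtain ⟨X, hX, h1, h2, h3⟩ := key
    rcases hc X hX ⟨d, hd, hdZ, h1, h2⟩ with h4 | ⟨e, he, e1, e2, e3⟩
    · have := card_le_card h3
      unfold m at hm h4
      omega
    · exact hno ⟨e, h3 he, e1, e2, e3⟩

/-- **the local potential argument**: one structure in the class with at least two live edges at `Z` and
the possibility to re-solve all proper thin subsets give a structure without live bridges inside `Z` -/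
theorem exists_final_rel {P : Finset D → Prop} (hF : F ⊆ G.ds) (hFa : ∀ d ∈ F, G.al d ∈ F)
    (hZ : Z ⊆ G.vs) (hP : ∀ A, P A → ∀ d ∈ A, G.al d ∈ A)
    (h0 : ∃ A, P A ∧ G.CLR Z F A ∧ G.CSR Z F A ∧ 2 ≤ G.m A Z)
    (hr : ∀ A, P A → G.CLR Z F A → ∀ Y ⊆ Z, Y ≠ Z → G.m A Y ≤ 1 →
      (∀ d ∈ F, G.pi d ∈ Y → G.pi (G.al d) ∈ Y) →
      ∃ A2, P A2 ∧ (∀ d ∈ A2, G.pi d ∉ Y → d ∈ A) ∧
        (∀ g ∈ G.lv A Y, G.al g = g → g ∉ A2) ∧
        (∀ W ⊆ Y, G.m A2 W ≠ 1) ∧ G.CSR Y F A2) :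
    ∃ A, P A ∧ G.CLR Z F A ∧ G.CSR Z F A ∧ 2 ≤ G.m A Z ∧ ∀ W ⊆ Z, G.m A W ≠ 1 := by
  obtain ⟨A0, hA0⟩ := h0
  induction hn : (G.UR Z A0).card using Nat.strong_induction_on generalizing A0 with
  | _ n ih =>
    obtain ⟨hPA, hcl, hcs, hm⟩ := hA0
    have hA := hP A0 hPA
    by_cases hfin : ∀ W ⊆ Z, G.m A0 W ≠ 1
    · exact ⟨A0, hPA, hcl, hcs, hm, hfin⟩
    push Not at hfin
    obtain ⟨W0, hW0, hW1⟩ := hfin
    -- the RSR data from a re-solution
    have mk : ∀ Y ⊆ Z, G.m A0 Y ≤ 1 → (∀ W ⊆ Z, G.m A0 W = 0 → W ⊆ Y) →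
        (∀ g ∈ G.lv A0 Y, G.al g = g ∨ G.pi (G.al g) ∉ G.UR Z A0) →
        ∃ A2, P A2 ∧ RSR G F A0 A2 Y Z ∧ G.CLR Z F A2 ∧ G.CSR Z F A2 ∧ 2 ≤ G.m A2 Z := by
      intro Y hYs hY hN hg
      have hYZ : Y ≠ Z := by
        rintro rfl
        omega
      have hYF : ∀ d ∈ F, G.pi d ∈ Y → G.pi (G.al d) ∈ Y := fun d hd hdY =>
        hcl Y ⟨hYs, hY⟩ d hd hdY
      obtain ⟨A2, hP2, ho, hl, hi, hS⟩ := hr A0 hPA hcl Y hYs hYZ hY hYF
      have hR : RSR G F A0 A2 Y Z :=
        { hcl := hA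
          hcl2 := hP A2 hP2
          hYs := hYs
          hY := hY
          hN := hN
          hg := hg
          hout := ho
          hlv := hl
          hin := hi
          hS := fun W hW hc => hS W (hW.trans hZ) hc }
      exact ⟨A2, hP2, hR, hR.cl hcl, hR.cs hF hFa hZ hYF hS hcs, hm.trans hR.mZ⟩
    by_cases hex : ∃ W ⊆ Z, G.m A0 W = 1 ∧ ∃ v ∈ W, ∀ N ⊆ Z, G.m A0 N = 0 → v ∉ N
    · obtain ⟨Y, hYs, hY1, hN, hg⟩ := exists_YR (G := G) hA hex
      obtain ⟨A2, hP2, hR, h3, h4, h5⟩ := mk Y hYs (by omega) hN hg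
      have hlt := card_lt_card (hR.U_ssub hY1)
      exact ih _ (by omega) A2 ⟨hP2, h3, h4, h5⟩ rfl
    · push Not at hex
      obtain ⟨N0, hN0s, hN0m, hN0⟩ := exists_N0R (G := G) (Z := Z) hA
      have hU : G.UR Z A0 ⊆ N0 := by
        intro v hv
        obtain ⟨hvZ, W, hW, hvW⟩ := mem_UR.1 hv
        have hW2 := hW.2
        by_cases h1 : G.m A0 W = 1
        · obtain ⟨N, hN, hNm, hvN⟩ := hex W hW.1 h1 v hvW
          exact hN0 N hN hNm hvN
        · exact hN0 W hW.1 (by omega) hvW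
      have hg : ∀ g ∈ G.lv A0 N0, G.al g = g ∨ G.pi (G.al g) ∉ G.UR Z A0 := by
        intro g hg
        exfalso
        have : 0 < (G.lv A0 N0).card := card_pos.2 ⟨g, hg⟩
        unfold m at hN0m
        omega
      obtain ⟨A2, hP2, hR, h3, h4, h5⟩ := mk N0 hN0s (by omega) hN0 hg
      refine ⟨A2, hP2, h3, h4, h5, fun W hW h1 => ?_⟩
      have := (hR.fin hU (W := W) ⟨hW, by omega⟩).1
      omega

end JK.CG
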