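import Pool.Agent.Lib.JK.ZRed
import Pool.Agent.Lib.JK.Tutte

/-! The frame T3 (S5, MP_c95763_co): both perfect matchings are built at the same time.

A state consists of two cubic graphs with at most four tokens each, `G1` and `G2`, without odd cuts
of degree 1, and a set `O` of fresh vertices at which both graphs have the same darts and the same
edges (no tokens); everything else may be different. Wanted: perfect matchings `M1` of `G1` and `M2`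
of `G2` such that no odd subset of `O` has its boundary in `M1 ∩ M2`. -/

set_option autoImplicit false

namespace JK.CG

open Finset Classical

variable {V D : Type*}

/-- at the vertices of `O` the graph `G'` has the same darts and the same edges as `G`, and there
are no tokens at `O` -/
structure T3H (G G' : CG V D) (O : Finset V) : Prop where
  sub : O ⊆ G.vs
  ntok : ∀ d ∈ G.ds, G.pi d ∈ O → G.al d ≠ d
  ds : ∀ d ∈ G.ds, G.pi d ∈ O → d ∈ G'.ds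
  pi : ∀ d ∈ G.ds, G.pi d ∈ O → G'.pi d = G.pi d
  al : ∀ d ∈ G.ds, G.pi d ∈ O → G.pi (G.al d) ∈ O → G'.al d = G.al d
  out : ∀ d ∈ G.ds, G.pi d ∈ O → G.pi (G.al d) ∉ O → G'.pi (G'.al d) ∉ O

/-- an instance of T3 -/
structure T3I (G1 G2 : CG V D) (O : Finset V) : Prop where
  even1 : Even G1.vs.card
  even2 : Even G2.vs.card
  four1 : (G1.tk G1.vs).card ≤ 4
  four2 : (G2.tk G2.vs).card ≤ 4
  b1 : G1.B0
  b2 : G2.B0
  h1 : T3H G1 G2 O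
  h2 : T3H G2 G1 O

/-- good pairs of matchings -/
structure T3G (G1 G2 : CG V D) (O : Finset V) (M1 M2 : Finset D) : Prop where
  pm1 : G1.IsPM M1
  pm2 : G2.IsPM M2
  hit : ∀ Z ⊆ O, Odd Z.card → ∃ d ∈ G1.bd Z, ¬ (d ∈ M1 ∧ d ∈ M2)

/-- minimal counterexample, order (number of vertices, number of fresh vertices) -/
structure MC3 (G1 G2 : CG V D) (O : Finset V) : Prop where
  inst : T3I G1 G2 O
  no : ¬ ∃ M1 M2, T3G G1 G2 O M1 M2
  ih : ∀ (G1' G2' : CG V D) (O' : Finset V),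
    G1'.vs.card + G2'.vs.card < G1.vs.card + G2.vs.card → T3I G1' G2' O' →
      ∃ M1 M2, T3G G1' G2' O' M1 M2
  ih2 : ∀ (G1' G2' : CG V D) (O' : Finset V),
    G1'.vs.card + G2'.vs.card = G1.vs.card + G2.vs.card → O'.card < O.card → T3I G1' G2' O' →
      ∃ M1 M2, T3G G1' G2' O' M1 M2

variable {G1 G2 : CG V D} {O : Finset V}

lemma T3H.bd_sub (h : T3H G1 G2 O) {Z : Finset V} (hZ : Z ⊆ O) : G1.bd Z ⊆ G2.bd Z := by
  intro d hd
  obtain ⟨h1, h2, h3⟩ := (mem_bd _).1 hd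
  refine (mem_bd _).2 ⟨h.ds d h1 (hZ h2), by rw [h.pi d h1 (hZ h2)]; exact h2, ?_⟩
  by_cases hO : G1.pi (G1.al d) ∈ O
  · rw [h.al d h1 (hZ h2) hO, h.pi _ (G1.al_mem _ h1) hO]
    exact h3
  · exact fun h4 => h.out d h1 (hZ h2) hO (hZ h4)

lemma T3H.mono (h : T3H G1 G2 O) {O' : Finset V} (hO : O' ⊆ O) : T3H G1 G2 O' := by
  refine ⟨hO.trans h.sub, fun d h1 h2 => h.ntok d h1 (hO h2), fun d h1 h2 => h.ds d h1 (hO h2),
    fun d h1 h2 => h.pi d h1 (hO h2), fun d h1 h2 h3 => h.al d h1 (hO h2) (hO h3), ?_⟩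
  intro d h1 h2 h3
  by_cases h4 : G1.pi (G1.al d) ∈ O
  · rw [h.al d h1 (hO h2) h4, h.pi _ (G1.al_mem _ h1) h4]
    exact h3
  · exact fun h5 => h.out d h1 (hO h2) h4 (hO h5)

lemma T3I.symm (h : T3I G1 G2 O) : T3I G2 G1 O :=
  ⟨h.even2, h.even1, h.four2, h.four1, h.b2, h.b1, h.h2, h.h1⟩

lemma T3I.bd_eq (h : T3I G1 G2 O) {Z : Finset V} (hZ : Z ⊆ O) : G1.bd Z = G2.bd Z :=
  Finset.Subset.antisymm (h.h1.bd_sub hZ) (h.h2.bd_sub hZ)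

lemma T3I.mono (h : T3I G1 G2 O) {O' : Finset V} (hO : O' ⊆ O) : T3I G1 G2 O' :=
  ⟨h.even1, h.even2, h.four1, h.four2, h.b1, h.b2, h.h1.mono hO, h.h2.mono hO⟩

lemma T3G.symm (h : T3I G1 G2 O) {M1 M2 : Finset D} (hg : T3G G1 G2 O M1 M2) :
    T3G G2 G1 O M2 M1 := by
  refine ⟨hg.pm2, hg.pm1, fun Z hZ ho => ?_⟩
  obtain ⟨d, h1, h2⟩ := hg.hit Z hZ ho
  exact ⟨d, (h.bd_eq hZ) ▸ h1, fun h3 => h2 ⟨h3.2, h3.1⟩⟩

lemma MC3.symm (h : MC3 G1 G2 O) : MC3 G2 G1 O := by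
  refine ⟨h.inst.symm, ?_, ?_, ?_⟩
  · rintro ⟨M1, M2, hg⟩
    exact h.no ⟨M2, M1, T3G.symm h.inst.symm hg⟩
  · intro G1' G2' O' hlt hI
    obtain ⟨M1, M2, hg⟩ := h.ih G2' G1' O' (by omega) hI.symm
    exact ⟨M2, M1, T3G.symm hI.symm hg⟩
  · intro G1' G2' O' hlt hO hI
    obtain ⟨M1, M2, hg⟩ := h.ih2 G2' G1' O' (by omega) hO hI.symm
    exact ⟨M2, M1, T3G.symm hI.symm hg⟩

/-- no tokens in `O` -/
lemma T3H.tk_empty (h : T3H G1 G2 O) {Z : Finset V} (hZ : Z ⊆ O) : G1.tk Z = ∅ := by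
  rw [eq_empty_iff_forall_notMem]
  intro d hd
  obtain ⟨h1, h2, h3⟩ := (mem_tk _).1 hd
  exact h.ntok d h1 (hZ h2) h3

lemma MC3.ne (h : MC3 G1 G2 O) : O.Nonempty := by
  rw [nonempty_iff_ne_empty]
  intro he
  obtain ⟨M1, h1⟩ := exists_pm G1 h.inst.even1 h.inst.four1 h.inst.b1
  obtain ⟨M2, h2⟩ := exists_pm G2 h.inst.even2 h.inst.four2 h.inst.b2
  refine h.no ⟨M1, M2, h1, h2, fun Z hZ ho => ?_⟩
  rw [he, subset_empty] at hZ
  subst hZ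
  simp at ho

/-- one side of the step -/
private lemma step_h {z1 z2 : D → ℕ} {t1 t2 : V → ℕ} (h : T3H G1 G2 O) (hw1 : G1.ZW z1 t1)
    (hw2 : G2.ZW z2 t2) {al1 ρ1 al2 ρ2 : D → D} (hd1 : G1.ZD z1 t1 al1 ρ1)
    (hd2 : G2.ZD z2 t2 al2 ρ2) {O' : Finset V} (hO : O' ⊆ O)
    (hn1 : ∀ v ∈ O', v ∉ G1.ztch z1) (hn2 : ∀ v ∈ O', v ∉ G2.ztch z2) :
    T3H hd1.gr hd2.gr O' := by
  have h' := h.mono hO
  refine ⟨h'.sub, ?_, h'.ds, h'.pi, ?_, ?_⟩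
  · intro d hd hp
    rw [ZD.gr_al, (hd1.at_untouched hw1 hd (hn1 _ hp)).1]
    exact h'.ntok d hd hp
  · intro d hd hp hq
    rw [ZD.gr_al, (hd1.at_untouched hw1 hd (hn1 _ hp)).1] at hq
    rw [ZD.gr_al, ZD.gr_al, (hd1.at_untouched hw1 hd (hn1 _ hp)).1,
      (hd2.at_untouched hw2 (h'.ds d hd hp) (by rw [h'.pi d hd hp]; exact hn2 _ hp)).1]
    exact h'.al d hd hp hq
  · intro d hd hp hq
    rw [ZD.gr_al, (hd1.at_untouched hw1 hd (hn1 _ hp)).1] at hq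
    rw [ZD.gr_al, (hd2.at_untouched hw2 (h'.ds d hd hp)
      (by rw [h'.pi d hd hp]; exact hn2 _ hp)).1]
    exact h'.out d hd hp hq

private lemma step_lift {G : CG V D} {z : D → ℕ} {t : V → ℕ} (hw : G.ZW z t) {al' ρ : D → D}
    (hd : G.ZD z t al' ρ) {M : Finset D} (hM : hd.gr.IsPM M) {d : D} (hds : d ∈ G.ds)
    (hv : G.pi d ∉ G.ztch z) (h : d ∈ M.image ρ) : d ∈ M := by
  have _ := hds
  obtain ⟨e, he, hed⟩ := mem_image.1 h
  have h5 := hd.pair e (hM.sub he) (hM.notok e he)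
  have h6 : G.pi e = G.pi d := by rw [← h5.2.2.1, hed]
  have h7 := (hd.at_untouched hw (hM.sub he) (by rw [h6]; exact hv)).2.1
  rw [hed] at h7
  exact h7 ▸ he

/-- **the step**: weights `z1`, `t1` for `G1` and `z2`, `t2` for `G2` (odd sets have value at least
three, at most four tokens), and a smaller set `O'` of fresh vertices, untouched by both, such that
every odd `Z ⊆ O` which is not a subset of `O'` has a safe edge in its boundary (an edge killed by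
`z1` or by `z2`), or two edges with the same outer end in `G1` or in `G2` -/
theorem MC3.step (h : MC3 G1 G2 O) {z1 z2 : D → ℕ} {t1 t2 : V → ℕ} (hw1 : G1.ZW z1 t1)
    (hw2 : G2.ZW z2 t2) (hb1 : G1.ZB z1 t1) (hb2 : G2.ZB z2 t2)
    (h41 : ∑ d ∈ G1.tk G1.vs, z1 d + ∑ v ∈ G1.vs, t1 v ≤ 4)
    (h42 : ∑ d ∈ G2.tk G2.vs, z2 d + ∑ v ∈ G2.vs, t2 v ≤ 4)
    {O' : Finset V} (hO : O' ⊂ O)
    (hn1 : ∀ v ∈ O', v ∉ G1.ztch z1) (hn2 : ∀ v ∈ O', v ∉ G2.ztch z2)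
    (hj : ∀ Z ⊆ O, Odd Z.card → ¬ Z ⊆ O' →
      (∃ d ∈ G1.bd Z, z1 d = 0 ∨ z2 d = 0) ∨
      (∃ d1 ∈ G1.bd Z, ∃ d2 ∈ G1.bd Z, d1 ≠ d2 ∧ G1.pi (G1.al d1) = G1.pi (G1.al d2)) ∨
      (∃ d1 ∈ G2.bd Z, ∃ d2 ∈ G2.bd Z, d1 ≠ d2 ∧ G2.pi (G2.al d1) = G2.pi (G2.al d2))) :
    False := by
  have hI := h.inst
  obtain ⟨al1, ρ1, hd1⟩ := hw1.exists_zd
  obtain ⟨al2, ρ2, hd2⟩ := hw2.exists_zd
  have hOs := hO.subset
  have hI' : T3I hd1.gr hd2.gr O' := by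
    refine ⟨hI.even1, hI.even2, ?_, ?_, ?_, ?_, ?_, ?_⟩
    · rw [hd1.card_tk]
      exact h41
    · rw [hd2.card_tk]
      exact h42
    · intro X hX ho
      rw [hd1.dg_gr hX]
      exact hb1 X hX ho
    · intro X hX ho
      rw [hd2.dg_gr hX]
      exact hb2 X hX ho
    · exact step_h hI.h1 hw1 hw2 hd1 hd2 hOs hn1 hn2
    · exact step_h hI.h2 hw2 hw1 hd2 hd1 hOs hn2 hn1
  obtain ⟨M1, M2, hg⟩ := h.ih2 hd1.gr hd2.gr O' rfl (card_lt_card hO) hI'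
  have p1 := hd1.lift_pm hg.pm1
  have p2 := hd2.lift_pm hg.pm2
  refine h.no ⟨_, _, p1, p2, fun Z hZ ho => ?_⟩
  by_cases hZO : Z ⊆ O'
  · obtain ⟨d, h1, h2⟩ := hg.hit Z hZO ho
    rw [hd1.bd_untouched hw1 (fun v hv => hn1 v (hZO hv))] at h1
    obtain ⟨k1, k2, -⟩ := (mem_bd _).1 h1
    have hkO := hZO k2
    refine ⟨d, h1, fun h3 => h2 ⟨step_lift hw1 hd1 hg.pm1 k1 (hn1 _ hkO) h3.1, ?_⟩⟩
    have e := hI.h1.pi d k1 (hOs hkO)
    exact step_lift hw2 hd2 hg.pm2 (hI.h1.ds d k1 (hOs hkO)) (by rw [e]; exact hn2 _ hkO) h3.2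
  · rcases hj Z hZ ho hZO with ⟨d, h1, h2⟩ | ⟨d1, h1, d2, h2, h3, h4⟩ | ⟨d1, h1, d2, h2, h3, h4⟩
    · obtain ⟨k1, k2, -⟩ := (mem_bd _).1 h1
      refine ⟨d, h1, fun h3 => ?_⟩
      rcases h2 with h2 | h2
      · exact hd1.lift_not hg.pm1 k1 h2 h3.1
      · exact hd2.lift_not hg.pm2 (hI.h1.ds d k1 (hZ k2)) h2 h3.2
    · obtain ⟨d, k1, k2⟩ := KD.two_out p1 h1 h2 h3 h4
      exact ⟨d, k1, fun h5 => k2 h5.1⟩
    · obtain ⟨d, k1, k2⟩ := KD.two_out p2 h1 h2 h3 h4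
      exact ⟨d, (hI.bd_eq hZ) ▸ k1, fun h5 => k2 h5.2⟩

/-- the step, absorbing exactly the touched vertices -/
theorem MC3.step' (h : MC3 G1 G2 O) {z1 z2 : D → ℕ} {t1 t2 : V → ℕ} (hw1 : G1.ZW z1 t1)
    (hw2 : G2.ZW z2 t2) (hb1 : G1.ZB z1 t1) (hb2 : G2.ZB z2 t2)
    (h41 : ∑ d ∈ G1.tk G1.vs, z1 d + ∑ v ∈ G1.vs, t1 v ≤ 4)
    (h42 : ∑ d ∈ G2.tk G2.vs, z2 d + ∑ v ∈ G2.vs, t2 v ≤ 4)
    (hv : ∃ v ∈ O, v ∈ G1.ztch z1 ∨ v ∈ G2.ztch z2)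
    (hj : ∀ Z ⊆ O, Odd Z.card → (∃ v ∈ Z, v ∈ G1.ztch z1 ∨ v ∈ G2.ztch z2) →
      (∃ d ∈ G1.bd Z, z1 d = 0 ∨ z2 d = 0) ∨
      (∃ d1 ∈ G1.bd Z, ∃ d2 ∈ G1.bd Z, d1 ≠ d2 ∧ G1.pi (G1.al d1) = G1.pi (G1.al d2)) ∨
      (∃ d1 ∈ G2.bd Z, ∃ d2 ∈ G2.bd Z, d1 ≠ d2 ∧ G2.pi (G2.al d1) = G2.pi (G2.al d2))) :
    False := by
  refine h.step hw1 hw2 hb1 hb2 h41 h42
    (O' := O.filter fun v => ¬ (v ∈ G1.ztch z1 ∨ v ∈ G2.ztch z2)) ?_ ?_ ?_ ?_
  · refine ⟨filter_subset _ _, fun hs => ?_⟩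
    obtain ⟨v, h1, h2⟩ := hv
    exact (mem_filter.1 (hs h1)).2 h2
  · intro v hv' h1
    exact (mem_filter.1 hv').2 (Or.inl h1)
  · intro v hv' h1
    exact (mem_filter.1 hv').2 (Or.inr h1)
  · intro Z hZ ho hn
    refine hj Z hZ ho ?_
    by_contra hcon
    push Not at hcon
    refine hn fun v hv' => mem_filter.2 ⟨hZ hv', ?_⟩
    rw [not_or]
    exact hcon v hv'

/-- **top level**: if there is no minimal counterexample then T3 holds -/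
theorem t3_main (hno : ∀ (G1 G2 : CG V D) (O : Finset V), ¬ MC3 G1 G2 O) (G1 G2 : CG V D)
    (O : Finset V) (hI : T3I G1 G2 O) : ∃ M1 M2, T3G G1 G2 O M1 M2 := by
  have key : ∀ n, ∀ (G1 G2 : CG V D) (O : Finset V), G1.vs.card + G2.vs.card = n →
      T3I G1 G2 O → ∃ M1 M2, T3G G1 G2 O M1 M2 := by
    intro n
    induction n using Nat.strong_induction_on with
    | _ n ih =>
      have key2 : ∀ m, ∀ (G1 G2 : CG V D) (O : Finset V), G1.vs.card + G2.vs.card = n →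
          O.card = m → T3I G1 G2 O → ∃ M1 M2, T3G G1 G2 O M1 M2 := by
        intro m
        induction m using Nat.strong_induction_on with
        | _ m ih' =>
          intro G1 G2 O hn hm hI
          by_contra hcon
          refine hno G1 G2 O ⟨hI, hcon, ?_, ?_⟩
          · intro G1' G2' O' hlt hI'
            exact ih _ (by omega) G1' G2' O' rfl hI'
          · intro G1' G2' O' he hlt hI'
            exact ih' O'.card (by omega) G1' G2' O' (by omega) rfl hI'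
      intro G1 G2 O hn hI
      exact key2 O.card G1 G2 O hn rfl hI
  exact key _ G1 G2 O rfl hI

end JK.CG
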