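import Pool.Agent.Lib.JK.T3
import Pool.Agent.Lib.JK.CutB

/-! Facts on minimal counterexamples of T3: there is a frontier edge, both graphs have exactly four
tokens. -/

set_option autoImplicit false

namespace JK.CG

open Finset Classical

variable {V D : Type*}

section cut

variable (G : CG V D) (d : D)

/-- weights of the cut edge `d`: killed, with a new token at both ends -/
noncomputable def zcut : D → ℕ := fun e => if e = d ∨ e = G.al d then 0 else 1

/-- the new tokens of the cut edge -/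
noncomputable def tcut : V → ℕ := fun v =>
  (if v = G.pi d then 1 else 0) + (if v = G.pi (G.al d) then 1 else 0)

variable {G d}

lemma zcut_add (hn : G.al d ≠ d) (e : D) :
    G.zcut d e + ((if e = d then 1 else 0) + (if e = G.al d then 1 else 0)) = 1 := by
  unfold zcut
  by_cases h1 : e = d
  · subst h1
    rw [if_pos (Or.inl rfl), if_pos rfl, if_neg (fun h => hn h.symm)]
  · by_cases h2 : e = G.al d
    · rw [if_pos (Or.inr h2), if_neg h1, if_pos h2]
    · rw [if_neg (by rw [not_or]; exact ⟨h1, h2⟩), if_neg h1, if_neg h2]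

lemma zcut_tok (hd : d ∈ G.ds) (hn : G.al d ≠ d) {e : D} (he : G.al e = e) : G.zcut d e = 1 := by
  unfold zcut
  rw [if_neg]
  rintro (h | h)
  · subst h
    exact hn he
  · subst h
    rw [G.al_al d hd] at he
    exact hn he.symm

lemma zcut_sum (hn : G.al d ≠ d) (S : Finset D) :
    ∑ e ∈ S, G.zcut d e + ((if d ∈ S then 1 else 0) + (if G.al d ∈ S then 1 else 0)) = S.card := by
  have h1 : ∑ e ∈ S, (G.zcut d e + ((if e = d then 1 else 0) + (if e = G.al d then 1 else 0))) =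
      S.card := by
    rw [card_eq_sum_ones]
    exact sum_congr rfl fun e _ => zcut_add hn e
  rw [sum_add_distrib, sum_add_distrib, sum_ite_eq', sum_ite_eq'] at h1
  exact h1

lemma tcut_sum (X : Finset V) :
    ∑ v ∈ X, G.tcut d v = (if G.pi d ∈ X then 1 else 0) + (if G.pi (G.al d) ∈ X then 1 else 0) := by
  unfold tcut
  rw [sum_add_distrib, sum_ite_eq', sum_ite_eq']

lemma zcut_zw (hd : d ∈ G.ds) (hn : G.al d ≠ d) : G.ZW (G.zcut d) (G.tcut d) := by
  refine ⟨?_, ?_⟩
  · intro e he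
    unfold zcut
    congr 1
    apply propext
    constructor
    · rintro (h | h)
      · right
        rw [← h, G.al_al e he]
      · left
        rw [← G.al_al e he, h, G.al_al d hd]
    · rintro (h | h)
      · right
        rw [h]
      · left
        rw [h, G.al_al d hd]
  · intro v hv
    have h1 := zcut_sum hn (G.ds.filter fun e => G.pi e = v)
    rw [G.cubic v hv] at h1
    have h2 : G.tcut d v = (if d ∈ G.ds.filter fun e => G.pi e = v then 1 else 0) +
        (if G.al d ∈ G.ds.filter fun e => G.pi e = v then 1 else 0) := by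
      unfold tcut
      congr 2
      · rw [mem_filter]
        exact propext ⟨fun h => ⟨hd, h.symm⟩, fun h => h.2.symm⟩
      · rw [mem_filter]
        exact propext ⟨fun h => ⟨G.al_mem d hd, h.symm⟩, fun h => h.2.symm⟩
    rw [h2]
    exact h1

lemma zcut_zc (hd : d ∈ G.ds) (hn : G.al d ≠ d) (X : Finset V) :
    G.dg X ≤ G.zc (G.zcut d) (G.tcut d) X := by
  unfold dg zc
  have h1 := zcut_sum hn (G.bd X)
  have h2 : ∑ e ∈ G.tk X, G.zcut d e = (G.tk X).card := by
    rw [card_eq_sum_ones]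
    exact sum_congr rfl fun e he => zcut_tok hd hn ((mem_tk _).1 he).2.2
  rw [tcut_sum]
  have h3 : (if d ∈ G.bd X then 1 else 0) ≤ (if G.pi d ∈ X then 1 else 0) := by
    by_cases h : d ∈ G.bd X
    · rw [if_pos h, if_pos ((mem_bd _).1 h).2.1]
    · rw [if_neg h]
      exact Nat.zero_le _
  have h4 : (if G.al d ∈ G.bd X then 1 else 0) ≤ (if G.pi (G.al d) ∈ X then 1 else 0) := by
    by_cases h : G.al d ∈ G.bd X
    · rw [if_pos h, if_pos ((mem_bd _).1 h).2.1]
    · rw [if_neg h]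
      exact Nat.zero_le _
  omega

lemma zcut_zb (hd : d ∈ G.ds) (hn : G.al d ≠ d) (hb : G.B0) : G.ZB (G.zcut d) (G.tcut d) :=
  fun X hX ho => (hb X hX ho).trans (zcut_zc hd hn X)

lemma zcut_tk (hd : d ∈ G.ds) (hn : G.al d ≠ d) :
    ∑ e ∈ G.tk G.vs, G.zcut d e + ∑ v ∈ G.vs, G.tcut d v = (G.tk G.vs).card + 2 := by
  rw [tcut_sum, if_pos (G.pi_mem d hd), if_pos (G.pi_mem _ (G.al_mem d hd)), card_eq_sum_ones]
  congr 1
  exact sum_congr rfl fun e he => zcut_tok hd hn ((mem_tk _).1 he).2.2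

end cut

/-- trivial weights -/
lemma zone_zw (G : CG V D) : G.ZW (fun _ => 1) (fun _ => 0) := by
  refine ⟨fun _ _ => rfl, fun v hv => ?_⟩
  rw [← card_eq_sum_ones, G.cubic v hv]

lemma zone_zc (G : CG V D) (X : Finset V) : G.zc (fun _ => 1) (fun _ => 0) X = G.dg X := by
  unfold zc dg
  rw [← card_eq_sum_ones, ← card_eq_sum_ones]
  simp

lemma zone_zb {G : CG V D} (hb : G.B0) : G.ZB (fun _ => 1) (fun _ => 0) := by
  intro X hX ho
  rw [zone_zc]
  exact hb X hX ho

lemma zone_tk (G : CG V D) :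
    ∑ _e ∈ G.tk G.vs, 1 + ∑ _v ∈ G.vs, 0 = (G.tk G.vs).card := by
  rw [← card_eq_sum_ones]
  simp

lemma zone_tch (G : CG V D) (v : V) : v ∉ G.ztch (fun _ => 1) := by
  intro h
  obtain ⟨-, d, -, -, h1⟩ := mem_ztch.1 h
  exact h1 rfl

/-- the number of tokens of an even graph is even -/
lemma tk_even (G : CG V D) (he : Even G.vs.card) : Even (G.tk G.vs).card := by
  have hbdv : G.bd G.vs = ∅ := by
    rw [Finset.eq_empty_iff_forall_notMem]
    intro d hd
    rw [mem_bd] at hd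
    exact hd.2.2 (G.pi_mem _ (G.al_mem d hd.1))
  have h1 := G.dg_parity (X := G.vs) (Finset.Subset.refl _)
  have h2 : G.dg G.vs = (G.tk G.vs).card := by
    unfold dg
    rw [hbdv]
    simp
  rw [h2] at h1
  rw [← Nat.not_odd_iff_even, h1, Nat.not_odd_iff_even]
  exact he

variable {G1 G2 : CG V D} {O : Finset V}

/-- there is a frontier edge -/
theorem MC3.frontier (h : MC3 G1 G2 O) : ∃ d ∈ G1.ds, G1.pi d ∈ O ∧ G1.pi (G1.al d) ∉ O := by
  by_contra hcon
  push Not at hcon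
  have hI := h.inst
  have hbd : G1.bd O = ∅ := by
    rw [eq_empty_iff_forall_notMem]
    intro d hd
    obtain ⟨h1, h2, h3⟩ := (mem_bd _).1 hd
    exact h3 (hcon d h1 h2)
  have heO : Even O.card := by
    rw [← Nat.not_odd_iff_even]
    intro ho
    have h1 := hI.b1 O hI.h1.sub ho
    unfold dg at h1
    rw [hbd, hI.h1.tk_empty (Finset.Subset.refl _)] at h1
    simp at h1
  obtain ⟨k, hk⟩ := h.ne
  obtain ⟨M1, M2, hg⟩ := h.ih2 G1 G2 (O.erase k) rfl (card_erase_lt_of_mem hk)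
    (hI.mono (erase_subset _ _))
  refine h.no ⟨M1, M2, hg.pm1, hg.pm2, fun Z hZ ho => ?_⟩
  by_cases hkZ : k ∈ Z
  · have hcard : (O \ Z).card + Z.card = O.card := card_sdiff_add_card_eq_card hZ
    have hoddc : Odd (O \ Z).card := by
      obtain ⟨a, ha⟩ := ho
      obtain ⟨b, hb'⟩ := heO
      rw [Nat.odd_iff]
      omega
    obtain ⟨d, hd, hd'⟩ := hg.hit (O \ Z) (fun v hv => mem_erase.2
      ⟨fun e => (mem_sdiff.1 hv).2 (e ▸ hkZ), (mem_sdiff.1 hv).1⟩) hoddc
    obtain ⟨h1, h2, h3⟩ := (mem_bd _).1 hd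
    have hpO := (mem_sdiff.1 h2).1
    have hO := hcon d h1 hpO
    have h4 : G1.pi (G1.al d) ∈ Z := by
      by_contra h8
      exact h3 (mem_sdiff.2 ⟨hO, h8⟩)
    refine ⟨G1.al d, (mem_bd _).2 ⟨G1.al_mem d h1, h4, ?_⟩, fun h5 => hd' ?_⟩
    · rw [G1.al_al d h1]
      exact (mem_sdiff.1 h2).2
    · have e1 := hg.pm1.closed _ h5.1
      have e2 := hg.pm2.closed _ h5.2
      have e3 : G2.al (G1.al d) = G1.al (G1.al d) :=
        hI.h1.al _ (G1.al_mem d h1) hO (by rw [G1.al_al d h1]; exact hpO)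
      rw [e3] at e2
      rw [G1.al_al d h1] at e1 e2
      exact ⟨e1, e2⟩
  · exact hg.hit Z (fun v hv => mem_erase.2 ⟨fun e => hkZ (e ▸ hv), hZ hv⟩) ho

/-- both graphs have exactly four tokens -/
theorem MC3.four1 (h : MC3 G1 G2 O) : (G1.tk G1.vs).card = 4 := by
  have hI := h.inst
  have h4 := hI.four1
  have he := tk_even G1 hI.even1
  by_contra hne
  have h2 : (G1.tk G1.vs).card ≤ 2 := by
    obtain ⟨k, hk⟩ := he
    omega
  obtain ⟨d, hd, hp, hq⟩ := h.frontier
  have hn := hI.h1.ntok d hd hp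
  refine h.step (zcut_zw hd hn) (zone_zw G2) (zcut_zb hd hn hI.b1) (zone_zb hI.b2) ?_ ?_
    (O' := O.erase (G1.pi d)) (erase_ssubset hp) ?_ (fun v _ => zone_tch G2 v) ?_
  · rw [zcut_tk hd hn]
    omega
  · rw [zone_tk]
    exact hI.four2
  · intro v hv h5
    obtain ⟨h6, h7⟩ := mem_erase.1 hv
    obtain ⟨-, e, -, h8, h9⟩ := mem_ztch.1 h5
    apply h9
    unfold zcut
    rw [if_neg]
    rintro (rfl | rfl)
    · exact h6 h8.symm
    · exact hq (h8 ▸ h7)
  · intro Z hZ _ hnZ
    left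
    have hpZ : G1.pi d ∈ Z := by
      by_contra h5
      exact hnZ fun v hv => mem_erase.2 ⟨fun e => h5 (e ▸ hv), hZ hv⟩
    refine ⟨d, (mem_bd _).2 ⟨hd, hpZ, fun h5 => hq (hZ h5)⟩, Or.inl ?_⟩
    unfold zcut
    rw [if_pos (Or.inl rfl)]

theorem MC3.four2 (h : MC3 G1 G2 O) : (G2.tk G2.vs).card = 4 := h.symm.four1

end JK.CG
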