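import Pool.Agent.Lib.JK.T3
import Pool.Agent.Lib.JK.OfSG
import Pool.Agent.Lib.JK.EvenSub

/-! From T3 to the frozen statement S11409. -/

set_option autoImplicit false

namespace JK

open Finset Classical

/-- two perfect matchings whose intersection contains no odd cut -/
theorem t3_exists_two {V : Type} [Fintype V] (hmain : ∀ (D : Type) (G1 G2 : CG V D) (O : Finset V),
      CG.T3I G1 G2 O → ∃ M1 M2, CG.T3G G1 G2 O M1 M2)
    (G : SimpleGraph V) (hc : ∀ v : V, (G.neighborSet v).ncard = 3)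
    (hb : ∀ v w : V, G.Adj v w → (G.deleteEdges {s(v, w)}).Reachable v w) :
    ∃ M1 M2 : Finset (V × V), (ofSG G hc).IsPM M1 ∧ (ofSG G hc).IsPM M2 ∧
      ∀ Z : Finset V, Odd Z.card → ∃ d ∈ (ofSG G hc).bd Z, ¬ (d ∈ M1 ∧ d ∈ M2) := by
  rcases isEmpty_or_nonempty V with hV | ⟨⟨v0⟩⟩
  · have hpm : (ofSG G hc).IsPM ∅ :=
      ⟨empty_subset _, by simp, by simp, fun v _ => (hV.false v).elim⟩
    refine ⟨∅, ∅, hpm, hpm, ?_⟩
    intro Z hZ
    have : Z = ∅ := eq_empty_of_isEmpty Z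
    subst this
    simp at hZ
  · have hsub : ∀ Z : Finset V, Z ⊆ (ofSG G hc).vs := fun Z => subset_univ _
    have hH : CG.T3H (ofSG G hc) (ofSG G hc) (univ.filter fun v => v ≠ v0) := by
      refine ⟨hsub _, ?_, fun _ h _ => h, fun _ _ _ => rfl, fun _ _ _ _ => rfl,
        fun _ _ _ h => h⟩
      intro d hd _ h
      have : d ∈ (ofSG G hc).tk (ofSG G hc).vs := (CG.mem_tk _).2 ⟨hd, (ofSG G hc).pi_mem d hd, h⟩
      rw [ofSG_tk] at this
      exact absurd this (notMem_empty _)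
    have hI : CG.T3I (ofSG G hc) (ofSG G hc) (univ.filter fun v => v ≠ v0) := by
      refine ⟨ofSG_even G hc, ofSG_even G hc, ?_, ?_, ofSG_b0 G hc hb, ofSG_b0 G hc hb, hH, hH⟩ <;>
      · rw [ofSG_tk]
        simp
    obtain ⟨M1, M2, hg⟩ := hmain _ _ _ _ hI
    refine ⟨M1, M2, hg.pm1, hg.pm2, ?_⟩
    intro Z ho
    by_cases hv : v0 ∈ Z
    · have hcard : ((ofSG G hc).vs \ Z).card + Z.card = (ofSG G hc).vs.card :=
        card_sdiff_add_card_eq_card (hsub Z)
      have hoddc : Odd ((ofSG G hc).vs \ Z).card := by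
        obtain ⟨a, ha⟩ := ho
        obtain ⟨b, hb'⟩ := ofSG_even G hc
        rw [Nat.odd_iff]
        omega
      obtain ⟨d, hd, hd'⟩ := hg.hit ((ofSG G hc).vs \ Z) (fun v hv' => mem_filter.2
        ⟨mem_univ _, fun h => (mem_sdiff.1 hv').2 (h ▸ hv)⟩) hoddc
      obtain ⟨h1, h2, h3⟩ := (CG.mem_bd _).1 hd
      have h4 : (ofSG G hc).pi ((ofSG G hc).al d) ∈ Z := by
        by_contra h8
        exact h3 (mem_sdiff.2 ⟨(ofSG G hc).pi_mem _ ((ofSG G hc).al_mem d h1), h8⟩)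
      refine ⟨(ofSG G hc).al d, (CG.mem_bd _).2 ⟨(ofSG G hc).al_mem d h1, h4, ?_⟩, fun h5 => hd' ?_⟩
      · rw [(ofSG G hc).al_al d h1]
        exact (mem_sdiff.1 h2).2
      · have e1 := hg.pm1.closed _ h5.1
        have e2 := hg.pm2.closed _ h5.2
        rw [(ofSG G hc).al_al d h1] at e1 e2
        exact ⟨e1, e2⟩
    · exact hg.hit Z (fun v hv' => mem_filter.2 ⟨mem_univ _, fun h => hv (h ▸ hv')⟩) ho

/-- the complement of a perfect matching -/
private def compl3 {V : Type} [Fintype V] (G : SimpleGraph V)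
    (hc : ∀ v : V, (G.neighborSet v).ncard = 3) (M : Finset (V × V))
    (hM : (ofSG G hc).IsPM M) : SimpleGraph V where
  Adj v w := G.Adj v w ∧ (v, w) ∉ M
  symm := ⟨fun v w h => ⟨h.1.symm, fun hw => h.2 (hM.closed (w, v) hw)⟩⟩
  loopless := ⟨fun v h => G.loopless.irrefl v h.1⟩

private lemma compl3_le {V : Type} [Fintype V] (G : SimpleGraph V)
    (hc : ∀ v : V, (G.neighborSet v).ncard = 3) (M : Finset (V × V))
    (hM : (ofSG G hc).IsPM M) : compl3 G hc M hM ≤ G := fun _ _ h => h.1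

private lemma compl3_card {V : Type} [Fintype V] (G : SimpleGraph V)
    (hc : ∀ v : V, (G.neighborSet v).ncard = 3) (M : Finset (V × V))
    (hM : (ofSG G hc).IsPM M) (v : V) : ((compl3 G hc M hM).neighborSet v).ncard = 2 := by
  obtain ⟨d, hd⟩ := Finset.card_eq_one.1 (hM.one v (Finset.mem_univ v))
  have hd1 : d ∈ M ∧ d.1 = v := by
    have : d ∈ M.filter fun d => (ofSG G hc).pi d = v := by rw [hd]; simp
    rw [Finset.mem_filter] at this
    exact this
  obtain ⟨a, w⟩ := d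
  obtain ⟨hm, rfl⟩ := hd1
  have hadj : G.Adj a w := by
    have := hM.sub hm
    simpa [ofSG] using this
  have hset : (compl3 G hc M hM).neighborSet a = G.neighborSet a \ {w} := by
    ext x
    simp only [SimpleGraph.mem_neighborSet, Set.mem_sdiff, Set.mem_singleton_iff]
    constructor
    · rintro ⟨h1, h2⟩
      refine ⟨h1, ?_⟩
      rintro rfl
      exact h2 hm
    · rintro ⟨h1, h2⟩
      refine ⟨h1, fun h3 => h2 ?_⟩
      have : (a, x) ∈ M.filter fun d => (ofSG G hc).pi d = a := by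
        rw [Finset.mem_filter]
        exact ⟨h3, rfl⟩
      rw [hd, Finset.mem_singleton] at this
      exact (Prod.ext_iff.1 this).2
  rw [hset, Set.ncard_sdiff_singleton_of_mem (show w ∈ G.neighborSet a from hadj), hc]

/-- the frozen statement S11409, given T3 for all instances -/
theorem t3_final (hmain : ∀ (V D : Type) (G1 G2 : CG V D) (O : Finset V),
      CG.T3I G1 G2 O → ∃ M1 M2, CG.T3G G1 G2 O M1 M2) :
    ∀ (V : Type) [Fintype V] (G : SimpleGraph V),
      (∀ v : V, (G.neighborSet v).ncard = 3) →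
      (∀ v w : V, G.Adj v w → (G.deleteEdges {s(v, w)}).Reachable v w) →
      ∃ F₁ F₂ C : SimpleGraph V,
        F₁ ≤ G ∧ F₂ ≤ G ∧ C ≤ G ∧
        (∀ v : V, (F₁.neighborSet v).ncard = 2) ∧
        (∀ v : V, (F₂.neighborSet v).ncard = 2) ∧
        (∀ v : V, Even ((C.neighborSet v).ncard)) ∧
        F₁ ⊔ F₂ ⊔ C = G := by
  intro V _ G hc hb
  obtain ⟨M1, M2, h1, h2, hZ⟩ := t3_exists_two (fun D => hmain V D) G hc hb
  obtain ⟨C, hC, hT, hev⟩ := exists_even G hc (M1 ∩ M2)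
    (fun d hd => by
      have := h1.sub (Finset.mem_inter.1 hd).1
      simpa [ofSG] using this)
    (fun d hd => Finset.mem_inter.2 ⟨h1.closed d (Finset.mem_inter.1 hd).1,
      h2.closed d (Finset.mem_inter.1 hd).2⟩)
    (fun Z hZo => by
      obtain ⟨d, hd, hd'⟩ := hZ Z hZo
      exact ⟨d, hd, fun h => hd' (Finset.mem_inter.1 h)⟩)
  refine ⟨compl3 G hc M1 h1, compl3 G hc M2 h2, C, compl3_le G hc M1 h1, compl3_le G hc M2 h2,
    hC, compl3_card G hc M1 h1, compl3_card G hc M2 h2, hev, ?_⟩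
  ext v w
  simp only [SimpleGraph.sup_adj]
  constructor
  · rintro ((h | h) | h)
    · exact h.1
    · exact h.1
    · exact hC h
  · intro h
    by_cases hm1 : (v, w) ∈ M1
    · by_cases hm2 : (v, w) ∈ M2
      · exact Or.inr (hT _ (Finset.mem_inter.2 ⟨hm1, hm2⟩))
      · exact Or.inl (Or.inr ⟨h, hm2⟩)
    · exact Or.inl (Or.inl ⟨h, hm1⟩)

end JK
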