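import Pool.Agent.Lib.JK.JoinS

/-! Tame structures (S5, MP_c95763_co): killed structures which kill no edge of `F` are the same as
matchings. `J0` is a set of darts closed under `al`, at most one at every vertex (the complement of
`F`), `M0` another one. Then `J0 \ M0` is killed, the pair edges are the edges of `M0 \ J0`, and the
cuts of the new graph are the cuts of (complement of `J0`) + `M0`. -/

set_option autoImplicit false

namespace JK.CG

open Finset Classical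

variable {V D : Type*} (G : CG V D)

/-- the dart of `S` at the vertex `v` (or `d0`) -/
noncomputable def dt (S : Finset D) (v : V) (d0 : D) : D :=
  if h : ∃ d ∈ S, G.pi d = v then h.choose else d0

lemma dt_eq {S : Finset D} (hi : ∀ d ∈ S, ∀ e ∈ S, G.pi d = G.pi e → d = e) {d : D}
    (hd : d ∈ S) (d0 : D) : G.dt S (G.pi d) d0 = d := by
  have h : ∃ e ∈ S, G.pi e = G.pi d := ⟨d, hd, rfl⟩
  unfold dt
  rw [dif_pos h]
  exact hi _ h.choose_spec.1 _ hd h.choose_spec.2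

/-- tame data -/
structure TM (J0 M0 : Finset D) (ζ : D) : Prop where
  Jsub : J0 ⊆ G.ds
  Msub : M0 ⊆ G.ds
  Jal : ∀ d ∈ J0, G.al d ∈ J0
  Mal : ∀ d ∈ M0, G.al d ∈ M0
  Jinj : ∀ d ∈ J0, ∀ e ∈ J0, G.pi d = G.pi e → d = e
  Minj : ∀ d ∈ M0, ∀ e ∈ M0, G.pi d = G.pi e → d = e
  Mtok : ∀ e ∈ M0, e ∉ J0 → G.al e ≠ e
  MJ : ∀ e ∈ M0, e ∉ J0 → ∃ d ∈ J0, G.pi d = G.pi e
  JM : ∀ d ∈ J0, d ∉ M0 → d ≠ ζ → ∃ e ∈ M0, G.pi e = G.pi d
  zM : ∀ e ∈ M0, G.pi e ≠ G.pi ζ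

/-- the pair edge -/
noncomputable def tp (M0 : Finset D) (d : D) : D := G.dt M0 (G.pi d) d

/-- the new pairing -/
noncomputable def tal (J0 M0 : Finset D) (ζ d : D) : D :=
  if d ∈ J0 ∧ d ∉ M0 then
    (if d = ζ then d else G.dt J0 (G.pi (G.al (G.tp M0 d))) d)
  else G.al d

namespace TM

variable {G} {J0 M0 : Finset D} {ζ : D}

/-- the basic facts -/
lemma step (h : G.TM J0 M0 ζ) {d : D} (hd : d ∈ J0) (hM : d ∉ M0) (hz : d ≠ ζ) :
    ∃ e d', e ∈ M0 ∧ e ∉ J0 ∧ G.pi e = G.pi d ∧ G.al e ≠ e ∧ d' ∈ J0 ∧ d' ∉ M0 ∧ d' ≠ ζ ∧ d' ≠ d ∧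
      G.pi d' = G.pi (G.al e) ∧ G.tp M0 d = e ∧ G.tp M0 d' = G.al e ∧
      G.tal J0 M0 ζ d = d' ∧ G.tal J0 M0 ζ d' = d := by
  obtain ⟨e, he, hep⟩ := h.JM d hd hM hz
  have heJ : e ∉ J0 := fun h1 => hM (by rw [← h.Jinj e h1 d hd hep]; exact he)
  have het := h.Mtok e he heJ
  have haM := h.Mal e he
  have hes := h.Msub he
  have haJ : G.al e ∉ J0 := fun h1 => heJ (by rw [← G.al_al e hes]; exact h.Jal _ h1)
  obtain ⟨d', hd', hdp'⟩ := h.MJ _ haM haJ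
  have hdM' : d' ∉ M0 := fun h1 => haJ (by rw [← h.Minj d' h1 _ haM hdp']; exact hd')
  have hz' : d' ≠ ζ := fun h1 => h.zM _ haM (by rw [← h1]; exact hdp'.symm)
  have hne : d' ≠ d := by
    intro h1
    apply het
    apply h.Minj _ haM _ he
    rw [← hdp', h1, hep]
  have t1 : G.tp M0 d = e := by
    unfold tp
    rw [← hep]
    exact G.dt_eq h.Minj he d
  have t2 : G.tp M0 d' = G.al e := by
    unfold tp
    rw [hdp']
    exact G.dt_eq h.Minj haM d'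
  refine ⟨e, d', he, heJ, hep, het, hd', hdM', hz', hne, hdp', t1, t2, ?_, ?_⟩
  · unfold tal
    rw [if_pos ⟨hd, hM⟩, if_neg hz, t1, ← hdp']
    exact G.dt_eq h.Jinj hd' d
  · unfold tal
    rw [if_pos ⟨hd', hdM'⟩, if_neg hz', t2, G.al_al e hes, hep]
    exact G.dt_eq h.Jinj hd d'

lemma tal_zeta (h : G.TM J0 M0 ζ) (hz : ζ ∈ J0) : G.tal J0 M0 ζ ζ = ζ := by
  unfold tal
  rw [if_pos ⟨hz, fun h1 => h.zM ζ h1 rfl⟩, if_pos rfl]

lemma tal_fix (h : G.TM J0 M0 ζ) {d : D} (hd : d ∈ J0) (hM : d ∉ M0)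
    (he : G.tal J0 M0 ζ d = d) : d = ζ := by
  by_contra hz
  obtain ⟨e, d', -, -, -, -, -, -, -, hne, -, -, -, h1, -⟩ := h.step hd hM hz
  exact hne (h1.symm.trans he)

/-- tame data give a killed structure -/
theorem kd (h : G.TM J0 M0 ζ) : G.KD (J0 \ M0) (G.tal J0 M0 ζ) (G.tp M0) := by
  refine ⟨?_, ?_, ?_, ?_, ?_, ?_, ?_⟩
  · exact sdiff_subset.trans h.Jsub
  · intro d hd
    rw [mem_sdiff] at hd ⊢
    refine ⟨h.Jal d hd.1, fun h1 => hd.2 ?_⟩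
    rw [← G.al_al d (h.Jsub hd.1)]
    exact h.Mal _ h1
  · intro d hd
    rw [mem_sdiff] at hd
    by_cases hz : d = ζ
    · subst hz
      rw [h.tal_zeta hd.1, mem_sdiff]
      exact hd
    · obtain ⟨e, d', -, -, -, -, h1, h2, -, -, -, -, -, h3, -⟩ := h.step hd.1 hd.2 hz
      rw [h3, mem_sdiff]
      exact ⟨h1, h2⟩
  · intro d hd
    rw [mem_sdiff] at hd
    by_cases hz : d = ζ
    · subst hz
      rw [h.tal_zeta hd.1, h.tal_zeta hd.1]
    · obtain ⟨e, d', -, -, -, -, h1, h2, -, -, -, -, -, h3, h4⟩ := h.step hd.1 hd.2 hz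
      rw [h3, h4]
  · intro d hd hA
    unfold tal
    rw [if_neg]
    rw [mem_sdiff] at hA
    exact hA
  · intro d hd e he
    exact h.Jinj d (mem_sdiff.1 hd).1 e (mem_sdiff.1 he).1
  · intro d hd hne
    rw [mem_sdiff] at hd
    have hz : d ≠ ζ := by
      intro hz
      subst hz
      exact hne (h.tal_zeta hd.1)
    obtain ⟨e, d', a1, a2, a3, a4, a5, a6, a7, a8, a9, b1, b2, b3, b4⟩ := h.step hd.1 hd.2 hz
    rw [b3, b1, b2]
    refine ⟨h.Msub a1, ?_, a4, a3, rfl⟩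
    rw [mem_sdiff]
    exact fun h1 => h1.2 a1

/-- the darts of `M0 \ J0` are the pair edges -/
lemma exists_pair (h : G.TM J0 M0 ζ) {e : D} (he : e ∈ M0) (heJ : e ∉ J0) :
    ∃ d, d ∈ J0 ∧ d ∉ M0 ∧ d ≠ ζ ∧ G.pi d = G.pi e ∧ G.tp M0 d = e := by
  obtain ⟨d, hd, hdp⟩ := h.MJ e he heJ
  refine ⟨d, hd, fun h1 => heJ ?_, fun h1 => h.zM e he ?_, hdp, ?_⟩
  · rw [← h.Minj d h1 e he hdp]; exact hd
  · rw [← h1]; exact hdp.symm
  · unfold tp
    rw [hdp]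
    exact G.dt_eq h.Minj he d

/-- **the cuts of the new graph**: the complement of `J0`, and `M0` -/
theorem dg_eq (h : G.TM J0 M0 ζ) (hz : ζ ∈ J0) (X : Finset V) : h.kd.gr.dg X =
    ((G.bd X ∪ G.tk X) \ J0).card + (M0 ∩ (G.bd X ∪ G.tk X)).card +
      (if G.pi ζ ∈ X then 1 else 0) := by
  rw [dg_eq_card_union]
  set al' := G.tal J0 M0 ζ with hal
  have m1 : ∀ d, d ∈ h.kd.gr.bd X ∪ h.kd.gr.tk X ↔ d ∈ G.ds ∧ G.pi d ∈ X ∧
      (G.pi (al' d) ∉ X ∨ al' d = d) := by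
    intro d
    rw [mem_union, mem_bd, mem_tk]
    show (d ∈ G.ds ∧ G.pi d ∈ X ∧ G.pi (al' d) ∉ X) ∨ (d ∈ G.ds ∧ G.pi d ∈ X ∧ al' d = d) ↔ _
    tauto
  have off : ∀ d, ¬ (d ∈ J0 ∧ d ∉ M0) → al' d = G.al d := fun d hd => by
    rw [hal]; unfold tal; rw [if_neg hd]
  have hzM : ζ ∉ M0 := fun h1 => h.zM ζ h1 rfl
  -- four parts
  set P1 := (G.bd X ∪ G.tk X) \ J0 with hP1
  set P2 := (M0 ∩ (G.bd X ∪ G.tk X)).filter fun d => d ∈ J0 with hP2
  set P3 := (J0 \ M0).filter fun d => d ≠ ζ ∧ G.pi d ∈ X ∧ G.pi (al' d) ∉ X with hP3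
  set P4 := ({ζ} : Finset D).filter fun d => G.pi d ∈ X with hP4
  have e0 : h.kd.gr.bd X ∪ h.kd.gr.tk X = ((P1 ∪ P2) ∪ P3) ∪ P4 := by
    ext d
    rw [m1, mem_union, mem_union, mem_union]
    simp only [hP1, hP2, hP3, hP4, mem_sdiff, mem_filter, mem_inter, mem_union, mem_bd, mem_tk,
      mem_singleton]
    constructor
    · rintro ⟨a, b, c⟩
      by_cases hJ : d ∈ J0
      · by_cases hM : d ∈ M0
        · rw [off d (fun hh => hh.2 hM)] at c
          left; left; right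
          refine ⟨⟨hM, ?_⟩, hJ⟩
          tauto
        · by_cases hd : d = ζ
          · exact Or.inr ⟨hd, b⟩
          · left; right
            refine ⟨⟨hJ, hM⟩, hd, b, ?_⟩
            rcases c with c | c
            · exact c
            · exact absurd (h.tal_fix hJ hM c) hd
      · rw [off d (fun hh => hJ hh.1)] at c
        left; left; left
        refine ⟨?_, hJ⟩
        tauto
    · rintro (((⟨a, b⟩ | ⟨⟨a, b⟩, c⟩) | ⟨⟨a, b⟩, c, e, f⟩) | ⟨a, b⟩)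
      · rw [off d (fun hh => b hh.1)]
        tauto
      · rw [off d (fun hh => hh.2 a)]
        tauto
      · exact ⟨h.Jsub a, e, Or.inl f⟩
      · subst a
        exact ⟨h.Jsub hz, b, Or.inr (h.tal_zeta hz)⟩
  have d1 : Disjoint P1 P2 := by
    rw [disjoint_left]
    intro d h1 h2
    exact (mem_sdiff.1 h1).2 (mem_filter.1 h2).2
  have d2 : Disjoint (P1 ∪ P2) P3 := by
    rw [disjoint_left]
    intro d h1 h2
    have h3 := mem_sdiff.1 (mem_filter.1 h2).1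
    rcases mem_union.1 h1 with h4 | h4
    · exact (mem_sdiff.1 h4).2 h3.1
    · exact h3.2 (mem_inter.1 (mem_filter.1 h4).1).1
  have d3 : Disjoint ((P1 ∪ P2) ∪ P3) P4 := by
    rw [disjoint_left]
    intro d h1 h2
    have h3 := mem_singleton.1 (mem_filter.1 h2).1
    subst h3
    rcases mem_union.1 h1 with h4 | h4
    · rcases mem_union.1 h4 with h5 | h5
      · exact (mem_sdiff.1 h5).2 hz
      · exact hzM (mem_inter.1 (mem_filter.1 h5).1).1
    · exact (mem_filter.1 h4).2.1 rfl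
  have c4 : P4.card = if G.pi ζ ∈ X then 1 else 0 := by
    rw [hP4, filter_singleton]
    by_cases hx : G.pi ζ ∈ X
    · rw [if_pos hx, if_pos hx, card_singleton]
    · rw [if_neg hx, if_neg hx, card_empty]
  have c3 : P3.card = ((M0 ∩ (G.bd X ∪ G.tk X)).filter fun d => d ∉ J0).card := by
    apply card_nbij (G.tp M0)
    · intro d hd
      rw [mem_coe, hP3, mem_filter, mem_sdiff] at hd
      obtain ⟨⟨a, b⟩, c, e, f⟩ := hd
      obtain ⟨e', d', a1, a2, a3, a4, a5, a6, a7, a8, a9, b1, b2, b3, b4⟩ := h.step a b c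
      rw [hal, b3, a9] at f
      rw [b1, mem_coe, mem_filter, mem_inter, mem_union, mem_bd]
      exact ⟨⟨a1, Or.inl ⟨h.Msub a1, by rw [a3]; exact e, f⟩⟩, a2⟩
    · intro d hd e he hde
      rw [mem_coe, hP3, mem_filter, mem_sdiff] at hd he
      obtain ⟨e', d', a1, a2, a3, a4, a5, a6, a7, a8, a9, b1, b2, b3, b4⟩ :=
        h.step hd.1.1 hd.1.2 hd.2.1
      obtain ⟨e'', d'', a1', a2', a3', a4', a5', a6', a7', a8', a9', b1', b2', b3', b4'⟩ :=
        h.step he.1.1 he.1.2 he.2.1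
      apply h.Jinj d hd.1.1 e he.1.1
      rw [← a3, ← a3', ← b1, ← b1', hde]
    · intro e he
      rw [mem_coe, mem_filter, mem_inter, mem_union, mem_bd, mem_tk] at he
      obtain ⟨⟨a, b⟩, c⟩ := he
      obtain ⟨d, x1, x2, x3, x4, x5⟩ := h.exists_pair a c
      obtain ⟨e', d', a1, a2, a3, a4, a5, a6, a7, a8, a9, b1, b2, b3, b4⟩ := h.step x1 x2 x3
      have hee : e' = e := by rw [← b1]; exact x5
      subst hee
      refine ⟨d, ?_, x5⟩
      rw [mem_coe, hP3, mem_filter, mem_sdiff]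
      refine ⟨⟨x1, x2⟩, x3, ?_, ?_⟩
      · rw [x4]
        rcases b with b | b
        · exact b.2.1
        · exact b.2.1
      · rw [hal, b3, a9]
        rcases b with b | b
        · exact b.2.2
        · exact absurd b.2.2 a4
  have c5 : P2.card + ((M0 ∩ (G.bd X ∪ G.tk X)).filter fun d => d ∉ J0).card =
      (M0 ∩ (G.bd X ∪ G.tk X)).card := Finset.card_filter_add_card_filter_not _
  rw [e0, card_union_of_disjoint d3, card_union_of_disjoint d2, card_union_of_disjoint d1, c4, c3]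
  omega

/-- tame data give a trail structure -/
theorem tk (h : G.TM J0 M0 ζ) (hz : ζ ∈ J0) {K : Finset V} {F : Finset D} {τ : D} (c : D)
    (ht : τ ∈ J0) (htM : τ ∉ M0) (htt : G.al τ = τ)
    (hU : ∀ d ∈ J0, d ∉ M0 → G.al d = d → d = τ) (hF : ∀ e ∈ M0, e ∉ J0 → e ∈ F) :
    G.TK K F (J0 \ M0) (G.tal J0 M0 ζ) (G.tp M0) τ ζ c := by
  refine ⟨h.kd, mem_sdiff.2 ⟨ht, htM⟩, htt, ?_, ?_, h.tal_zeta hz, ?_, ?_⟩
  · intro d hd
    rw [mem_sdiff] at hd
    exact hU d hd.1 hd.2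
  · exact mem_sdiff.2 ⟨hz, fun h1 => h.zM ζ h1 rfl⟩
  · intro d hd
    rw [mem_sdiff] at hd
    exact h.tal_fix hd.1 hd.2
  · intro d hd hne
    rw [mem_sdiff] at hd
    have hz : d ≠ ζ := by
      intro hz'
      subst hz'
      exact hne (h.tal_zeta hd.1)
    obtain ⟨e, d', a1, a2, a3, a4, a5, a6, a7, a8, a9, b1, b2, b3, b4⟩ := h.step hd.1 hd.2 hz
    rw [b1]
    exact Or.inl (hF e a1 a2)

end TM

/-- the matching of a tame trail structure -/
noncomputable def tmM (J0 A : Finset D) (p : D → D) (ζ : D) : Finset D :=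
  (J0 \ A) ∪ (A.erase ζ).image p

/-- conversely a trail structure which kills only darts of `J0` is tame -/
theorem TK.tm {G : CG V D} {K : Finset V} {F A : Finset D} {al' p : D → D} {τ ζ c : D}
    (h : G.TK K F A al' p τ ζ c) {J0 : Finset D} (hJs : J0 ⊆ G.ds)
    (hJal : ∀ d ∈ J0, G.al d ∈ J0)
    (hJinj : ∀ d ∈ J0, ∀ e ∈ J0, G.pi d = G.pi e → d = e) (hA : A ⊆ J0) :
    G.TM J0 (tmM J0 A p ζ) ζ ∧ J0 \ tmM J0 A p ζ = A ∧
      (∀ d ∈ A, d ≠ ζ → p d ∈ tmM J0 A p ζ ∧ p d ∉ J0) := by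
  have fz : ∀ d ∈ A, d ≠ ζ → al' d ≠ d := fun d hd hne he => hne (h.zetaU d hd he)
  have pJ : ∀ d ∈ A, d ≠ ζ → p d ∉ J0 := by
    intro d hd hne h1
    have hp := h.kd.pair d hd (fz d hd hne)
    have := hJinj _ h1 d (hA hd) hp.2.2.2.1
    rw [this] at hp
    exact hp.2.1 hd
  have mM : ∀ e, e ∈ tmM J0 A p ζ ↔ (e ∈ J0 ∧ e ∉ A) ∨ ∃ d, d ≠ ζ ∧ d ∈ A ∧ p d = e := by
    intro e
    unfold tmM
    rw [mem_union, mem_sdiff, mem_image]
    simp only [mem_erase, and_assoc]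
  have zz : ∀ d ∈ A, d ≠ ζ → al' d ≠ ζ := by
    intro d hd hne he
    apply hne
    rw [← h.kd.inv' d hd, he, h.zeta]
  refine ⟨⟨hJs, ?_, hJal, ?_, hJinj, ?_, ?_, ?_, ?_, ?_⟩, ?_, ?_⟩
  · intro e he
    rw [mM] at he
    rcases he with ⟨h1, -⟩ | ⟨d, h1, h2, rfl⟩
    · exact hJs h1
    · exact (h.kd.pair d h2 (fz d h2 h1)).1
  · intro e he
    rw [mM] at he ⊢
    rcases he with ⟨h1, h2⟩ | ⟨d, h1, h2, rfl⟩
    · exact Or.inl ⟨hJal e h1, h.kd.al_off (hJs h1) h2⟩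
    · exact Or.inr ⟨al' d, zz d h2 h1, h.kd.cl' d h2, (h.kd.pair d h2 (fz d h2 h1)).2.2.2.2⟩
  · intro e he e' he' hee
    rw [mM] at he he'
    rcases he with ⟨h1, h2⟩ | ⟨d, h1, h2, rfl⟩ <;> rcases he' with ⟨h1', h2'⟩ | ⟨d', h1', h2', rfl⟩
    · exact hJinj e h1 e' h1' hee
    · exfalso
      have hp := (h.kd.pair d' h2' (fz d' h2' h1')).2.2.2.1
      have := hJinj e h1 d' (hA h2') (hee.trans hp)
      rw [this] at h2
      exact h2 h2'
    · exfalso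
      have hp := (h.kd.pair d h2 (fz d h2 h1)).2.2.2.1
      have := hJinj e' h1' d (hA h2) (hee.symm.trans hp)
      rw [this] at h2'
      exact h2' h2
    · have hp := (h.kd.pair d h2 (fz d h2 h1)).2.2.2.1
      have hp' := (h.kd.pair d' h2' (fz d' h2' h1')).2.2.2.1
      rw [h.kd.inj d h2 d' h2' (hp.symm.trans (hee.trans hp'))]
  · intro e he heJ
    rw [mM] at he
    rcases he with ⟨h1, -⟩ | ⟨d, h1, h2, rfl⟩
    · exact absurd h1 heJ
    · exact (h.kd.pair d h2 (fz d h2 h1)).2.2.1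
  · intro e he heJ
    rw [mM] at he
    rcases he with ⟨h1, -⟩ | ⟨d, h1, h2, rfl⟩
    · exact absurd h1 heJ
    · exact ⟨d, hA h2, (h.kd.pair d h2 (fz d h2 h1)).2.2.2.1.symm⟩
  · intro d hd hdM hdz
    have hdA : d ∈ A := by
      by_contra hcon
      exact hdM ((mM d).2 (Or.inl ⟨hd, hcon⟩))
    exact ⟨p d, (mM _).2 (Or.inr ⟨d, hdz, hdA, rfl⟩), (h.kd.pair d hdA (fz d hdA hdz)).2.2.2.1⟩
  · intro e he hee
    rw [mM] at he
    rcases he with ⟨h1, h2⟩ | ⟨d, h1, h2, rfl⟩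
    · have := hJinj e h1 ζ (hA h.zetaA) hee
      rw [this] at h2
      exact h2 h.zetaA
    · have hp := (h.kd.pair d h2 (fz d h2 h1)).2.2.2.1
      exact h1 (h.kd.inj d h2 ζ h.zetaA (hp.symm.trans hee))
  · ext d
    rw [mem_sdiff, mM]
    constructor
    · rintro ⟨h1, h2⟩
      by_contra hcon
      exact h2 (Or.inl ⟨h1, hcon⟩)
    · intro hd
      refine ⟨hA hd, ?_⟩
      rintro (⟨-, h2⟩ | ⟨d', h1, h2, h3⟩)
      · exact h2 hd
      · exact pJ d' h2 h1 (h3 ▸ hA hd)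
  · intro d hd hdz
    exact ⟨(mM _).2 (Or.inr ⟨d, hdz, hd, rfl⟩), pJ d hd hdz⟩

end JK.CG
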