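import Pool.Agent.Lib.JK.Tutte
import Pool.Agent.Lib.JK.GluePM
import Pool.Agent.Lib.JK.CutS

/-! A perfect matching through a given edge which meets every 3-cut in exactly one edge. -/

set_option autoImplicit false

namespace JK.CG

open Finset Classical

variable {V D : Type*}

/-- number of matching darts leaving `X` -/
noncomputable def mc (G : CG V D) (M : Finset D) (X : Finset V) : ℕ :=
  ((G.bd X).filter fun d => d ∈ M).card

lemma tk_eq_empty {G : CG V D} (ht : G.tk G.vs = ∅) (X : Finset V) : G.tk X = ∅ := by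
  apply Finset.eq_empty_of_forall_notMem
  intro d hd
  have h := G.mem_tk.mp hd
  have h2 : d ∈ G.tk G.vs := G.mem_tk.mpr ⟨h.1, G.pi_mem d h.1, h.2.2⟩
  rw [ht] at h2
  exact absurd h2 (Finset.notMem_empty _)

lemma dg_eq_bd {G : CG V D} (ht : G.tk G.vs = ∅) (X : Finset V) : G.dg X = (G.bd X).card := by
  unfold dg
  rw [tk_eq_empty ht, Finset.card_empty, add_zero]

lemma mc_compl (G : CG V D) {M : Finset D} (hM : G.IsPM M) {X : Finset V} (hX : X ⊆ G.vs) :
    G.mc M (G.vs \ X) = G.mc M X := by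
  unfold mc
  symm
  refine Finset.card_bij (fun d _ => G.al d) ?_ ?_ ?_
  · intro d hd
    rw [Finset.mem_filter] at hd ⊢
    refine ⟨?_, hM.closed d hd.2⟩
    rw [G.bd_compl_eq hX]
    exact Finset.mem_image_of_mem _ hd.1
  · intro d hd e he h
    have hd1 := (G.mem_bd.mp (Finset.mem_filter.mp hd).1).1
    have he1 := (G.mem_bd.mp (Finset.mem_filter.mp he).1).1
    rw [← G.al_al d hd1, ← G.al_al e he1, h]
  · intro d hd
    rw [Finset.mem_filter, G.bd_compl_eq hX, Finset.mem_image] at hd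
    obtain ⟨⟨e, he, rfl⟩, hdM⟩ := hd
    refine ⟨e, ?_, rfl⟩
    rw [Finset.mem_filter]
    refine ⟨he, ?_⟩
    have h := hM.closed _ hdM
    rwa [G.al_al e (G.mem_bd.mp he).1] at h

lemma mc_submod (G : CG V D) (M : Finset D) (X Y : Finset V)
    (h : (G.ed (X \ Y) (Y \ X)).card = 0) :
    G.mc M (X ∩ Y) + G.mc M (X ∪ Y) = G.mc M X + G.mc M Y := by
  have h' : (G.ed (Y \ X) (X \ Y)).card = 0 := by rw [G.ed_comm]; exact h
  rw [Finset.card_eq_zero] at h h'
  unfold mc bd
  simp only [Finset.filter_filter, Finset.card_filter, ← Finset.sum_add_distrib]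
  refine Finset.sum_congr rfl fun d hd => ?_
  have e1 : ¬ (G.pi d ∈ X \ Y ∧ G.pi (G.al d) ∈ Y \ X) := by
    intro hh
    have : d ∈ G.ed (X \ Y) (Y \ X) := G.mem_ed.mpr ⟨hd, hh⟩
    rw [h] at this
    exact absurd this (Finset.notMem_empty _)
  have e2 : ¬ (G.pi d ∈ Y \ X ∧ G.pi (G.al d) ∈ X \ Y) := by
    intro hh
    have : d ∈ G.ed (Y \ X) (X \ Y) := G.mem_ed.mpr ⟨hd, hh⟩
    rw [h'] at this
    exact absurd this (Finset.notMem_empty _)
  simp only [Finset.mem_sdiff] at e1 e2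
  by_cases h1 : G.pi d ∈ X <;> by_cases h2 : G.pi d ∈ Y <;>
    by_cases h3 : G.pi (G.al d) ∈ X <;> by_cases h4 : G.pi (G.al d) ∈ Y <;>
    by_cases h5 : d ∈ M <;> simp_all

lemma mc_le {G : CG V D} {M : Finset D} (hM : G.IsPM M) {X : Finset V} (hX : X ⊆ G.vs) :
    G.mc M X ≤ X.card := by
  rw [← hM.card_in hX]
  unfold mc
  apply Finset.card_le_card
  intro d hd
  rw [Finset.mem_filter] at hd ⊢
  exact ⟨hd.2, (G.mem_bd.mp hd.1).2.1⟩

lemma mc_eq_one {G : CG V D} {M : Finset D} (hM : G.IsPM M) {X : Finset V} (hX : X ⊆ G.vs)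
    (ho : Odd X.card) (hlt : X.card < 3) : G.mc M X = 1 := by
  have h1 := mc_le hM hX
  have h2 : Odd (G.mc M X) := (hM.parity hX).2 ho
  obtain ⟨k, hk⟩ := ho
  obtain ⟨j, hj⟩ := h2
  omega

lemma odd_compl {G : CG V D} (he : Even G.vs.card) {X : Finset V} (hX : X ⊆ G.vs) :
    Odd (G.vs \ X).card ↔ Odd X.card := by
  rw [Finset.card_sdiff_of_subset hX]
  have hle := Finset.card_le_card hX
  obtain ⟨k, hk⟩ := he
  constructor
  · rintro ⟨j, hj⟩
    exact ⟨k - j - 1, by omega⟩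
  · rintro ⟨j, hj⟩
    exact ⟨k - j - 1, by omega⟩

/-- the statement for one graph -/
def Thr (G : CG V D) : Prop :=
  ∀ d0 ∈ G.ds, ∃ M, G.IsPM M ∧ d0 ∈ M ∧ ∀ X ⊆ G.vs, Odd X.card → (G.bd X).card = 3 →
      ((G.bd X).filter fun d => d ∈ M).card = 1

/-- the base case: no nontrivial 3-cuts -/
lemma thr_base (G : CG V D) (he : Even G.vs.card) (ht : G.tk G.vs = ∅) (hb : G.B0)
    (hno : ∀ X ⊆ G.vs, Odd X.card → (G.bd X).card = 3 → X.card < 3 ∨ (G.vs \ X).card < 3) :
    G.Thr := by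
  intro d0 hd
  -- cut the two other edges at the vertex of `d0`
  set S : Finset D := (G.ds.filter fun d => G.pi d = G.pi d0).erase d0 with hS
  have hd0 : d0 ∈ G.ds.filter fun d => G.pi d = G.pi d0 := Finset.mem_filter.mpr ⟨hd, rfl⟩
  have hScard : S.card = 2 := by
    rw [hS, Finset.card_erase_of_mem hd0, G.cubic _ (G.pi_mem d0 hd)]
  have hSds : S ⊆ G.ds := (Finset.erase_subset _ _).trans (Finset.filter_subset _ _)
  set A : Finset D := S ∪ S.image G.al with hAdef
  have hAds : A ⊆ G.ds := by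
    apply Finset.union_subset hSds
    intro d hd
    rw [Finset.mem_image] at hd
    obtain ⟨e, he, rfl⟩ := hd
    exact G.al_mem e (hSds he)
  have hA : ∀ d ∈ A, G.al d ∈ A := by
    intro d hd
    rw [hAdef, Finset.mem_union] at hd
    rw [hAdef, Finset.mem_union]
    rcases hd with hd | hd
    · exact Or.inr (Finset.mem_image_of_mem _ hd)
    · rw [Finset.mem_image] at hd
      obtain ⟨e, he, rfl⟩ := hd
      rw [G.al_al e (hSds he)]
      exact Or.inl he
  have hAcard : A.card ≤ 4 := by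
    have h1 := Finset.card_union_le S (S.image G.al)
    have h2 : (S.image G.al).card ≤ S.card := Finset.card_image_le
    rw [← hAdef] at h1
    omega
  have hn : ∀ d ∈ A, G.al d ≠ d := by
    intro d hd hh
    have : d ∈ G.tk G.vs := G.mem_tk.mpr ⟨hAds hd, G.pi_mem d (hAds hd), hh⟩
    rw [ht] at this
    exact absurd this (Finset.notMem_empty _)
  obtain ⟨M, hM⟩ := exists_pm (G.cutS A hA) he (by
    have h1 := cutS_tk_card hA hAds hn
    rw [ht, Finset.card_empty, zero_add] at h1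
    show ((G.cutS A hA).tk G.vs).card ≤ 4
    omega) (cutS_b0 hA hb)
  obtain ⟨hMG, hMA⟩ := (cutS_pm hA).1 hM
  refine ⟨M, hMG, ?_, ?_⟩
  · have h1 := hMG.one (G.pi d0) (G.pi_mem d0 hd)
    obtain ⟨a, ha⟩ := Finset.card_eq_one.1 h1
    have ham : a ∈ M.filter fun d => G.pi d = G.pi d0 := by
      rw [ha]; exact Finset.mem_singleton_self a
    rw [Finset.mem_filter] at ham
    by_contra hcon
    have hne : a ≠ d0 := fun h => hcon (h ▸ ham.1)
    have haS : a ∈ S := by
      rw [hS, Finset.mem_erase, Finset.mem_filter]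
      exact ⟨hne, hMG.sub ham.1, ham.2⟩
    exact hMA a (by rw [hAdef]; exact Finset.mem_union_left _ haS) ham.1
  · intro X hX ho h3
    show G.mc M X = 1
    rcases hno X hX ho h3 with h | h
    · exact mc_eq_one hMG hX ho h
    · rw [← G.mc_compl hMG hX]
      exact mc_eq_one hMG Finset.sdiff_subset ((odd_compl he hX).2 ho) h

/-- gluing along a nontrivial 3-cut, `d0` on the side of `X` -/
lemma thr_glue (G : CG V D) (he : Even G.vs.card) (ht : G.tk G.vs = ∅) (hb : G.B0)
    (ih : ∀ G' : CG V D, G'.vs.card < G.vs.card → Even G'.vs.card → G'.tk G'.vs = ∅ → G'.B0 →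
      G'.Thr)
    {X : Finset V} (hX : X ⊆ G.vs) (ho : Odd X.card) (h3 : (G.bd X).card = 3)
    (hX3 : 3 ≤ X.card) (hY3 : 3 ≤ (G.vs \ X).card) {d0 : D} (hd : d0 ∈ G.ds)
    (hside : G.pi d0 ∈ X ∨ G.pi (G.al d0) ∈ X) :
    ∃ M, G.IsPM M ∧ d0 ∈ M ∧ ∀ Y ⊆ G.vs, Odd Y.card → (G.bd Y).card = 3 →
      ((G.bd Y).filter fun d => d ∈ M).card = 1 := by
  have hcard : X.card + (G.vs \ X).card = G.vs.card := by
    rw [Finset.card_sdiff_of_subset hX]
    have := Finset.card_le_card hX
    omega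
  have hoc : Odd (G.vs \ X).card := (odd_compl he hX).2 ho
  obtain ⟨z, hz⟩ : (G.vs \ X).Nonempty := by rw [← Finset.card_pos]; omega
  obtain ⟨z2, hz2⟩ : X.Nonempty := by rw [← Finset.card_pos]; omega
  rw [Finset.mem_sdiff] at hz
  -- the two contractions
  have c1 : G.CD X z ∅ := ⟨hX, hz.1, hz.2, Finset.empty_subset _, by simpa using h3⟩
  have c2 : G.CD (G.vs \ X) z2 ∅ := ⟨Finset.sdiff_subset, hX hz2,
    fun h => (Finset.mem_sdiff.1 h).2 hz2, Finset.empty_subset _, by
      rw [G.bd_compl hX]; simpa using h3⟩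
  have b1 : c1.con.B0 := c1.b0_eq hb ho (by rw [tk_eq_empty ht])
  have b2 : c2.con.B0 := c2.b0_eq hb hoc (by rw [tk_eq_empty ht])
  have t1 : c1.con.tk c1.con.vs = ∅ := by
    rw [← Finset.card_eq_zero, c1.tk_vs, tk_eq_empty ht]; rfl
  have t2 : c2.con.tk c2.con.vs = ∅ := by
    rw [← Finset.card_eq_zero, c2.tk_vs, tk_eq_empty ht]; rfl
  have v1 := c1.vs_card
  have v2 := c2.vs_card
  have e1 : Even c1.con.vs.card := by rw [v1]; exact ho.add_one
  have e2 : Even c2.con.vs.card := by rw [v2]; exact hoc.add_one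
  have hd1 : d0 ∈ c1.con.ds := c1.mem_con_ds.2 (Or.inl ⟨hd, hside⟩)
  obtain ⟨M1, hM1, hd0M, hc1⟩ := ih c1.con (by omega) e1 t1 b1 d0 hd1
  -- the crossing dart of `M1`
  have hsub1 : ∀ Y ⊆ X, Y ⊆ c1.con.vs := fun Y hY => by
    rw [c1.con_vs]; exact hY.trans (Finset.subset_insert _ _)
  have hsub2 : ∀ Y ⊆ G.vs \ X, Y ⊆ c2.con.vs := fun Y hY => by
    rw [c2.con_vs]; exact hY.trans (Finset.subset_insert _ _)
  have hm1 : ((G.bd X).filter fun d => d ∈ M1).card = 1 := by
    have h := hc1 X (hsub1 X (Finset.Subset.refl _)) ho (by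
      rw [c1.bd_sub (Finset.Subset.refl _)]; exact h3)
    rwa [c1.bd_sub (Finset.Subset.refl _)] at h
  obtain ⟨e, hee⟩ := Finset.card_eq_one.1 hm1
  have hem : e ∈ (G.bd X).filter fun d => d ∈ M1 := by rw [hee]; exact Finset.mem_singleton_self e
  rw [Finset.mem_filter] at hem
  obtain ⟨hebd, heM1⟩ := hem
  have hebd' := G.mem_bd.mp hebd
  have hal : G.pi (G.al e) ∈ G.vs \ X :=
    Finset.mem_sdiff.2 ⟨G.pi_mem _ (G.al_mem e hebd'.1), hebd'.2.2⟩
  have hd2 : e ∈ c2.con.ds := c2.mem_con_ds.2 (Or.inl ⟨hebd'.1, Or.inr hal⟩)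
  obtain ⟨M2, hM2, heM2, hc2⟩ := ih c2.con (by omega) e2 t2 b2 e hd2
  have hm2 : ((G.bd (G.vs \ X)).filter fun d => d ∈ M2).card = 1 := by
    have h := hc2 (G.vs \ X) (hsub2 _ (Finset.Subset.refl _)) hoc (by
      rw [c2.bd_sub (Finset.Subset.refl _), G.bd_compl hX]; exact h3)
    rwa [c2.bd_sub (Finset.Subset.refl _)] at h
  have halM2 : G.al e ∈ M2 := hM2.closed e heM2
  have huniq : ∀ d ∈ G.bd X, d ∈ M2 → d = e := by
    intro d hdb hdM2
    obtain ⟨f, hf⟩ := Finset.card_eq_one.1 hm2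
    have m1 : G.al d ∈ (G.bd (G.vs \ X)).filter fun d => d ∈ M2 := by
      rw [Finset.mem_filter, G.bd_compl_eq hX]
      exact ⟨Finset.mem_image_of_mem _ hdb, hM2.closed d hdM2⟩
    have m2 : G.al e ∈ (G.bd (G.vs \ X)).filter fun d => d ∈ M2 := by
      rw [Finset.mem_filter, G.bd_compl_eq hX]
      exact ⟨Finset.mem_image_of_mem _ hebd, halM2⟩
    rw [hf, Finset.mem_singleton] at m1 m2
    rw [← G.al_al d (G.mem_bd.mp hdb).1, ← G.al_al e hebd'.1, m1, m2]
  have hag : ∀ d ∈ G.bd X, (d ∈ M1 ↔ d ∈ M2) := by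
    intro d hdb
    constructor
    · intro h
      have : d ∈ (G.bd X).filter fun d => d ∈ M1 := Finset.mem_filter.2 ⟨hdb, h⟩
      rw [hee, Finset.mem_singleton] at this
      rw [this]
      exact heM2
    · intro h
      rw [huniq d hdb h]
      exact heM1
  obtain ⟨hM, g1, g2⟩ := glue_pm c1 c2 hM1 hM2 hag
  refine ⟨M1 ∪ M2, hM, Finset.mem_union_left _ hd0M, ?_⟩
  -- matching darts of cuts on one side
  have s1 : ∀ Y ⊆ X, Odd Y.card → (G.bd Y).card = 3 → G.mc (M1 ∪ M2) Y = 1 := by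
    intro Y hY hoY h3Y
    have h := hc1 Y (hsub1 Y hY) hoY (by rw [c1.bd_sub hY]; exact h3Y)
    rw [c1.bd_sub hY] at h
    rw [← h]
    unfold mc
    congr 1
    apply Finset.filter_congr
    intro d hdb
    have h5 := G.mem_bd.mp hdb
    exact g1 d h5.1 (Or.inl (hY h5.2.1))
  have s2 : ∀ Y ⊆ G.vs \ X, Odd Y.card → (G.bd Y).card = 3 → G.mc (M1 ∪ M2) Y = 1 := by
    intro Y hY hoY h3Y
    have h := hc2 Y (hsub2 Y hY) hoY (by rw [c2.bd_sub hY]; exact h3Y)
    rw [c2.bd_sub hY] at h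
    rw [← h]
    unfold mc
    congr 1
    apply Finset.filter_congr
    intro d hdb
    have h5 := G.mem_bd.mp hdb
    exact g2 d h5.1 (Or.inl (Finset.mem_sdiff.1 (hY h5.2.1)).2)
  have hB : ∀ Y ⊆ G.vs, Odd Y.card → 3 ≤ (G.bd Y).card := by
    intro Y hY hoY
    rw [← dg_eq_bd ht]
    exact hb Y hY hoY
  -- uncrossing
  have claim : ∀ Y ⊆ G.vs, Odd Y.card → (G.bd Y).card = 3 → Odd (X ∩ Y).card →
      G.mc (M1 ∪ M2) Y = 1 := by
    intro Y hY hoY h3Y hoI
    have hU : X ∪ Y ⊆ G.vs := Finset.union_subset hX hY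
    have hoU : Odd (X ∪ Y).card := by
      have := Finset.card_union_add_card_inter X Y
      obtain ⟨a, ha⟩ := ho
      obtain ⟨b, hb'⟩ := hoY
      obtain ⟨c, hc⟩ := hoI
      exact ⟨a + b - c, by omega⟩
    have hsm := G.bd_submod X Y
    have hI3 := hB (X ∩ Y) (Finset.inter_subset_left.trans hX) hoI
    have hU3 := hB (X ∪ Y) hU hoU
    have q0 : (G.ed (X \ Y) (Y \ X)).card = 0 := by omega
    have q1 : (G.bd (X ∩ Y)).card = 3 := by omega
    have q2 : (G.bd (X ∪ Y)).card = 3 := by omega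
    have r1 := s1 (X ∩ Y) Finset.inter_subset_left hoI q1
    have r2 : G.mc (M1 ∪ M2) (X ∪ Y) = 1 := by
      rw [← G.mc_compl hM hU]
      apply s2
      · exact Finset.sdiff_subset_sdiff (Finset.Subset.refl _) Finset.subset_union_left
      · exact (odd_compl he hU).2 hoU
      · rw [G.bd_compl hU]; exact q2
    have r3 := s1 X (Finset.Subset.refl _) ho h3
    have := G.mc_submod (M1 ∪ M2) X Y q0
    omega
  intro Y hY hoY h3Y
  show G.mc (M1 ∪ M2) Y = 1
  by_cases hoI : Odd (X ∩ Y).card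
  · exact claim Y hY hoY h3Y hoI
  · rw [← G.mc_compl hM hY]
    apply claim
    · exact Finset.sdiff_subset
    · exact (odd_compl he hY).2 hoY
    · rw [G.bd_compl hY]; exact h3Y
    · have h1 : X ∩ (G.vs \ Y) = X \ (X ∩ Y) := by
        ext v
        simp only [Finset.mem_inter, Finset.mem_sdiff, not_and]
        constructor
        · rintro ⟨a, b, c⟩
          exact ⟨a, fun _ => c⟩
        · rintro ⟨a, b⟩
          exact ⟨a, hX a, b a⟩
      rw [h1, Finset.card_sdiff_of_subset Finset.inter_subset_left]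
      rw [Nat.not_odd_iff_even] at hoI
      have hle : (X ∩ Y).card ≤ X.card := Finset.card_le_card Finset.inter_subset_left
      obtain ⟨a, ha⟩ := ho
      obtain ⟨b, hb'⟩ := hoI
      exact ⟨a - b, by omega⟩

/-- Proof. Induction on `|vs|`. If there is no odd `X` with `|bd X| = 3`, `3 ≤ |X|`, `3 ≤ |vs \ X|`:
cut the two other edges at the vertex of `d0` (`cutS`, 4 tokens), `exists_pm`. Otherwise contract both
sides (`CD` with `T = ∅`; `z ∈ vs \ X`, `z2 ∈ X`), take `M1` for the side containing `d0` (or `al d0`),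
its unique dart `e ∈ bd X`, `M2` for the other side through `e` (or `al e`), glue (`glue_pm`). For an
odd `Y` with `|bd Y| = 3`: uncross with `X` (`bd_submod` if `X ∩ Y` is odd, otherwise the same for the
complement of `Y`): the two new odd sets have boundary 3 and are contained in `X`, or their complement
is contained in `vs \ X`, so they meet `M` in exactly one edge; no edge between the differences; hence
`|M ∩ bd X| + |M ∩ bd Y| = 2`. -/
theorem exists_pm_three (G : CG V D) (he : Even G.vs.card) (ht : G.tk G.vs = ∅) (hb : G.B0)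
    {d0 : D} (hd : d0 ∈ G.ds) :
    ∃ M, G.IsPM M ∧ d0 ∈ M ∧ ∀ X ⊆ G.vs, Odd X.card → (G.bd X).card = 3 →
      ((G.bd X).filter fun d => d ∈ M).card = 1 := by
  have main : ∀ n : ℕ, ∀ G : CG V D, G.vs.card = n → Even G.vs.card → G.tk G.vs = ∅ → G.B0 →
      G.Thr := by
    intro n
    induction n using Nat.strong_induction_on with
    | _ n IH =>
      intro G hn he ht hb
      by_cases hno : ∀ X ⊆ G.vs, Odd X.card → (G.bd X).card = 3 →
          X.card < 3 ∨ (G.vs \ X).card < 3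
      · exact thr_base G he ht hb hno
      · push Not at hno
        obtain ⟨X, hX, ho, h3, hX3, hY3⟩ := hno
        have ih : ∀ G' : CG V D, G'.vs.card < G.vs.card → Even G'.vs.card → G'.tk G'.vs = ∅ →
            G'.B0 → G'.Thr := fun G' hlt he' ht' hb' =>
          IH G'.vs.card (by omega) G' rfl he' ht' hb'
        intro d0 hd
        by_cases hside : G.pi d0 ∈ X ∨ G.pi (G.al d0) ∈ X
        · exact thr_glue G he ht hb ih hX ho h3 hX3 hY3 hd hside
        · push Not at hside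
          have hcc : G.vs \ (G.vs \ X) = X := by
            rw [Finset.sdiff_sdiff_eq_self hX]
          refine thr_glue G he ht hb ih (X := G.vs \ X) Finset.sdiff_subset
            ((odd_compl he hX).2 ho) (by rw [G.bd_compl hX]; exact h3) hY3
            (by rw [hcc]; exact hX3) hd (Or.inl (Finset.mem_sdiff.2 ⟨G.pi_mem d0 hd, hside.1⟩))
  exact main G.vs.card G rfl he ht hb d0 hd

end JK.CG
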