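import Pool.Agent.Lib.JK.ZGlue
import Pool.Agent.Lib.JK.Cyc

/-! Toggling a double edge (Lemma V of the pentagon world, S5, MP_c95763_co) and weights of passed
pentagons. -/

set_option autoImplicit false

namespace JK.CG

open Finset Classical

variable {V D : Type*} {G : CG V D}

private lemma two_bd' {z : D → ℕ} (hs : ∀ d ∈ G.ds, z (G.al d) = z d) (X : Finset V) :
    2 * ∑ d ∈ G.bd X, z d =
      ∑ d ∈ G.ds, if (G.pi d ∈ X ∧ G.pi (G.al d) ∉ X) ∨ (G.pi d ∉ X ∧ G.pi (G.al d) ∈ X)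
        then z d else 0 := by
  have h1 : ∑ d ∈ G.bd X, z d =
      ∑ d ∈ G.ds, if G.pi d ∈ X ∧ G.pi (G.al d) ∉ X then z d else 0 := by
    unfold CG.bd
    rw [sum_filter]
  have h2 : ∑ d ∈ G.bd X, z d =
      ∑ d ∈ G.ds, if G.pi d ∉ X ∧ G.pi (G.al d) ∈ X then z d else 0 := by
    rw [← sum_filter]
    refine sum_bij' (fun d _ => G.al d) (fun d _ => G.al d) ?_ ?_ ?_ ?_ ?_
    · intro d hd
      rw [G.mem_bd] at hd
      rw [mem_filter, G.al_al _ hd.1]
      exact ⟨G.al_mem _ hd.1, hd.2.2, hd.2.1⟩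
    · intro d hd
      rw [mem_filter] at hd
      rw [G.mem_bd, G.al_al _ hd.1]
      exact ⟨G.al_mem _ hd.1, hd.2.2, hd.2.1⟩
    · intro d hd
      rw [G.mem_bd] at hd
      exact G.al_al _ hd.1
    · intro d hd
      rw [mem_filter] at hd
      exact G.al_al _ hd.1
    · intro d hd
      rw [G.mem_bd] at hd
      exact (hs d hd.1).symm
  rw [two_mul]
  nth_rewrite 1 [h1]
  rw [h2, ← sum_add_distrib]
  refine sum_congr rfl fun d _ => ?_
  by_cases a : G.pi d ∈ X <;> by_cases b : G.pi (G.al d) ∈ X <;> simp [a, b]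

/-- the two darts of a nonloop edge -/
private lemma sum_two {z : D → ℕ} (hs : ∀ d ∈ G.ds, z (G.al d) = z d) {d : D} (hd : d ∈ G.ds)
    (hne : G.al d ≠ d) :
    ∑ x ∈ G.ds, (if x = d ∨ x = G.al d then 2 * z x else 0) = 4 * z d := by
  rw [← sum_filter]
  have h1 : G.ds.filter (fun x => x = d ∨ x = G.al d) = {d, G.al d} := by
    ext x
    rw [mem_filter, mem_insert, mem_singleton]
    constructor
    · exact fun h => h.2
    · rintro (h | h)
      · exact ⟨h ▸ hd, Or.inl h⟩
      · exact ⟨h ▸ G.al_mem _ hd, Or.inr h⟩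
  rw [h1, sum_pair hne.symm, hs d hd]
  ring

/-- taking away a set which has an edge to the outside -/
theorem zc_sdiff_slack {z : D → ℕ} (hs : ∀ d ∈ G.ds, z (G.al d) = z d) (t : V → ℕ)
    {T W : Finset V} (hT : T ⊆ W) {d : D} (hd : d ∈ G.ds) (hdT : G.pi d ∈ T)
    (hdW : G.pi (G.al d) ∉ W) : G.zc z t (W \ T) + 2 * z d ≤ G.zc z t W + G.zc z t T := by
  have hne : G.al d ≠ d := by
    intro h
    rw [h] at hdW
    exact hdW (hT hdT)
  have hdT' : G.pi (G.al d) ∉ T := fun h => hdW (hT h)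
  have hb : 2 * ∑ d ∈ G.bd (W \ T), z d + 4 * z d ≤
      2 * ∑ d ∈ G.bd W, z d + 2 * ∑ d ∈ G.bd T, z d := by
    rw [two_bd' hs, two_bd' hs, two_bd' hs, ← sum_two hs hd hne, ← sum_add_distrib,
      ← sum_add_distrib]
    refine sum_le_sum fun x hx => ?_
    by_cases hxd : x = d ∨ x = G.al d
    · rw [if_pos hxd]
      rcases hxd with h | h
      · subst h
        simp [hdT, hdW, hT hdT, hdT']
        omega
      · subst h
        rw [G.al_al _ hd]
        simp [hdT, hdW, hT hdT, hdT']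
        omega
    · rw [if_neg hxd]
      have q1 : G.pi x ∈ T → G.pi x ∈ W := fun h => hT h
      have q2 : G.pi (G.al x) ∈ T → G.pi (G.al x) ∈ W := fun h => hT h
      by_cases a : G.pi x ∈ W <;> by_cases b : G.pi (G.al x) ∈ W <;>
        by_cases a' : G.pi x ∈ T <;> by_cases b' : G.pi (G.al x) ∈ T <;> simp [a, b, a', b']
  have ht : ∑ d ∈ G.tk (W \ T), z d ≤ ∑ d ∈ G.tk W, z d := by
    refine sum_le_sum_of_subset ?_
    intro x hx
    rw [G.mem_tk] at hx ⊢
    exact ⟨hx.1, (mem_sdiff.1 hx.2.1).1, hx.2.2⟩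
  have hv : ∑ v ∈ W \ T, t v ≤ ∑ v ∈ W, t v := sum_le_sum_of_subset sdiff_subset
  unfold zc
  omega

/-- adding a set which has an edge to `W` -/
theorem zc_union_slack {z : D → ℕ} (hs : ∀ d ∈ G.ds, z (G.al d) = z d) (t : V → ℕ)
    {T W : Finset V} (hT : Disjoint T W) {d : D} (hd : d ∈ G.ds) (hdT : G.pi d ∈ T)
    (hdW : G.pi (G.al d) ∈ W) : G.zc z t (W ∪ T) + 2 * z d ≤ G.zc z t W + G.zc z t T := by
  have hdW' : G.pi d ∉ W := fun h => disjoint_left.1 hT hdT h
  have hdT' : G.pi (G.al d) ∉ T := fun h => disjoint_left.1 hT h hdW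
  have hne : G.al d ≠ d := by
    intro h
    rw [h] at hdW
    exact hdW' hdW
  have hb : 2 * ∑ d ∈ G.bd (W ∪ T), z d + 4 * z d ≤
      2 * ∑ d ∈ G.bd W, z d + 2 * ∑ d ∈ G.bd T, z d := by
    rw [two_bd' hs, two_bd' hs, two_bd' hs, ← sum_two hs hd hne, ← sum_add_distrib,
      ← sum_add_distrib]
    refine sum_le_sum fun x hx => ?_
    by_cases hxd : x = d ∨ x = G.al d
    · rw [if_pos hxd]
      rcases hxd with h | h
      · subst h
        simp [hdT, hdW, hdT', hdW']
        omega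
      · subst h
        rw [G.al_al _ hd]
        simp [hdT, hdW, hdT', hdW']
        omega
    · rw [if_neg hxd]
      by_cases a : G.pi x ∈ W <;> by_cases b : G.pi (G.al x) ∈ W <;>
        by_cases a' : G.pi x ∈ T <;> by_cases b' : G.pi (G.al x) ∈ T <;> simp [a, b, a', b']
  have ht : ∑ d ∈ G.tk (W ∪ T), z d = ∑ d ∈ G.tk W, z d + ∑ d ∈ G.tk T, z d := by
    rw [← sum_union]
    · refine sum_congr ?_ fun _ _ => rfl
      ext x
      rw [mem_union, G.mem_tk, G.mem_tk, G.mem_tk, mem_union]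
      tauto
    · rw [disjoint_left]
      intro x h1 h2
      rw [G.mem_tk] at h1 h2
      exact disjoint_left.1 hT h2.2.1 h1.2.1
  have hv : ∑ v ∈ W ∪ T, t v = ∑ v ∈ W, t v + ∑ v ∈ T, t v := sum_union hT.symm
  unfold zc
  omega

/-- the value of a vertex -/
lemma ZW.zc_one_le {z : D → ℕ} {t : V → ℕ} (hw : G.ZW z t) {v : V} (hv : v ∈ G.vs) :
    G.zc z t {v} ≤ 3 := by
  have h1 := hw.sum v hv
  unfold zc
  rw [sum_singleton, ← sum_union]
  · have h2 : ∑ d ∈ G.bd {v} ∪ G.tk {v}, z d ≤ ∑ d ∈ G.ds.filter (fun d => G.pi d = v), z d := by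
      refine sum_le_sum_of_subset ?_
      intro x hx
      rw [mem_union, G.mem_bd, G.mem_tk, mem_singleton, mem_singleton] at hx
      rw [mem_filter]
      rcases hx with h | h
      · exact ⟨h.1, h.2.1⟩
      · exact ⟨h.1, h.2.1⟩
    omega
  · rw [disjoint_left]
    intro x h2 h3
    rw [G.mem_bd] at h2
    rw [G.mem_tk] at h3
    rw [h3.2.2] at h2
    exact h2.2.2 h2.2.1

/-- the two ends of a double edge -/
lemma ZW.zc_pair {z : D → ℕ} {t : V → ℕ} (hw : G.ZW z t) {e : D} (he : e ∈ G.ds)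
    (hne : G.pi (G.al e) ≠ G.pi e) :
    G.zc z t {G.pi e, G.pi (G.al e)} + 2 * z e ≤ 6 := by
  have h1 := hw.zc_one_le (G.pi_mem _ he)
  have h2 := hw.zc_one_le (G.pi_mem _ (G.al_mem _ he))
  have h3 := zc_union_slack hw.sym t (T := {G.pi e}) (W := {G.pi (G.al e)})
    (disjoint_singleton.2 hne.symm) he (mem_singleton_self _) (mem_singleton_self _)
  have h4 : ({G.pi (G.al e)} ∪ {G.pi e} : Finset V) = {G.pi e, G.pi (G.al e)} := by
    ext x
    rw [mem_union, mem_singleton, mem_singleton, mem_insert, mem_singleton, or_comm]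
  rw [h4] at h3
  omega

/-- **toggling a double edge**: the ends of the double edge `e` are both in `W` or both outside, and
a live edge leads from them to the other side -/
theorem ZW.toggle {z : D → ℕ} {t : V → ℕ} (hw : G.ZW z t) {W : Finset V} {e d : D}
    (he : e ∈ G.ds) (hne : G.pi (G.al e) ≠ G.pi e) (h2 : 2 ≤ z e)
    (hd : d ∈ G.ds) (hdT : G.pi d = G.pi e ∨ G.pi d = G.pi (G.al e)) (hz : z d ≠ 0)
    (hdW : G.pi d ∈ W ↔ G.pi (G.al d) ∉ W) (hee : G.pi e ∈ W ↔ G.pi (G.al e) ∈ W)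
    (hW : W ⊆ G.vs) :
    ∃ W' ⊆ G.vs, G.zc z t W' ≤ G.zc z t W ∧ (Odd W.card → Odd W'.card) ∧
      ∀ v, v ∈ W' ↔ (if v = G.pi e ∨ v = G.pi (G.al e) then v ∉ W else v ∈ W) := by
  have hp := hw.zc_pair he hne
  have hcard : ({G.pi e, G.pi (G.al e)} : Finset V).card = 2 := card_pair hne.symm
  have hdT' : G.pi d ∈ ({G.pi e, G.pi (G.al e)} : Finset V) := by
    rw [mem_insert, mem_singleton]
    exact hdT
  have hTv : ({G.pi e, G.pi (G.al e)} : Finset V) ⊆ G.vs := by
    intro x hx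
    rw [mem_insert, mem_singleton] at hx
    rcases hx with h | h
    · exact h ▸ G.pi_mem _ he
    · exact h ▸ G.pi_mem _ (G.al_mem _ he)
  by_cases hin : G.pi e ∈ W
  · have hT : ({G.pi e, G.pi (G.al e)} : Finset V) ⊆ W := by
      intro x hx
      rw [mem_insert, mem_singleton] at hx
      rcases hx with h | h
      · exact h ▸ hin
      · exact h ▸ hee.1 hin
    have h3 := zc_sdiff_slack hw.sym t hT hd hdT' (hdW.1 (hT hdT'))
    have h4 := card_sdiff_add_card_eq_card hT
    refine ⟨W \ {G.pi e, G.pi (G.al e)}, sdiff_subset.trans hW, by omega, ?_, ?_⟩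
    · intro ho
      rw [Nat.odd_iff] at ho ⊢
      omega
    · intro v
      rw [mem_sdiff, mem_insert, mem_singleton]
      by_cases h : v = G.pi e ∨ v = G.pi (G.al e)
      · rw [if_pos h]
        have : v ∈ W := hT (by rw [mem_insert, mem_singleton]; exact h)
        tauto
      · rw [if_neg h]
        tauto
  · have hT : Disjoint ({G.pi e, G.pi (G.al e)} : Finset V) W := by
      rw [disjoint_left]
      intro x hx h1
      rw [mem_insert, mem_singleton] at hx
      rcases hx with h | h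
      · exact hin (h ▸ h1)
      · exact hin (hee.2 (h ▸ h1))
    have h6 : G.pi (G.al d) ∈ W := by
      by_contra h7
      exact disjoint_left.1 hT hdT' (hdW.2 h7)
    have h3 := zc_union_slack hw.sym t hT hd hdT' h6
    have h4 := card_union_of_disjoint hT.symm
    refine ⟨W ∪ {G.pi e, G.pi (G.al e)}, union_subset hW hTv, by omega, ?_, ?_⟩
    · intro ho
      rw [Nat.odd_iff] at ho ⊢
      omega
    · intro v
      rw [mem_union, mem_insert, mem_singleton]
      by_cases h : v = G.pi e ∨ v = G.pi (G.al e)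
      · rw [if_pos h]
        have : v ∉ W := fun h8 => disjoint_left.1 hT (by rw [mem_insert, mem_singleton]; exact h) h8
        tauto
      · rw [if_neg h]
        tauto

end JK.CG
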