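import Pool.Agent.Lib.JK.MC2

/-! The z-form of the trail theorem (S5, MP_c95763_co).

`Wt G z`: `z` is a weight on the darts of `G`, symmetric under `al`, with sum 3 at every vertex.
`Cop G H z q`: `H` is the multigraph with `z d` copies of the edge of `d` (same vertices, same
types). Every weight has such a graph (`Wt.exists_cop`), its degrees are the sums of the weights
(`Cop.dg`), and its perfect matchings project to perfect matchings of `G`.

Drop lemma (`MC2.zkill`): a minimal counterexample has no weight `z` with `z ≥ 3` on the boundaries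
of odd sets, `z ≤ 1` on the fresh edges outside `F`, at most four tokens and a fresh edge of weight 0
at `K`. -/

set_option autoImplicit false

namespace JK.CG

open Finset Classical

variable {V D : Type*}

/-- the weight of the boundary (tokens included) -/
noncomputable def zd (G : CG V D) (z : D → ℕ) (X : Finset V) : ℕ :=
  ∑ d ∈ G.bd X, z d + ∑ d ∈ G.tk X, z d

/-- symmetric weights with sum 3 at every vertex -/
structure Wt (G : CG V D) (z : D → ℕ) : Prop where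
  al : ∀ d ∈ G.ds, z (G.al d) = z d
  sum : ∀ v ∈ G.vs, ∑ d ∈ G.ds.filter (fun d => G.pi d = v), z d = 3

/-- `H` is the graph with `z d` copies of the edge of `d` -/
structure Cop (G H : CG V D) (z : D → ℕ) (q : D → D) : Prop where
  vs : H.vs = G.vs
  mem : ∀ d ∈ H.ds, q d ∈ G.ds
  pi : ∀ d ∈ H.ds, H.pi d = G.pi (q d)
  al : ∀ d ∈ H.ds, q (H.al d) = G.al (q d)
  tok : ∀ d ∈ H.ds, G.al (q d) = q d → H.al d = d
  card : ∀ d ∈ G.ds, (H.ds.filter fun x => q x = d).card = z d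

/-- a bijection between two finite sets of the same size -/
private lemma exists_match {α β : Type*} (a0 : β → α) (b0 : α → β) {P : Finset α} {Q : Finset β}
    (h : P.card = Q.card) :
    ∃ (f : α → β) (g : β → α), (∀ p ∈ P, f p ∈ Q ∧ g (f p) = p) ∧
      ∀ d ∈ Q, g d ∈ P ∧ f (g d) = d := by
  have e : {x // x ∈ P} ≃ {x // x ∈ Q} := Finset.equivOfCardEq h
  refine ⟨fun a => if h : a ∈ P then (e ⟨a, h⟩).1 else b0 a,
    fun b => if h : b ∈ Q then (e.symm ⟨b, h⟩).1 else a0 b, ?_, ?_⟩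
  · intro p hp
    have h1 : (e ⟨p, hp⟩).1 ∈ Q := (e ⟨p, hp⟩).2
    have h2 : (⟨(e ⟨p, hp⟩).1, h1⟩ : {x // x ∈ Q}) = e ⟨p, hp⟩ := rfl
    beta_reduce
    rw [dif_pos hp, dif_pos h1, h2, e.symm_apply_apply]
    exact ⟨h1, rfl⟩
  · intro d hd
    have h1 : (e.symm ⟨d, hd⟩).1 ∈ P := (e.symm ⟨d, hd⟩).2
    have h2 : (⟨(e.symm ⟨d, hd⟩).1, h1⟩ : {x // x ∈ P}) = e.symm ⟨d, hd⟩ := rfl
    beta_reduce
    rw [dif_pos hd, dif_pos h1, h2, e.apply_symm_apply]
    exact ⟨h1, rfl⟩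

/-- the multigraph of a weight -/
theorem Wt.exists_cop {G : CG V D} {z : D → ℕ} (h : G.Wt z) : ∃ H q, Cop G H z q := by
  -- copies of darts at `v`
  let P : V → Finset (Σ _ : D, ℕ) := fun v =>
    (G.ds.filter fun d => G.pi d = v).sigma fun d => range (z d)
  have hP : ∀ v, ∀ p : (Σ _ : D, ℕ), p ∈ P v ↔ (p.1 ∈ G.ds ∧ G.pi p.1 = v) ∧ p.2 < z p.1 := by
    intro v p
    change p ∈ (G.ds.filter fun d => G.pi d = v).sigma (fun d => range (z d)) ↔ _
    rw [mem_sigma, mem_filter, mem_range]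
  have hm : ∀ v, ∃ (f : (Σ _ : D, ℕ) → D) (g : D → (Σ _ : D, ℕ)), v ∈ G.vs →
      (∀ p ∈ P v, f p ∈ (G.ds.filter fun d => G.pi d = v) ∧ g (f p) = p) ∧
      ∀ d ∈ (G.ds.filter fun d => G.pi d = v), g d ∈ P v ∧ f (g d) = d := by
    intro v
    by_cases hv : v ∈ G.vs
    · have hc : (P v).card = (G.ds.filter fun d => G.pi d = v).card := by
        rw [G.cubic v hv]
        change ((G.ds.filter fun d => G.pi d = v).sigma fun d => range (z d)).card = 3
        rw [card_sigma, ← h.sum v hv]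
        exact sum_congr rfl fun d _ => card_range _
      obtain ⟨f, g, hf, hg⟩ := exists_match (fun d => ⟨d, 0⟩) (fun p => p.1) hc
      exact ⟨f, g, fun _ => ⟨hf, hg⟩⟩
    · exact ⟨fun p => p.1, fun d => ⟨d, 0⟩, fun h => absurd h hv⟩
  choose f g hfg using hm
  let E : (Σ _ : D, ℕ) → D := fun p => f (G.pi p.1) p
  let q : D → (Σ _ : D, ℕ) := fun d => g (G.pi d) d
  have hE : ∀ p : (Σ _ : D, ℕ), p.1 ∈ G.ds → p.2 < z p.1 →
      E p ∈ G.ds ∧ G.pi (E p) = G.pi p.1 ∧ q (E p) = p := by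
    intro p h1 h2
    obtain ⟨h3, h4⟩ := (hfg (G.pi p.1) (G.pi_mem _ h1)).1 p ((hP _ _).2 ⟨⟨h1, rfl⟩, h2⟩)
    rw [mem_filter] at h3
    refine ⟨h3.1, h3.2, ?_⟩
    change g (G.pi (f (G.pi p.1) p)) (f (G.pi p.1) p) = p
    rw [h3.2]
    exact h4
  have hq : ∀ d ∈ G.ds, (q d).1 ∈ G.ds ∧ G.pi (q d).1 = G.pi d ∧ (q d).2 < z (q d).1 ∧
      E (q d) = d := by
    intro d hd
    obtain ⟨h3, h4⟩ := (hfg (G.pi d) (G.pi_mem _ hd)).2 d (mem_filter.2 ⟨hd, rfl⟩)
    obtain ⟨⟨h5, h6⟩, h7⟩ := (hP _ _).1 h3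
    refine ⟨h5, h6, h7, ?_⟩
    change f (G.pi (g (G.pi d) d).1) (g (G.pi d) d) = d
    rw [h6]
    exact h4
  let al' : D → D := fun d => E ⟨G.al (q d).1, (q d).2⟩
  have hal : ∀ d ∈ G.ds, al' d ∈ G.ds ∧ G.pi (al' d) = G.pi (G.al (q d).1) ∧
      q (al' d) = ⟨G.al (q d).1, (q d).2⟩ := by
    intro d hd
    obtain ⟨h1, h2, h3, -⟩ := hq d hd
    exact hE ⟨G.al (q d).1, (q d).2⟩ (G.al_mem _ h1) (by
      change (q d).2 < z (G.al (q d).1)
      rw [h.al _ h1]
      exact h3)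
  let H : CG V D :=
    { vs := G.vs
      ds := G.ds
      pi := G.pi
      al := al'
      pi_mem := G.pi_mem
      al_mem := fun d hd => (hal d hd).1
      al_al := by
        intro d hd
        change E ⟨G.al (q (al' d)).1, (q (al' d)).2⟩ = d
        rw [(hal d hd).2.2]
        change E ⟨G.al (G.al (q d).1), (q d).2⟩ = d
        rw [G.al_al _ (hq d hd).1]
        exact (hq d hd).2.2.2
      cubic := G.cubic }
  refine ⟨H, fun d => (q d).1, rfl, fun d hd => (hq d hd).1, fun d hd => (hq d hd).2.1.symm,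
    ?_, ?_, ?_⟩
  · intro d hd
    change (q (al' d)).1 = _
    rw [(hal d hd).2.2]
  · intro d hd ht
    have h1 : G.al (q d).1 = (q d).1 := ht
    change E ⟨G.al (q d).1, (q d).2⟩ = d
    rw [h1]
    exact (hq d hd).2.2.2
  · intro d hd
    rw [← card_range (z d)]
    refine card_bij' (fun x _ => (q x).2) (fun i _ => E ⟨d, i⟩) ?_ ?_ ?_ ?_
    · intro x hx
      obtain ⟨h1, h2⟩ := mem_filter.1 hx
      rw [mem_range, ← h2]
      exact (hq x h1).2.2.1
    · intro i hi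
      obtain ⟨h1, -, h3⟩ := hE ⟨d, i⟩ hd (mem_range.1 hi)
      refine mem_filter.2 ⟨h1, ?_⟩
      rw [h3]
    · intro x hx
      obtain ⟨h1, h2⟩ := mem_filter.1 hx
      have h3 : (⟨d, (q x).2⟩ : (Σ _ : D, ℕ)) = q x := by
        rw [← h2]
      change E ⟨d, (q x).2⟩ = x
      rw [h3]
      exact (hq x h1).2.2.2
    · intro i hi
      obtain ⟨-, -, h3⟩ := hE ⟨d, i⟩ hd (mem_range.1 hi)
      rw [h3]

namespace Cop

variable {G H : CG V D} {z : D → ℕ} {q : D → D}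

lemma tok_iff (h : Cop G H z q) {d : D} (hd : d ∈ H.ds) : H.al d = d ↔ G.al (q d) = q d := by
  constructor
  · intro h1
    rw [← h.al d hd, h1]
  · exact h.tok d hd

lemma pi_al (h : Cop G H z q) {d : D} (hd : d ∈ H.ds) : H.pi (H.al d) = G.pi (G.al (q d)) := by
  rw [h.pi _ (H.al_mem d hd), h.al d hd]

lemma mem_bd (h : Cop G H z q) {X : Finset V} {d : D} :
    d ∈ H.bd X ↔ d ∈ H.ds ∧ q d ∈ G.bd X := by
  rw [H.mem_bd, G.mem_bd]
  constructor
  · rintro ⟨h1, h2, h3⟩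
    rw [h.pi d h1] at h2
    rw [h.pi_al h1] at h3
    exact ⟨h1, h.mem d h1, h2, h3⟩
  · rintro ⟨h1, -, h2, h3⟩
    rw [h.pi d h1, h.pi_al h1]
    exact ⟨h1, h2, h3⟩

lemma mem_tk (h : Cop G H z q) {X : Finset V} {d : D} :
    d ∈ H.tk X ↔ d ∈ H.ds ∧ q d ∈ G.tk X := by
  rw [H.mem_tk, G.mem_tk]
  constructor
  · rintro ⟨h1, h2, h3⟩
    rw [h.pi d h1] at h2
    exact ⟨h1, h.mem d h1, h2, (h.tok_iff h1).1 h3⟩
  · rintro ⟨h1, -, h2, h3⟩
    rw [h.pi d h1]
    exact ⟨h1, h2, (h.tok_iff h1).2 h3⟩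

/-- counting copies -/
lemma card_pre (h : Cop G H z q) {S T : Finset D} (hS : S ⊆ G.ds)
    (hT : ∀ d, d ∈ T ↔ d ∈ H.ds ∧ q d ∈ S) : T.card = ∑ d ∈ S, z d := by
  rw [card_eq_sum_card_fiberwise (s := T) (t := S) (f := q) (fun d hd =>
    ((hT d).1 hd).2)]
  refine sum_congr rfl fun d hd => ?_
  rw [← h.card d (hS hd)]
  congr 1
  ext x
  rw [mem_filter, mem_filter, hT]
  constructor
  · rintro ⟨⟨h1, -⟩, h3⟩
    exact ⟨h1, h3⟩
  · rintro ⟨h1, h3⟩
    exact ⟨⟨h1, by rw [h3]; exact hd⟩, h3⟩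

lemma card_bd (h : Cop G H z q) (X : Finset V) : (H.bd X).card = ∑ d ∈ G.bd X, z d :=
  h.card_pre (fun _ hd => (G.mem_bd.1 hd).1) fun _ => h.mem_bd

lemma card_tk (h : Cop G H z q) (X : Finset V) : (H.tk X).card = ∑ d ∈ G.tk X, z d :=
  h.card_pre (fun _ hd => (G.mem_tk.1 hd).1) fun _ => h.mem_tk

/-- the degree in the new graph is the weight of the boundary -/
lemma dg (h : Cop G H z q) (X : Finset V) : H.dg X = G.zd z X := by
  unfold CG.dg zd
  rw [h.card_bd, h.card_tk]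

/-- perfect matchings project to perfect matchings -/
lemma pm (h : Cop G H z q) {M : Finset D} (hM : H.IsPM M) : G.IsPM (M.image q) := by
  refine ⟨?_, ?_, ?_, ?_⟩
  · intro d hd
    obtain ⟨x, hx, rfl⟩ := mem_image.1 hd
    exact h.mem x (hM.sub hx)
  · intro d hd
    obtain ⟨x, hx, rfl⟩ := mem_image.1 hd
    rw [← h.al x (hM.sub hx)]
    exact mem_image.2 ⟨_, hM.closed x hx, rfl⟩
  · intro d hd
    obtain ⟨x, hx, rfl⟩ := mem_image.1 hd
    exact fun h1 => hM.notok x hx ((h.tok_iff (hM.sub hx)).2 h1)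
  · intro v hv
    obtain ⟨d, hd⟩ := card_eq_one.1 (hM.one v (by rw [h.vs]; exact hv))
    refine card_eq_one.2 ⟨q d, ?_⟩
    ext x
    rw [mem_filter, mem_singleton, mem_image]
    have hd' : d ∈ M ∧ H.pi d = v := by
      have : d ∈ M.filter fun d => H.pi d = v := by rw [hd]; exact mem_singleton_self d
      rwa [mem_filter] at this
    constructor
    · rintro ⟨⟨y, hy, rfl⟩, h2⟩
      have : y ∈ M.filter fun d => H.pi d = v := by
        rw [mem_filter, h.pi y (hM.sub hy)]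
        exact ⟨hy, h2⟩
      rw [hd, mem_singleton] at this
      rw [this]
    · rintro rfl
      exact ⟨⟨d, hd'.1, rfl⟩, by rw [← h.pi d (hM.sub hd'.1)]; exact hd'.2⟩

/-- an edge used by the projection has positive weight -/
lemma pos (h : Cop G H z q) {M : Finset D} (hM : H.IsPM M) {d : D} (hd : d ∈ M.image q) :
    z d ≠ 0 := by
  obtain ⟨x, hx, rfl⟩ := mem_image.1 hd
  rw [← h.card (q x) (h.mem x (hM.sub hx))]
  exact card_ne_zero_of_mem (mem_filter.2 ⟨hM.sub hx, rfl⟩)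

end Cop

/-- parity of the weight of a boundary -/
lemma Wt.parity {G : CG V D} {z : D → ℕ} (h : G.Wt z) {X : Finset V} (hX : X ⊆ G.vs) :
    Odd (G.zd z X) ↔ Odd X.card := by
  obtain ⟨H, q, hc⟩ := h.exists_cop
  rw [← hc.dg]
  exact H.dg_parity (by rw [hc.vs]; exact hX)

/-! ### the drop lemma -/

/-- solutions of the z-form (all conditions except the prescribed zero) -/
structure ZK (G : CG V D) (K : Finset V) (F : Finset D) (z : D → ℕ) : Prop extends G.Wt z where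
  odd : ∀ X ⊆ G.vs, Odd X.card → 3 ≤ G.zd z X
  J : ∀ d ∈ G.ds, d ∉ F → G.pi d ∉ K → z d ≤ 1

/-- the union of all unions of fresh circuits which are left by no edge of weight 0 -/
noncomputable def zU (G : CG V D) (K : Finset V) (F : Finset D) (z : D → ℕ) : Finset V :=
  G.vs.filter fun v => ∃ Z, G.Adm K F Z ∧ (∀ d ∈ G.bd Z, z d ≠ 0) ∧ v ∈ Z

section drop

variable {G : CG V D} {K : Finset V} {F : Finset D} {z : D → ℕ}

lemma mem_zU {v : V} :
    v ∈ G.zU K F z ↔ ∃ Z, G.Adm K F Z ∧ (∀ d ∈ G.bd Z, z d ≠ 0) ∧ v ∈ Z := by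
  unfold zU
  rw [mem_filter]
  exact ⟨fun h => h.2, fun ⟨Z, h1, h2, h3⟩ => ⟨h1.sub h3, Z, h1, h2, h3⟩⟩

lemma zU_adm : G.Adm K F (G.zU K F z) := by
  refine ⟨?_, ?_, ?_⟩
  · intro v hv
    obtain ⟨Z, h1, -, h3⟩ := mem_zU.1 hv
    exact h1.sub h3
  · intro v hv
    obtain ⟨Z, h1, -, h3⟩ := mem_zU.1 hv
    exact h1.dis v h3
  · intro d hd hv
    obtain ⟨Z, h1, h2, h3⟩ := mem_zU.1 hv
    exact mem_zU.2 ⟨Z, h1, h2, h1.clo d hd h3⟩

lemma zU_ne {d : D} (hd : d ∈ G.bd (G.zU K F z)) : z d ≠ 0 := by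
  rw [G.mem_bd] at hd
  obtain ⟨h0, h1, h2⟩ := hd
  obtain ⟨Z, h3, h4, h5⟩ := mem_zU.1 h1
  refine h4 d ?_
  rw [G.mem_bd]
  exact ⟨h0, h5, fun h => h2 (mem_zU.2 ⟨Z, h3, h4, h⟩)⟩

/-- the weight after the release of everything which is not joined to `K` -/
noncomputable def zst (G : CG V D) (K : Finset V) (F : Finset D) (z : D → ℕ) (d : D) : ℕ :=
  if G.pi d ∈ G.zU K F z ∧ G.pi (G.al d) ∈ G.zU K F z then 1 else z d

lemma zst_in {d : D} (h1 : G.pi d ∈ G.zU K F z) (h2 : G.pi (G.al d) ∈ G.zU K F z) :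
    G.zst K F z d = 1 := if_pos ⟨h1, h2⟩

lemma zst_out {d : D} (h : ¬ (G.pi d ∈ G.zU K F z ∧ G.pi (G.al d) ∈ G.zU K F z)) :
    G.zst K F z d = z d := if_neg h

/-- all darts at the released vertices have weight 1 -/
lemma ZK.at_U (hz : G.ZK K F z) {d : D} (hd : d ∈ G.ds) (hU : G.pi d ∈ G.zU K F z) :
    G.zst K F z d = 1 := by
  by_cases h2 : G.pi (G.al d) ∈ G.zU K F z
  · exact zst_in hU h2
  · rw [zst_out fun h => h2 h.2]
    have h3 : d ∈ G.bd (G.zU K F z) := by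
      rw [G.mem_bd]
      exact ⟨hd, hU, h2⟩
    have h4 : d ∉ F := fun h => h2 (zU_adm.clo d h hU)
    have h5 := hz.J d hd h4 (zU_adm.dis _ hU)
    have h6 := zU_ne h3
    omega

lemma ZK.wt_st (hz : G.ZK K F z) : G.Wt (G.zst K F z) := by
  refine ⟨?_, ?_⟩
  · intro d hd
    by_cases h : G.pi d ∈ G.zU K F z ∧ G.pi (G.al d) ∈ G.zU K F z
    · rw [zst_in h.1 h.2, zst_in h.2 (by rw [G.al_al d hd]; exact h.1)]
    · rw [zst_out h, zst_out (fun h' => h ⟨by rw [G.al_al d hd] at h'; exact h'.2, h'.1⟩),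
        hz.al d hd]
  · intro v hv
    by_cases hU : v ∈ G.zU K F z
    · rw [← G.cubic v hv, card_eq_sum_ones]
      refine sum_congr rfl fun d hd => ?_
      rw [mem_filter] at hd
      exact hz.at_U hd.1 (by rw [hd.2]; exact hU)
    · rw [← hz.sum v hv]
      refine sum_congr rfl fun d hd => ?_
      rw [mem_filter] at hd
      exact zst_out fun h => hU (by rw [← hd.2]; exact h.1)

/-- odd sets keep weight at least 3 -/
lemma ZK.odd_st (hz : G.ZK K F z) (hc : G.Cls K F) {X : Finset V} (hX : X ⊆ G.vs)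
    (ho : Odd X.card) : 3 ≤ G.zd (G.zst K F z) X := by
  by_contra hcon
  have hp := (hz.wt_st.parity hX).2 ho
  have h1 : G.zd (G.zst K F z) X = 1 := by
    obtain ⟨k, hk⟩ := hp
    omega
  have hz3 := hz.odd X hX ho
  -- the tokens are not changed
  have htk : ∑ d ∈ G.tk X, G.zst K F z d = ∑ d ∈ G.tk X, z d := by
    refine sum_congr rfl fun d hd => zst_out fun h => ?_
    rw [G.mem_tk] at hd
    exact zU_adm.dis _ h.1 (hc.tokK d hd.1 hd.2.2)
  -- the boundary darts inside `U`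
  set B := (G.bd X).filter fun d => G.pi d ∈ G.zU K F z ∧ G.pi (G.al d) ∈ G.zU K F z with hB
  have hsplit : ∀ f : D → ℕ, ∑ d ∈ G.bd X, f d = ∑ d ∈ B, f d + ∑ d ∈ G.bd X \ B, f d := by
    intro f
    rw [add_comm, sum_sdiff (filter_subset _ _)]
  have hB1 : ∑ d ∈ B, G.zst K F z d = B.card := by
    rw [card_eq_sum_ones]
    refine sum_congr rfl fun d hd => ?_
    rw [hB, mem_filter] at hd
    exact zst_in hd.2.1 hd.2.2
  have hB2 : ∑ d ∈ G.bd X \ B, G.zst K F z d = ∑ d ∈ G.bd X \ B, z d := by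
    refine sum_congr rfl fun d hd => zst_out fun h => ?_
    rw [mem_sdiff, hB, mem_filter] at hd
    exact hd.2 ⟨hd.1, h⟩
  unfold zd at h1 hz3
  rw [htk, hsplit, hB1, hB2] at h1
  rw [hsplit] at hz3
  -- the number of `F`-darts in `B` is even
  have hF : Even (B.filter fun d => d ∈ F).card := by
    -- the `F`-darts at `X ∩ U`
    have e1 : (F.filter fun d => G.pi d ∈ X ∩ G.zU K F z).card = 2 * (X ∩ G.zU K F z).card := by
      rw [card_eq_sum_card_fiberwise (s := F.filter fun d => G.pi d ∈ X ∩ G.zU K F z)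
        (t := X ∩ G.zU K F z) (f := G.pi)
        (fun d hd => mem_coe.2 (mem_filter.1 (mem_coe.1 hd)).2), mul_comm, ← smul_eq_mul,
        ← sum_const]
      refine sum_congr rfl fun v hv => ?_
      have hv' := hv
      rw [mem_inter] at hv
      rw [← hc.F2 v (hX hv.1) (zU_adm.dis v hv.2)]
      congr 1
      ext d
      rw [mem_filter, mem_filter, mem_filter]
      constructor
      · rintro ⟨⟨h2, -⟩, h3⟩
        exact ⟨h2, h3⟩
      · rintro ⟨h2, h3⟩
        exact ⟨⟨h2, by rw [h3]; exact hv'⟩, h3⟩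
    have e2 : (F.filter fun d => G.pi d ∈ X ∩ G.zU K F z) =
        (F.filter fun d => G.pi d ∈ X ∩ G.zU K F z ∧ G.pi (G.al d) ∈ X) ∪
          (B.filter fun d => d ∈ F) := by
      ext d
      rw [mem_union, mem_filter, mem_filter, mem_filter, hB, mem_filter, G.mem_bd, mem_inter]
      constructor
      · rintro ⟨h2, h3, h4⟩
        by_cases h5 : G.pi (G.al d) ∈ X
        · exact Or.inl ⟨h2, ⟨h3, h4⟩, h5⟩
        · exact Or.inr ⟨⟨⟨hc.Fsub h2, h3, h5⟩, h4, zU_adm.clo d h2 h4⟩, h2⟩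
      · rintro (⟨h2, h3, -⟩ | ⟨⟨⟨-, h3, -⟩, h4, -⟩, h2⟩)
        · exact ⟨h2, h3⟩
        · exact ⟨h2, h3, h4⟩
    have e3 : Disjoint (F.filter fun d => G.pi d ∈ X ∩ G.zU K F z ∧ G.pi (G.al d) ∈ X)
        (B.filter fun d => d ∈ F) := by
      rw [disjoint_left]
      intro d hd hd'
      rw [mem_filter] at hd
      rw [mem_filter, hB, mem_filter, G.mem_bd] at hd'
      exact hd'.1.1.2.2 hd.2.2
    have e4 : Even (F.filter fun d => G.pi d ∈ X ∩ G.zU K F z ∧ G.pi (G.al d) ∈ X).card := by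
      apply G.even_of_closed ((filter_subset _ _).trans hc.Fsub)
      · intro d hd
        rw [mem_filter, mem_inter] at hd ⊢
        obtain ⟨h2, ⟨h3, h4⟩, h5⟩ := hd
        exact ⟨hc.Fal d h2, ⟨h5, zU_adm.clo d h2 h4⟩, by rw [G.al_al d (hc.Fsub h2)]; exact h3⟩
      · intro d hd
        exact hc.Ftok d (mem_filter.1 hd).1
    have e5 := card_union_of_disjoint e3
    rw [← e2, e1] at e5
    rw [Nat.even_iff] at e4 ⊢
    omega
  -- all edges of `B` are in `F` or `B` has one element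
  have hBz : ∑ d ∈ B.filter (fun d => d ∉ F), z d ≤ (B.filter fun d => d ∉ F).card := by
    rw [card_eq_sum_ones]
    refine sum_le_sum fun d hd => ?_
    rw [mem_filter, hB, mem_filter, G.mem_bd] at hd
    exact hz.J d hd.1.1.1 hd.2 (zU_adm.dis _ hd.1.2.1)
  have hBc := card_filter_add_card_filter_not (s := B) (fun d => d ∈ F)
  have hBs := sum_filter_add_sum_filter_not B (fun d => d ∈ F) z
  have hB0 : (B.filter fun d => d ∈ F).card = 0 := by
    obtain ⟨k, hk⟩ := hF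
    omega
  rw [card_eq_zero] at hB0
  rw [hB0] at hBc hBs
  rw [sum_empty] at hBs
  rw [card_empty] at hBc
  omega

/-- the drop lemma: a solution of the z-form with a fresh edge of weight 0 at `K` gives a good
matching (in an instance for which the smaller absorption problems are solved) -/
theorem ZK.good (hz : G.ZK K F z) (hI : G.Inst K F) (hf : G.Full K F)
    (ih : ∀ (G' : CG V D) (K' : Finset V) (F' : Finset D), G'.vs.card = G.vs.card →
      G'.Inst K' F' → mu G' K' F' < mu G K F → ∃ M, G'.Good K' F' M)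
    (ht : ∑ d ∈ G.tk G.vs, z d ≤ 4) {d0 : D} (hd0 : d0 ∈ G.ds) (hK0 : G.pi d0 ∈ K)
    (hf0 : G.pi (G.al d0) ∉ K) (h0 : z d0 = 0) : ∃ M, G.Good K F M := by
  have hc := hI.cls
  obtain ⟨H, q, hq⟩ := hz.wt_st.exists_cop
  set U := G.zU K F z with hU
  have hUa : G.Adm K F U := zU_adm
  set K' := G.vs \ U with hK'
  set F' := H.ds.filter fun d => q d ∈ F ∧ G.pi (q d) ∈ U with hF'
  -- darts at `U` have exactly one copy
  have hone : ∀ d ∈ G.ds, G.pi d ∈ U → (H.ds.filter fun x => q x = d).card = 1 := by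
    intro d hd hdU
    rw [hq.card d hd]
    exact hz.at_U hd hdU
  have hadm : ∀ Z, H.Adm K' F' Z → G.Adm K F Z ∧ Z ⊆ U := by
    intro Z hZ
    have hZU : Z ⊆ U := by
      intro v hv
      by_contra hvU
      exact hZ.dis v hv (mem_sdiff.2 ⟨by rw [← hq.vs]; exact hZ.sub hv, hvU⟩)
    refine ⟨⟨by rw [← hq.vs]; exact hZ.sub, fun v hv => hUa.dis v (hZU hv), ?_⟩, hZU⟩
    intro d hd hdZ
    obtain ⟨x, hx⟩ := card_pos.1 (show 0 < (H.ds.filter fun x => q x = d).card by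
      rw [hone d (hc.Fsub hd) (hZU hdZ)]; exact Nat.one_pos)
    rw [mem_filter] at hx
    have h1 := hZ.clo x (by
      rw [hF', mem_filter, hx.2]
      exact ⟨hx.1, hd, hZU hdZ⟩) (by rw [hq.pi x hx.1, hx.2]; exact hdZ)
    rw [hq.pi_al hx.1, hx.2] at h1
    exact h1
  have hadm' : ∀ Z, G.Adm K F Z → Z ⊆ U → H.Adm K' F' Z := by
    intro Z hZ hZU
    refine ⟨by rw [hq.vs]; exact hZ.sub, fun v hv h => (mem_sdiff.1 h).2 (hZU hv), ?_⟩
    intro d hd hdZ
    rw [hF', mem_filter] at hd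
    rw [hq.pi d hd.1] at hdZ
    rw [hq.pi_al hd.1]
    exact hZ.clo _ hd.2.1 hdZ
  have hbd : ∀ Z ⊆ U, (H.bd Z).card = (G.bd Z).card := by
    intro Z hZU
    rw [hq.card_bd, card_eq_sum_ones]
    refine sum_congr rfl fun d hd => ?_
    rw [G.mem_bd] at hd
    exact hz.at_U hd.1 (hZU hd.2.1)
  have hcls : H.Cls K' F' := by
    refine ⟨by rw [hq.vs]; exact sdiff_subset, filter_subset _ _, ?_, ?_, ?_, ?_⟩
    · intro d hd
      rw [hF', mem_filter] at hd ⊢
      rw [hq.al d hd.1]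
      exact ⟨H.al_mem d hd.1, hc.Fal _ hd.2.1, hUa.clo _ hd.2.1 hd.2.2⟩
    · intro d hd h1
      rw [hF', mem_filter] at hd
      exact hc.Ftok _ hd.2.1 ((hq.tok_iff hd.1).1 h1)
    · intro v hv hvK
      rw [hq.vs] at hv
      have hvU : v ∈ U := by
        by_contra h
        exact hvK (mem_sdiff.2 ⟨hv, h⟩)
      rw [hq.card_pre (S := F.filter fun d => G.pi d = v)
        ((filter_subset _ _).trans hc.Fsub) (T := F'.filter fun d => H.pi d = v) ?_]
      · rw [← hc.F2 v hv (hUa.dis v hvU), card_eq_sum_ones]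
        refine sum_congr rfl fun d hd => ?_
        rw [mem_filter] at hd
        exact hz.at_U (hc.Fsub hd.1) (by rw [hd.2]; exact hvU)
      · intro d
        rw [mem_filter, hF', mem_filter, mem_filter]
        constructor
        · rintro ⟨⟨h1, h2, -⟩, h4⟩
          rw [hq.pi d h1] at h4
          exact ⟨h1, h2, h4⟩
        · rintro ⟨h1, h2, h4⟩
          rw [hq.pi d h1]
          exact ⟨⟨h1, h2, by rw [h4]; exact hvU⟩, h4⟩
    · intro d hd h1
      rw [hq.pi d hd]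
      refine mem_sdiff.2 ⟨G.pi_mem _ (hq.mem d hd), fun h => ?_⟩
      exact hUa.dis _ h (hc.tokK _ (hq.mem d hd) ((hq.tok_iff hd).1 h1))
  have hInst : H.Inst K' F' := by
    refine ⟨by rw [hq.vs]; exact hI.even, ?_, ?_, hcls, ?_⟩
    · rw [hq.card_tk, hq.vs]
      refine le_trans (le_of_eq (sum_congr rfl fun d hd => zst_out fun h => ?_)) ht
      rw [G.mem_tk] at hd
      exact hUa.dis _ h.1 (hc.tokK d hd.1 hd.2.2)
    · intro X hX ho
      rw [hq.dg]
      exact hz.odd_st hc (by rw [← hq.vs]; exact hX) ho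
    · intro Z hZ ho
      obtain ⟨h1, h2⟩ := hadm Z hZ
      rw [hbd Z h2]
      exact hI.cc Z h1 ho
  have hmu : mu H K' F' < mu G K F := by
    have h1 : (H.vs.filter fun v => ¬ H.Abs K' F' v) ⊆ U := by
      intro v hv
      rw [mem_filter] at hv
      have h2 := hv.2
      unfold Abs at h2
      push Not at h2
      obtain ⟨Z, hZ, hvZ⟩ := h2
      exact (hadm Z hZ).2 hvZ
    have hv0 : G.pi (G.al d0) ∈ G.vs := G.pi_mem _ (G.al_mem _ hd0)
    have h2 : U ⊂ (G.vs.filter fun v => ¬ G.Abs K F v) := by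
      rw [ssubset_iff_of_subset]
      · refine ⟨G.pi (G.al d0), ?_, ?_⟩
        · rw [mem_filter]
          exact ⟨hv0, fun h => hf0 (hf.abs _ hv0 h)⟩
        · intro h
          have h3 : G.al d0 ∈ G.bd U := by
            rw [G.mem_bd, G.al_al _ hd0]
            exact ⟨G.al_mem _ hd0, h, fun h4 => hUa.dis _ h4 hK0⟩
          have h4 := zU_ne h3
          rw [hz.al d0 hd0] at h4
          exact h4 h0
      · intro v hv
        rw [mem_filter]
        exact ⟨hUa.sub hv, fun h => h U hUa hv⟩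
    unfold mu
    exact lt_of_le_of_lt (card_le_card h1) (card_lt_card h2)
  obtain ⟨M, hM⟩ := ih H K' F' (by rw [hq.vs]) hInst hmu
  refine ⟨M.image q, hq.pm hM.pm, ?_⟩
  intro Z hZ ho
  by_cases hZU : Z ⊆ U
  · obtain ⟨x, hx, hxM⟩ := hM.hit Z (hadm' Z hZ hZU) ho
    rw [hq.mem_bd] at hx
    refine ⟨q x, hx.2, fun h => hxM ?_⟩
    obtain ⟨y, hy, hyx⟩ := mem_image.1 h
    have h1 := hx.2
    rw [G.mem_bd] at h1
    have h2 := card_le_one.1 (hone (q x) h1.1 (hZU h1.2.1)).le x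
      (mem_filter.2 ⟨hx.1, rfl⟩) y (mem_filter.2 ⟨hM.pm.sub hy, hyx⟩)
    rw [h2]
    exact hy
  · -- a dart of weight 0 leaves `Z \ U`
    have hZ' : G.Adm K F (Z \ U) := by
      refine ⟨sdiff_subset.trans hZ.sub, fun v hv => hZ.dis v (mem_sdiff.1 hv).1, ?_⟩
      intro d hd hdZ
      rw [mem_sdiff] at hdZ ⊢
      refine ⟨hZ.clo d hd hdZ.1, fun h => hdZ.2 ?_⟩
      have h1 := hUa.clo _ (hc.Fal d hd) h
      rwa [G.al_al _ (hc.Fsub hd)] at h1
    have hex : ∃ d ∈ G.bd (Z \ U), z d = 0 := by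
      by_contra hcon
      push Not at hcon
      apply hZU
      intro v hv
      by_contra hvU
      exact hvU (mem_zU.2 ⟨Z \ U, hZ', hcon, mem_sdiff.2 ⟨hv, hvU⟩⟩)
    obtain ⟨d, hd, hd0'⟩ := hex
    rw [G.mem_bd, mem_sdiff, mem_sdiff] at hd
    obtain ⟨h1, ⟨h2, h3⟩, h4⟩ := hd
    have h5 : G.pi (G.al d) ∉ U := by
      intro h
      have h6 : G.al d ∈ G.bd U := by
        rw [G.mem_bd, G.al_al _ h1]
        exact ⟨G.al_mem _ h1, h, h3⟩
      have h7 := zU_ne h6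
      rw [hz.al d h1] at h7
      exact h7 hd0'
    refine ⟨d, ?_, fun h => ?_⟩
    · rw [G.mem_bd]
      exact ⟨h1, h2, fun h => h4 ⟨h, h5⟩⟩
    · refine hq.pos hM.pm h ?_
      rw [zst_out fun h8 => h3 h8.1]
      exact hd0'

/-- no minimal counterexample has a solution of the z-form -/
theorem MC2.no_z (h : MC2 G K F) (hf : G.Full K F) (hz : G.ZK K F z)
    (ht : ∑ d ∈ G.tk G.vs, z d ≤ 4) {d0 : D} (hd0 : d0 ∈ G.ds) (hK0 : G.pi d0 ∈ K)
    (hf0 : G.pi (G.al d0) ∉ K) (h0 : z d0 = 0) : False :=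
  h.no (hz.good h.inst hf (fun G' K' F' => h.ih2 G' K' F') ht hd0 hK0 hf0 h0)

end drop

end JK.CG

namespace JK

open Finset Classical

/-- the trail theorem in the z-form -/
def ZThm : Prop := ∀ (V D : Type) (G : CG V D) (K : Finset V) (F : Finset D),
  CG.MC2 G K F → G.Full K F → ∃ z, G.ZK K F z ∧ ∑ d ∈ G.tk G.vs, z d ≤ 4 ∧
    ∃ d0 ∈ G.ds, G.pi d0 ∈ K ∧ G.pi (G.al d0) ∉ K ∧ z d0 = 0

theorem ZThm.noMC (h : ZThm) (V D : Type) (G : CG V D) (K : Finset V) (F : Finset D) :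
    ¬ CG.MC2 G K F := by
  intro hm
  obtain ⟨K', F', hm', hf⟩ := hm.exists_full
  obtain ⟨z, hz, ht, d0, h1, h2, h3, h4⟩ := h V D G K' F' hm' hf
  exact hm'.no_z hf hz ht h1 h2 h3 h4

theorem ZThm.main (h : ZThm) (V D : Type) (G : CG V D) (K : Finset V) (F : Finset D)
    (hI : G.Inst K F) : ∃ M, G.Good K F M :=
  CG.main_of2 (h.noMC V D) G K F hI

end JK
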