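import Pool.Agent.Lib.JK.ZW

/-! Gluing of weights, the mod 3 law (S5, MP_c95763_co). -/

set_option autoImplicit false

namespace JK.CG

open Finset Classical

variable {V D : Type*} {G : CG V D}

/-- twice the weight of a boundary, counted over all darts -/
private lemma two_bd {z : D → ℕ} (hs : ∀ d ∈ G.ds, z (G.al d) = z d) (X : Finset V) :
    2 * ∑ d ∈ G.bd X, z d =
      ∑ d ∈ G.ds, if (G.pi d ∈ X ∧ G.pi (G.al d) ∉ X) ∨ (G.pi d ∉ X ∧ G.pi (G.al d) ∈ X)
        then z d else 0 := by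
  have h1 : ∑ d ∈ G.bd X, z d =
      ∑ d ∈ G.ds, if G.pi d ∈ X ∧ G.pi (G.al d) ∉ X then z d else 0 := by
    unfold CG.bd
    rw [sum_filter]
  have h2 : ∑ d ∈ G.bd X, z d =
      ∑ d ∈ G.ds, if G.pi d ∉ X ∧ G.pi (G.al d) ∈ X then z d else 0 := by
    rw [h1, ← G.sum_al fun d => if G.pi d ∈ X ∧ G.pi (G.al d) ∉ X then z d else 0]
    refine sum_congr rfl fun d hd => ?_
    rw [G.al_al d hd, hs d hd]
    by_cases a : G.pi d ∈ X <;> by_cases b : G.pi (G.al d) ∈ X <;> simp [a, b]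
  calc 2 * ∑ d ∈ G.bd X, z d = ∑ d ∈ G.bd X, z d + ∑ d ∈ G.bd X, z d := two_mul _
    _ = (∑ d ∈ G.ds, if G.pi d ∈ X ∧ G.pi (G.al d) ∉ X then z d else 0) +
        ∑ d ∈ G.ds, if G.pi d ∉ X ∧ G.pi (G.al d) ∈ X then z d else 0 := by
        rw [← h1, ← h2]
    _ = _ := by
        rw [← sum_add_distrib]
        refine sum_congr rfl fun d _ => ?_
        by_cases a : G.pi d ∈ X <;> by_cases b : G.pi (G.al d) ∈ X <;> simp [a, b]

/-- submodularity -/
theorem zc_inter_union {z : D → ℕ} (hs : ∀ d ∈ G.ds, z (G.al d) = z d) (t : V → ℕ)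
    (X Y : Finset V) : G.zc z t (X ∩ Y) + G.zc z t (X ∪ Y) ≤ G.zc z t X + G.zc z t Y := by
  have hb : 2 * ∑ d ∈ G.bd (X ∩ Y), z d + 2 * ∑ d ∈ G.bd (X ∪ Y), z d ≤
      2 * ∑ d ∈ G.bd X, z d + 2 * ∑ d ∈ G.bd Y, z d := by
    rw [two_bd hs, two_bd hs, two_bd hs, two_bd hs, ← sum_add_distrib, ← sum_add_distrib]
    refine sum_le_sum fun d _ => ?_
    by_cases a : G.pi d ∈ X <;> by_cases b : G.pi (G.al d) ∈ X <;>
      by_cases a' : G.pi d ∈ Y <;> by_cases b' : G.pi (G.al d) ∈ Y <;> simp [a, b, a', b']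
  have ht : ∑ d ∈ G.tk (X ∩ Y), z d + ∑ d ∈ G.tk (X ∪ Y), z d =
      ∑ d ∈ G.tk X, z d + ∑ d ∈ G.tk Y, z d := by
    unfold CG.tk
    rw [sum_filter, sum_filter, sum_filter, sum_filter, ← sum_add_distrib, ← sum_add_distrib]
    refine sum_congr rfl fun d _ => ?_
    by_cases a : G.pi d ∈ X <;> by_cases a' : G.pi d ∈ Y <;> by_cases c : G.al d = d <;>
      simp [a, a', c]
  have hv : ∑ v ∈ X ∪ Y, t v + ∑ v ∈ X ∩ Y, t v = ∑ v ∈ X, t v + ∑ v ∈ Y, t v :=
    sum_union_inter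
  unfold zc
  omega

/-- posimodularity -/
theorem zc_diff {z : D → ℕ} (hs : ∀ d ∈ G.ds, z (G.al d) = z d) (t : V → ℕ)
    (X Y : Finset V) : G.zc z t (X \ Y) + G.zc z t (Y \ X) ≤ G.zc z t X + G.zc z t Y := by
  have hb : 2 * ∑ d ∈ G.bd (X \ Y), z d + 2 * ∑ d ∈ G.bd (Y \ X), z d ≤
      2 * ∑ d ∈ G.bd X, z d + 2 * ∑ d ∈ G.bd Y, z d := by
    rw [two_bd hs, two_bd hs, two_bd hs, two_bd hs, ← sum_add_distrib, ← sum_add_distrib]
    refine sum_le_sum fun d _ => ?_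
    by_cases a : G.pi d ∈ X <;> by_cases b : G.pi (G.al d) ∈ X <;>
      by_cases a' : G.pi d ∈ Y <;> by_cases b' : G.pi (G.al d) ∈ Y <;> simp [a, b, a', b']
  have ht : ∑ d ∈ G.tk (X \ Y), z d + ∑ d ∈ G.tk (Y \ X), z d ≤
      ∑ d ∈ G.tk X, z d + ∑ d ∈ G.tk Y, z d := by
    unfold CG.tk
    rw [sum_filter, sum_filter, sum_filter, sum_filter, ← sum_add_distrib, ← sum_add_distrib]
    refine sum_le_sum fun d _ => ?_
    by_cases a : G.pi d ∈ X <;> by_cases a' : G.pi d ∈ Y <;> by_cases c : G.al d = d <;>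
      simp [a, a', c]
  have hv1 : ∑ v ∈ X \ Y, t v ≤ ∑ v ∈ X, t v :=
    sum_le_sum_of_subset_of_nonneg sdiff_subset fun _ _ _ => Nat.zero_le _
  have hv2 : ∑ v ∈ Y \ X, t v ≤ ∑ v ∈ Y, t v :=
    sum_le_sum_of_subset_of_nonneg sdiff_subset fun _ _ _ => Nat.zero_le _
  unfold zc
  omega

/-- **gluing over a tight set** -/
theorem ZW.glue3 {z : D → ℕ} {t : V → ℕ} (hw : G.ZW z t) {X : Finset V} (hX : X ⊆ G.vs)
    (ho : Odd X.card) (h3 : G.zc z t X = 3)
    (hin : ∀ W ⊆ X, Odd W.card → 3 ≤ G.zc z t W)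
    (hout : ∀ W ⊆ G.vs, Odd W.card → (X ⊆ W ∨ Disjoint X W) → 3 ≤ G.zc z t W) : G.ZB z t := by
  intro W hW hWo
  have c1 : (X \ W).card + (X ∩ W).card = X.card := card_sdiff_add_card_inter X W
  have c2 : (W \ X).card + (W ∩ X).card = W.card := card_sdiff_add_card_inter W X
  have c3 : (X ∪ W).card + (X ∩ W).card = X.card + W.card := card_union_add_card_inter X W
  rw [inter_comm W X] at c2
  rcases Nat.even_or_odd (X ∩ W).card with he | hodd
  · have o1 : Odd (X \ W).card := by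
      rw [← c1] at ho
      exact (Nat.odd_add.1 ho).2 he
    have o2 : Odd (W \ X).card := by
      rw [← c2] at hWo
      exact (Nat.odd_add.1 hWo).2 he
    have h1 := hin (X \ W) sdiff_subset o1
    have h2 := hout (W \ X) (sdiff_subset.trans hW) o2 (Or.inr disjoint_sdiff)
    have h4 := zc_diff hw.sym t X W
    omega
  · have o2 : Odd (X ∪ W).card := by
      have : Even ((X ∪ W).card + (X ∩ W).card) := by
        rw [c3]
        exact ho.add_odd hWo
      exact (Nat.even_add'.1 this).2 hodd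
    have h1 := hin (X ∩ W) inter_subset_left hodd
    have h2 := hout (X ∪ W) (union_subset hX hW) o2 (Or.inl subset_union_left)
    have h4 := zc_inter_union hw.sym t X W
    omega

/-- the darts at `P`, split in boundary of `W`, tokens, and inner darts -/
private lemma split_at {z : D → ℕ} {t : V → ℕ} (hw : G.ZW z t) {W P : Finset V}
    (hW : W ⊆ G.vs) (hP : P ⊆ W) :
    3 * P.card = (∑ d ∈ (G.bd W).filter (fun d => G.pi d ∈ P), z d +
      ∑ d ∈ (G.tk W).filter (fun d => G.pi d ∈ P), z d + ∑ v ∈ P, t v) +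
      ∑ d ∈ G.ds.filter (fun d => G.pi d ∈ P ∧ G.pi (G.al d) ∈ W ∧ G.al d ≠ d), z d := by
  have h1 : 3 * P.card = ∑ v ∈ P, ((∑ d ∈ G.ds.filter fun d => G.pi d = v, z d) + t v) := by
    rw [sum_congr rfl fun v hv => hw.sum v (hW (hP hv)), sum_const, smul_eq_mul, mul_comm]
  have h2 : ∑ v ∈ P, ∑ d ∈ G.ds.filter (fun d => G.pi d = v), z d =
      ∑ d ∈ G.ds, if G.pi d ∈ P then z d else 0 := by
    rw [← sum_filter, ← sum_fiberwise_of_maps_to (s := G.ds.filter fun d => G.pi d ∈ P) (t := P)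
      (g := G.pi) (fun d hd => (mem_filter.1 hd).2)]
    refine sum_congr rfl fun v hv => sum_congr ?_ fun _ _ => rfl
    ext d
    rw [mem_filter, mem_filter, mem_filter]
    constructor
    · rintro ⟨a, b⟩
      exact ⟨⟨a, by rw [b]; exact hv⟩, b⟩
    · rintro ⟨⟨a, -⟩, b⟩
      exact ⟨a, b⟩
  rw [h1, sum_add_distrib, h2]
  unfold CG.bd CG.tk
  rw [filter_filter, filter_filter, sum_filter, sum_filter, sum_filter]
  have h3 : (∑ d ∈ G.ds, if G.pi d ∈ P then z d else 0) =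
      (∑ d ∈ G.ds, if (G.pi d ∈ W ∧ G.pi (G.al d) ∉ W) ∧ G.pi d ∈ P then z d else 0) +
      (∑ d ∈ G.ds, if (G.pi d ∈ W ∧ G.al d = d) ∧ G.pi d ∈ P then z d else 0) +
      ∑ d ∈ G.ds, if G.pi d ∈ P ∧ G.pi (G.al d) ∈ W ∧ G.al d ≠ d then z d else 0 := by
    rw [← sum_add_distrib, ← sum_add_distrib]
    refine sum_congr rfl fun d _ => ?_
    by_cases a : G.pi d ∈ P
    · have b : G.pi d ∈ W := hP a
      by_cases c : G.al d = d
      · simp [a, b, c]
      · by_cases e : G.pi (G.al d) ∈ W <;> simp [a, b, c, e]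
    · simp [a]
  rw [h3]
  ring

/-- **mod 3 law**: if every edge with an end in `W` and positive weight joins `O` and `E` (the ends
outside `W` do not matter), the boundary weights at `O` and at `E` agree mod 3; so a set with value 1 is impossible. (`a`, `b` =
weight of the boundary edges, tokens and new tokens at the vertices of `W` in `O`, not in `O`.) -/
theorem ZW.mod3 {z : D → ℕ} {t : V → ℕ} (hw : G.ZW z t) {W O : Finset V} (hW : W ⊆ G.vs)
    (hbi : ∀ d ∈ G.ds, G.al d ≠ d → G.pi d ∈ W → G.pi (G.al d) ∈ W → z d ≠ 0 →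
      (G.pi d ∈ O ↔ G.pi (G.al d) ∉ O)) :
    ∃ a b : ℕ, a + b = G.zc z t W ∧ a + 3 * (W \ O).card = b + 3 * (W ∩ O).card := by
  have h1 := split_at hw hW (inter_subset_left : W ∩ O ⊆ W)
  have h2 := split_at hw hW (sdiff_subset : W \ O ⊆ W)
  have h3 : ∑ d ∈ G.ds.filter (fun d => G.pi d ∈ W ∩ O ∧ G.pi (G.al d) ∈ W ∧ G.al d ≠ d), z d =
      ∑ d ∈ G.ds.filter (fun d => G.pi d ∈ W \ O ∧ G.pi (G.al d) ∈ W ∧ G.al d ≠ d), z d := by
    rw [sum_filter, sum_filter, ← G.sum_al fun d =>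
      if G.pi d ∈ W \ O ∧ G.pi (G.al d) ∈ W ∧ G.al d ≠ d then z d else 0]
    refine sum_congr rfl fun d hd => ?_
    rw [G.al_al d hd, hw.sym d hd]
    by_cases hz : z d = 0
    · rw [hz, ite_self, ite_self]
    · by_cases c : G.al d = d
      · simp [c]
      · by_cases a : G.pi d ∈ W
        · by_cases b : G.pi (G.al d) ∈ W
          · have h4 := hbi d hd c a b hz
            have c' : d ≠ G.al d := fun h => c h.symm
            by_cases e : G.pi d ∈ O
            · simp [a, b, c, e, h4.1 e, c']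
            · have h5 : G.pi (G.al d) ∈ O := by
                by_contra h
                exact e (h4.2 h)
              simp [a, b, c, e, h5, c']
          · simp [a, b]
        · simp [a]
  have hbd : ∑ d ∈ (G.bd W).filter (fun d => G.pi d ∈ W ∩ O), z d +
      ∑ d ∈ (G.bd W).filter (fun d => G.pi d ∈ W \ O), z d = ∑ d ∈ G.bd W, z d := by
    rw [sum_filter, sum_filter, ← sum_add_distrib]
    refine sum_congr rfl fun d hd => ?_
    have a : G.pi d ∈ W := (G.mem_bd.1 hd).2.1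
    by_cases e : G.pi d ∈ O <;> simp [a, e]
  have htk : ∑ d ∈ (G.tk W).filter (fun d => G.pi d ∈ W ∩ O), z d +
      ∑ d ∈ (G.tk W).filter (fun d => G.pi d ∈ W \ O), z d = ∑ d ∈ G.tk W, z d := by
    rw [sum_filter, sum_filter, ← sum_add_distrib]
    refine sum_congr rfl fun d hd => ?_
    have a : G.pi d ∈ W := (G.mem_tk.1 hd).2.1
    by_cases e : G.pi d ∈ O <;> simp [a, e]
  have hv : ∑ v ∈ W ∩ O, t v + ∑ v ∈ W \ O, t v = ∑ v ∈ W, t v := by
    rw [← sum_union (disjoint_sdiff.mono_left inter_subset_right)]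
    congr 1
    ext v
    rw [mem_union, mem_inter, mem_sdiff]
    tauto
  refine ⟨∑ d ∈ (G.bd W).filter (fun d => G.pi d ∈ W ∩ O), z d +
      ∑ d ∈ (G.tk W).filter (fun d => G.pi d ∈ W ∩ O), z d + ∑ v ∈ W ∩ O, t v,
    ∑ d ∈ (G.bd W).filter (fun d => G.pi d ∈ W \ O), z d +
      ∑ d ∈ (G.tk W).filter (fun d => G.pi d ∈ W \ O), z d + ∑ v ∈ W \ O, t v, ?_, ?_⟩
  · unfold zc
    omega
  · omega

/-- consequence: value 1 does not occur -/
theorem ZW.mod3_ne {z : D → ℕ} {t : V → ℕ} (hw : G.ZW z t) {W O : Finset V} (hW : W ⊆ G.vs)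
    (hbi : ∀ d ∈ G.ds, G.al d ≠ d → G.pi d ∈ W → G.pi (G.al d) ∈ W → z d ≠ 0 →
      (G.pi d ∈ O ↔ G.pi (G.al d) ∉ O)) : G.zc z t W ≠ 1 := by
  obtain ⟨a, b, h1, h2⟩ := hw.mod3 hW hbi
  omega

/-- local change: `z'` agrees with `z` on all darts at vertices outside `X` and on the boundary -/
theorem ZW.congr_out {z z' : D → ℕ} {t t' : V → ℕ} {X W : Finset V}
    (hz : ∀ d ∈ G.ds, G.pi d ∉ X ∨ G.pi (G.al d) ∉ X → z' d = z d)
    (ht : ∀ v, v ∉ X → t' v = t v) (hXW : Disjoint X W) : G.zc z' t' W = G.zc z t W := by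
  have hd : ∀ v ∈ W, v ∉ X := fun v hv hx => disjoint_left.1 hXW hx hv
  unfold zc
  have h1 : ∑ d ∈ G.bd W, z' d = ∑ d ∈ G.bd W, z d :=
    sum_congr rfl fun d h => by
      rw [G.mem_bd] at h
      exact hz d h.1 (Or.inl (hd _ h.2.1))
  have h2 : ∑ d ∈ G.tk W, z' d = ∑ d ∈ G.tk W, z d :=
    sum_congr rfl fun d h => by
      rw [G.mem_tk] at h
      exact hz d h.1 (Or.inl (hd _ h.2.1))
  have h3 : ∑ v ∈ W, t' v = ∑ v ∈ W, t v := sum_congr rfl fun v h => ht v (hd v h)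
  rw [h1, h2, h3]

end JK.CG
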