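import Pool.Agent.Lib.JK.ZGlue

/-! Gluing two weights over a tight set (S5, MP_c95763_co): `z1` outside `X` (where `X` is one big
vertex whose star is the boundary of `X` with the tokens in `X`), `z2` inside `X`, the same values on
the star, value 3. -/

set_option autoImplicit false

namespace JK.CG

open Finset Classical

variable {V D : Type*} {G : CG V D}

/-- the glued weight -/
noncomputable def zmix (G : CG V D) (X : Finset V) (z1 z2 : D → ℕ) : D → ℕ :=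
  fun d => if G.pi d ∈ X ∧ G.pi (G.al d) ∈ X then z2 d else z1 d

/-- the glued new tokens -/
noncomputable def tmix (X : Finset V) (t1 t2 : V → ℕ) : V → ℕ :=
  fun v => if v ∈ X then t2 v else t1 v

section

variable {X : Finset V} {z1 z2 : D → ℕ} {t1 t2 : V → ℕ}

lemma zmix_in {d : D} (h : G.pi d ∈ X) (h' : G.pi (G.al d) ∈ X) : G.zmix X z1 z2 d = z2 d :=
  if_pos ⟨h, h'⟩

lemma zmix_out {d : D} (h : ¬ (G.pi d ∈ X ∧ G.pi (G.al d) ∈ X)) : G.zmix X z1 z2 d = z1 d :=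
  if_neg h

/-- at the vertices of `X` the glued weight is `z2` -/
lemma zmix_at (hbd : ∀ d ∈ G.bd X, z1 d = z2 d) {d : D} (hd : d ∈ G.ds) (h : G.pi d ∈ X) :
    G.zmix X z1 z2 d = z2 d := by
  by_cases h' : G.pi (G.al d) ∈ X
  · exact zmix_in h h'
  · rw [zmix_out fun c => h' c.2]
    exact hbd d (G.mem_bd.2 ⟨hd, h, h'⟩)

/-- off the vertices of `X` it is `z1` -/
lemma zmix_off {d : D} (h : G.pi d ∉ X) : G.zmix X z1 z2 d = z1 d :=
  zmix_out fun c => h c.1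

/-- bounds (for example `z ≤ 1` on fresh edges outside `F`) are inherited -/
lemma zmix_le {m : ℕ} {d : D} (h1 : ¬ (G.pi d ∈ X ∧ G.pi (G.al d) ∈ X) → z1 d ≤ m)
    (h2 : G.pi d ∈ X → G.pi (G.al d) ∈ X → z2 d ≤ m) : G.zmix X z1 z2 d ≤ m := by
  by_cases h : G.pi d ∈ X ∧ G.pi (G.al d) ∈ X
  · rw [zmix_in h.1 h.2]
    exact h2 h.1 h.2
  · rw [zmix_out h]
    exact h1 h

/-- values inside `X` -/
lemma zc_mix_in (hbd : ∀ d ∈ G.bd X, z1 d = z2 d) {W : Finset V} (hW : W ⊆ X) :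
    G.zc (G.zmix X z1 z2) (tmix X t1 t2) W = G.zc z2 t2 W := by
  unfold zc
  have h1 : ∑ d ∈ G.bd W, G.zmix X z1 z2 d = ∑ d ∈ G.bd W, z2 d :=
    sum_congr rfl fun d h => by
      rw [G.mem_bd] at h
      exact zmix_at hbd h.1 (hW h.2.1)
  have h2 : ∑ d ∈ G.tk W, G.zmix X z1 z2 d = ∑ d ∈ G.tk W, z2 d :=
    sum_congr rfl fun d h => by
      rw [G.mem_tk] at h
      exact zmix_at hbd h.1 (hW h.2.1)
  have h3 : ∑ v ∈ W, tmix X t1 t2 v = ∑ v ∈ W, t2 v :=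
    sum_congr rfl fun v h => if_pos (hW h)
  rw [h1, h2, h3]

/-- values outside `X` -/
lemma zc_mix_out {W : Finset V} (hW : Disjoint X W) :
    G.zc (G.zmix X z1 z2) (tmix X t1 t2) W = G.zc z1 t1 W := by
  have hd : ∀ v ∈ W, v ∉ X := fun v hv hx => disjoint_left.1 hW hx hv
  unfold zc
  have h1 : ∑ d ∈ G.bd W, G.zmix X z1 z2 d = ∑ d ∈ G.bd W, z1 d :=
    sum_congr rfl fun d h => by
      rw [G.mem_bd] at h
      exact zmix_off (hd _ h.2.1)
  have h2 : ∑ d ∈ G.tk W, G.zmix X z1 z2 d = ∑ d ∈ G.tk W, z1 d :=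
    sum_congr rfl fun d h => by
      rw [G.mem_tk] at h
      exact zmix_off (hd _ h.2.1)
  have h3 : ∑ v ∈ W, tmix X t1 t2 v = ∑ v ∈ W, t1 v :=
    sum_congr rfl fun v h => if_neg (hd v h)
  rw [h1, h2, h3]

/-- values of sets containing `X` -/
lemma zc_mix_over (htk : ∀ d ∈ G.tk X, z1 d = z2 d)
    (ht : ∑ v ∈ X, t1 v = ∑ v ∈ X, t2 v) {W : Finset V} (hW : X ⊆ W) :
    G.zc (G.zmix X z1 z2) (tmix X t1 t2) W = G.zc z1 t1 W := by
  unfold zc
  have h1 : ∑ d ∈ G.bd W, G.zmix X z1 z2 d = ∑ d ∈ G.bd W, z1 d :=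
    sum_congr rfl fun d h => by
      rw [G.mem_bd] at h
      exact zmix_out fun c => h.2.2 (hW c.2)
  have h2 : ∑ d ∈ G.tk W, G.zmix X z1 z2 d = ∑ d ∈ G.tk W, z1 d :=
    sum_congr rfl fun d h => by
      rw [G.mem_tk] at h
      by_cases hx : G.pi d ∈ X
      · rw [zmix_in hx (by rw [h.2.2]; exact hx)]
        exact (htk d (G.mem_tk.2 ⟨h.1, hx, h.2.2⟩)).symm
      · exact zmix_off hx
  have h3 : ∑ v ∈ W, tmix X t1 t2 v = ∑ v ∈ W, t1 v := by
    rw [← sum_sdiff hW, ← sum_sdiff hW]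
    congr 1
    · exact sum_congr rfl fun v h => if_neg (mem_sdiff.1 h).2
    · rw [ht]
      exact sum_congr rfl fun v h => if_pos h
  rw [h1, h2, h3]

/-- **gluing two weights over a tight set** -/
theorem ZW.glue_pair (hX : X ⊆ G.vs) (ho : Odd X.card)
    (hs1 : ∀ d ∈ G.ds, ¬ (G.pi d ∈ X ∧ G.pi (G.al d) ∈ X) → z1 (G.al d) = z1 d)
    (hs2 : ∀ d ∈ G.ds, G.pi d ∈ X → G.pi (G.al d) ∈ X → z2 (G.al d) = z2 d)
    (hv1 : ∀ v ∈ G.vs, v ∉ X → (∑ d ∈ G.ds.filter fun d => G.pi d = v, z1 d) + t1 v = 3)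
    (hv2 : ∀ v ∈ X, (∑ d ∈ G.ds.filter fun d => G.pi d = v, z2 d) + t2 v = 3)
    (hbd : ∀ d ∈ G.bd X, z1 d = z2 d) (htk : ∀ d ∈ G.tk X, z1 d = z2 d)
    (ht : ∑ v ∈ X, t1 v = ∑ v ∈ X, t2 v) (h3 : G.zc z2 t2 X = 3)
    (hin : ∀ W ⊆ X, Odd W.card → 3 ≤ G.zc z2 t2 W)
    (hout : ∀ W ⊆ G.vs, Odd W.card → (X ⊆ W ∨ Disjoint X W) → 3 ≤ G.zc z1 t1 W) :
    G.ZW (G.zmix X z1 z2) (tmix X t1 t2) ∧ G.ZB (G.zmix X z1 z2) (tmix X t1 t2) := by
  have hw : G.ZW (G.zmix X z1 z2) (tmix X t1 t2) := by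
    refine ⟨?_, ?_⟩
    · intro d hd
      by_cases h : G.pi d ∈ X ∧ G.pi (G.al d) ∈ X
      · rw [zmix_in h.1 h.2, zmix_in h.2 (by rw [G.al_al d hd]; exact h.1)]
        exact hs2 d hd h.1 h.2
      · rw [zmix_out h, zmix_out fun c => h ⟨by rw [G.al_al d hd] at c; exact c.2, c.1⟩]
        exact hs1 d hd h
    · intro v hv
      by_cases h : v ∈ X
      · have e : tmix X t1 t2 v = t2 v := if_pos h
        rw [e, ← hv2 v h]
        congr 1
        refine sum_congr rfl fun d hd => ?_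
        rw [mem_filter] at hd
        exact zmix_at hbd hd.1 (by rw [hd.2]; exact h)
      · have e : tmix X t1 t2 v = t1 v := if_neg h
        rw [e, ← hv1 v hv h]
        congr 1
        refine sum_congr rfl fun d hd => ?_
        rw [mem_filter] at hd
        exact zmix_off (by rw [hd.2]; exact h)
  refine ⟨hw, hw.glue3 hX ho ?_ ?_ ?_⟩
  · rw [zc_mix_in hbd (Subset.refl X)]
    exact h3
  · intro W hW hWo
    rw [zc_mix_in hbd hW]
    exact hin W hW hWo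
  · intro W hW hWo h
    rcases h with h' | h'
    · rw [zc_mix_over htk ht h']
      exact hout W hW hWo (Or.inl h')
    · rw [zc_mix_out h']
      exact hout W hW hWo (Or.inr h')

end

end JK.CG
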