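import Pool.Agent.Lib.JK.ZPent

/-! J-STEP (helper14; S5, MP_c95763_co): in a patch the vertex `u` of the token `τ` and its neighbour
`u'` on the circuit are removed, the circuit is closed by an edge, the other end of the third edge of
`u'` gets the token. Solutions lift. -/

set_option autoImplicit false
set_option linter.unusedSimpArgs false

namespace JK.CG

open Finset Classical

variable {V D : Type*}

/-- removing a vertex `v` from a set `W`: the weight leaving `W` at `v` counts twice -/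
theorem ZW.erase {G : CG V D} {z : D → ℕ} {t : V → ℕ} (hw : G.ZW z t) {W : Finset V}
    (hW : W ⊆ G.vs) {v : V} (hv : v ∈ W) {x : D} (hx : x ∈ G.sx W) (hxv : G.pi x = v) :
    G.zc z t (W.erase v) + 2 * z x ≤ G.zc z t W + 3 := by
  -- darts at `v`: `O` leaving `W` or tokens, `I` to the rest of `W`
  have hsum := hw.sum v (hW hv)
  have h1 : ∑ d ∈ (G.ds.filter fun d => G.pi d = v).filter (fun d => d ∈ G.sx W), z d +
      ∑ d ∈ (G.ds.filter fun d => G.pi d = v).filter (fun d => ¬ d ∈ G.sx W), z d =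
      ∑ d ∈ G.ds.filter (fun d => G.pi d = v), z d := sum_filter_add_sum_filter_not _ _ _
  set O := (G.ds.filter fun d => G.pi d = v).filter (fun d => d ∈ G.sx W) with hO
  set N := (G.ds.filter fun d => G.pi d = v).filter (fun d => ¬ d ∈ G.sx W) with hN
  have hxO : z x ≤ ∑ d ∈ O, z d :=
    single_le_sum (f := fun d => z d) (fun _ _ => Nat.zero_le _)
      (mem_filter.2 ⟨mem_filter.2 ⟨(mem_sx.1 hx).1, hxv⟩, hx⟩)
  -- the star of `W.erase v`
  have h2 : G.sx (W.erase v) ⊆ (G.sx W \ O) ∪ N.image G.al := by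
    intro d hd
    obtain ⟨d1, d2, d3⟩ := mem_sx.1 hd
    rw [mem_erase] at d2
    rw [mem_union, mem_sdiff]
    by_cases hs : d ∈ G.sx W
    · left
      refine ⟨hs, fun h => d2.1 ?_⟩
      exact (mem_filter.1 (mem_filter.1 h).1).2
    · right
      rw [mem_image]
      have d4 : G.al d ≠ d := fun e => hs (mem_sx.2 ⟨d1, d2.2, Or.inl e⟩)
      have d5 : G.pi (G.al d) ∉ W.erase v := d3.resolve_left d4
      have d6 : G.pi (G.al d) ∈ W := by
        by_contra h
        exact hs (mem_sx.2 ⟨d1, d2.2, Or.inr h⟩)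
      have d7 : G.pi (G.al d) = v := by
        by_contra h
        exact d5 (mem_erase.2 ⟨h, d6⟩)
      refine ⟨G.al d, mem_filter.2 ⟨mem_filter.2 ⟨G.al_mem d d1, d7⟩, ?_⟩, G.al_al d d1⟩
      intro h
      obtain ⟨-, -, e3⟩ := mem_sx.1 h
      rw [G.al_al d d1] at e3
      rcases e3 with e3 | e3
      · exact d4 e3.symm
      · exact e3 d2.2
  have h3 : ∑ d ∈ G.sx (W.erase v), z d ≤ ∑ d ∈ G.sx W \ O, z d + ∑ d ∈ N, z d := by
    calc ∑ d ∈ G.sx (W.erase v), z d ≤ ∑ d ∈ (G.sx W \ O) ∪ N.image G.al, z d :=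
          sum_le_sum_of_subset_of_nonneg h2 fun _ _ _ => Nat.zero_le _
      _ ≤ ∑ d ∈ G.sx W \ O, z d + ∑ d ∈ N.image G.al, z d := by
          rw [← sum_union_inter]
          exact Nat.le_add_right _ _
      _ ≤ ∑ d ∈ G.sx W \ O, z d + ∑ d ∈ N, z d := by
          refine Nat.add_le_add_left ?_ _
          have hinj : Set.InjOn G.al N := by
            intro p hp q hq e
            have hp' := (mem_filter.1 (mem_filter.1 (mem_coe.1 hp)).1).1
            have hq' := (mem_filter.1 (mem_filter.1 (mem_coe.1 hq)).1).1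
            rw [← G.al_al p hp', e, G.al_al q hq']
          rw [sum_image hinj]
          refine le_of_eq (sum_congr rfl fun d hd => ?_)
          exact hw.sym d (mem_filter.1 (mem_filter.1 hd).1).1
  have h4 : ∑ d ∈ G.sx W \ O, z d + ∑ d ∈ O, z d = ∑ d ∈ G.sx W, z d :=
    sum_sdiff fun d hd => (mem_filter.1 hd).2
  have h5 : ∑ w ∈ W.erase v, t w + t v = ∑ w ∈ W, t w := sum_erase_add _ _ hv
  rw [zc_sx, zc_sx]
  omega

/-- an even number of darts of a 2-factor leaves a set -/
theorem Tf.even_cross {G : CG V D} {F : Finset D} (h : G.Tf F) {A : Finset V} (hA : A ⊆ G.vs) :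
    Even (F.filter fun d => G.pi d ∈ A ∧ G.pi (G.al d) ∉ A).card := by
  have h1 : (F.filter fun d => G.pi d ∈ A).card = 2 * A.card := by
    rw [card_eq_sum_card_fiberwise (s := F.filter fun d => G.pi d ∈ A) (t := A) (f := G.pi)
      (fun d hd => (mem_filter.1 hd).2)]
    have h2 : ∀ v ∈ A, ((F.filter fun d => G.pi d ∈ A).filter fun d => G.pi d = v).card = 2 := by
      intro v hv
      rw [← h.two v (hA hv), filter_filter]
      congr 1
      ext d
      rw [mem_filter, mem_filter]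
      constructor
      · rintro ⟨a, -, c⟩
        exact ⟨a, c⟩
      · rintro ⟨a, c⟩
        exact ⟨a, by rw [c]; exact hv, c⟩
    rw [sum_congr rfl h2, sum_const, smul_eq_mul, mul_comm]
  have h2 : Even (F.filter fun d => G.pi d ∈ A ∧ G.pi (G.al d) ∈ A).card := by
    apply G.even_of_closed ((filter_subset _ _).trans h.sub)
    · intro d hd
      rw [mem_filter] at hd ⊢
      refine ⟨h.al d hd.1, hd.2.2, ?_⟩
      rw [G.al_al d (h.sub hd.1)]
      exact hd.2.1
    · intro d hd
      exact h.tok d (mem_filter.1 hd).1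
  have h3 : (F.filter fun d => G.pi d ∈ A).card =
      (F.filter fun d => G.pi d ∈ A ∧ G.pi (G.al d) ∈ A).card +
      (F.filter fun d => G.pi d ∈ A ∧ G.pi (G.al d) ∉ A).card := by
    rw [← card_filter_add_card_filter_not (s := F.filter fun d => G.pi d ∈ A)
      (fun d => G.pi (G.al d) ∈ A), filter_filter, filter_filter]
  rw [Nat.even_iff] at h2 ⊢
  omega

/-- a set of degree at most 1 is closed -/
theorem Tf.closed_le_one {G : CG V D} {F : Finset D} (h : G.Tf F) {A : Finset V} (hA : A ⊆ G.vs)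
    (h1 : G.dg A ≤ 1) : ∀ d ∈ F, G.pi d ∈ A → G.pi (G.al d) ∈ A := by
  intro d hd h2
  by_contra h3
  have h4 : 0 < (F.filter fun d => G.pi d ∈ A ∧ G.pi (G.al d) ∉ A).card :=
    card_pos.2 ⟨d, mem_filter.2 ⟨hd, h2, h3⟩⟩
  have h5 : (F.filter fun d => G.pi d ∈ A ∧ G.pi (G.al d) ∉ A).card ≤ G.dg A := by
    refine (card_le_card fun e he => ?_).trans (Nat.le_add_right _ _)
    rw [mem_filter] at he
    rw [G.mem_bd]
    exact ⟨h.sub he.1, he.2⟩
  have h6 := h.even_cross hA
  rw [Nat.even_iff] at h6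
  omega

/-- data for the J-step: `τ, a, b` are the darts at `u`, `a', b', c'` the darts at `u'` -/
structure JS (G : CG V D) (F : Finset D) (τ a b a' b' c' : D) : Prop where
  tf : G.Tf F
  tmem : τ ∈ G.ds
  amem : a ∈ F
  bmem : b ∈ F
  a'mem : a' ∈ F
  b'mem : b' ∈ F
  c'mem : c' ∈ G.ds
  tF : τ ∉ F
  c'F : c' ∉ F
  pa : G.pi a = G.pi τ
  pb : G.pi b = G.pi τ
  pb' : G.pi b' = G.pi a'
  pc' : G.pi c' = G.pi a'
  ab : a ≠ b
  ab' : a' ≠ b'
  uu : G.pi τ ≠ G.pi a'
  ala : G.al a = a'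
  alt : G.al τ = τ
  alc : G.al c' ≠ c'
  bb : G.al b ≠ b'

namespace JS

variable {G : CG V D} {F : Finset D} {τ a b a' b' c' : D} (h : G.JS F τ a b a' b' c')
include h

lemma at_u {d : D} (hd : d ∈ G.ds) (hp : G.pi d = G.pi τ) : d = τ ∨ d = a ∨ d = b := by
  have h4 : ({τ, a, b} : Finset D) ⊆ G.ds.filter fun d => G.pi d = G.pi τ := by
    intro e he
    rw [mem_insert, mem_insert, mem_singleton] at he
    rw [mem_filter]
    rcases he with rfl | rfl | rfl
    · exact ⟨h.tmem, rfl⟩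
    · exact ⟨h.tf.sub h.amem, h.pa⟩
    · exact ⟨h.tf.sub h.bmem, h.pb⟩
  have h5 : ({τ, a, b} : Finset D).card = 3 := by
    rw [card_insert_of_notMem, card_pair h.ab]
    rw [mem_insert, mem_singleton]
    rintro (e | e)
    · exact h.tF (by rw [e]; exact h.amem)
    · exact h.tF (by rw [e]; exact h.bmem)
  have h6 := eq_of_subset_of_card_le h4 (by rw [G.cubic _ (G.pi_mem _ h.tmem), h5])
  have h7 : d ∈ ({τ, a, b} : Finset D) := by
    rw [h6, mem_filter]
    exact ⟨hd, hp⟩
  rwa [mem_insert, mem_insert, mem_singleton] at h7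

lemma at_u' {d : D} (hd : d ∈ G.ds) (hp : G.pi d = G.pi a') : d = a' ∨ d = b' ∨ d = c' := by
  have h4 : ({a', b', c'} : Finset D) ⊆ G.ds.filter fun d => G.pi d = G.pi a' := by
    intro e he
    rw [mem_insert, mem_insert, mem_singleton] at he
    rw [mem_filter]
    rcases he with rfl | rfl | rfl
    · exact ⟨h.tf.sub h.a'mem, rfl⟩
    · exact ⟨h.tf.sub h.b'mem, h.pb'⟩
    · exact ⟨h.c'mem, h.pc'⟩
  have h5 : ({a', b', c'} : Finset D).card = 3 := by
    rw [card_insert_of_notMem, card_pair]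
    · intro e
      exact h.c'F (by rw [← e]; exact h.b'mem)
    · rw [mem_insert, mem_singleton]
      rintro (e | e)
      · exact h.ab' e
      · exact h.c'F (by rw [← e]; exact h.a'mem)
  have h6 := eq_of_subset_of_card_le h4 (by rw [G.cubic _ (G.pi_mem _ (h.tf.sub h.a'mem)), h5])
  have h7 : d ∈ ({a', b', c'} : Finset D) := by
    rw [h6, mem_filter]
    exact ⟨hd, hp⟩
  rwa [mem_insert, mem_insert, mem_singleton] at h7

lemma a'al : G.al a' = a := by
  rw [← h.ala, G.al_al a (h.tf.sub h.amem)]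

/-- outer dart of `b` -/
lemma x_out : G.al b ∈ F ∧ G.pi (G.al b) ≠ G.pi τ ∧ G.pi (G.al b) ≠ G.pi a' := by
  have h1 := h.tf.al b h.bmem
  refine ⟨h1, fun e => ?_, fun e => ?_⟩
  · rcases h.at_u (h.tf.sub h1) e with e' | e' | e'
    · exact h.tF (by rw [← e']; exact h1)
    · have : G.al a = b := by rw [← e', G.al_al b (h.tf.sub h.bmem)]
      exact h.uu (by rw [← h.pb, ← this, h.ala])
    · exact h.tf.tok b h.bmem e'
  · rcases h.at_u' (h.tf.sub h1) e with e' | e' | e'
    · exact h.ab (by rw [← h.a'al, ← e', G.al_al b (h.tf.sub h.bmem)])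
    · exact h.bb e'
    · exact h.c'F (by rw [← e']; exact h1)

lemma y_out : G.al b' ∈ F ∧ G.pi (G.al b') ≠ G.pi τ ∧ G.pi (G.al b') ≠ G.pi a' := by
  have h1 := h.tf.al b' h.b'mem
  refine ⟨h1, fun e => ?_, fun e => ?_⟩
  · rcases h.at_u (h.tf.sub h1) e with e' | e' | e'
    · exact h.tF (by rw [← e']; exact h1)
    · have : G.al a = b' := by rw [← e', G.al_al b' (h.tf.sub h.b'mem)]
      exact h.ab' (by rw [← h.ala, this])
    · exact h.bb (by rw [← e', G.al_al b' (h.tf.sub h.b'mem)])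
  · rcases h.at_u' (h.tf.sub h1) e with e' | e' | e'
    · have : G.al a' = b' := by rw [← e', G.al_al b' (h.tf.sub h.b'mem)]
      exact h.uu (by rw [← h.pa, ← h.a'al, this, h.pb'])
    · exact h.tf.tok b' h.b'mem e'
    · exact h.c'F (by rw [← e']; exact h1)

lemma c_out : G.al c' ∈ G.ds ∧ G.al c' ∉ F ∧ G.pi (G.al c') ≠ G.pi τ ∧
    G.pi (G.al c') ≠ G.pi a' := by
  have h1 := G.al_mem c' h.c'mem
  have h2 : G.al c' ∉ F := fun e => h.c'F (by
    have := h.tf.al _ e
    rwa [G.al_al c' h.c'mem] at this)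
  refine ⟨h1, h2, fun e => ?_, fun e => ?_⟩
  · rcases h.at_u h1 e with e' | e' | e'
    · have : G.al τ = c' := by rw [← e', G.al_al c' h.c'mem]
      rw [h.alt] at this
      exact h.uu (by rw [this, h.pc'])
    · exact h2 (by rw [e']; exact h.amem)
    · exact h2 (by rw [e']; exact h.bmem)
  · rcases h.at_u' h1 e with e' | e' | e'
    · exact h2 (by rw [e']; exact h.a'mem)
    · exact h2 (by rw [e']; exact h.b'mem)
    · exact h.alc e'

lemma xy : G.al b ≠ G.al b' := by
  intro e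
  have : b = b' := by rw [← G.al_al b (h.tf.sub h.bmem), e, G.al_al b' (h.tf.sub h.b'mem)]
  exact h.uu (by rw [← h.pb, this, h.pb'])

/-- the partner function after the J-step -/
noncomputable def jal (G : CG V D) (b b' c' d : D) : D :=
  if d = G.al b then G.al b' else if d = G.al b' then G.al b
  else if d = G.al c' then G.al c' else G.al d

omit h in
lemma jal_x : jal G b b' c' (G.al b) = G.al b' := if_pos rfl

lemma jal_y : jal G b b' c' (G.al b') = G.al b := by
  unfold jal
  rw [if_neg h.xy.symm, if_pos rfl]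

lemma jal_c : jal G b b' c' (G.al c') = G.al c' := by
  unfold jal
  have h1 : G.al c' ≠ G.al b := fun e => h.c_out.2.1 (by rw [e]; exact h.x_out.1)
  have h2 : G.al c' ≠ G.al b' := fun e => h.c_out.2.1 (by rw [e]; exact h.y_out.1)
  rw [if_neg h1, if_neg h2, if_pos rfl]

omit h in
lemma jal_else {d : D} (h1 : d ≠ G.al b) (h2 : d ≠ G.al b') (h3 : d ≠ G.al c') :
    jal G b b' c' d = G.al d := by
  unfold jal
  rw [if_neg h1, if_neg h2, if_neg h3]

/-- other darts keep their partners, and these are outside too -/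
lemma keep {d : D} (hd : d ∈ G.ds) (hu : G.pi d ≠ G.pi τ) (hu' : G.pi d ≠ G.pi a')
    (h1 : d ≠ G.al b) (h2 : d ≠ G.al b') (h3 : d ≠ G.al c') :
    G.pi (G.al d) ≠ G.pi τ ∧ G.pi (G.al d) ≠ G.pi a' ∧ G.al d ≠ G.al b ∧ G.al d ≠ G.al b' ∧
      G.al d ≠ G.al c' := by
  have key : ∀ e ∈ G.ds, G.al d = e → d = G.al e := fun e _ he => by rw [← he, G.al_al d hd]
  refine ⟨fun e => ?_, fun e => ?_, fun e => ?_, fun e => ?_, fun e => ?_⟩
  · rcases h.at_u (G.al_mem d hd) e with e' | e' | e'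
    · exact hu (by rw [key τ h.tmem e', h.alt])
    · exact hu' (by rw [key a (h.tf.sub h.amem) e', h.ala])
    · exact h1 (key b (h.tf.sub h.bmem) e')
  · rcases h.at_u' (G.al_mem d hd) e with e' | e' | e'
    · exact hu (by rw [key a' (h.tf.sub h.a'mem) e', h.a'al, h.pa])
    · exact h2 (key b' (h.tf.sub h.b'mem) e')
    · exact h3 (key c' h.c'mem e')
  · have : d = b := by rw [← G.al_al d hd, e, G.al_al b (h.tf.sub h.bmem)]
    exact hu (by rw [this, h.pb])
  · have : d = b' := by rw [← G.al_al d hd, e, G.al_al b' (h.tf.sub h.b'mem)]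
    exact hu' (by rw [this, h.pb'])
  · have : d = c' := by rw [← G.al_al d hd, e, G.al_al c' h.c'mem]
    exact hu' (by rw [this, h.pc'])

/-- the graph after the J-step -/
noncomputable def gr : CG V D where
  vs := G.vs \ {G.pi τ, G.pi a'}
  ds := G.ds.filter fun d => G.pi d ≠ G.pi τ ∧ G.pi d ≠ G.pi a'
  pi := G.pi
  al := jal G b b' c'
  pi_mem := by
    intro d hd
    obtain ⟨h1, h2, h3⟩ := mem_filter.1 hd
    rw [mem_sdiff, mem_insert, mem_singleton]
    exact ⟨G.pi_mem d h1, fun e => e.elim h2 h3⟩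
  al_mem := by
    intro d hd
    obtain ⟨h1, h2, h3⟩ := mem_filter.1 hd
    by_cases e1 : d = G.al b
    · rw [e1, jal_x]
      exact mem_filter.2 ⟨h.tf.sub h.y_out.1, h.y_out.2⟩
    · by_cases e2 : d = G.al b'
      · rw [e2, h.jal_y]
        exact mem_filter.2 ⟨h.tf.sub h.x_out.1, h.x_out.2⟩
      · by_cases e3 : d = G.al c'
        · rw [e3, h.jal_c]
          exact mem_filter.2 ⟨h.c_out.1, h.c_out.2.2⟩
        · rw [jal_else e1 e2 e3]
          have := h.keep h1 h2 h3 e1 e2 e3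
          exact mem_filter.2 ⟨G.al_mem d h1, this.1, this.2.1⟩
  al_al := by
    intro d hd
    obtain ⟨h1, h2, h3⟩ := mem_filter.1 hd
    by_cases e1 : d = G.al b
    · rw [e1, jal_x, h.jal_y]
    · by_cases e2 : d = G.al b'
      · rw [e2, h.jal_y, jal_x]
      · by_cases e3 : d = G.al c'
        · rw [e3, h.jal_c, h.jal_c]
        · have := h.keep h1 h2 h3 e1 e2 e3
          rw [jal_else e1 e2 e3, jal_else this.2.2.1 this.2.2.2.1 this.2.2.2.2, G.al_al d h1]
  cubic := by
    intro v hv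
    rw [mem_sdiff, mem_insert, mem_singleton] at hv
    rw [← G.cubic v hv.1, filter_filter]
    congr 1
    ext d
    simp only [mem_filter]
    constructor
    · rintro ⟨h1, _, h3⟩
      exact ⟨h1, h3⟩
    · rintro ⟨h1, h3⟩
      exact ⟨h1, ⟨fun e => hv.2 (Or.inl (by rw [← h3, e])), fun e => hv.2 (Or.inr (by rw [← h3, e]))⟩,
        h3⟩

lemma mem_gr {d : D} : d ∈ h.gr.ds ↔ d ∈ G.ds ∧ G.pi d ≠ G.pi τ ∧ G.pi d ≠ G.pi a' := mem_filter

lemma mem_vs {v : V} : v ∈ h.gr.vs ↔ v ∈ G.vs ∧ v ≠ G.pi τ ∧ v ≠ G.pi a' := by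
  show v ∈ G.vs \ {G.pi τ, G.pi a'} ↔ _
  rw [mem_sdiff, mem_insert, mem_singleton, not_or]

/-- the darts which are not affected -/
noncomputable def R (G : CG V D) (τ b a' b' c' : D) : Finset D :=
  G.ds.filter fun d => (G.pi d ≠ G.pi τ ∧ G.pi d ≠ G.pi a') ∧ d ≠ G.al b ∧ d ≠ G.al b' ∧ d ≠ G.al c'

lemma xc : G.al b ≠ G.al c' := fun e => h.c_out.2.1 (by rw [← e]; exact h.x_out.1)

lemma yc : G.al b' ≠ G.al c' := fun e => h.c_out.2.1 (by rw [← e]; exact h.y_out.1)

lemma sum3 (g : D → ℕ) : ∑ d ∈ h.gr.ds, g d =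
    ∑ d ∈ R G τ b a' b' c', g d + (g (G.al b) + g (G.al b') + g (G.al c')) := by
  have h1 : h.gr.ds = R G τ b a' b' c' ∪ {G.al b, G.al b', G.al c'} := by
    ext d
    rw [h.mem_gr, mem_union, mem_insert, mem_insert, mem_singleton]
    unfold R
    rw [mem_filter]
    constructor
    · rintro ⟨d1, d2⟩
      by_cases e1 : d = G.al b
      · exact Or.inr (Or.inl e1)
      · by_cases e2 : d = G.al b'
        · exact Or.inr (Or.inr (Or.inl e2))
        · by_cases e3 : d = G.al c'
          · exact Or.inr (Or.inr (Or.inr e3))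
          · exact Or.inl ⟨d1, d2, e1, e2, e3⟩
    · rintro (⟨d1, d2, -⟩ | rfl | rfl | rfl)
      · exact ⟨d1, d2⟩
      · exact ⟨h.tf.sub h.x_out.1, h.x_out.2⟩
      · exact ⟨h.tf.sub h.y_out.1, h.y_out.2⟩
      · exact ⟨h.c_out.1, h.c_out.2.2⟩
  have h2 : Disjoint (R G τ b a' b' c') {G.al b, G.al b', G.al c'} := by
    rw [disjoint_left]
    intro d hd he
    unfold R at hd
    rw [mem_filter] at hd
    rw [mem_insert, mem_insert, mem_singleton] at he
    rcases he with he | he | he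
    · exact hd.2.2.1 he
    · exact hd.2.2.2.1 he
    · exact hd.2.2.2.2 he
  rw [h1, sum_union h2, sum_insert, sum_insert, sum_singleton]
  · ring
  · rw [mem_singleton]
    exact h.yc
  · rw [mem_insert, mem_singleton]
    rintro (e | e)
    · exact h.xy e
    · exact h.xc e

lemma sum9 (g : D → ℕ) : ∑ d ∈ G.ds, g d =
    ∑ d ∈ R G τ b a' b' c', g d + (g (G.al b) + g (G.al b') + g (G.al c')) +
      (g τ + g a + g b) + (g a' + g b' + g c') := by
  have h1 : G.ds = h.gr.ds ∪ ({τ, a, b} ∪ {a', b', c'}) := by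
    ext d
    rw [mem_union, mem_union, h.mem_gr]
    simp only [mem_insert, mem_singleton]
    constructor
    · intro hd
      by_cases e1 : G.pi d = G.pi τ
      · exact Or.inr (Or.inl (h.at_u hd e1))
      · by_cases e2 : G.pi d = G.pi a'
        · exact Or.inr (Or.inr (h.at_u' hd e2))
        · exact Or.inl ⟨hd, e1, e2⟩
    · rintro (hd | (rfl | rfl | rfl) | (rfl | rfl | rfl))
      · exact hd.1
      · exact h.tmem
      · exact h.tf.sub h.amem
      · exact h.tf.sub h.bmem
      · exact h.tf.sub h.a'mem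
      · exact h.tf.sub h.b'mem
      · exact h.c'mem
  have h2 : Disjoint h.gr.ds ({τ, a, b} ∪ {a', b', c'}) := by
    rw [disjoint_left]
    intro d hd he
    rw [h.mem_gr] at hd
    simp only [mem_union, mem_insert, mem_singleton] at he
    rcases he with (he | he | he) | (he | he | he)
    · exact hd.2.1 (by rw [he])
    · exact hd.2.1 (by rw [he, h.pa])
    · exact hd.2.1 (by rw [he, h.pb])
    · exact hd.2.2 (by rw [he])
    · exact hd.2.2 (by rw [he, h.pb'])
    · exact hd.2.2 (by rw [he, h.pc'])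
  have h3 : Disjoint ({τ, a, b} : Finset D) {a', b', c'} := by
    rw [disjoint_left]
    intro d hd he
    rw [mem_insert, mem_insert, mem_singleton] at hd he
    have e1 : G.pi d = G.pi τ := by
      rcases hd with rfl | rfl | rfl
      · rfl
      · exact h.pa
      · exact h.pb
    have e2 : G.pi d = G.pi a' := by
      rcases he with rfl | rfl | rfl
      · rfl
      · exact h.pb'
      · exact h.pc'
    exact h.uu (by rw [← e1, e2])
  have s1 : ∑ d ∈ ({τ, a, b} : Finset D), g d = g τ + g a + g b := by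
    rw [sum_insert, sum_pair h.ab]
    · ring
    · rw [mem_insert, mem_singleton]
      rintro (e | e)
      · exact h.tF (by rw [e]; exact h.amem)
      · exact h.tF (by rw [e]; exact h.bmem)
  have s2 : ∑ d ∈ ({a', b', c'} : Finset D), g d = g a' + g b' + g c' := by
    rw [sum_insert, sum_pair]
    · ring
    · intro e
      exact h.c'F (by rw [← e]; exact h.b'mem)
    · rw [mem_insert, mem_singleton]
      rintro (e | e)
      · exact h.ab' e
      · exact h.c'F (by rw [← e]; exact h.a'mem)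
  calc ∑ d ∈ G.ds, g d = ∑ d ∈ h.gr.ds ∪ ({τ, a, b} ∪ {a', b', c'}), g d := by rw [← h1]
    _ = _ := by
      rw [sum_union h2, sum_union h3, s1, s2, h.sum3]
      ring

/-- the common part of the values -/
noncomputable def core (G : CG V D) (τ b a' b' c' : D) (z : D → ℕ) (W : Finset V) : ℕ :=
  ∑ d ∈ R G τ b a' b' c', if G.pi d ∈ W ∧ (G.al d = d ∨ G.pi (G.al d) ∉ W) then z d else 0

omit h in
lemma zc_ite (G' : CG V D) (z : D → ℕ) (t : V → ℕ) (W : Finset V) : G'.zc z t W =
    (∑ d ∈ G'.ds, if G'.pi d ∈ W ∧ (G'.al d = d ∨ G'.pi (G'.al d) ∉ W) then z d else 0) +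
      ∑ v ∈ W, t v := by
  rw [zc_sx]
  unfold sx
  rw [sum_filter]

/-- values in the new graph -/
lemma zc_gr {W : Finset V} (z : D → ℕ) (t : V → ℕ) :
    h.gr.zc z t W = core G τ b a' b' c' z W +
      ((if G.pi (G.al b) ∈ W ∧ G.pi (G.al b') ∉ W then z (G.al b) else 0) +
      (if G.pi (G.al b') ∈ W ∧ G.pi (G.al b) ∉ W then z (G.al b') else 0) +
      (if G.pi (G.al c') ∈ W then z (G.al c') else 0)) + ∑ v ∈ W, t v := by
  rw [zc_ite, h.sum3]
  congr 1
  congr 1
  · unfold core
    refine sum_congr rfl fun d hd => ?_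
    unfold R at hd
    rw [mem_filter] at hd
    show (if G.pi d ∈ W ∧ (jal G b b' c' d = d ∨ G.pi (jal G b b' c' d) ∉ W) then z d else 0) = _
    rw [jal_else hd.2.2.1 hd.2.2.2.1 hd.2.2.2.2]
  · show (if G.pi (G.al b) ∈ W ∧ (jal G b b' c' (G.al b) = G.al b ∨
        G.pi (jal G b b' c' (G.al b)) ∉ W) then z (G.al b) else 0) +
      (if G.pi (G.al b') ∈ W ∧ (jal G b b' c' (G.al b') = G.al b' ∨
        G.pi (jal G b b' c' (G.al b')) ∉ W) then z (G.al b') else 0) +
      (if G.pi (G.al c') ∈ W ∧ (jal G b b' c' (G.al c') = G.al c' ∨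
        G.pi (jal G b b' c' (G.al c')) ∉ W) then z (G.al c') else 0) = _
    rw [jal_x, h.jal_y, h.jal_c]
    have e1 : ¬ (G.al b' = G.al b) := fun e => h.xy e.symm
    have e2 : ¬ (G.al b = G.al b') := h.xy
    simp only [e1, e2, false_or, true_or, and_true]

/-- values in the old graph; `W` is a set of the new graph, possibly with `u`, `u'` added -/
lemma zc_old {W : Finset V} (z : D → ℕ) (t : V → ℕ) :
    G.zc z t W = core G τ b a' b' c' z ((W.erase (G.pi τ)).erase (G.pi a')) +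
      ((if G.pi (G.al b) ∈ W ∧ G.pi τ ∉ W then z (G.al b) else 0) +
      (if G.pi (G.al b') ∈ W ∧ G.pi a' ∉ W then z (G.al b') else 0) +
      (if G.pi (G.al c') ∈ W ∧ G.pi a' ∉ W then z (G.al c') else 0)) +
      ((if G.pi τ ∈ W then z τ else 0) + (if G.pi τ ∈ W ∧ G.pi a' ∉ W then z a else 0) +
        (if G.pi τ ∈ W ∧ G.pi (G.al b) ∉ W then z b else 0)) +
      ((if G.pi a' ∈ W ∧ G.pi τ ∉ W then z a' else 0) +
        (if G.pi a' ∈ W ∧ G.pi (G.al b') ∉ W then z b' else 0) +
        (if G.pi a' ∈ W ∧ G.pi (G.al c') ∉ W then z c' else 0)) + ∑ v ∈ W, t v := by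
  rw [zc_ite, h.sum9]
  have n1 : ¬ G.al (G.al b) = G.al b := fun e => by
    rw [G.al_al b (h.tf.sub h.bmem)] at e
    exact h.tf.tok b h.bmem e.symm
  have n2 : ¬ G.al (G.al b') = G.al b' := fun e => by
    rw [G.al_al b' (h.tf.sub h.b'mem)] at e
    exact h.tf.tok b' h.b'mem e.symm
  have n3 : ¬ G.al (G.al c') = G.al c' := fun e => by
    rw [G.al_al c' h.c'mem] at e
    exact h.alc e.symm
  have n4 : ¬ G.al a = a := h.tf.tok a h.amem
  have n5 : ¬ G.al b = b := h.tf.tok b h.bmem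
  have n6 : ¬ G.al a' = a' := h.tf.tok a' h.a'mem
  have n7 : ¬ G.al b' = b' := h.tf.tok b' h.b'mem
  have n8 : ¬ G.al c' = c' := h.alc
  have hcore : (∑ d ∈ R G τ b a' b' c',
      if G.pi d ∈ W ∧ (G.al d = d ∨ G.pi (G.al d) ∉ W) then z d else 0) =
      core G τ b a' b' c' z ((W.erase (G.pi τ)).erase (G.pi a')) := by
    unfold core
    refine sum_congr rfl fun d hd => ?_
    unfold R at hd
    rw [mem_filter] at hd
    have k := h.keep hd.1 hd.2.1.1 hd.2.1.2 hd.2.2.1 hd.2.2.2.1 hd.2.2.2.2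
    have e1 : G.pi d ∈ (W.erase (G.pi τ)).erase (G.pi a') ↔ G.pi d ∈ W := by
      rw [mem_erase, mem_erase]
      exact ⟨fun e => e.2.2, fun e => ⟨hd.2.1.2, hd.2.1.1, e⟩⟩
    have e2 : G.pi (G.al d) ∈ (W.erase (G.pi τ)).erase (G.pi a') ↔ G.pi (G.al d) ∈ W := by
      rw [mem_erase, mem_erase]
      exact ⟨fun e => e.2.2, fun e => ⟨k.2.1, k.1, e⟩⟩
    simp only [e1, e2]
  rw [hcore]
  rw [G.al_al b (h.tf.sub h.bmem), G.al_al b' (h.tf.sub h.b'mem), G.al_al c' h.c'mem, h.alt, h.ala,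
    h.a'al, h.pa, h.pb, h.pb', h.pc']
  have m1 : ¬ b = G.al b := fun e => n5 e.symm
  have m2 : ¬ b' = G.al b' := fun e => n7 e.symm
  have m3 : ¬ c' = G.al c' := fun e => n8 e.symm
  have m4 : ¬ a' = a := fun e => n4 (by rw [h.ala, e])
  have m5 : ¬ a = a' := fun e => m4 e.symm
  simp only [m1, m2, m3, m4, m5, n5, n7, n8, false_or, true_or, and_true]

/-! ### the lift -/

/-- the lifted weights -/
noncomputable def zl (G : CG V D) (τ a b a' b' c' : D) (z : D → ℕ) (d : D) : ℕ :=
  if d = a ∨ d = a' then 3 - z (G.al b) else if d = b ∨ d = b' then z (G.al b)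
  else if d = τ ∨ d = c' then 0 else z d

section zl

variable (z : D → ℕ)

omit h in
lemma zl_a : zl G τ a b a' b' c' z a = 3 - z (G.al b) := if_pos (Or.inl rfl)

omit h in
lemma zl_a' : zl G τ a b a' b' c' z a' = 3 - z (G.al b) := if_pos (Or.inr rfl)

lemma ne_all : b ≠ a' ∧ b' ≠ a ∧ τ ≠ a ∧ τ ≠ a' ∧ τ ≠ b ∧ τ ≠ b' ∧ c' ≠ a ∧ c' ≠ a' ∧ c' ≠ b ∧
    c' ≠ b' := by
  refine ⟨?_, ?_, ?_, ?_, ?_, ?_, ?_, ?_, ?_, ?_⟩
  · intro e; exact h.uu (by rw [← h.pb, e])
  · intro e; exact h.uu (by rw [← h.pa, ← e, h.pb'])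
  · intro e; exact h.tF (by rw [e]; exact h.amem)
  · intro e; exact h.tF (by rw [e]; exact h.a'mem)
  · intro e; exact h.tF (by rw [e]; exact h.bmem)
  · intro e; exact h.tF (by rw [e]; exact h.b'mem)
  · intro e; exact h.c'F (by rw [e]; exact h.amem)
  · intro e; exact h.c'F (by rw [e]; exact h.a'mem)
  · intro e; exact h.c'F (by rw [e]; exact h.bmem)
  · intro e; exact h.c'F (by rw [e]; exact h.b'mem)

lemma zl_b : zl G τ a b a' b' c' z b = z (G.al b) := by
  unfold zl
  have n := h.ne_all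
  rw [if_neg (fun e => e.elim (fun e => h.ab e.symm) n.1), if_pos (Or.inl rfl)]

lemma zl_b' : zl G τ a b a' b' c' z b' = z (G.al b) := by
  unfold zl
  have n := h.ne_all
  rw [if_neg (fun e => e.elim n.2.1 (fun e => h.ab' e.symm)), if_pos (Or.inr rfl)]

lemma zl_t : zl G τ a b a' b' c' z τ = 0 := by
  unfold zl
  have n := h.ne_all
  rw [if_neg (fun e => e.elim n.2.2.1 n.2.2.2.1), if_neg (fun e => e.elim n.2.2.2.2.1 n.2.2.2.2.2.1),
    if_pos (Or.inl rfl)]

lemma zl_c : zl G τ a b a' b' c' z c' = 0 := by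
  unfold zl
  have n := h.ne_all.2.2.2.2.2.2
  rw [if_neg (fun e => e.elim n.1 n.2.1), if_neg (fun e => e.elim n.2.2.1 n.2.2.2),
    if_pos (Or.inr rfl)]

lemma zl_else {d : D} (hu : G.pi d ≠ G.pi τ) (hu' : G.pi d ≠ G.pi a') :
    zl G τ a b a' b' c' z d = z d := by
  unfold zl
  rw [if_neg, if_neg, if_neg]
  · rintro (e | e)
    · exact hu (by rw [e])
    · exact hu' (by rw [e, h.pc'])
  · rintro (e | e)
    · exact hu (by rw [e, h.pb])
    · exact hu' (by rw [e, h.pb'])
  · rintro (e | e)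
    · exact hu (by rw [e, h.pa])
    · exact hu' (by rw [e])

end zl

/-- **J-STEP LIFT** -/
theorem lift {z1 : D → ℕ} {t : V → ℕ} (ht : t (G.pi τ) = 0) (ht' : t (G.pi a') = 0)
    (hw : h.gr.ZW z1 t) (hb : h.gr.ZB z1 t) (h0 : z1 (G.al c') = 0) :
    G.ZW (zl G τ a b a' b' c' z1) t ∧ G.ZB (zl G τ a b a' b' c' z1) t := by
  have hxm : G.al b ∈ h.gr.ds := h.mem_gr.2 ⟨h.tf.sub h.x_out.1, h.x_out.2⟩
  have hym : G.al b' ∈ h.gr.ds := h.mem_gr.2 ⟨h.tf.sub h.y_out.1, h.y_out.2⟩
  have hxy : z1 (G.al b') = z1 (G.al b) := by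
    have := hw.sym _ hxm
    rwa [show h.gr.al (G.al b) = G.al b' from jal_x] at this
  have hf : z1 (G.al b) ≤ 3 := by
    have h1 := hw.sum (G.pi (G.al b)) (h.gr.pi_mem _ hxm)
    have h2 : z1 (G.al b) ≤ ∑ d ∈ h.gr.ds.filter fun d => h.gr.pi d = G.pi (G.al b), z1 d :=
      single_le_sum (f := fun d => z1 d) (fun _ _ => Nat.zero_le _) (mem_filter.2 ⟨hxm, rfl⟩)
    omega
  have ex := h.zl_else z1 h.x_out.2.1 h.x_out.2.2
  have ey := h.zl_else z1 h.y_out.2.1 h.y_out.2.2
  have ec := h.zl_else z1 h.c_out.2.2.1 h.c_out.2.2.2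
  have hWZ : G.ZW (zl G τ a b a' b' c' z1) t := by
    refine ⟨?_, ?_⟩
    · intro d hd
      by_cases e1 : G.pi d = G.pi τ
      · rcases h.at_u hd e1 with rfl | rfl | rfl
        · rw [h.alt]
        · rw [h.ala, zl_a', zl_a]
        · rw [ex, h.zl_b]
      · by_cases e2 : G.pi d = G.pi a'
        · rcases h.at_u' hd e2 with rfl | rfl | rfl
          · rw [h.a'al, zl_a', zl_a]
          · rw [ey, h.zl_b', hxy]
          · rw [ec, h.zl_c, h0]
        · by_cases e3 : d = G.al b
          · rw [e3, G.al_al b (h.tf.sub h.bmem), h.zl_b, ex]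
          · by_cases e4 : d = G.al b'
            · rw [e4, G.al_al b' (h.tf.sub h.b'mem), h.zl_b', ey, hxy]
            · by_cases e5 : d = G.al c'
              · rw [e5, G.al_al c' h.c'mem, h.zl_c, ec, h0]
              · have k := h.keep hd e1 e2 e3 e4 e5
                rw [h.zl_else z1 k.1 k.2.1, h.zl_else z1 e1 e2]
                have := hw.sym d (h.mem_gr.2 ⟨hd, e1, e2⟩)
                rwa [show h.gr.al d = G.al d from jal_else e3 e4 e5] at this
    · intro v hv
      by_cases e1 : v = G.pi τ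
      · have h1 : (G.ds.filter fun d => G.pi d = v) = {τ, a, b} := by
          ext d
          rw [mem_filter, mem_insert, mem_insert, mem_singleton]
          constructor
          · rintro ⟨d1, d2⟩
            exact h.at_u d1 (by rw [d2, e1])
          · rintro (rfl | rfl | rfl)
            · exact ⟨h.tmem, e1.symm⟩
            · exact ⟨h.tf.sub h.amem, by rw [h.pa, e1]⟩
            · exact ⟨h.tf.sub h.bmem, by rw [h.pb, e1]⟩
        have n := h.ne_all
        rw [h1, sum_insert, sum_pair h.ab, h.zl_t, zl_a, h.zl_b, e1, ht]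
        · omega
        · rw [mem_insert, mem_singleton]
          exact fun e => e.elim n.2.2.1 n.2.2.2.2.1
      · by_cases e2 : v = G.pi a'
        · have h1 : (G.ds.filter fun d => G.pi d = v) = {c', a', b'} := by
            ext d
            rw [mem_filter, mem_insert, mem_insert, mem_singleton]
            constructor
            · rintro ⟨d1, d2⟩
              rcases h.at_u' d1 (by rw [d2, e2]) with e | e | e
              · exact Or.inr (Or.inl e)
              · exact Or.inr (Or.inr e)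
              · exact Or.inl e
            · rintro (rfl | rfl | rfl)
              · exact ⟨h.c'mem, by rw [h.pc', e2]⟩
              · exact ⟨h.tf.sub h.a'mem, e2.symm⟩
              · exact ⟨h.tf.sub h.b'mem, by rw [h.pb', e2]⟩
          have n := h.ne_all.2.2.2.2.2.2
          rw [h1, sum_insert, sum_pair h.ab', h.zl_c, zl_a', h.zl_b', e2, ht']
          · omega
          · rw [mem_insert, mem_singleton]
            exact fun e => e.elim n.2.1 n.2.2.2
        · have h1 := hw.sum v (h.mem_vs.2 ⟨hv, e1, e2⟩)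
          have h2 : (h.gr.ds.filter fun d => h.gr.pi d = v) = G.ds.filter fun d => G.pi d = v := by
            ext d
            rw [mem_filter, mem_filter, h.mem_gr]
            show _ ∧ G.pi d = v ↔ _
            constructor
            · rintro ⟨⟨d1, -⟩, d2⟩
              exact ⟨d1, d2⟩
            · rintro ⟨d1, d2⟩
              exact ⟨⟨d1, by rw [d2]; exact e1, by rw [d2]; exact e2⟩, d2⟩
          rw [← h1, h2]
          congr 1
          refine sum_congr rfl fun d hd => ?_
          rw [mem_filter] at hd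
          exact h.zl_else z1 (by rw [hd.2]; exact e1) (by rw [hd.2]; exact e2)
  refine ⟨hWZ, ?_⟩
  intro W hW hWo
  -- the set without `u`, `u'`
  set W' := (W.erase (G.pi τ)).erase (G.pi a') with hW'
  have hsub : W' ⊆ h.gr.vs := by
    intro v hv
    rw [hW', mem_erase, mem_erase] at hv
    exact h.mem_vs.2 ⟨hW hv.2.2, hv.2.1, hv.1⟩
  have mm : ∀ v, v ≠ G.pi τ → v ≠ G.pi a' → (v ∈ W' ↔ v ∈ W) := by
    intro v h1 h2
    rw [hW', mem_erase, mem_erase]
    exact ⟨fun e => e.2.2, fun e => ⟨h2, h1, e⟩⟩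
  have mx := mm _ h.x_out.2.1 h.x_out.2.2
  have my := mm _ h.y_out.2.1 h.y_out.2.2
  have htW : ∑ v ∈ W, t v = ∑ v ∈ W', t v := by
    have h1 : ∀ (W : Finset V) (v : V), t v = 0 → ∑ w ∈ W.erase v, t w = ∑ w ∈ W, t w := by
      intro W v hv
      by_cases h2 : v ∈ W
      · rw [← sum_erase_add _ _ h2, hv, add_zero]
      · rw [erase_eq_of_notMem h2]
    rw [hW', h1 _ _ ht', h1 _ _ ht]
  have hcore : core G τ b a' b' c' (zl G τ a b a' b' c' z1) W' = core G τ b a' b' c' z1 W' := by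
    unfold core
    refine sum_congr rfl fun d hd => ?_
    unfold R at hd
    rw [mem_filter] at hd
    rw [h.zl_else z1 hd.2.1.1 hd.2.1.2]
  have hold := h.zc_old (W := W) (zl G τ a b a' b' c' z1) t
  rw [← hW', hcore, htW, ex, ey, ec, h.zl_t, zl_a, h.zl_b, zl_a', h.zl_b', h.zl_c, hxy, h0] at hold
  have hnew := h.zc_gr (W := W') z1 t
  rw [hxy, h0] at hnew
  simp only [ite_self, add_zero, mx, my] at hnew hold
  -- parity of the sets
  by_cases hu : G.pi τ ∈ W
  · by_cases hu' : G.pi a' ∈ W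
    · have hc : W'.card + 2 = W.card := by
        have c1 := card_erase_add_one hu
        have c2 : W'.card + 1 = (W.erase (G.pi τ)).card :=
          card_erase_add_one (mem_erase.2 ⟨h.uu.symm, hu'⟩)
        omega
      have ho : Odd W'.card := by
        rw [Nat.odd_iff] at hWo ⊢
        omega
      have h3 := hb W' hsub ho
      by_cases hx : G.pi (G.al b) ∈ W <;> by_cases hy : G.pi (G.al b') ∈ W <;>
        simp only [hu, hu', hx, hy, true_and, false_and, and_true, and_false, not_true,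
          not_false_iff, if_true, if_false, and_self, add_zero, zero_add] at hold hnew <;> omega
    · have hc : W'.card + 1 = W.card := by
        have c2 : W' = W.erase (G.pi τ) :=
          erase_eq_of_notMem fun e => hu' (mem_erase.1 e).2
        rw [c2]
        exact card_erase_add_one hu
      have hdrop : G.pi (G.al b) ∈ W → G.pi (G.al b') ∉ W → 2 * z1 (G.al b) ≤ h.gr.zc z1 t W' := by
        intro hx hy
        have hxs : G.al b ∈ h.gr.sx W' := by
          refine mem_sx.2 ⟨hxm, mx.2 hx, Or.inr ?_⟩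
          show G.pi (jal G b b' c' (G.al b)) ∉ W'
          rw [jal_x, my]
          exact hy
        have h4 := hw.erase hsub (mx.2 hx) hxs rfl
        have ho : Odd (W'.erase (G.pi (G.al b))).card := by
          have c3 := card_erase_add_one (mx.2 hx)
          rw [Nat.odd_iff] at hWo ⊢
          omega
        have h5 := hb _ ((erase_subset _ _).trans hsub) ho
        omega
      by_cases hx : G.pi (G.al b) ∈ W <;> by_cases hy : G.pi (G.al b') ∈ W <;>
        simp only [hu, hu', hx, hy, true_and, false_and, and_true, and_false, not_true,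
          not_false_iff, if_true, if_false, and_self, add_zero, zero_add, forall_const, true_imp_iff,
          false_imp_iff] at hold hnew hdrop <;> omega
  · by_cases hu' : G.pi a' ∈ W
    · have hc : W'.card + 1 = W.card := by
        have c1 : W.erase (G.pi τ) = W := erase_eq_of_notMem hu
        rw [hW', c1]
        exact card_erase_add_one hu'
      have hdrop : G.pi (G.al b') ∈ W → G.pi (G.al b) ∉ W → 2 * z1 (G.al b) ≤ h.gr.zc z1 t W' := by
        intro hy hx
        have hys : G.al b' ∈ h.gr.sx W' := by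
          refine mem_sx.2 ⟨hym, my.2 hy, Or.inr ?_⟩
          show G.pi (jal G b b' c' (G.al b')) ∉ W'
          rw [h.jal_y, mx]
          exact hx
        have h4 := hw.erase hsub (my.2 hy) hys rfl
        rw [hxy] at h4
        have ho : Odd (W'.erase (G.pi (G.al b'))).card := by
          have c3 := card_erase_add_one (my.2 hy)
          rw [Nat.odd_iff] at hWo ⊢
          omega
        have h5 := hb _ ((erase_subset _ _).trans hsub) ho
        omega
      by_cases hx : G.pi (G.al b) ∈ W <;> by_cases hy : G.pi (G.al b') ∈ W <;>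
        simp only [hu, hu', hx, hy, true_and, false_and, and_true, and_false, not_true,
          not_false_iff, if_true, if_false, and_self, add_zero, zero_add, forall_const, true_imp_iff,
          false_imp_iff] at hold hnew hdrop <;> omega
    · have hc : W' = W := by
        rw [hW', erase_eq_of_notMem hu, erase_eq_of_notMem hu']
      have h3 := hb W' hsub (by rw [hc]; exact hWo)
      by_cases hx : G.pi (G.al b) ∈ W <;> by_cases hy : G.pi (G.al b') ∈ W <;>
        simp only [hu, hu', hx, hy, true_and, false_and, and_true, and_false, not_true,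
          not_false_iff, if_true, if_false, and_self, add_zero, zero_add] at hold hnew <;> omega

/-! ### the new graph is a patch -/

/-- degrees of the new graph, sets which do not contain both ends of the new edge -/
lemma dg_no {W : Finset V} (hW : W ⊆ h.gr.vs)
    (hn : ¬ (G.pi (G.al b) ∈ W ∧ G.pi (G.al b') ∈ W)) : G.dg W = h.gr.dg W := by
  have hu : G.pi τ ∉ W := fun e => (h.mem_vs.1 (hW e)).2.1 rfl
  have hu' : G.pi a' ∉ W := fun e => (h.mem_vs.1 (hW e)).2.2 rfl
  have h1 := h.zc_old (W := W) (fun _ => 1) (fun _ => 0)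
  have h2 := h.zc_gr (W := W) (fun _ => 1) (fun _ => 0)
  rw [zc_one, erase_eq_of_notMem hu, erase_eq_of_notMem hu'] at h1
  rw [zc_one] at h2
  by_cases hx : G.pi (G.al b) ∈ W <;> by_cases hy : G.pi (G.al b') ∈ W <;>
    simp only [hu, hu', hx, hy, true_and, false_and, and_true, and_false, not_true,
      not_false_iff, if_true, if_false, and_self, add_zero, zero_add] at h1 h2 hn <;> omega

/-- degrees of the new graph, sets containing both ends of the new edge -/
lemma dg_both {W : Finset V} (hW : W ⊆ h.gr.vs) (hx : G.pi (G.al b) ∈ W)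
    (hy : G.pi (G.al b') ∈ W) :
    G.dg (insert (G.pi τ) (insert (G.pi a') W)) =
      h.gr.dg W + (if G.pi (G.al c') ∈ W then 0 else 2) := by
  have hu : G.pi τ ∉ W := fun e => (h.mem_vs.1 (hW e)).2.1 rfl
  have hu' : G.pi a' ∉ W := fun e => (h.mem_vs.1 (hW e)).2.2 rfl
  have h1 := h.zc_old (W := insert (G.pi τ) (insert (G.pi a') W)) (fun _ => 1) (fun _ => 0)
  have h2 := h.zc_gr (W := W) (fun _ => 1) (fun _ => 0)
  have e1 : (insert (G.pi τ) (insert (G.pi a') W)).erase (G.pi τ) = insert (G.pi a') W := by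
    rw [erase_insert]
    rw [mem_insert]
    exact fun e => e.elim h.uu hu
  have e2 : (insert (G.pi a') W).erase (G.pi a') = W := erase_insert hu'
  rw [zc_one, e1, e2] at h1
  rw [zc_one] at h2
  have m1 : G.pi τ ∈ insert (G.pi τ) (insert (G.pi a') W) := mem_insert_self _ _
  have m2 : G.pi a' ∈ insert (G.pi τ) (insert (G.pi a') W) :=
    mem_insert_of_mem (mem_insert_self _ _)
  have m3 : G.pi (G.al b) ∈ insert (G.pi τ) (insert (G.pi a') W) :=
    mem_insert_of_mem (mem_insert_of_mem hx)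
  have m4 : G.pi (G.al b') ∈ insert (G.pi τ) (insert (G.pi a') W) :=
    mem_insert_of_mem (mem_insert_of_mem hy)
  have m5 : G.pi (G.al c') ∈ insert (G.pi τ) (insert (G.pi a') W) ↔ G.pi (G.al c') ∈ W := by
    rw [mem_insert, mem_insert]
    constructor
    · rintro (e | e | e)
      · exact absurd e h.c_out.2.2.1
      · exact absurd e h.c_out.2.2.2
      · exact e
    · exact fun e => Or.inr (Or.inr e)
  by_cases hc : G.pi (G.al c') ∈ W <;>
    simp only [m1, m2, m3, m4, m5, hx, hy, hc, true_and, false_and, and_true, and_false, not_true,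
      not_false_iff, if_true, if_false, and_self, add_zero, zero_add, sum_const_zero] at h1 h2 ⊢ <;>
    omega

lemma card_both {W : Finset V} (hW : W ⊆ h.gr.vs) :
    (insert (G.pi τ) (insert (G.pi a') W)).card = W.card + 2 := by
  have hu : G.pi τ ∉ W := fun e => (h.mem_vs.1 (hW e)).2.1 rfl
  have hu' : G.pi a' ∉ W := fun e => (h.mem_vs.1 (hW e)).2.2 rfl
  rw [card_insert_of_notMem, card_insert_of_notMem hu']
  rw [mem_insert]
  exact fun e => e.elim h.uu hu

lemma sub_both {W : Finset V} (hW : W ⊆ h.gr.vs) :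
    insert (G.pi τ) (insert (G.pi a') W) ⊆ G.vs := by
  intro v hv
  rw [mem_insert, mem_insert] at hv
  rcases hv with rfl | rfl | hv
  · exact G.pi_mem _ h.tmem
  · exact G.pi_mem _ (h.tf.sub h.a'mem)
  · exact (h.mem_vs.1 (hW hv)).1

/-- the new 2-factor -/
noncomputable def F1 (G : CG V D) (F : Finset D) (τ a' : D) : Finset D :=
  F.filter fun d => G.pi d ≠ G.pi τ ∧ G.pi d ≠ G.pi a'

omit h in
lemma mem_F1 {d : D} : d ∈ F1 G F τ a' ↔ d ∈ F ∧ G.pi d ≠ G.pi τ ∧ G.pi d ≠ G.pi a' := mem_filter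

lemma F_al {d : D} (hd : d ∈ F1 G F τ a') (h1 : d ≠ G.al b) (h2 : d ≠ G.al b') :
    h.gr.al d = G.al d ∧ G.al d ∈ F1 G F τ a' := by
  rw [mem_F1] at hd
  have h3 : d ≠ G.al c' := fun e => h.c_out.2.1 (by rw [← e]; exact hd.1)
  have k := h.keep (h.tf.sub hd.1) hd.2.1 hd.2.2 h1 h2 h3
  exact ⟨jal_else h1 h2 h3, mem_F1.2 ⟨h.tf.al d hd.1, k.1, k.2.1⟩⟩

theorem tf_gr : h.gr.Tf (F1 G F τ a') := by
  refine ⟨?_, ?_, ?_, ?_⟩
  · intro d hd
    rw [mem_F1] at hd
    exact h.mem_gr.2 ⟨h.tf.sub hd.1, hd.2⟩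
  · intro d hd
    by_cases e1 : d = G.al b
    · rw [e1, show h.gr.al (G.al b) = G.al b' from jal_x]
      exact mem_F1.2 h.y_out
    · by_cases e2 : d = G.al b'
      · rw [e2, show h.gr.al (G.al b') = G.al b from h.jal_y]
        exact mem_F1.2 h.x_out
      · rw [(h.F_al hd e1 e2).1]
        exact (h.F_al hd e1 e2).2
  · intro d hd
    by_cases e1 : d = G.al b
    · rw [e1, show h.gr.al (G.al b) = G.al b' from jal_x]
      exact h.xy.symm
    · by_cases e2 : d = G.al b'
      · rw [e2, show h.gr.al (G.al b') = G.al b from h.jal_y]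
        exact h.xy
      · rw [(h.F_al hd e1 e2).1]
        exact h.tf.tok d (mem_F1.1 hd).1
  · intro v hv
    rw [h.mem_vs] at hv
    rw [← h.tf.two v hv.1]
    congr 1
    ext d
    rw [mem_filter, mem_filter, mem_F1]
    show _ ∧ G.pi d = v ↔ _
    constructor
    · rintro ⟨⟨d1, -⟩, d2⟩
      exact ⟨d1, d2⟩
    · rintro ⟨d1, d2⟩
      exact ⟨⟨d1, by rw [d2]; exact hv.2.1, by rw [d2]; exact hv.2.2⟩, d2⟩

/-- closed sets of the new graph -/
lemma closed {W : Finset V} (hW : W ⊆ h.gr.vs)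
    (hc : ∀ d ∈ F1 G F τ a', G.pi d ∈ W → G.pi (h.gr.al d) ∈ W) :
    (¬ (G.pi (G.al b) ∈ W ∧ G.pi (G.al b') ∈ W) ∧ ∀ d ∈ F, G.pi d ∈ W → G.pi (G.al d) ∈ W) ∨
    ((G.pi (G.al b) ∈ W ∧ G.pi (G.al b') ∈ W) ∧
      ∀ d ∈ F, G.pi d ∈ insert (G.pi τ) (insert (G.pi a') W) →
        G.pi (G.al d) ∈ insert (G.pi τ) (insert (G.pi a') W)) := by
  have hx := hc (G.al b) (mem_F1.2 h.x_out)
  have hy := hc (G.al b') (mem_F1.2 h.y_out)
  rw [show h.gr.al (G.al b) = G.al b' from jal_x] at hx
  rw [show h.gr.al (G.al b') = G.al b from h.jal_y] at hy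
  by_cases hb : G.pi (G.al b) ∈ W
  · right
    refine ⟨⟨hb, hx hb⟩, ?_⟩
    intro d hd h1
    by_cases e1 : G.pi d = G.pi τ
    · rcases h.at_u (h.tf.sub hd) e1 with rfl | rfl | rfl
      · exact absurd hd h.tF
      · rw [h.ala]
        exact mem_insert_of_mem (mem_insert_self _ _)
      · exact mem_insert_of_mem (mem_insert_of_mem hb)
    · by_cases e2 : G.pi d = G.pi a'
      · rcases h.at_u' (h.tf.sub hd) e2 with rfl | rfl | rfl
        · rw [h.a'al, h.pa]
          exact mem_insert_self _ _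
        · exact mem_insert_of_mem (mem_insert_of_mem (hx hb))
        · exact absurd hd h.c'F
      · have h2 : G.pi d ∈ W := by
          rw [mem_insert, mem_insert] at h1
          exact (h1.resolve_left e1).resolve_left e2
        by_cases e3 : d = G.al b
        · rw [e3, G.al_al b (h.tf.sub h.bmem), h.pb]
          exact mem_insert_self _ _
        · by_cases e4 : d = G.al b'
          · rw [e4, G.al_al b' (h.tf.sub h.b'mem), h.pb']
            exact mem_insert_of_mem (mem_insert_self _ _)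
          · have h3 := hc d (mem_F1.2 ⟨hd, e1, e2⟩) h2
            rw [(h.F_al (mem_F1.2 ⟨hd, e1, e2⟩) e3 e4).1] at h3
            exact mem_insert_of_mem (mem_insert_of_mem h3)
  · left
    refine ⟨fun e => hb e.1, ?_⟩
    intro d hd h1
    have e1 : G.pi d ≠ G.pi τ := (h.mem_vs.1 (hW h1)).2.1
    have e2 : G.pi d ≠ G.pi a' := (h.mem_vs.1 (hW h1)).2.2
    have e3 : d ≠ G.al b := fun e => hb (by rw [← e]; exact h1)
    have e4 : d ≠ G.al b' := fun e => hb (hy (by rw [← e]; exact h1))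
    have h3 := hc d (mem_F1.2 ⟨hd, e1, e2⟩) h1
    rwa [(h.F_al (mem_F1.2 ⟨hd, e1, e2⟩) e3 e4).1] at h3

/-- **the new graph is a patch**, if no closed set of degree 4 or 5 contains `u` but not `o` -/
theorem lp (hL : G.LP F) (hno : ∀ X ⊆ G.vs, (∀ d ∈ F, G.pi d ∈ X → G.pi (G.al d) ∈ X) →
    G.pi τ ∈ X → G.pi (G.al c') ∉ X → 6 ≤ G.dg X) : h.gr.LP (F1 G F τ a') := by
  have tf := h.tf_gr
  -- closed sets
  have key : ∀ W ⊆ h.gr.vs, W.Nonempty →
      (∀ d ∈ F1 G F τ a', G.pi d ∈ W → G.pi (h.gr.al d) ∈ W) →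
      3 ≤ h.gr.dg W ∧ (Odd W.card → 5 ≤ h.gr.dg W) := by
    intro W hW hn hc
    rcases h.closed hW hc with ⟨h1, h2⟩ | ⟨⟨h1, h1'⟩, h2⟩
    · rw [← h.dg_no hW h1]
      have hs : W ⊆ G.vs := fun v hv => (h.mem_vs.1 (hW hv)).1
      exact ⟨hL.even3 W hs hn h2, fun ho => hL.odd5 W hs ho h2⟩
    · have h3 := h.dg_both hW h1 h1'
      have hs := h.sub_both hW
      have hcard := h.card_both hW
      by_cases ho : G.pi (G.al c') ∈ W
      · rw [if_pos ho, add_zero] at h3
        rw [← h3]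
        refine ⟨hL.even3 _ hs ⟨_, mem_insert_self _ _⟩ h2, fun hO => hL.odd5 _ hs ?_ h2⟩
        rw [hcard]
        rw [Nat.odd_iff] at hO ⊢
        omega
      · rw [if_neg ho] at h3
        have ho' : G.pi (G.al c') ∉ insert (G.pi τ) (insert (G.pi a') W) := by
          rw [mem_insert, mem_insert]
          rintro (e | e | e)
          · exact h.c_out.2.2.1 e
          · exact h.c_out.2.2.2 e
          · exact ho e
        have h4 := hno _ hs h2 (mem_insert_self _ _) ho'
        refine ⟨by omega, fun hO => ?_⟩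
        have h5 := (h.gr.dg_parity hW).2 hO
        rw [Nat.odd_iff] at h5
        omega
  have cl1 : ∀ W ⊆ h.gr.vs, W.Nonempty → h.gr.dg W ≤ 1 → False := by
    intro W hW hn h1
    have := (key W hW hn (tf.closed_le_one hW h1)).1
    omega
  refine ⟨tf, ?_, ?_, ?_, ?_⟩
  · intro W hW hO
    have hn : W.Nonempty := by
      rw [nonempty_iff_ne_empty]
      rintro rfl
      rw [card_empty] at hO
      exact absurd hO (by decide)
    have h5 := (h.gr.dg_parity hW).2 hO
    rw [Nat.odd_iff] at h5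
    by_contra h6
    exact cl1 W hW hn (by omega)
  · intro W hW hO hc
    have hn : W.Nonempty := by
      rw [nonempty_iff_ne_empty]
      rintro rfl
      rw [card_empty] at hO
      exact absurd hO (by decide)
    exact (key W hW hn hc).2 hO
  · intro W hW hn
    by_contra h6
    exact cl1 W hW hn (by omega)
  · intro W hW hn hc
    exact (key W hW hn hc).1

/-- tokens of the new graph -/
theorem tk_gr : h.gr.tk h.gr.vs = insert (G.al c') ((G.tk G.vs).erase τ) := by
  ext d
  rw [mem_insert, mem_erase, h.gr.mem_tk, G.mem_tk, h.mem_gr]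
  constructor
  · rintro ⟨⟨h1, h2, h3⟩, -, h4⟩
    by_cases e5 : d = G.al c'
    · exact Or.inl e5
    · right
      by_cases e3 : d = G.al b
      · rw [e3, show h.gr.al (G.al b) = G.al b' from jal_x] at h4
        exact absurd h4.symm h.xy
      · by_cases e4 : d = G.al b'
        · rw [e4, show h.gr.al (G.al b') = G.al b from h.jal_y] at h4
          exact absurd h4 h.xy
        · rw [show h.gr.al d = G.al d from jal_else e3 e4 e5] at h4
          exact ⟨fun e => h2 (by rw [e]), h1, G.pi_mem d h1, h4⟩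
  · rintro (rfl | ⟨h0, h1, -, h4⟩)
    · refine ⟨⟨h.c_out.1, h.c_out.2.2⟩, ?_, h.jal_c⟩
      exact h.mem_vs.2 ⟨G.pi_mem _ h.c_out.1, h.c_out.2.2⟩
    · have e1 : G.pi d ≠ G.pi τ := by
        intro e
        rcases h.at_u h1 e with rfl | rfl | rfl
        · exact h0 rfl
        · exact h.tf.tok _ h.amem h4
        · exact h.tf.tok _ h.bmem h4
      have e2 : G.pi d ≠ G.pi a' := by
        intro e
        rcases h.at_u' h1 e with rfl | rfl | rfl
        · exact h.tf.tok _ h.a'mem h4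
        · exact h.tf.tok _ h.b'mem h4
        · exact h.alc h4
      have e3 : d ≠ G.al b := fun e => h.tf.tok _ h.x_out.1 (by rw [← e]; exact h4)
      have e4 : d ≠ G.al b' := fun e => h.tf.tok _ h.y_out.1 (by rw [← e]; exact h4)
      have e5 : d ≠ G.al c' := by
        intro e
        rw [e, G.al_al c' h.c'mem] at h4
        exact h.alc h4.symm
      refine ⟨⟨h1, e1, e2⟩, h.mem_vs.2 ⟨G.pi_mem d h1, e1, e2⟩, ?_⟩
      rw [show h.gr.al d = G.al d from jal_else e3 e4 e5]
      exact h4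

theorem card_tk : (h.gr.tk h.gr.vs).card = (G.tk G.vs).card := by
  have h1 : τ ∈ G.tk G.vs := (G.mem_tk).2 ⟨h.tmem, G.pi_mem _ h.tmem, h.alt⟩
  rw [h.tk_gr, card_insert_of_notMem, card_erase_add_one h1]
  rw [mem_erase, G.mem_tk, G.al_al c' h.c'mem]
  exact fun e => h.alc e.2.2.2.symm

theorem card_gr : h.gr.vs.card + 2 = G.vs.card := by
  show (G.vs \ {G.pi τ, G.pi a'}).card + 2 = G.vs.card
  have h1 : ({G.pi τ, G.pi a'} : Finset V) ⊆ G.vs := by
    intro v hv
    rw [mem_insert, mem_singleton] at hv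
    rcases hv with rfl | rfl
    · exact G.pi_mem _ h.tmem
    · exact G.pi_mem _ (h.tf.sub h.a'mem)
  have h2 := card_sdiff_add_card_inter G.vs {G.pi τ, G.pi a'}
  rw [inter_eq_right.2 h1, card_pair h.uu] at h2
  exact h2

/-- solutions lift: the new token is the other end of `c'` -/
theorem ls {τ2 : D} (h2 : τ2 ∈ G.tk G.vs) (h12 : τ2 ≠ τ) {z1 : D → ℕ}
    (hz : h.gr.LS (F1 G F τ a') (G.al c') τ2 z1) : G.LS F τ τ2 (zl G τ a b a' b' c' z1) := by
  obtain ⟨e1, e2⟩ := h.lift (t := fun _ => 0) rfl rfl hz.zw hz.zb hz.z1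
  have htk : ∀ d ∈ G.tk G.vs, d ≠ τ → d ∈ h.gr.tk h.gr.vs := by
    intro d hd hne
    rw [h.tk_gr]
    exact mem_insert_of_mem (mem_erase.2 ⟨hne, hd⟩)
  have hval : ∀ d ∈ G.tk G.vs, d ≠ τ → zl G τ a b a' b' c' z1 d = z1 d := by
    intro d hd hne
    have h3 := (h.gr.mem_tk).1 (htk d hd hne)
    have h4 := h.mem_gr.1 h3.1
    exact h.zl_else z1 h4.2.1 h4.2.2
  refine ⟨e1, e2, ?_, h.zl_t z1, ?_, ?_⟩
  · intro d hd hF
    by_cases u1 : G.pi d = G.pi τ
    · rcases h.at_u hd u1 with rfl | rfl | rfl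
      · rw [h.zl_t]
        exact Nat.zero_le _
      · exact absurd h.amem hF
      · exact absurd h.bmem hF
    · by_cases u2 : G.pi d = G.pi a'
      · rcases h.at_u' hd u2 with rfl | rfl | rfl
        · exact absurd h.a'mem hF
        · exact absurd h.b'mem hF
        · rw [h.zl_c]
          exact Nat.zero_le _
      · rw [h.zl_else z1 u1 u2]
        exact hz.le d (h.mem_gr.2 ⟨hd, u1, u2⟩) fun e => hF (mem_F1.1 e).1
  · rw [hval τ2 h2 h12]
    exact hz.z2
  · intro d hd hne hne2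
    rw [hval d hd hne]
    refine hz.one d (htk d hd hne) (fun e => ?_) hne2
    rw [e, G.mem_tk, G.al_al c' h.c'mem] at hd
    exact h.alc hd.2.2.symm

/-- **J-STEP**: with the fixed-end theorem for smaller patches, `τ` and any other token, unless a
closed set of degree 4 or 5 contains `u` and not `o` -/
theorem red (hL : G.LP F) {n : ℕ} (hn : (G.tk G.vs).card = n)
    (ih : ∀ m < G.vs.card, HB V D n m)
    (hno : ∀ X ⊆ G.vs, (∀ d ∈ F, G.pi d ∈ X → G.pi (G.al d) ∈ X) →
      G.pi τ ∈ X → G.pi (G.al c') ∉ X → 6 ≤ G.dg X)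
    {τ2 : D} (h2 : τ2 ∈ G.tk G.vs) (h12 : τ2 ≠ τ) : ∃ z, G.LS F τ τ2 z := by
  have hc := h.card_gr
  have h3 : G.al c' ∈ h.gr.tk h.gr.vs := by
    rw [h.tk_gr]
    exact mem_insert_self _ _
  have h4 : τ2 ∈ h.gr.tk h.gr.vs := by
    rw [h.tk_gr]
    exact mem_insert_of_mem (mem_erase.2 ⟨h12, h2⟩)
  have h5 : G.al c' ≠ τ2 := by
    intro e
    rw [← e, G.mem_tk, G.al_al c' h.c'mem] at h2
    exact h.alc h2.2.2.symm
  obtain ⟨z, hz⟩ := ih h.gr.vs.card (by omega) h.gr _ (le_refl _) (h.lp hL hno)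
    (by rw [h.card_tk]; exact hn) _ h3 _ h4 h5
  exact ⟨_, h.ls h2 h12 hz⟩

end JS

/-- the data of a J-step exist: `τ` a token, `a` a dart of `F` at the same vertex, and the third dart
at the neighbour is not a token -/
theorem LP.exists_js {G : CG V D} {F : Finset D} (hL : G.LP F) {τ a : D} (h1 : τ ∈ G.tk G.vs)
    (ha : a ∈ F) (hp : G.pi a = G.pi τ) :
    ∃ b b' c', (G.al c' ≠ c' → G.JS F τ a b (G.al a) b' c') ∧ c' ∈ G.ds ∧ c' ∉ F ∧
      G.pi c' = G.pi (G.al a) := by
  rw [G.mem_tk] at h1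
  have tF : τ ∉ F := fun e => hL.tf.tok _ e h1.2.2
  have ha' := hL.tf.al a ha
  -- second dart of `F` at a vertex
  have sec : ∀ d ∈ F, ∃ e ∈ F, G.pi e = G.pi d ∧ d ≠ e := by
    intro d hd
    obtain ⟨x, y, hxy, hs⟩ := card_eq_two.1 (hL.tf.two _ (G.pi_mem _ (hL.tf.sub hd)))
    have hdm : d ∈ F.filter fun e => G.pi e = G.pi d := mem_filter.2 ⟨hd, rfl⟩
    have hx : x ∈ F.filter fun e => G.pi e = G.pi d := by rw [hs]; simp
    have hy : y ∈ F.filter fun e => G.pi e = G.pi d := by rw [hs]; simp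
    rw [mem_filter] at hx hy
    rw [hs, mem_insert, mem_singleton] at hdm
    rcases hdm with rfl | rfl
    · exact ⟨y, hy.1, hy.2, hxy⟩
    · exact ⟨x, hx.1, hx.2, hxy.symm⟩
  obtain ⟨b, hb, hbp, hab⟩ := sec a ha
  obtain ⟨b', hb', hbp', hab'⟩ := sec _ ha'
  -- the third dart at `u'`
  obtain ⟨c', hc'⟩ := card_eq_one.1 (hL.tf.one (G.pi_mem _ (hL.tf.sub ha')))
  have hcm : c' ∈ (G.ds \ F).filter fun d => G.pi d = G.pi (G.al a) := by
    rw [hc']
    exact mem_singleton_self _
  rw [mem_filter, mem_sdiff] at hcm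
  -- the third dart at `u` is `τ`
  have h3τ : ∀ d ∈ G.ds, d ∉ F → G.pi d = G.pi τ → d = τ := by
    intro d hd hdF hdp
    obtain ⟨x, hx⟩ := card_eq_one.1 (hL.tf.one (G.pi_mem _ h1.1))
    have m1 : d ∈ (G.ds \ F).filter fun e => G.pi e = G.pi τ :=
      mem_filter.2 ⟨mem_sdiff.2 ⟨hd, hdF⟩, hdp⟩
    have m2 : τ ∈ (G.ds \ F).filter fun e => G.pi e = G.pi τ :=
      mem_filter.2 ⟨mem_sdiff.2 ⟨h1.1, tF⟩, rfl⟩
    rw [hx, mem_singleton] at m1 m2
    rw [m1, m2]
  have twoF : ∀ x y d : D, x ∈ F → y ∈ F → d ∈ F → x ≠ y → G.pi y = G.pi x → G.pi d = G.pi x →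
      d = x ∨ d = y := by
    intro x y d hx hy hd hxy hp1 hp2
    obtain ⟨p, q, hpq, hs⟩ := card_eq_two.1 (hL.tf.two _ (G.pi_mem _ (hL.tf.sub hx)))
    have m1 : x ∈ F.filter fun e => G.pi e = G.pi x := mem_filter.2 ⟨hx, rfl⟩
    have m2 : y ∈ F.filter fun e => G.pi e = G.pi x := mem_filter.2 ⟨hy, hp1⟩
    have m3 : d ∈ F.filter fun e => G.pi e = G.pi x := mem_filter.2 ⟨hd, hp2⟩
    rw [hs, mem_insert, mem_singleton] at m1 m2 m3
    rcases m1 with rfl | rfl <;> rcases m2 with rfl | rfl <;> rcases m3 with rfl | rfl <;>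
      first
        | exact absurd rfl hxy
        | exact Or.inl rfl
        | exact Or.inr rfl
  refine ⟨b, b', c', ?_, hcm.1.1, hcm.1.2, hcm.2⟩
  intro hct
  -- no loop at `u`
  have uu : G.pi τ ≠ G.pi (G.al a) := by
    intro e
    have hclo : ∀ d ∈ F, G.pi d ∈ ({G.pi τ} : Finset V) → G.pi (G.al d) ∈ ({G.pi τ} : Finset V) := by
      intro d hd hdp
      rw [mem_singleton] at hdp ⊢
      have haa : a ≠ G.al a := fun e' => hL.tf.tok a ha e'.symm
      rcases twoF a (G.al a) d ha ha' hd haa (by rw [← e, hp]) (by rw [hdp, hp]) with rfl | rfl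
      · exact e.symm
      · rw [G.al_al a (hL.tf.sub ha)]
        exact hp
    have h5 := hL.odd5 {G.pi τ} (singleton_subset_iff.2 (G.pi_mem _ h1.1)) (by
      rw [card_singleton]; decide) hclo
    have h6 : G.dg {G.pi τ} ≤ 3 := by
      rw [dg_sx, ← G.cubic _ (G.pi_mem _ h1.1)]
      refine card_le_card fun d hd => ?_
      obtain ⟨d1, d2, -⟩ := mem_sx.1 hd
      exact mem_filter.2 ⟨d1, mem_singleton.1 d2⟩
    omega
  refine ⟨hL.tf, h1.1, ha, hb, ha', hb', hcm.1.1, tF, hcm.1.2, hp, by rw [hbp, hp], hbp', hcm.2,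
    hab, hab', uu, rfl, h1.2.2, hct, ?_⟩
  -- no digon
  intro e
  have hs2 : ({G.pi τ, G.pi (G.al a)} : Finset V) ⊆ G.vs := by
    intro v hv
    rw [mem_insert, mem_singleton] at hv
    rcases hv with rfl | rfl
    · exact G.pi_mem _ h1.1
    · exact G.pi_mem _ (hL.tf.sub ha')
  have hclo : ∀ d ∈ F, G.pi d ∈ ({G.pi τ, G.pi (G.al a)} : Finset V) →
      G.pi (G.al d) ∈ ({G.pi τ, G.pi (G.al a)} : Finset V) := by
    intro d hd hdp
    rw [mem_insert, mem_singleton] at hdp ⊢
    rcases hdp with hdp | hdp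
    · rcases twoF a b d ha hb hd hab hbp (by rw [hdp, hp]) with rfl | rfl
      · exact Or.inr rfl
      · rw [e]
        exact Or.inr hbp'
    · rcases twoF _ b' d ha' hb' hd hab' hbp' hdp with rfl | rfl
      · rw [G.al_al a (hL.tf.sub ha)]
        exact Or.inl hp
      · rw [← e, G.al_al b (hL.tf.sub hb), hbp]
        exact Or.inl hp
  have h5 := hL.even3 _ hs2 ⟨_, mem_insert_self _ _⟩ hclo
  have h6 : G.sx {G.pi τ, G.pi (G.al a)} ⊆ {τ, c'} := by
    intro d hd
    obtain ⟨d1, d2, d3⟩ := mem_sx.1 hd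
    rw [mem_insert, mem_singleton] at d2 ⊢
    have dF : d ∉ F := fun e' => by
      rcases d3 with d3 | d3
      · exact hL.tf.tok d e' d3
      · exact d3 (hclo d e' (by rw [mem_insert, mem_singleton]; exact d2))
    rcases d2 with d2 | d2
    · exact Or.inl (h3τ d d1 dF d2)
    · right
      have m1 : d ∈ (G.ds \ F).filter fun e => G.pi e = G.pi (G.al a) :=
        mem_filter.2 ⟨mem_sdiff.2 ⟨d1, dF⟩, d2⟩
      rw [hc', mem_singleton] at m1
      exact m1
  have h7 := (card_le_card h6).trans (card_le_two)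
  rw [dg_sx] at h5
  omega

end JK.CG
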