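import Pool.Agent.Lib.JK.ZGlue
import Pool.Agent.Lib.JK.FPass

/-! Local theory in z-form (S5, MP_c95763_co): patches. A patch is a graph with tokens (its boundary
edges) and a 2-factor `F`. -/

set_option autoImplicit false

namespace JK.CG

open Finset Classical

variable {V D : Type*} (G : CG V D)

/-- the class of patches: (L1) unions of circuits which are odd have degree at least 5, (L2) odd
vertex sets have degree at least 3, even nonempty sets have degree at least 1 (connected to the root;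
hence at least 2) and closed even sets degree at least 3 (hence at least 4) -/
structure LP (F : Finset D) : Prop where
  tf : G.Tf F
  b0 : G.B0
  odd5 : ∀ X ⊆ G.vs, Odd X.card → (∀ d ∈ F, G.pi d ∈ X → G.pi (G.al d) ∈ X) → 5 ≤ G.dg X
  even1 : ∀ X ⊆ G.vs, X.Nonempty → 1 ≤ G.dg X
  even3 : ∀ X ⊆ G.vs, X.Nonempty → (∀ d ∈ F, G.pi d ∈ X → G.pi (G.al d) ∈ X) → 3 ≤ G.dg X

/-- a solution: bridgeless weights without new tokens, at most 1 outside `F`, zero exactly at the two
tokens `τ1`, `τ2` -/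
structure LS (F : Finset D) (τ1 τ2 : D) (z : D → ℕ) : Prop where
  zw : G.ZW z (fun _ => 0)
  zb : G.ZB z (fun _ => 0)
  le : ∀ d ∈ G.ds, d ∉ F → z d ≤ 1
  z1 : z τ1 = 0
  z2 : z τ2 = 0
  one : ∀ d ∈ G.tk G.vs, d ≠ τ1 → d ≠ τ2 → z d = 1

/-- the fixed-end theorem for patches with at most `n` vertices and `b` tokens -/
def HB (V D : Type*) (b n : ℕ) : Prop := ∀ (G : CG V D) (F : Finset D), G.vs.card ≤ n → G.LP F →
  (G.tk G.vs).card = b → ∀ τ1 ∈ G.tk G.vs, ∀ τ2 ∈ G.tk G.vs, τ1 ≠ τ2 → ∃ z, G.LS F τ1 τ2 z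

end JK.CG
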