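import Pool.Agent.Lib.JK.ZGlueP
import Pool.Agent.Lib.JK.ZLoc

/-! Pentagon replacement (S5, MP_c95763_co): a closed odd set `X` with five legs is replaced by a
pentagon; solutions of the new graph lift. -/

set_option autoImplicit false

namespace JK.CG

open Finset Classical

variable {V D : Type*}

/-- the star of a set: boundary darts and tokens -/
noncomputable def sx (G : CG V D) (X : Finset V) : Finset D :=
  G.ds.filter fun d => G.pi d ∈ X ∧ (G.al d = d ∨ G.pi (G.al d) ∉ X)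

section sx

variable {G : CG V D}

lemma mem_sx {X : Finset V} {d : D} :
    d ∈ G.sx X ↔ d ∈ G.ds ∧ G.pi d ∈ X ∧ (G.al d = d ∨ G.pi (G.al d) ∉ X) := by
  unfold sx
  rw [mem_filter]

lemma sx_eq (X : Finset V) : G.sx X = G.bd X ∪ G.tk X := by
  ext d
  rw [mem_sx, mem_union, G.mem_bd, G.mem_tk]
  tauto

lemma sx_dis (X : Finset V) : Disjoint (G.bd X) (G.tk X) := by
  rw [disjoint_left]
  intro d h1 h2
  rw [G.mem_bd] at h1
  rw [G.mem_tk] at h2
  rw [h2.2.2] at h1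
  exact h1.2.2 h1.2.1

lemma zc_sx (z : D → ℕ) (t : V → ℕ) (X : Finset V) :
    G.zc z t X = ∑ d ∈ G.sx X, z d + ∑ v ∈ X, t v := by
  rw [sx_eq, sum_union (sx_dis X)]
  rfl

lemma dg_sx (X : Finset V) : G.dg X = (G.sx X).card := by
  rw [sx_eq, card_union_of_disjoint (sx_dis X)]
  rfl

lemma zc_one (X : Finset V) : G.zc (fun _ => 1) (fun _ => 0) X = G.dg X := by
  rw [zc_sx, dg_sx, sum_const, sum_const_zero, smul_eq_mul, mul_one, add_zero]

end sx

/-! ### restriction -/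

/-- the graph on `X`, the boundary darts become tokens -/
noncomputable def res (G : CG V D) (X : Finset V) (hX : X ⊆ G.vs) : CG V D where
  vs := X
  ds := G.ds.filter fun d => G.pi d ∈ X
  pi := G.pi
  al := fun d => if G.pi (G.al d) ∈ X then G.al d else d
  pi_mem := fun d hd => (mem_filter.1 hd).2
  al_mem := by
    intro d hd
    rw [mem_filter] at hd
    by_cases h : G.pi (G.al d) ∈ X
    · simp only [h, if_true]
      exact mem_filter.2 ⟨G.al_mem d hd.1, h⟩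
    · simp only [h, if_false]
      exact mem_filter.2 hd
  al_al := by
    intro d hd
    rw [mem_filter] at hd
    by_cases h : G.pi (G.al d) ∈ X
    · simp only [h, if_true, G.al_al d hd.1, hd.2]
    · simp only [h, if_false]
  cubic := by
    intro v hv
    rw [← G.cubic v (hX hv), filter_filter]
    congr 1
    ext d
    simp only [mem_filter]
    constructor
    · rintro ⟨h1, _, h3⟩
      exact ⟨h1, h3⟩
    · rintro ⟨h1, h3⟩
      exact ⟨h1, by rw [h3]; exact hv, h3⟩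

section res

variable {G : CG V D} {X : Finset V} {hX : X ⊆ G.vs}

lemma res_al_in {d : D} (h : G.pi (G.al d) ∈ X) : (G.res X hX).al d = G.al d := if_pos h

lemma res_al_out {d : D} (h : G.pi (G.al d) ∉ X) : (G.res X hX).al d = d := if_neg h

lemma mem_res_ds {d : D} : d ∈ (G.res X hX).ds ↔ d ∈ G.ds ∧ G.pi d ∈ X := mem_filter

lemma res_sx {Y : Finset V} (hY : Y ⊆ X) : (G.res X hX).sx Y = G.sx Y := by
  ext d
  rw [mem_sx, mem_sx, mem_res_ds]
  show (d ∈ G.ds ∧ G.pi d ∈ X) ∧ G.pi d ∈ Y ∧ ((G.res X hX).al d = d ∨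
    G.pi ((G.res X hX).al d) ∉ Y) ↔ _
  by_cases h : G.pi (G.al d) ∈ X
  · rw [res_al_in h]
    constructor
    · rintro ⟨⟨h1, -⟩, h3⟩
      exact ⟨h1, h3⟩
    · rintro ⟨h1, h3⟩
      exact ⟨⟨h1, hY h3.1⟩, h3⟩
  · rw [res_al_out h]
    constructor
    · rintro ⟨⟨h1, -⟩, h3, -⟩
      exact ⟨h1, h3, Or.inr fun h4 => h (hY h4)⟩
    · rintro ⟨h1, h3, -⟩
      exact ⟨⟨h1, hY h3⟩, h3, Or.inl rfl⟩

lemma res_zc {Y : Finset V} (hY : Y ⊆ X) (z : D → ℕ) (t : V → ℕ) :
    (G.res X hX).zc z t Y = G.zc z t Y := by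
  rw [zc_sx, zc_sx, res_sx hY]

lemma res_dg {Y : Finset V} (hY : Y ⊆ X) : (G.res X hX).dg Y = G.dg Y := by
  rw [dg_sx, dg_sx, res_sx hY]

/-- the tokens of the restriction are the legs -/
lemma res_tk : (G.res X hX).tk X = G.sx X := by
  ext d
  rw [mem_tk, mem_res_ds, mem_sx]
  show (d ∈ G.ds ∧ G.pi d ∈ X) ∧ G.pi d ∈ X ∧ (G.res X hX).al d = d ↔ _
  by_cases h : G.pi (G.al d) ∈ X
  · rw [res_al_in h]
    constructor
    · rintro ⟨⟨h1, h2⟩, -, h3⟩
      exact ⟨h1, h2, Or.inl h3⟩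
    · rintro ⟨h1, h2, h3⟩
      exact ⟨⟨h1, h2⟩, h2, h3.resolve_right fun h4 => h4 h⟩
  · rw [res_al_out h]
    constructor
    · rintro ⟨⟨h1, h2⟩, -⟩
      exact ⟨h1, h2, Or.inr h⟩
    · rintro ⟨h1, h2, -⟩
      exact ⟨⟨h1, h2⟩, h2, rfl⟩

/-- restrictions of patches to closed sets are patches -/
theorem LP.res {F : Finset D} (h : G.LP F) (hX : X ⊆ G.vs)
    (hc : ∀ d ∈ F, G.pi d ∈ X → G.pi (G.al d) ∈ X) :
    (G.res X hX).LP (F.filter fun d => G.pi d ∈ X) := by
  have hcl : ∀ Y ⊆ X, (∀ d ∈ F.filter (fun d => G.pi d ∈ X), (G.res X hX).pi d ∈ Y →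
      (G.res X hX).pi ((G.res X hX).al d) ∈ Y) → ∀ d ∈ F, G.pi d ∈ Y → G.pi (G.al d) ∈ Y := by
    intro Y hY h1 d hd h2
    have h3 := h1 d (mem_filter.2 ⟨hd, hY h2⟩) h2
    rwa [res_al_in (hc d hd (hY h2))] at h3
  refine ⟨⟨?_, ?_, ?_, ?_⟩, ?_, ?_, ?_, ?_⟩
  · intro d hd
    rw [mem_filter] at hd
    exact mem_res_ds.2 ⟨h.tf.sub hd.1, hd.2⟩
  · intro d hd
    rw [mem_filter] at hd
    have h1 := hc d hd.1 hd.2
    rw [res_al_in h1]
    exact mem_filter.2 ⟨h.tf.al d hd.1, h1⟩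
  · intro d hd
    rw [mem_filter] at hd
    rw [res_al_in (hc d hd.1 hd.2)]
    exact h.tf.tok d hd.1
  · intro v hv
    have hv' : v ∈ X := hv
    rw [filter_filter, ← h.tf.two v (hX hv')]
    congr 1
    ext d
    rw [mem_filter, mem_filter]
    constructor
    · rintro ⟨h1, -, h3⟩
      exact ⟨h1, h3⟩
    · rintro ⟨h1, h3⟩
      exact ⟨h1, by rw [h3]; exact hv', h3⟩
  · intro Y hY ho
    have hY : Y ⊆ X := hY
    rw [res_dg hY]
    exact h.b0 Y (hY.trans hX) ho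
  · intro Y hY ho h1
    have hY : Y ⊆ X := hY
    rw [res_dg hY]
    exact h.odd5 Y (hY.trans hX) ho (hcl Y hY h1)
  · intro Y hY hn
    have hY : Y ⊆ X := hY
    rw [res_dg hY]
    exact h.even1 Y (hY.trans hX) hn
  · intro Y hY hn h1
    have hY : Y ⊆ X := hY
    rw [res_dg hY]
    exact h.even3 Y (hY.trans hX) hn (hcl Y hY h1)

end res

/-! ### the pentagon -/

/-- pentagon data: the legs of `X` are `l 0, .., l 4` (any order), at five different vertices; the
other two darts at the vertex of `l i` are `a i` and `b i` -/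
structure PD (G : CG V D) (X : Finset V) (l a b : ZMod 5 → D) : Prop where
  sub : X ⊆ G.vs
  leg : ∀ d, d ∈ G.sx X ↔ ∃ i, d = l i
  inj : ∀ i j, G.pi (l i) = G.pi (l j) → i = j
  three : ∀ i, ∀ d ∈ G.ds, G.pi d = G.pi (l i) → d = l i ∨ d = a i ∨ d = b i
  amem : ∀ i, a i ∈ G.ds
  bmem : ∀ i, b i ∈ G.ds
  api : ∀ i, G.pi (a i) = G.pi (l i)
  bpi : ∀ i, G.pi (b i) = G.pi (l i)
  ab : ∀ i, a i ≠ b i
  al : ∀ i, a i ≠ l i
  bl : ∀ i, b i ≠ l i

namespace PD

variable {G : CG V D} {X : Finset V} {l a b : ZMod 5 → D} (h : G.PD X l a b)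
include h

lemma lmem (i : ZMod 5) : l i ∈ G.ds := (mem_sx.1 ((h.leg _).2 ⟨i, rfl⟩)).1

lemma lX (i : ZMod 5) : G.pi (l i) ∈ X := (mem_sx.1 ((h.leg _).2 ⟨i, rfl⟩)).2.1

lemma ainj {i j : ZMod 5} (e : a i = a j) : i = j :=
  h.inj i j (by rw [← h.api, ← h.api, e])

lemma binj {i j : ZMod 5} (e : b i = b j) : i = j :=
  h.inj i j (by rw [← h.bpi, ← h.bpi, e])

lemma linj {i j : ZMod 5} (e : l i = l j) : i = j :=
  h.inj i j (by rw [e])

lemma anb (i j : ZMod 5) : a i ≠ b j := by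
  intro e
  have : i = j := h.inj i j (by rw [← h.api, ← h.bpi, e])
  rw [this] at e
  exact h.ab j e

lemma anl (i j : ZMod 5) : a i ≠ l j := by
  intro e
  have : i = j := h.inj i j (by rw [← h.api, e])
  rw [this] at e
  exact h.al j e

lemma bnl (i j : ZMod 5) : b i ≠ l j := by
  intro e
  have : i = j := h.inj i j (by rw [← h.bpi, e])
  rw [this] at e
  exact h.bl j e

/-- the partner function of the pentagon -/
noncomputable def pal (G : CG V D) (a b : ZMod 5 → D) (d : D) : D :=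
  if hb : ∃ i, b i = d then a (hb.choose + 1)
  else if ha : ∃ i, a i = d then b (ha.choose - 1) else G.al d

omit h in
lemma pal_else {d : D} (h1 : ∀ i, a i ≠ d) (h2 : ∀ i, b i ≠ d) : pal G a b d = G.al d := by
  unfold pal
  rw [dif_neg fun ⟨i, hi⟩ => h2 i hi, dif_neg fun ⟨i, hi⟩ => h1 i hi]

lemma pal_b (i : ZMod 5) : pal G a b (b i) = a (i + 1) := by
  unfold pal
  have hb : ∃ j, b j = b i := ⟨i, rfl⟩
  rw [dif_pos hb, h.binj hb.choose_spec]

lemma pal_a (i : ZMod 5) : pal G a b (a i) = b (i - 1) := by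
  unfold pal
  have ha : ∃ j, a j = a i := ⟨i, rfl⟩
  rw [dif_neg fun ⟨j, hj⟩ => h.anb i j hj.symm, dif_pos ha, h.ainj ha.choose_spec]

/-- darts of the new graph which are not on the pentagon keep their partners -/
lemma al_keep {d : D} (hd : d ∈ G.ds) (h0 : G.pi d ∉ X ∨ ∃ i, G.pi d = G.pi (l i))
    (h1 : ∀ i, a i ≠ d) (h2 : ∀ i, b i ≠ d) :
    (G.pi (G.al d) ∉ X ∨ ∃ i, G.al d = l i) ∧ (∀ i, a i ≠ G.al d) ∧ ∀ i, b i ≠ G.al d := by
  have hX : G.pi d ∈ X → ∃ i, d = l i := by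
    intro hx
    rcases h0 with h0 | ⟨i, hi⟩
    · exact absurd hx h0
    · rcases h.three i d hd hi with e | e | e
      · exact ⟨i, e⟩
      · exact absurd e.symm (h1 i)
      · exact absurd e.symm (h2 i)
  have hn : ∀ e, e = G.al d → G.pi e ∈ X → ∃ i, e = l i := by
    intro e he hx
    by_cases h3 : G.pi d ∈ X
    · obtain ⟨i, rfl⟩ := hX h3
      rcases (mem_sx.1 ((h.leg _).2 ⟨i, rfl⟩)).2.2 with h4 | h4
      · exact ⟨i, he.trans h4⟩
      · exact absurd (by rw [← he]; exact hx) h4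
    · refine (h.leg e).1 (mem_sx.2 ⟨by rw [he]; exact G.al_mem d hd, hx, Or.inr ?_⟩)
      rw [he, G.al_al d hd]
      exact h3
  refine ⟨?_, ?_, ?_⟩
  · by_cases h3 : G.pi (G.al d) ∈ X
    · exact Or.inr (hn _ rfl h3)
    · exact Or.inl h3
  · intro i e
    obtain ⟨j, hj⟩ := hn _ e (by rw [h.api]; exact h.lX i)
    exact h.anl i j hj
  · intro i e
    obtain ⟨j, hj⟩ := hn _ e (by rw [h.bpi]; exact h.lX i)
    exact h.bnl i j hj

/-- the vertices of the pentagon -/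
noncomputable def P (G : CG V D) (l : ZMod 5 → D) : Finset V := univ.image fun i => G.pi (l i)

omit h in
lemma mem_P {v : V} : v ∈ P G l ↔ ∃ i, G.pi (l i) = v := by
  unfold P
  rw [mem_image]
  constructor
  · rintro ⟨i, -, hi⟩
    exact ⟨i, hi⟩
  · rintro ⟨i, hi⟩
    exact ⟨i, mem_univ _, hi⟩

lemma card_P : (P G l).card = 5 := by
  unfold P
  rw [card_image_of_injective _ fun i j e => h.inj i j e]
  rfl

lemma P_sub : P G l ⊆ X := by
  intro v hv
  obtain ⟨i, rfl⟩ := mem_P.1 hv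
  exact h.lX i

/-- the new graph -/
noncomputable def gr : CG V D where
  vs := (G.vs \ X) ∪ P G l
  ds := G.ds.filter fun d => G.pi d ∉ X ∨ ∃ i, G.pi d = G.pi (l i)
  pi := G.pi
  al := pal G a b
  pi_mem := by
    intro d hd
    obtain ⟨h1, h2⟩ := mem_filter.1 hd
    rw [mem_union, mem_sdiff, mem_P]
    rcases h2 with h2 | ⟨i, hi⟩
    · exact Or.inl ⟨G.pi_mem d h1, h2⟩
    · exact Or.inr ⟨i, hi.symm⟩
  al_mem := by
    intro d hd
    obtain ⟨h1, h2⟩ := mem_filter.1 hd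
    by_cases hb : ∃ i, b i = d
    · obtain ⟨i, rfl⟩ := hb
      rw [h.pal_b]
      exact mem_filter.2 ⟨h.amem _, Or.inr ⟨_, h.api _⟩⟩
    · by_cases ha : ∃ i, a i = d
      · obtain ⟨i, rfl⟩ := ha
        rw [h.pal_a]
        exact mem_filter.2 ⟨h.bmem _, Or.inr ⟨_, h.bpi _⟩⟩
      · have h3 := h.al_keep h1 h2 (fun i hi => ha ⟨i, hi⟩) fun i hi => hb ⟨i, hi⟩
        rw [pal_else (fun i hi => ha ⟨i, hi⟩) fun i hi => hb ⟨i, hi⟩]
        refine mem_filter.2 ⟨G.al_mem d h1, ?_⟩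
        rcases h3.1 with h4 | ⟨i, hi⟩
        · exact Or.inl h4
        · exact Or.inr ⟨i, by rw [hi]⟩
  al_al := by
    intro d hd
    obtain ⟨h1, h2⟩ := mem_filter.1 hd
    by_cases hb : ∃ i, b i = d
    · obtain ⟨i, rfl⟩ := hb
      rw [h.pal_b, h.pal_a, add_sub_cancel_right]
    · by_cases ha : ∃ i, a i = d
      · obtain ⟨i, rfl⟩ := ha
        rw [h.pal_a, h.pal_b, sub_add_cancel]
      · have h3 := h.al_keep h1 h2 (fun i hi => ha ⟨i, hi⟩) fun i hi => hb ⟨i, hi⟩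
        rw [pal_else (fun i hi => ha ⟨i, hi⟩) fun i hi => hb ⟨i, hi⟩, pal_else h3.2.1 h3.2.2,
          G.al_al d h1]
  cubic := by
    intro v hv
    rw [mem_union, mem_sdiff, mem_P] at hv
    have hv' : v ∈ G.vs := by
      rcases hv with hv | ⟨i, rfl⟩
      · exact hv.1
      · exact h.sub (h.lX i)
    rw [← G.cubic v hv', filter_filter]
    congr 1
    ext d
    simp only [mem_filter]
    constructor
    · rintro ⟨h1, _, h3⟩
      exact ⟨h1, h3⟩
    · rintro ⟨h1, h3⟩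
      refine ⟨h1, ?_, h3⟩
      rcases hv with hv | ⟨i, hi⟩
      · exact Or.inl (by rw [h3]; exact hv.2)
      · exact Or.inr ⟨i, by rw [h3, hi]⟩

lemma gr_vs : h.gr.vs = (G.vs \ X) ∪ P G l := rfl

lemma gr_pi : h.gr.pi = G.pi := rfl

lemma gr_al (d : D) : h.gr.al d = pal G a b d := rfl

lemma mem_gr {d : D} : d ∈ h.gr.ds ↔ d ∈ G.ds ∧ (G.pi d ∉ X ∨ ∃ i, G.pi d = G.pi (l i)) :=
  mem_filter

lemma gr_card (h5 : 5 < X.card) : h.gr.vs.card < G.vs.card := by
  rw [gr_vs]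
  have h1 := card_union_le (G.vs \ X) (P G l)
  have h2 := card_sdiff_add_card_inter G.vs X
  rw [inter_eq_right.2 h.sub] at h2
  rw [h.card_P] at h1
  omega

/-- a dart which is not on the pentagon -/
lemma gr_else {d : D} (h1 : ∀ i, a i ≠ d) (h2 : ∀ i, b i ≠ d) : h.gr.al d = G.al d := pal_else h1 h2

lemma gr_a (i : ZMod 5) : h.gr.al (a i) = b (i - 1) := h.pal_a i

lemma gr_b (i : ZMod 5) : h.gr.al (b i) = a (i + 1) := h.pal_b i

lemma nota {d : D} (hd : G.pi d ∉ X) (i : ZMod 5) : a i ≠ d := by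
  rintro rfl
  rw [h.api] at hd
  exact hd (h.lX i)

lemma notb {d : D} (hd : G.pi d ∉ X) (i : ZMod 5) : b i ≠ d := by
  rintro rfl
  rw [h.bpi] at hd
  exact hd (h.lX i)

lemma gr_out {d : D} (hd : G.pi d ∉ X) : h.gr.al d = G.al d :=
  h.gr_else (h.nota hd) (h.notb hd)

lemma gr_l (i : ZMod 5) : h.gr.al (l i) = G.al (l i) :=
  h.gr_else (fun j => h.anl j i) fun j => h.bnl j i

/-- sets disjoint from `X` -/
lemma sx_dis {W : Finset V} (hW : Disjoint X W) : h.gr.sx W = G.sx W := by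
  have hd : ∀ v ∈ W, v ∉ X := fun v hv hx => disjoint_left.1 hW hx hv
  ext d
  rw [mem_sx, mem_sx, mem_gr, gr_pi]
  constructor
  · rintro ⟨⟨h1, -⟩, h3, h4⟩
    rw [h.gr_out (hd _ h3)] at h4
    exact ⟨h1, h3, h4⟩
  · rintro ⟨h1, h3, h4⟩
    refine ⟨⟨h1, Or.inl (hd _ h3)⟩, h3, ?_⟩
    rw [h.gr_out (hd _ h3)]
    exact h4

/-- sets containing `X` -/
lemma sx_over {W : Finset V} (hW : X ⊆ W) : h.gr.sx ((W \ X) ∪ P G l) = G.sx W := by
  ext d
  rw [mem_sx, mem_sx, mem_gr, gr_pi]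
  constructor
  · rintro ⟨⟨h1, h2⟩, h3, h4⟩
    rw [mem_union, mem_sdiff, mem_P] at h3
    by_cases hb : ∃ i, b i = d
    · obtain ⟨i, rfl⟩ := hb
      rw [h.gr_b] at h4
      rcases h4 with h4 | h4
      · exact absurd h4 (h.anb _ _)
      · exact absurd (mem_union_right _ (mem_P.2 ⟨_, (h.api _).symm⟩)) h4
    · by_cases ha : ∃ i, a i = d
      · obtain ⟨i, rfl⟩ := ha
        rw [h.gr_a] at h4
        rcases h4 with h4 | h4
        · exact absurd h4.symm (h.anb _ _)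
        · exact absurd (mem_union_right _ (mem_P.2 ⟨_, (h.bpi _).symm⟩)) h4
      · rw [h.gr_else (fun i hi => ha ⟨i, hi⟩) fun i hi => hb ⟨i, hi⟩] at h4
        refine ⟨h1, ?_, ?_⟩
        · rcases h3 with h3 | ⟨i, hi⟩
          · exact h3.1
          · rw [← hi]
            exact hW (h.lX i)
        · rcases h4 with h4 | h4
          · exact Or.inl h4
          · by_cases h5 : G.pi (G.al d) ∈ X
            · rcases (h.al_keep h1 h2 (fun i hi => ha ⟨i, hi⟩) fun i hi => hb ⟨i, hi⟩).1 with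
                h6 | ⟨i, hi⟩
              · exact absurd h5 h6
              · exact absurd (mem_union_right _ (mem_P.2 ⟨i, by rw [hi]⟩)) h4
            · exact Or.inr fun h6 => h4 (mem_union_left _ (mem_sdiff.2 ⟨h6, h5⟩))
  · rintro ⟨h1, h3, h4⟩
    by_cases hx : G.pi d ∈ X
    · have hs : d ∈ G.sx X := by
        refine mem_sx.2 ⟨h1, hx, ?_⟩
        rcases h4 with h4 | h4
        · exact Or.inl h4
        · exact Or.inr fun h5 => h4 (hW h5)
      obtain ⟨i, rfl⟩ := (h.leg d).1 hs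
      refine ⟨⟨h1, Or.inr ⟨i, rfl⟩⟩, mem_union_right _ (mem_P.2 ⟨i, rfl⟩), ?_⟩
      rw [h.gr_l]
      rcases h4 with h4 | h4
      · exact Or.inl h4
      · refine Or.inr fun h5 => ?_
        rw [mem_union, mem_sdiff] at h5
        rcases h5 with h5 | h5
        · exact h4 h5.1
        · exact h4 (hW (h.P_sub h5))
    · refine ⟨⟨h1, Or.inl hx⟩, mem_union_left _ (mem_sdiff.2 ⟨h3, hx⟩), ?_⟩
      rw [h.gr_out hx]
      rcases h4 with h4 | h4
      · exact Or.inl h4
      · refine Or.inr fun h5 => ?_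
        rw [mem_union, mem_sdiff] at h5
        rcases h5 with h5 | h5
        · exact h4 h5.1
        · exact h4 (hW (h.P_sub h5))

/-- sets which cut the pentagon -/
lemma sx_cut {W : Finset V} {i j : ZMod 5} (hi : G.pi (l i) ∈ W) (hj : G.pi (l j) ∉ W) :
    2 ≤ (h.gr.sx W).card := by
  have step : ∀ S : ZMod 5 → Prop, (∃ i, S i) → (∀ i, S i → S (i + 1)) → ∀ j, S j := by
    intro S ⟨i, hi⟩ hs j
    have key : ∀ i j : ZMod 5, j = i ∨ j = i + 1 ∨ j = i + 1 + 1 ∨ j = i + 1 + 1 + 1 ∨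
        j = i + 1 + 1 + 1 + 1 := by decide
    rcases key i j with e | e | e | e | e
    · rw [e]; exact hi
    · rw [e]; exact hs _ hi
    · rw [e]; exact hs _ (hs _ hi)
    · rw [e]; exact hs _ (hs _ (hs _ hi))
    · rw [e]; exact hs _ (hs _ (hs _ (hs _ hi)))
  have h1 : ∃ k, G.pi (l k) ∈ W ∧ G.pi (l (k + 1)) ∉ W := by
    by_contra hn
    push Not at hn
    exact hj (step (fun k => G.pi (l k) ∈ W) ⟨i, hi⟩ hn j)
  have h2 : ∃ k, G.pi (l k) ∉ W ∧ G.pi (l (k + 1)) ∈ W := by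
    by_contra hn
    push Not at hn
    exact (step (fun k => G.pi (l k) ∉ W) ⟨j, hj⟩ hn i) hi
  obtain ⟨k, hk, hk'⟩ := h1
  obtain ⟨m, hm, hm'⟩ := h2
  have e1 : b k ∈ h.gr.sx W := by
    refine mem_sx.2 ⟨h.mem_gr.2 ⟨h.bmem k, Or.inr ⟨k, h.bpi k⟩⟩, ?_, Or.inr ?_⟩
    · rw [gr_pi, h.bpi]
      exact hk
    · rw [gr_pi, h.gr_b, h.api]
      exact hk'
  have e2 : a (m + 1) ∈ h.gr.sx W := by
    refine mem_sx.2 ⟨h.mem_gr.2 ⟨h.amem _, Or.inr ⟨m + 1, h.api _⟩⟩, ?_, Or.inr ?_⟩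
    · rw [gr_pi, h.api]
      exact hm'
    · rw [gr_pi, h.gr_a, h.bpi, add_sub_cancel_right]
      exact hm
  exact one_lt_card.2 ⟨_, e2, _, e1, h.anb _ _⟩

/-- either the pentagon is cut, or the set contains it, or it is disjoint from `X` -/
lemma cases {W : Finset V} (hW : W ⊆ h.gr.vs) :
    2 ≤ (h.gr.sx W).card ∨ Disjoint X W ∨ (P G l ⊆ W ∧ W = ((W ∪ X) \ X) ∪ P G l) := by
  by_cases h1 : ∃ i, G.pi (l i) ∈ W
  · obtain ⟨i, hi⟩ := h1
    by_cases h2 : ∃ j, G.pi (l j) ∉ W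
    · obtain ⟨j, hj⟩ := h2
      exact Or.inl (h.sx_cut hi hj)
    · push Not at h2
      have hP : P G l ⊆ W := by
        intro v hv
        obtain ⟨j, rfl⟩ := mem_P.1 hv
        exact h2 j
      refine Or.inr (Or.inr ⟨hP, ?_⟩)
      ext v
      rw [mem_union, mem_sdiff, mem_union]
      constructor
      · intro hv
        have h3 := hW hv
        rw [gr_vs, mem_union, mem_sdiff] at h3
        rcases h3 with h3 | h3
        · exact Or.inl ⟨Or.inl hv, h3.2⟩
        · exact Or.inr h3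
      · rintro (⟨h3 | h3, h4⟩ | h3)
        · exact h3
        · exact absurd h3 h4
        · exact hP h3
  · push Not at h1
    refine Or.inr (Or.inl ?_)
    rw [disjoint_left]
    intro v hv hw
    have h3 := hW hw
    rw [gr_vs, mem_union, mem_sdiff, mem_P] at h3
    rcases h3 with h3 | ⟨i, hi⟩
    · exact h3.2 hv
    · exact h1 i (by rw [hi]; exact hw)

omit h in
/-- parity of `W` and of `W` with the pentagon contracted to `X` -/
lemma par (h5 : (P G l).card = 5) (hs : P G l ⊆ X) (ho : Odd X.card) {W : Finset V}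
    (he : W = ((W ∪ X) \ X) ∪ P G l) : Odd (W ∪ X).card ↔ Odd W.card := by
  have h1 : (((W ∪ X) \ X) ∪ P G l).card = ((W ∪ X) \ X).card + (P G l).card :=
    card_union_of_disjoint (disjoint_sdiff_self_left.mono_right hs)
  rw [← he, h5] at h1
  have h2 := card_sdiff_add_card_inter (W ∪ X) X
  rw [inter_eq_right.2 subset_union_right] at h2
  rw [Nat.odd_iff] at ho ⊢
  rw [Nat.odd_iff]
  omega

end PD

/-- in a patch with five tokens every cut has at least two inner edges -/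
theorem LP.ed2 {G : CG V D} {F : Finset D} (h : G.LP F) (h5 : (G.tk G.vs).card = 5)
    {A : Finset V} (hA : A ⊆ G.vs) (hn : A.Nonempty) (hn' : (G.vs \ A).Nonempty) :
    2 ≤ (G.ed A (G.vs \ A)).card := by
  by_contra hlt
  have hB : G.vs \ A ⊆ G.vs := sdiff_subset
  -- an even number of crossing darts of `F`
  have hev : Even (F.filter fun d => G.pi d ∈ A ∧ G.pi (G.al d) ∉ A).card := by
    have h1 : (F.filter fun d => G.pi d ∈ A).card = 2 * A.card := by
      rw [card_eq_sum_card_fiberwise (s := F.filter fun d => G.pi d ∈ A) (t := A) (f := G.pi)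
        (fun d hd => (mem_filter.1 hd).2)]
      have h2 : ∀ v ∈ A, ((F.filter fun d => G.pi d ∈ A).filter fun d => G.pi d = v).card = 2 := by
        intro v hv
        rw [← h.tf.two v (hA hv), filter_filter]
        congr 1
        ext d
        rw [mem_filter, mem_filter]
        constructor
        · rintro ⟨a, -, c⟩
          exact ⟨a, c⟩
        · rintro ⟨a, c⟩
          exact ⟨a, by rw [c]; exact hv, c⟩
      rw [sum_congr rfl h2, sum_const, smul_eq_mul, mul_comm]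
    have h2 : Even (F.filter fun d => G.pi d ∈ A ∧ G.pi (G.al d) ∈ A).card := by
      apply G.even_of_closed ((filter_subset _ _).trans h.tf.sub)
      · intro d hd
        rw [mem_filter] at hd ⊢
        refine ⟨h.tf.al d hd.1, hd.2.2, ?_⟩
        rw [G.al_al d (h.tf.sub hd.1)]
        exact hd.2.1
      · intro d hd
        exact h.tf.tok d (mem_filter.1 hd).1
    have h3 : (F.filter fun d => G.pi d ∈ A).card =
        (F.filter fun d => G.pi d ∈ A ∧ G.pi (G.al d) ∈ A).card +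
        (F.filter fun d => G.pi d ∈ A ∧ G.pi (G.al d) ∉ A).card := by
      rw [← card_filter_add_card_filter_not (s := F.filter fun d => G.pi d ∈ A)
        (fun d => G.pi (G.al d) ∈ A), filter_filter, filter_filter]
    rw [Nat.even_iff] at h2 ⊢
    omega
  have hcA : ∀ d ∈ F, G.pi d ∈ A → G.pi (G.al d) ∈ A := by
    intro d hd h1
    by_contra h2
    have h3 : 0 < (F.filter fun d => G.pi d ∈ A ∧ G.pi (G.al d) ∉ A).card :=
      card_pos.2 ⟨d, mem_filter.2 ⟨hd, h1, h2⟩⟩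
    have h4 : (F.filter fun d => G.pi d ∈ A ∧ G.pi (G.al d) ∉ A).card ≤
        (G.ed A (G.vs \ A)).card := by
      refine card_le_card fun e he => ?_
      rw [mem_filter] at he
      rw [G.mem_ed]
      exact ⟨h.tf.sub he.1, he.2.1, mem_sdiff.2 ⟨G.pi_mem _ (G.al_mem _ (h.tf.sub he.1)), he.2.2⟩⟩
    rw [Nat.even_iff] at hev
    omega
  have hcB : ∀ d ∈ F, G.pi d ∈ G.vs \ A → G.pi (G.al d) ∈ G.vs \ A := by
    intro d hd h1
    rw [mem_sdiff] at h1 ⊢
    refine ⟨G.pi_mem _ (G.al_mem _ (h.tf.sub hd)), fun h2 => h1.2 ?_⟩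
    have h3 := hcA _ (h.tf.al d hd) h2
    rwa [G.al_al d (h.tf.sub hd)] at h3
  -- degrees
  have e1 : (G.bd A).card ≤ (G.ed A (G.vs \ A)).card := by
    refine card_le_card fun e he => ?_
    rw [G.mem_bd] at he
    rw [G.mem_ed]
    exact ⟨he.1, he.2.1, mem_sdiff.2 ⟨G.pi_mem _ (G.al_mem _ he.1), he.2.2⟩⟩
  have e2 : (G.bd (G.vs \ A)).card ≤ (G.ed A (G.vs \ A)).card := by
    rw [G.ed_comm]
    refine card_le_card fun e he => ?_
    rw [G.mem_bd] at he
    rw [G.mem_ed]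
    refine ⟨he.1, he.2.1, ?_⟩
    by_contra h2
    exact he.2.2 (mem_sdiff.2 ⟨G.pi_mem _ (G.al_mem _ he.1), h2⟩)
  have e3 : (G.tk A).card + (G.tk (G.vs \ A)).card = 5 := by
    rw [← h5, ← card_union_of_disjoint]
    · congr 1
      ext d
      rw [mem_union, G.mem_tk, G.mem_tk, G.mem_tk, mem_sdiff]
      constructor
      · rintro (⟨a, -, c⟩ | ⟨a, -, c⟩)
        · exact ⟨a, G.pi_mem d a, c⟩
        · exact ⟨a, G.pi_mem d a, c⟩
      · rintro ⟨a, b, c⟩
        by_cases h1 : G.pi d ∈ A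
        · exact Or.inl ⟨a, h1, c⟩
        · exact Or.inr ⟨a, ⟨b, h1⟩, c⟩
    · rw [disjoint_left]
      intro d h1 h2
      rw [G.mem_tk] at h1 h2
      exact (mem_sdiff.1 h2.2.1).2 h1.2.1
  have e4 : G.dg A = (G.bd A).card + (G.tk A).card := rfl
  have e5 : G.dg (G.vs \ A) = (G.bd (G.vs \ A)).card + (G.tk (G.vs \ A)).card := rfl
  have p1 := G.dg_parity hA
  have p2 := G.dg_parity hB
  have s1 := h.even3 A hA hn hcA
  have s2 := h.even3 _ hB hn' hcB
  -- the whole set is odd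
  have p3 : Odd G.vs.card := by
    rw [← G.dg_parity (Subset.refl G.vs)]
    have : G.bd G.vs = ∅ := by
      ext d
      rw [G.mem_bd]
      constructor
      · rintro ⟨a, -, c⟩
        exact absurd (G.pi_mem _ (G.al_mem _ a)) c
      · intro h
        exact absurd h (notMem_empty _)
    unfold dg
    rw [this, card_empty, h5]
    decide
  have p4 := card_sdiff_add_card_inter G.vs A
  rw [inter_eq_right.2 hA] at p4
  rw [Nat.odd_iff] at p3
  rcases Nat.even_or_odd A.card with q | q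
  · have q' : Odd (G.vs \ A).card := by
      rw [Nat.odd_iff]
      rw [Nat.even_iff] at q
      omega
    have s3 := h.odd5 _ hB q' hcB
    have q2 : ¬ Odd (G.dg A) := by
      rw [p1, Nat.not_odd_iff_even]
      exact q
    rw [Nat.odd_iff] at q2
    omega
  · have s3 := h.odd5 _ hA q hcA
    have q' : ¬ Odd (G.vs \ A).card := by
      rw [Nat.odd_iff]
      rw [Nat.odd_iff] at q
      omega
    rw [← p2, Nat.odd_iff] at q'
    omega

namespace PD

variable {G : CG V D} {X : Finset V} {l a b : ZMod 5 → D} (h : G.PD X l a b)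
include h

/-- degree of the new graph -/
lemma dg_cases (ho : Odd X.card) {W : Finset V} (hW : W ⊆ h.gr.vs) :
    2 ≤ h.gr.dg W ∨ ((W ⊆ G.vs ∧ Disjoint X W) ∧ h.gr.dg W = G.dg W) ∨
      (((W ∪ X ⊆ G.vs ∧ P G l ⊆ W) ∧ W = ((W ∪ X) \ X) ∪ P G l) ∧
        (Odd (W ∪ X).card ↔ Odd W.card) ∧ h.gr.dg W = G.dg (W ∪ X)) := by
  have hv : ∀ v ∈ W, v ∈ G.vs := by
    intro v hv
    have := hW hv
    rw [gr_vs, mem_union, mem_sdiff] at this
    rcases this with h1 | h1
    · exact h1.1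
    · exact h.sub (h.P_sub h1)
  rcases h.cases hW with h1 | h1 | ⟨h1, h2⟩
  · left
    rw [dg_sx]
    exact h1
  · refine Or.inr (Or.inl ⟨⟨hv, h1⟩, ?_⟩)
    rw [dg_sx, dg_sx, h.sx_dis h1]
  · refine Or.inr (Or.inr ⟨⟨⟨union_subset hv h.sub, h1⟩, h2⟩, ?_, ?_⟩)
    · exact par h.card_P h.P_sub ho h2
    · conv_lhs => rw [h2]
      rw [dg_sx, dg_sx, h.sx_over subset_union_right]

/-- bridgelessness is inherited -/
theorem b0 (hb : G.B0) (ho : Odd X.card) : h.gr.B0 := by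
  intro W hW hWo
  have hp := h.gr.dg_parity hW
  rcases h.dg_cases ho hW with h1 | ⟨⟨h1, -⟩, h2⟩ | ⟨⟨⟨h1, -⟩, -⟩, h2, h3⟩
  · have := hp.2 hWo
    rw [Nat.odd_iff] at this
    omega
  · rw [h2]
    exact hb W h1 hWo
  · rw [h3]
    exact hb _ h1 (h2.2 hWo)

/-- the tokens are the same -/
theorem tk_gr : h.gr.tk h.gr.vs = G.tk G.vs := by
  ext d
  rw [mem_tk, mem_tk, mem_gr, gr_pi]
  constructor
  · rintro ⟨⟨h1, h2⟩, -, h3⟩
    refine ⟨h1, G.pi_mem d h1, ?_⟩
    by_cases hb : ∃ i, b i = d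
    · obtain ⟨i, rfl⟩ := hb
      rw [h.gr_b] at h3
      exact absurd h3 (h.anb _ _)
    · by_cases ha : ∃ i, a i = d
      · obtain ⟨i, rfl⟩ := ha
        rw [h.gr_a] at h3
        exact absurd h3.symm (h.anb _ _)
      · rwa [h.gr_else (fun i hi => ha ⟨i, hi⟩) fun i hi => hb ⟨i, hi⟩] at h3
  · rintro ⟨h1, -, h3⟩
    have h2 : G.pi d ∉ X ∨ ∃ i, d = l i := by
      by_cases hx : G.pi d ∈ X
      · exact Or.inr ((h.leg d).1 (mem_sx.2 ⟨h1, hx, Or.inl h3⟩))
      · exact Or.inl hx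
    have h4 : d ∈ h.gr.ds := by
      refine h.mem_gr.2 ⟨h1, ?_⟩
      rcases h2 with h2 | ⟨i, rfl⟩
      · exact Or.inl h2
      · exact Or.inr ⟨i, rfl⟩
    refine ⟨h.mem_gr.1 h4, ?_, ?_⟩
    · exact h.gr.pi_mem d h4
    · rcases h2 with h2 | ⟨i, rfl⟩
      · rw [h.gr_out h2, h3]
      · rw [h.gr_l, h3]

/-- the new 2-factor -/
noncomputable def F1 (X : Finset V) (a b : ZMod 5 → D) (G : CG V D) (F : Finset D) : Finset D :=
  (F.filter fun d => G.pi d ∉ X) ∪ (univ.image a ∪ univ.image b)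

omit h in
lemma mem_F1 {F : Finset D} {d : D} : d ∈ F1 X a b G F ↔
    (d ∈ F ∧ G.pi d ∉ X) ∨ (∃ i, a i = d) ∨ ∃ i, b i = d := by
  unfold F1
  rw [mem_union, mem_filter, mem_union, mem_image, mem_image]
  simp only [mem_univ, true_and]

/-- closed sets of the new graph -/
lemma closed_cases (ho : Odd X.card) {F : Finset D} {W : Finset V} (hW : W ⊆ h.gr.vs)
    (hc : ∀ d ∈ F, G.pi d ∈ X → G.pi (G.al d) ∈ X)
    (hcl : ∀ d ∈ F1 X a b G F, G.pi d ∈ W → G.pi (h.gr.al d) ∈ W) :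
    ∃ W' ⊆ G.vs, (Odd W'.card ↔ Odd W.card) ∧ h.gr.dg W = G.dg W' ∧ h.gr.sx W = G.sx W' ∧
      (∀ d ∈ F, G.pi d ∈ W' → G.pi (G.al d) ∈ W') ∧ (W.Nonempty → W'.Nonempty) ∧
      ∀ v ∈ W', v ∉ X → v ∈ W := by
  have hv : ∀ v ∈ W, v ∈ G.vs := by
    intro v hv
    have := hW hv
    rw [gr_vs, mem_union, mem_sdiff] at this
    rcases this with h1 | h1
    · exact h1.1
    · exact h.sub (h.P_sub h1)
  by_cases hm : ∃ i, G.pi (l i) ∈ W
  · obtain ⟨i, hi⟩ := hm
    have step : ∀ j, G.pi (l j) ∈ W → G.pi (l (j + 1)) ∈ W := by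
      intro j hj
      have h1 := hcl (b j) (mem_F1.2 (Or.inr (Or.inr ⟨j, rfl⟩))) (by rw [h.bpi]; exact hj)
      rwa [h.gr_b, h.api] at h1
    have all : ∀ j, G.pi (l j) ∈ W := by
      intro j
      have key : ∀ i j : ZMod 5, j = i ∨ j = i + 1 ∨ j = i + 1 + 1 ∨ j = i + 1 + 1 + 1 ∨
          j = i + 1 + 1 + 1 + 1 := by decide
      rcases key i j with e | e | e | e | e
      · rw [e]; exact hi
      · rw [e]; exact step _ hi
      · rw [e]; exact step _ (step _ hi)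
      · rw [e]; exact step _ (step _ (step _ hi))
      · rw [e]; exact step _ (step _ (step _ (step _ hi)))
    have hP : P G l ⊆ W := by
      intro v hv
      obtain ⟨j, rfl⟩ := mem_P.1 hv
      exact all j
    have he : W = ((W ∪ X) \ X) ∪ P G l := by
      ext v
      rw [mem_union, mem_sdiff, mem_union]
      constructor
      · intro hv
        have h3 := hW hv
        rw [gr_vs, mem_union, mem_sdiff] at h3
        rcases h3 with h3 | h3
        · exact Or.inl ⟨Or.inl hv, h3.2⟩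
        · exact Or.inr h3
      · rintro (⟨h3 | h3, h4⟩ | h3)
        · exact h3
        · exact absurd h3 h4
        · exact hP h3
    have hs : h.gr.sx W = G.sx (W ∪ X) := by
      conv_lhs => rw [he]
      exact h.sx_over subset_union_right
    refine ⟨W ∪ X, union_subset hv h.sub, par h.card_P h.P_sub ho he, ?_, hs, ?_, ?_, ?_⟩
    · rw [dg_sx, dg_sx, hs]
    · intro d hd h1
      by_cases hx : G.pi d ∈ X
      · exact mem_union_right _ (hc d hd hx)
      · have h2 : G.pi d ∈ W := (mem_union.1 h1).resolve_right hx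
        have h3 := hcl d (mem_F1.2 (Or.inl ⟨hd, hx⟩)) h2
        rw [h.gr_out hx] at h3
        exact mem_union_left _ h3
    · exact fun h1 => h1.mono subset_union_left
    · intro v h1 h2
      exact (mem_union.1 h1).resolve_right h2
  · push Not at hm
    have hd : Disjoint X W := by
      rw [disjoint_left]
      intro v hv hw
      have h3 := hW hw
      rw [gr_vs, mem_union, mem_sdiff, mem_P] at h3
      rcases h3 with h3 | ⟨i, hi⟩
      · exact h3.2 hv
      · exact hm i (by rw [hi]; exact hw)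
    refine ⟨W, hv, Iff.rfl, ?_, h.sx_dis hd, ?_, id, fun v h1 _ => h1⟩
    · rw [dg_sx, dg_sx, h.sx_dis hd]
    · intro d hd' h1
      have hx : G.pi d ∉ X := fun h2 => disjoint_left.1 hd h2 h1
      have h3 := hcl d (mem_F1.2 (Or.inl ⟨hd', hx⟩)) h1
      rwa [h.gr_out hx] at h3

/-- the new `F` at a vertex outside `X` -/
lemma F1_out {F : Finset D} {v : V} (hv : v ∉ X) :
    (F1 X a b G F).filter (fun d => G.pi d = v) = F.filter fun d => G.pi d = v := by
  ext d
  rw [mem_filter, mem_filter, mem_F1]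
  constructor
  · rintro ⟨h1, h2⟩
    refine ⟨?_, h2⟩
    rcases h1 with h1 | ⟨i, rfl⟩ | ⟨i, rfl⟩
    · exact h1.1
    · rw [h.api] at h2
      exact absurd (by rw [← h2]; exact h.lX i) hv
    · rw [h.bpi] at h2
      exact absurd (by rw [← h2]; exact h.lX i) hv
  · rintro ⟨h1, h2⟩
    exact ⟨Or.inl ⟨h1, by rw [h2]; exact hv⟩, h2⟩

/-- the new `F` at a vertex of the pentagon -/
lemma F1_in {F : Finset D} (i : ZMod 5) :
    (F1 X a b G F).filter (fun d => G.pi d = G.pi (l i)) = {a i, b i} := by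
  ext d
  rw [mem_filter, mem_F1, mem_insert, mem_singleton]
  constructor
  · rintro ⟨h1, h2⟩
    rcases h1 with h1 | ⟨j, rfl⟩ | ⟨j, rfl⟩
    · exact absurd (by rw [h2]; exact h.lX i) h1.2
    · rw [h.api] at h2
      exact Or.inl (by rw [h.inj j i h2])
    · rw [h.bpi] at h2
      exact Or.inr (by rw [h.inj j i h2])
  · rintro (rfl | rfl)
    · exact ⟨Or.inr (Or.inl ⟨i, rfl⟩), h.api i⟩
    · exact ⟨Or.inr (Or.inr ⟨i, rfl⟩), h.bpi i⟩

/-- the new 2-factor is a 2-factor -/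
theorem tf {F : Finset D} (hF : G.Tf F) (hc : ∀ d ∈ F, G.pi d ∈ X → G.pi (G.al d) ∈ X) :
    h.gr.Tf (F1 X a b G F) := by
  refine ⟨?_, ?_, ?_, ?_⟩
  · intro d hd
    rcases mem_F1.1 hd with h1 | ⟨i, rfl⟩ | ⟨i, rfl⟩
    · exact h.mem_gr.2 ⟨hF.sub h1.1, Or.inl h1.2⟩
    · exact h.mem_gr.2 ⟨h.amem i, Or.inr ⟨i, h.api i⟩⟩
    · exact h.mem_gr.2 ⟨h.bmem i, Or.inr ⟨i, h.bpi i⟩⟩
  · intro d hd
    rcases mem_F1.1 hd with h1 | ⟨i, rfl⟩ | ⟨i, rfl⟩
    · rw [h.gr_out h1.2]
      refine mem_F1.2 (Or.inl ⟨hF.al d h1.1, fun h2 => h1.2 ?_⟩)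
      have h3 := hc _ (hF.al d h1.1) h2
      rwa [G.al_al d (hF.sub h1.1)] at h3
    · rw [h.gr_a]
      exact mem_F1.2 (Or.inr (Or.inr ⟨_, rfl⟩))
    · rw [h.gr_b]
      exact mem_F1.2 (Or.inr (Or.inl ⟨_, rfl⟩))
  · intro d hd
    rcases mem_F1.1 hd with h1 | ⟨i, rfl⟩ | ⟨i, rfl⟩
    · rw [h.gr_out h1.2]
      exact hF.tok d h1.1
    · rw [h.gr_a]
      exact fun e => h.anb _ _ e.symm
    · rw [h.gr_b]
      exact h.anb _ _
  · intro v hv
    rw [gr_vs, mem_union, mem_sdiff, mem_P] at hv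
    rcases hv with hv | ⟨i, rfl⟩
    · show ((F1 X a b G F).filter fun d => G.pi d = v).card = 2
      rw [h.F1_out hv.2]
      exact hF.two v hv.1
    · show ((F1 X a b G F).filter fun d => G.pi d = G.pi (l i)).card = 2
      rw [h.F1_in]
      exact card_pair (h.ab i)

/-- **the new graph is a patch** -/
theorem lp {F : Finset D} (hL : G.LP F) (ho : Odd X.card)
    (hc : ∀ d ∈ F, G.pi d ∈ X → G.pi (G.al d) ∈ X) : h.gr.LP (F1 X a b G F) := by
  refine ⟨h.tf hL.tf hc, h.b0 hL.b0 ho, ?_, ?_, ?_⟩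
  · intro W hW hWo hcl
    obtain ⟨W', h1, h2, h3, -, h4, -, -⟩ := h.closed_cases ho hW hc hcl
    rw [h3]
    exact hL.odd5 W' h1 (h2.2 hWo) h4
  · intro W hW hn
    rcases h.dg_cases ho hW with h1 | ⟨⟨h1, -⟩, h2⟩ | ⟨⟨⟨h1, -⟩, -⟩, -, h3⟩
    · omega
    · rw [h2]
      exact hL.even1 W h1 hn
    · rw [h3]
      exact hL.even1 _ h1 (hn.mono subset_union_left)
  · intro W hW hn hcl
    obtain ⟨W', h1, h2, h3, -, h4, h5, -⟩ := h.closed_cases ho hW hc hcl
    rw [h3]
    exact hL.even3 W' h1 (h5 hn) h4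

/-- the star of the pentagon -/
lemma sx_P : h.gr.sx (P G l) = G.sx X := by
  have h1 := h.sx_over (Subset.refl X)
  rwa [sdiff_self, bot_eq_empty, empty_union] at h1

/-- sums over the legs -/
lemma sum_legs (f : D → ℕ) : ∑ d ∈ G.sx X, f d = ∑ i, f (l i) := by
  have h1 : G.sx X = univ.image l := by
    ext d
    rw [h.leg, mem_image]
    constructor
    · rintro ⟨i, rfl⟩
      exact ⟨i, mem_univ _, rfl⟩
    · rintro ⟨i, -, rfl⟩
      exact ⟨i, rfl⟩
  rw [h1, sum_image fun i _ j _ e => h.linj e]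

/-- values of sets which do not cut `X` -/
lemma out_ge {z : D → ℕ} {t : V → ℕ} (ht : ∀ v ∈ X, t v = 0) (ho : Odd X.card)
    (hb : h.gr.ZB z t) {W : Finset V} (hW : W ⊆ G.vs) (hWo : Odd W.card)
    (hx : X ⊆ W ∨ Disjoint X W) : 3 ≤ G.zc z t W := by
  rcases hx with hx | hx
  · have hs : (W \ X) ∪ P G l ⊆ h.gr.vs := by
      rw [gr_vs]
      exact union_subset_union_left (sdiff_subset_sdiff hW (Subset.refl X))
    have hd : Disjoint (W \ X) (P G l) := disjoint_sdiff_self_left.mono_right h.P_sub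
    have hc : ((W \ X) ∪ P G l).card = (W \ X).card + 5 := by
      rw [card_union_of_disjoint hd, h.card_P]
    have h2 := card_sdiff_add_card_inter W X
    rw [inter_eq_right.2 hx] at h2
    have ho' : Odd ((W \ X) ∪ P G l).card := by
      rw [Nat.odd_iff] at ho hWo ⊢
      omega
    have h3 := hb _ hs ho'
    rw [zc_sx, h.sx_over hx, sum_union hd] at h3
    rw [zc_sx]
    have h4 : ∑ v ∈ P G l, t v = 0 := sum_eq_zero fun v hv => ht v (h.P_sub hv)
    have h5 : ∑ v ∈ W, t v = ∑ v ∈ W \ X, t v := by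
      rw [← sum_sdiff hx, sum_eq_zero ht, add_zero]
    rw [h4, add_zero] at h3
    rw [h5]
    exact h3
  · have hs : W ⊆ h.gr.vs := by
      intro v hv
      rw [gr_vs, mem_union, mem_sdiff]
      exact Or.inl ⟨hW hv, fun h1 => disjoint_left.1 hx h1 hv⟩
    have h3 := hb W hs hWo
    rwa [zc_sx, h.sx_dis hx, ← zc_sx] at h3

/-- symmetry of new weights in the old graph -/
lemma sym_out {z : D → ℕ} {t : V → ℕ} (hw : h.gr.ZW z t) {d : D} (hd : d ∈ G.ds)
    (hn : ¬ (G.pi d ∈ X ∧ G.pi (G.al d) ∈ X)) : z (G.al d) = z d := by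
  by_cases hx : G.pi d ∈ X
  · obtain ⟨i, rfl⟩ := (h.leg d).1 (mem_sx.2 ⟨hd, hx, Or.inr fun h1 => hn ⟨hx, h1⟩⟩)
    have := hw.sym (l i) (h.mem_gr.2 ⟨hd, Or.inr ⟨i, rfl⟩⟩)
    rwa [h.gr_l] at this
  · have := hw.sym d (h.mem_gr.2 ⟨hd, Or.inl hx⟩)
    rwa [h.gr_out hx] at this

/-- vertex sums of new weights in the old graph -/
lemma sum_out {z : D → ℕ} {t : V → ℕ} (hw : h.gr.ZW z t) {v : V} (hv : v ∈ G.vs) (hx : v ∉ X) :
    (∑ d ∈ G.ds.filter fun d => G.pi d = v, z d) + t v = 3 := by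
  have h1 := hw.sum v (by rw [gr_vs, mem_union, mem_sdiff]; exact Or.inl ⟨hv, hx⟩)
  have h2 : (h.gr.ds.filter fun d => h.gr.pi d = v) = G.ds.filter fun d => G.pi d = v := by
    ext d
    rw [mem_filter, mem_filter, h.mem_gr, gr_pi]
    constructor
    · rintro ⟨⟨a, -⟩, c⟩
      exact ⟨a, c⟩
    · rintro ⟨a, c⟩
      exact ⟨⟨a, Or.inl (by rw [c]; exact hx)⟩, c⟩
  rw [← h2]
  exact h1

/-- the number of zero legs is 0 or 2 -/
lemma legs {z : D → ℕ} {t : V → ℕ} (ht : ∀ v ∈ X, t v = 0) (hw : h.gr.ZW z t)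
    (hb : h.gr.ZB z t) (h1 : ∀ i, z (l i) ≤ 1) :
    (∀ i, z (l i) = 1) ∨ ∃ i j, i ≠ j ∧ z (l i) = 0 ∧ z (l j) = 0 ∧
      ∀ k, k ≠ i → k ≠ j → z (l k) = 1 := by
  have hP : P G l ⊆ h.gr.vs := by
    rw [gr_vs]
    exact subset_union_right
  have hv : h.gr.zc z t (P G l) = ∑ i, z (l i) := by
    rw [zc_sx, h.sx_P, h.sum_legs, sum_eq_zero fun v hv => ht v (h.P_sub hv), add_zero]
  have h5 : Odd (P G l).card := by
    rw [h.card_P]
    decide
  have h3 := hb _ hP h5
  have h4 := (ZW.parity _ hw hP).2 h5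
  rw [hv] at h3 h4
  -- the set of zero legs
  have hc : ∑ i, z (l i) + (univ.filter fun i => z (l i) = 0).card = 5 := by
    rw [card_filter, ← sum_add_distrib]
    have : ∀ i ∈ (univ : Finset (ZMod 5)), z (l i) + (if z (l i) = 0 then 1 else 0) = 1 := by
      intro i _
      have := h1 i
      split_ifs <;> omega
    rw [sum_congr rfl this]
    rfl
  rw [Nat.odd_iff] at h4
  have hcase : (univ.filter fun i => z (l i) = 0).card = 0 ∨
      (univ.filter fun i => z (l i) = 0).card = 2 := by omega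
  rcases hcase with h6 | h6
  · left
    intro i
    have h7 := h1 i
    have h8 : i ∉ univ.filter fun i => z (l i) = 0 := by
      rw [card_eq_zero.1 h6]
      exact notMem_empty _
    rw [mem_filter] at h8
    have h9 : z (l i) ≠ 0 := fun e => h8 ⟨mem_univ _, e⟩
    omega
  · right
    obtain ⟨i, j, hij, h7⟩ := card_eq_two.1 h6
    have hi : i ∈ univ.filter fun i => z (l i) = 0 := by rw [h7]; simp
    have hj : j ∈ univ.filter fun i => z (l i) = 0 := by rw [h7]; simp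
    refine ⟨i, j, hij, (mem_filter.1 hi).2, (mem_filter.1 hj).2, ?_⟩
    intro k hk hk'
    have h8 : k ∉ univ.filter fun i => z (l i) = 0 := by
      rw [h7, mem_insert, mem_singleton]
      rintro (e | e)
      · exact hk e
      · exact hk' e
    rw [mem_filter] at h8
    have h9 : z (l k) ≠ 0 := fun e => h8 ⟨mem_univ _, e⟩
    have := h1 k
    omega

/-- **LIFT**: weights on the graph with the pentagon give weights on the old graph, the same outside
`X` and on the legs -/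
theorem lift {F : Finset D} (ho : Odd X.card)
    (hL : (G.res X h.sub).LP (F.filter fun d => G.pi d ∈ X)) (hH : HB V D 5 X.card)
    {z1 : D → ℕ} {t : V → ℕ} (ht : ∀ v ∈ X, t v = 0) (hw : h.gr.ZW z1 t) (hb : h.gr.ZB z1 t)
    (h1 : ∀ i, z1 (l i) ≤ 1) :
    ∃ z : D → ℕ, G.ZW z t ∧ G.ZB z t ∧
      (∀ d ∈ G.ds, ¬ (G.pi d ∈ X ∧ G.pi (G.al d) ∈ X) ∨ d ∈ G.sx X → z d = z1 d) ∧
      ∀ d ∈ G.ds, G.pi d ∈ X → d ∉ F → z d ≤ 1 := by
  have hcard : (G.sx X).card = 5 := by
    have := h.sum_legs fun _ => 1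
    rw [sum_const, smul_eq_mul, mul_one] at this
    rw [this]
    rfl
  have htk : ((G.res X h.sub).tk (G.res X h.sub).vs).card = 5 := by
    show ((G.res X h.sub).tk X).card = 5
    rw [res_tk, hcard]
  have hleg : ∀ d ∈ G.sx X, ∃ i, d = l i := fun d hd => (h.leg d).1 hd
  rcases h.legs ht hw hb h1 with hall | ⟨i, j, hij, hi, hj, hk⟩
  · -- value 5: weight 1 inside
    have hz : ∀ d ∈ G.ds, G.pi d ∈ X → G.zmix X z1 (fun _ => 1) d = 1 := by
      intro d hd hx
      by_cases h2 : G.pi (G.al d) ∈ X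
      · exact zmix_in hx h2
      · rw [zmix_out fun c => h2 c.2]
        obtain ⟨i, rfl⟩ := hleg d (mem_sx.2 ⟨hd, hx, Or.inr h2⟩)
        exact hall i
    have hwz : G.ZW (G.zmix X z1 fun _ => 1) t := by
      refine ⟨?_, ?_⟩
      · intro d hd
        by_cases h2 : G.pi d ∈ X ∧ G.pi (G.al d) ∈ X
        · rw [zmix_in h2.1 h2.2, zmix_in h2.2 (by rw [G.al_al d hd]; exact h2.1)]
        · rw [zmix_out h2, zmix_out fun c => h2 ⟨by rw [G.al_al d hd] at c; exact c.2, c.1⟩]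
          exact h.sym_out hw hd h2
      · intro v hv
        by_cases hx : v ∈ X
        · rw [ht v hx, add_zero, ← G.cubic v hv, card_eq_sum_ones]
          refine sum_congr rfl fun d hd => ?_
          rw [mem_filter] at hd
          exact hz d hd.1 (by rw [hd.2]; exact hx)
        · rw [← h.sum_out hw hv hx]
          congr 1
          refine sum_congr rfl fun d hd => ?_
          rw [mem_filter] at hd
          exact zmix_off (by rw [hd.2]; exact hx)
    have hmix : ∀ W : Finset V, (X ⊆ W ∨ Disjoint X W) →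
        G.zc (G.zmix X z1 fun _ => 1) t W = G.zc z1 t W := by
      intro W hW
      rw [zc_sx, zc_sx]
      congr 1
      refine sum_congr rfl fun d hd => ?_
      rw [mem_sx] at hd
      by_cases hx : G.pi d ∈ X
      · rw [hz d hd.1 hx]
        rcases hW with hW | hW
        · obtain ⟨i, rfl⟩ := hleg d (mem_sx.2 ⟨hd.1, hx, by
            rcases hd.2.2 with e | e
            · exact Or.inl e
            · exact Or.inr fun e' => e (hW e')⟩)
          exact (hall i).symm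
        · exact absurd hd.2.1 (disjoint_left.1 hW hx)
      · exact zmix_off hx
    refine ⟨G.zmix X z1 fun _ => 1, hwz, ?_, ?_, ?_⟩
    · intro W hW hWo
      by_cases hx : X ⊆ W ∨ Disjoint X W
      · rw [hmix W hx]
        exact h.out_ge ht ho hb hW hWo hx
      · -- `W` cuts `X`
        push Not at hx
        have hn : (X ∩ W).Nonempty := by
          rw [nonempty_iff_ne_empty]
          intro e
          exact hx.2 (disjoint_iff_inter_eq_empty.2 e)
        have hn' : ((G.res X h.sub).vs \ (X ∩ W)).Nonempty := by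
          obtain ⟨v, hv, hv'⟩ := not_subset.1 hx.1
          exact ⟨v, mem_sdiff.2 ⟨hv, fun c => hv' (mem_inter.1 c).2⟩⟩
        have h2 := hL.ed2 htk (inter_subset_left : X ∩ W ⊆ X) hn hn'
        have h3 : (G.res X h.sub).ed (X ∩ W) ((G.res X h.sub).vs \ (X ∩ W)) ⊆ G.sx W := by
          intro d hd
          rw [mem_ed, mem_res_ds] at hd
          obtain ⟨⟨d1, d2⟩, d3, d4⟩ := hd
          have d3 : G.pi d ∈ X ∩ W := d3
          have d4 : G.pi ((G.res X h.sub).al d) ∈ X \ (X ∩ W) := d4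
          by_cases d5 : G.pi (G.al d) ∈ X
          · rw [res_al_in d5, mem_sdiff] at d4
            exact mem_sx.2 ⟨d1, (mem_inter.1 d3).2, Or.inr fun c => d4.2 (mem_inter.2 ⟨d5, c⟩)⟩
          · rw [res_al_out d5, mem_sdiff] at d4
            exact absurd d3 d4.2
        have h4 : 2 ≤ G.zc (G.zmix X z1 fun _ => 1) t W := by
          rw [zc_sx]
          calc 2 ≤ ((G.res X h.sub).ed (X ∩ W) ((G.res X h.sub).vs \ (X ∩ W))).card := h2
            _ = ∑ d ∈ (G.res X h.sub).ed (X ∩ W) ((G.res X h.sub).vs \ (X ∩ W)),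
                G.zmix X z1 (fun _ => 1) d := by
                rw [card_eq_sum_ones]
                refine sum_congr rfl fun d hd => ?_
                rw [mem_ed, mem_res_ds] at hd
                exact (hz d hd.1.1 hd.1.2).symm
            _ ≤ ∑ d ∈ G.sx W, G.zmix X z1 (fun _ => 1) d :=
                sum_le_sum_of_subset_of_nonneg h3 fun _ _ _ => Nat.zero_le _
            _ ≤ _ := Nat.le_add_right _ _
        have h5 := (ZW.parity _ hwz hW).2 hWo
        rw [Nat.odd_iff] at h5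
        omega
    · intro d hd h2
      rcases h2 with h2 | h2
      · exact zmix_out h2
      · obtain ⟨i, rfl⟩ := hleg d h2
        rw [hz _ hd (h.lX i), hall i]
    · intro d hd hx _
      rw [hz d hd hx]
  · -- value 3: the fixed-end theorem inside
    obtain ⟨z2, hz2⟩ := hH (G.res X h.sub) _ (le_refl _) hL htk (l i)
      (by show l i ∈ (G.res X h.sub).tk X; rw [res_tk]; exact (h.leg _).2 ⟨i, rfl⟩) (l j)
      (by show l j ∈ (G.res X h.sub).tk X; rw [res_tk]; exact (h.leg _).2 ⟨j, rfl⟩)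
      fun e => hij (h.linj e)
    have hag : ∀ d ∈ G.sx X, z1 d = z2 d := by
      intro d hd
      obtain ⟨k, rfl⟩ := hleg d hd
      by_cases hki : k = i
      · rw [hki, hi, hz2.z1]
      · by_cases hkj : k = j
        · rw [hkj, hj, hz2.z2]
        · rw [hk k hki hkj, hz2.one (l k)
            (by show l k ∈ (G.res X h.sub).tk X; rw [res_tk]; exact hd)
            (fun e => hki (h.linj e)) fun e => hkj (h.linj e)]
    have hbd : ∀ d ∈ G.bd X, z1 d = z2 d := fun d hd => hag d (by rw [sx_eq]; exact mem_union_left _ hd)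
    have htk' : ∀ d ∈ G.tk X, z1 d = z2 d := fun d hd => hag d (by rw [sx_eq]; exact mem_union_right _ hd)
    have hX3 : G.zc z2 (fun _ => 0) X = 3 := by
      rw [zc_sx, sum_const_zero, add_zero, h.sum_legs]
      have h6 : ∑ k, z2 (l k) + (univ.filter fun k => k = i ∨ k = j).card = 5 := by
        rw [card_filter, ← sum_add_distrib]
        have : ∀ k ∈ (univ : Finset (ZMod 5)), z2 (l k) + (if k = i ∨ k = j then 1 else 0) = 1 := by
          intro k _
          rw [← hag (l k) ((h.leg _).2 ⟨k, rfl⟩)]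
          by_cases hki : k = i
          · rw [if_pos (Or.inl hki), hki, hi]
          · by_cases hkj : k = j
            · rw [if_pos (Or.inr hkj), hkj, hj]
            · rw [if_neg fun e => e.elim hki hkj, hk k hki hkj]
        rw [sum_congr rfl this]
        rfl
      have h7 : (univ.filter fun k : ZMod 5 => k = i ∨ k = j).card = 2 := by
        have : (univ.filter fun k : ZMod 5 => k = i ∨ k = j) = {i, j} := by
          ext k
          rw [mem_filter, mem_insert, mem_singleton]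
          exact ⟨fun e => e.2, fun e => ⟨mem_univ _, e⟩⟩
        rw [this, card_pair hij]
      omega
    have htm : tmix X t (fun _ => 0) = t := by
      funext v
      unfold tmix
      by_cases hv : v ∈ X
      · rw [if_pos hv, ht v hv]
      · rw [if_neg hv]
    have key := ZW.glue_pair (G := G) (X := X) (z1 := z1) (z2 := z2) (t1 := t) (t2 := fun _ => 0)
      h.sub ho (fun d hd hn => h.sym_out hw hd hn) ?_ (fun v hv hx => h.sum_out hw hv hx) ?_ hbd
      htk' ?_ hX3 ?_ (fun W hW hWo hx => h.out_ge ht ho hb hW hWo hx)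
    · rw [htm] at key
      refine ⟨_, key.1, key.2, ?_, ?_⟩
      · intro d hd h2
        rcases h2 with h2 | h2
        · exact zmix_out h2
        · have hx := (mem_sx.1 h2).2.1
          rw [hag d h2]
          by_cases h3 : G.pi (G.al d) ∈ X
          · exact zmix_in hx h3
          · rw [zmix_out fun c => h3 c.2]
            exact hag d h2
      · intro d hd hx hF
        rw [zmix_at hbd hd hx]
        exact hz2.le d (mem_res_ds.2 ⟨hd, hx⟩) fun c => hF (mem_filter.1 c).1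
    · intro d hd hx hx'
      have := hz2.zw.sym d (mem_res_ds.2 ⟨hd, hx⟩)
      rwa [res_al_in hx'] at this
    · intro v hv
      have h2 := hz2.zw.sum v hv
      have h3 : ((G.res X h.sub).ds.filter fun d => (G.res X h.sub).pi d = v) =
          G.ds.filter fun d => G.pi d = v := by
        ext d
        rw [mem_filter, mem_filter, mem_res_ds]
        constructor
        · rintro ⟨⟨a, -⟩, c⟩
          exact ⟨a, c⟩
        · rintro ⟨a, c⟩
          exact ⟨⟨a, by rw [c]; exact hv⟩, c⟩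
      rw [← h3]
      exact h2
    · rw [sum_eq_zero ht, sum_const_zero]
    · intro W hW hWo
      have h2 := hz2.zb W hW hWo
      rwa [res_zc hW] at h2

/-- solutions of the patch with the pentagon lift -/
theorem ls {F : Finset D} (hL : G.LP F) (ho : Odd X.card)
    (hc : ∀ d ∈ F, G.pi d ∈ X → G.pi (G.al d) ∈ X) (hH : HB V D 5 X.card) (hlF : ∀ i, l i ∉ F)
    {τ1 τ2 : D} (h1 : τ1 ∈ G.tk G.vs) (h2 : τ2 ∈ G.tk G.vs) {z1 : D → ℕ}
    (hz : h.gr.LS (F1 X a b G F) τ1 τ2 z1) : ∃ z, G.LS F τ1 τ2 z := by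
  have hlF1 : ∀ i, l i ∉ F1 X a b G F := by
    intro i hi
    rcases mem_F1.1 hi with e | ⟨j, e⟩ | ⟨j, e⟩
    · exact hlF i e.1
    · exact h.anl j i e
    · exact h.bnl j i e
  obtain ⟨z, e1, e2, e3, e4⟩ := h.lift ho (hL.res h.sub hc) hH (t := fun _ => 0) (fun _ _ => rfl)
    hz.zw hz.zb fun i => hz.le (l i) (h.mem_gr.2 ⟨h.lmem i, Or.inr ⟨i, rfl⟩⟩) (hlF1 i)
  have e5 : ∀ d ∈ G.ds, G.pi d ∉ X → z d = z1 d := fun d hd hx => e3 d hd (Or.inl fun c => hx c.1)
  have e6 : ∀ d ∈ G.tk G.vs, z d = z1 d := by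
    intro d hd
    rw [G.mem_tk] at hd
    by_cases hx : G.pi d ∈ X
    · exact e3 d hd.1 (Or.inr (mem_sx.2 ⟨hd.1, hx, Or.inl hd.2.2⟩))
    · exact e5 d hd.1 hx
  refine ⟨z, e1, e2, ?_, ?_, ?_, ?_⟩
  · intro d hd hF
    by_cases hx : G.pi d ∈ X
    · exact e4 d hd hx hF
    · rw [e5 d hd hx]
      refine hz.le d (h.mem_gr.2 ⟨hd, Or.inl hx⟩) fun c => ?_
      rcases mem_F1.1 c with e | ⟨j, e⟩ | ⟨j, e⟩
      · exact hF e.1
      · exact h.nota hx j e
      · exact h.notb hx j e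
  · rw [e6 _ h1]
    exact hz.z1
  · rw [e6 _ h2]
    exact hz.z2
  · intro d hd hd1 hd2
    rw [e6 d hd]
    exact hz.one d (by rw [h.tk_gr]; exact hd) hd1 hd2

omit h in
/-- pentagon data exist for any order of the legs -/
theorem of_F {F : Finset D} (hX : X ⊆ G.vs) (hF : F ⊆ G.ds)
    (h2 : ∀ v ∈ X, (F.filter fun d => G.pi d = v).card = 2) (hl : ∀ d, d ∈ G.sx X ↔ ∃ i, d = l i)
    (hi : Function.Injective l) (hlF : ∀ i, l i ∉ F) :
    ∃ a b, G.PD X l a b ∧ ∀ i, a i ∈ F ∧ b i ∈ F := by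
  have hm : ∀ i, l i ∈ G.ds ∧ G.pi (l i) ∈ X := fun i =>
    ⟨(mem_sx.1 ((hl _).2 ⟨i, rfl⟩)).1, (mem_sx.1 ((hl _).2 ⟨i, rfl⟩)).2.1⟩
  have key : ∀ i, ∃ x y, x ≠ y ∧ (F.filter fun d => G.pi d = G.pi (l i)) = {x, y} := fun i =>
    card_eq_two.1 (h2 _ (hm i).2)
  choose a b hab hs using key
  have ha : ∀ i, a i ∈ F ∧ G.pi (a i) = G.pi (l i) := fun i => by
    have : a i ∈ F.filter fun d => G.pi d = G.pi (l i) := by rw [hs]; simp
    exact mem_filter.1 this
  have hb : ∀ i, b i ∈ F ∧ G.pi (b i) = G.pi (l i) := fun i => by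
    have : b i ∈ F.filter fun d => G.pi d = G.pi (l i) := by rw [hs]; simp
    exact mem_filter.1 this
  have hal : ∀ i, a i ≠ l i := fun i e => hlF i (by rw [← e]; exact (ha i).1)
  have hbl : ∀ i, b i ≠ l i := fun i e => hlF i (by rw [← e]; exact (hb i).1)
  have h3 : ∀ i, ∀ d ∈ G.ds, G.pi d = G.pi (l i) → d = l i ∨ d = a i ∨ d = b i := by
    intro i d hd hp
    have h4 : ({l i, a i, b i} : Finset D) ⊆ G.ds.filter fun d => G.pi d = G.pi (l i) := by
      intro e he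
      rw [mem_insert, mem_insert, mem_singleton] at he
      rw [mem_filter]
      rcases he with rfl | rfl | rfl
      · exact ⟨(hm i).1, rfl⟩
      · exact ⟨hF (ha i).1, (ha i).2⟩
      · exact ⟨hF (hb i).1, (hb i).2⟩
    have h5 : ({l i, a i, b i} : Finset D).card = 3 := by
      rw [card_insert_of_notMem, card_pair (hab i)]
      rw [mem_insert, mem_singleton]
      rintro (e | e)
      · exact hal i e.symm
      · exact hbl i e.symm
    have h6 := eq_of_subset_of_card_le h4 (by rw [G.cubic _ (hX (hm i).2), h5])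
    have h7 : d ∈ ({l i, a i, b i} : Finset D) := by
      rw [h6, mem_filter]
      exact ⟨hd, hp⟩
    rwa [mem_insert, mem_insert, mem_singleton] at h7
  refine ⟨a, b, ⟨hX, hl, ?_, h3, fun i => hF (ha i).1, fun i => hF (hb i).1, fun i => (ha i).2,
    fun i => (hb i).2, hab, hal, hbl⟩, fun i => ⟨(ha i).1, (hb i).1⟩⟩
  intro i j e
  rcases h3 j (l i) (hm i).1 e with h4 | h4 | h4
  · exact hi h4
  · exact absurd (by rw [h4]; exact (ha j).1) (hlF i)
  · exact absurd (by rw [h4]; exact (hb j).1) (hlF i)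

end PD

/-- an enumeration of the legs -/
lemma exists_legs {G : CG V D} {X : Finset V} (h5 : G.dg X = 5) :
    ∃ l : ZMod 5 → D, (∀ d, d ∈ G.sx X ↔ ∃ i, d = l i) ∧ Function.Injective l := by
  rw [dg_sx] at h5
  let e : {x // x ∈ G.sx X} ≃ Fin 5 := (G.sx X).equivFinOfCardEq h5
  refine ⟨fun i => (e.symm i).1, ?_, ?_⟩
  · intro d
    constructor
    · intro hd
      refine ⟨e ⟨d, hd⟩, ?_⟩
      show d = (e.symm (e ⟨d, hd⟩)).1
      rw [e.symm_apply_apply]
    · rintro ⟨i, rfl⟩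
      exact (e.symm i).2
  · intro i j hij
    exact e.symm.injective (Subtype.ext hij)

/-- legs of a closed set are not in `F` -/
lemma Tf.leg_notF {G : CG V D} {F : Finset D} (hF : G.Tf F) {X : Finset V}
    (hc : ∀ d ∈ F, G.pi d ∈ X → G.pi (G.al d) ∈ X) {d : D} (hd : d ∈ G.sx X) : d ∉ F := by
  intro h1
  obtain ⟨-, h2, h3⟩ := mem_sx.1 hd
  rcases h3 with h3 | h3
  · exact hF.tok d h1 h3
  · exact h3 (hc d h1 h2)

/-- **5-unions are pentagons**: with the fixed-end theorem for smaller patches, a patch with a proper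
closed set of degree 5 and more than five vertices has all solutions -/
theorem LP.red5 {G : CG V D} {F : Finset D} (hL : G.LP F) {n : ℕ} (hb : (G.tk G.vs).card = n)
    (ih : ∀ m < G.vs.card, HB V D n m) (ih5 : ∀ m < G.vs.card, HB V D 5 m) {X : Finset V}
    (hX : X ⊂ G.vs) (hc : ∀ d ∈ F, G.pi d ∈ X → G.pi (G.al d) ∈ X) (h5 : G.dg X = 5)
    (h7 : 5 < X.card) {τ1 τ2 : D} (h1 : τ1 ∈ G.tk G.vs) (h2 : τ2 ∈ G.tk G.vs) (h12 : τ1 ≠ τ2) :
    ∃ z, G.LS F τ1 τ2 z := by
  have ho : Odd X.card := by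
    rw [← G.dg_parity hX.1, h5]
    decide
  obtain ⟨l, hl, hi⟩ := exists_legs h5
  have hlF : ∀ i, l i ∉ F := fun i => hL.tf.leg_notF hc ((hl _).2 ⟨i, rfl⟩)
  obtain ⟨a, b, h, -⟩ := PD.of_F hX.1 hL.tf.sub (fun v hv => hL.tf.two v (hX.1 hv)) hl hi hlF
  have h3 := ih _ (h.gr_card h7) h.gr _ (le_refl _) (h.lp hL ho hc) (by rw [h.tk_gr]; exact hb)
    τ1 (by rw [h.tk_gr]; exact h1) τ2 (by rw [h.tk_gr]; exact h2) h12
  obtain ⟨z1, hz1⟩ := h3
  exact h.ls hL ho hc (ih5 _ (card_lt_card hX)) hlF h1 h2 hz1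

/-! ### top level -/

namespace PD

variable {G : CG V D} {X : Finset V} {l a b : ZMod 5 → D} (h : G.PD X l a b)
include h

/-- the new class -/
theorem cls {K : Finset V} {F : Finset D} (hK : G.Cls K F) (hXK : Disjoint X K)
    (hc : ∀ d ∈ F, G.pi d ∈ X → G.pi (G.al d) ∈ X) : h.gr.Cls K (F1 X a b G F) := by
  refine ⟨?_, ?_, ?_, ?_, ?_, ?_⟩
  · intro v hv
    rw [gr_vs, mem_union, mem_sdiff]
    exact Or.inl ⟨hK.Ksub hv, fun h1 => disjoint_left.1 hXK h1 hv⟩
  · intro d hd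
    rcases mem_F1.1 hd with h1 | ⟨i, rfl⟩ | ⟨i, rfl⟩
    · exact h.mem_gr.2 ⟨hK.Fsub h1.1, Or.inl h1.2⟩
    · exact h.mem_gr.2 ⟨h.amem i, Or.inr ⟨i, h.api i⟩⟩
    · exact h.mem_gr.2 ⟨h.bmem i, Or.inr ⟨i, h.bpi i⟩⟩
  · intro d hd
    rcases mem_F1.1 hd with h1 | ⟨i, rfl⟩ | ⟨i, rfl⟩
    · rw [h.gr_out h1.2]
      refine mem_F1.2 (Or.inl ⟨hK.Fal d h1.1, fun h2 => h1.2 ?_⟩)
      have h3 := hc _ (hK.Fal d h1.1) h2
      rwa [G.al_al d (hK.Fsub h1.1)] at h3
    · rw [h.gr_a]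
      exact mem_F1.2 (Or.inr (Or.inr ⟨_, rfl⟩))
    · rw [h.gr_b]
      exact mem_F1.2 (Or.inr (Or.inl ⟨_, rfl⟩))
  · intro d hd
    rcases mem_F1.1 hd with h1 | ⟨i, rfl⟩ | ⟨i, rfl⟩
    · rw [h.gr_out h1.2]
      exact hK.Ftok d h1.1
    · rw [h.gr_a]
      exact fun e => h.anb _ _ e.symm
    · rw [h.gr_b]
      exact h.anb _ _
  · intro v hv hvK
    rw [gr_vs, mem_union, mem_sdiff, mem_P] at hv
    rcases hv with hv | ⟨i, rfl⟩
    · show ((F1 X a b G F).filter fun d => G.pi d = v).card = 2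
      rw [h.F1_out hv.2]
      exact hK.F2 v hv.1 hvK
    · show ((F1 X a b G F).filter fun d => G.pi d = G.pi (l i)).card = 2
      rw [h.F1_in]
      exact card_pair (h.ab i)
  · intro d hd ht
    have h1 : d ∈ h.gr.tk h.gr.vs := by
      rw [mem_tk]
      exact ⟨hd, h.gr.pi_mem d hd, ht⟩
    rw [h.tk_gr, mem_tk] at h1
    exact hK.tokK d h1.1 h1.2.2

omit h in
/-- sets avoiding `K` have no tokens -/
lemma bd_sx {G' : CG V D} {K : Finset V} {F : Finset D} (hK : G'.Cls K F) {Z : Finset V}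
    (hZ : ∀ v ∈ Z, v ∉ K) : G'.bd Z = G'.sx Z := by
  rw [sx_eq]
  have : G'.tk Z = ∅ := by
    rw [eq_empty_iff_forall_notMem]
    intro d hd
    rw [mem_tk] at hd
    exact hZ _ hd.2.1 (hK.tokK d hd.1 hd.2.2)
  rw [this, union_empty]

/-- the new instance -/
theorem inst {K : Finset V} {F : Finset D} (hI : G.Inst K F) (hXK : Disjoint X K)
    (ho : Odd X.card) (hc : ∀ d ∈ F, G.pi d ∈ X → G.pi (G.al d) ∈ X) :
    h.gr.Inst K (F1 X a b G F) := by
  have hcl := h.cls hI.cls hXK hc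
  refine ⟨?_, ?_, h.b0 hI.b0 ho, hcl, ?_⟩
  · have h1 : h.gr.vs.card = (G.vs \ X).card + 5 := by
      rw [gr_vs, card_union_of_disjoint (disjoint_sdiff_self_left.mono_right h.P_sub), h.card_P]
    have h2 := card_sdiff_add_card_inter G.vs X
    rw [inter_eq_right.2 h.sub] at h2
    have h3 := hI.even
    rw [Nat.even_iff] at h3 ⊢
    rw [Nat.odd_iff] at ho
    omega
  · rw [h.tk_gr]
    exact hI.four
  · intro Z hZ hZo
    obtain ⟨W', h1, h2, h3, h4, h5, h6, h7⟩ := h.closed_cases ho hZ.sub hc fun d hd hv => hZ.clo d hd hv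
    have hW' : ∀ v ∈ W', v ∉ K := by
      intro v hv hk
      by_cases hx : v ∈ X
      · exact disjoint_left.1 hXK hx hk
      · exact hZ.dis v (h7 v hv hx) hk
    have h8 := hI.cc W' ⟨h1, hW', h5⟩ (h2.2 hZo)
    rw [bd_sx hcl hZ.dis, h4, ← bd_sx hI.cls hW']
    exact h8

/-- **top level lift** (`t` may be any distribution of new tokens outside `X`) -/
theorem lift_top {K : Finset V} {F : Finset D} (hXK : Disjoint X K) (ho : Odd X.card)
    (hL : (G.res X h.sub).LP (F.filter fun d => G.pi d ∈ X)) (hH : HB V D 5 X.card)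
    (hlF : ∀ i, l i ∉ F) {z1 : D → ℕ} {t : V → ℕ} (ht : ∀ v ∈ X, t v = 0)
    (hw : h.gr.ZW z1 t) (hb : h.gr.ZB z1 t)
    (hJ : ∀ d ∈ h.gr.ds, d ∉ F1 X a b G F → G.pi d ∉ K → z1 d ≤ 1) :
    ∃ z : D → ℕ, G.ZW z t ∧ G.ZB z t ∧ (∀ d ∈ G.ds, d ∉ F → G.pi d ∉ K → z d ≤ 1) ∧
      (∀ d ∈ G.ds, G.pi d ∉ X → z d = z1 d) ∧ ∀ i, z (l i) = z1 (l i) := by
  have hlF1 : ∀ i, l i ∉ F1 X a b G F := by
    intro i hi
    rcases mem_F1.1 hi with e | ⟨j, e⟩ | ⟨j, e⟩
    · exact hlF i e.1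
    · exact h.anl j i e
    · exact h.bnl j i e
  obtain ⟨z, e1, e2, e3, e4⟩ := h.lift ho hL hH ht hw hb fun i =>
    hJ (l i) (h.mem_gr.2 ⟨h.lmem i, Or.inr ⟨i, rfl⟩⟩) (hlF1 i) (disjoint_left.1 hXK (h.lX i))
  have e5 : ∀ d ∈ G.ds, G.pi d ∉ X → z d = z1 d := fun d hd hx => e3 d hd (Or.inl fun c => hx c.1)
  refine ⟨z, e1, e2, ?_, e5, fun i => e3 _ (h.lmem i) (Or.inr ((h.leg _).2 ⟨i, rfl⟩))⟩
  intro d hd hF hK
  by_cases hx : G.pi d ∈ X
  · exact e4 d hd hx hF
  · rw [e5 d hd hx]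
    refine hJ d (h.mem_gr.2 ⟨hd, Or.inl hx⟩) (fun c => ?_) hK
    rcases mem_F1.1 c with e | ⟨j, e⟩ | ⟨j, e⟩
    · exact hF e.1
    · exact h.nota hx j e
    · exact h.notb hx j e

end PD

end JK.CG
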