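import Pool.Agent.Lib.JK.ZW

/-! Killing finishes, in z-form (S5, MP_c95763_co). -/

set_option autoImplicit false

namespace JK.CG

open Finset Classical

variable {V D : Type*} {G : CG V D}

lemma mem_ztch {z : D → ℕ} {v : V} :
    v ∈ G.ztch z ↔ v ∈ G.vs ∧ ∃ d ∈ G.ds, G.pi d = v ∧ z d ≠ 1 := by
  unfold ztch
  rw [mem_filter]

namespace ZD

variable {z : D → ℕ} {t : V → ℕ} {al' ρ : D → D} (h : G.ZD z t al' ρ)
include h

/-- the new graph -/
def gr : CG V D where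
  vs := G.vs
  ds := G.ds
  pi := G.pi
  al := al'
  pi_mem := G.pi_mem
  al_mem := h.mem
  al_al := h.inv
  cubic := G.cubic

@[simp] lemma gr_vs : h.gr.vs = G.vs := rfl
@[simp] lemma gr_ds : h.gr.ds = G.ds := rfl
@[simp] lemma gr_pi : h.gr.pi = G.pi := rfl
@[simp] lemma gr_al : h.gr.al = al' := rfl

/-- the vertex of the partner -/
lemma pi_al' {d : D} (hd : d ∈ G.ds) (hn : al' d ≠ d) : G.pi (al' d) = G.pi (G.al (ρ d)) := by
  have h1 := h.pair d hd hn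
  have h2 : al' (al' d) ≠ al' d := by
    rw [h.inv d hd]
    exact fun e => hn e.symm
  have h3 := h.pair _ (h.mem d hd) h2
  rw [← h1.2.2.2.1]
  exact h3.2.2.1.symm

/-- number of tokens in a set -/
lemma card_tk' {X : Finset V} (hX : X ⊆ G.vs) :
    (h.gr.tk X).card = ∑ d ∈ G.tk X, z d + ∑ v ∈ X, t v := by
  rw [card_eq_sum_card_fiberwise (s := h.gr.tk X) (t := X) (f := G.pi)
    (fun d hd => mem_coe.2 (((mem_tk _).1 (mem_coe.1 hd)).2.1))]
  have h1 : ∀ v ∈ X, ((h.gr.tk X).filter fun d => G.pi d = v).card =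
      t v + ∑ d ∈ G.ds.filter fun d => G.pi d = v ∧ G.al d = d, z d := by
    intro v hv
    rw [← h.tok v (hX hv)]
    congr 1
    ext d
    rw [mem_filter, mem_filter, mem_tk]
    simp only [gr_ds, gr_pi, gr_al]
    constructor
    · rintro ⟨⟨a, -, b⟩, c⟩
      exact ⟨a, c, b⟩
    · rintro ⟨a, c, b⟩
      exact ⟨⟨a, by rw [c]; exact hv, b⟩, c⟩
  rw [sum_congr rfl h1, sum_add_distrib, add_comm]
  congr 1
  rw [← sum_fiberwise_of_maps_to (s := G.tk X) (t := X) (g := G.pi)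
    (fun d hd => ((mem_tk _).1 hd).2.1)]
  refine sum_congr rfl fun v hv => ?_
  refine sum_congr ?_ fun _ _ => rfl
  ext d
  rw [mem_filter, mem_filter, mem_tk]
  constructor
  · rintro ⟨a, c, b⟩
    exact ⟨⟨a, by rw [c]; exact hv, b⟩, c⟩
  · rintro ⟨⟨a, -, b⟩, c⟩
    exact ⟨a, c, b⟩

/-- the boundary in the new graph -/
lemma mem_bd_gr {X : Finset V} {d : D} :
    d ∈ h.gr.bd X ↔ d ∈ G.ds ∧ al' d ≠ d ∧ ρ d ∈ G.bd X := by
  rw [mem_bd]
  simp only [gr_ds, gr_pi, gr_al]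
  constructor
  · rintro ⟨h1, h2, h3⟩
    have hn : al' d ≠ d := fun e => h3 (by rw [e]; exact h2)
    have h4 := h.pair d h1 hn
    refine ⟨h1, hn, (mem_bd _).2 ⟨h4.1, by rw [h4.2.2.1]; exact h2, ?_⟩⟩
    rw [← h.pi_al' h1 hn]
    exact h3
  · rintro ⟨h1, hn, h2⟩
    have h4 := h.pair d h1 hn
    obtain ⟨-, h5, h6⟩ := (mem_bd _).1 h2
    refine ⟨h1, by rw [← h4.2.2.1]; exact h5, ?_⟩
    rw [h.pi_al' h1 hn]
    exact h6

lemma card_bd {X : Finset V} : (h.gr.bd X).card = ∑ d ∈ G.bd X, z d := by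
  rw [card_eq_sum_card_fiberwise (s := h.gr.bd X) (t := G.bd X) (f := ρ)
    (fun d hd => mem_coe.2 ((h.mem_bd_gr).1 (mem_coe.1 hd)).2.2)]
  refine sum_congr rfl fun e he => ?_
  have he' := (mem_bd _).1 he
  have hne : G.al e ≠ e := fun h1 => he'.2.2 (by rw [h1]; exact he'.2.1)
  rw [← h.cnt e he'.1 hne]
  congr 1
  ext d
  rw [mem_filter, mem_filter, h.mem_bd_gr]
  constructor
  · rintro ⟨⟨a, b, -⟩, c⟩
    exact ⟨a, b, c⟩
  · rintro ⟨a, b, c⟩
    exact ⟨⟨a, b, by rw [c]; exact he⟩, c⟩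

/-- degrees in the new graph -/
theorem dg_gr {X : Finset V} (hX : X ⊆ G.vs) : h.gr.dg X = G.zc z t X := by
  unfold dg zc
  rw [h.card_bd, h.card_tk' hX, add_assoc]

/-- number of tokens of the new graph -/
theorem card_tk : (h.gr.tk h.gr.vs).card = ∑ d ∈ G.tk G.vs, z d + ∑ v ∈ G.vs, t v :=
  h.card_tk' (Finset.Subset.refl _)

/-- matchings lift -/
theorem lift_pm {M : Finset D} (hM : h.gr.IsPM M) : G.IsPM (M.image ρ) := by
  have hp : ∀ d ∈ M, d ∈ G.ds ∧ al' d ≠ d := fun d hd => ⟨hM.sub hd, hM.notok d hd⟩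
  refine ⟨?_, ?_, ?_, ?_⟩
  · intro d hd
    obtain ⟨e, he, rfl⟩ := mem_image.1 hd
    exact (h.pair e (hp e he).1 (hp e he).2).1
  · intro d hd
    obtain ⟨e, he, rfl⟩ := mem_image.1 hd
    refine mem_image.2 ⟨al' e, hM.closed e he, ?_⟩
    exact (h.pair e (hp e he).1 (hp e he).2).2.2.2.1
  · intro d hd
    obtain ⟨e, he, rfl⟩ := mem_image.1 hd
    exact (h.pair e (hp e he).1 (hp e he).2).2.1
  · intro v hv
    have h1 := hM.one v hv
    rw [card_eq_one] at h1 ⊢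
    obtain ⟨e, he⟩ := h1
    have he' : e ∈ M ∧ G.pi e = v := by
      have : e ∈ M.filter fun d => h.gr.pi d = v := by rw [he]; exact mem_singleton_self e
      exact mem_filter.1 this
    refine ⟨ρ e, ?_⟩
    ext d
    rw [mem_filter, mem_singleton]
    constructor
    · rintro ⟨h2, h3⟩
      obtain ⟨x, hx, rfl⟩ := mem_image.1 h2
      have h4 := (h.pair x (hp x hx).1 (hp x hx).2).2.2.1
      have h5 : x ∈ M.filter fun d => h.gr.pi d = v := mem_filter.2 ⟨hx, h4.symm.trans h3⟩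
      rw [he, mem_singleton] at h5
      rw [h5]
    · rintro rfl
      exact ⟨mem_image_of_mem _ he'.1,
        (h.pair e (hp e he'.1).1 (hp e he'.1).2).2.2.1.trans he'.2⟩

/-- and avoid the killed edges -/
theorem lift_not {M : Finset D} (hM : h.gr.IsPM M) {d : D} (hd : d ∈ G.ds) (hz : z d = 0) :
    d ∉ M.image ρ := by
  have _ := hd
  intro h1
  obtain ⟨e, he, rfl⟩ := mem_image.1 h1
  exact (h.pair e (hM.sub he) (hM.notok e he)).2.2.2.2 hz

/-- nothing changes at an untouched vertex -/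
theorem at_untouched (hw : G.ZW z t) {d : D} (hd : d ∈ G.ds) (hv : G.pi d ∉ G.ztch z) :
    al' d = G.al d ∧ ρ d = d ∧ t (G.pi d) = 0 := by
  have h1 : ∀ e ∈ G.ds, G.pi e = G.pi d → z e = 1 := by
    intro e he hp
    by_contra hne
    exact hv (mem_ztch.2 ⟨G.pi_mem d hd, e, he, hp, hne⟩)
  have h2 := h.off d hd (by rw [h1 d hd rfl]; exact Nat.one_ne_zero)
  refine ⟨h2.1, h2.2, ?_⟩
  have h3 := hw.sum (G.pi d) (G.pi_mem d hd)
  have h4 : ∑ e ∈ G.ds.filter fun e => G.pi e = G.pi d, z e = 3 := by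
    rw [← G.cubic _ (G.pi_mem d hd), card_eq_sum_ones]
    refine sum_congr rfl fun e he => ?_
    rw [mem_filter] at he
    exact h1 e he.1 he.2
  omega

variable {K : Finset V} {F : Finset D}

omit h in
lemma one_untouched {d : D} (hd : d ∈ G.ds) (hv : G.pi d ∉ G.ztch z) : z d = 1 := by
  by_contra hne
  exact hv (mem_ztch.2 ⟨G.pi_mem d hd, d, hd, rfl, hne⟩)

theorem adm_iff (hc : G.Cls K F) (hw : G.ZW z t) {Z : Finset V} :
    h.gr.Adm (K ∪ G.ztch z) (F.filter fun d => z d ≠ 0) Z ↔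
      G.Adm K F Z ∧ ∀ v ∈ Z, v ∉ G.ztch z := by
  constructor
  · intro hZ
    have h0 : ∀ v ∈ Z, v ∉ K ∧ v ∉ G.ztch z := fun v hv => by
      have := hZ.dis v hv
      rwa [mem_union, not_or] at this
    refine ⟨⟨hZ.sub, fun v hv => (h0 v hv).1, ?_⟩, fun v hv => (h0 v hv).2⟩
    intro d hd hp
    have hv := (h0 _ hp).2
    have hz : z d ≠ 0 := by
      rw [one_untouched (hc.Fsub hd) hv]
      exact Nat.one_ne_zero
    have := hZ.clo d (mem_filter.2 ⟨hd, hz⟩) hp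
    rwa [gr_al, gr_pi, (h.at_untouched hw (hc.Fsub hd) hv).1] at this
  · rintro ⟨hZ, ht⟩
    refine ⟨hZ.sub, fun v hv => by rw [mem_union, not_or]; exact ⟨hZ.dis v hv, ht v hv⟩, ?_⟩
    intro d hd hp
    rw [mem_filter] at hd
    rw [gr_al, gr_pi, (h.off d (hc.Fsub hd.1) hd.2).1]
    exact hZ.clo d hd.1 hp

lemma cls (hc : G.Cls K F) (hw : G.ZW z t) :
    h.gr.Cls (K ∪ G.ztch z) (F.filter fun d => z d ≠ 0) := by
  refine ⟨?_, ?_, ?_, ?_, ?_, ?_⟩
  · intro v hv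
    rcases mem_union.1 hv with h1 | h1
    · exact hc.Ksub h1
    · exact (mem_ztch.1 h1).1
  · exact (filter_subset _ _).trans hc.Fsub
  · intro d hd
    rw [mem_filter] at hd ⊢
    have h1 := hc.Fsub hd.1
    rw [gr_al, (h.off d h1 hd.2).1, hw.sym d h1]
    exact ⟨hc.Fal d hd.1, hd.2⟩
  · intro d hd
    rw [mem_filter] at hd
    rw [gr_al, (h.off d (hc.Fsub hd.1) hd.2).1]
    exact hc.Ftok d hd.1
  · intro v hv hvK
    rw [mem_union, not_or] at hvK
    rw [← hc.F2 v hv hvK.1]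
    congr 1
    ext d
    rw [mem_filter, mem_filter, mem_filter, gr_pi]
    constructor
    · rintro ⟨⟨a, -⟩, b⟩; exact ⟨a, b⟩
    · rintro ⟨a, b⟩
      have h1 : z d = 1 := one_untouched (hc.Fsub a) (by rw [b]; exact hvK.2)
      exact ⟨⟨a, by rw [h1]; exact Nat.one_ne_zero⟩, b⟩
  · intro d hd hal
    rw [gr_al] at hal
    rw [gr_ds] at hd
    rw [mem_union, gr_pi]
    by_cases ht : G.pi d ∈ G.ztch z
    · exact Or.inr ht
    · rw [(h.at_untouched hw hd ht).1] at hal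
      exact Or.inl (hc.tokK d hd hal)

lemma bd_untouched (hw : G.ZW z t) {Z : Finset V} (hZ : ∀ v ∈ Z, v ∉ G.ztch z) :
    h.gr.bd Z = G.bd Z := by
  ext d
  rw [mem_bd, mem_bd]
  simp only [gr_ds, gr_pi, gr_al]
  constructor
  · rintro ⟨h1, h2, h3⟩
    rw [(h.at_untouched hw h1 (hZ _ h2)).1] at h3
    exact ⟨h1, h2, h3⟩
  · rintro ⟨h1, h2, h3⟩
    rw [← (h.at_untouched hw h1 (hZ _ h2)).1] at h3
    exact ⟨h1, h2, h3⟩

theorem inst (hI : G.Inst K F) (hw : G.ZW z t) (hb : G.ZB z t)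
    (h4 : ∑ d ∈ G.tk G.vs, z d + ∑ v ∈ G.vs, t v ≤ 4) :
    h.gr.Inst (K ∪ G.ztch z) (F.filter fun d => z d ≠ 0) := by
  refine ⟨hI.even, ?_, ?_, h.cls hI.cls hw, ?_⟩
  · rw [h.card_tk]
    exact h4
  · intro X hX ho
    rw [h.dg_gr hX]
    exact hb X hX ho
  · intro Z hZ ho
    obtain ⟨h1, h2⟩ := (h.adm_iff hI.cls hw).1 hZ
    rw [h.bd_untouched hw h2]
    exact hI.cc Z h1 ho

theorem good (hc : G.Cls K F) (hw : G.ZW z t) (hj : G.ZJoined K F z) {M : Finset D}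
    (hM : h.gr.Good (K ∪ G.ztch z) (F.filter fun d => z d ≠ 0) M) :
    G.Good K F (M.image ρ) := by
  have hpm := h.lift_pm hM.pm
  refine ⟨hpm, fun Z hZ ho => ?_⟩
  by_cases ht : ∃ v ∈ Z, v ∈ G.ztch z
  · rcases hj Z hZ ht with ⟨d, h1, h2⟩ | ⟨d1, h1, d2, h2, h3, h4⟩
    · exact ⟨d, h1, h.lift_not hM.pm ((mem_bd _).1 h1).1 h2⟩
    · exact KD.two_out hpm h1 h2 h3 h4
  · push Not at ht
    obtain ⟨d, h1, h2⟩ := hM.hit Z ((h.adm_iff hc hw).2 ⟨hZ, ht⟩) ho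
    rw [h.bd_untouched hw ht] at h1
    refine ⟨d, h1, fun h3 => ?_⟩
    obtain ⟨e, he, hed⟩ := mem_image.1 h3
    obtain ⟨k1, k2, -⟩ := (mem_bd _).1 h1
    have h5 := h.pair e (hM.pm.sub he) (hM.pm.notok e he)
    have h6 : G.pi e = G.pi d := by rw [← h5.2.2.1, hed]
    have h8 : G.pi e ∉ G.ztch z := by
      rw [h6]
      exact ht _ k2
    have h7 := (h.at_untouched hw (hM.pm.sub he) h8).2.1
    rw [hed] at h7
    exact h2 (h7 ▸ he)

end ZD

/-- **killing finishes, z-form**: a minimal counterexample has no joined bridgeless weights with at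
most four tokens which touch a fresh vertex -/
theorem MC2.zkill {K : Finset V} {F : Finset D} (h : MC2 G K F) (hf : G.Full K F)
    {z : D → ℕ} {t : V → ℕ} (hw : G.ZW z t) (hb : G.ZB z t)
    (h4 : ∑ d ∈ G.tk G.vs, z d + ∑ v ∈ G.vs, t v ≤ 4) (hj : G.ZJoined K F z)
    (hv : ∃ v ∈ G.ztch z, v ∉ K) : False := by
  have hI := h.inst
  obtain ⟨al', ρ, hd⟩ := hw.exists_zd
  have hI' := hd.inst hI hw hb h4
  have hlt : mu hd.gr (K ∪ G.ztch z) (F.filter fun d => z d ≠ 0) < mu G K F := by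
    unfold mu
    apply card_lt_card
    refine ⟨?_, ?_⟩
    · intro v hv
      rw [mem_filter] at hv ⊢
      refine ⟨hv.1, fun ha => hv.2 ?_⟩
      intro Z hZ
      exact ha Z ((hd.adm_iff hI.cls hw).1 hZ).1
    · intro hh
      obtain ⟨v, hv1, hv2⟩ := hv
      have hvs := (mem_ztch.1 hv1).1
      have h1 : v ∈ G.vs.filter fun v => ¬ G.Abs K F v := by
        rw [mem_filter]
        exact ⟨hvs, fun ha => hv2 (hf.abs _ hvs ha)⟩
      have h2 := hh h1
      rw [mem_filter] at h2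
      apply h2.2
      intro Z hZ hvZ
      exact ((hd.adm_iff hI.cls hw).1 hZ).2 _ hvZ hv1
  obtain ⟨M, hM⟩ := h.ih2 hd.gr _ _ rfl hI' hlt
  exact h.no ⟨_, hd.good hI.cls hw hj hM⟩

end JK.CG
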