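import Pool.Agent.Lib.JK.ZLoc

/-! Removal of two adjacent vertices `p1 = pi y`, `p2 = pi (al y)` (S5, MP_c95763_co): the darts
`al x1`, `al x2` are joined to an edge `h` and the darts `al j1`, `al j2` to an edge `f` (if `j1` is a
token then `al j2` becomes a token, and conversely). Every weight of the new graph with
`h + f ≤ 1` lifts (START STEP of helper84). -/

set_option autoImplicit false
set_option linter.unusedSimpArgs false

namespace JK.CG

open Finset Classical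

variable {V D : Type*} (G : CG V D)

/-- the data of the removal of two adjacent vertices -/
structure RP (x1 j1 y x2 j2 : D) : Prop where
  mx1 : x1 ∈ G.ds
  mj1 : j1 ∈ G.ds
  my : y ∈ G.ds
  mx2 : x2 ∈ G.ds
  mj2 : j2 ∈ G.ds
  px1 : G.pi x1 = G.pi y
  pj1 : G.pi j1 = G.pi y
  px2 : G.pi x2 = G.pi (G.al y)
  pj2 : G.pi j2 = G.pi (G.al y)
  hp : G.pi y ≠ G.pi (G.al y)
  n1 : x1 ≠ j1
  n2 : x1 ≠ y
  n3 : j1 ≠ y
  n4 : x2 ≠ j2
  n5 : x2 ≠ G.al y
  n6 : j2 ≠ G.al y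
  ox1 : G.pi (G.al x1) ≠ G.pi y ∧ G.pi (G.al x1) ≠ G.pi (G.al y)
  ox2 : G.pi (G.al x2) ≠ G.pi y ∧ G.pi (G.al x2) ≠ G.pi (G.al y)
  oj1 : G.al j1 = j1 ∨ (G.pi (G.al j1) ≠ G.pi y ∧ G.pi (G.al j1) ≠ G.pi (G.al y))
  oj2 : G.al j2 = j2 ∨ (G.pi (G.al j2) ≠ G.pi y ∧ G.pi (G.al j2) ≠ G.pi (G.al y))

/-- all darts at a vertex -/
lemma three_at {a b c : D} (ha : a ∈ G.ds) (hb : b ∈ G.ds) (hc : c ∈ G.ds)
    (pb : G.pi b = G.pi a) (pc : G.pi c = G.pi a) (hab : a ≠ b) (hac : a ≠ c) (hbc : b ≠ c) {d : D}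
    (hd : d ∈ G.ds) (hp : G.pi d = G.pi a) : d = a ∨ d = b ∨ d = c := by
  have e1 : ({a, b, c} : Finset D) = G.ds.filter fun d => G.pi d = G.pi a := by
    apply eq_of_subset_of_card_le
    · intro x hx
      simp only [mem_insert, mem_singleton] at hx
      rcases hx with rfl | rfl | rfl
      · exact mem_filter.2 ⟨ha, rfl⟩
      · exact mem_filter.2 ⟨hb, pb⟩
      · exact mem_filter.2 ⟨hc, pc⟩
    · rw [G.cubic _ (G.pi_mem a ha), card_insert_of_notMem, card_insert_of_notMem, card_singleton]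
      · rw [mem_singleton]; exact hbc
      · rw [mem_insert, mem_singleton]
        rintro (h | h)
        · exact hab h
        · exact hac h
  have : d ∈ ({a, b, c} : Finset D) := by
    rw [e1]
    exact mem_filter.2 ⟨hd, hp⟩
  simpa using this

variable {G} {x1 j1 y x2 j2 : D}

namespace RP

lemma al_inj {a b : D} (ha : a ∈ G.ds) (hb : b ∈ G.ds) (h : G.al a = G.al b) : a = b := by
  rw [← G.al_al a ha, ← G.al_al b hb, h]

lemma at1 (h : G.RP x1 j1 y x2 j2) {d : D} (hd : d ∈ G.ds) (hp : G.pi d = G.pi y) :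
    d = y ∨ d = x1 ∨ d = j1 :=
  G.three_at h.my h.mx1 h.mj1 h.px1 h.pj1 h.n2.symm h.n3.symm h.n1 hd hp

lemma at2 (h : G.RP x1 j1 y x2 j2) {d : D} (hd : d ∈ G.ds) (hp : G.pi d = G.pi (G.al y)) :
    d = G.al y ∨ d = x2 ∨ d = j2 :=
  G.three_at (G.al_mem y h.my) h.mx2 h.mj2 h.px2 h.pj2 h.n5.symm h.n6.symm h.n4 hd hp

lemma symm (h : G.RP x1 j1 y x2 j2) : G.RP x2 j2 (G.al y) x1 j1 where
  mx1 := h.mx2
  mj1 := h.mj2
  my := G.al_mem y h.my
  mx2 := h.mx1
  mj2 := h.mj1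
  px1 := h.px2
  pj1 := h.pj2
  px2 := by rw [G.al_al y h.my]; exact h.px1
  pj2 := by rw [G.al_al y h.my]; exact h.pj1
  hp := by rw [G.al_al y h.my]; exact h.hp.symm
  n1 := h.n4
  n2 := h.n5
  n3 := h.n6
  n4 := h.n1
  n5 := by rw [G.al_al y h.my]; exact h.n2
  n6 := by rw [G.al_al y h.my]; exact h.n3
  ox1 := by rw [G.al_al y h.my]; exact h.ox2.symm
  ox2 := by rw [G.al_al y h.my]; exact h.ox1.symm
  oj1 := by rw [G.al_al y h.my]; exact h.oj2.imp id And.symm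
  oj2 := by rw [G.al_al y h.my]; exact h.oj1.imp id And.symm

end RP

/-- the new partner -/
noncomputable def rpal (G : CG V D) (x1 j1 x2 j2 d : D) : D :=
  if G.al d = x1 then G.al x2 else if G.al d = x2 then G.al x1 else
  if G.al d = j1 then (if G.al j2 = j2 then d else G.al j2) else
  if G.al d = j2 then (if G.al j1 = j1 then d else G.al j1) else G.al d

namespace RP

variable (h : G.RP x1 j1 y x2 j2)
include h

lemma x12 : x1 ≠ x2 := fun e => h.hp (by rw [← h.px1, e, h.px2])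
lemma j12 : j1 ≠ j2 := fun e => h.hp (by rw [← h.pj1, e, h.pj2])
lemma x1j2 : x1 ≠ j2 := fun e => h.hp (by rw [← h.px1, e, h.pj2])
lemma j1x2 : j1 ≠ x2 := fun e => h.hp (by rw [← h.pj1, e, h.px2])

lemma ax1 : G.al x1 ∈ G.ds := G.al_mem _ h.mx1
lemma ax2 : G.al x2 ∈ G.ds := G.al_mem _ h.mx2
lemma aj1 : G.al j1 ∈ G.ds := G.al_mem _ h.mj1
lemma aj2 : G.al j2 ∈ G.ds := G.al_mem _ h.mj2

/-- the values of the new pairing -/
lemma rpal_x1 : G.rpal x1 j1 x2 j2 (G.al x1) = G.al x2 := by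
  unfold rpal
  rw [G.al_al x1 h.mx1, if_pos rfl]

lemma rpal_x2 : G.rpal x1 j1 x2 j2 (G.al x2) = G.al x1 := by
  unfold rpal
  rw [G.al_al x2 h.mx2, if_neg h.x12.symm, if_pos rfl]

lemma rpal_j1 : G.rpal x1 j1 x2 j2 (G.al j1) = if G.al j2 = j2 then G.al j1 else G.al j2 := by
  unfold rpal
  rw [G.al_al j1 h.mj1, if_neg h.n1.symm, if_neg h.j1x2, if_pos rfl]

lemma rpal_j2 : G.rpal x1 j1 x2 j2 (G.al j2) = if G.al j1 = j1 then G.al j2 else G.al j1 := by
  unfold rpal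
  rw [G.al_al j2 h.mj2, if_neg h.x1j2.symm, if_neg h.n4.symm, if_neg h.j12.symm, if_pos rfl]

omit h in
lemma rpal_off {d : D} (e1 : d ≠ G.al x1) (e2 : d ≠ G.al x2) (e3 : d ≠ G.al j1) (e4 : d ≠ G.al j2)
    (hd : d ∈ G.ds) : G.rpal x1 j1 x2 j2 d = G.al d := by
  unfold rpal
  have k : ∀ a, d ≠ G.al a → G.al d ≠ a := fun a h1 h2 => h1 (by rw [← h2, G.al_al d hd])
  rw [if_neg (k _ e1), if_neg (k _ e2), if_neg (k _ e3), if_neg (k _ e4)]


lemma tk1 (hd : G.pi (G.al j1) ≠ G.pi y ∧ G.pi (G.al j1) ≠ G.pi (G.al y)) : G.al j1 ≠ j1 := by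
  intro e
  rw [e, h.pj1] at hd
  exact hd.1 rfl

lemma tk2 (hd : G.pi (G.al j2) ≠ G.pi y ∧ G.pi (G.al j2) ≠ G.pi (G.al y)) : G.al j2 ≠ j2 := by
  intro e
  rw [e, h.pj2] at hd
  exact hd.2 rfl

/-- the ordinary darts keep their partner outside `p1`, `p2` -/
lemma off_al {d : D} (hd : d ∈ G.ds) (hp : G.pi d ≠ G.pi y ∧ G.pi d ≠ G.pi (G.al y))
    (e1 : d ≠ G.al x1) (e2 : d ≠ G.al x2) (e3 : d ≠ G.al j1) (e4 : d ≠ G.al j2) :
    G.pi (G.al d) ≠ G.pi y ∧ G.pi (G.al d) ≠ G.pi (G.al y) := by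
  have k : ∀ a, d ≠ G.al a → G.al d ≠ a := fun a h1 h2 => h1 (by rw [← h2, G.al_al d hd])
  constructor
  · intro hq
    rcases h.at1 (G.al_mem d hd) hq with h1 | h1 | h1
    · exact hp.2 (by rw [← h1, G.al_al d hd])
    · exact k _ e1 h1
    · exact k _ e3 h1
  · intro hq
    rcases h.at2 (G.al_mem d hd) hq with h1 | h1 | h1
    · apply hp.1
      have := al_inj hd h.my h1
      rw [this]
    · exact k _ e2 h1
    · exact k _ e4 h1

/-- the smaller graph -/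
noncomputable def gr : CG V D where
  vs := G.vs.filter fun v => v ≠ G.pi y ∧ v ≠ G.pi (G.al y)
  ds := G.ds.filter fun d => G.pi d ≠ G.pi y ∧ G.pi d ≠ G.pi (G.al y)
  pi := G.pi
  al := G.rpal x1 j1 x2 j2
  pi_mem := by
    intro d hd
    rw [mem_filter] at hd ⊢
    exact ⟨G.pi_mem d hd.1, hd.2⟩
  al_mem := by
    intro d hd
    rw [mem_filter] at hd ⊢
    obtain ⟨hd, hp⟩ := hd
    by_cases e1 : d = G.al x1
    · rw [e1, h.rpal_x1]
      exact ⟨h.ax2, h.ox2⟩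
    by_cases e2 : d = G.al x2
    · rw [e2, h.rpal_x2]
      exact ⟨h.ax1, h.ox1⟩
    by_cases e3 : d = G.al j1
    · rw [e3, h.rpal_j1]
      rw [e3] at hp
      split_ifs with h1
      · exact ⟨h.aj1, hp⟩
      · exact ⟨h.aj2, h.oj2.resolve_left h1⟩
    by_cases e4 : d = G.al j2
    · rw [e4, h.rpal_j2]
      rw [e4] at hp
      split_ifs with h1
      · exact ⟨h.aj2, hp⟩
      · exact ⟨h.aj1, h.oj1.resolve_left h1⟩
    rw [rpal_off e1 e2 e3 e4 hd]
    exact ⟨G.al_mem d hd, h.off_al hd hp e1 e2 e3 e4⟩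
  al_al := by
    intro d hd
    rw [mem_filter] at hd
    obtain ⟨hd, hp⟩ := hd
    by_cases e1 : d = G.al x1
    · rw [e1, h.rpal_x1, h.rpal_x2]
    by_cases e2 : d = G.al x2
    · rw [e2, h.rpal_x2, h.rpal_x1]
    by_cases e3 : d = G.al j1
    · have t1 : G.al j1 ≠ j1 := h.tk1 (by rw [← e3]; exact hp)
      rw [e3, h.rpal_j1]
      split_ifs with h1
      · rw [h.rpal_j1, if_pos h1]
      · rw [h.rpal_j2, if_neg t1]
    by_cases e4 : d = G.al j2
    · have t2 : G.al j2 ≠ j2 := h.tk2 (by rw [← e4]; exact hp)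
      rw [e4, h.rpal_j2]
      split_ifs with h1
      · rw [h.rpal_j2, if_pos h1]
      · rw [h.rpal_j1, if_neg t2]
    rw [rpal_off e1 e2 e3 e4 hd]
    have k : ∀ a, a ∈ G.ds → G.pi d ≠ G.pi a → G.al d ≠ G.al a := fun a ha h1 h2 =>
      h1 (by rw [al_inj hd ha h2])
    rw [rpal_off (k _ h.mx1 (by rw [h.px1]; exact hp.1)) (k _ h.mx2 (by rw [h.px2]; exact hp.2))
      (k _ h.mj1 (by rw [h.pj1]; exact hp.1)) (k _ h.mj2 (by rw [h.pj2]; exact hp.2))
      (G.al_mem d hd), G.al_al d hd]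
  cubic := by
    intro v hv
    rw [mem_filter] at hv
    rw [← G.cubic v hv.1]
    congr 1
    ext d
    rw [mem_filter, mem_filter, mem_filter]
    constructor
    · rintro ⟨⟨a, -⟩, b⟩
      exact ⟨a, b⟩
    · rintro ⟨a, b⟩
      exact ⟨⟨a, by rw [b]; exact hv.2⟩, b⟩

lemma mem_vs {v : V} : v ∈ h.gr.vs ↔ v ∈ G.vs ∧ v ≠ G.pi y ∧ v ≠ G.pi (G.al y) := mem_filter

lemma mem_ds {d : D} : d ∈ h.gr.ds ↔ d ∈ G.ds ∧ G.pi d ≠ G.pi y ∧ G.pi d ≠ G.pi (G.al y) :=
  mem_filter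

lemma gr_pi : h.gr.pi = G.pi := rfl
lemma gr_al : h.gr.al = G.rpal x1 j1 x2 j2 := rfl


end RP

/-- the dart `d` crosses `X` (outwards, tokens included) -/
def cr (G : CG V D) (X : Finset V) (d : D) : Prop :=
  G.pi d ∈ X ∧ (G.pi (G.al d) ∉ X ∨ G.al d = d)

/-- the edge part of the value -/
noncomputable def zx (G : CG V D) (z : D → ℕ) (X : Finset V) : ℕ :=
  ∑ d ∈ G.ds, if G.cr X d then z d else 0

lemma zc_eq_zx (z : D → ℕ) (t : V → ℕ) (X : Finset V) :
    G.zc z t X = G.zx z X + ∑ v ∈ X, t v := by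
  unfold zc zx
  congr 1
  rw [← sum_filter, ← sum_union]
  · refine sum_congr ?_ fun _ _ => rfl
    ext d
    rw [mem_union, mem_bd, mem_tk, mem_filter]
    unfold cr
    tauto
  · rw [disjoint_left]
    intro d hd hd'
    rw [mem_bd] at hd
    rw [mem_tk] at hd'
    exact hd.2.2 (by rw [hd'.2.2]; exact hd.2.1)

lemma sum_erase' (s : Finset D) (g : D → ℕ) (a : D) :
    ∑ d ∈ s, g d = (if a ∈ s then g a else 0) + ∑ d ∈ s.erase a, g d := by
  by_cases ha : a ∈ s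
  · rw [if_pos ha, add_sum_erase s g ha]
  · rw [if_neg ha, erase_eq_of_notMem ha, zero_add]

namespace RP

variable (h : G.RP x1 j1 y x2 j2)
include h

/-- the ordinary darts -/
noncomputable def R : Finset D :=
  (((h.gr.ds.erase (G.al x1)).erase (G.al x2)).erase (G.al j1)).erase (G.al j2)

lemma mem_R {d : D} : d ∈ h.R ↔ d ∈ h.gr.ds ∧ d ≠ G.al x1 ∧ d ≠ G.al x2 ∧ d ≠ G.al j1 ∧
    d ≠ G.al j2 := by
  unfold R
  rw [mem_erase, mem_erase, mem_erase, mem_erase]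
  tauto

lemma sum1 (g : D → ℕ) : ∑ d ∈ h.gr.ds, g d = ∑ d ∈ h.R, g d + g (G.al x1) + g (G.al x2) +
    (if G.al j1 = j1 then 0 else g (G.al j1)) + (if G.al j2 = j2 then 0 else g (G.al j2)) := by
  have a1 : G.al x1 ∈ h.gr.ds := h.mem_ds.2 ⟨h.ax1, h.ox1⟩
  have a2 : G.al x2 ∈ h.gr.ds.erase (G.al x1) :=
    mem_erase.2 ⟨fun e => h.x12 (al_inj h.mx1 h.mx2 e.symm), h.mem_ds.2 ⟨h.ax2, h.ox2⟩⟩
  have a3 : G.al j1 ∈ (h.gr.ds.erase (G.al x1)).erase (G.al x2) ↔ G.al j1 ≠ j1 := by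
    rw [mem_erase, mem_erase, h.mem_ds]
    constructor
    · rintro ⟨-, -, -, q⟩
      exact h.tk1 q
    · intro q
      exact ⟨fun e => h.j1x2 (al_inj h.mj1 h.mx2 e), fun e => h.n1.symm (al_inj h.mj1 h.mx1 e),
        h.aj1, h.oj1.resolve_left q⟩
  have a4 : G.al j2 ∈ ((h.gr.ds.erase (G.al x1)).erase (G.al x2)).erase (G.al j1) ↔
      G.al j2 ≠ j2 := by
    rw [mem_erase, mem_erase, mem_erase, h.mem_ds]
    constructor
    · rintro ⟨-, -, -, -, q⟩
      exact h.tk2 q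
    · intro q
      exact ⟨fun e => h.j12.symm (al_inj h.mj2 h.mj1 e), fun e => h.n4.symm (al_inj h.mj2 h.mx2 e),
        fun e => h.x1j2.symm (al_inj h.mj2 h.mx1 e), h.aj2, h.oj2.resolve_left q⟩
  rw [sum_erase' h.gr.ds g (G.al x1), sum_erase' (h.gr.ds.erase (G.al x1)) g (G.al x2),
    sum_erase' ((h.gr.ds.erase (G.al x1)).erase (G.al x2)) g (G.al j1),
    sum_erase' (((h.gr.ds.erase (G.al x1)).erase (G.al x2)).erase (G.al j1)) g (G.al j2),
    if_pos a1, if_pos a2]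
  have b3 : (if G.al j1 ∈ (h.gr.ds.erase (G.al x1)).erase (G.al x2) then g (G.al j1) else 0) =
      if G.al j1 = j1 then 0 else g (G.al j1) := by
    by_cases q : G.al j1 = j1
    · rw [if_neg (fun e => a3.1 e q), if_pos q]
    · rw [if_pos (a3.2 q), if_neg q]
  have b4 : (if G.al j2 ∈ ((h.gr.ds.erase (G.al x1)).erase (G.al x2)).erase (G.al j1) then
      g (G.al j2) else 0) = if G.al j2 = j2 then 0 else g (G.al j2) := by
    by_cases q : G.al j2 = j2
    · rw [if_neg (fun e => a4.1 e q), if_pos q]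
    · rw [if_pos (a4.2 q), if_neg q]
  rw [b3, b4]
  show _ = ∑ d ∈ (((h.gr.ds.erase (G.al x1)).erase (G.al x2)).erase (G.al j1)).erase (G.al j2),
    g d + _ + _ + _ + _
  ring

lemma sum0 (g : D → ℕ) : ∑ d ∈ G.ds, g d = ∑ d ∈ h.gr.ds, g d + g y + g (G.al y) + g x1 + g j1 +
    g x2 + g j2 := by
  have hy := G.al_mem y h.my
  have ay : G.al y ≠ y := fun e => h.hp (by rw [e])
  have c1 : x1 ≠ G.al y := fun e => h.hp (by rw [← h.px1, e])
  have c2 : j1 ≠ G.al y := fun e => h.hp (by rw [← h.pj1, e])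
  have c3 : x2 ≠ y := fun e => h.hp (by rw [← h.px2, e])
  have c4 : j2 ≠ y := fun e => h.hp (by rw [← h.pj2, e])
  rw [sum_erase' G.ds g y, if_pos h.my, sum_erase' (G.ds.erase y) g (G.al y),
    if_pos (mem_erase.2 ⟨ay, hy⟩), sum_erase' ((G.ds.erase y).erase (G.al y)) g x1,
    if_pos (mem_erase.2 ⟨c1, mem_erase.2 ⟨h.n2, h.mx1⟩⟩),
    sum_erase' (((G.ds.erase y).erase (G.al y)).erase x1) g j1,
    if_pos (mem_erase.2 ⟨h.n1.symm, mem_erase.2 ⟨c2, mem_erase.2 ⟨h.n3, h.mj1⟩⟩⟩),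
    sum_erase' ((((G.ds.erase y).erase (G.al y)).erase x1).erase j1) g x2,
    if_pos (mem_erase.2 ⟨h.j1x2.symm, mem_erase.2 ⟨h.x12.symm, mem_erase.2 ⟨h.n5,
      mem_erase.2 ⟨c3, h.mx2⟩⟩⟩⟩),
    sum_erase' (((((G.ds.erase y).erase (G.al y)).erase x1).erase j1).erase x2) g j2,
    if_pos (mem_erase.2 ⟨h.n4.symm, mem_erase.2 ⟨h.j12.symm, mem_erase.2 ⟨h.x1j2.symm,
      mem_erase.2 ⟨h.n6, mem_erase.2 ⟨c4, h.mj2⟩⟩⟩⟩⟩)]
  have e : (((((G.ds.erase y).erase (G.al y)).erase x1).erase j1).erase x2).erase j2 =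
      h.gr.ds := by
    ext d
    rw [mem_erase, mem_erase, mem_erase, mem_erase, mem_erase, mem_erase, h.mem_ds]
    constructor
    · rintro ⟨q1, q2, q3, q4, q5, q6, q7⟩
      refine ⟨q7, fun q => ?_, fun q => ?_⟩
      · rcases h.at1 q7 q with q8 | q8 | q8
        · exact q6 q8
        · exact q4 q8
        · exact q3 q8
      · rcases h.at2 q7 q with q8 | q8 | q8
        · exact q5 q8
        · exact q2 q8
        · exact q1 q8
    · rintro ⟨q7, q1, q2⟩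
      exact ⟨fun q => q2 (by rw [q, h.pj2]), fun q => q2 (by rw [q, h.px2]),
        fun q => q1 (by rw [q, h.pj1]), fun q => q1 (by rw [q, h.px1]), fun q => q2 (by rw [q]),
        fun q => q1 (by rw [q]), q7⟩
  rw [e]
  ring


omit h in
/-- the weight of the edge `f` (`w` if both `j1`, `j2` are tokens) -/
noncomputable def fv (_ : G.RP x1 j1 y x2 j2) (z : D → ℕ) (w : ℕ) : ℕ :=
  if G.al j1 = j1 then (if G.al j2 = j2 then w else z (G.al j2)) else z (G.al j1)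

omit h in
/-- the lifted weight -/
noncomputable def zl (h : G.RP x1 j1 y x2 j2) (z : D → ℕ) (w : ℕ) (d : D) : ℕ :=
  if d = x1 ∨ d = x2 then z (G.al x1) else if d = j1 ∨ d = j2 then h.fv z w else
  if d = y ∨ d = G.al y then 3 - z (G.al x1) - h.fv z w else z d

variable {z : D → ℕ} {w : ℕ}

lemma zl_x1 : h.zl z w x1 = z (G.al x1) := by
  unfold zl
  rw [if_pos (Or.inl rfl)]

lemma zl_x2 : h.zl z w x2 = z (G.al x1) := by
  unfold zl
  rw [if_pos (Or.inr rfl)]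

lemma zl_j1 : h.zl z w j1 = h.fv z w := by
  unfold zl
  rw [if_neg, if_pos (Or.inl rfl)]
  rintro (e | e)
  · exact h.n1 e.symm
  · exact h.j1x2 e

lemma zl_j2 : h.zl z w j2 = h.fv z w := by
  unfold zl
  rw [if_neg, if_pos (Or.inr rfl)]
  rintro (e | e)
  · exact h.x1j2 e.symm
  · exact h.n4 e.symm

lemma zl_y : h.zl z w y = 3 - z (G.al x1) - h.fv z w := by
  unfold zl
  rw [if_neg, if_neg, if_pos (Or.inl rfl)]
  · rintro (e | e)
    · exact h.n3 e.symm
    · exact h.hp ((congrArg G.pi e).trans h.pj2)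
  · rintro (e | e)
    · exact h.n2 e.symm
    · exact h.hp ((congrArg G.pi e).trans h.px2)

lemma zl_ay : h.zl z w (G.al y) = 3 - z (G.al x1) - h.fv z w := by
  unfold zl
  rw [if_neg, if_neg, if_pos (Or.inr rfl)]
  · rintro (e | e)
    · exact h.hp (by rw [e, h.pj1])
    · exact h.n6 e.symm
  · rintro (e | e)
    · exact h.hp (by rw [e, h.px1])
    · exact h.n5 e.symm

lemma zl_off {d : D} (hd : G.pi d ≠ G.pi y ∧ G.pi d ≠ G.pi (G.al y)) : h.zl z w d = z d := by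
  unfold zl
  rw [if_neg, if_neg, if_neg]
  · rintro (e | e)
    · exact hd.1 (by rw [e])
    · exact hd.2 (by rw [e])
  · rintro (e | e)
    · exact hd.1 (by rw [e, h.pj1])
    · exact hd.2 (by rw [e, h.pj2])
  · rintro (e | e)
    · exact hd.1 (by rw [e, h.px1])
    · exact hd.2 (by rw [e, h.px2])

lemma sym_x {t : V → ℕ} (hw : h.gr.ZW z t) : z (G.al x2) = z (G.al x1) := by
  have := hw.sym (G.al x1) (h.mem_ds.2 ⟨h.ax1, h.ox1⟩)
  rwa [h.gr_al, h.rpal_x1] at this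

lemma fv_1 (q : G.al j1 ≠ j1) : h.fv z w = z (G.al j1) := by
  unfold fv
  rw [if_neg q]

lemma fv_2 {t : V → ℕ} (hw : h.gr.ZW z t) (q : G.al j2 ≠ j2) : h.fv z w = z (G.al j2) := by
  unfold fv
  split_ifs with q1
  · rfl
  · have := hw.sym (G.al j1) (h.mem_ds.2 ⟨h.aj1, h.oj1.resolve_left q1⟩)
    rw [h.gr_al, h.rpal_j1, if_neg q] at this
    exact this.symm

lemma rpal_R {d : D} (hd : d ∈ h.R) : h.gr.al d = G.al d := by
  rw [h.mem_R, h.mem_ds] at hd
  rw [h.gr_al, rpal_off hd.2.1 hd.2.2.1 hd.2.2.2.1 hd.2.2.2.2 hd.1.1]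

/-- a sum over the darts at a vertex -/
lemma filter_at {v : V} (hv : v ≠ G.pi y ∧ v ≠ G.pi (G.al y)) :
    (G.ds.filter fun d => G.pi d = v) = h.gr.ds.filter fun d => h.gr.pi d = v := by
  ext d
  rw [mem_filter, mem_filter, h.mem_ds, h.gr_pi]
  constructor
  · rintro ⟨a, b⟩
    exact ⟨⟨a, by rw [b]; exact hv⟩, b⟩
  · rintro ⟨⟨a, -⟩, b⟩
    exact ⟨a, b⟩

/-- the lifted weight has sum 3 -/
theorem zw {t : V → ℕ} (hw : h.gr.ZW z t) (hle : z (G.al x1) + h.fv z w ≤ 3) :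
    G.ZW (h.zl z w) (fun v => if v = G.pi y ∨ v = G.pi (G.al y) then 0 else t v) where
  sym := by
    have hsx := h.sym_x hw
    intro d hd
    by_cases p1 : G.pi d = G.pi y
    · rcases h.at1 hd p1 with rfl | rfl | rfl
      · rw [h.zl_y, h.zl_ay]
      · rw [h.zl_x1, h.zl_off h.ox1]
      · rw [h.zl_j1]
        rcases h.oj1 with q | q
        · rw [q, h.zl_j1]
        · rw [h.zl_off q, h.fv_1 (h.tk1 q)]
    by_cases p2 : G.pi d = G.pi (G.al y)
    · rcases h.at2 hd p2 with rfl | rfl | rfl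
      · rw [G.al_al y h.my, h.zl_y, h.zl_ay]
      · rw [h.zl_x2, h.zl_off h.ox2, hsx]
      · rw [h.zl_j2]
        rcases h.oj2 with q | q
        · rw [q, h.zl_j2]
        · rw [h.zl_off q, h.fv_2 hw (h.tk2 q)]
    rw [h.zl_off ⟨p1, p2⟩]
    by_cases e1 : d = G.al x1
    · rw [e1, G.al_al x1 h.mx1, h.zl_x1]
    by_cases e2 : d = G.al x2
    · rw [e2, G.al_al x2 h.mx2, h.zl_x2, hsx]
    by_cases e3 : d = G.al j1
    · rw [e3] at p1 p2
      rw [e3, G.al_al j1 h.mj1, h.zl_j1, h.fv_1 (h.tk1 ⟨p1, p2⟩)]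
    by_cases e4 : d = G.al j2
    · rw [e4] at p1 p2
      rw [e4, G.al_al j2 h.mj2, h.zl_j2, h.fv_2 hw (h.tk2 ⟨p1, p2⟩)]
    have hR : d ∈ h.R := h.mem_R.2 ⟨h.mem_ds.2 ⟨hd, p1, p2⟩, e1, e2, e3, e4⟩
    rw [h.zl_off (h.off_al hd ⟨p1, p2⟩ e1 e2 e3 e4)]
    have := hw.sym d (h.mem_ds.2 ⟨hd, p1, p2⟩)
    rwa [h.rpal_R hR] at this
  sum := by
    intro v hv
    by_cases p1 : v = G.pi y
    · rw [if_pos (Or.inl p1), p1]
      have e : (G.ds.filter fun d => G.pi d = G.pi y) = {y, x1, j1} := by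
        ext d
        rw [mem_filter]
        simp only [mem_insert, mem_singleton]
        constructor
        · rintro ⟨a, b⟩
          exact h.at1 a b
        · rintro (rfl | rfl | rfl)
          · exact ⟨h.my, rfl⟩
          · exact ⟨h.mx1, h.px1⟩
          · exact ⟨h.mj1, h.pj1⟩
      rw [e, sum_insert, sum_insert, sum_singleton, h.zl_y, h.zl_x1, h.zl_j1]
      · omega
      · rw [mem_singleton]; exact h.n1
      · rw [mem_insert, mem_singleton]
        rintro (q | q)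
        · exact h.n2 q.symm
        · exact h.n3 q.symm
    by_cases p2 : v = G.pi (G.al y)
    · rw [if_pos (Or.inr p2), p2]
      have e : (G.ds.filter fun d => G.pi d = G.pi (G.al y)) = {G.al y, x2, j2} := by
        ext d
        rw [mem_filter]
        simp only [mem_insert, mem_singleton]
        constructor
        · rintro ⟨a, b⟩
          exact h.at2 a b
        · rintro (rfl | rfl | rfl)
          · exact ⟨G.al_mem y h.my, rfl⟩
          · exact ⟨h.mx2, h.px2⟩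
          · exact ⟨h.mj2, h.pj2⟩
      rw [e, sum_insert, sum_insert, sum_singleton, h.zl_ay, h.zl_x2, h.zl_j2]
      · omega
      · rw [mem_singleton]; exact h.n4
      · rw [mem_insert, mem_singleton]
        rintro (q | q)
        · exact h.n5 q.symm
        · exact h.n6 q.symm
    rw [if_neg (by rintro (q | q); exacts [p1 q, p2 q])]
    have := hw.sum v (h.mem_vs.2 ⟨hv, p1, p2⟩)
    rw [← h.filter_at ⟨p1, p2⟩] at this
    rw [← this]
    congr 1
    refine sum_congr rfl fun d hd => ?_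
    rw [mem_filter] at hd
    exact h.zl_off (by rw [hd.2]; exact ⟨p1, p2⟩)


/-- the ordinary part of a cut -/
noncomputable def B (z : D → ℕ) (W : Finset V) : ℕ := ∑ d ∈ h.R, if G.cr W d then z d else 0

/-- the vertices of `W` in the smaller graph -/
noncomputable def rs (_ : G.RP x1 j1 y x2 j2) (W : Finset V) : Finset V :=
  W.filter fun v => v ≠ G.pi y ∧ v ≠ G.pi (G.al y)

omit h in
lemma mem_rs {h : G.RP x1 j1 y x2 j2} {W : Finset V} {v : V} :
    v ∈ h.rs W ↔ v ∈ W ∧ v ≠ G.pi y ∧ v ≠ G.pi (G.al y) := mem_filter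

lemma rs_of {W : Finset V} {d : D} (hd : G.pi d ≠ G.pi y ∧ G.pi d ≠ G.pi (G.al y)) :
    G.pi d ∈ h.rs W ↔ G.pi d ∈ W := by
  rw [mem_rs]
  exact ⟨fun a => a.1, fun a => ⟨a, hd⟩⟩

/-- the cut in the smaller graph -/
lemma zx_gr {t : V → ℕ} (hw : h.gr.ZW z t) (W : Finset V) : h.gr.zx z (h.rs W) = h.B z W +
    (if G.pi (G.al x1) ∈ W ∧ G.pi (G.al x2) ∉ W then z (G.al x1) else 0) +
    (if G.pi (G.al x2) ∈ W ∧ G.pi (G.al x1) ∉ W then z (G.al x1) else 0) +
    (if (G.al j1 ≠ j1 ∧ G.pi (G.al j1) ∈ W) ∧ ¬ (G.al j2 ≠ j2 ∧ G.pi (G.al j2) ∈ W) then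
      h.fv z w else 0) +
    (if (G.al j2 ≠ j2 ∧ G.pi (G.al j2) ∈ W) ∧ ¬ (G.al j1 ≠ j1 ∧ G.pi (G.al j1) ∈ W) then
      h.fv z w else 0) := by
  unfold zx
  rw [h.sum1]
  have e0 : ∑ d ∈ h.R, (if h.gr.cr (h.rs W) d then z d else 0) = h.B z W := by
    unfold B
    refine sum_congr rfl fun d hd => ?_
    have hR := hd
    rw [h.mem_R, h.mem_ds] at hd
    have : h.gr.cr (h.rs W) d ↔ G.cr W d := by
      unfold cr
      rw [h.rpal_R hR, h.gr_pi, h.rs_of hd.1.2,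
        h.rs_of (h.off_al hd.1.1 hd.1.2 hd.2.1 hd.2.2.1 hd.2.2.2.1 hd.2.2.2.2)]
    by_cases q : G.cr W d
    · rw [if_pos q, if_pos (this.2 q)]
    · rw [if_neg q, if_neg (fun a => q (this.1 a))]
  rw [e0]
  have e1 : (if h.gr.cr (h.rs W) (G.al x1) then z (G.al x1) else 0) =
      if G.pi (G.al x1) ∈ W ∧ G.pi (G.al x2) ∉ W then z (G.al x1) else 0 := by
    refine if_congr ?_ rfl rfl
    unfold cr
    rw [h.gr_al, h.rpal_x1, h.gr_pi, h.rs_of h.ox1, h.rs_of h.ox2]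
    constructor
    · rintro ⟨a, b | b⟩
      · exact ⟨a, b⟩
      · exact absurd (al_inj h.mx1 h.mx2 b.symm) h.x12
    · rintro ⟨a, b⟩
      exact ⟨a, Or.inl b⟩
  have e2 : (if h.gr.cr (h.rs W) (G.al x2) then z (G.al x2) else 0) =
      if G.pi (G.al x2) ∈ W ∧ G.pi (G.al x1) ∉ W then z (G.al x1) else 0 := by
    refine if_congr ?_ (h.sym_x hw) rfl
    unfold cr
    rw [h.gr_al, h.rpal_x2, h.gr_pi, h.rs_of h.ox1, h.rs_of h.ox2]
    constructor
    · rintro ⟨a, b | b⟩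
      · exact ⟨a, b⟩
      · exact absurd (al_inj h.mx1 h.mx2 b) h.x12
    · rintro ⟨a, b⟩
      exact ⟨a, Or.inl b⟩
  have e3 : (if G.al j1 = j1 then 0 else if h.gr.cr (h.rs W) (G.al j1) then z (G.al j1) else 0) =
      if (G.al j1 ≠ j1 ∧ G.pi (G.al j1) ∈ W) ∧ ¬ (G.al j2 ≠ j2 ∧ G.pi (G.al j2) ∈ W) then
        h.fv z w else 0 := by
    by_cases q1 : G.al j1 = j1
    · rw [if_pos q1, if_neg (fun a => a.1.1 q1)]
    · rw [if_neg q1]
      refine if_congr ?_ (h.fv_1 q1).symm rfl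
      unfold cr
      rw [h.gr_al, h.rpal_j1, h.gr_pi, h.rs_of (h.oj1.resolve_left q1)]
      by_cases q2 : G.al j2 = j2
      · rw [if_pos q2]
        constructor
        · rintro ⟨a, -⟩
          exact ⟨⟨q1, a⟩, fun b => b.1 q2⟩
        · rintro ⟨⟨-, a⟩, -⟩
          exact ⟨a, Or.inr rfl⟩
      · rw [if_neg q2, h.rs_of (h.oj2.resolve_left q2)]
        constructor
        · rintro ⟨a, b | b⟩
          · exact ⟨⟨q1, a⟩, fun c => b c.2⟩
          · exact absurd (al_inj h.mj1 h.mj2 b.symm) h.j12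
        · rintro ⟨⟨-, a⟩, b⟩
          exact ⟨a, Or.inl fun c => b ⟨q2, c⟩⟩
  have e4 : (if G.al j2 = j2 then 0 else if h.gr.cr (h.rs W) (G.al j2) then z (G.al j2) else 0) =
      if (G.al j2 ≠ j2 ∧ G.pi (G.al j2) ∈ W) ∧ ¬ (G.al j1 ≠ j1 ∧ G.pi (G.al j1) ∈ W) then
        h.fv z w else 0 := by
    by_cases q2 : G.al j2 = j2
    · rw [if_pos q2, if_neg (fun a => a.1.1 q2)]
    · rw [if_neg q2]
      refine if_congr ?_ (h.fv_2 hw q2).symm rfl
      unfold cr
      rw [h.gr_al, h.rpal_j2, h.gr_pi, h.rs_of (h.oj2.resolve_left q2)]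
      by_cases q1 : G.al j1 = j1
      · rw [if_pos q1]
        constructor
        · rintro ⟨a, -⟩
          exact ⟨⟨q2, a⟩, fun b => b.1 q1⟩
        · rintro ⟨⟨-, a⟩, -⟩
          exact ⟨a, Or.inr rfl⟩
      · rw [if_neg q1, h.rs_of (h.oj1.resolve_left q1)]
        constructor
        · rintro ⟨a, b | b⟩
          · exact ⟨⟨q2, a⟩, fun c => b c.2⟩
          · exact absurd (al_inj h.mj1 h.mj2 b) h.j12
        · rintro ⟨⟨-, a⟩, b⟩
          exact ⟨a, Or.inl fun c => b ⟨q1, c⟩⟩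
  rw [e1, e2, e3, e4]


/-- the cut in the graph -/
lemma zx_G {t : V → ℕ} (hw : h.gr.ZW z t) (W : Finset V) : G.zx (h.zl z w) W = h.B z W +
    (if G.pi (G.al x1) ∈ W ∧ G.pi y ∉ W then z (G.al x1) else 0) +
    (if G.pi (G.al x2) ∈ W ∧ G.pi (G.al y) ∉ W then z (G.al x1) else 0) +
    (if (G.al j1 ≠ j1 ∧ G.pi (G.al j1) ∈ W) ∧ G.pi y ∉ W then h.fv z w else 0) +
    (if (G.al j2 ≠ j2 ∧ G.pi (G.al j2) ∈ W) ∧ G.pi (G.al y) ∉ W then h.fv z w else 0) +
    (if G.pi y ∈ W ∧ G.pi (G.al y) ∉ W then 3 - z (G.al x1) - h.fv z w else 0) +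
    (if G.pi (G.al y) ∈ W ∧ G.pi y ∉ W then 3 - z (G.al x1) - h.fv z w else 0) +
    (if G.pi y ∈ W ∧ G.pi (G.al x1) ∉ W then z (G.al x1) else 0) +
    (if G.pi y ∈ W ∧ ¬ (G.al j1 ≠ j1 ∧ G.pi (G.al j1) ∈ W) then h.fv z w else 0) +
    (if G.pi (G.al y) ∈ W ∧ G.pi (G.al x2) ∉ W then z (G.al x1) else 0) +
    (if G.pi (G.al y) ∈ W ∧ ¬ (G.al j2 ≠ j2 ∧ G.pi (G.al j2) ∈ W) then h.fv z w else 0) := by
  unfold zx
  rw [h.sum0, h.sum1]
  have e0 : ∑ d ∈ h.R, (if G.cr W d then h.zl z w d else 0) = h.B z W := by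
    unfold B
    refine sum_congr rfl fun d hd => ?_
    rw [h.mem_R, h.mem_ds] at hd
    rw [h.zl_off hd.1.2]
  have f1 : (if G.cr W (G.al x1) then h.zl z w (G.al x1) else 0) =
      if G.pi (G.al x1) ∈ W ∧ G.pi y ∉ W then z (G.al x1) else 0 := by
    refine if_congr ?_ (h.zl_off h.ox1) rfl
    unfold cr
    rw [G.al_al x1 h.mx1, h.px1]
    constructor
    · rintro ⟨a, b | b⟩
      · exact ⟨a, b⟩
      · exact absurd ((congrArg G.pi b).symm.trans h.px1) h.ox1.1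
    · rintro ⟨a, b⟩
      exact ⟨a, Or.inl b⟩
  have f2 : (if G.cr W (G.al x2) then h.zl z w (G.al x2) else 0) =
      if G.pi (G.al x2) ∈ W ∧ G.pi (G.al y) ∉ W then z (G.al x1) else 0 := by
    refine if_congr ?_ ((h.zl_off h.ox2).trans (h.sym_x hw)) rfl
    unfold cr
    rw [G.al_al x2 h.mx2, h.px2]
    constructor
    · rintro ⟨a, b | b⟩
      · exact ⟨a, b⟩
      · exact absurd ((congrArg G.pi b).symm.trans h.px2) h.ox2.2
    · rintro ⟨a, b⟩
      exact ⟨a, Or.inl b⟩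
  have f3 : (if G.al j1 = j1 then 0 else if G.cr W (G.al j1) then h.zl z w (G.al j1) else 0) =
      if (G.al j1 ≠ j1 ∧ G.pi (G.al j1) ∈ W) ∧ G.pi y ∉ W then h.fv z w else 0 := by
    by_cases q : G.al j1 = j1
    · rw [if_pos q, if_neg (fun a => a.1.1 q)]
    · rw [if_neg q]
      refine if_congr ?_ ((h.zl_off (h.oj1.resolve_left q)).trans (h.fv_1 q).symm) rfl
      unfold cr
      rw [G.al_al j1 h.mj1, h.pj1]
      constructor
      · rintro ⟨a, b | b⟩
        · exact ⟨⟨q, a⟩, b⟩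
        · exact absurd b.symm q
      · rintro ⟨⟨-, a⟩, b⟩
        exact ⟨a, Or.inl b⟩
  have f4 : (if G.al j2 = j2 then 0 else if G.cr W (G.al j2) then h.zl z w (G.al j2) else 0) =
      if (G.al j2 ≠ j2 ∧ G.pi (G.al j2) ∈ W) ∧ G.pi (G.al y) ∉ W then h.fv z w else 0 := by
    by_cases q : G.al j2 = j2
    · rw [if_pos q, if_neg (fun a => a.1.1 q)]
    · rw [if_neg q]
      refine if_congr ?_ ((h.zl_off (h.oj2.resolve_left q)).trans (h.fv_2 hw q).symm) rfl
      unfold cr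
      rw [G.al_al j2 h.mj2, h.pj2]
      constructor
      · rintro ⟨a, b | b⟩
        · exact ⟨⟨q, a⟩, b⟩
        · exact absurd b.symm q
      · rintro ⟨⟨-, a⟩, b⟩
        exact ⟨a, Or.inl b⟩
  have g1 : (if G.cr W y then h.zl z w y else 0) =
      if G.pi y ∈ W ∧ G.pi (G.al y) ∉ W then 3 - z (G.al x1) - h.fv z w else 0 := by
    refine if_congr ?_ h.zl_y rfl
    unfold cr
    constructor
    · rintro ⟨a, b | b⟩
      · exact ⟨a, b⟩
      · exact absurd (congrArg G.pi b).symm h.hp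
    · rintro ⟨a, b⟩
      exact ⟨a, Or.inl b⟩
  have g2 : (if G.cr W (G.al y) then h.zl z w (G.al y) else 0) =
      if G.pi (G.al y) ∈ W ∧ G.pi y ∉ W then 3 - z (G.al x1) - h.fv z w else 0 := by
    refine if_congr ?_ h.zl_ay rfl
    unfold cr
    rw [G.al_al y h.my]
    constructor
    · rintro ⟨a, b | b⟩
      · exact ⟨a, b⟩
      · exact absurd (congrArg G.pi b) h.hp
    · rintro ⟨a, b⟩
      exact ⟨a, Or.inl b⟩
  have g3 : (if G.cr W x1 then h.zl z w x1 else 0) =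
      if G.pi y ∈ W ∧ G.pi (G.al x1) ∉ W then z (G.al x1) else 0 := by
    refine if_congr ?_ h.zl_x1 rfl
    unfold cr
    rw [h.px1]
    constructor
    · rintro ⟨a, b | b⟩
      · exact ⟨a, b⟩
      · exact absurd ((congrArg G.pi b).trans h.px1) h.ox1.1
    · rintro ⟨a, b⟩
      exact ⟨a, Or.inl b⟩
  have g4 : (if G.cr W x2 then h.zl z w x2 else 0) =
      if G.pi (G.al y) ∈ W ∧ G.pi (G.al x2) ∉ W then z (G.al x1) else 0 := by
    refine if_congr ?_ h.zl_x2 rfl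
    unfold cr
    rw [h.px2]
    constructor
    · rintro ⟨a, b | b⟩
      · exact ⟨a, b⟩
      · exact absurd ((congrArg G.pi b).trans h.px2) h.ox2.2
    · rintro ⟨a, b⟩
      exact ⟨a, Or.inl b⟩
  have g5 : (if G.cr W j1 then h.zl z w j1 else 0) =
      if G.pi y ∈ W ∧ ¬ (G.al j1 ≠ j1 ∧ G.pi (G.al j1) ∈ W) then h.fv z w else 0 := by
    refine if_congr ?_ h.zl_j1 rfl
    unfold cr
    rw [h.pj1]
    constructor
    · rintro ⟨a, b | b⟩
      · exact ⟨a, fun c => b c.2⟩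
      · exact ⟨a, fun c => c.1 b⟩
    · rintro ⟨a, b⟩
      refine ⟨a, ?_⟩
      by_cases q : G.al j1 = j1
      · exact Or.inr q
      · exact Or.inl fun c => b ⟨q, c⟩
  have g6 : (if G.cr W j2 then h.zl z w j2 else 0) =
      if G.pi (G.al y) ∈ W ∧ ¬ (G.al j2 ≠ j2 ∧ G.pi (G.al j2) ∈ W) then h.fv z w else 0 := by
    refine if_congr ?_ h.zl_j2 rfl
    unfold cr
    rw [h.pj2]
    constructor
    · rintro ⟨a, b | b⟩
      · exact ⟨a, fun c => b c.2⟩
      · exact ⟨a, fun c => c.1 b⟩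
    · rintro ⟨a, b⟩
      refine ⟨a, ?_⟩
      by_cases q : G.al j2 = j2
      · exact Or.inr q
      · exact Or.inl fun c => b ⟨q, c⟩
  rw [e0, f1, f2, f3, f4, g1, g2, g3, g4, g5, g6]


lemma rs_sub {W : Finset V} (hW : W ⊆ G.vs) : h.rs W ⊆ h.gr.vs := by
  intro v hv
  rw [mem_rs] at hv
  exact h.mem_vs.2 ⟨hW hv.1, hv.2⟩

lemma card_rs (W : Finset V) : W.card = (h.rs W).card + (if G.pi y ∈ W then 1 else 0) +
    (if G.pi (G.al y) ∈ W then 1 else 0) := by
  have e1 : h.rs W = (W.erase (G.pi y)).erase (G.pi (G.al y)) := by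
    ext v
    rw [mem_rs, mem_erase, mem_erase]
    tauto
  rw [e1]
  by_cases p1 : G.pi y ∈ W
  · have c1 := card_erase_add_one p1
    by_cases p2 : G.pi (G.al y) ∈ W
    · have c2 := card_erase_add_one (mem_erase.2 ⟨h.hp.symm, p2⟩)
      rw [if_pos p1, if_pos p2]
      omega
    · rw [if_pos p1, if_neg p2, erase_eq_of_notMem (fun a => p2 (mem_of_mem_erase a))]
      omega
  · rw [if_neg p1, erase_eq_of_notMem p1]
    by_cases p2 : G.pi (G.al y) ∈ W
    · have c2 := card_erase_add_one p2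
      rw [if_pos p2]
      omega
    · rw [if_neg p2, erase_eq_of_notMem p2]
      omega

omit h in
/-- the new tokens after the lift -/
noncomputable def tl (_ : G.RP x1 j1 y x2 j2) (t : V → ℕ) (v : V) : ℕ :=
  if v = G.pi y ∨ v = G.pi (G.al y) then 0 else t v

lemma sum_tl (t : V → ℕ) (W : Finset V) : ∑ v ∈ W, h.tl t v = ∑ v ∈ h.rs W, t v := by
  unfold rs
  rw [sum_filter]
  refine sum_congr rfl fun v _ => ?_
  unfold tl
  by_cases q : v = G.pi y ∨ v = G.pi (G.al y)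
  · rw [if_pos q, if_neg]
    rintro ⟨a, b⟩
    rcases q with q | q
    · exact a q
    · exact b q
  · rw [if_neg q, if_pos]
    exact ⟨fun a => q (Or.inl a), fun a => q (Or.inr a)⟩

/-- the lift never destroys an odd cut; even sets on one side are compared too -/
theorem zc_le {t : V → ℕ} (hw : h.gr.ZW z t) (hle : z (G.al x1) + h.fv z w ≤ 3) (W : Finset V)
    (hs : G.pi y ∈ W ↔ G.pi (G.al y) ∈ W) :
    h.gr.zc z t (h.rs W) ≤ G.zc (h.zl z w) (h.tl t) W := by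
  rw [zc_eq_zx, zc_eq_zx, h.sum_tl]
  have e1 := h.zx_G (w := w) hw W
  have e2 := h.zx_gr (w := w) hw W
  by_cases P1 : G.pi y ∈ W
  · have P2 := hs.1 P1
    by_cases C : G.pi (G.al x1) ∈ W <;> by_cases P : G.pi (G.al x2) ∈ W <;>
      by_cases O1 : (G.al j1 ≠ j1 ∧ G.pi (G.al j1) ∈ W) <;>
      by_cases O2 : (G.al j2 ≠ j2 ∧ G.pi (G.al j2) ∈ W) <;>
      simp only [P1, P2, C, P, O1, O2, not_true, not_false_iff, and_true, and_false,
        if_true, if_false, ne_eq, and_self] at e1 e2 <;> omega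
  · have P2 : G.pi (G.al y) ∉ W := fun a => P1 (hs.2 a)
    by_cases C : G.pi (G.al x1) ∈ W <;> by_cases P : G.pi (G.al x2) ∈ W <;>
      by_cases O1 : (G.al j1 ≠ j1 ∧ G.pi (G.al j1) ∈ W) <;>
      by_cases O2 : (G.al j2 ≠ j2 ∧ G.pi (G.al j2) ∈ W) <;>
      simp only [P1, P2, C, P, O1, O2, not_true, not_false_iff, and_true, and_false,
        false_and, if_true, if_false, ne_eq, and_self] at e1 e2 <;> omega


/-- a set containing exactly one of the two vertices: `W'` is even, and the cut does not become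
small when `h + f ≤ 1` -/
lemma zc_ge3 {t : V → ℕ} (hw : h.gr.ZW z t) (hle : z (G.al x1) + h.fv z w ≤ 1) (W : Finset V)
    (hs : ¬ (G.pi y ∈ W ↔ G.pi (G.al y) ∈ W)) (hev : Even (h.gr.zc z t (h.rs W))) :
    3 ≤ G.zc (h.zl z w) (h.tl t) W := by
  rw [zc_eq_zx, h.sum_tl]
  rw [zc_eq_zx] at hev
  have e1 := h.zx_G (w := w) hw W
  have e2 := h.zx_gr (w := w) hw W
  obtain ⟨k, hk⟩ := hev
  by_cases P1 : G.pi y ∈ W
  · have P2 : G.pi (G.al y) ∉ W := fun a => hs ⟨fun _ => a, fun _ => P1⟩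
    by_cases C : G.pi (G.al x1) ∈ W <;> by_cases P : G.pi (G.al x2) ∈ W <;>
      by_cases O1 : (G.al j1 ≠ j1 ∧ G.pi (G.al j1) ∈ W) <;>
      by_cases O2 : (G.al j2 ≠ j2 ∧ G.pi (G.al j2) ∈ W) <;>
      simp only [P1, P2, C, P, O1, O2, not_true, not_false_iff, and_true, true_and, and_false,
        false_and, if_true, if_false, ne_eq, and_self] at e1 e2 <;> omega
  · have P2 : G.pi (G.al y) ∈ W := by
      by_contra a
      exact hs ⟨fun b => absurd b P1, fun b => absurd b a⟩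
    by_cases C : G.pi (G.al x1) ∈ W <;> by_cases P : G.pi (G.al x2) ∈ W <;>
      by_cases O1 : (G.al j1 ≠ j1 ∧ G.pi (G.al j1) ∈ W) <;>
      by_cases O2 : (G.al j2 ≠ j2 ∧ G.pi (G.al j2) ∈ W) <;>
      simp only [P1, P2, C, P, O1, O2, not_true, not_false_iff, and_true, true_and, and_false,
        false_and, if_true, if_false, ne_eq, and_self] at e1 e2 <;> omega

/-- **START STEP**: the lifted weight is bridgeless -/
theorem zb {t : V → ℕ} (hw : h.gr.ZW z t) (hb : h.gr.ZB z t)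
    (hle : z (G.al x1) + h.fv z w ≤ 1) : G.ZB (h.zl z w) (h.tl t) := by
  intro W hW ho
  have hc := h.card_rs W
  have hpar := ZW.parity h.gr hw (h.rs_sub hW)
  by_cases hs : G.pi y ∈ W ↔ G.pi (G.al y) ∈ W
  · have h1 := h.zc_le (w := w) hw (by omega) W hs
    have h2 : Odd (h.rs W).card := by
      by_cases P1 : G.pi y ∈ W
      · rw [if_pos P1, if_pos (hs.1 P1)] at hc
        rw [Nat.odd_iff] at ho ⊢
        omega
      · rw [if_neg P1, if_neg (fun a => P1 (hs.2 a))] at hc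
        rw [Nat.odd_iff] at ho ⊢
        omega
    exact (hb _ (h.rs_sub hW) h2).trans h1
  · refine h.zc_ge3 hw hle W hs ?_
    rw [← Nat.not_odd_iff_even, hpar, Nat.not_odd_iff_even]
    by_cases P1 : G.pi y ∈ W
    · have P2 : G.pi (G.al y) ∉ W := fun a => hs ⟨fun _ => a, fun _ => P1⟩
      rw [if_pos P1, if_neg P2] at hc
      rw [Nat.odd_iff] at ho
      rw [Nat.even_iff]
      omega
    · have P2 : G.pi (G.al y) ∈ W := by
        by_contra a
        exact hs ⟨fun b => absurd b P1, fun b => absurd b a⟩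
      rw [if_neg P1, if_pos P2] at hc
      rw [Nat.odd_iff] at ho
      rw [Nat.even_iff]
      omega


omit h in
/-- the 2-factor of the smaller graph -/
noncomputable def F1 (_ : G.RP x1 j1 y x2 j2) (F : Finset D) : Finset D :=
  F.filter fun d => G.pi d ≠ G.pi y ∧ G.pi d ≠ G.pi (G.al y)

omit h in
lemma mem_F1 {h : G.RP x1 j1 y x2 j2} {F : Finset D} {d : D} :
    d ∈ h.F1 F ↔ d ∈ F ∧ G.pi d ≠ G.pi y ∧ G.pi d ≠ G.pi (G.al y) := mem_filter

variable {F : Finset D}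

lemma nj1 (hF : G.Tf F) (hy : y ∈ F) (hx1 : x1 ∈ F) : j1 ∉ F := by
  intro hj
  have h2 := hF.two _ (G.pi_mem y h.my)
  have h3 : ({y, x1, j1} : Finset D) ⊆ F.filter fun d => G.pi d = G.pi y := by
    intro d hd
    simp only [mem_insert, mem_singleton] at hd
    rcases hd with rfl | rfl | rfl
    · exact mem_filter.2 ⟨hy, rfl⟩
    · exact mem_filter.2 ⟨hx1, h.px1⟩
    · exact mem_filter.2 ⟨hj, h.pj1⟩
  have h4 := card_le_card h3
  rw [h2, card_insert_of_notMem, card_insert_of_notMem, card_singleton] at h4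
  · omega
  · rw [mem_singleton]; exact h.n1
  · rw [mem_insert, mem_singleton]
    rintro (q | q)
    · exact h.n2 q.symm
    · exact h.n3 q.symm

lemma nj2 (hF : G.Tf F) (hy : y ∈ F) (hx2 : x2 ∈ F) : j2 ∉ F :=
  h.symm.nj1 hF (hF.al y hy) hx2

omit h in
lemma nal (hF : G.Tf F) {j : D} (hj : j ∈ G.ds) (hn : j ∉ F) : G.al j ∉ F := fun q =>
  hn (by rw [← G.al_al j hj]; exact hF.al _ q)

/-- `F1` is a 2-factor -/
theorem tf (hF : G.Tf F) (hy : y ∈ F) (hx1 : x1 ∈ F) (hx2 : x2 ∈ F) : h.gr.Tf (h.F1 F) where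
  sub := by
    intro d hd
    rw [mem_F1] at hd
    exact h.mem_ds.2 ⟨hF.sub hd.1, hd.2⟩
  al := by
    intro d hd
    have h0 : h.gr.al d ∈ h.gr.ds := h.gr.al_mem d (h.mem_ds.2 ⟨hF.sub (mem_F1.1 hd).1,
      (mem_F1.1 hd).2⟩)
    rw [mem_F1] at hd
    refine mem_F1.2 ⟨?_, (h.mem_ds.1 h0).2⟩
    rw [h.gr_al]
    by_cases e1 : d = G.al x1
    · rw [e1, h.rpal_x1]
      exact hF.al _ hx2
    by_cases e2 : d = G.al x2
    · rw [e2, h.rpal_x2]
      exact hF.al _ hx1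
    have e3 : d ≠ G.al j1 := fun q => nal hF h.mj1 (h.nj1 hF hy hx1) (by rw [← q]; exact hd.1)
    have e4 : d ≠ G.al j2 := fun q => nal hF h.mj2 (h.nj2 hF hy hx2) (by rw [← q]; exact hd.1)
    rw [rpal_off e1 e2 e3 e4 (hF.sub hd.1)]
    exact hF.al _ hd.1
  tok := by
    intro d hd
    rw [mem_F1] at hd
    rw [h.gr_al]
    by_cases e1 : d = G.al x1
    · rw [e1, h.rpal_x1]
      exact fun q => h.x12 (al_inj h.mx1 h.mx2 q.symm)
    by_cases e2 : d = G.al x2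
    · rw [e2, h.rpal_x2]
      exact fun q => h.x12 (al_inj h.mx1 h.mx2 q)
    have e3 : d ≠ G.al j1 := fun q => nal hF h.mj1 (h.nj1 hF hy hx1) (by rw [← q]; exact hd.1)
    have e4 : d ≠ G.al j2 := fun q => nal hF h.mj2 (h.nj2 hF hy hx2) (by rw [← q]; exact hd.1)
    rw [rpal_off e1 e2 e3 e4 (hF.sub hd.1)]
    exact hF.tok _ hd.1
  two := by
    intro v hv
    rw [h.mem_vs] at hv
    rw [← hF.two v hv.1]
    congr 1
    ext d
    rw [mem_filter, mem_filter, mem_F1]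
    constructor
    · rintro ⟨⟨a, -⟩, b⟩
      exact ⟨a, b⟩
    · rintro ⟨a, b⟩
      exact ⟨⟨a, by rw [show G.pi d = v from b]; exact hv.2⟩, b⟩


end RP

lemma ZW.one (G : CG V D) : G.ZW (fun _ => 1) (fun _ => 0) where
  sym := fun _ _ => rfl
  sum := by
    intro v hv
    rw [add_zero, sum_const, smul_eq_mul, mul_one]
    exact G.cubic v hv

lemma dg_eq_zx (G : CG V D) (X : Finset V) : G.dg X = G.zx (fun _ => 1) X := by
  have := G.zc_eq_zx (fun _ => 1) (fun _ => 0) X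
  unfold zc at this
  simp only [sum_const, smul_eq_mul, mul_one, mul_zero, add_zero] at this
  exact this

/-- `F` crosses every set an even number of times -/
lemma Tf.even_cr {F : Finset D} (hF : G.Tf F) {X : Finset V} (hX : X ⊆ G.vs) :
    Even (F.filter fun d => G.pi d ∈ X ∧ G.pi (G.al d) ∉ X).card := by
  have h1 := hF.card_F hX
  have h2 := G.cn_self_even hF.sub hF.al X
  have h3 : (F.filter fun d => G.pi d ∈ X).card = G.cn F X X +
      (F.filter fun d => G.pi d ∈ X ∧ G.pi (G.al d) ∉ X).card := by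
    unfold cn
    rw [← card_union_of_disjoint]
    · congr 1
      ext d
      simp only [mem_filter, mem_union]
      constructor
      · rintro ⟨a, b⟩
        by_cases q : G.pi (G.al d) ∈ X
        · exact Or.inl ⟨a, hF.tok d a, b, q⟩
        · exact Or.inr ⟨a, b, q⟩
      · rintro (⟨a, -, b, -⟩ | ⟨a, b, -⟩)
        · exact ⟨a, b⟩
        · exact ⟨a, b⟩
    · rw [disjoint_left]
      intro d hd hd'
      rw [mem_filter] at hd hd'
      exact hd'.2.2 hd.2.2.2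
  rw [Nat.even_iff] at h2 ⊢
  omega

/-- a set of degree at most 1 is closed under `F` -/
lemma Tf.closed_cr {F : Finset D} (hF : G.Tf F) {X : Finset V} (hX : X ⊆ G.vs)
    (hd : G.dg X ≤ 1) : ∀ d ∈ F, G.pi d ∈ X → G.pi (G.al d) ∈ X := by
  intro d hd1 hd2
  by_contra hn
  have h1 := hF.even_cr hX
  have h2 : (F.filter fun d => G.pi d ∈ X ∧ G.pi (G.al d) ∉ X) ⊆ G.bd X := by
    intro e he
    rw [mem_filter] at he
    rw [mem_bd]
    exact ⟨hF.sub he.1, he.2⟩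
  have h3 := card_le_card h2
  have h4 : 0 < (F.filter fun d => G.pi d ∈ X ∧ G.pi (G.al d) ∉ X).card :=
    card_pos.2 ⟨d, mem_filter.2 ⟨hd1, hd2, hn⟩⟩
  unfold dg at hd
  rw [Nat.even_iff] at h1
  omega

namespace RP

variable (h : G.RP x1 j1 y x2 j2)
include h

omit h in
/-- the set of the graph which belongs to a closed set of the smaller graph -/
noncomputable def ex (_ : G.RP x1 j1 y x2 j2) (X : Finset V) : Finset V :=
  if G.pi (G.al x1) ∈ X then insert (G.pi y) (insert (G.pi (G.al y)) X) else X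

variable {X : Finset V} {F : Finset D}

lemma ex_out (_hX : X ⊆ h.gr.vs) {v : V} (hv : v ≠ G.pi y ∧ v ≠ G.pi (G.al y)) :
    v ∈ h.ex X ↔ v ∈ X := by
  unfold ex
  split_ifs
  · rw [mem_insert, mem_insert]
    constructor
    · rintro (q | q | q)
      · exact absurd q hv.1
      · exact absurd q hv.2
      · exact q
    · exact fun q => Or.inr (Or.inr q)
  · rfl

lemma ex_1 (hX : X ⊆ h.gr.vs) : G.pi y ∈ h.ex X ↔ G.pi (G.al x1) ∈ X := by
  unfold ex
  split_ifs with q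
  · exact ⟨fun _ => q, fun _ => mem_insert_self _ _⟩
  · exact ⟨fun a => absurd rfl (h.mem_vs.1 (hX a)).2.1, fun a => absurd a q⟩

lemma ex_2 (hX : X ⊆ h.gr.vs) : G.pi (G.al y) ∈ h.ex X ↔ G.pi (G.al x1) ∈ X := by
  unfold ex
  split_ifs with q
  · exact ⟨fun _ => q, fun _ => mem_insert_of_mem (mem_insert_self _ _)⟩
  · exact ⟨fun a => absurd rfl (h.mem_vs.1 (hX a)).2.2, fun a => absurd a q⟩

lemma rs_ex (hX : X ⊆ h.gr.vs) : h.rs (h.ex X) = X := by
  ext v
  rw [mem_rs]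
  constructor
  · rintro ⟨a, b⟩
    exact (h.ex_out hX b).1 a
  · intro a
    have := (h.mem_vs.1 (hX a)).2
    exact ⟨(h.ex_out hX this).2 a, this⟩

lemma ex_sub (hX : X ⊆ h.gr.vs) : h.ex X ⊆ G.vs := by
  intro v hv
  by_cases p1 : v = G.pi y
  · rw [p1]
    exact G.pi_mem y h.my
  by_cases p2 : v = G.pi (G.al y)
  · rw [p2]
    exact G.pi_mem _ (G.al_mem y h.my)
  exact (h.mem_vs.1 (hX ((h.ex_out hX ⟨p1, p2⟩).1 hv))).1

lemma ex_card (hX : X ⊆ h.gr.vs) : Odd (h.ex X).card ↔ Odd X.card := by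
  have := h.card_rs (h.ex X)
  rw [h.rs_ex hX] at this
  by_cases q : G.pi (G.al x1) ∈ X
  · rw [if_pos ((h.ex_1 hX).2 q), if_pos ((h.ex_2 hX).2 q)] at this
    rw [Nat.odd_iff, Nat.odd_iff]
    omega
  · rw [if_neg (fun a => q ((h.ex_1 hX).1 a)), if_neg (fun a => q ((h.ex_2 hX).1 a))] at this
    rw [Nat.odd_iff, Nat.odd_iff]
    omega

lemma cl_iff (hF : G.Tf F) (hx1 : x1 ∈ F) (hx2 : x2 ∈ F)
    (hcl : ∀ d ∈ h.F1 F, h.gr.pi d ∈ X → h.gr.pi (h.gr.al d) ∈ X) :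
    G.pi (G.al x1) ∈ X ↔ G.pi (G.al x2) ∈ X := by
  constructor
  · intro q
    have := hcl (G.al x1) (mem_F1.2 ⟨hF.al _ hx1, h.ox1⟩) q
    rwa [h.gr_al, h.rpal_x1] at this
  · intro q
    have := hcl (G.al x2) (mem_F1.2 ⟨hF.al _ hx2, h.ox2⟩) q
    rwa [h.gr_al, h.rpal_x2] at this

/-- `ex X` is closed -/
lemma ex_cl (hF : G.Tf F) (hy : y ∈ F) (hx1 : x1 ∈ F) (hx2 : x2 ∈ F) (hX : X ⊆ h.gr.vs)
    (hcl : ∀ d ∈ h.F1 F, h.gr.pi d ∈ X → h.gr.pi (h.gr.al d) ∈ X) :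
    ∀ d ∈ F, G.pi d ∈ h.ex X → G.pi (G.al d) ∈ h.ex X := by
  have hc := h.cl_iff hF hx1 hx2 hcl
  intro d hd hdX
  by_cases p1 : G.pi d = G.pi y
  · rw [p1, h.ex_1 hX] at hdX
    rcases h.at1 (hF.sub hd) p1 with rfl | rfl | rfl
    · exact (h.ex_2 hX).2 hdX
    · exact (h.ex_out hX h.ox1).2 hdX
    · exact absurd hd (h.nj1 hF hy hx1)
  by_cases p2 : G.pi d = G.pi (G.al y)
  · rw [p2, h.ex_2 hX] at hdX
    rcases h.at2 (hF.sub hd) p2 with rfl | rfl | rfl
    · rw [G.al_al y h.my]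
      exact (h.ex_1 hX).2 hdX
    · exact (h.ex_out hX h.ox2).2 (hc.1 hdX)
    · exact absurd hd (h.nj2 hF hy hx2)
  rw [h.ex_out hX ⟨p1, p2⟩] at hdX
  by_cases e1 : d = G.al x1
  · rw [e1, G.al_al x1 h.mx1, h.px1]
    rw [e1] at hdX
    exact (h.ex_1 hX).2 hdX
  by_cases e2 : d = G.al x2
  · rw [e2, G.al_al x2 h.mx2, h.px2]
    rw [e2] at hdX
    exact (h.ex_2 hX).2 (hc.2 hdX)
  have e3 : d ≠ G.al j1 := fun q => nal hF h.mj1 (h.nj1 hF hy hx1) (by rw [← q]; exact hd)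
  have e4 : d ≠ G.al j2 := fun q => nal hF h.mj2 (h.nj2 hF hy hx2) (by rw [← q]; exact hd)
  have := hcl d (mem_F1.2 ⟨hd, p1, p2⟩) hdX
  rw [h.gr_al, rpal_off e1 e2 e3 e4 (hF.sub hd)] at this
  exact (h.ex_out hX (h.off_al (hF.sub hd) ⟨p1, p2⟩ e1 e2 e3 e4)).2 this


omit h in
/-- the sets which lose degree 2: both outer legs on the other side than the two vertices -/
def Bl (_ : G.RP x1 j1 y x2 j2) (U : Finset V) : Prop :=
  (G.pi y ∈ U ∧ ¬ (G.al j1 ≠ j1 ∧ G.pi (G.al j1) ∈ U) ∧ ¬ (G.al j2 ≠ j2 ∧ G.pi (G.al j2) ∈ U)) ∨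
  (G.pi y ∉ U ∧ (G.al j1 ≠ j1 ∧ G.pi (G.al j1) ∈ U) ∧ (G.al j2 ≠ j2 ∧ G.pi (G.al j2) ∈ U))

lemma zl_one : h.zl (fun _ => 1) 1 = fun _ => 1 := by
  funext d
  unfold zl fv
  split_ifs <;> rfl

/-- the degree of a closed set -/
theorem dg_ex (hF : G.Tf F) (hx1 : x1 ∈ F) (hx2 : x2 ∈ F) (hX : X ⊆ h.gr.vs)
    (hcl : ∀ d ∈ h.F1 F, h.gr.pi d ∈ X → h.gr.pi (h.gr.al d) ∈ X) :
    G.dg (h.ex X) = h.gr.dg X + if h.Bl (h.ex X) then 2 else 0 := by
  have hc := h.cl_iff hF hx1 hx2 hcl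
  have e1 := h.zx_G (w := 1) (ZW.one h.gr) (h.ex X)
  have e2 := h.zx_gr (w := 1) (ZW.one h.gr) (h.ex X)
  rw [h.rs_ex hX, ← dg_eq_zx] at e2
  rw [h.zl_one, ← dg_eq_zx] at e1
  have f1 : h.fv (fun _ => 1) 1 = 1 := by
    unfold fv
    split_ifs <;> rfl
  simp only [f1] at e1 e2
  have P1 := h.ex_1 hX
  have P2 := h.ex_2 hX
  have C := h.ex_out hX h.ox1
  have P := h.ex_out hX h.ox2
  by_cases q : G.pi (G.al x1) ∈ X
  · have P1' := P1.2 q
    have P2' := P2.2 q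
    have C' := C.2 q
    have P' := P.2 (hc.1 q)
    by_cases O1 : (G.al j1 ≠ j1 ∧ G.pi (G.al j1) ∈ h.ex X) <;>
      by_cases O2 : (G.al j2 ≠ j2 ∧ G.pi (G.al j2) ∈ h.ex X) <;>
      (unfold Bl; simp only [P1', P2', C', P', O1, O2, not_true, not_false_iff, and_true, true_and,
        and_false, false_and, if_true, if_false, ne_eq, and_self, or_true, or_false, true_or,
        false_or, or_self] at e1 e2 ⊢) <;> omega
  · have P1' : G.pi y ∉ h.ex X := fun a => q (P1.1 a)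
    have P2' : G.pi (G.al y) ∉ h.ex X := fun a => q (P2.1 a)
    have C' : G.pi (G.al x1) ∉ h.ex X := fun a => q (C.1 a)
    have P' : G.pi (G.al x2) ∉ h.ex X := fun a => q (hc.2 (P.1 a))
    by_cases O1 : (G.al j1 ≠ j1 ∧ G.pi (G.al j1) ∈ h.ex X) <;>
      by_cases O2 : (G.al j2 ≠ j2 ∧ G.pi (G.al j2) ∈ h.ex X) <;>
      (unfold Bl; simp only [P1', P2', C', P', O1, O2, not_true, not_false_iff, and_true, true_and,
        and_false, false_and, if_true, if_false, ne_eq, and_self, or_true, or_false, true_or,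
        false_or, or_self] at e1 e2 ⊢) <;> omega

/-- **legality of the step** in the class of patches: only a closed odd set of degree 5 or a closed
even set of degree 4 with `Bl` can block -/
theorem lp (hF : G.LP F) (hy : y ∈ F) (hx1 : x1 ∈ F) (hx2 : x2 ∈ F)
    (hbl : ∀ U ⊆ G.vs, (∀ d ∈ F, G.pi d ∈ U → G.pi (G.al d) ∈ U) → h.Bl U →
      (Odd U.card → 7 ≤ G.dg U) ∧ (Even U.card → 6 ≤ G.dg U)) : h.gr.LP (h.F1 F) := by
  have hT := h.tf hF.tf hy hx1 hx2
  -- closed sets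
  have key : ∀ X ⊆ h.gr.vs, X.Nonempty → (∀ d ∈ h.F1 F, h.gr.pi d ∈ X → h.gr.pi (h.gr.al d) ∈ X) →
      (Odd X.card → 5 ≤ h.gr.dg X) ∧ (Even X.card → 4 ≤ h.gr.dg X) := by
    intro X hX hne hcl
    have h1 := h.dg_ex hF.tf hx1 hx2 hX hcl
    have h2 := h.ex_cl hF.tf hy hx1 hx2 hX hcl
    have h3 := h.ex_sub hX
    have h4 := h.ex_card hX
    have h5 := G.dg_parity h3
    have hne' : (h.ex X).Nonempty := by
      obtain ⟨v, hv⟩ := hne
      exact ⟨v, (h.ex_out hX (h.mem_vs.1 (hX hv)).2).2 hv⟩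
    constructor
    · intro ho
      have a1 := hF.odd5 _ h3 (h4.2 ho) h2
      by_cases hB : h.Bl (h.ex X)
      · have := (hbl _ h3 h2 hB).1 (h4.2 ho)
        rw [if_pos hB] at h1
        omega
      · rw [if_neg hB] at h1
        omega
    · intro he
      have he' : Even (h.ex X).card := by
        rw [← Nat.not_odd_iff_even] at he ⊢
        exact fun a => he (h4.1 a)
      have a1 := hF.even3 _ h3 hne' h2
      have a2 : Even (G.dg (h.ex X)) := by
        rw [← Nat.not_odd_iff_even] at he' ⊢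
        exact fun a => he' (h5.1 a)
      by_cases hB : h.Bl (h.ex X)
      · have := (hbl _ h3 h2 hB).2 he'
        rw [if_pos hB] at h1
        omega
      · rw [if_neg hB] at h1
        rw [Nat.even_iff] at a2
        omega
  refine ⟨hT, ?_, ?_, ?_, ?_⟩
  · intro X hX ho
    have hne : X.Nonempty := by
      rw [nonempty_iff_ne_empty]
      rintro rfl
      simp at ho
    have hp := (h.gr.dg_parity hX).2 ho
    by_contra hlt
    have h1 : h.gr.dg X ≤ 1 := by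
      rw [Nat.odd_iff] at hp
      omega
    have := (key X hX hne (hT.closed_cr hX h1)).1 ho
    omega
  · intro X hX ho hcl
    have hne : X.Nonempty := by
      rw [nonempty_iff_ne_empty]
      rintro rfl
      simp at ho
    exact (key X hX hne hcl).1 ho
  · intro X hX hne
    by_contra hlt
    have h1 : h.gr.dg X ≤ 1 := by omega
    have := key X hX hne (hT.closed_cr hX h1)
    rcases Nat.even_or_odd X.card with a | a
    · have := this.2 a
      omega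
    · have := this.1 a
      omega
  · intro X hX hne hcl
    have := key X hX hne hcl
    rcases Nat.even_or_odd X.card with a | a
    · have := this.2 a
      omega
    · have := this.1 a
      omega


end RP

/-- removing a vertex from a set: the value grows by at most `3 - 2 z d0` -/
theorem ZW.zc_erase0 {z : D → ℕ} {t : V → ℕ} (hw : G.ZW z t) {X : Finset V} (hX : X ⊆ G.vs)
    {d0 : D} (hd0 : d0 ∈ G.ds) (hc : G.cr X d0) :
    G.zc z t (X.erase (G.pi d0)) + 2 * z d0 ≤ G.zc z t X + 3 := by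
  set v := G.pi d0 with hv
  have hvX : v ∈ X := hc.1
  rw [zc_eq_zx, zc_eq_zx]
  have ht := add_sum_erase X t hvX
  -- the darts at v
  set S := G.ds.filter fun d => G.pi d = v with hS
  have hsum := hw.sum v (hX hvX)
  rw [← hS] at hsum
  set a := ∑ d ∈ S, if G.cr X d then z d else 0 with ha
  set b := ∑ d ∈ S, if G.al d ≠ d ∧ G.pi (G.al d) ∈ X.erase v then z d else 0 with hb
  have h1 : a + b ≤ ∑ d ∈ S, z d := by
    rw [ha, hb, ← sum_add_distrib]
    refine sum_le_sum fun d _ => ?_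
    by_cases q : G.cr X d
    · have : ¬ (G.al d ≠ d ∧ G.pi (G.al d) ∈ X.erase v) := by
        rintro ⟨q1, q2⟩
        rcases q.2 with q3 | q3
        · exact q3 (mem_of_mem_erase q2)
        · exact q1 q3
      rw [if_pos q, if_neg this]
      omega
    · rw [if_neg q]
      split_ifs <;> omega
  have h2 : z d0 ≤ a := by
    have : (if G.cr X d0 then z d0 else 0) ≤ a :=
      single_le_sum (f := fun d => if G.cr X d then z d else 0) (fun _ _ => Nat.zero_le _)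
        (mem_filter.2 ⟨hd0, rfl⟩)
    rwa [if_pos hc] at this
  have h3 : G.zx z X = a + ∑ d ∈ G.ds.filter (fun d => G.pi d ≠ v), if G.cr X d then z d else 0 := by
    unfold zx
    rw [ha, hS, ← sum_filter_add_sum_filter_not G.ds (fun d => G.pi d = v)]
  have h4 : G.zx z (X.erase v) = b +
      ∑ d ∈ G.ds.filter (fun d => G.pi d ≠ v), if G.cr X d then z d else 0 := by
    have e1 : G.zx z (X.erase v) = ∑ d ∈ G.ds.filter (fun d => G.pi d ≠ v),
        if G.cr (X.erase v) d then z d else 0 := by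
      unfold zx
      rw [sum_filter]
      refine sum_congr rfl fun d _ => ?_
      by_cases q : G.pi d ≠ v
      · rw [if_pos q]
      · rw [if_neg q, if_neg]
        intro q1
        exact (ne_of_mem_erase q1.1) (not_not.1 q)
    have e2 : b = ∑ d ∈ G.ds.filter (fun d => G.pi d ≠ v),
        if G.al d ≠ d ∧ G.pi d ∈ X.erase v ∧ G.pi (G.al d) = v then z d else 0 := by
      rw [hb, ← sum_filter, ← sum_filter]
      refine sum_bij' (fun d _ => G.al d) (fun d _ => G.al d) ?_ ?_ ?_ ?_ ?_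
      · intro d hd
        rw [mem_filter, hS, mem_filter] at hd
        obtain ⟨⟨a1, a2⟩, a3, a4⟩ := hd
        rw [mem_filter, mem_filter, G.al_al d a1]
        exact ⟨⟨G.al_mem d a1, ne_of_mem_erase a4⟩, fun q => a3 q.symm, a4, a2⟩
      · intro d hd
        rw [mem_filter, mem_filter] at hd
        obtain ⟨⟨a1, a2⟩, a3, a4, a5⟩ := hd
        rw [mem_filter, hS, mem_filter, G.al_al d a1]
        exact ⟨⟨G.al_mem d a1, a5⟩, fun q => a3 q.symm, a4⟩
      · intro d hd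
        rw [mem_filter, hS, mem_filter] at hd
        exact G.al_al d hd.1.1
      · intro d hd
        rw [mem_filter, mem_filter] at hd
        exact G.al_al d hd.1.1
      · intro d hd
        rw [mem_filter, hS, mem_filter] at hd
        exact (hw.sym d hd.1.1).symm
    rw [e1, e2, ← sum_add_distrib]
    refine sum_congr rfl fun d hd => ?_
    rw [mem_filter] at hd
    have hn := hd.2
    have k : G.cr (X.erase v) d ↔ G.cr X d ∨ (G.al d ≠ d ∧ G.pi d ∈ X.erase v ∧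
        G.pi (G.al d) = v) := by
      unfold cr
      rw [mem_erase, mem_erase]
      constructor
      · rintro ⟨⟨q1, q2⟩, q3 | q3⟩
        · by_cases q4 : G.pi (G.al d) = v
          · by_cases q5 : G.al d = d
            · exact Or.inl ⟨q2, Or.inr q5⟩
            · exact Or.inr ⟨q5, ⟨q1, q2⟩, q4⟩
          · exact Or.inl ⟨q2, Or.inl fun q5 => q3 ⟨q4, q5⟩⟩
        · exact Or.inl ⟨q2, Or.inr q3⟩
      · rintro (⟨q1, q2⟩ | ⟨q1, q2, q3⟩)
        · refine ⟨⟨hn, q1⟩, ?_⟩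
          rcases q2 with q2 | q2
          · exact Or.inl fun q => q2 q.2
          · exact Or.inr q2
        · exact ⟨q2, Or.inl fun q => q.1 q3⟩
    have k2 : ¬ (G.cr X d ∧ (G.al d ≠ d ∧ G.pi d ∈ X.erase v ∧ G.pi (G.al d) = v)) := by
      rintro ⟨⟨-, q2⟩, q3, -, q5⟩
      rcases q2 with q2 | q2
      · exact q2 (by rw [q5]; exact hvX)
      · exact q3 q2
    by_cases q : G.cr X d
    · rw [if_pos q, if_pos (k.2 (Or.inl q)), if_neg (fun q1 => k2 ⟨q, q1⟩), zero_add]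
    · rw [if_neg q, add_zero]
      by_cases q1 : (G.al d ≠ d ∧ G.pi d ∈ X.erase v ∧ G.pi (G.al d) = v)
      · rw [if_pos q1, if_pos (k.2 (Or.inr q1))]
      · rw [if_neg q1, if_neg (fun q2 => (k.1 q2).elim q q1)]
  omega

/-- an even set which is left by the dart `d0` has value at least `2 z d0` -/
theorem ZW.two_mul_le_zc {z : D → ℕ} {t : V → ℕ} (hw : G.ZW z t) (hb : G.ZB z t) {X : Finset V}
    (hX : X ⊆ G.vs) (he : Even X.card) {d0 : D} (hd0 : d0 ∈ G.ds) (hc : G.cr X d0) :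
    2 * z d0 ≤ G.zc z t X := by
  have h1 := hw.zc_erase0 hX hd0 hc
  have h2 := card_erase_add_one hc.1
  have h3 := hb (X.erase (G.pi d0)) ((erase_subset _ _).trans hX) (by
    rw [Nat.even_iff] at he
    rw [Nat.odd_iff]
    omega)
  omega

namespace RP

variable (h : G.RP x1 j1 y x2 j2)
include h

variable {z : D → ℕ} {w : ℕ}

/-- the lift when one of the two new edges is dead (and the other one arbitrary) -/
lemma zc_ge3' {t : V → ℕ} (hw : h.gr.ZW z t) (hb : h.gr.ZB z t)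
    (hle : z (G.al x1) + h.fv z w ≤ 3) (h0 : z (G.al x1) = 0 ∨ h.fv z w = 0) (W : Finset V)
    (hW : W ⊆ G.vs) (hs : ¬ (G.pi y ∈ W ↔ G.pi (G.al y) ∈ W)) (hev : Even (h.rs W).card) :
    3 ≤ G.zc (h.zl z w) (h.tl t) W := by
  have k1 : G.pi (G.al x1) ∈ W → G.pi (G.al x2) ∉ W → 2 * z (G.al x1) ≤ h.gr.zc z t (h.rs W) := by
    intro q1 q2
    refine hw.two_mul_le_zc hb (h.rs_sub hW) hev (d0 := G.al x1) (h.mem_ds.2 ⟨h.ax1, h.ox1⟩) ⟨?_, ?_⟩
    · rw [h.gr_pi, h.rs_of h.ox1]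
      exact q1
    · left
      rw [h.gr_al, h.rpal_x1, h.gr_pi, h.rs_of h.ox2]
      exact q2
  have k2 : G.pi (G.al x2) ∈ W → G.pi (G.al x1) ∉ W → 2 * z (G.al x1) ≤ h.gr.zc z t (h.rs W) := by
    intro q1 q2
    rw [← h.sym_x hw]
    refine hw.two_mul_le_zc hb (h.rs_sub hW) hev (d0 := G.al x2) (h.mem_ds.2 ⟨h.ax2, h.ox2⟩) ⟨?_, ?_⟩
    · rw [h.gr_pi, h.rs_of h.ox2]
      exact q1
    · left
      rw [h.gr_al, h.rpal_x2, h.gr_pi, h.rs_of h.ox1]
      exact q2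
  have k3 : (G.al j1 ≠ j1 ∧ G.pi (G.al j1) ∈ W) → ¬ (G.al j2 ≠ j2 ∧ G.pi (G.al j2) ∈ W) →
      2 * h.fv z w ≤ h.gr.zc z t (h.rs W) := by
    intro q1 q2
    rw [h.fv_1 q1.1]
    have o1 := h.oj1.resolve_left q1.1
    refine hw.two_mul_le_zc hb (h.rs_sub hW) hev (d0 := G.al j1) (h.mem_ds.2 ⟨h.aj1, o1⟩) ⟨?_, ?_⟩
    · rw [h.gr_pi, h.rs_of o1]
      exact q1.2
    · rw [h.gr_al, h.rpal_j1]
      by_cases q3 : G.al j2 = j2
      · rw [if_pos q3]
        exact Or.inr rfl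
      · rw [if_neg q3, h.gr_pi, h.rs_of (h.oj2.resolve_left q3)]
        exact Or.inl fun q4 => q2 ⟨q3, q4⟩
  have k4 : (G.al j2 ≠ j2 ∧ G.pi (G.al j2) ∈ W) → ¬ (G.al j1 ≠ j1 ∧ G.pi (G.al j1) ∈ W) →
      2 * h.fv z w ≤ h.gr.zc z t (h.rs W) := by
    intro q1 q2
    rw [h.fv_2 hw q1.1]
    have o2 := h.oj2.resolve_left q1.1
    refine hw.two_mul_le_zc hb (h.rs_sub hW) hev (d0 := G.al j2) (h.mem_ds.2 ⟨h.aj2, o2⟩) ⟨?_, ?_⟩
    · rw [h.gr_pi, h.rs_of o2]
      exact q1.2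
    · rw [h.gr_al, h.rpal_j2]
      by_cases q3 : G.al j1 = j1
      · rw [if_pos q3]
        exact Or.inr rfl
      · rw [if_neg q3, h.gr_pi, h.rs_of (h.oj1.resolve_left q3)]
        exact Or.inl fun q4 => q2 ⟨q3, q4⟩
  rw [zc_eq_zx, h.sum_tl]
  rw [zc_eq_zx] at k1 k2 k3 k4
  have e1 := h.zx_G (w := w) hw W
  have e2 := h.zx_gr (w := w) hw W
  by_cases P1 : G.pi y ∈ W
  · have P2 : G.pi (G.al y) ∉ W := fun a => hs ⟨fun _ => a, fun _ => P1⟩
    by_cases C : G.pi (G.al x1) ∈ W <;> by_cases P : G.pi (G.al x2) ∈ W <;>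
      by_cases O1 : (G.al j1 ≠ j1 ∧ G.pi (G.al j1) ∈ W) <;>
      by_cases O2 : (G.al j2 ≠ j2 ∧ G.pi (G.al j2) ∈ W) <;>
      simp only [P1, P2, C, P, O1, O2, not_true, not_false_iff, and_true, true_and, and_false,
        false_and, if_true, if_false, ne_eq, and_self, forall_const, false_imp_iff,
        true_imp_iff] at e1 e2 k1 k2 k3 k4 <;> omega
  · have P2 : G.pi (G.al y) ∈ W := by
      by_contra a
      exact hs ⟨fun b => absurd b P1, fun b => absurd b a⟩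
    by_cases C : G.pi (G.al x1) ∈ W <;> by_cases P : G.pi (G.al x2) ∈ W <;>
      by_cases O1 : (G.al j1 ≠ j1 ∧ G.pi (G.al j1) ∈ W) <;>
      by_cases O2 : (G.al j2 ≠ j2 ∧ G.pi (G.al j2) ∈ W) <;>
      simp only [P1, P2, C, P, O1, O2, not_true, not_false_iff, and_true, true_and, and_false,
        false_and, if_true, if_false, ne_eq, and_self, forall_const, false_imp_iff,
        true_imp_iff] at e1 e2 k1 k2 k3 k4 <;> omega

/-- **lift with one dead new edge** (START STEP and J-STEP): the other new edge is arbitrary -/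
theorem zb0 {t : V → ℕ} (hw : h.gr.ZW z t) (hb : h.gr.ZB z t)
    (hle : z (G.al x1) + h.fv z w ≤ 3) (h0 : z (G.al x1) = 0 ∨ h.fv z w = 0) :
    G.ZB (h.zl z w) (h.tl t) := by
  intro W hW ho
  have hc := h.card_rs W
  by_cases hs : G.pi y ∈ W ↔ G.pi (G.al y) ∈ W
  · have h1 := h.zc_le (w := w) hw hle W hs
    have h2 : Odd (h.rs W).card := by
      by_cases P1 : G.pi y ∈ W
      · rw [if_pos P1, if_pos (hs.1 P1)] at hc
        rw [Nat.odd_iff] at ho ⊢
        omega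
      · rw [if_neg P1, if_neg (fun a => P1 (hs.2 a))] at hc
        rw [Nat.odd_iff] at ho ⊢
        omega
    exact (hb _ (h.rs_sub hW) h2).trans h1
  · refine h.zc_ge3' hw hb hle h0 W hW hs ?_
    by_cases P1 : G.pi y ∈ W
    · have P2 : G.pi (G.al y) ∉ W := fun a => hs ⟨fun _ => a, fun _ => P1⟩
      rw [if_pos P1, if_neg P2] at hc
      rw [Nat.odd_iff] at ho
      rw [Nat.even_iff]
      omega
    · have P2 : G.pi (G.al y) ∈ W := by
        by_contra a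
        exact hs ⟨fun b => absurd b P1, fun b => absurd b a⟩
      rw [if_neg P1, if_pos P2] at hc
      rw [Nat.odd_iff] at ho
      rw [Nat.even_iff]
      omega


/-- the smaller graph has two vertices less -/
lemma vs_card : h.gr.vs.card + 2 = G.vs.card := by
  have h1 := h.card_rs G.vs
  have h2 : h.rs G.vs = h.gr.vs := rfl
  rw [if_pos (G.pi_mem y h.my), if_pos (G.pi_mem _ (G.al_mem y h.my)), h2] at h1
  omega

/-- tokens of the smaller graph -/
lemma tok_iff {d : D} (hd : d ∈ h.gr.ds) : h.gr.al d = d ↔ G.al d = d ∨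
    (d = G.al j1 ∧ G.al j2 = j2) ∨ (d = G.al j2 ∧ G.al j1 = j1) := by
  rw [h.mem_ds] at hd
  rw [h.gr_al]
  by_cases e1 : d = G.al x1
  · rw [e1, h.rpal_x1, G.al_al x1 h.mx1]
    constructor
    · exact fun q => absurd (al_inj h.mx2 h.mx1 q).symm h.x12
    · rintro (q | ⟨q, -⟩ | ⟨q, -⟩)
      · exact absurd ((congrArg G.pi q).symm.trans h.px1) h.ox1.1
      · exact absurd (al_inj h.mx1 h.mj1 q) h.n1
      · exact absurd (al_inj h.mx1 h.mj2 q) h.x1j2
  by_cases e2 : d = G.al x2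
  · rw [e2, h.rpal_x2, G.al_al x2 h.mx2]
    constructor
    · exact fun q => absurd (al_inj h.mx1 h.mx2 q) h.x12
    · rintro (q | ⟨q, -⟩ | ⟨q, -⟩)
      · exact absurd ((congrArg G.pi q).symm.trans h.px2) h.ox2.2
      · exact absurd (al_inj h.mx2 h.mj1 q) h.j1x2.symm
      · exact absurd (al_inj h.mx2 h.mj2 q) h.n4
  by_cases e3 : d = G.al j1
  · have t1 : G.al j1 ≠ j1 := h.tk1 (by rw [← e3]; exact hd.2)
    rw [e3, h.rpal_j1, G.al_al j1 h.mj1]
    split_ifs with q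
    · exact ⟨fun _ => Or.inr (Or.inl ⟨rfl, q⟩), fun _ => rfl⟩
    · constructor
      · exact fun q1 => absurd (al_inj h.mj2 h.mj1 q1).symm h.j12
      · rintro (q1 | ⟨-, q1⟩ | ⟨q1, -⟩)
        · exact absurd q1.symm t1
        · exact absurd q1 q
        · exact absurd (al_inj h.mj1 h.mj2 q1) h.j12
  by_cases e4 : d = G.al j2
  · have t2 : G.al j2 ≠ j2 := h.tk2 (by rw [← e4]; exact hd.2)
    rw [e4, h.rpal_j2, G.al_al j2 h.mj2]
    split_ifs with q
    · exact ⟨fun _ => Or.inr (Or.inr ⟨rfl, q⟩), fun _ => rfl⟩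
    · constructor
      · exact fun q1 => absurd (al_inj h.mj1 h.mj2 q1) h.j12
      · rintro (q1 | ⟨q1, -⟩ | ⟨-, q1⟩)
        · exact absurd q1.symm t2
        · exact absurd (al_inj h.mj2 h.mj1 q1).symm h.j12
        · exact absurd q1 q
  rw [rpal_off e1 e2 e3 e4 hd.1]
  constructor
  · exact Or.inl
  · rintro (q | ⟨q, -⟩ | ⟨q, -⟩)
    · exact q
    · exact absurd q e3
    · exact absurd q e4

/-- the tokens when `j1` is a token and `j2` is not -/
lemma tk_eq (t1 : G.al j1 = j1) (t2 : G.al j2 ≠ j2) :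
    h.gr.tk h.gr.vs = insert (G.al j2) ((G.tk G.vs).erase j1) := by
  have o2 := h.oj2.resolve_left t2
  ext d
  rw [mem_insert, mem_erase, mem_tk, mem_tk]
  constructor
  · rintro ⟨a, -, b⟩
    rw [h.tok_iff a] at b
    have a' := h.mem_ds.1 a
    rcases b with b | ⟨b, -⟩ | ⟨b, -⟩
    · exact Or.inr ⟨fun q => a'.2.1 (by rw [q, h.pj1]), a'.1, G.pi_mem d a'.1, b⟩
    · exact absurd (by rw [b, t1, h.pj1]) a'.2.1
    · exact Or.inl b
  · rintro (rfl | ⟨a, b, -, c⟩)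
    · have hd : G.al j2 ∈ h.gr.ds := h.mem_ds.2 ⟨h.aj2, o2⟩
      exact ⟨hd, h.gr.pi_mem _ hd, (h.tok_iff hd).2 (Or.inr (Or.inr ⟨rfl, t1⟩))⟩
    · have hd : d ∈ h.gr.ds := by
        refine h.mem_ds.2 ⟨b, fun q => ?_, fun q => ?_⟩
        · rcases h.at1 b q with rfl | rfl | rfl
          · exact h.hp (congrArg G.pi c).symm
          · exact h.ox1.1 ((congrArg G.pi c).trans h.px1)
          · exact a rfl
        · rcases h.at2 b q with rfl | rfl | rfl
          · rw [G.al_al y h.my] at c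
            exact h.hp (congrArg G.pi c)
          · exact h.ox2.2 ((congrArg G.pi c).trans h.px2)
          · exact t2 c
      exact ⟨hd, h.gr.pi_mem _ hd, (h.tok_iff hd).2 (Or.inl c)⟩

/-- the number of tokens does not change -/
lemma tk_card (t1 : G.al j1 = j1) (t2 : G.al j2 ≠ j2) :
    (h.gr.tk h.gr.vs).card = (G.tk G.vs).card := by
  rw [h.tk_eq t1 t2, card_insert_of_notMem]
  · exact card_erase_add_one (G.mem_tk.2 ⟨h.mj1, G.pi_mem _ h.mj1, t1⟩)
  · rw [mem_erase, mem_tk]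
    rintro ⟨-, -, -, q⟩
    rw [G.al_al j2 h.mj2] at q
    exact t2 q.symm


lemma tl_zero : h.tl (fun _ => 0) = fun _ => 0 := by
  funext v
  unfold tl
  split_ifs <;> rfl

end RP

end JK.CG
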