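import Pool.Agent.Lib.JK.MC2

/-! Weights (z-form, S5, MP_c95763_co): `z d` copies of the edge of `d` (`z d` copies of a token),
`t v` new tokens at `v`, sum 3 at every vertex. The new graph has the same vertices and darts; a dart
`d` with `z d ≠ 0` keeps its partner, a dart with `z d = 0` becomes a further copy of an edge `ρ d` at
its vertex, or a new token. Perfect matchings of the new graph are perfect matchings of `G` avoiding
the edges with `z = 0`. -/

set_option autoImplicit false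

namespace JK.CG

open Finset Classical

variable {V D : Type*} (G : CG V D)

/-- weights with sum 3 -/
structure ZW (z : D → ℕ) (t : V → ℕ) : Prop where
  sym : ∀ d ∈ G.ds, z (G.al d) = z d
  sum : ∀ v ∈ G.vs, (∑ d ∈ G.ds.filter fun d => G.pi d = v, z d) + t v = 3

/-- the value of a vertex set: copies of edges leaving it, copies of tokens in it, new tokens -/
noncomputable def zc (z : D → ℕ) (t : V → ℕ) (X : Finset V) : ℕ :=
  ∑ d ∈ G.bd X, z d + ∑ d ∈ G.tk X, z d + ∑ v ∈ X, t v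

/-- bridgelessness -/
def ZB (z : D → ℕ) (t : V → ℕ) : Prop := ∀ X ⊆ G.vs, Odd X.card → 3 ≤ G.zc z t X

/-- touched vertices -/
noncomputable def ztch (z : D → ℕ) : Finset V :=
  G.vs.filter fun v => ∃ d ∈ G.ds, G.pi d = v ∧ z d ≠ 1

/-- everything touched is joined to `K` -/
def ZJoined (K : Finset V) (F : Finset D) (z : D → ℕ) : Prop :=
  ∀ Z, G.Adm K F Z → (∃ v ∈ Z, v ∈ G.ztch z) → (∃ d ∈ G.bd Z, z d = 0) ∨
    ∃ d1 ∈ G.bd Z, ∃ d2 ∈ G.bd Z, d1 ≠ d2 ∧ G.pi (G.al d1) = G.pi (G.al d2)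

/-- realisation of weights -/
structure ZD (z : D → ℕ) (t : V → ℕ) (al' ρ : D → D) : Prop where
  mem : ∀ d ∈ G.ds, al' d ∈ G.ds
  inv : ∀ d ∈ G.ds, al' (al' d) = d
  off : ∀ d ∈ G.ds, z d ≠ 0 → al' d = G.al d ∧ ρ d = d
  pair : ∀ d ∈ G.ds, al' d ≠ d → ρ d ∈ G.ds ∧ G.al (ρ d) ≠ ρ d ∧ G.pi (ρ d) = G.pi d ∧
    ρ (al' d) = G.al (ρ d) ∧ z (ρ d) ≠ 0
  cnt : ∀ e ∈ G.ds, G.al e ≠ e → (G.ds.filter fun d => al' d ≠ d ∧ ρ d = e).card = z e
  tok : ∀ v ∈ G.vs, (G.ds.filter fun d => G.pi d = v ∧ al' d = d).card =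
    t v + ∑ d ∈ G.ds.filter fun d => G.pi d = v ∧ G.al d = d, z d

/-! ### part 1 (helper94) -/

/-- parity of weights, all vertex sets -/
theorem ZW.parity {z : D → ℕ} {t : V → ℕ} (h : G.ZW z t) {X : Finset V} (hX : X ⊆ G.vs) :
    Odd (G.zc z t X) ↔ Odd X.card := by
  have h1 : ∑ v ∈ X, ((∑ d ∈ G.ds.filter fun d => G.pi d = v, z d) + t v) = 3 * X.card := by
    rw [sum_congr rfl fun v hv => h.sum v (hX hv), sum_const, smul_eq_mul, mul_comm]
  have h2 : ∑ v ∈ X, (∑ d ∈ G.ds.filter fun d => G.pi d = v, z d) =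
      ∑ d ∈ G.ds.filter fun d => G.pi d ∈ X, z d := by
    rw [← sum_fiberwise_of_maps_to (s := G.ds.filter fun d => G.pi d ∈ X) (t := X) (g := G.pi)
      (fun d hd => (mem_filter.1 hd).2)]
    refine sum_congr rfl fun v hv => ?_
    refine sum_congr ?_ fun _ _ => rfl
    ext d
    rw [mem_filter, mem_filter, mem_filter]
    constructor
    · rintro ⟨h3, h4⟩
      exact ⟨⟨h3, by rw [h4]; exact hv⟩, h4⟩
    · rintro ⟨⟨h3, -⟩, h4⟩
      exact ⟨h3, h4⟩
  -- the darts inside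
  set I := G.ds.filter fun d => G.pi d ∈ X ∧ G.pi (G.al d) ∈ X ∧ G.al d ≠ d with hI
  have h3 : (G.ds.filter fun d => G.pi d ∈ X) = (G.bd X ∪ G.tk X) ∪ I := by
    ext d
    rw [mem_union, mem_union, mem_filter, G.mem_bd, G.mem_tk, hI, mem_filter]
    constructor
    · rintro ⟨h4, h5⟩
      by_cases h6 : G.al d = d
      · exact Or.inl (Or.inr ⟨h4, h5, h6⟩)
      · by_cases h7 : G.pi (G.al d) ∈ X
        · exact Or.inr ⟨h4, h5, h7, h6⟩
        · exact Or.inl (Or.inl ⟨h4, h5, h7⟩)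
    · rintro ((⟨h4, h5, -⟩ | ⟨h4, h5, -⟩) | ⟨h4, h5, -⟩)
      · exact ⟨h4, h5⟩
      · exact ⟨h4, h5⟩
      · exact ⟨h4, h5⟩
  have h4 : Disjoint (G.bd X) (G.tk X) := by
    rw [disjoint_left]
    intro d hd hd'
    rw [G.mem_bd] at hd
    rw [G.mem_tk] at hd'
    exact hd.2.2 (by rw [hd'.2.2]; exact hd.2.1)
  have h5 : Disjoint (G.bd X ∪ G.tk X) I := by
    rw [disjoint_left]
    intro d hd hd'
    rw [mem_union, G.mem_bd, G.mem_tk] at hd
    rw [hI, mem_filter] at hd'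
    rcases hd with hd | hd
    · exact hd.2.2 hd'.2.2.1
    · exact hd'.2.2.2 hd.2.2
  have h6 : Even (∑ d ∈ I, z d) := by
    have h7 : ∑ d ∈ I, (z d : ZMod 2) = 0 := by
      refine sum_involution (fun d _ => G.al d) ?_ ?_ ?_ ?_
      · intro d hd
        rw [hI, mem_filter] at hd
        rw [h.sym d hd.1]
        exact CharTwo.add_self_eq_zero _
      · intro d hd _
        rw [hI, mem_filter] at hd
        exact hd.2.2.2
      · intro d hd
        rw [hI, mem_filter] at hd ⊢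
        obtain ⟨a1, a2, a3, a4⟩ := hd
        refine ⟨G.al_mem d a1, a3, ?_, ?_⟩
        · rw [G.al_al d a1]
          exact a2
        · rw [G.al_al d a1]
          exact a4.symm
      · intro d hd
        rw [hI, mem_filter] at hd
        exact G.al_al d hd.1
    rw [← Nat.cast_sum] at h7
    exact (ZMod.natCast_eq_zero_iff_even).1 h7
  rw [sum_add_distrib, h2, h3, sum_union h5, sum_union h4] at h1
  unfold zc
  obtain ⟨k, hk⟩ := h6
  rw [Nat.odd_iff, Nat.odd_iff]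
  omega

/-- a bijection between two finite sets of the same size with prescribed values on a subset -/
private lemma exists_match {α β : Type*} [Nonempty β] {P : Finset α} {Q Q0 : Finset β}
    (φ : β → α) (hQ : Q0 ⊆ Q) (hφ : ∀ d ∈ Q0, φ d ∈ P)
    (hi : ∀ d ∈ Q0, ∀ d' ∈ Q0, φ d = φ d' → d = d') (h : P.card = Q.card) :
    ∃ (f : α → β) (g : β → α), (∀ p ∈ P, f p ∈ Q ∧ g (f p) = p) ∧
      (∀ d ∈ Q, g d ∈ P ∧ f (g d) = d) ∧ ∀ d ∈ Q0, g d = φ d := by
  have hP0 : Q0.image φ ⊆ P := by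
    intro p hp
    obtain ⟨d, hd, rfl⟩ := mem_image.1 hp
    exact hφ d hd
  have hc : (P \ Q0.image φ).card = (Q \ Q0).card := by
    rw [card_sdiff_of_subset hP0, card_sdiff_of_subset hQ, h,
      card_image_of_injOn (fun d hd d' hd' hdd => hi d hd d' hd' hdd)]
  have e : {x // x ∈ P \ Q0.image φ} ≃ {x // x ∈ Q \ Q0} := Finset.equivOfCardEq hc
  have hex : ∀ p ∈ Q0.image φ, ∃ d, d ∈ Q0 ∧ φ d = p := by
    intro p hp
    obtain ⟨d, hd, h1⟩ := mem_image.1 hp
    exact ⟨d, hd, h1⟩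
  choose! c hc1 hc2 using hex
  let f : α → β := fun p => if p ∈ Q0.image φ then c p else
    if h : p ∈ P \ Q0.image φ then (e ⟨p, h⟩).1 else Classical.arbitrary β
  let g : β → α := fun d => if d ∈ Q0 then φ d else
    if h : d ∈ Q \ Q0 then (e.symm ⟨d, h⟩).1 else φ d
  have f1 : ∀ p ∈ Q0.image φ, f p = c p := fun p hp => if_pos hp
  have f2 : ∀ p (hp : p ∈ P \ Q0.image φ), f p = (e ⟨p, hp⟩).1 := by
    intro p hp
    change (if p ∈ Q0.image φ then c p else
      if h : p ∈ P \ Q0.image φ then (e ⟨p, h⟩).1 else Classical.arbitrary β) = _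
    rw [if_neg (mem_sdiff.1 hp).2, dif_pos hp]
  have g1 : ∀ d ∈ Q0, g d = φ d := fun d hd => if_pos hd
  have g2 : ∀ d (hd : d ∈ Q \ Q0), g d = (e.symm ⟨d, hd⟩).1 := by
    intro d hd
    change (if d ∈ Q0 then φ d else
      if h : d ∈ Q \ Q0 then (e.symm ⟨d, h⟩).1 else φ d) = _
    rw [if_neg (mem_sdiff.1 hd).2, dif_pos hd]
  refine ⟨f, g, ?_, ?_, g1⟩
  · intro p hp
    by_cases hp0 : p ∈ Q0.image φ
    · rw [f1 p hp0, g1 _ (hc1 p hp0), hc2 p hp0]
      exact ⟨hQ (hc1 p hp0), rfl⟩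
    · have hp1 : p ∈ P \ Q0.image φ := mem_sdiff.2 ⟨hp, hp0⟩
      have h1 : (e ⟨p, hp1⟩).1 ∈ Q \ Q0 := (e ⟨p, hp1⟩).2
      have h2 : (⟨(e ⟨p, hp1⟩).1, h1⟩ : {x // x ∈ Q \ Q0}) = e ⟨p, hp1⟩ := rfl
      rw [f2 p hp1, g2 _ h1, h2, e.symm_apply_apply]
      exact ⟨(mem_sdiff.1 h1).1, rfl⟩
  · intro d hd
    by_cases hd0 : d ∈ Q0
    · have h1 : φ d ∈ Q0.image φ := mem_image_of_mem φ hd0
      rw [g1 d hd0, f1 _ h1]
      exact ⟨hφ d hd0, hi _ (hc1 _ h1) _ hd0 (hc2 _ h1)⟩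
    · have hd1 : d ∈ Q \ Q0 := mem_sdiff.2 ⟨hd, hd0⟩
      have h1 : (e.symm ⟨d, hd1⟩).1 ∈ P \ Q0.image φ := (e.symm ⟨d, hd1⟩).2
      have h2 : (⟨(e.symm ⟨d, hd1⟩).1, h1⟩ : {x // x ∈ P \ Q0.image φ}) = e.symm ⟨d, hd1⟩ := rfl
      rw [g2 d hd1, f2 _ h1, h2, e.apply_symm_apply]
      exact ⟨(mem_sdiff.1 h1).1, rfl⟩

/-- realisations exist: slots `(e, i)` with `1 ≤ i < z e` and `(v, j)` with `j < t v`, and for a token
`e` slots `(e, i)` too; at every vertex as many slots as darts with `z = 0` -/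
theorem ZW.exists_zd {z : D → ℕ} {t : V → ℕ} (h : G.ZW z t) : ∃ al' ρ, G.ZD z t al' ρ := by
  rcases isEmpty_or_nonempty D with hD | hD
  · refine ⟨id, id, ⟨fun d => isEmptyElim d, fun d => isEmptyElim d, fun d => isEmptyElim d,
      fun d => isEmptyElim d, fun d => isEmptyElim d, ?_⟩⟩
    intro v hv
    exfalso
    obtain ⟨d, -⟩ := card_pos.1 (show 0 < (G.ds.filter fun d => G.pi d = v).card by
      rw [G.cubic v hv]; exact Nat.succ_pos 2)
    exact isEmptyElim d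
  -- slots at `v`
  let P : V → Finset ((Σ _ : D, ℕ) ⊕ V × ℕ) := fun v =>
    ((G.ds.filter fun d => G.pi d = v).sigma fun d => range (z d)).disjSum
      ((range (t v)).image fun j => (v, j))
  have hPl : ∀ v (s : Σ _ : D, ℕ), Sum.inl s ∈ P v ↔ (s.1 ∈ G.ds ∧ G.pi s.1 = v) ∧
      s.2 < z s.1 := by
    intro v s
    change Sum.inl _ ∈ ((G.ds.filter fun d => G.pi d = v).sigma fun d => range (z d)).disjSum
      ((range (t v)).image fun j => (v, j)) ↔ _
    rw [inl_mem_disjSum, mem_sigma, mem_filter, mem_range]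
  have hPr : ∀ v (s : V × ℕ), Sum.inr s ∈ P v ↔ s.1 = v ∧ s.2 < t v := by
    rintro v ⟨u, j⟩
    change Sum.inr _ ∈ ((G.ds.filter fun d => G.pi d = v).sigma fun d => range (z d)).disjSum
      ((range (t v)).image fun j => (v, j)) ↔ _
    rw [inr_mem_disjSum, mem_image]
    constructor
    · rintro ⟨k, hk, he⟩
      rw [Prod.mk.injEq] at he
      rw [mem_range] at hk
      exact ⟨he.1.symm, he.2 ▸ hk⟩
    · rintro ⟨h1, hj⟩
      exact ⟨j, mem_range.2 hj, by rw [Prod.mk.injEq]; exact ⟨h1.symm, rfl⟩⟩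
  have hm : ∀ v, ∃ (f : (Σ _ : D, ℕ) ⊕ V × ℕ → D) (g : D → (Σ _ : D, ℕ) ⊕ V × ℕ), v ∈ G.vs →
      (∀ p ∈ P v, f p ∈ (G.ds.filter fun d => G.pi d = v) ∧ g (f p) = p) ∧
      (∀ d ∈ (G.ds.filter fun d => G.pi d = v), g d ∈ P v ∧ f (g d) = d) ∧
      ∀ d ∈ (G.ds.filter fun d => G.pi d = v ∧ z d ≠ 0), g d = Sum.inl ⟨d, 0⟩ := by
    intro v
    by_cases hv : v ∈ G.vs
    · have hc : (P v).card = (G.ds.filter fun d => G.pi d = v).card := by
        rw [G.cubic v hv]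
        change (((G.ds.filter fun d => G.pi d = v).sigma fun d => range (z d)).disjSum
          ((range (t v)).image fun j => (v, j))).card = 3
        rw [card_disjSum, card_sigma, card_image_of_injective _ (Prod.mk_right_injective v),
          card_range, ← h.sum v hv]
        congr 1
        exact sum_congr rfl fun d _ => card_range _
      obtain ⟨f, g, hf, hg, hg0⟩ := exists_match (P := P v) (Q := G.ds.filter fun d => G.pi d = v)
        (Q0 := G.ds.filter fun d => G.pi d = v ∧ z d ≠ 0)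
        (fun d => (Sum.inl ⟨d, 0⟩ : (Σ _ : D, ℕ) ⊕ V × ℕ)) (by
          intro d hd
          rw [mem_filter] at hd ⊢
          exact ⟨hd.1, hd.2.1⟩) (by
          intro d hd
          rw [mem_filter] at hd
          exact (hPl v ⟨d, 0⟩).2 ⟨⟨hd.1, hd.2.1⟩, Nat.pos_of_ne_zero hd.2.2⟩) (by
          intro d _ d' _ hdd
          have h1 := Sum.inl.inj hdd
          exact congrArg Sigma.fst h1) hc
      exact ⟨f, g, fun _ => ⟨hf, hg, hg0⟩⟩
    · exact ⟨fun _ => Classical.arbitrary D, fun d => Sum.inl ⟨d, 0⟩, fun h => absurd h hv⟩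
  choose f g hfg using hm
  let vt : (Σ _ : D, ℕ) ⊕ V × ℕ → V := fun p => p.elim (fun s => G.pi s.1) fun s => s.1
  let E : (Σ _ : D, ℕ) ⊕ V × ℕ → D := fun p => f (vt p) p
  let q : D → (Σ _ : D, ℕ) ⊕ V × ℕ := fun d => g (G.pi d) d
  have hq : ∀ d ∈ G.ds, q d ∈ P (G.pi d) ∧ vt (q d) = G.pi d ∧ E (q d) = d := by
    intro d hd
    obtain ⟨h3, h4⟩ := (hfg (G.pi d) (G.pi_mem _ hd)).2.1 d (mem_filter.2 ⟨hd, rfl⟩)
    have h5 : vt (g (G.pi d) d) = G.pi d := by
      rcases hgd : g (G.pi d) d with s | s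
      · rw [hgd] at h3
        exact ((hPl _ _).1 h3).1.2
      · rw [hgd] at h3
        exact ((hPr _ _).1 h3).1
    refine ⟨h3, h5, ?_⟩
    change f (vt (g (G.pi d) d)) (g (G.pi d) d) = d
    rw [h5]
    exact h4
  have hE : ∀ v ∈ G.vs, ∀ p ∈ P v, E p ∈ G.ds ∧ G.pi (E p) = v ∧ q (E p) = p := by
    intro v hv p hp
    have h5 : vt p = v := by
      rcases p with s | s
      · exact ((hPl _ _).1 hp).1.2
      · exact ((hPr _ _).1 hp).1
    obtain ⟨h3, h4⟩ := (hfg v hv).1 p hp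
    rw [mem_filter] at h3
    have h6 : E p = f v p := by
      change f (vt p) p = f v p
      rw [h5]
    rw [h6]
    refine ⟨h3.1, h3.2, ?_⟩
    change g (G.pi (f v p)) (f v p) = p
    rw [h3.2]
    exact h4
  have hq0 : ∀ d ∈ G.ds, z d ≠ 0 → q d = Sum.inl ⟨d, 0⟩ := fun d hd hz =>
    (hfg (G.pi d) (G.pi_mem _ hd)).2.2 d (mem_filter.2 ⟨hd, rfl, hz⟩)
  let al' : D → D := fun d => (q d).elim (fun s => E (Sum.inl ⟨G.al s.1, s.2⟩)) fun _ => d
  let ρ : D → D := fun d => (q d).elim (fun s => s.1) fun _ => d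
  -- the two kinds of darts
  have hl : ∀ d ∈ G.ds, ∀ s, q d = Sum.inl s → s.1 ∈ G.ds ∧ G.pi s.1 = G.pi d ∧ s.2 < z s.1 ∧
      ρ d = s.1 ∧ al' d ∈ G.ds ∧ q (al' d) = Sum.inl ⟨G.al s.1, s.2⟩ := by
    intro d hd s hs
    obtain ⟨h1, -, -⟩ := hq d hd
    rw [hs] at h1
    obtain ⟨⟨h2, h3⟩, h4⟩ := (hPl _ _).1 h1
    have h5 : al' d = E (Sum.inl ⟨G.al s.1, s.2⟩) := by
      change (q d).elim (fun s => E (Sum.inl ⟨G.al s.1, s.2⟩)) (fun _ => d) = _
      rw [hs]
      rfl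
    have h6 : ρ d = s.1 := by
      change (q d).elim (fun s => s.1) (fun _ => d) = _
      rw [hs]
      rfl
    obtain ⟨h7, -, h8⟩ := hE (G.pi (G.al s.1)) (G.pi_mem _ (G.al_mem _ h2))
      (Sum.inl ⟨G.al s.1, s.2⟩) ((hPl _ _).2 ⟨⟨G.al_mem _ h2, rfl⟩, by
        rw [h.sym _ h2]
        exact h4⟩)
    refine ⟨h2, h3, h4, h6, ?_, ?_⟩
    · rw [h5]
      exact h7
    · rw [h5]
      exact h8
  have hr : ∀ d ∈ G.ds, ∀ s, q d = Sum.inr s → al' d = d := by
    intro d hd s hs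
    change (q d).elim (fun s => E (Sum.inl ⟨G.al s.1, s.2⟩)) (fun _ => d) = _
    rw [hs]
    rfl
  have hinj : ∀ d ∈ G.ds, ∀ d' ∈ G.ds, q d = q d' → d = d' := by
    intro d hd d' hd' hdd
    rw [← (hq d hd).2.2, ← (hq d' hd').2.2, hdd]
  -- a dart is its own partner iff it is a token or a new token
  have hfix : ∀ d ∈ G.ds, ∀ s, q d = Sum.inl s → (al' d = d ↔ G.al s.1 = s.1) := by
    intro d hd s hs
    obtain ⟨h1, h2, h3, h4, h5, h6⟩ := hl d hd s hs
    constructor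
    · intro h7
      rw [h7, hs] at h6
      exact (congrArg Sigma.fst (Sum.inl.inj h6)).symm
    · intro h7
      refine hinj _ h5 _ hd ?_
      rw [h6, h7, hs]
  refine ⟨al', ρ, ?_, ?_, ?_, ?_, ?_, ?_⟩
  · intro d hd
    rcases hs : q d with s | s
    · exact (hl d hd s hs).2.2.2.2.1
    · rw [hr d hd s hs]
      exact hd
  · intro d hd
    rcases hs : q d with s | s
    · obtain ⟨h1, h2, h3, h4, h5, h6⟩ := hl d hd s hs
      obtain ⟨h1', h2', h3', h4', h5', h6'⟩ := hl _ h5 _ h6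
      refine hinj _ h5' _ hd ?_
      rw [h6', hs]
      change Sum.inl (⟨G.al (G.al s.1), s.2⟩ : Σ _ : D, ℕ) = _
      rw [G.al_al _ h1]
    · rw [hr d hd s hs, hr d hd s hs]
  · intro d hd hz
    have hs := hq0 d hd hz
    obtain ⟨h1, h2, h3, h4, h5, h6⟩ := hl d hd _ hs
    refine ⟨hinj _ h5 _ (G.al_mem _ hd) ?_, h4⟩
    rw [h6, hq0 _ (G.al_mem _ hd) (by rw [h.sym d hd]; exact hz)]
  · intro d hd hne
    rcases hs : q d with s | s
    · obtain ⟨h1, h2, h3, h4, h5, h6⟩ := hl d hd s hs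
      obtain ⟨h1', h2', h3', h4', h5', h6'⟩ := hl _ h5 _ h6
      rw [h4, h4']
      exact ⟨h1, fun h7 => hne ((hfix d hd s hs).2 h7), h2, rfl, by omega⟩
    · exact absurd (hr d hd s hs) hne
  · intro e he hne
    rw [← card_range (z e)]
    refine card_bij' (fun d _ => (q d).elim (fun s => s.2) fun _ => 0)
      (fun i _ => E (Sum.inl ⟨e, i⟩)) ?_ ?_ ?_ ?_
    · intro d hd
      obtain ⟨h1, h2, h3⟩ := mem_filter.1 hd
      rcases hs : q d with s | s
      · obtain ⟨k1, k2, k3, k4, k5, k6⟩ := hl d h1 s hs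
        rw [mem_range, ← h3, k4]
        exact k3
      · exact absurd (hr d h1 s hs) h2
    · intro i hi
      obtain ⟨h1, h2, h3⟩ := hE (G.pi e) (G.pi_mem _ he) (Sum.inl ⟨e, i⟩)
        ((hPl _ _).2 ⟨⟨he, rfl⟩, mem_range.1 hi⟩)
      refine mem_filter.2 ⟨h1, ?_, ?_⟩
      · intro h4
        exact hne ((hfix _ h1 _ h3).1 h4)
      · exact (hl _ h1 _ h3).2.2.2.1
    · intro d hd
      obtain ⟨h1, h2, h3⟩ := mem_filter.1 hd
      rcases hs : q d with s | s
      · obtain ⟨k1, k2, k3, k4, k5, k6⟩ := hl d h1 s hs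
        have h4 : (⟨e, s.2⟩ : Σ _ : D, ℕ) = s := by
          rw [← h3, k4]
        change E (Sum.inl ⟨e, s.2⟩) = d
        rw [h4, ← hs]
        exact (hq d h1).2.2
      · exact absurd (hr d h1 s hs) h2
    · intro i hi
      obtain ⟨h1, h2, h3⟩ := hE (G.pi e) (G.pi_mem _ he) (Sum.inl ⟨e, i⟩)
        ((hPl _ _).2 ⟨⟨he, rfl⟩, mem_range.1 hi⟩)
      rw [h3]
      rfl
  · intro v hv
    have hT : t v + ∑ d ∈ G.ds.filter (fun d => G.pi d = v ∧ G.al d = d), z d =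
        (((G.ds.filter fun d => G.pi d = v ∧ G.al d = d).sigma fun d => range (z d)).disjSum
          ((range (t v)).image fun j => (v, j))).card := by
      rw [card_disjSum, card_sigma, card_image_of_injective _ (Prod.mk_right_injective v),
        card_range, add_comm]
      congr 1
      exact sum_congr rfl fun d _ => (card_range _).symm
    rw [hT]
    refine card_bij' (fun d _ => q d) (fun p _ => E p) ?_ ?_ ?_ ?_
    · intro d hd
      obtain ⟨h1, h2, h3⟩ := mem_filter.1 hd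
      rcases hs : q d with s | s
      · obtain ⟨k1, k2, k3, k4, k5, k6⟩ := hl d h1 s hs
        rw [inl_mem_disjSum, mem_sigma, mem_filter, mem_range]
        exact ⟨⟨k1, by rw [k2, h2], (hfix d h1 s hs).1 h3⟩, k3⟩
      · have h4 := (hq d h1).1
        rw [hs, hPr, h2] at h4
        rw [inr_mem_disjSum, mem_image]
        exact ⟨s.2, mem_range.2 h4.2, by rw [← h4.1]⟩
    · intro p hp
      have hpP : p ∈ P v := by
        rcases p with s | s
        · rw [inl_mem_disjSum, mem_sigma, mem_filter, mem_range] at hp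
          exact (hPl _ _).2 ⟨⟨hp.1.1, hp.1.2.1⟩, hp.2⟩
        · rw [inr_mem_disjSum, mem_image] at hp
          obtain ⟨j, hj, rfl⟩ := hp
          exact (hPr _ _).2 ⟨rfl, mem_range.1 hj⟩
      obtain ⟨h1, h2, h3⟩ := hE v hv p hpP
      refine mem_filter.2 ⟨h1, h2, ?_⟩
      rcases p with s | s
      · rw [inl_mem_disjSum, mem_sigma, mem_filter, mem_range] at hp
        exact (hfix _ h1 s h3).2 hp.1.2.2
      · exact hr _ h1 s h3
    · intro d hd
      exact (hq d (mem_filter.1 hd).1).2.2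
    · intro p hp
      have hpP : p ∈ P v := by
        rcases p with s | s
        · rw [inl_mem_disjSum, mem_sigma, mem_filter, mem_range] at hp
          exact (hPl _ _).2 ⟨⟨hp.1.1, hp.1.2.1⟩, hp.2⟩
        · rw [inr_mem_disjSum, mem_image] at hp
          obtain ⟨j, hj, rfl⟩ := hp
          exact (hPr _ _).2 ⟨rfl, mem_range.1 hj⟩
      exact (hE v hv p hpP).2.2

end JK.CG
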